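import Pool.Agent.Lib.MP_dd84fd_nt.LX.PwDefs
import Pool.Agent.Lib.MP_dd84fd_nt.L2G.CharOrth

/-!
# PL_L-CM: coset mass

`changeLevel hd ξ * χ` at `k`: `ξ(k) χ(k)` for `(k,q) = 1` (both `0` otherwise).  Orthogonality of the characters mod `h`:
`∑_ξ |∑_k d_k conj ξ(k) |² = φ(h) ∑_{a ∈ (ℤ/h)^*} |∑_{k ≡ a} d_k|²`, `d_k = c_k conj χ(k) e(kσγ)`; for each class
`∫_u^v |∑_{k ≡ a (h)} d_k|² ≤ ((v-u) + 1/h) ∑_{k ≡ a} |c_k|²` (the integral over an interval of length `1/h` is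
`(1/h) ∑ |.|²`; number of intervals `≤ h(v-u) + 1`).  `φ(h) ≤ h`.
-/

set_option autoImplicit false

namespace Pool.MP_dd84fd_nt.LXP

open Finset Pool.MP_67663b_nt.Odd Pool.MP_dd84fd_nt.PL

private theorem cm_cont : Continuous ee := by
  unfold ee
  fun_prop

private theorem cm_int (h : ℕ) (hh : 0 < h) (m : ℤ) (hm : (h : ℤ) ∣ m) (t : ℝ) :
    ∫ x in t..(t + 1 / h), ee ((m : ℝ) * x) = if m = 0 then ((1 / h : ℝ) : ℂ) else 0 := by
  have hhR : (0 : ℝ) < h := by exact_mod_cast hh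
  by_cases h0 : m = 0
  · subst h0
    rw [if_pos rfl]
    have h1 : ∀ x : ℝ, ee (((0 : ℤ) : ℝ) * x) = 1 := by
      intro x
      rw [Int.cast_zero, zero_mul, ee_zero]
    simp_rw [h1]
    rw [intervalIntegral.integral_const]
    simp
  · rw [if_neg h0]
    have hc : (2 * (Real.pi : ℂ) * (m : ℂ) * Complex.I) ≠ 0 := by
      have h1 : (Real.pi : ℂ) ≠ 0 := by exact_mod_cast Real.pi_ne_zero
      have h2 : (m : ℂ) ≠ 0 := by exact_mod_cast h0
      exact mul_ne_zero (mul_ne_zero (mul_ne_zero two_ne_zero h1) h2) Complex.I_ne_zero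
    have hx : ∀ x : ℝ, ee ((m : ℝ) * x) =
        Complex.exp ((2 * (Real.pi : ℂ) * (m : ℂ) * Complex.I) * x) := by
      intro x
      unfold ee
      congr 1
      push_cast
      ring
    have h3 : ee ((m : ℝ) * (t + 1 / h)) = ee ((m : ℝ) * t) := by
      obtain ⟨k, hk⟩ := hm
      have e1 : (m : ℝ) * (t + 1 / (h : ℕ)) = (m : ℝ) * t + (k : ℤ) := by
        rw [hk]
        push_cast
        field_simp
      rw [e1, ee_add_int]
    have h4 : ∫ x in t..(t + 1 / (h : ℕ)), ee ((m : ℝ) * x) =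
        ∫ x in t..(t + 1 / (h : ℕ)), Complex.exp ((2 * (Real.pi : ℂ) * (m : ℂ) * Complex.I) * x) :=
      intervalIntegral.integral_congr fun x _ => hx x
    rw [h4, integral_exp_mul_complex hc, ← hx, ← hx, h3, sub_self, zero_div]

private theorem cm_cell (h : ℕ) (hh : 0 < h) (s : Finset ℕ) (d : ℕ → ℂ)
    (hs : ∀ k ∈ s, ∀ l ∈ s, (h : ℤ) ∣ (k : ℤ) - l) (σ : ℝ) (hσ : σ = 1 ∨ σ = -1) (t : ℝ) :
    ∫ x in t..(t + 1 / h), ‖∑ k ∈ s, d k * ee ((k : ℝ) * (σ * x))‖ ^ 2 =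
      1 / h * ∑ k ∈ s, ‖d k‖ ^ 2 := by
  have hcont : ∀ a : ℝ, Continuous fun x : ℝ => ee (a * x) := fun a =>
    cm_cont.comp (continuous_const.mul continuous_id)
  obtain ⟨z, hz, hz2⟩ : ∃ z : ℤ, σ = z ∧ (z = 1 ∨ z = -1) := by
    rcases hσ with h | h
    · exact ⟨1, by rw [h]; norm_num, Or.inl rfl⟩
    · exact ⟨-1, by rw [h]; norm_num, Or.inr rfl⟩
  have h1 : ((∫ x in t..(t + 1 / h), ‖∑ k ∈ s, d k * ee ((k : ℝ) * (σ * x))‖ ^ 2 : ℝ) : ℂ) =
      ((1 / h * ∑ k ∈ s, ‖d k‖ ^ 2 : ℝ) : ℂ) := by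
    rw [← intervalIntegral.integral_ofReal]
    have h2 : ∀ x : ℝ, ((‖∑ k ∈ s, d k * ee ((k : ℝ) * (σ * x))‖ ^ 2 : ℝ) : ℂ) =
        ∑ k ∈ s, ∑ l ∈ s, (d k * (starRingEnd ℂ) (d l)) *
          ee (((((k : ℤ) - (l : ℤ)) * z : ℤ) : ℝ) * x) := by
      intro x
      push_cast
      rw [← Complex.mul_conj', map_sum, sum_mul_sum]
      refine sum_congr rfl fun k _ => sum_congr rfl fun l _ => ?_
      rw [map_mul, conj_ee]
      have h3 : ((k : ℝ) - (l : ℝ)) * z * x = (k : ℝ) * (σ * x) + -((l : ℝ) * (σ * x)) := by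
        rw [hz]; ring
      rw [h3, ee_add]
      ring
    simp_rw [h2]
    rw [intervalIntegral.integral_finsetSum]
    swap
    · intro k _
      exact (continuous_finsetSum _ fun l _ => continuous_const.mul
        (hcont _)).intervalIntegrable _ _
    push_cast
    rw [mul_sum]
    refine sum_congr rfl fun k hk => ?_
    have hi : ∀ l ∈ s, IntervalIntegrable (fun x : ℝ => d k * (starRingEnd ℂ) (d l) *
        ee (((k : ℝ) - (l : ℝ)) * z * x)) MeasureTheory.volume t (t + 1 / h) := fun l _ =>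
      (continuous_const.mul (hcont _)).intervalIntegrable _ _
    rw [intervalIntegral.integral_finsetSum hi]
    have h4 : ∀ l ∈ s, ∫ x in t..(t + 1 / h), (d k * (starRingEnd ℂ) (d l)) *
        ee (((k : ℝ) - (l : ℝ)) * z * x) =
        if l = k then ((1 / h : ℝ) : ℂ) * (d k * (starRingEnd ℂ) (d l)) else 0 := by
      intro l hl
      rw [intervalIntegral.integral_const_mul]
      have h5 := cm_int h hh (((k : ℤ) - (l : ℤ)) * z) (Dvd.dvd.mul_right (hs k hk l hl) z) t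
      push_cast at h5
      rw [h5]
      by_cases hkl : l = k
      · subst hkl
        simp
        ring
      · rw [if_neg, if_neg hkl, mul_zero]
        intro h6
        apply hkl
        rcases hz2 with h7 | h7
        · rw [h7, mul_one] at h6
          omega
        · rw [h7] at h6
          omega
    rw [sum_congr rfl h4, sum_ite_eq' , if_pos hk, Complex.mul_conj']
    push_cast
    ring
  exact_mod_cast h1

private theorem cm_cells (h : ℕ) (hh : 0 < h) (s : Finset ℕ) (d : ℕ → ℂ)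
    (hs : ∀ k ∈ s, ∀ l ∈ s, (h : ℤ) ∣ (k : ℤ) - l) (σ : ℝ) (hσ : σ = 1 ∨ σ = -1) (u : ℝ)
    (N : ℕ) :
    ∫ x in u..(u + N * (1 / h)), ‖∑ k ∈ s, d k * ee ((k : ℝ) * (σ * x))‖ ^ 2 =
      N * (1 / h * ∑ k ∈ s, ‖d k‖ ^ 2) := by
  have hc : Continuous fun x : ℝ => ‖∑ k ∈ s, d k * ee ((k : ℝ) * (σ * x))‖ ^ 2 := by
    refine (continuous_norm.comp (continuous_finsetSum _ fun k _ => ?_)).pow 2
    exact continuous_const.mul (cm_cont.comp
      (continuous_const.mul (continuous_const.mul continuous_id)))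
  induction N with
  | zero => simp
  | succ N ih =>
    have h1 := intervalIntegral.integral_add_adjacent_intervals
      (hc.intervalIntegrable (μ := MeasureTheory.volume) u (u + N * (1 / h)))
      (hc.intervalIntegrable (μ := MeasureTheory.volume) (u + N * (1 / h))
        (u + N * (1 / h) + 1 / h))
    have h2 : u + ((N + 1 : ℕ) : ℝ) * (1 / h) = u + N * (1 / h) + 1 / h := by
      push_cast
      ring
    rw [h2, ← h1, ih, cm_cell h hh s d hs σ hσ]
    push_cast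
    ring

private theorem cm_class (h : ℕ) (hh : 0 < h) (s : Finset ℕ) (d : ℕ → ℂ)
    (hs : ∀ k ∈ s, ∀ l ∈ s, (h : ℤ) ∣ (k : ℤ) - l) (σ : ℝ) (hσ : σ = 1 ∨ σ = -1) (u v : ℝ)
    (huv : u ≤ v) :
    ∫ x in u..v, ‖∑ k ∈ s, d k * ee ((k : ℝ) * (σ * x))‖ ^ 2 ≤
      (v - u + 1 / h) * ∑ k ∈ s, ‖d k‖ ^ 2 := by
  have hhR : (0 : ℝ) < h := by exact_mod_cast hh
  have hc : Continuous fun x : ℝ => ‖∑ k ∈ s, d k * ee ((k : ℝ) * (σ * x))‖ ^ 2 := by
    refine (continuous_norm.comp (continuous_finsetSum _ fun k _ => ?_)).pow 2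
    exact continuous_const.mul (cm_cont.comp
      (continuous_const.mul (continuous_const.mul continuous_id)))
  obtain ⟨N, hN⟩ : ∃ N : ℕ, N = ⌈(h : ℝ) * (v - u)⌉₊ := ⟨_, rfl⟩
  have h1 : (h : ℝ) * (v - u) ≤ N := by rw [hN]; exact Nat.le_ceil _
  have h2 : (N : ℝ) ≤ h * (v - u) + 1 := by
    rw [hN]
    exact (Nat.ceil_lt_add_one (mul_nonneg hhR.le (by linarith))).le
  have h3 : v ≤ u + N * (1 / h) := by
    have : v - u ≤ N * (1 / h) := by
      rw [mul_one_div, le_div_iff₀ hhR]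
      linarith
    linarith
  have h4 : ∫ x in u..v, ‖∑ k ∈ s, d k * ee ((k : ℝ) * (σ * x))‖ ^ 2 ≤
      ∫ x in u..(u + N * (1 / h)), ‖∑ k ∈ s, d k * ee ((k : ℝ) * (σ * x))‖ ^ 2 := by
    refine intervalIntegral.integral_mono_interval le_rfl huv h3 ?_ (hc.intervalIntegrable _ _)
    exact Filter.Eventually.of_forall fun x => sq_nonneg _
  rw [cm_cells h hh s d hs σ hσ u N] at h4
  refine h4.trans ?_
  have h5 : 0 ≤ ∑ k ∈ s, ‖d k‖ ^ 2 := sum_nonneg fun _ _ => sq_nonneg _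
  rw [← mul_assoc]
  refine mul_le_mul_of_nonneg_right ?_ h5
  rw [mul_one_div, div_le_iff₀ hhR]
  have h6 : (v - u + 1 / h) * h = h * (v - u) + 1 := by
    field_simp
  rw [h6]
  exact h2

theorem coset_mass (q h : ℕ) [NeZero q] [NeZero h] (hd : h ∣ q) (K : ℕ) (c : ℕ → ℂ)
    (χ : DirichletCharacter ℂ q) (u v σ : ℝ) (hσ : σ = 1 ∨ σ = -1) (huv : u ≤ v) :
    ∑ ξ : DirichletCharacter ℂ h, ∫ γ in u..v,
      ‖cS q K c (DirichletCharacter.changeLevel hd ξ * χ) (σ * γ)‖ ^ 2 ≤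
      (h * (v - u) + 1) * ∑ k ∈ Icc 1 K, ‖c k‖ ^ 2 := by
  classical
  have hh : 0 < h := Nat.pos_of_ne_zero (NeZero.ne h)
  have hhR : (0 : ℝ) < h := by exact_mod_cast hh
  have hval : ∀ (ξ : DirichletCharacter ℂ h) (m : ℕ),
      (DirichletCharacter.changeLevel hd ξ * χ) (m : ZMod q) = χ m * ξ m := by
    intro ξ m
    by_cases hu : IsUnit ((m : ℕ) : ZMod q)
    · have hc : m.Coprime q := (ZMod.isUnit_iff_coprime m q).1 hu
      have hci : IsCoprime ((m : ℕ) : ℤ) ((q : ℕ) : ℤ) := Nat.isCoprime_iff_coprime.2 hc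
      have e1 := DirichletCharacter.changeLevel_eq_cast_of_dvd' ξ hd hci
      rw [MulChar.mul_apply, mul_comm]
      congr 1
      simpa using e1
    · rw [MulChar.map_nonunit _ hu, MulChar.map_nonunit χ hu, zero_mul]
  obtain ⟨d, hd'⟩ : ∃ d : ℕ → ℂ, d = fun k => (starRingEnd ℂ) (c k) * χ k := ⟨_, rfl⟩
  have hσ' : -σ = 1 ∨ -σ = -1 := by
    rcases hσ with h | h
    · exact Or.inr (by rw [h])
    · exact Or.inl (by rw [h, neg_neg])
  have hcS : ∀ (ξ : DirichletCharacter ℂ h) (γ : ℝ),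
      ‖cS q K c (DirichletCharacter.changeLevel hd ξ * χ) (σ * γ)‖ ^ 2 =
      ‖∑ k ∈ Icc 1 K, (d k * ee ((k : ℝ) * (-σ * γ))) * ξ k‖ ^ 2 := by
    intro ξ γ
    congr 1
    rw [← Complex.norm_conj]
    congr 1
    unfold cS
    rw [map_sum]
    refine sum_congr rfl fun k _ => ?_
    rw [map_mul, map_mul, Complex.conj_conj, conj_ee, hval, hd']
    have e1 : -((k : ℝ) * (σ * γ)) = (k : ℝ) * (-σ * γ) := by ring
    rw [e1]
    ring
  have hcl : ∀ (b : ZMod h) (γ : ℝ), Continuous fun γ : ℝ =>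
      ‖∑ k ∈ (Icc 1 K).filter (fun n : ℕ => (n : ZMod h) = b),
        d k * ee ((k : ℝ) * (-σ * γ))‖ ^ 2 := by
    intro b _
    refine (continuous_norm.comp (continuous_finsetSum _ fun k _ => ?_)).pow 2
    exact continuous_const.mul (cm_cont.comp
      (continuous_const.mul (continuous_const.mul continuous_id)))
  have h1 : ∑ ξ : DirichletCharacter ℂ h, ∫ γ in u..v,
      ‖cS q K c (DirichletCharacter.changeLevel hd ξ * χ) (σ * γ)‖ ^ 2 =
      (Nat.totient h : ℝ) * ∑ b ∈ univ.filter (fun b : ZMod h => IsUnit b), ∫ γ in u..v,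
        ‖∑ k ∈ (Icc 1 K).filter (fun n : ℕ => (n : ZMod h) = b),
          d k * ee ((k : ℝ) * (-σ * γ))‖ ^ 2 := by
    rw [← intervalIntegral.integral_finsetSum, ← intervalIntegral.integral_finsetSum,
      ← intervalIntegral.integral_const_mul]
    · refine intervalIntegral.integral_congr fun γ _ => ?_
      show ∑ ξ : DirichletCharacter ℂ h,
        ‖cS q K c (DirichletCharacter.changeLevel hd ξ * χ) (σ * γ)‖ ^ 2 = _
      rw [sum_congr rfl fun ξ _ => hcS ξ γ]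
      exact L2G.char_parseval h (Icc 1 K) (fun k => d k * ee ((k : ℝ) * (-σ * γ)))
    · intro b _
      exact (hcl b 0).intervalIntegrable _ _
    · intro ξ _
      have e1 : (fun γ : ℝ => ‖cS q K c (DirichletCharacter.changeLevel hd ξ * χ) (σ * γ)‖ ^ 2) =
          fun γ : ℝ => ‖∑ k ∈ Icc 1 K, (d k * ee ((k : ℝ) * (-σ * γ))) * ξ k‖ ^ 2 :=
        funext fun γ => hcS ξ γ
      rw [e1]
      refine Continuous.intervalIntegrable ?_ _ _
      refine (continuous_norm.comp (continuous_finsetSum _ fun k _ => ?_)).pow 2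
      exact (continuous_const.mul (cm_cont.comp
        (continuous_const.mul (continuous_const.mul continuous_id)))).mul continuous_const
  rw [h1]
  have h2 : ∀ b ∈ univ.filter (fun b : ZMod h => IsUnit b), ∫ γ in u..v,
        ‖∑ k ∈ (Icc 1 K).filter (fun n : ℕ => (n : ZMod h) = b),
          d k * ee ((k : ℝ) * (-σ * γ))‖ ^ 2 ≤
      (v - u + 1 / h) * ∑ k ∈ (Icc 1 K).filter (fun n : ℕ => (n : ZMod h) = b), ‖c k‖ ^ 2 := by
    intro b _
    refine (cm_class h hh _ d ?_ (-σ) hσ' u v huv).trans ?_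
    · intro k hk l hl
      rw [mem_filter] at hk hl
      have e1 : ((k : ℤ) : ZMod h) = ((l : ℤ) : ZMod h) := by
        push_cast
        rw [hk.2, hl.2]
      have e2 := (ZMod.intCast_eq_intCast_iff_dvd_sub _ _ _).1 e1.symm
      exact e2
    · refine mul_le_mul_of_nonneg_left (sum_le_sum fun k _ => ?_) (by
        have : (0 : ℝ) ≤ 1 / h := by positivity
        linarith)
      rw [hd']
      have e1 := DirichletCharacter.norm_le_one χ (k : ZMod q)
      have e2 : ‖(starRingEnd ℂ) (c k) * χ k‖ ≤ ‖c k‖ := by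
        rw [norm_mul, Complex.norm_conj]
        exact mul_le_of_le_one_right (norm_nonneg _) e1
      exact pow_le_pow_left₀ (norm_nonneg _) e2 2
  have h3 : ∑ b ∈ univ.filter (fun b : ZMod h => IsUnit b), ∫ γ in u..v,
        ‖∑ k ∈ (Icc 1 K).filter (fun n : ℕ => (n : ZMod h) = b),
          d k * ee ((k : ℝ) * (-σ * γ))‖ ^ 2 ≤
      (v - u + 1 / h) * ∑ k ∈ Icc 1 K, ‖c k‖ ^ 2 := by
    have hnn : (0 : ℝ) ≤ v - u + 1 / h := by
      have : (0 : ℝ) ≤ 1 / h := by positivity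
      linarith
    rw [← Finset.sum_fiberwise (Icc 1 K) (fun n : ℕ => (n : ZMod h)), Finset.mul_sum]
    refine (Finset.sum_le_sum h2).trans ?_
    exact Finset.sum_le_sum_of_subset_of_nonneg (Finset.filter_subset _ _)
      (fun b _ _ => mul_nonneg hnn (Finset.sum_nonneg fun _ _ => by positivity))
  have h5 : (Nat.totient h : ℝ) ≤ h := by exact_mod_cast Nat.totient_le h
  have h6 : 0 ≤ (v - u + 1 / h) * ∑ k ∈ Icc 1 K, ‖c k‖ ^ 2 := by
    have : (0 : ℝ) ≤ 1 / h := by positivity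
    exact mul_nonneg (by linarith) (Finset.sum_nonneg fun _ _ => by positivity)
  calc (Nat.totient h : ℝ) * _ ≤ (Nat.totient h : ℝ) *
        ((v - u + 1 / h) * ∑ k ∈ Icc 1 K, ‖c k‖ ^ 2) :=
        mul_le_mul_of_nonneg_left h3 (by positivity)
    _ ≤ h * ((v - u + 1 / h) * ∑ k ∈ Icc 1 K, ‖c k‖ ^ 2) :=
        mul_le_mul_of_nonneg_right h5 h6
    _ = (h * (v - u) + 1) * ∑ k ∈ Icc 1 K, ‖c k‖ ^ 2 := by
        field_simp

end Pool.MP_dd84fd_nt.LXP
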