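import Pool.Agent.Lib.MP_dd84fd_nt.LX.PwDefs

/-!
# PL_L-Cnt: the number of large values

`lv_coset k` (`JX/LvPow.lean`) with `h = q`, `χ = 1`, `j0 = 0`, `T = J0` (`changeLevel (dvd_refl q) ξ = ξ`); the coefficients of `alm` are
`conj (a m)` on `MM.filter (Coprime m q)` (as in the use of `lv_coset` in `JX/LvOne.lean`, `lv_one`);
`M^k (φ(q) J0 + M^k) ≤ 2 (M^k)²`.
-/

set_option autoImplicit false

namespace Pool.MP_dd84fd_nt.LXP

open Finset Pool.MP_67663b_nt.Odd Pool.MP_dd84fd_nt.PL Pool.MP_dd84fd_nt.JXP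

theorem cnt_large (k : ℕ) (hk : 1 ≤ k) : ∃ C : ℝ, 0 < C ∧ ∀ (q : ℕ) [NeZero q] (M A0 v D : ℝ)
    (MM : Finset ℕ) (a : ℕ → ℂ) (J0 : ℕ), 1 ≤ M → 1 ≤ J0 → 0 < A0 → 0 < v → 1 ≤ D →
    (∀ m ∈ MM, M < (m : ℝ) ∧ (m : ℝ) ≤ 2 * M) → (∀ m ∈ MM, ‖a m‖ ≤ A0) →
    (∀ n : ℕ, 1 ≤ n → (n : ℝ) ≤ (2 * M) ^ k → (n.divisors.card : ℝ) ^ k ≤ D) →
    (Nat.totient q : ℝ) * J0 ≤ M ^ k →
    ((LgC q MM a M (v * A0 * M) J0).card : ℝ) ≤ C * (D ^ 2 / v ^ (2 * k)) := by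
  classical
  obtain ⟨C1, hC1, h1⟩ := lv_coset k hk
  refine ⟨2 * C1, by positivity, ?_⟩
  intro q _ M A0 v D MM a J0 hM hJ0 hA0 hv hD hMM ha hDM hφ
  have hM0 : 0 < M := by linarith
  have h2 := h1 q q (dvd_refl q) M A0 (v * A0 * M) D (MM.filter (fun m => Nat.Coprime m q))
    (fun m => (starRingEnd ℂ) (a m)) 1 0 J0 hM hJ0 hA0.le (by positivity) hD
    (fun m hm => hMM m (Finset.mem_filter.1 hm).1)
    (fun m hm => by rw [RCLike.norm_conj]; exact ha m (Finset.mem_filter.1 hm).1) hDM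
  have h3 : ((LgC q MM a M (v * A0 * M) J0).card : ℝ) =
      ∑ ξ : DirichletCharacter ℂ q, ∑ j ∈ Icc ((0 : ℤ) - J0) (0 + J0),
      (if v * A0 * M < ‖∑ m ∈ MM.filter (fun m => Nat.Coprime m q), (starRingEnd ℂ) (a m) *
        (DirichletCharacter.changeLevel (dvd_refl q) ξ * 1) m *
        ee ((j : ℝ) * (Real.log (m / M) / 2))‖ then (1 : ℝ) else 0) := by
    unfold LgC
    rw [← Finset.sum_boole, Finset.sum_product, zero_sub, zero_add]
    refine Finset.sum_congr rfl fun ξ _ => Finset.sum_congr rfl fun j _ => ?_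
    rw [DirichletCharacter.changeLevel_self, mul_one]
    rfl
  rw [h3]
  refine h2.trans ?_
  have e1 : (A0 / (v * A0 * M)) ^ (2 * k) = 1 / (v ^ (2 * k) * (M ^ k * M ^ k)) := by
    have : A0 / (v * A0 * M) = 1 / (v * M) := by field_simp
    rw [this, div_pow, one_pow, mul_pow, ← pow_add]
    congr 3
    ring
  have hMk : 0 < M ^ k := by positivity
  have hvk : 0 < v ^ (2 * k) := by positivity
  rw [e1]
  have e2 : C1 * (1 / (v ^ (2 * k) * (M ^ k * M ^ k))) * D ^ 2 * M ^ k *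
      (Nat.totient q * J0 + M ^ k) =
      C1 * (D ^ 2 / v ^ (2 * k)) * ((Nat.totient q : ℝ) * J0 / M ^ k + 1) := by
    field_simp
  rw [e2]
  have h4 : (Nat.totient q : ℝ) * J0 / M ^ k ≤ 1 := by
    rw [div_le_one hMk]
    exact hφ
  calc C1 * (D ^ 2 / v ^ (2 * k)) * ((Nat.totient q : ℝ) * J0 / M ^ k + 1) ≤
      C1 * (D ^ 2 / v ^ (2 * k)) * 2 := by
        refine mul_le_mul_of_nonneg_left (by linarith) (by positivity)
    _ = _ := by ring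

/-- the mean value on a coset window for `alm` (`mv_coset`, as in `cvf_struct`) -/
theorem alm_window : ∃ C : ℝ, 0 < C ∧ ∀ (q h : ℕ) [NeZero q] [NeZero h] (hd : h ∣ q) (M A0 : ℝ)
    (MM : Finset ℕ) (a : ℕ → ℂ), 1 ≤ M → 0 ≤ A0 →
    (∀ m ∈ MM, M < (m : ℝ) ∧ (m : ℝ) ≤ 2 * M) → (∀ m ∈ MM, ‖a m‖ ≤ A0) →
    ∀ (T : ℕ), 1 ≤ T → ∀ (χ : DirichletCharacter ℂ q) (j : ℤ),
    ∑ ξ : DirichletCharacter ℂ h, ∑ i ∈ Icc (j - T) (j + T),
      ‖alm q MM a M (DirichletCharacter.changeLevel hd ξ * χ, i)‖ ^ 2 ≤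
      (C * A0 ^ 2 * M * h) * T + C * A0 ^ 2 * M * M := by
  classical
  obtain ⟨C, hC, h1⟩ := mv_coset
  refine ⟨C, hC, ?_⟩
  intro q h _ _ hd M A0 MM a hM hA0 hMM ha T hT χ j
  have hM0 : 0 < M := by linarith
  have h2 := h1 q h hd M A0 (MM.filter (fun m => Nat.Coprime m q))
    (fun m => (starRingEnd ℂ) (a m)) χ j T hM hT hA0
    (fun m hm => hMM m (Finset.mem_filter.1 hm).1)
    (fun m hm => by rw [RCLike.norm_conj]; exact ha m (Finset.mem_filter.1 hm).1)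
  have h3 : ∑ ξ : DirichletCharacter ℂ h, ∑ i ∈ Icc (j - T) (j + T),
      ‖alm q MM a M (DirichletCharacter.changeLevel hd ξ * χ, i)‖ ^ 2 ≤
      C * A0 ^ 2 * M * (Nat.totient h * T + M) := by
    unfold alm
    exact h2
  refine h3.trans ?_
  have h4 : (Nat.totient h : ℝ) ≤ h := by exact_mod_cast Nat.totient_le h
  have h5 : (Nat.totient h : ℝ) * T ≤ h * T := mul_le_mul_of_nonneg_right h4 (Nat.cast_nonneg T)
  calc C * A0 ^ 2 * M * (Nat.totient h * T + M) ≤ C * A0 ^ 2 * M * (h * T + M) := by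
        refine mul_le_mul_of_nonneg_left (by linarith) (by positivity)
    _ = _ := by ring

end Pool.MP_dd84fd_nt.LXP
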