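import Pool.Agent.Lib.MP_dd84fd_nt.LX.PwGS
import Pool.Agent.Lib.MP_dd84fd_nt.L2G.PV

/-!
# PL_L-PV: the Polya-Vinogradov inequality

For `Ψ ≠ 1` mod `Q` induced by the primitive `ψ` mod `d`, `d > 1`, `d ∣ Q`: `∑_{k ≤ K, (k,Q)=1} ψ(k) = ∑_{g ∣ Q} μ(g) ψ(g) ∑_{k ≤ K/g} ψ(k)`.
Primitive: `gs_prim`: `conj ψ(k) τ(ψ) = ∑_y ψ(y) e(ky/d)`, `|τ| = √d`, `y ≠ 0`:
`|∑_{k ≤ K} e(ky/d)| ≤ 1/(2 ‖y/d‖) `, `∑_{0<y<d} 1/(2‖y/d‖) ≤ d (1 + log d)`: `|∑_{k≤K} conj ψ(k)| ≤ √d (1 + log d)`.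
Then partial summation for `e(kθ)`: factor `1 + 2πK|θ| ≤ 7 (1 + K|θ|)`.
(`L2G.PV_all` and partial summation.)
-/

set_option autoImplicit false

namespace Pool.MP_dd84fd_nt.LXP

open Finset Pool.MP_67663b_nt.Odd Pool.MP_dd84fd_nt.PL

private theorem abel (a E : ℕ → ℂ) (K : ℕ) :
    ∑ k ∈ Icc 1 K, a k * E k = (∑ k ∈ Icc 1 K, a k) * E (K + 1) -
      ∑ k ∈ Icc 1 K, (∑ j ∈ Icc 1 k, a j) * (E (k + 1) - E k) := by
  induction K with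
  | zero => simp
  | succ K ih =>
    rw [Finset.sum_Icc_succ_top (by omega), Finset.sum_Icc_succ_top (by omega), ih]
    rw [Finset.sum_Icc_succ_top (by omega) (fun k => (∑ j ∈ Icc 1 k, a j) * (E (k + 1) - E k)),
      Finset.sum_Icc_succ_top (by omega)]
    ring

theorem pv_sum : ∃ C : ℝ, 0 < C ∧ ∀ (Q : ℕ) [NeZero Q] (Ψ : DirichletCharacter ℂ Q), Ψ ≠ 1 →
    ∀ (K : ℕ) (θ : ℝ), ‖∑ k ∈ Icc 1 K, Ψ (k : ZMod Q) * ee ((k : ℝ) * θ)‖ ≤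
      C * (1 + K * |θ|) * Real.sqrt Q * (Q.divisors.card : ℝ) * (1 + Real.log Q) := by
  refine ⟨7, by norm_num, fun Q _ Ψ hΨ K θ => ?_⟩
  obtain ⟨Bd, hBd⟩ : ∃ Bd : ℝ, Bd = (Q.divisors.card : ℝ) * Real.sqrt Q * (1 + Real.log Q) :=
    ⟨_, rfl⟩
  have hB0 : 0 ≤ Bd := by
    have := Real.log_natCast_nonneg Q
    rw [hBd]
    positivity
  have hS : ∀ m : ℕ, ‖∑ j ∈ Icc 1 m, Ψ (j : ZMod Q)‖ ≤ Bd := by
    intro m
    have h := L2G.PV_all Q Ψ hΨ 1 (m + 1)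
    rw [hBd]
    have e : Ico 1 (m + 1) = Icc 1 m := by
      ext j
      rw [Finset.mem_Ico, Finset.mem_Icc]
      omega
    rw [e] at h
    exact h
  rw [abel (fun k => Ψ (k : ZMod Q)) (fun k => ee ((k : ℝ) * θ)) K]
  have h1 : ‖(∑ k ∈ Icc 1 K, Ψ (k : ZMod Q)) * ee (((K + 1 : ℕ) : ℝ) * θ)‖ ≤ Bd := by
    rw [norm_mul, norm_ee, mul_one]
    exact hS K
  have h2 : ‖∑ k ∈ Icc 1 K, (∑ j ∈ Icc 1 k, Ψ (j : ZMod Q)) *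
      (ee (((k + 1 : ℕ) : ℝ) * θ) - ee ((k : ℝ) * θ))‖ ≤ K * (Bd * (2 * Real.pi * |θ|)) := by
    refine (norm_sum_le _ _).trans ?_
    have h3 : ∀ k ∈ Icc 1 K, ‖(∑ j ∈ Icc 1 k, Ψ (j : ZMod Q)) *
        (ee (((k + 1 : ℕ) : ℝ) * θ) - ee ((k : ℝ) * θ))‖ ≤ Bd * (2 * Real.pi * |θ|) := by
      intro k _
      rw [norm_mul]
      refine mul_le_mul (hS k) ?_ (norm_nonneg _) hB0
      refine (norm_ee_sub_ee_le _ _).trans (le_of_eq ?_)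
      congr 2
      push_cast
      ring
    have h4 := Finset.sum_le_card_nsmul _ _ _ h3
    rw [Nat.card_Icc, nsmul_eq_mul] at h4
    simpa using h4
  refine (norm_sub_le _ _).trans ((add_le_add h1 h2).trans ?_)
  have h5 : Real.pi ≤ 35 / 10 := by
    have := Real.pi_lt_d2
    linarith
  have h6 : 0 ≤ (K : ℝ) * Bd * |θ| := by positivity
  have h7 : (K : ℝ) * (Bd * (2 * Real.pi * |θ|)) = 2 * Real.pi * ((K : ℝ) * Bd * |θ|) := by ring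
  have h8 : 2 * Real.pi * ((K : ℝ) * Bd * |θ|) ≤ 7 * ((K : ℝ) * Bd * |θ|) :=
    mul_le_mul_of_nonneg_right (by linarith) h6
  have h9 : 7 * (1 + K * |θ|) * Real.sqrt Q * (Q.divisors.card : ℝ) * (1 + Real.log Q) =
      7 * Bd + 7 * ((K : ℝ) * Bd * |θ|) := by
    rw [hBd]
    ring
  rw [h9, h7]
  linarith

end Pool.MP_dd84fd_nt.LXP
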