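import Pool.Agent.Lib.MP_dd84fd_nt.LX.PwHM
import Pool.Agent.Lib.MP_dd84fd_nt.LX.PwPV
import Pool.Agent.Lib.MP_dd84fd_nt.En.Tot

/-!
# PL_L-FC: the masses of few characters, sum over the moduli

Group the pairs `(q, χ)`, `q ∈ QQ`, `χ ∈ Ω q`, by `r = q / χ.conductor` (`χ.conductor ∣ q`).  `φ(q) ≥ φ(d) φ(r)`, `d = χ.conductor`:
`d/φ(q) ≤ (d/φ(d)) / φ(r) ≤ C (1 + log X) / φ(r)`.  For fixed `r`: `hm_few` with `ι = Σ q, DirichletCharacter ℂ q`,
`φ (q,χ) k = χ k`: for two different pairs with the same `r` the product `χ conj χ'` is, mod `m = lcm q q' ≤ N`, the nonprincipal character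
`changeLevel χ * (changeLevel χ')⁻¹` (if it were `1`: the conductors agree, hence `q = q'`, and `changeLevel` is injective);
`pv_sum`: `B = C (1 + K (v-u)) √N Dv (1 + log X)`.  `∑_{r ≤ X} 1/φ(r) ≤ C (1 + log X)`.
-/

set_option autoImplicit false

namespace Pool.MP_dd84fd_nt.LXP

open Finset Pool.MP_67663b_nt.Odd Pool.MP_dd84fd_nt.PL

private theorem FC_val {q q' m : ℕ} [NeZero m] (χ : DirichletCharacter ℂ q)
    (χ' : DirichletCharacter ℂ q') (hm : m = Nat.lcm q q') (h1 : q ∣ m) (h2 : q' ∣ m) (k : ℕ) :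
    (DirichletCharacter.changeLevel h1 χ * (DirichletCharacter.changeLevel h2 χ')⁻¹)
      (k : ZMod m) = χ (k : ZMod q) * (starRingEnd ℂ) (χ' (k : ZMod q')) := by
  by_cases hk : Nat.Coprime k m
  · have hu : IsCoprime (k : ℤ) (m : ℤ) := Nat.isCoprime_iff_coprime.2 hk
    have e1 := DirichletCharacter.changeLevel_eq_cast_of_dvd' χ h1 hu
    have e2 := DirichletCharacter.changeLevel_eq_cast_of_dvd' χ' h2 hu
    push_cast at e1 e2
    rw [MulChar.mul_apply, e1, ← MulChar.star_eq_inv, MulChar.star_apply, e2]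
    rfl
  · have hz : (DirichletCharacter.changeLevel h1 χ *
        (DirichletCharacter.changeLevel h2 χ')⁻¹) (k : ZMod m) = 0 := by
      refine MulChar.map_nonunit _ ?_
      rw [ZMod.isUnit_iff_coprime]
      exact hk
    rw [hz]
    have hor : ¬ Nat.Coprime k q ∨ ¬ Nat.Coprime k q' := by
      by_contra hcon
      push Not at hcon
      refine hk ?_
      have h3 : Nat.Coprime k (q * q') := Nat.Coprime.mul_right hcon.1 hcon.2
      rw [hm]
      exact h3.coprime_dvd_right (Nat.lcm_dvd_mul q q')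
    rcases hor with h | h
    · have : χ (k : ZMod q) = 0 := by
        refine MulChar.map_nonunit _ ?_
        rw [ZMod.isUnit_iff_coprime]
        exact h
      rw [this, zero_mul]
    · have : χ' (k : ZMod q') = 0 := by
        refine MulChar.map_nonunit _ ?_
        rw [ZMod.isUnit_iff_coprime]
        exact h
      rw [this, map_zero, mul_zero]

private theorem FC_ne {m : ℕ} [NeZero m] (p p' : Σ q : ℕ, DirichletCharacter ℂ q)
    (h1 : p.1 ∣ m) (h2 : p'.1 ∣ m) (hr : p.1 / p.2.conductor = p'.1 / p'.2.conductor)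
    (hne : p ≠ p') :
    DirichletCharacter.changeLevel h1 p.2 * (DirichletCharacter.changeLevel h2 p'.2)⁻¹ ≠ 1 := by
  obtain ⟨q, χ⟩ := p
  obtain ⟨q', χ'⟩ := p'
  intro h
  have h3 : DirichletCharacter.changeLevel h1 χ = DirichletCharacter.changeLevel h2 χ' :=
    mul_inv_eq_one.1 h
  have h4 : χ.conductor = χ'.conductor := by
    rw [← DirichletCharacter.conductor_changeLevel χ h1, h3,
      DirichletCharacter.conductor_changeLevel χ' h2]
  have h5 : q = q' := by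
    have e1 := Nat.mul_div_cancel' χ.conductor_dvd_level
    have e2 := Nat.mul_div_cancel' χ'.conductor_dvd_level
    simp only at hr
    rw [← e1, ← e2, hr, h4]
  subst h5
  exact hne (by rw [DirichletCharacter.changeLevel_injective h1 h3])

private theorem FC_logb (X : ℕ) (q : ℕ) (hq : 1 ≤ q) (hqX : q ≤ X) :
    1 + Real.logb 2 q ≤ 2 * (1 + Real.log X) := by
  have h1 : Real.logb 2 q = Real.log q / Real.log 2 := rfl
  have h2 : Real.log q ≤ Real.log X :=
    Real.log_le_log (by exact_mod_cast hq) (by exact_mod_cast hqX)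
  have h3 : (0.5 : ℝ) < Real.log 2 := by have := Real.log_two_gt_d9; linarith
  have h4 : 0 ≤ Real.log q := Real.log_natCast_nonneg q
  have h5 : Real.log q / Real.log 2 ≤ 2 * Real.log q := by
    rw [div_le_iff₀ (by linarith)]
    nlinarith
  rw [h1]
  linarith

private theorem FC_tot (X : ℕ) (q : ℕ) (hq : 1 ≤ q) (hqX : q ≤ X) :
    (q : ℝ) / Nat.totient q ≤ 2 * (1 + Real.log X) := by
  have h1 := En.totient_ge q hq
  have h2 := FC_logb X q hq hqX
  have h3 : (0 : ℝ) < Nat.totient q := by exact_mod_cast Nat.totient_pos.2 hq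
  rw [div_le_iff₀ h3]
  nlinarith

private theorem FC_harm (X : ℕ) :
    ∑ r ∈ Icc 1 X, 1 / (Nat.totient r : ℝ) ≤ 2 * (1 + Real.log X) * (1 + Real.log X) := by
  have h1 : ∑ r ∈ Icc 1 X, 1 / (Nat.totient r : ℝ) ≤
      ∑ r ∈ Icc 1 X, 2 * (1 + Real.log X) * ((r : ℝ))⁻¹ := by
    refine sum_le_sum ?_
    intro r hr
    have hr' := mem_Icc.1 hr
    have h2 := FC_tot X r hr'.1 hr'.2
    have h3 : (0 : ℝ) < Nat.totient r := by exact_mod_cast Nat.totient_pos.2 hr'.1
    have h4 : (0 : ℝ) < r := by exact_mod_cast hr'.1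
    rw [div_le_iff₀ h3] at h2
    rw [div_le_iff₀ h3, mul_assoc, inv_mul_eq_div, ← mul_div_assoc, le_div_iff₀ h4]
    linarith
  have h2 : ∑ r ∈ Icc 1 X, ((r : ℝ))⁻¹ ≤ 1 + Real.log X := by
    have h3 := harmonic_le_one_add_log X
    rw [harmonic_eq_sum_Icc] at h3
    push_cast at h3
    exact h3
  have h5 : 0 ≤ Real.log X := Real.log_natCast_nonneg X
  calc _ ≤ _ := h1
    _ = 2 * (1 + Real.log X) * ∑ r ∈ Icc 1 X, ((r : ℝ))⁻¹ := by rw [mul_sum]
    _ ≤ _ := mul_le_mul_of_nonneg_left h2 (by positivity)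

theorem fc_sum : ∃ C : ℝ, 0 < C ∧ ∀ (X : ℕ) (QQ : Finset ℕ) (N : ℝ), 2 ≤ X → Fam QQ N → N ≤ X →
    ∀ (Ω : ∀ q : ℕ, Finset (DirichletCharacter ℂ q)) (R Dv : ℝ),
    (∑ q ∈ QQ, ((Ω q).card : ℝ) ≤ R) → 1 ≤ Dv →
    (∀ m : ℕ, 1 ≤ m → (m : ℝ) ≤ N → (m.divisors.card : ℝ) ≤ Dv) →
    ∀ (K : ℕ) (c : ℕ → ℂ) (u v σ : ℝ), (σ = 1 ∨ σ = -1) → u ≤ v → v - u ≤ 1 →
    C * R * (1 + K * (v - u)) * Real.sqrt N * Dv * (1 + Real.log X) * (v - u) ≤ 1 →
    ∑ q ∈ QQ, 1 / (Nat.totient q : ℝ) * ∑ χ ∈ Ω q, (χ.conductor : ℝ) *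
      ∫ γ in u..v, ‖cS q K c χ (σ * γ)‖ ^ 2 ≤
      C * (1 + Real.log X) ^ 3 * ∑ k ∈ Icc 1 K, ‖c k‖ ^ 2 := by
  classical
  obtain ⟨C0, hC0, hpv⟩ := pv_sum
  refine ⟨C0 + 8, by linarith, ?_⟩
  intro X QQ N hX hQ hNX Ω R Dv hR hDv hdiv K c u v σ hσ huv hv hsm
  have hlX : 0 ≤ Real.log X := Real.log_natCast_nonneg X
  have hw : 0 ≤ v - u := by linarith
  have hR0 : 0 ≤ R := le_trans (sum_nonneg fun _ _ => Nat.cast_nonneg _) hR
  have hsN : 0 ≤ Real.sqrt N := Real.sqrt_nonneg N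
  have hDv0 : 0 ≤ Dv := by linarith
  set B : ℝ := C0 * (1 + K * (v - u)) * Real.sqrt N * Dv * (1 + Real.log X) with hBdef
  have hB0 : 0 ≤ B := by positivity
  have hRB : R * B * (v - u) ≤ 1 := by
    refine le_trans ?_ hsm
    have h1 : 0 ≤ 8 * R * (1 + K * (v - u)) * Real.sqrt N * Dv * (1 + Real.log X) * (v - u) := by
      positivity
    have h2 : (C0 + 8) * R * (1 + K * (v - u)) * Real.sqrt N * Dv * (1 + Real.log X) * (v - u) =
        R * B * (v - u) +
          8 * R * (1 + K * (v - u)) * Real.sqrt N * Dv * (1 + Real.log X) * (v - u) := by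
      rw [hBdef]
      ring
    rw [h2]
    linarith
  have hq1 : ∀ q ∈ QQ, 1 ≤ q := hQ.1
  have hqX : ∀ q ∈ QQ, q ≤ X := by
    intro q hq
    have h1 := hQ.2 q hq q hq
    rw [Nat.lcm_self] at h1
    exact_mod_cast h1.trans hNX
  set P : Finset (Σ q : ℕ, DirichletCharacter ℂ q) := QQ.sigma Ω with hP
  set rr : (Σ q : ℕ, DirichletCharacter ℂ q) → ℕ := fun p => p.1 / p.2.conductor with hrr
  set I : (Σ q : ℕ, DirichletCharacter ℂ q) → ℝ :=
    fun p => ∫ γ in u..v, ‖cS p.1 K c p.2 (σ * γ)‖ ^ 2 with hI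
  have hI0 : ∀ p, 0 ≤ I p := fun p =>
    intervalIntegral.integral_nonneg huv (fun _ _ => sq_nonneg _)
  set S : ℝ := ∑ k ∈ Icc 1 K, ‖c k‖ ^ 2 with hS
  have hS0 : 0 ≤ S := sum_nonneg fun _ _ => sq_nonneg _
  have hcard : (P.card : ℝ) ≤ R := by
    rw [hP, card_sigma]
    push_cast
    exact hR
  -- the sum over one class
  have hcls : ∀ r : ℕ, ∑ p ∈ P.filter (fun p => rr p = r), I p ≤ 2 * S := by
    intro r
    have h1 := hm_few (P.filter (fun p => rr p = r)) (fun p k => p.2 (k : ZMod p.1))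
      (fun p _ k => DirichletCharacter.norm_le_one p.2 _) K c u v σ B hσ huv hv hB0 ?_
    · refine h1.trans ?_
      have h2 : ((P.filter (fun p => rr p = r)).card : ℝ) * B * (v - u) ≤ 1 := by
        refine le_trans ?_ hRB
        have h3 : ((P.filter (fun p => rr p = r)).card : ℝ) ≤ R :=
          le_trans (by exact_mod_cast card_filter_le _ _) hcard
        exact mul_le_mul_of_nonneg_right (mul_le_mul_of_nonneg_right h3 hB0) hw
      exact mul_le_mul_of_nonneg_right (by linarith) hS0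
    · intro p hp p' hp' hne θ hθ
      rw [mem_filter] at hp hp'
      have hpQ : p.1 ∈ QQ := (mem_sigma.1 hp.1).1
      have hpQ' : p'.1 ∈ QQ := (mem_sigma.1 hp'.1).1
      have hm1 : 1 ≤ Nat.lcm p.1 p'.1 :=
        Nat.lcm_pos (hq1 _ hpQ) (hq1 _ hpQ')
      have : NeZero (Nat.lcm p.1 p'.1) := ⟨by omega⟩
      have hmN := hQ.2 _ hpQ _ hpQ'
      have h2 := hpv (Nat.lcm p.1 p'.1) _ (FC_ne p p' (Nat.dvd_lcm_left _ _)
        (Nat.dvd_lcm_right _ _) (hp.2.trans hp'.2.symm) hne) K θ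
      have h3 : ∑ k ∈ Icc 1 K, p.2 (k : ZMod p.1) * (starRingEnd ℂ) (p'.2 (k : ZMod p'.1)) *
          ee ((k : ℝ) * θ) = ∑ k ∈ Icc 1 K,
          (DirichletCharacter.changeLevel (Nat.dvd_lcm_left p.1 p'.1) p.2 *
            (DirichletCharacter.changeLevel (Nat.dvd_lcm_right p.1 p'.1) p'.2)⁻¹)
            (k : ZMod (Nat.lcm p.1 p'.1)) * ee ((k : ℝ) * θ) :=
        sum_congr rfl fun k _ => by rw [FC_val p.2 p'.2 rfl]
      show ‖∑ k ∈ Icc 1 K, p.2 (k : ZMod p.1) * (starRingEnd ℂ) (p'.2 (k : ZMod p'.1)) *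
          ee ((k : ℝ) * θ)‖ ≤ B
      rw [h3]
      refine h2.trans ?_
      rw [hBdef]
      have e1 : Real.sqrt (Nat.lcm p.1 p'.1 : ℕ) ≤ Real.sqrt N := Real.sqrt_le_sqrt hmN
      have e2 := hdiv _ hm1 hmN
      have e3 : Real.log (Nat.lcm p.1 p'.1 : ℕ) ≤ Real.log X :=
        Real.log_le_log (by exact_mod_cast hm1) (hmN.trans hNX)
      have e4 : 0 ≤ Real.log (Nat.lcm p.1 p'.1 : ℕ) := Real.log_natCast_nonneg _
      have e5 : C0 * (1 + K * |θ|) ≤ C0 * (1 + K * (v - u)) := by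
        refine mul_le_mul_of_nonneg_left ?_ hC0.le
        have := mul_le_mul_of_nonneg_left hθ (Nat.cast_nonneg K : (0 : ℝ) ≤ K)
        linarith
      have e6 : 0 ≤ C0 * (1 + K * |θ|) := by positivity
      have e7 : 0 ≤ C0 * (1 + K * (v - u)) := by positivity
      refine mul_le_mul (mul_le_mul (mul_le_mul e5 e1 (Real.sqrt_nonneg _) e7) e2
        (Nat.cast_nonneg _) (by positivity)) (by linarith) (by linarith) (by positivity)
  -- the weights
  have hwt : ∀ p ∈ P, 1 / (Nat.totient p.1 : ℝ) * (p.2.conductor : ℝ) ≤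
      2 * (1 + Real.log X) * (1 / (Nat.totient (rr p) : ℝ)) := by
    intro p hp
    have hpQ : p.1 ∈ QQ := (mem_sigma.1 hp).1
    have hp1 := hq1 _ hpQ
    have hd := p.2.conductor_dvd_level
    have hd1 : 1 ≤ p.2.conductor := Nat.pos_of_dvd_of_pos hd hp1
    have hdX : p.2.conductor ≤ X := (Nat.le_of_dvd hp1 hd).trans (hqX _ hpQ)
    have hr1 : 1 ≤ rr p := Nat.div_pos (Nat.le_of_dvd hp1 hd) hd1
    have h1 : p.2.conductor * rr p = p.1 := Nat.mul_div_cancel' hd
    have h2 : Nat.totient p.2.conductor * Nat.totient (rr p) ≤ Nat.totient p.1 := by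
      conv_rhs => rw [← h1]
      exact Nat.totient_super_multiplicative _ _
    have h3 : (0 : ℝ) < Nat.totient p.2.conductor := by exact_mod_cast Nat.totient_pos.2 hd1
    have h4 : (0 : ℝ) < Nat.totient (rr p) := by exact_mod_cast Nat.totient_pos.2 hr1
    have h5 : ((Nat.totient p.2.conductor : ℝ)) * Nat.totient (rr p) ≤ Nat.totient p.1 := by
      exact_mod_cast h2
    have h6 := FC_tot X _ hd1 hdX
    calc 1 / (Nat.totient p.1 : ℝ) * (p.2.conductor : ℝ)
        = (p.2.conductor : ℝ) / (Nat.totient p.1 : ℝ) := by ring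
      _ ≤ (p.2.conductor : ℝ) / ((Nat.totient p.2.conductor : ℝ) * Nat.totient (rr p)) :=
          div_le_div_of_nonneg_left (Nat.cast_nonneg _) (by positivity) h5
      _ = (p.2.conductor : ℝ) / (Nat.totient p.2.conductor : ℝ) * (1 / Nat.totient (rr p)) := by
          field_simp
      _ ≤ _ := mul_le_mul_of_nonneg_right h6 (by positivity)
  have hmaps : ∀ p ∈ P, rr p ∈ Icc 1 X := by
    intro p hp
    have hpQ : p.1 ∈ QQ := (mem_sigma.1 hp).1
    have hp1 := hq1 _ hpQ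
    have hd := p.2.conductor_dvd_level
    have hd1 : 1 ≤ p.2.conductor := Nat.pos_of_dvd_of_pos hd hp1
    rw [mem_Icc]
    exact ⟨Nat.div_pos (Nat.le_of_dvd hp1 hd) hd1, (Nat.div_le_self _ _).trans (hqX _ hpQ)⟩
  have hmain : ∑ q ∈ QQ, 1 / (Nat.totient q : ℝ) * ∑ χ ∈ Ω q, (χ.conductor : ℝ) *
      ∫ γ in u..v, ‖cS q K c χ (σ * γ)‖ ^ 2 =
      ∑ p ∈ P, 1 / (Nat.totient p.1 : ℝ) * (p.2.conductor : ℝ) * I p := by
    rw [hP, sum_sigma]
    refine sum_congr rfl fun q _ => ?_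
    rw [mul_sum]
    refine sum_congr rfl fun χ _ => ?_
    simp only [hI]
    ring
  rw [hmain]
  calc ∑ p ∈ P, 1 / (Nat.totient p.1 : ℝ) * (p.2.conductor : ℝ) * I p
      ≤ ∑ p ∈ P, 2 * (1 + Real.log X) * (1 / (Nat.totient (rr p) : ℝ)) * I p :=
        sum_le_sum fun p hp => mul_le_mul_of_nonneg_right (hwt p hp) (hI0 p)
    _ = ∑ r ∈ Icc 1 X, ∑ p ∈ P.filter (fun p => rr p = r),
          2 * (1 + Real.log X) * (1 / (Nat.totient (rr p) : ℝ)) * I p :=
        (sum_fiberwise_of_maps_to (f := fun p => 2 * (1 + Real.log X) *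
          (1 / (Nat.totient (rr p) : ℝ)) * I p) hmaps).symm
    _ = ∑ r ∈ Icc 1 X, 2 * (1 + Real.log X) * (1 / (Nat.totient r : ℝ)) *
          ∑ p ∈ P.filter (fun p => rr p = r), I p := by
        refine sum_congr rfl fun r _ => ?_
        rw [mul_sum]
        refine sum_congr rfl fun p hp => ?_
        have e1 : rr p = r := (mem_filter.1 hp).2
        rw [e1]
    _ ≤ ∑ r ∈ Icc 1 X, 2 * (1 + Real.log X) * (1 / (Nat.totient r : ℝ)) * (2 * S) := by
        refine sum_le_sum fun r _ => ?_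
        refine mul_le_mul_of_nonneg_left (hcls r) ?_
        positivity
    _ = 4 * (1 + Real.log X) * S * ∑ r ∈ Icc 1 X, (1 / (Nat.totient r : ℝ)) := by
        rw [mul_sum _ _ (4 * (1 + Real.log X) * S)]
        refine sum_congr rfl fun r _ => ?_
        ring
    _ ≤ 4 * (1 + Real.log X) * S * (2 * (1 + Real.log X) * (1 + Real.log X)) :=
        mul_le_mul_of_nonneg_left (FC_harm X) (by positivity)
    _ = 8 * (1 + Real.log X) ^ 3 * S := by ring
    _ ≤ (C0 + 8) * (1 + Real.log X) ^ 3 * S := by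
        refine mul_le_mul_of_nonneg_right ?_ hS0
        refine mul_le_mul_of_nonneg_right (by linarith) (by positivity)

end Pool.MP_dd84fd_nt.LXP
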