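import Pool.Agent.Lib.MP_dd84fd_nt.LX.PwGS

/-!
# PL_L-Mass: the mass of the inner function at one character

`B = tp K (cq q c)`, `r = σ ρ`.  Parseval in `t` for `G(t) = (1/φ(q)) ∑_y χ(y) Bt q B r y t`: `fq q (Bt ..) χ j = fc G j`,
`∑_j |fq|² = ∫_0^1 |G|²` (`fc_parseval`).
`B(y/q + r e^{2t}) = ∑_{k ≤ K, (k,q)=1} c_k e(ky/q) e(k r e^{2t})`, `gs_unit`: `G(t) = (τ/φ(q)) cS q K c χ (r e^{2t})` for `0 ≤ t < 1`
(`Int.fract t = t`; `χ(k) = 0` for `(k,q) > 1`).  `γ = ρ e^{2t}`, `dt = dγ/(2γ) ≤ dγ/(2ρ)`, `e² ≤ 8`.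
-/

set_option autoImplicit false

namespace Pool.MP_dd84fd_nt.LXP

open Finset Pool.MP_67663b_nt.Odd Pool.MP_dd84fd_nt.PL Pool.MP_dd84fd_nt.HX Pool.MP_dd84fd_nt.HXP

private theorem pm_norm (x : ℝ) : ‖ee x‖ = 1 := by
  unfold ee
  rw [show (2 * (Real.pi : ℂ) * (x : ℂ) * Complex.I) = ((2 * Real.pi * x : ℝ) : ℂ) * Complex.I by
    push_cast; ring]
  exact Complex.norm_exp_ofReal_mul_I _

private theorem pm_add (x y : ℝ) : ee (x + y) = ee x * ee y := by
  unfold ee
  rw [← Complex.exp_add]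
  congr 1
  push_cast
  ring

private theorem pm_ee_cont : Continuous (fun x : ℝ => ee x) := by
  unfold ee
  fun_prop

private theorem pm_tp_cont (K : ℕ) (c : ℕ → ℂ) : Continuous (tp K c) := by
  unfold tp
  refine continuous_finsetSum _ fun k _ => ?_
  exact continuous_const.mul (pm_ee_cont.comp (continuous_const.mul continuous_id))

private theorem pm_cS_cont (q K : ℕ) (c : ℕ → ℂ) (χ : DirichletCharacter ℂ q) :
    Continuous (cS q K c χ) := by
  unfold cS
  refine continuous_finsetSum _ fun k _ => ?_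
  exact continuous_const.mul (pm_ee_cont.comp (continuous_const.mul continuous_id))

private theorem pm_tp_le (K : ℕ) (c : ℕ → ℂ) (θ : ℝ) : ‖tp K c θ‖ ≤ ∑ k ∈ Icc 1 K, ‖c k‖ := by
  unfold tp
  refine (norm_sum_le _ _).trans (Finset.sum_le_sum fun k _ => ?_)
  rw [norm_mul, pm_norm, mul_one]

private theorem pm_Bt_meas (q : ℕ) (B : ℝ → ℂ) (r : ℝ) (hB : Continuous B) (y : ZMod q) :
    Measurable (Bt q B r y) := by
  unfold Bt
  refine hB.measurable.comp ?_
  refine measurable_const.add (measurable_const.mul ?_)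
  exact Real.measurable_exp.comp (measurable_const.mul measurable_fract)

/-- the value of the mean over `y` -/
private theorem pm_G (q : ℕ) [NeZero q] (K : ℕ) (c : ℕ → ℂ) (r : ℝ) (χ : DirichletCharacter ℂ q)
    (t : ℝ) (h0 : 0 ≤ t) (h1 : t < 1) :
    (1 / (Nat.totient q : ℂ)) * ∑ y : ZMod q, χ y * Bt q (tp K (cq q c)) r y t =
      (tq q χ / (Nat.totient q : ℂ)) * cS q K c χ (r * Real.exp (2 * t)) := by
  have hfr : Int.fract t = t := Int.fract_eq_self.2 ⟨h0, h1⟩
  have e1 : ∑ y : ZMod q, χ y * Bt q (tp K (cq q c)) r y t =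
      tq q χ * cS q K c χ (r * Real.exp (2 * t)) := by
    unfold Bt tp cS
    rw [hfr, Finset.mul_sum]
    have e2 : ∀ y : ZMod q, χ y * ∑ k ∈ Icc 1 K, cq q c k *
        ee ((k : ℝ) * ((y.val : ℝ) / q + r * Real.exp (2 * t))) =
        ∑ k ∈ Icc 1 K, cq q c k * ee ((k : ℝ) * (r * Real.exp (2 * t))) *
          (χ y * ee ((k : ℝ) * ((y.val : ℝ) / q))) := by
      intro y
      rw [Finset.mul_sum]
      refine Finset.sum_congr rfl fun k _ => ?_
      rw [mul_add, pm_add]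
      ring
    rw [Finset.sum_congr rfl fun y _ => e2 y, Finset.sum_comm]
    refine Finset.sum_congr rfl fun k _ => ?_
    rw [← Finset.mul_sum]
    by_cases hk : Nat.Coprime k q
    · rw [gs_unit q χ k hk]
      unfold cq
      rw [if_pos hk]
      ring
    · have hχ : χ (k : ZMod q) = 0 := by
        apply MulChar.map_nonunit
        rw [ZMod.isUnit_iff_coprime]
        exact hk
      unfold cq
      rw [if_neg hk, hχ, map_zero]
      ring
  rw [e1]
  ring

theorem mass_chi (q : ℕ) [NeZero q] (K : ℕ) (c : ℕ → ℂ) (σ ρ : ℝ) (hσ : σ = 1 ∨ σ = -1)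
    (hρ : 0 < ρ) (χ : DirichletCharacter ℂ q) :
    (Summable fun j : ℤ => ‖fq q (Bt q (tp K (cq q c)) (σ * ρ)) χ j‖ ^ 2) ∧
    (Nat.totient q : ℝ) * ∑' j : ℤ, ‖fq q (Bt q (tp K (cq q c)) (σ * ρ)) χ j‖ ^ 2 ≤
      (‖tq q χ‖ ^ 2 / Nat.totient q) * (1 / (2 * ρ)) *
        ∫ γ in ρ..(8 * ρ), ‖cS q K c χ (σ * γ)‖ ^ 2 := by
  have hq0 : 0 < q := Nat.pos_of_ne_zero (NeZero.ne q)
  have hφ : (0 : ℝ) < Nat.totient q := by
    exact_mod_cast Nat.totient_pos.2 hq0
  have hφc : (Nat.totient q : ℂ) ≠ 0 := by exact_mod_cast hφ.ne'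
  obtain ⟨B, hB⟩ : ∃ B : ℝ → ℂ, B = tp K (cq q c) := ⟨_, rfl⟩
  have hBc : Continuous B := by rw [hB]; exact pm_tp_cont K _
  obtain ⟨S, hS⟩ : ∃ S : ℝ, S = ∑ k ∈ Icc 1 K, ‖cq q c k‖ := ⟨_, rfl⟩
  have hS0 : 0 ≤ S := by rw [hS]; positivity
  have hBS : ∀ θ, ‖B θ‖ ≤ S := by
    intro θ
    rw [hB, hS]
    exact pm_tp_le K _ θ
  obtain ⟨G, hG⟩ : ∃ G : ℝ → ℂ, G = fun t => (1 / (Nat.totient q : ℂ)) *
      ∑ y : ZMod q, χ y * Bt q B (σ * ρ) y t := ⟨_, rfl⟩
  have hmeas : ∀ y : ZMod q, Measurable (Bt q B (σ * ρ) y) := fun y =>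
    pm_Bt_meas q B (σ * ρ) hBc y
  have hBtb : ∀ (y : ZMod q) (t : ℝ), ‖Bt q B (σ * ρ) y t‖ ≤ S := fun y t => hBS _
  have hGm : Measurable G := by
    rw [hG]
    exact (Finset.measurable_sum _ fun y _ => (hmeas y).const_mul _).const_mul _
  have hGb : ∀ t, ‖G t‖ ≤ ‖(1 / (Nat.totient q : ℂ))‖ * ∑ y : ZMod q, ‖χ y‖ * S := by
    intro t
    rw [hG]
    simp only
    rw [norm_mul]
    refine mul_le_mul_of_nonneg_left ?_ (norm_nonneg _)
    refine (norm_sum_le _ _).trans (Finset.sum_le_sum fun y _ => ?_)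
    rw [norm_mul]
    exact mul_le_mul_of_nonneg_left (hBtb y t) (norm_nonneg _)
  -- the Fourier coefficients
  have hfc : ∀ j : ℤ, fq q (Bt q B (σ * ρ)) χ j = fc G j := by
    intro j
    unfold fq fc
    rw [hG]
    simp only
    have hee : Continuous (fun t : ℝ => ee ((j : ℝ) * t)) :=
      pm_ee_cont.comp (continuous_const.mul continuous_id)
    have hint : ∀ y : ZMod q, IntervalIntegrable
        (fun t => Bt q B (σ * ρ) y t * ee ((j : ℝ) * t)) MeasureTheory.volume 0 1 := by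
      intro y
      rw [intervalIntegrable_iff_integrableOn_Ioc_of_le zero_le_one]
      refine MeasureTheory.Integrable.mono' (g := fun _ => S)
        (by
          have := MeasureTheory.integrableOn_const (μ := MeasureTheory.volume) (s := Set.Ioc (0 : ℝ) 1)
            (C := S) (by simp) (by simp)
          exact this)
        (((hmeas y).mul hee.measurable).aestronglyMeasurable) ?_
      refine Filter.Eventually.of_forall fun t => ?_
      rw [norm_mul, pm_norm, mul_one]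
      exact hBtb y t
    have e1 : ∀ t : ℝ, (1 / (Nat.totient q : ℂ)) * (∑ y : ZMod q, χ y * Bt q B (σ * ρ) y t) *
        ee ((j : ℝ) * t) = (1 / (Nat.totient q : ℂ)) * ∑ y : ZMod q, χ y *
          (Bt q B (σ * ρ) y t * ee ((j : ℝ) * t)) := by
      intro t
      rw [mul_assoc, Finset.sum_mul]
      congr 1
      refine Finset.sum_congr rfl fun y _ => ?_
      ring
    simp only [e1]
    rw [intervalIntegral.integral_const_mul, intervalIntegral.integral_finsetSum
      (fun y _ => (hint y).const_mul _)]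
    congr 1
    refine Finset.sum_congr rfl fun y _ => ?_
    rw [intervalIntegral.integral_const_mul]
  have hpar := fc_parseval G _ hGm hGb
  have hfun : (fun j : ℤ => ‖fq q (Bt q B (σ * ρ)) χ j‖ ^ 2) = fun j : ℤ => ‖fc G j‖ ^ 2 := by
    funext j
    rw [hfc j]
  rw [← hB]
  refine ⟨by rw [hfun]; exact hpar.summable, ?_⟩
  rw [hfun, hpar.tsum_eq]
  -- the value of `G`
  obtain ⟨g, hg⟩ : ∃ g : ℝ → ℝ, g = fun γ => ‖cS q K c χ (σ * γ)‖ ^ 2 := ⟨_, rfl⟩
  have hgc : Continuous g := by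
    rw [hg]
    exact ((pm_cS_cont q K c χ).comp (continuous_const.mul continuous_id)).norm.pow 2
  have hg0 : ∀ x, 0 ≤ g x := fun x => by rw [hg]; positivity
  have hGv : ∫ t in (0 : ℝ)..1, ‖G t‖ ^ 2 =
      ∫ t in (0 : ℝ)..1, (‖tq q χ‖ ^ 2 / (Nat.totient q : ℝ) ^ 2) * g (ρ * Real.exp (2 * t)) := by
    refine intervalIntegral.integral_congr_Ioo_of_le zero_le_one fun t ht => ?_
    have h3 : G t = (tq q χ / (Nat.totient q : ℂ)) * cS q K c χ (σ * ρ * Real.exp (2 * t)) := by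
      rw [hG, hB]
      exact pm_G q K c (σ * ρ) χ t ht.1.le ht.2
    rw [h3, hg, norm_mul, mul_pow, norm_div, Complex.norm_natCast, div_pow]
    simp only
    rw [mul_assoc σ ρ]
  rw [hGv, intervalIntegral.integral_const_mul]
  -- substitution
  have hsub : ∫ t in (0 : ℝ)..1, g (ρ * Real.exp (2 * t)) ≤
      (1 / (2 * ρ)) * ∫ γ in ρ..(8 * ρ), g γ := by
    have hd : ∀ x ∈ Set.uIcc (0 : ℝ) 1, HasDerivAt (fun t : ℝ => ρ * Real.exp (2 * t))
        (ρ * (Real.exp (2 * x) * 2)) x := by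
      intro x _
      have h1 : HasDerivAt (fun t : ℝ => 2 * t) 2 x := by
        simpa using (hasDerivAt_id x).const_mul 2
      exact (h1.exp).const_mul ρ
    have hd' : ContinuousOn (fun x : ℝ => ρ * (Real.exp (2 * x) * 2)) (Set.uIcc 0 1) := by
      fun_prop
    have h2 := intervalIntegral.integral_comp_mul_deriv hd hd' hgc
    have hexpc : Continuous (fun t : ℝ => ρ * Real.exp (2 * t)) := by fun_prop
    have hc1 : Continuous (fun t : ℝ => g (ρ * Real.exp (2 * t))) := hgc.comp hexpc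
    have hc2 : Continuous (fun t : ℝ => (1 / (2 * ρ)) *
        ((g ∘ fun t : ℝ => ρ * Real.exp (2 * t)) t * (ρ * (Real.exp (2 * t) * 2)))) := by
      refine continuous_const.mul ((hgc.comp hexpc).mul ?_)
      fun_prop
    calc ∫ t in (0 : ℝ)..1, g (ρ * Real.exp (2 * t))
        ≤ ∫ t in (0 : ℝ)..1, (1 / (2 * ρ)) *
          ((g ∘ fun t : ℝ => ρ * Real.exp (2 * t)) t * (ρ * (Real.exp (2 * t) * 2))) := by
          refine intervalIntegral.integral_mono_on zero_le_one (hc1.intervalIntegrable _ _)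
            (hc2.intervalIntegrable _ _) fun t ht => ?_
          have h3 : 1 ≤ Real.exp (2 * t) := Real.one_le_exp (by linarith [ht.1])
          have h4 := hg0 (ρ * Real.exp (2 * t))
          have h5 : (1 / (2 * ρ)) * ((g ∘ fun t : ℝ => ρ * Real.exp (2 * t)) t *
              (ρ * (Real.exp (2 * t) * 2))) = g (ρ * Real.exp (2 * t)) * Real.exp (2 * t) := by
            show (1 / (2 * ρ)) * (g (ρ * Real.exp (2 * t)) * (ρ * (Real.exp (2 * t) * 2))) = _
            field_simp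
          rw [h5]
          exact le_mul_of_one_le_right h4 h3
      _ = (1 / (2 * ρ)) * ∫ γ in (ρ * Real.exp (2 * 0))..(ρ * Real.exp (2 * 1)), g γ := by
          rw [intervalIntegral.integral_const_mul, h2]
      _ ≤ (1 / (2 * ρ)) * ∫ γ in ρ..(8 * ρ), g γ := by
          refine mul_le_mul_of_nonneg_left ?_ (by positivity)
          have e1 : ρ * Real.exp (2 * 0) = ρ := by rw [mul_zero, Real.exp_zero, mul_one]
          rw [e1]
          have e2 : Real.exp (2 * 1) ≤ 8 := by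
            have h6 := Real.exp_one_lt_d9
            have h7 : Real.exp (2 * 1) = Real.exp 1 * Real.exp 1 := by
              rw [← Real.exp_add]
              norm_num
            have h8 := Real.exp_pos 1
            rw [h7]
            nlinarith
          have e3 : 1 ≤ Real.exp (2 * 1) := Real.one_le_exp (by norm_num)
          exact intervalIntegral.integral_mono_interval le_rfl (by nlinarith) (by nlinarith)
            (Filter.Eventually.of_forall hg0) (hgc.intervalIntegrable _ _)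
  have hT : (0 : ℝ) ≤ ‖tq q χ‖ ^ 2 / (Nat.totient q : ℝ) := by positivity
  have e5 : (∫ γ in ρ..(8 * ρ), ‖cS q K c χ (σ * γ)‖ ^ 2) = ∫ γ in ρ..(8 * ρ), g γ := by
    rw [hg]
  rw [e5]
  calc (Nat.totient q : ℝ) * ((‖tq q χ‖ ^ 2 / (Nat.totient q : ℝ) ^ 2) *
        ∫ t in (0 : ℝ)..1, g (ρ * Real.exp (2 * t)))
      = (‖tq q χ‖ ^ 2 / (Nat.totient q : ℝ)) * ∫ t in (0 : ℝ)..1, g (ρ * Real.exp (2 * t)) := by
        field_simp
    _ ≤ (‖tq q χ‖ ^ 2 / (Nat.totient q : ℝ)) * ((1 / (2 * ρ)) * ∫ γ in ρ..(8 * ρ), g γ) :=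
        mul_le_mul_of_nonneg_left hsub hT
    _ = _ := by ring

end Pool.MP_dd84fd_nt.LXP
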