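import Pool.Agent.Lib.MP_dd84fd_nt.LX.PwOne
import Pool.Agent.Lib.MP_dd84fd_nt.LX.PwCnt
import Pool.Agent.Lib.MP_dd84fd_nt.LX.PwMass
import Pool.Agent.Lib.MP_dd84fd_nt.LX.PwCM
import Pool.Agent.Lib.MP_dd84fd_nt.LX.PwFC
import Pool.Agent.Lib.MP_dd84fd_nt.JX.PlLam

/-!
# PL_L-LamA: a function independent of `a` against a wide block, one modulus

`f` = the block, `g` = the function independent of `a`: its coefficients vanish for `χ ≠ 1`, so in `one_q_supp` only the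
characters `Ω` of the block which factor through `h = q/(q,n)` occur (`OmH`); `Zw`: their mass (`mass_chi`).
`zw_large`: `Zw ≤ (h/φ(q)) (1/(2ρ)) (7hρ + 1) ∑|c_k|²` (`gs_cond`, `coset_mass`).
`zw_small`: the sum of `Zw` over the moduli with `φ(h) ≤ R1` (`fc_sum`).
-/

set_option autoImplicit false

namespace Pool.MP_dd84fd_nt.LXP

open Finset Pool.MP_67663b_nt.Odd Pool.MP_dd84fd_nt.PL Pool.MP_dd84fd_nt.HX Pool.MP_dd84fd_nt.HXP
open Pool.MP_dd84fd_nt.JXP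

open Classical in
/-- the characters mod `q` which factor through `h_q` -/
noncomputable def OmH (n q : ℕ) : Finset (DirichletCharacter ℂ q) :=
  if hc : q ≠ 0 then
    haveI : NeZero q := ⟨hc⟩
    (univ : Finset (DirichletCharacter ℂ q)).filter (fun χ => χ.FactorsThrough (hq q n))
  else ∅

theorem mem_OmH (n q : ℕ) [NeZero q] (χ : DirichletCharacter ℂ q) :
    χ ∈ OmH n q ↔ χ.FactorsThrough (hq q n) := by
  classical
  unfold OmH
  rw [dif_pos (NeZero.ne q)]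
  simp

theorem hq_dvd (q n : ℕ) : hq q n ∣ q := Nat.div_dvd_of_dvd (Nat.gcd_dvd_left q n)

theorem hq_pos (q n : ℕ) (hq1 : 1 ≤ q) : 1 ≤ hq q n := by
  unfold hq
  exact Nat.div_pos (Nat.le_of_dvd hq1 (Nat.gcd_dvd_left q n)) (Nat.gcd_pos_of_pos_left _ hq1)

theorem sum_OmH (n q : ℕ) [NeZero q] [NeZero (hq q n)] (F : DirichletCharacter ℂ q → ℝ) :
    ∑ χ ∈ OmH n q, F χ = ∑ ξ : DirichletCharacter ℂ (hq q n),
      F (DirichletCharacter.changeLevel (hq_dvd q n) ξ) := by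
  classical
  symm
  refine Finset.sum_bij (fun ξ _ => DirichletCharacter.changeLevel (hq_dvd q n) ξ) ?_ ?_ ?_ ?_
  · intro ξ _
    rw [mem_OmH]
    exact ⟨hq_dvd q n, ξ, rfl⟩
  · intro ξ _ ξ' _ h
    exact DirichletCharacter.changeLevel_injective (hq_dvd q n) h
  · intro χ hχ
    rw [mem_OmH] at hχ
    obtain ⟨h1, ξ, h2⟩ := hχ
    exact ⟨ξ, Finset.mem_univ _, h2.symm⟩
  · intro ξ _
    rfl

theorem card_OmH (n q : ℕ) [NeZero q] : ((OmH n q).card : ℝ) ≤ hq q n := by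
  have hh : 1 ≤ hq q n := hq_pos q n (Nat.pos_of_ne_zero (NeZero.ne q))
  have : NeZero (hq q n) := ⟨by omega⟩
  have h1 := sum_OmH n q (fun _ => (1 : ℝ))
  rw [Finset.sum_const, nsmul_eq_mul, mul_one, Finset.sum_const, nsmul_eq_mul, mul_one] at h1
  rw [h1, Finset.card_univ, ← Nat.card_eq_fintype_card,
    DirichletCharacter.card_eq_totient_of_hasEnoughRootsOfUnity]
  exact_mod_cast Nat.totient_le _

/-- the mass of the characters which factor through `h_q` -/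
noncomputable def Zw (q : ℕ) [NeZero q] (n K : ℕ) (c : ℕ → ℂ) (σ ρ : ℝ) : ℝ :=
  ∑ χ ∈ OmH n q, (‖tq q χ‖ ^ 2 / Nat.totient q) * (1 / (2 * ρ)) *
    ∫ γ in ρ..(8 * ρ), ‖cS q K c χ (σ * γ)‖ ^ 2

theorem int_nn (q K : ℕ) (c : ℕ → ℂ) (χ : DirichletCharacter ℂ q) (σ u v : ℝ) (huv : u ≤ v) :
    0 ≤ ∫ γ in u..v, ‖cS q K c χ (σ * γ)‖ ^ 2 :=
  intervalIntegral.integral_nonneg huv fun _ _ => sq_nonneg _

theorem Zw_nonneg (q : ℕ) [NeZero q] (n K : ℕ) (c : ℕ → ℂ) (σ ρ : ℝ) (hρ : 0 < ρ) :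
    0 ≤ Zw q n K c σ ρ := by
  unfold Zw
  refine Finset.sum_nonneg fun χ _ => ?_
  have := int_nn q K c χ σ ρ (8 * ρ) (by linarith)
  positivity

theorem lw_one : ∃ C : ℝ, 0 < C ∧ ∀ (X n q : ℕ) [NeZero q] (β σ : ℝ), 1 ≤ X → n ≤ X → 0 < β →
    (σ = 1 ∨ σ = -1) → 1 ≤ n → ∀ (lam : ℝ → ℂ) (Λ : ℝ), Continuous lam → (∀ x, ‖lam x‖ ≤ Λ) →
    ∀ (M Am : ℝ) (K : ℕ) (MM : Finset ℕ) (a c : ℕ → ℂ), 1 ≤ M → 0 ≤ Am →
    (∀ m ∈ MM, M < (m : ℝ) ∧ (m : ℝ) ≤ 2 * M) → (∀ m ∈ MM, ‖a m‖ ≤ Am) →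
    ∀ (Bs Bd : ℝ) (J : ℕ), (∀ x, ‖tp K (cq q c) x‖ ≤ Bs) → Λ ≤ Bd → 2 * M * Am * Bs ≤ Bd →
    1 ≤ J → 8 * β ≤ J →
    ‖Bq X β σ n q (fun _ x => lam x) (f2f MM a (tp K (cq q c)) σ q)‖ ≤
      β / X * (C * (1 + Real.log J) * ltK (hq q n) *
        (Λ * Real.sqrt (Nat.totient q) *
          Real.sqrt (Zw q n K c σ (M * (β / X)))) *
        (Am * Real.sqrt (M * (hq q n * (1 + β) + M))) +
      C * Nat.totient q * Bd ^ 2 / Real.sqrt J) := by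
  classical
  obtain ⟨C0, hC0, h0⟩ := one_q_supp
  obtain ⟨C1, hC1, h1⟩ := alm_window
  obtain ⟨C2, hC2, h2s⟩ := cvf_struct
  refine ⟨C0 * (1 + Real.sqrt (3 * C1)), by positivity, ?_⟩
  intro X n q _ β σ hX hn hβ hσ hn1 lam Λ hlc hΛ M Am K MM a c hM hAm hMM ha Bs Bd J hBs hΛB hMB hJ hβJ
  have hX0 : (0 : ℝ) < X := by exact_mod_cast hX
  have hq1 : 1 ≤ q := Nat.pos_of_ne_zero (NeZero.ne q)
  have hd : hq q n ∣ q := hq_dvd q n
  have hh1 : 1 ≤ hq q n := hq_pos q n hq1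
  have : NeZero (hq q n) := ⟨by omega⟩
  have hΛ0 : 0 ≤ Λ := (norm_nonneg _).trans (hΛ 0)
  have hBs0 : 0 ≤ Bs := (norm_nonneg _).trans (hBs 0)
  have hBd0 : 0 ≤ Bd := hΛ0.trans hΛB
  have hcB : Continuous (tp K (cq q c)) := by
    unfold tp ee
    fun_prop
  have hpB : ∀ x, tp K (cq q c) (x + 1) = tp K (cq q c) x := by
    intro x
    unfold tp
    refine Finset.sum_congr rfl fun k _ => ?_
    congr 1
    unfold ee
    rw [Complex.exp_eq_exp_iff_exists_int]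
    exact ⟨k, by push_cast; ring⟩
  obtain ⟨ρ0, hρ0⟩ : ∃ ρ0 : ℝ, ρ0 = M * (β / X) := ⟨_, rfl⟩
  have hρ0p : 0 < ρ0 := by rw [hρ0]; positivity
  rw [← hρ0]
  obtain ⟨r, hr⟩ : ∃ r : ℝ, r = σ * ρ0 := ⟨_, rfl⟩
  obtain ⟨hgm, hgb, -⟩ :=
    h2s q (hq q n) hd M Am r MM a (tp K (cq q c)) Bs hM hAm hMM ha hcB hBs
  obtain ⟨F, hF⟩ : ∃ F : ℝ → ℂ, F = ltF lam (β / X) := ⟨_, rfl⟩
  have hFm : Measurable F := by rw [hF]; exact ltF_meas lam hlc (β / X)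
  have hFb : ∀ t, ‖F t‖ ≤ Λ := by rw [hF]; exact ltF_bound lam (β / X) Λ hΛ
  obtain ⟨hsum1, hts1⟩ := lt_beta q F Λ hFm hFb
  -- exchange the two functions
  have e0 : Bq X β σ n q (fun _ x => lam x) (f2f MM a (tp K (cq q c)) σ q) =
      Bq X β σ n q (f2f MM a (tp K (cq q c)) σ q) (fun _ x => lam x) := by
    unfold Bq
    refine Finset.sum_congr rfl fun a' _ => ?_
    refine intervalIntegral.integral_congr fun x _ => ?_
    show lam x * f2f MM a (tp K (cq q c)) σ q a' x * _ =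
      f2f MM a (tp K (cq q c)) σ q a' x * lam x * _
    rw [mul_comm (lam x)]
  -- rewrite Bq
  have e1 := Bq_eq X hX β σ hβ n q (f2f MM a (tp K (cq q c)) σ q) (fun _ x => lam x)
    (cvf q MM a M r (tp K (cq q c))) (fun _ => F)
    (by
      intro a'
      unfold f2f
      refine continuous_finsetSum _ fun m _ => ?_
      refine continuous_const.mul (hcB.comp ?_)
      fun_prop)
    (fun _ => hlc)
    (by
      intro a' _ t ht ht'
      rw [hr, hρ0]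
      exact cvf_eq q MM a M (β / X) σ (tp K (cq q c)) (by linarith) hMM hpB a' t ht ht')
    (by
      intro a' _ t ht ht'
      rw [hF]
      unfold ltF
      rw [Set.indicator_of_mem (Set.mem_Ico.2 ⟨ht, ht'⟩)])
  rw [e0, e1, norm_mul, Complex.norm_real, Real.norm_of_nonneg (by positivity)]
  refine mul_le_mul_of_nonneg_left ?_ (by positivity)
  obtain ⟨ρ, hρ⟩ : ∃ ρ : ℝ, ρ = -((n : ℝ) * σ * β / X) := ⟨_, rfl⟩
  rw [← hρ]
  have hρa : |ρ| ≤ β := by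
    rw [hρ, abs_neg, abs_div, abs_mul, abs_mul, abs_of_pos hX0, abs_of_pos hβ,
      abs_of_nonneg (Nat.cast_nonneg n)]
    have hs1 : |σ| = 1 := by rcases hσ with h | h <;> rw [h] <;> norm_num
    rw [hs1, mul_one, div_le_iff₀ hX0]
    have : (n : ℝ) ≤ X := by exact_mod_cast hn
    nlinarith
  have hφ : (0 : ℝ) < Nat.totient q := by exact_mod_cast Nat.totient_pos.2 hq1
  -- the masses of the block
  have hmass := fun χ : DirichletCharacter ℂ q => mass_chi q K c σ ρ0 hσ hρ0p χ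
  obtain ⟨β1, hβ1⟩ : ∃ β1 : DirichletCharacter ℂ q × ℤ → ℝ, β1 = fun p =>
    if p.1 ∈ OmH n q then ‖fq q (Bt q (tp K (cq q c)) r) p.1 p.2‖ else 0 := ⟨_, rfl⟩
  have hsm : ∀ χ : DirichletCharacter ℂ q,
      HasSum (fun j : ℤ => β1 (χ, j) ^ 2)
        (if χ ∈ OmH n q then ∑' j : ℤ, ‖fq q (Bt q (tp K (cq q c)) r) χ j‖ ^ 2 else 0) := by
    intro χ
    rw [hβ1]
    by_cases hχ : χ ∈ OmH n q
    · simp only [hχ, if_true]
      rw [hr]
      exact (hmass χ).1.hasSum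
    · simp only [hχ, if_false]
      simp
  have hHS := gf_fin_prod (f := fun p : DirichletCharacter ℂ q × ℤ => β1 p ^ 2) hsm
  have hS1 : ∑' p, β1 p ^ 2 ≤ 1 / (Nat.totient q : ℝ) * Zw q n K c σ ρ0 := by
    rw [hHS.tsum_eq, ← Finset.sum_filter]
    unfold Zw
    rw [Finset.mul_sum]
    have hfil : (univ : Finset (DirichletCharacter ℂ q)).filter (fun χ => χ ∈ OmH n q) =
        OmH n q := by
      ext χ
      simp
    rw [hfil]
    refine Finset.sum_le_sum fun χ _ => ?_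
    rw [one_div, ← div_eq_inv_mul, le_div_iff₀ hφ, mul_comm, hr]
    exact (hmass χ).2
  have hcos := fun (T : ℕ) (hT : 1 ≤ T) (χ : DirichletCharacter ℂ q) (k : ℤ) =>
    h1 q (hq q n) hd M Am MM a hM hAm hMM ha T hT χ k
  have h2 := h0 q (hq q n) n rfl hd (cvf q MM a M r (tp K (cq q c))) (fun _ => F) Bd hBd0
    hgm (fun _ => hFm) (fun y t => (hgb y t).trans hMB) (fun _ t => (hFb t).trans hΛB)
    (OmH n q)
    (by
      intro χ hχ ξ j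
      rw [lt_fq_const, if_neg]
      intro hcon
      apply hχ
      rw [mem_OmH]
      exact ⟨hd, ξ, (mul_inv_eq_one.1 hcon).symm⟩)
    (fun p => ‖alm q MM a M p‖) β1
    (fun p => if p.1 = 1 then 1 else 0) (fun p => if p.1 = 1 then ‖fc F p.2‖ else 0)
    (fun p => norm_nonneg _)
    (fun p => by
      rw [hβ1]
      show (0 : ℝ) ≤ if p.1 ∈ OmH n q then ‖fq q (Bt q (tp K (cq q c)) r) p.1 p.2‖ else 0
      split_ifs
      exacts [norm_nonneg _, le_refl 0])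
    (fun p => by split_ifs <;> norm_num)
    (fun p => by split_ifs; exacts [norm_nonneg _, le_refl 0])
    (fun p hp => by
      rw [fq_cvf_norm q MM a M r (tp K (cq q c)) hcB Bs hBs p, hβ1]
      show ‖alm q MM a M p‖ * ‖fq q (Bt q (tp K (cq q c)) r) p.1 p.2‖ ≤ ‖alm q MM a M p‖ *
        (if p.1 ∈ OmH n q then ‖fq q (Bt q (tp K (cq q c)) r) p.1 p.2‖ else 0)
      rw [if_pos hp])
    (fun p => by
      rw [lt_fq_const]
      split_ifs <;> simp)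
    (C1 * Am ^ 2 * M * hq q n) (C1 * Am ^ 2 * M * M) 3 0
    (1 / (Nat.totient q : ℝ) * Zw q n K c σ ρ0) (Λ ^ 2)
    (by positivity) (by positivity) (by norm_num) (by norm_num)
    hcos (fun T hT χ k => lt_coset q (hq q n) hd T hT χ k)
    hHS.summable hS1 hsum1 hts1 ρ J hJ (by linarith [abs_nonneg ρ])
  refine h2.trans ?_
  obtain ⟨Z, hZ⟩ : ∃ Z : ℝ, Z = Zw q n K c σ ρ0 := ⟨_, rfl⟩
  have hZ0 : 0 ≤ Z := by rw [hZ]; exact Zw_nonneg q n K c σ ρ0 hρ0p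
  rw [← hZ]
  have e2 : (Nat.totient q : ℝ) * Real.sqrt ((1 / (Nat.totient q : ℝ) * Z) * Λ ^ 2) =
      Λ * Real.sqrt (Nat.totient q) * Real.sqrt Z := by
    rw [mul_comm (1 / (Nat.totient q : ℝ) * Z), Real.sqrt_mul (by positivity), Real.sqrt_sq hΛ0,
      Real.sqrt_mul (by positivity), Real.sqrt_div (by norm_num), Real.sqrt_one]
    have hs : (Nat.totient q : ℝ) / Real.sqrt (Nat.totient q) = Real.sqrt (Nat.totient q) :=
      Real.div_sqrt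
    calc (Nat.totient q : ℝ) * (Λ * (1 / Real.sqrt (Nat.totient q) * Real.sqrt Z))
        = (Nat.totient q : ℝ) / Real.sqrt (Nat.totient q) * (Λ * Real.sqrt Z) := by ring
      _ = Λ * Real.sqrt (Nat.totient q) * Real.sqrt Z := by rw [hs]; ring
  have e3 : Real.sqrt ((C1 * Am ^ 2 * M * hq q n * (1 + |ρ|) +
      C1 * Am ^ 2 * M * M) * (3 * (1 + |ρ|) + 0)) / Real.sqrt (1 + |ρ|) ≤
      Real.sqrt (3 * C1) * (Am * Real.sqrt (M * (hq q n * (1 + β) + M))) := by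
    have hp : (0 : ℝ) < 1 + |ρ| := by positivity
    rw [← Real.sqrt_div (by positivity)]
    have e4 : (C1 * Am ^ 2 * M * hq q n * (1 + |ρ|) +
      C1 * Am ^ 2 * M * M) * (3 * (1 + |ρ|) + 0) / (1 + |ρ|) =
      (3 * C1) * (Am ^ 2 * (M * (hq q n * (1 + |ρ|) + M))) := by
      field_simp
      ring
    rw [e4, Real.sqrt_mul (show (0 : ℝ) ≤ 3 * C1 by positivity), Real.sqrt_mul (sq_nonneg Am),
      Real.sqrt_sq hAm]
    refine mul_le_mul_of_nonneg_left (mul_le_mul_of_nonneg_left (Real.sqrt_le_sqrt ?_) hAm)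
      (Real.sqrt_nonneg _)
    refine mul_le_mul_of_nonneg_left ?_ (by linarith)
    refine add_le_add ?_ le_rfl
    exact mul_le_mul_of_nonneg_left (by linarith) (Nat.cast_nonneg _)
  have hlog : 0 ≤ Real.log J := Real.log_nonneg (by exact_mod_cast hJ)
  have hs3 : 0 ≤ Real.sqrt (3 * C1) := Real.sqrt_nonneg _
  have hκ' : Real.sqrt ((hq q n : ℝ) * (hq q n).divisors.card) / Nat.totient (hq q n) =
      ltK (hq q n) := rfl
  rw [hκ']
  obtain ⟨κ, hκ⟩ : ∃ κ : ℝ, κ = ltK (hq q n) := ⟨_, rfl⟩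
  have hκ0 : 0 ≤ κ := by rw [hκ]; exact ltK_nonneg _
  rw [← hκ]
  have h3 : C0 * (1 + Real.log J) * κ * Nat.totient q *
      Real.sqrt ((1 / (Nat.totient q : ℝ) * Z) * Λ ^ 2) *
      Real.sqrt ((C1 * Am ^ 2 * M * hq q n * (1 + |ρ|) +
      C1 * Am ^ 2 * M * M) * (3 * (1 + |ρ|) + 0)) / Real.sqrt (1 + |ρ|) ≤
      C0 * (1 + Real.sqrt (3 * C1)) * (1 + Real.log J) * κ * (Λ * Real.sqrt (Nat.totient q) *
        Real.sqrt Z) * (Am * Real.sqrt (M * (hq q n * (1 + β) + M))) := by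
    have e5 : C0 * (1 + Real.log J) * κ * Nat.totient q *
      Real.sqrt ((1 / (Nat.totient q : ℝ) * Z) * Λ ^ 2) *
      Real.sqrt ((C1 * Am ^ 2 * M * hq q n * (1 + |ρ|) +
      C1 * Am ^ 2 * M * M) * (3 * (1 + |ρ|) + 0)) / Real.sqrt (1 + |ρ|) =
      (C0 * (1 + Real.log J) * κ *
      (Nat.totient q * Real.sqrt ((1 / (Nat.totient q : ℝ) * Z) * Λ ^ 2))) *
      (Real.sqrt ((C1 * Am ^ 2 * M * hq q n * (1 + |ρ|) +
      C1 * Am ^ 2 * M * M) * (3 * (1 + |ρ|) + 0)) / Real.sqrt (1 + |ρ|)) := by ring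
    rw [e5, e2]
    have h4 : 0 ≤ C0 * (1 + Real.log J) * κ * (Λ * Real.sqrt (Nat.totient q) * Real.sqrt Z) := by
      positivity
    refine (mul_le_mul_of_nonneg_left e3 h4).trans ?_
    have h5 : 0 ≤ Am * Real.sqrt (M * (hq q n * (1 + β) + M)) := by positivity
    nlinarith [mul_nonneg h4 h5]
  refine add_le_add h3 ?_
  have h6 : 0 ≤ C0 * Nat.totient q * Bd ^ 2 / Real.sqrt J := by positivity
  have e7 : C0 * (1 + Real.sqrt (3 * C1)) * Nat.totient q * Bd ^ 2 / Real.sqrt J =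
    (1 + Real.sqrt (3 * C1)) * (C0 * Nat.totient q * Bd ^ 2 / Real.sqrt J) := by ring
  rw [e7]
  nlinarith

/-- an upper bound for `Zw` -/
noncomputable def Zc (q n K : ℕ) (c : ℕ → ℂ) (σ ρ : ℝ) : ℝ :=
  1 / (Nat.totient q : ℝ) * (1 / (2 * ρ)) * ∑ χ ∈ OmH n q, (χ.conductor : ℝ) *
    ∫ γ in ρ..(8 * ρ), ‖cS q K c χ (σ * γ)‖ ^ 2

theorem Zc_nonneg (q n K : ℕ) (c : ℕ → ℂ) (σ ρ : ℝ) (hρ : 0 < ρ) : 0 ≤ Zc q n K c σ ρ := by
  unfold Zc
  refine mul_nonneg (by positivity) (Finset.sum_nonneg fun χ _ => ?_)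
  exact mul_nonneg (Nat.cast_nonneg _) (int_nn q K c χ σ ρ (8 * ρ) (by linarith))

theorem zw_le (q : ℕ) [NeZero q] (n K : ℕ) (c : ℕ → ℂ) (σ ρ : ℝ) (hρ : 0 < ρ) :
    Zw q n K c σ ρ ≤ Zc q n K c σ ρ := by
  have hφ : (0 : ℝ) < Nat.totient q := by
    exact_mod_cast Nat.totient_pos.2 (Nat.pos_of_ne_zero (NeZero.ne q))
  unfold Zw Zc
  rw [Finset.mul_sum]
  refine Finset.sum_le_sum fun χ _ => ?_
  have h1 := int_nn q K c χ σ ρ (8 * ρ) (by linarith)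
  calc (‖tq q χ‖ ^ 2 / Nat.totient q) * (1 / (2 * ρ)) *
        ∫ γ in ρ..(8 * ρ), ‖cS q K c χ (σ * γ)‖ ^ 2 ≤
      ((χ.conductor : ℝ) / Nat.totient q) * (1 / (2 * ρ)) *
        ∫ γ in ρ..(8 * ρ), ‖cS q K c χ (σ * γ)‖ ^ 2 := by
        refine mul_le_mul_of_nonneg_right (mul_le_mul_of_nonneg_right ?_ (by positivity)) h1
        exact div_le_div_of_nonneg_right (gs_cond q χ) hφ.le
    _ = _ := by ring

/-- a large `h`: one modulus -/
theorem zc_large (q : ℕ) [NeZero q] (n K : ℕ) (c : ℕ → ℂ) (σ ρ : ℝ) (hσ : σ = 1 ∨ σ = -1)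
    (hρ : 0 < ρ) :
    Zc q n K c σ ρ ≤ (hq q n : ℝ) / Nat.totient q * (1 / (2 * ρ)) *
      ((hq q n * (7 * ρ) + 1) * ∑ k ∈ Icc 1 K, ‖c k‖ ^ 2) := by
  classical
  have hq1 : 1 ≤ q := Nat.pos_of_ne_zero (NeZero.ne q)
  have hh1 : 1 ≤ hq q n := hq_pos q n hq1
  have : NeZero (hq q n) := ⟨by omega⟩
  have hφ : (0 : ℝ) < Nat.totient q := by exact_mod_cast Nat.totient_pos.2 hq1
  have h1 : ∑ χ ∈ OmH n q, (χ.conductor : ℝ) * ∫ γ in ρ..(8 * ρ), ‖cS q K c χ (σ * γ)‖ ^ 2 ≤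
      ∑ χ ∈ OmH n q, (hq q n : ℝ) * ∫ γ in ρ..(8 * ρ), ‖cS q K c χ (σ * γ)‖ ^ 2 := by
    refine Finset.sum_le_sum fun χ hχ => ?_
    refine mul_le_mul_of_nonneg_right ?_ (int_nn q K c χ σ ρ (8 * ρ) (by linarith))
    rw [mem_OmH] at hχ
    have h2 : χ.conductor ≤ hq q n := by
      have := DirichletCharacter.conductor_dvd_of_mem_conductorSet (χ := χ) hχ
      exact Nat.le_of_dvd hh1 this
    exact_mod_cast h2
  rw [← Finset.mul_sum, sum_OmH n q (fun χ => ∫ γ in ρ..(8 * ρ), ‖cS q K c χ (σ * γ)‖ ^ 2)] at h1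
  have h3 := coset_mass q (hq q n) (hq_dvd q n) K c 1 ρ (8 * ρ) σ hσ (by linarith)
  simp only [mul_one] at h3
  have h4 : 8 * ρ - ρ = 7 * ρ := by ring
  rw [h4] at h3
  have h5 := h1.trans (mul_le_mul_of_nonneg_left h3 (Nat.cast_nonneg (hq q n)))
  unfold Zc
  calc 1 / (Nat.totient q : ℝ) * (1 / (2 * ρ)) * ∑ χ ∈ OmH n q, (χ.conductor : ℝ) *
        ∫ γ in ρ..(8 * ρ), ‖cS q K c χ (σ * γ)‖ ^ 2 ≤
      1 / (Nat.totient q : ℝ) * (1 / (2 * ρ)) * ((hq q n : ℝ) *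
        ((hq q n * (7 * ρ) + 1) * ∑ k ∈ Icc 1 K, ‖c k‖ ^ 2)) :=
        mul_le_mul_of_nonneg_left h5 (by positivity)
    _ = _ := by ring

/-- small `h`: the sum over the moduli -/
theorem zc_small : ∃ C : ℝ, 0 < C ∧ ∀ (X : ℕ) (QQ : Finset ℕ) (N : ℝ), 2 ≤ X → Fam QQ N → N ≤ X →
    ∀ (n : ℕ) (R Dv : ℝ), (∑ q ∈ QQ, (hq q n : ℝ) ≤ R) → 1 ≤ Dv →
    (∀ m : ℕ, 1 ≤ m → (m : ℝ) ≤ N → (m.divisors.card : ℝ) ≤ Dv) →
    ∀ (K : ℕ) (c : ℕ → ℂ) (M b σ : ℝ) (bq : ℕ → ℝ), (σ = 1 ∨ σ = -1) → 0 < M → 0 < b →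
    (∀ q ∈ QQ, b ≤ bq q ∧ bq q ≤ 2 * b) → 15 * (M * b / X) ≤ 1 →
    C * R * (1 + K * (15 * (M * b / X))) * Real.sqrt N * Dv * (1 + Real.log X) *
      (15 * (M * b / X)) ≤ 1 →
    ∑ q ∈ QQ, Zc q n K c σ (M * (bq q / X)) ≤
      X / (2 * M * b) * (C * (1 + Real.log X) ^ 3 * ∑ k ∈ Icc 1 K, ‖c k‖ ^ 2) := by
  classical
  obtain ⟨C, hC, h⟩ := fc_sum
  refine ⟨C, hC, ?_⟩
  intro X QQ N hX hF hN n R Dv hR hDv hD K c M b σ bq hσ hM hb hbq h15 hcond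
  have hX0 : (0 : ℝ) < X := by exact_mod_cast (by omega : 0 < X)
  obtain ⟨u, hu⟩ : ∃ u : ℝ, u = M * b / X := ⟨_, rfl⟩
  have hu0 : 0 < u := by rw [hu]; positivity
  have huv : 16 * u - u = 15 * (M * b / X) := by rw [hu]; ring
  have h1 := h X QQ N hX hF hN (fun q => OmH n q) R Dv (by
    refine le_trans (Finset.sum_le_sum fun q hqm => ?_) hR
    have : NeZero q := ⟨by have := hF.1 q hqm; omega⟩
    exact card_OmH n q) hDv hD K c u (16 * u) σ hσ (by linarith)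
    (by rw [huv]; exact h15) (by rw [huv]; exact hcond)
  have h2 : ∀ q ∈ QQ, Zc q n K c σ (M * (bq q / X)) ≤ X / (2 * M * b) *
      (1 / (Nat.totient q : ℝ) * ∑ χ ∈ OmH n q, (χ.conductor : ℝ) *
        ∫ γ in u..(16 * u), ‖cS q K c χ (σ * γ)‖ ^ 2) := by
    intro q hqm
    obtain ⟨b1, b2⟩ := hbq q hqm
    obtain ⟨ρ, hρ⟩ : ∃ ρ : ℝ, ρ = M * (bq q / X) := ⟨_, rfl⟩
    have r1 : u ≤ ρ := by
      rw [hu, hρ, mul_div_assoc]
      exact mul_le_mul_of_nonneg_left (div_le_div_of_nonneg_right b1 hX0.le) hM.le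
    have r2 : ρ ≤ 2 * u := by
      rw [hu, hρ]
      calc M * (bq q / X) ≤ M * (2 * b / X) :=
            mul_le_mul_of_nonneg_left (div_le_div_of_nonneg_right b2 hX0.le) hM.le
        _ = 2 * (M * b / X) := by ring
    have hρ0 : 0 < ρ := by linarith
    rw [← hρ]
    unfold Zc
    have h3 : 1 / (2 * ρ) ≤ X / (2 * M * b) := by
      have e1 : X / (2 * M * b) = 1 / (2 * u) := by
        rw [hu]
        field_simp
      rw [e1]
      exact one_div_le_one_div_of_le (by linarith) (by linarith)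
    have h4 : ∑ χ ∈ OmH n q, (χ.conductor : ℝ) *
        ∫ γ in ρ..(8 * ρ), ‖cS q K c χ (σ * γ)‖ ^ 2 ≤ ∑ χ ∈ OmH n q, (χ.conductor : ℝ) *
        ∫ γ in u..(16 * u), ‖cS q K c χ (σ * γ)‖ ^ 2 := by
      refine Finset.sum_le_sum fun χ _ => ?_
      refine mul_le_mul_of_nonneg_left ?_ (Nat.cast_nonneg _)
      refine intervalIntegral.integral_mono_interval r1 (by linarith) (by linarith) ?_ ?_
      · exact Filter.Eventually.of_forall fun x => sq_nonneg _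
      · refine Continuous.intervalIntegrable ?_ _ _
        unfold cS ee
        fun_prop
    have h5 : 0 ≤ ∑ χ ∈ OmH n q, (χ.conductor : ℝ) *
        ∫ γ in ρ..(8 * ρ), ‖cS q K c χ (σ * γ)‖ ^ 2 :=
      Finset.sum_nonneg fun χ _ => mul_nonneg (Nat.cast_nonneg _)
        (int_nn q K c χ σ ρ (8 * ρ) (by linarith))
    have hφ0 : (0 : ℝ) ≤ 1 / (Nat.totient q : ℝ) := by positivity
    calc 1 / (Nat.totient q : ℝ) * (1 / (2 * ρ)) * ∑ χ ∈ OmH n q, (χ.conductor : ℝ) *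
        ∫ γ in ρ..(8 * ρ), ‖cS q K c χ (σ * γ)‖ ^ 2 =
        (1 / (2 * ρ)) * (1 / (Nat.totient q : ℝ) * ∑ χ ∈ OmH n q, (χ.conductor : ℝ) *
        ∫ γ in ρ..(8 * ρ), ‖cS q K c χ (σ * γ)‖ ^ 2) := by ring
      _ ≤ X / (2 * M * b) * (1 / (Nat.totient q : ℝ) * ∑ χ ∈ OmH n q, (χ.conductor : ℝ) *
        ∫ γ in u..(16 * u), ‖cS q K c χ (σ * γ)‖ ^ 2) :=
        mul_le_mul h3 (mul_le_mul_of_nonneg_left h4 hφ0) (mul_nonneg hφ0 h5) (by positivity)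
  refine (Finset.sum_le_sum h2).trans ?_
  rw [← Finset.mul_sum]
  exact mul_le_mul_of_nonneg_left h1 (by positivity)

/-- one modulus, with `Zc` -/
theorem lwc_one : ∃ C : ℝ, 0 < C ∧ ∀ (X n q : ℕ) [NeZero q] (β σ : ℝ), 1 ≤ X → n ≤ X → 0 < β →
    (σ = 1 ∨ σ = -1) → 1 ≤ n → ∀ (lam : ℝ → ℂ) (Λ : ℝ), Continuous lam → (∀ x, ‖lam x‖ ≤ Λ) →
    ∀ (M Am : ℝ) (K : ℕ) (MM : Finset ℕ) (a c : ℕ → ℂ), 1 ≤ M → 0 ≤ Am →
    (∀ m ∈ MM, M < (m : ℝ) ∧ (m : ℝ) ≤ 2 * M) → (∀ m ∈ MM, ‖a m‖ ≤ Am) →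
    ∀ (Bs Bd : ℝ) (J : ℕ), (∀ x, ‖tp K (cq q c) x‖ ≤ Bs) → Λ ≤ Bd → 2 * M * Am * Bs ≤ Bd →
    1 ≤ J → 8 * β ≤ J →
    ‖Bq X β σ n q (fun _ x => lam x) (f2f MM a (tp K (cq q c)) σ q)‖ ≤
      β / X * (C * (1 + Real.log J) * ltK (hq q n) *
        (Λ * Real.sqrt (Nat.totient q) *
          Real.sqrt (Zc q n K c σ (M * (β / X)))) *
        (Am * Real.sqrt (M * (hq q n * (1 + β) + M))) +
      C * Nat.totient q * Bd ^ 2 / Real.sqrt J) := by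
  obtain ⟨C, hC, h⟩ := lw_one
  refine ⟨C, hC, ?_⟩
  intro X n q _ β σ hX hn hβ hσ hn1 lam Λ hlc hΛ M Am K MM a c hM hAm hMM ha Bs Bd J hBs hΛB hMB hJ hβJ
  have hX0 : (0 : ℝ) < X := by exact_mod_cast hX
  have h1 := h X n q β σ hX hn hβ hσ hn1 lam Λ hlc hΛ M Am K MM a c hM hAm hMM ha Bs Bd J hBs hΛB
    hMB hJ hβJ
  refine h1.trans ?_
  have hΛ0 : 0 ≤ Λ := (norm_nonneg _).trans (hΛ 0)
  have h2 : Real.sqrt (Zw q n K c σ (M * (β / X))) ≤ Real.sqrt (Zc q n K c σ (M * (β / X))) :=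
    Real.sqrt_le_sqrt (zw_le q n K c σ _ (by positivity))
  have hlog : 0 ≤ Real.log J := Real.log_nonneg (by exact_mod_cast hJ)
  have hκ0 := ltK_nonneg (hq q n)
  refine mul_le_mul_of_nonneg_left (add_le_add ?_ le_rfl) (by positivity)
  refine mul_le_mul_of_nonneg_right ?_ (by positivity)
  refine mul_le_mul_of_nonneg_left ?_ (by positivity)
  exact mul_le_mul_of_nonneg_left h2 (by positivity)

end Pool.MP_dd84fd_nt.LXP
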