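import Pool.Agent.Lib.MP_dd84fd_nt.LX.PwDefs

/-!
# PL_L-GS: Gauss sums of imprimitive characters

`gs_unit`: substitution `y ↦ y k⁻¹`.
`gs_cond`: induction on `q`: if `d = cond χ < q`, take a prime `p ∣ q/d`, `m = q/p`, `χ'` mod `m` inducing `χ`: `τ_q(χ) = 0` if `p ∣ m`
and `-χ'(p) τ_m(χ')` otherwise.
`gs_prim`: `|τ_d(ψ)|² = d` for `ψ` primitive.
-/

set_option autoImplicit false

namespace Pool.MP_dd84fd_nt.LXP

open Finset Pool.MP_67663b_nt.Odd Pool.MP_dd84fd_nt.PL

private theorem gs_std (q : ℕ) [NeZero q] (χ : DirichletCharacter ℂ q) (k : ℕ) :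
    ∑ y : ZMod q, χ y * ee ((k : ℝ) * ((y.val : ℝ) / q)) =
      gaussSum χ ((ZMod.stdAddChar (N := q)).mulShift (k : ZMod q)) := by
  unfold gaussSum
  refine sum_congr rfl fun y _ => ?_
  have := qker_std q (k : ℤ) y
  rw [Int.cast_natCast] at this
  rw [this, AddChar.mulShift_apply, Int.cast_natCast]

private theorem tq_gauss (q : ℕ) [NeZero q] (χ : DirichletCharacter ℂ q) :
    tq q χ = gaussSum χ (ZMod.stdAddChar (N := q)) := by
  have h := gs_std q χ 1
  rw [Nat.cast_one, Nat.cast_one, AddChar.mulShift_one] at h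
  rw [← h]
  unfold tq
  simp only [one_mul]

private theorem chi_conj (q : ℕ) [NeZero q] (χ : DirichletCharacter ℂ q) (a : ZMod q) :
    (starRingEnd ℂ) (χ a) = χ⁻¹ a := by
  by_cases hu : IsUnit a
  · obtain ⟨u, hu⟩ := hu
    rw [← hu]
    have h1 : ‖χ (u : ZMod q)‖ = 1 := DirichletCharacter.unit_norm_eq_one χ u
    rw [← Complex.inv_eq_conj h1]
    have h2 : χ⁻¹ (u : ZMod q) * χ (u : ZMod q) = 1 := by
      rw [← MulChar.mul_apply, inv_mul_cancel, MulChar.one_apply_coe]
    exact (eq_inv_of_mul_eq_one_left h2).symm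
  · rw [MulChar.map_nonunit _ hu, MulChar.map_nonunit _ hu, map_zero]

theorem gs_unit (q : ℕ) [NeZero q] (χ : DirichletCharacter ℂ q) (k : ℕ) (hk : Nat.Coprime k q) :
    ∑ y : ZMod q, χ y * ee ((k : ℝ) * ((y.val : ℝ) / q)) =
      (starRingEnd ℂ) (χ (k : ZMod q)) * tq q χ := by
  rw [gs_std, tq_gauss, chi_conj]
  have hu : IsUnit ((k : ℕ) : ZMod q) := (ZMod.isUnit_iff_coprime k q).2 hk
  have h := gaussSum_mulShift_eq χ (ZMod.stdAddChar (N := q)) hu.unit
  rw [hu.unit_spec] at h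
  exact h

open ZMod in
private theorem gs_norm (q : ℕ) [NeZero q] (χ : DirichletCharacter ℂ q) (hχ : χ.IsPrimitive) :
    ‖gaussSum χ⁻¹ (stdAddChar (N := q))‖ ^ 2 = q := by
  have hχi : (χ⁻¹).IsPrimitive := by
    rw [DirichletCharacter.isPrimitive_def, DirichletCharacter.conductor_inv]
    exact hχ
  set ψ := stdAddChar (N := q) with hψ
  have h1 : 𝓕 (𝓕 (χ : ZMod q → ℂ)) (-1) = q := by
    rw [dft_dft]
    simp
  have h2 : (𝓕 (χ : ZMod q → ℂ)) = fun k => χ⁻¹ (-k) * gaussSum χ ψ := by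
    funext k
    rw [hχ.fourierTransform_eq_inv_mul_gaussSum k]
  have h3 : 𝓕 (fun k => χ⁻¹ (-k) * gaussSum χ ψ) (-1) =
      χ (-1) * gaussSum χ⁻¹ ψ * gaussSum χ ψ := by
    rw [dft_mul_const (fun k => χ⁻¹ (-k)) (gaussSum χ ψ),
      dft_comp_neg (⇑(χ⁻¹))]
    simp only [neg_neg]
    rw [hχi.fourierTransform_eq_inv_mul_gaussSum 1, inv_inv]
  rw [h2, h3] at h1
  have h4 : star (gaussSum χ⁻¹ ψ) = χ (-1) * gaussSum χ ψ := by
    rw [star_gaussSum_eq, inv_inv]
    have h5 : ψ⁻¹ = ψ.mulShift (-1) := by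
      ext x
      rw [AddChar.inv_apply, AddChar.mulShift_apply, neg_one_mul]
    rw [h5, gaussSum_mulShift_of_isPrimitive _ hχ]
    congr 1
    have h6 : χ (-1) * χ (-1) = 1 := by
      rw [← map_mul]
      simp
    rw [MulChar.inv_apply_eq_inv']
    have h7 : χ (-1) ≠ 0 := left_ne_zero_of_mul_eq_one h6
    field_simp
    rw [sq, h6]
  have h8 : ((‖gaussSum χ⁻¹ ψ‖ ^ 2 : ℝ) : ℂ) = (q : ℂ) := by
    have h9 := Complex.mul_conj' (gaussSum χ⁻¹ ψ)
    rw [starRingEnd_apply, h4] at h9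
    push_cast
    rw [← h9, ← h1]
    ring
  exact_mod_cast h8

/-- the square of the absolute value for primitive characters, and the inversion formula -/
theorem gs_prim (d : ℕ) [NeZero d] (ψ : DirichletCharacter ℂ d) (hψ : ψ.IsPrimitive) :
    ‖tq d ψ‖ ^ 2 = (d : ℝ) ∧ ∀ k : ℕ, ∑ y : ZMod d, ψ y * ee ((k : ℝ) * ((y.val : ℝ) / d)) =
      (starRingEnd ℂ) (ψ (k : ZMod d)) * tq d ψ := by
  constructor
  · have hψi : (ψ⁻¹).IsPrimitive := by
      rw [DirichletCharacter.isPrimitive_def, DirichletCharacter.conductor_inv]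
      exact hψ
    have h := gs_norm d ψ⁻¹ hψi
    rw [inv_inv] at h
    rw [tq_gauss]
    exact h
  · intro k
    rw [gs_std, tq_gauss, chi_conj]
    exact gaussSum_mulShift_of_isPrimitive _ hψ _

private theorem sum_zr (q : ℕ) [NeZero q] (f : ZMod q → ℂ) :
    ∑ y : ZMod q, f y = ∑ y ∈ range q, f (y : ZMod q) := by
  refine sum_nbij' (fun y => y.val) (fun y => (y : ZMod q)) ?_ ?_ ?_ ?_ ?_
  · intro y _
    exact mem_range.2 (ZMod.val_lt y)
  · intro y _
    exact mem_univ _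
  · intro y _
    exact ZMod.natCast_zmod_val y
  · intro y hy
    exact ZMod.val_cast_of_lt (mem_range.1 hy)
  · intro y _
    rw [ZMod.natCast_zmod_val]

private theorem tq_range (q : ℕ) [NeZero q] (χ : DirichletCharacter ℂ q) :
    tq q χ = ∑ y ∈ range q, χ (y : ZMod q) * ee ((y : ℝ) / q) := by
  unfold tq
  rw [sum_zr q (fun y => χ y * ee ((y.val : ℝ) / q))]
  refine sum_congr rfl fun y hy => ?_
  rw [ZMod.val_cast_of_lt (mem_range.1 hy)]

private theorem range_split (m p : ℕ) (hm : 1 ≤ m) (f : ℕ → ℂ) :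
    ∑ y ∈ range (p * m), f y = ∑ y ∈ range m, ∑ s ∈ range p, f (y + m * s) := by
  rw [← sum_product']
  symm
  refine sum_nbij' (fun x => x.1 + m * x.2) (fun y => (y % m, y / m)) ?_ ?_ ?_ ?_ ?_
  · rintro ⟨y, s⟩ hx
    rw [mem_product, mem_range, mem_range] at hx
    rw [mem_range]
    calc y + m * s < m + m * s := by omega
      _ = (s + 1) * m := by ring
      _ ≤ p * m := Nat.mul_le_mul_right m hx.2
  · intro y hy
    rw [mem_range] at hy
    rw [mem_product, mem_range, mem_range]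
    exact ⟨Nat.mod_lt _ (by omega), Nat.div_lt_of_lt_mul (by rw [mul_comm]; exact hy)⟩
  · rintro ⟨y, s⟩ hx
    rw [mem_product, mem_range, mem_range] at hx
    have h1 : (y + m * s) % m = y := by
      rw [Nat.add_mul_mod_self_left]; exact Nat.mod_eq_of_lt hx.1
    have h2 : (y + m * s) / m = s := by
      rw [Nat.add_mul_div_left _ _ (by omega), Nat.div_eq_of_lt hx.1, zero_add]
    simp only [h1, h2]
  · intro y _
    exact Nat.mod_add_div y m
  · rintro ⟨y, s⟩ _
    rfl

private theorem mult_split (m p : ℕ) (hp : 1 ≤ p) (f : ℕ → ℂ) :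
    ∑ y ∈ (range (p * m)).filter (fun y => p ∣ y), f y = ∑ y ∈ range m, f (p * y) := by
  symm
  refine sum_nbij' (fun y => p * y) (fun y => y / p) ?_ ?_ ?_ ?_ ?_
  · intro y hy
    rw [mem_range] at hy
    rw [mem_filter, mem_range]
    exact ⟨Nat.mul_lt_mul_of_pos_left hy (by omega), Nat.dvd_mul_right _ _⟩
  · intro y hy
    rw [mem_filter, mem_range] at hy
    rw [mem_range]
    exact Nat.div_lt_of_lt_mul hy.1
  · intro y _
    exact Nat.mul_div_cancel_left y (by omega)
  · intro y hy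
    rw [mem_filter] at hy
    exact Nat.mul_div_cancel' hy.2
  · intro y _
    rfl

private theorem ee_add' (x y : ℝ) : ee (x + y) = ee x * ee y := by
  unfold ee
  rw [← Complex.exp_add]
  congr 1
  push_cast
  ring

/-- `∑_{s < p} e(s/p) = 0` -/
private theorem ee_geom (p : ℕ) (hp : 2 ≤ p) : ∑ s ∈ range p, ee ((s : ℝ) / p) = 0 := by
  have : NeZero p := ⟨by omega⟩
  have h1 := sum_zr p (fun y => ZMod.stdAddChar (N := p) y)
  have h2 : ∑ y : ZMod p, ZMod.stdAddChar (N := p) y = 0 := by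
    refine AddChar.sum_eq_zero_of_ne_one ?_
    intro h
    have h3 := ZMod.isPrimitive_stdAddChar p
    have h4 := h3 (a := 1) (by
      have : Fact (1 < p) := ⟨by omega⟩
      exact one_ne_zero)
    rw [AddChar.mulShift_one] at h4
    exact h4 h
  rw [h2] at h1
  rw [h1]
  refine sum_congr rfl fun s hs => ?_
  have h5 := qker_std p 1 (s : ZMod p)
  rw [ZMod.val_cast_of_lt (mem_range.1 hs)] at h5
  simp only [Int.cast_one, one_mul] at h5
  exact h5

private theorem ck_apply (m q : ℕ) [NeZero q] (hm : m ∣ q) (χ' : DirichletCharacter ℂ m) (y : ℕ) :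
    DirichletCharacter.changeLevel hm χ' (y : ZMod q) =
      if Nat.Coprime y q then χ' (y : ZMod m) else 0 := by
  split_ifs with h
  · have hu : IsUnit ((y : ℕ) : ZMod q) := (ZMod.isUnit_iff_coprime y q).2 h
    have h1 := DirichletCharacter.changeLevel_eq_cast_of_dvd χ' hm hu.unit
    rw [hu.unit_spec] at h1
    rw [h1, ZMod.cast_natCast hm]
  · rw [MulChar.map_nonunit]
    rw [ZMod.isUnit_iff_coprime]
    exact h

/-- the step: `q = p m` -/
private theorem gs_step (m p : ℕ) [NeZero m] (hp : p.Prime) [NeZero (p * m)]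
    (χ' : DirichletCharacter ℂ m) :
    ‖tq (p * m) (DirichletCharacter.changeLevel (Nat.dvd_mul_left m p) χ')‖ ≤ ‖tq m χ'‖ := by
  classical
  have hm1 : 1 ≤ m := Nat.pos_of_ne_zero (NeZero.ne m)
  have hm0 : (m : ℝ) ≠ 0 := by exact_mod_cast (NeZero.ne m)
  have hp0 : (p : ℝ) ≠ 0 := by exact_mod_cast hp.ne_zero
  have hqc : ((p * m : ℕ) : ℝ) = (p : ℝ) * m := by push_cast; ring
  -- the full sum vanishes
  have hT : ∑ y ∈ range (p * m), χ' (y : ZMod m) * ee ((y : ℝ) / (p * m : ℕ)) = 0 := by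
    rw [range_split m p hm1]
    refine sum_eq_zero fun y _ => ?_
    have h1 : ∀ s ∈ range p, χ' ((y + m * s : ℕ) : ZMod m) * ee (((y + m * s : ℕ) : ℝ) / (p * m : ℕ)) =
        (χ' (y : ZMod m) * ee ((y : ℝ) / (p * m : ℕ))) * ee ((s : ℝ) / p) := by
      intro s _
      have e1 : ((y + m * s : ℕ) : ZMod m) = (y : ZMod m) := by
        push_cast
        rw [ZMod.natCast_self, zero_mul, add_zero]
      have e2 : ((y + m * s : ℕ) : ℝ) / (p * m : ℕ) = (y : ℝ) / (p * m : ℕ) + (s : ℝ) / p := by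
        rw [hqc]
        push_cast
        field_simp
      rw [e1, e2, ee_add']
      ring
    rw [sum_congr rfl h1, ← mul_sum, ee_geom p hp.two_le, mul_zero]
  -- the character
  have hcop : ∀ y : ℕ, Nat.Coprime y (p * m) ↔ ¬ p ∣ y ∧ Nat.Coprime y m := by
    intro y
    rw [Nat.coprime_mul_iff_right, Nat.coprime_comm, hp.coprime_iff_not_dvd]
  have hval : ∀ y : ℕ, DirichletCharacter.changeLevel (Nat.dvd_mul_left m p) χ' (y : ZMod (p * m)) =
      if p ∣ y then 0 else χ' (y : ZMod m) := by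
    intro y
    rw [ck_apply m (p * m) (Nat.dvd_mul_left m p) χ' y]
    by_cases h1 : p ∣ y
    · rw [if_pos h1, if_neg]
      rw [hcop]
      exact fun h => h.1 h1
    · rw [if_neg h1]
      by_cases h2 : Nat.Coprime y m
      · rw [if_pos ((hcop y).2 ⟨h1, h2⟩)]
      · rw [if_neg (fun h => h2 ((hcop y).1 h).2), MulChar.map_nonunit]
        rw [ZMod.isUnit_iff_coprime]
        exact h2
  have hsum : tq (p * m) (DirichletCharacter.changeLevel (Nat.dvd_mul_left m p) χ') =
      - ∑ y ∈ range m, χ' ((p * y : ℕ) : ZMod m) * ee (((p * y : ℕ) : ℝ) / (p * m : ℕ)) := by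
    rw [tq_range, ← mult_split m p hp.one_le
      (fun y => χ' (y : ZMod m) * ee ((y : ℝ) / (p * m : ℕ)))]
    have h1 := sum_filter_add_sum_filter_not (range (p * m)) (fun y => p ∣ y)
      (fun y => χ' (y : ZMod m) * ee ((y : ℝ) / (p * m : ℕ)))
    rw [hT] at h1
    have h2 : ∑ y ∈ range (p * m), DirichletCharacter.changeLevel (Nat.dvd_mul_left m p) χ'
        (y : ZMod (p * m)) * ee ((y : ℝ) / (p * m : ℕ)) =
        ∑ y ∈ (range (p * m)).filter (fun y => ¬ p ∣ y),
          χ' (y : ZMod m) * ee ((y : ℝ) / (p * m : ℕ)) := by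
      rw [sum_filter]
      refine sum_congr rfl fun y _ => ?_
      rw [hval y]
      by_cases h3 : p ∣ y
      · rw [if_pos h3, if_neg (not_not.2 h3), zero_mul]
      · rw [if_neg h3, if_pos h3]
    rw [h2]
    linear_combination h1
  rw [hsum, norm_neg]
  have h3 : ∀ y ∈ range m, χ' ((p * y : ℕ) : ZMod m) * ee (((p * y : ℕ) : ℝ) / (p * m : ℕ)) =
      χ' (p : ZMod m) * (χ' (y : ZMod m) * ee ((y : ℝ) / m)) := by
    intro y _
    have e1 : ((p * y : ℕ) : ℝ) / (p * m : ℕ) = (y : ℝ) / m := by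
      rw [hqc]
      push_cast
      field_simp
    rw [e1]
    push_cast
    rw [map_mul]
    ring
  rw [sum_congr rfl h3, ← mul_sum, ← tq_range, norm_mul]
  have h4 : ‖χ' (p : ZMod m)‖ ≤ 1 := DirichletCharacter.norm_le_one χ' _
  calc ‖χ' (p : ZMod m)‖ * ‖tq m χ'‖ ≤ 1 * ‖tq m χ'‖ :=
        mul_le_mul_of_nonneg_right h4 (norm_nonneg _)
    _ = _ := one_mul _

private theorem gs_cond_aux : ∀ N q : ℕ, q ≤ N → ∀ [NeZero q] (χ : DirichletCharacter ℂ q),
    ‖tq q χ‖ ^ 2 ≤ (χ.conductor : ℝ) := by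
  intro N
  induction N with
  | zero =>
    intro q hq _ χ
    exact absurd (Nat.le_zero.1 hq) (NeZero.ne q)
  | succ N ih =>
    intro q hq hq0 χ
    by_cases hprim : χ.IsPrimitive
    · rw [(gs_prim q χ hprim).1, hprim]
    · have hd := χ.conductor_dvd_level
      obtain ⟨r, hr⟩ := hd
      have hc0 : χ.conductor ≠ 0 := DirichletCharacter.conductor_ne_zero χ
      have hr1 : r ≠ 1 := by
        rintro rfl
        apply hprim
        rw [DirichletCharacter.isPrimitive_def]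
        omega
      have hr0 : r ≠ 0 := by
        rintro rfl
        rw [mul_zero] at hr
        exact NeZero.ne q hr
      obtain ⟨p, hp, hpr⟩ := Nat.exists_prime_and_dvd hr1
      obtain ⟨s, hs⟩ := hpr
      obtain ⟨m, hm⟩ : ∃ m, m = χ.conductor * s := ⟨_, rfl⟩
      have hqm : q = p * m := by rw [hr, hs, hm]; ring
      have hs0 : s ≠ 0 := by
        rintro rfl
        rw [mul_zero] at hs
        exact hr0 hs
      have hm0 : m ≠ 0 := by
        rw [hm]
        exact Nat.mul_ne_zero hc0 hs0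
      have : NeZero m := ⟨hm0⟩
      have hcm : χ.conductor ∣ m := ⟨s, hm⟩
      subst hqm
      have hmq : m ∣ p * m := Nat.dvd_mul_left m p
      have hf : χ.FactorsThrough m := DirichletCharacter.FactorsThrough.mono χ χ.factorsThrough_conductor hcm hmq
      have he : χ = DirichletCharacter.changeLevel hmq hf.χ₀ := hf.eq_changeLevel
      have h1 : ‖tq (p * m) χ‖ ≤ ‖tq m hf.χ₀‖ := by
        conv_lhs => rw [he]
        exact gs_step m p hp hf.χ₀
      have hmN : m ≤ N := by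
        have h2 : 2 * m ≤ p * m := Nat.mul_le_mul_right m hp.two_le
        omega
      have h3 := ih m hmN hf.χ₀
      have h4 : (hf.χ₀).conductor = χ.conductor := by
        have h5 := DirichletCharacter.conductor_changeLevel (χ := hf.χ₀) hmq
        rw [← he] at h5
        exact h5.symm
      rw [h4] at h3
      refine le_trans ?_ h3
      exact pow_le_pow_left₀ (norm_nonneg _) h1 2

theorem gs_cond (q : ℕ) [NeZero q] (χ : DirichletCharacter ℂ q) :
    ‖tq q χ‖ ^ 2 ≤ (χ.conductor : ℝ) := gs_cond_aux q q le_rfl χ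

end Pool.MP_dd84fd_nt.LXP
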