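import Pool.Agent.Lib.MP_dd84fd_nt.LX.PlDefs
import Pool.Agent.Lib.MP_dd84fd_nt.JX.LvOne
import Mathlib.NumberTheory.DirichletCharacter.GaussSum

/-!
# Theorem L, PL_L: wide blocks, definitions

`cS`: character sum with coefficients `c`; `tq`: Gauss sum; `LgC`: large values of the narrow polynomial.
-/

set_option autoImplicit false

namespace Pool.MP_dd84fd_nt.LXP

open Finset Pool.MP_67663b_nt.Odd Pool.MP_dd84fd_nt.PL Pool.MP_dd84fd_nt.HX Pool.MP_dd84fd_nt.HXP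
open Pool.MP_dd84fd_nt.JXP

/-- `∑_{k ≤ K} c_k conj χ(k) e(kθ)` -/
noncomputable def cS (q K : ℕ) (c : ℕ → ℂ) (χ : DirichletCharacter ℂ q) (θ : ℝ) : ℂ :=
  ∑ k ∈ Icc 1 K, c k * (starRingEnd ℂ) (χ (k : ZMod q)) * ee ((k : ℝ) * θ)

/-- the Gauss sum -/
noncomputable def tq (q : ℕ) [NeZero q] (χ : DirichletCharacter ℂ q) : ℂ :=
  ∑ y : ZMod q, χ y * ee ((y.val : ℝ) / q)

/-- the large values of the multiplier `alm`, `|j| ≤ J0` -/
noncomputable def LgC (q : ℕ) [NeZero q] (MM : Finset ℕ) (a : ℕ → ℂ) (M V : ℝ) (J0 : ℕ) :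
    Finset (DirichletCharacter ℂ q × ℤ) :=
  open Classical in
  ((univ : Finset (DirichletCharacter ℂ q)) ×ˢ Icc (-(J0 : ℤ)) J0).filter
    (fun p => V < ‖alm q MM a M p‖)

end Pool.MP_dd84fd_nt.LXP
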