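import Pool.Agent.Lib.MP_dd84fd_nt.LX.Defs
import Pool.Agent.Lib.MP_dd84fd_nt.IX.CeMain

/-!
# Theorem L: the centres of the arcs, one function (copy of `IX/CeMain.lean`)
-/

set_option autoImplicit false

namespace Pool.MP_dd84fd_nt.LX

open Finset Pool.MP_67663b_nt.Odd Pool.MP_dd84fd_nt.En Pool.MP_dd84fd_nt.E2 Pool.MP_dd84fd_nt.LS
open Pool.MP_dd84fd_nt.L2G (nrm)
open Pool.MP_dd84fd_nt.GX Pool.MP_dd84fd_nt.HX Pool.MP_dd84fd_nt.IX
open Pool.MP_dd84fd_nt.PL (rr Fam)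

theorem centre_l : CentreL := by
  intro A
  refine ⟨A + 6, fun K0 C1 ww gg h1 D' hD => ?_⟩
  obtain ⟨X1, hX1⟩ := cf_le K0 C1 D' ww gg h1
  obtain ⟨X2, hX2⟩ := MP_log_large 28
  refine ⟨max (max X1 X2) 1, fun X hX s hs QQ N hQ hl hN => ?_⟩
  simp only [max_le_iff] at hX
  obtain ⟨⟨g1, g2⟩, g3⟩ := hX
  have hL := hX2 X g2
  have e1 := (hX1 X g1 s hs).2.1
  set L := Real.log (X : ℝ) with hLd
  have hL0 : 0 < L := by linarith
  have hXp : (0 : ℝ) < X := by exact_mod_cast g3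
  rcases QQ.eq_empty_or_nonempty with h0 | ⟨q0, hq0⟩
  · rw [h0, sum_empty]
    positivity
  have hN1 : 1 ≤ N := by
    have h3 := hl q0 hq0 q0 hq0
    rw [Nat.lcm_self] at h3
    have h4 : (1 : ℝ) ≤ q0 := by exact_mod_cast hQ q0 hq0
    linarith
  have hN0 : 0 < N := by linarith
  have key := ls_arcE X g3 (cfI ww gg s (wX D' X) X) (cfI ww gg s (wX D' X) X)
    (1 / L ^ (A + 6)) (by positivity) (QQ.sigma rr)
    (fun p => (p.2 : ℝ) / p.1) (1 / N) (by positivity) (by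
      rw [div_le_one hN0]
      exact hN1) (by
      rintro ⟨q, a⟩ hp ⟨q', a'⟩ hp' hne z
      rw [mem_sigma] at hp hp'
      simp only at hp hp'
      have h5 := fr_dist (hQ q hp.1) (hQ q' hp'.1) hp.2 hp'.2 (by
        rintro ⟨e1, e2⟩
        apply hne
        rw [e1, e2]) z
      refine le_trans ?_ h5
      have h6 : (0 : ℝ) < (Nat.lcm q q' : ℝ) := by
        have := hQ q hp.1
        have := hQ q' hp'.1
        exact_mod_cast Nat.lcm_pos (by omega) (by omega)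
      exact one_div_le_one_div_of_le h6 (hl q hp.1 q' hp'.1))
  rw [Finset.sum_sigma] at key
  simp only at key
  unfold arcE at key
  have goal_eq : ∑ q ∈ QQ, ∑ a ∈ rr q, ∫ x in (-(1 / L ^ (A + 6)) / X)..(1 / L ^ (A + 6) / X),
      ‖WI ww gg s (wX D' X) X ((a : ℝ) / q + x)‖ ^ 2 =
      ∑ q ∈ QQ, ∑ a ∈ rr q, ∫ x in (-(1 / L ^ (A + 6)) / X)..(1 / L ^ (A + 6) / X),
      ‖ES X (cfI ww gg s (wX D' X) X) ((a : ℝ) / q + x)‖ *
        ‖ES X (cfI ww gg s (wX D' X) X) ((a : ℝ) / q + x)‖ := by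
    refine sum_congr rfl fun q _ => sum_congr rfl fun a _ => ?_
    refine intervalIntegral.integral_congr fun x _ => ?_
    rw [WI_ES, sq]
  rw [goal_eq]
  refine key.trans ?_
  have h7 : 1 / (1 / N) + 13 * (X : ℝ) ≤ 14 * X := by
    rw [one_div_one_div]
    linarith
  have h8 : (∑ n ∈ Icc 1 X, cfI ww gg s (wX D' X) X n ^ 2 +
      ∑ n ∈ Icc 1 X, cfI ww gg s (wX D' X) X n ^ 2) / 2 ≤ X * L ^ 4 := by linarith
  have h9 : 0 ≤ (∑ n ∈ Icc 1 X, cfI ww gg s (wX D' X) X n ^ 2 +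
      ∑ n ∈ Icc 1 X, cfI ww gg s (wX D' X) X n ^ 2) / 2 := by positivity
  calc 2 * (1 / L ^ (A + 6)) / X * ((1 / (1 / N) + 13 * X) *
        ((∑ n ∈ Icc 1 X, cfI ww gg s (wX D' X) X n ^ 2 +
          ∑ n ∈ Icc 1 X, cfI ww gg s (wX D' X) X n ^ 2) / 2))
      ≤ 2 * (1 / L ^ (A + 6)) / X * ((14 * X) * (X * L ^ 4)) := by
        refine mul_le_mul_of_nonneg_left ?_ (by positivity)
        exact mul_le_mul h7 h8 h9 (by positivity)
    _ = 28 * X / L ^ (A + 2) := by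
        have : L ≠ 0 := hL0.ne'
        have : (X : ℝ) ≠ 0 := hXp.ne'
        field_simp
        ring
    _ ≤ X / L ^ A := by
        rw [div_le_div_iff₀ (by positivity) (by positivity), pow_add]
        have h8 : (28 : ℝ) ≤ L ^ 2 := by nlinarith
        have h9 : 0 ≤ X * L ^ A := by positivity
        nlinarith

end Pool.MP_dd84fd_nt.LX
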