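import Pool.Agent.Lib.MP_dd84fd_nt.LX.SvDefs

/-!
# Theorem L: the interface of the numerics (helper5, helper88)
-/

set_option autoImplicit false

namespace Pool.MP_dd84fd_nt.LX

open Finset Pool.MP_dd84fd_nt.E2 Pool.MP_dd84fd_nt.HX Pool.MP_dd84fd_nt.IY Pool.MP_dd84fd_nt.KX

/-- the bounds for the densities of the minorant and of the majorant at `(th, e, τ)` -/
def NumLA (th e τ a b : ℝ) : Prop := ∀ B' : ℕ, 1 ≤ B' → ∃ X0 : ℕ, ∀ X : ℕ, X0 ≤ X →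
  ∀ n : ℕ, IY.X5 X < n → n ≤ X →
    a ≤ Real.log n * IY.gty (IY.kp B' X) X (amL τ (bI th e) (lK th τ) (IY.kp B' X) X) n ∧
    Real.log n * IY.gty (IY.kp B' X) X (bmL τ (bI th e) (lK th τ) (IY.kp B' X) X) n ≤ b

/-- the numerics of Theorem L with the constant `k` -/
def NumL (k : ℝ) : Prop := ∀ th : ℝ, 1 / 5 < th → th < 1 / 3 → ∃ τ0 a b : ℝ, 0 < τ0 ∧
  0 ≤ a ∧ a ≤ 1 ∧ 1 ≤ b ∧ (1 - a) * (1 - a) < k * (1 - 3 * th) ^ 3 ∧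
  (1 - a) * (b - 1) < k * (1 - 3 * th) ^ 3 ∧
  ∀ e τ : ℝ, AdmX th e τ → τ ≤ τ0 → NumLA th e τ a b

end Pool.MP_dd84fd_nt.LX
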