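import Pool.Agent.Lib.MP_dd84fd_nt.LX.LMn
import Pool.Agent.Lib.MP_dd84fd_nt.JX.JF1

/-!
# LX-LFab: the two-sided bound for `g` from a minorant and a majorant

`g ≥ 2 P * A - A * A` and `g ≤ P * B + P * A - A * B` (up to small primes), because
`(P - A) * (P - A) ≥ 0` and `(B - P) * (P - A) ≥ 0`; the main terms are
`p * p - (p - α) * (p - α)` and `p * p + (β - p) * (p - α)` for the densities `α ≤ p ≤ β`.
-/

set_option autoImplicit false

namespace Pool.MP_dd84fd_nt.LX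

open Finset Pool.MP_67663b_nt.Odd Pool.MP_dd84fd_nt.En Pool.MP_dd84fd_nt.E2 Pool.MP_dd84fd_nt.HX
  Pool.MP_dd84fd_nt.IX Pool.MP_dd84fd_nt.IY
open Pool.MP_dd84fd_nt.JX (wP gP wP_nonneg wP_le_one fI_gP)

theorem cvv_comm (f h : ℕ → ℝ) (n : ℕ) : cvv f h n = cvv h f n := by
  unfold cvv
  refine sum_nbij' (fun m => n - m) (fun m => n - m) ?_ ?_ ?_ ?_ ?_
  · intro m hm
    rw [mem_Icc] at hm ⊢
    omega
  · intro m hm
    rw [mem_Icc] at hm ⊢
    omega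
  · intro m hm
    rw [mem_Icc] at hm
    omega
  · intro m hm
    rw [mem_Icc] at hm
    omega
  · intro m hm
    rw [mem_Icc] at hm
    have h1 : n - (n - m) = m := by omega
    rw [h1, mul_comm]

theorem cvv_sub2 (f1 f2 h1 h2 : ℕ → ℝ) (n : ℕ) :
    cvv (fun m => f1 m - f2 m) (fun m => h1 m - h2 m) n =
      cvv f1 h1 n - cvv f1 h2 n - cvv f2 h1 n + cvv f2 h2 n := by
  unfold cvv
  rw [← sum_sub_distrib, ← sum_sub_distrib, ← sum_add_distrib]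
  refine sum_congr rfl fun m _ => ?_
  ring

theorem cvv_nonneg (f h : ℕ → ℝ) (n : ℕ) (hf : ∀ m, 0 ≤ f m) (hh : ∀ m, 0 ≤ h m) :
    0 ≤ cvv f h n :=
  sum_nonneg fun m _ => mul_nonneg (hf m) (hh _)

/-- replacing the indicator of all primes `≥ z` by that of the primes `> X5` -/
theorem cvv_wP_pI (K : ℝ) (hK : 0 ≤ K) : ∃ X0 : ℕ, ∀ X : ℕ, X0 ≤ X → ∀ W : ℕ → ℝ,
    (∀ m, |W m| ≤ K) → ∀ n : ℕ, n ≤ X →
    |cvv (wP X) W n - cvv (pI X) W n| ≤ K * X5 X := by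
  classical
  obtain ⟨X1, hX1⟩ := IY.X5_ge
  refine ⟨X1, fun X hX W hW n hnX => ?_⟩
  obtain ⟨h1, h2⟩ := hX1 X hX
  have hz : (zI X : ℝ) ≤ IY.X5 X := by
    have : (zI X : ℝ) = (zt X : ℝ) := rfl
    rw [this]
    linarith
  have hX5 : 0 ≤ IY.X5 X := (Nat.cast_nonneg _).trans hz
  have h3 : cvv (wP X) W n - cvv (pI X) W n =
      ∑ m ∈ Icc 1 (n - 1), (wP X m - pI X m) * W (n - m) := by
    unfold cvv
    rw [← sum_sub_distrib]
    refine sum_congr rfl fun m _ => ?_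
    ring
  have h4 : ∀ m ∈ Icc 1 (n - 1), |(wP X m - pI X m) * W (n - m)| ≤
      if m ∈ Icc 1 ⌊IY.X5 X⌋₊ then K else 0 := by
    intro m hm
    rw [mem_Icc] at hm
    rw [abs_mul]
    by_cases hc : m ∈ Icc 1 ⌊IY.X5 X⌋₊
    · rw [if_pos hc]
      have h5 : |wP X m - pI X m| ≤ 1 := by
        have a1 := wP_nonneg X m
        have a2 := wP_le_one X m
        have a3 : 0 ≤ pI X m ∧ pI X m ≤ 1 := by
          unfold pI
          split_ifs <;> norm_num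
        rw [abs_le]
        constructor
        · linarith [a3.2]
        · linarith [a3.1]
      calc |wP X m - pI X m| * |W (n - m)| ≤ 1 * K :=
            mul_le_mul h5 (hW _) (abs_nonneg _) zero_le_one
        _ = K := one_mul K
    · rw [if_neg hc]
      have h5 : IY.X5 X < m := by
        by_contra hcon
        exact hc (mem_Icc.2 ⟨hm.1, Nat.le_floor (not_lt.1 hcon)⟩)
      have h6 : wP X m - pI X m = 0 := by
        unfold wP pI
        have h7 : zI X ≤ m := by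
          have : (zI X : ℝ) ≤ m := hz.trans h5.le
          exact_mod_cast this
        by_cases hp : m.Prime
        · rw [if_pos ⟨hp, h7⟩, if_pos ⟨h5, by omega, hp⟩, sub_self]
        · rw [if_neg (fun h => hp h.1), if_neg (fun h => hp h.2.2), sub_self]
      rw [h6, abs_zero, zero_mul]
  rw [h3]
  refine (abs_sum_le_sum_abs _ _).trans ((sum_le_sum h4).trans ?_)
  rw [← sum_filter, sum_const, nsmul_eq_mul, mul_comm]
  refine mul_le_mul_of_nonneg_left ?_ hK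
  have h5 : ((Icc 1 (n - 1)).filter (fun m => m ∈ Icc 1 ⌊IY.X5 X⌋₊)).card ≤ ⌊IY.X5 X⌋₊ := by
    refine (card_le_card (t := Icc 1 ⌊IY.X5 X⌋₊) ?_).trans ?_
    · intro m hm
      exact (mem_filter.1 hm).2
    · rw [Nat.card_Icc]
      omega
  calc (((Icc 1 (n - 1)).filter (fun m => m ∈ Icc 1 ⌊IY.X5 X⌋₊)).card : ℝ) ≤
        (⌊IY.X5 X⌋₊ : ℝ) := by exact_mod_cast h5
    _ ≤ IY.X5 X := Nat.floor_le hX5

/-- the circle method output for the primes and a family -/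
def ClP (B' D' X : ℕ) (W : Finset ℕ → ℝ) (n : ℕ) : Prop :=
  |cvv (wP X) (IY.wty (IY.kp B' X) X W) n -
    cvv (fI gP X (wX D' X)) (fun m => IY.gty (IY.kp B' X) X W m * f1 (wX D' X) m) n| ≤
    X / (Real.log X) ^ 5

/-- the circle method output for two families -/
def Cl2 (B' D' X : ℕ) (V W : Finset ℕ → ℝ) (n : ℕ) : Prop :=
  |cvv (IY.wty (IY.kp B' X) X V) (IY.wty (IY.kp B' X) X W) n -
    cvv (fun m => IY.gty (IY.kp B' X) X V m * f1 (wX D' X) m)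
      (fun m => IY.gty (IY.kp B' X) X W m * f1 (wX D' X) m) n| ≤ X / (Real.log X) ^ 5

/-- numbers: `cvv pI pI` between the sieve expressions -/
theorem vec_l (P a b : ℕ → ℝ) (h : ∀ n, a n ≤ P n ∧ P n ≤ b n) (n : ℕ) :
    2 * cvv P a n - cvv a a n ≤ cvv P P n ∧
      cvv P P n ≤ cvv P b n + cvv P a n - cvv a b n := by
  have h1 : 0 ≤ cvv (fun m => P m - a m) (fun m => P m - a m) n :=
    cvv_nonneg _ _ n (fun m => by linarith [(h m).1]) (fun m => by linarith [(h m).1])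
  have h2 : 0 ≤ cvv (fun m => b m - P m) (fun m => P m - a m) n :=
    cvv_nonneg _ _ n (fun m => by linarith [(h m).2]) (fun m => by linarith [(h m).1])
  rw [cvv_sub2] at h1 h2
  rw [cvv_comm a P] at h1
  rw [cvv_comm b P, cvv_comm b a] at h2
  constructor
  · linarith
  · linarith

/-- the difference between `f2` and the density of the primes `> X5` -/
theorem f2_diff (B' : ℕ) (hB : 1 ≤ B') (b η : ℝ) (hb : 0 ≤ b) (hη : 0 < η) : ∃ D0 : ℕ,
    ∀ D' : ℕ, D0 ≤ D' → ∃ X0 : ℕ, ∀ X : ℕ, X0 ≤ X → ∀ h : ℕ → ℝ,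
    (∀ n : ℕ, X5 X < n → n ≤ X → 0 ≤ h n ∧ Real.log n * h n ≤ b) →
    (∀ n : ℕ, (n : ℝ) ≤ X5 X → h n = 0) → ∀ n : ℕ, X < 2 * n → n ≤ X → Even n →
    cvv (fun m => gty (kp B' X) X PT m * f1 (wX D' X) m) (fun m => h m * f1 (wX D' X) m) n ≤
      cvv (f2 (wX D' X)) (fun m => h m * f1 (wX D' X) m) n ∧
    cvv (f2 (wX D' X)) (fun m => h m * f1 (wX D' X) m) n ≤
      cvv (fun m => gty (kp B' X) X PT m * f1 (wX D' X) m) (fun m => h m * f1 (wX D' X) m) n +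
        b * (η * (SS n * JJ n)) := by
  classical
  obtain ⟨D0, hD0⟩ := low_part η hη
  refine ⟨D0, fun D' hD' => ?_⟩
  obtain ⟨X1, hX1⟩ := hD0 D' hD'
  obtain ⟨X2, hX2⟩ := gty_PT B' hB
  obtain ⟨X3, hX3⟩ := IY.X5_ge
  refine ⟨max X1 (max X2 X3), fun X hX h hh1 hh2 n hn hnX hne => ?_⟩
  simp only [max_le_iff] at hX
  obtain ⟨x1, x2, x3⟩ := hX
  have hlow := hX1 X x1 n hn hnX hne
  obtain ⟨hz, -⟩ := hX3 X x3
  have hz1 : (1 : ℝ) ≤ X5 X := by
    have : (0 : ℝ) ≤ (zt X : ℝ) := Nat.cast_nonneg _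
    linarith
  obtain ⟨w, hw⟩ : ∃ w : ℕ, w = wX D' X := ⟨_, rfl⟩
  rw [← hw] at hlow ⊢
  -- values
  have hp1 : ∀ m : ℕ, X5 X < m → m ≤ X → gty (kp B' X) X PT m * f1 w m = f2 w m := by
    intro m h1 h2
    rw [hX2 X x2 m h1 h2]
    unfold f2
    ring
  have hp0 : ∀ m : ℕ, (m : ℝ) ≤ X5 X → gty (kp B' X) X PT m * f1 w m = 0 := by
    intro m h1
    have hcon : ¬ (X5 X < m ∧ m ≤ X) := fun h => absurd h.1 (not_lt.2 h1)
    unfold gty
    rw [if_neg hcon, zero_mul]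
  have hh : ∀ m : ℕ, m ≤ X → 0 ≤ h m * f1 w m ∧ h m * f1 w m ≤ b * f2 w m := by
    intro m hm
    have hf := f1_nonneg w m
    by_cases h1 : X5 X < m
    · obtain ⟨a1, a2⟩ := hh1 m h1 hm
      have hl : 0 < Real.log (m : ℝ) := Real.log_pos (lt_of_le_of_lt hz1 h1)
      refine ⟨mul_nonneg a1 hf, ?_⟩
      unfold f2
      have h3 : h m ≤ b / Real.log m := by
        rw [le_div_iff₀ hl]
        linarith
      calc h m * f1 w m ≤ b / Real.log m * f1 w m := mul_le_mul_of_nonneg_right h3 hf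
        _ = b * (f1 w m / Real.log m) := by ring
    · rw [hh2 m (not_lt.1 h1), zero_mul]
      exact ⟨le_rfl, mul_nonneg hb (f2_nonneg' w m)⟩
  have hkey : cvv (f2 w) (fun m => h m * f1 w m) n -
      cvv (fun m => gty (kp B' X) X PT m * f1 w m) (fun m => h m * f1 w m) n =
      ∑ m ∈ Icc 1 (n - 1), (f2 w m - gty (kp B' X) X PT m * f1 w m) *
        (h (n - m) * f1 w (n - m)) := by
    unfold cvv
    rw [← sum_sub_distrib]
    refine sum_congr rfl fun m _ => ?_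
    ring
  have hterm : ∀ m ∈ Icc 1 (n - 1), 0 ≤ (f2 w m - gty (kp B' X) X PT m * f1 w m) *
        (h (n - m) * f1 w (n - m)) ∧ (f2 w m - gty (kp B' X) X PT m * f1 w m) *
        (h (n - m) * f1 w (n - m)) ≤
        if ¬ (X5 X < m ∧ X5 X < ((n - m : ℕ) : ℝ)) then b * (f2 w m * f2 w (n - m)) else 0 := by
    intro m hm
    rw [mem_Icc] at hm
    have hf2 := f2_nonneg' w m
    have hf2' := f2_nonneg' w (n - m)
    obtain ⟨b1, b2⟩ := hh (n - m) (by omega)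
    by_cases h1 : X5 X < m
    · rw [hp1 m h1 (by omega), sub_self, zero_mul]
      refine ⟨le_rfl, ?_⟩
      split_ifs
      · exact le_rfl
      · exact mul_nonneg hb (mul_nonneg hf2 hf2')
    · have h2 : ¬ (X5 X < m ∧ X5 X < ((n - m : ℕ) : ℝ)) := fun h => h1 h.1
      rw [if_pos h2, hp0 m (not_lt.1 h1), sub_zero]
      refine ⟨mul_nonneg hf2 b1, ?_⟩
      calc f2 w m * (h (n - m) * f1 w (n - m)) ≤ f2 w m * (b * f2 w (n - m)) :=
            mul_le_mul_of_nonneg_left b2 hf2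
        _ = b * (f2 w m * f2 w (n - m)) := by ring
  have hlo : 0 ≤ cvv (f2 w) (fun m => h m * f1 w m) n -
      cvv (fun m => gty (kp B' X) X PT m * f1 w m) (fun m => h m * f1 w m) n := by
    rw [hkey]
    exact sum_nonneg fun m hm => (hterm m hm).1
  have hup : cvv (f2 w) (fun m => h m * f1 w m) n -
      cvv (fun m => gty (kp B' X) X PT m * f1 w m) (fun m => h m * f1 w m) n ≤
      b * (η * (SS n * JJ n)) := by
    rw [hkey]
    refine (sum_le_sum fun m hm => (hterm m hm).2).trans ?_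
    rw [← sum_filter, ← mul_sum]
    exact mul_le_mul_of_nonneg_left hlow hb
  constructor
  · linarith
  · linarith

theorem final_l (B' : ℕ) (hB : 1 ≤ B') (a b δ : ℝ) (hδ : 0 < δ) (ha : 0 ≤ a) (ha1 : a ≤ 1)
    (hb : 1 ≤ b) : ∃ D0 : ℕ, ∀ D' : ℕ, D0 ≤ D' → ∃ X0 : ℕ, ∀ X : ℕ, X0 ≤ X →
    ∀ A B : Finset ℕ → ℝ, TyML (kp B' X) X A B → (∀ T, |A T| ≤ 2 ^ 24 ∧ |B T| ≤ 2 ^ 24) →
    (∀ n : ℕ, X5 X < n → n ≤ X → a ≤ Real.log n * gty (kp B' X) X A n ∧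
      Real.log n * gty (kp B' X) X B n ≤ b) →
    ∀ n : ℕ, X < 2 * n → n ≤ X → Even n → ClP B' D' X A n → ClP B' D' X B n →
      Cl2 B' D' X A A n → Cl2 B' D' X A B n →
      (1 - (1 - a) ^ 2 - δ) * (SS n * JJ n) ≤ g n ∧
        (g n : ℝ) ≤ (1 + (b - 1) * (1 - a) + δ) * (SS n * JJ n) := by
  classical
  obtain ⟨η, hη⟩ : ∃ η : ℝ, η = δ / (4 * (1 + b)) := ⟨_, rfl⟩
  have hη0 : 0 < η := by rw [hη]; positivity
  have hηb : (1 + b) * η = δ / 4 := by rw [hη]; field_simp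
  obtain ⟨D1, hD1⟩ := main_lo 1 (1 - a) (δ / 4) (by linarith) zero_le_one (by linarith)
  obtain ⟨D2, hD2⟩ := main_up 1 (δ / 4) (by linarith)
  obtain ⟨D3, hD3⟩ := main_up2 (b - 1) (1 - a) (δ / 4) (by linarith) (by linarith) (by linarith)
  obtain ⟨D4, hD4⟩ := f2_diff B' hB 1 η zero_le_one hη0
  obtain ⟨D5, hD5⟩ := f2_diff B' hB b η (by linarith) hη0
  refine ⟨max (max D1 D2) (max D3 (max D4 D5)), fun D' hD' => ?_⟩
  simp only [max_le_iff] at hD'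
  obtain ⟨⟨k1, k2⟩, k3, k4, k5⟩ := hD'
  obtain ⟨X1, hX1⟩ := hD1 D' k1
  obtain ⟨X2, hX2⟩ := hD2 D' k2
  obtain ⟨X3, hX3⟩ := hD3 D' k3
  obtain ⟨X4, hX4⟩ := hD4 D' k4
  obtain ⟨X5', hX5'⟩ := hD5 D' k5
  obtain ⟨Y1, hY1⟩ := gty_PT B' hB
  obtain ⟨Y2, hY2⟩ := gty_AB B' hB
  obtain ⟨Y3, hY3⟩ := wty_AB B' hB
  obtain ⟨Y4, hY4⟩ := JJ_ge
  obtain ⟨Y5, hY5⟩ := IY.X5_ge
  obtain ⟨Y6, hY6⟩ := cvv_wP_pI (2 ^ 24) (by norm_num)
  obtain ⟨c0, hc⟩ : ∃ c0 : ℝ, c0 = 2 * C2 := ⟨_, rfl⟩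
  have hc0 : 0 < c0 := by have := C2_pos; rw [hc]; positivity
  obtain ⟨Y7, hY7⟩ := MP_log_large (2 ^ 33 / (δ * c0) + 1)
  refine ⟨max (max (max X1 X2) (max X3 (max X4 X5')))
    (max (max (max Y1 Y2) (max Y3 Y4)) (max (max Y5 Y6) (max Y7 2))),
    fun X hX A B hT hbd hden n hn hnX hne hPA hPB hAA hAB => ?_⟩
  simp only [max_le_iff] at hX
  obtain ⟨⟨⟨x1, x2⟩, x3, x4, x5⟩, ⟨⟨y1, y2⟩, y3, y4⟩, ⟨y5, y6⟩, y7, y8⟩ := hX
  have hX0 : (0 : ℝ) < X := by exact_mod_cast (by omega : 0 < X)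
  obtain ⟨hz, hX5X⟩ := hY5 X y5
  have hz1 : (1 : ℝ) ≤ X5 X := by
    have : (0 : ℝ) ≤ (zt X : ℝ) := Nat.cast_nonneg _
    linarith
  -- densities
  have hzero : ∀ (W : Finset ℕ → ℝ) (m : ℕ), (m : ℝ) ≤ X5 X → gty (kp B' X) X W m = 0 := by
    intro W m hm
    have hcon : ¬ (X5 X < m ∧ m ≤ X) := fun h => absurd h.1 (not_lt.2 hm)
    unfold gty
    rw [if_neg hcon]
  have hval : ∀ m : ℕ, X5 X < m → m ≤ X → 0 < Real.log (m : ℝ) ∧
      Real.log m * gty (kp B' X) X PT m = 1 ∧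
      gty (kp B' X) X A m ≤ gty (kp B' X) X PT m ∧
      gty (kp B' X) X PT m ≤ gty (kp B' X) X B m ∧ 0 ≤ gty (kp B' X) X A m := by
    intro m h1 h2
    have hl : 0 < Real.log (m : ℝ) := Real.log_pos (lt_of_le_of_lt hz1 h1)
    have h3 := hY1 X y1 m h1 h2
    obtain ⟨h4, h5⟩ := hY2 X y2 A B hT m h1 h2
    obtain ⟨h6, -⟩ := hden m h1 h2
    refine ⟨hl, ?_, ?_, ?_, ?_⟩
    · rw [h3]
      field_simp
    · rw [h3]; exact h4
    · rw [h3]; exact h5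
    · by_contra hcon
      have := mul_neg_of_pos_of_neg hl (not_le.1 hcon)
      linarith
  -- main terms
  have m1 := hX1 X x1 (gty (kp B' X) X PT)
    (fun m => gty (kp B' X) X PT m - gty (kp B' X) X A m)
    (fun m h1 h2 => by
      obtain ⟨v0, v1, v2, v3, v4⟩ := hval m h1 h2
      obtain ⟨h6, -⟩ := hden m h1 h2
      refine ⟨v1.ge, by linarith, ?_⟩
      rw [mul_sub, v1]
      linarith)
    (fun m h1 => ⟨hzero _ m h1, by rw [hzero _ m h1, hzero _ m h1, sub_zero]⟩) n hn hnX hne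
  have m2 := hX2 X x2 (gty (kp B' X) X PT)
    (fun m h1 h2 => by
      obtain ⟨v0, v1, v2, v3, v4⟩ := hval m h1 h2
      exact ⟨by linarith, v1.le⟩)
    (fun m h1 => hzero _ m h1) n hn hnX hne
  have m3 := hX3 X x3 (fun m => gty (kp B' X) X B m - gty (kp B' X) X PT m)
    (fun m => gty (kp B' X) X PT m - gty (kp B' X) X A m)
    (fun m h1 h2 => by
      obtain ⟨v0, v1, v2, v3, v4⟩ := hval m h1 h2
      obtain ⟨-, h7⟩ := hden m h1 h2
      refine ⟨by linarith, ?_⟩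
      rw [mul_sub, v1]
      linarith)
    (fun m h1 h2 => by
      obtain ⟨v0, v1, v2, v3, v4⟩ := hval m h1 h2
      obtain ⟨h6, -⟩ := hden m h1 h2
      refine ⟨by linarith, ?_⟩
      rw [mul_sub, v1]
      linarith)
    (fun m h1 => ⟨by rw [hzero _ m h1, hzero _ m h1, sub_zero],
      by rw [hzero _ m h1, hzero _ m h1, sub_zero]⟩) n hn hnX hne
  have m4 := hX4 X x4 (gty (kp B' X) X A)
    (fun m h1 h2 => by
      obtain ⟨v0, v1, v2, v3, v4⟩ := hval m h1 h2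
      refine ⟨v4, ?_⟩
      rw [← v1]
      exact mul_le_mul_of_nonneg_left v2 v0.le)
    (fun m h1 => hzero _ m h1) n hn hnX hne
  have m5 := hX5' X x5 (gty (kp B' X) X B)
    (fun m h1 h2 => by
      obtain ⟨v0, v1, v2, v3, v4⟩ := hval m h1 h2
      obtain ⟨-, h7⟩ := hden m h1 h2
      exact ⟨by linarith, h7⟩)
    (fun m h1 => hzero _ m h1) n hn hnX hne
  -- numbers
  obtain ⟨n1, n2⟩ := vec_l (pI X) (wty (kp B' X) X A) (wty (kp B' X) X B) (hY3 X y3 A B hT) n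
  have hwb : ∀ W : Finset ℕ → ℝ, (∀ T, |W T| ≤ 2 ^ 24) → ∀ m, |wty (kp B' X) X W m| ≤ 2 ^ 24 := by
    intro W hW m
    unfold wty
    split_ifs
    · exact hW _
    · rw [abs_zero]; norm_num
  have n3 := hY6 X y6 _ (hwb A fun T => (hbd T).1) n hnX
  have n4 := hY6 X y6 _ (hwb B fun T => (hbd T).2) n hnX
  have n5 := pI_le_g X n
  have n6 := g_le_pI X n hnX (by linarith)
  -- circle method
  unfold ClP at hPA hPB
  unfold Cl2 at hAA hAB
  have hfp : (fI gP X (wX D' X)) = f2 (wX D' X) := funext fun m => fI_gP X (wX D' X) m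
  rw [hfp] at hPA hPB
  obtain ⟨w, hw⟩ : ∃ w : ℕ, w = wX D' X := ⟨_, rfl⟩
  rw [← hw] at hPA hPB hAA hAB m1 m2 m3 m4 m5
  obtain ⟨p, hp⟩ : ∃ p : ℕ → ℝ, p = fun m => gty (kp B' X) X PT m * f1 w m := ⟨_, rfl⟩
  obtain ⟨α, hα⟩ : ∃ α : ℕ → ℝ, α = fun m => gty (kp B' X) X A m * f1 w m := ⟨_, rfl⟩
  obtain ⟨β, hβ⟩ : ∃ β : ℕ → ℝ, β = fun m => gty (kp B' X) X B m * f1 w m := ⟨_, rfl⟩
  have e1 : (fun m => (gty (kp B' X) X PT m - gty (kp B' X) X A m) * f1 w m) =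
      fun m => p m - α m := by
    rw [hp, hα]
    funext m
    ring
  have e2 : (fun m => (gty (kp B' X) X B m - gty (kp B' X) X PT m) * f1 w m) =
      fun m => β m - p m := by
    rw [hp, hβ]
    funext m
    ring
  rw [e1, ← hp, cvv_sub2, cvv_comm α p] at m1
  rw [← hp] at m2
  rw [e1, e2, cvv_sub2, cvv_comm β p, cvv_comm β α] at m3
  rw [← hp, ← hα] at m4
  rw [← hp, ← hβ] at m5
  rw [← hα] at hPA hAA hAB
  rw [← hβ] at hPB hAB
  -- the error term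
  have hL := hY7 X y7
  have hSS : c0 ≤ SS n := by rw [hc]; exact SS_ge n
  have hJJ := hY4 X y4 n hn hnX
  have hX5e : X5 X = X / (Real.log (X : ℝ)) ^ 5 := rfl
  rw [hX5e] at n3 n4 n6 hz1
  obtain ⟨L, hLd⟩ : ∃ L : ℝ, L = Real.log (X : ℝ) := ⟨_, rfl⟩
  rw [← hLd] at n3 n4 n6 hz1 hL hJJ hPA hPB hAA hAB
  have h1600 : 0 < 2 ^ 33 / (δ * c0) := by positivity
  have hL1 : 1 ≤ L := by linarith
  have hL0 : 0 < L := by linarith
  have hnr : (X : ℝ) < 2 * n := by exact_mod_cast hn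
  have hJ2 : X / (16 * L ^ 2) ≤ JJ n := by
    refine le_trans ?_ hJJ
    rw [div_le_div_iff₀ (by positivity) (by positivity)]
    have h12 : 0 < L ^ 2 := by positivity
    nlinarith
  have hJ0 : 0 ≤ JJ n := le_trans (by positivity) hJ2
  have herr : 2 ^ 27 * (X / L ^ 5) ≤ δ / 4 * (SS n * JJ n) := by
    have e1 : c0 * (X / (16 * L ^ 2)) ≤ SS n * JJ n :=
      mul_le_mul hSS hJ2 (by positivity) (hc0.le.trans hSS)
    have e2 : 2 ^ 27 * (X / L ^ 5) ≤ δ / 4 * (c0 * (X / (16 * L ^ 2))) := by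
      have e3 : δ / 4 * (c0 * (X / (16 * L ^ 2))) =
          (δ * c0 * L ^ 3 / 2 ^ 33) * (2 ^ 27 * (X / L ^ 5)) := by
        field_simp
        norm_num
      rw [e3]
      have e4 : 1 ≤ δ * c0 * L ^ 3 / 2 ^ 33 := by
        rw [le_div_iff₀ (by norm_num), one_mul]
        have e5 : 2 ^ 33 / (δ * c0) ≤ L ^ 3 := by
          calc 2 ^ 33 / (δ * c0) ≤ L := by linarith
            _ = L ^ 1 := (pow_one L).symm
            _ ≤ L ^ 3 := pow_le_pow_right₀ hL1 (by norm_num)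
        rw [div_le_iff₀ (by positivity)] at e5
        linarith
      exact le_mul_of_one_le_left (by positivity) e4
    have e6 : δ / 4 * (c0 * (X / (16 * L ^ 2))) ≤ δ / 4 * (SS n * JJ n) :=
      mul_le_mul_of_nonneg_left e1 (by linarith)
    linarith
  obtain ⟨V, hV⟩ : ∃ V : ℝ, V = SS n * JJ n := ⟨_, rfl⟩
  obtain ⟨Q, hQ⟩ : ∃ Q : ℝ, Q = X / L ^ 5 := ⟨_, rfl⟩
  rw [← hV] at m1 m2 m3 m4 m5 herr ⊢
  rw [← hQ] at herr n3 n4 n6 hz1 hPA hPB hAA hAB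
  have b1 := abs_le.1 hPA
  have b2 := abs_le.1 hPB
  have b3 := abs_le.1 hAA
  have b4 := abs_le.1 hAB
  have b5 := abs_le.1 n3
  have b6 := abs_le.1 n4
  have hηV : b * (η * V) + 1 * (η * V) = δ / 4 * V := by
    rw [← hηb]
    ring
  constructor
  · have f1 : (1 - (1 - a) ^ 2 - δ) * V = (1 ^ 2 - (1 - a) ^ 2 - δ / 4) * V -
        3 * (δ / 4 * V) := by ring
    rw [f1]
    linarith [b1.1, b3.2, b5.1, b5.2, m4.1]
  · have f1 : (1 + (b - 1) * (1 - a) + δ) * V = (1 ^ 2 + δ / 4) * V +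
        ((b - 1) * (1 - a) + δ / 4) * V + δ / 4 * V + δ / 4 * V := by ring
    rw [f1]
    linarith [b1.2, b2.2, b4.1, b5.2, b5.1, b6.1, b6.2, m4.2, m5.2]

end Pool.MP_dd84fd_nt.LX
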