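import Pool.Agent.Lib.MP_dd84fd_nt.LX.SvCl

/-!
# Theorem L: the families `A` and `B` (helper63)

`tyL` (Lemma CL), `bdL` (bounds), `lval` (values for the numerics), `decA`, `decB`, `decAB` (W2).
-/

set_option autoImplicit false

namespace Pool.MP_dd84fd_nt.LX

open Finset Pool.MP_dd84fd_nt.HX Pool.MP_dd84fd_nt.IY Pool.MP_dd84fd_nt.KX

/-! ### Parameters -/

private theorem l_big (c : ℝ) (hc : 0 < c) : ∃ X0 : ℕ, ∀ X : ℕ, X0 ≤ X →
    1 ≤ X ∧ 4 ≤ Real.log X ∧ 1 ≤ Real.log (Real.log X) ∧ 2 ≤ zt X ∧ (X : ℝ) < (zt X : ℝ) ^ 11 ∧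
      30 * Real.log (Real.log X) + 30 < c * Real.log X ∧ (X : ℝ) ^ (1 / 10 : ℝ) ≤ zt X := by
  obtain ⟨X1, hX1⟩ := b_par (1 / 8) (3 / 8) (by norm_num) (by norm_num) (by norm_num) 0
  have ht : Filter.Tendsto (fun X : ℕ => Real.log (X : ℝ)) Filter.atTop Filter.atTop :=
    Real.tendsto_log_atTop.comp tendsto_natCast_atTop_atTop
  have h1 := (Real.isLittleO_log_id_atTop.bound (show (0 : ℝ) < c / 100 by positivity))
  have h2 : ∀ᶠ X : ℕ in Filter.atTop, ‖Real.log (Real.log (X : ℝ))‖ ≤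
      c / 100 * ‖id (Real.log (X : ℝ))‖ := ht.eventually h1
  have h3 : ∀ᶠ X : ℕ in Filter.atTop, 100 / c ≤ Real.log (X : ℝ) := ht.eventually_ge_atTop _
  obtain ⟨X2, hX2⟩ := Filter.eventually_atTop.1 (h2.and h3)
  refine ⟨max X1 X2, fun X hX => ?_⟩
  obtain ⟨g1, g2, g3, g4, g5, _, g7, _⟩ := hX1 X (le_trans (le_max_left _ _) hX)
  obtain ⟨g8, g9⟩ := hX2 X (le_trans (le_max_right _ _) hX)
  have g2' : 4 ≤ Real.log (X : ℝ) := by
    have := g2
    push_cast at this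
    linarith
  refine ⟨g1, g2', g3, g4, g7, ?_, g5⟩
  rw [Real.norm_eq_abs, Real.norm_eq_abs, id, abs_of_nonneg (by linarith : (0:ℝ) ≤ Real.log X)] at g8
  have g10 := (le_abs_self _).trans g8
  have g11 : 100 ≤ c * Real.log X := by
    rw [div_le_iff₀ hc] at g9
    linarith
  linarith

theorem AdmX.pos {th e τ : ℝ} (h : AdmX th e τ) : 0 < τ := by
  obtain ⟨h1, h2, h3, h4, h5, h6⟩ := h
  linarith

/-- the inequalities between the parameters -/
theorem par_l {th e τ κ x l : ℝ} (hA : AdmX th e τ) (hl : 1 ≤ l) (hκ : 11 * κ ≤ 1)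
    (hx : 30 * l + 30 < τ * x) :
    ParL κ x (τ * x) (bI th e * x) (lK th τ * x) l ∧ τ * x < x / 10 - l := by
  obtain ⟨h1, h2, h3, h4, h5, h6⟩ := hA
  have ht0 : 0 < τ := by linarith
  have hx0 : 0 < x := by
    by_contra hc
    push Not at hc
    have : τ * x ≤ 0 := mul_nonpos_of_nonneg_of_nonpos ht0.le hc
    linarith
  have m1 : 0 ≤ (5 * th - 1 - 80 * τ) * x := mul_nonneg (by linarith) hx0.le
  have m2 : 0 ≤ (τ - 1000 * e) * x := mul_nonneg (by linarith) hx0.le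
  have m3 : 0 ≤ (1 - 3 * th - 48 * τ) * x := mul_nonneg (by linarith) hx0.le
  have m4 : 0 < e * x := mul_pos h3 hx0
  have m5 : 0 ≤ (1 / 120 - τ) * x := mul_nonneg (by linarith) hx0.le
  unfold bI lK
  refine ⟨⟨hl, hκ, by positivity, ?_, ?_, ?_, ?_, ?_, ?_, ?_, ?_⟩, ?_⟩
  · nlinarith
  · nlinarith
  · nlinarith
  · nlinarith
  · nlinarith
  · nlinarith
  · nlinarith
  · nlinarith
  · nlinarith

/-- the types of the numbers in `(X5 X / 2, X]` -/
theorem ty_l {th e τ : ℝ} (hA : AdmX th e τ) (B' : ℕ) (hB : 1 ≤ B') : ∃ X0 : ℕ, ∀ X : ℕ, X0 ≤ X →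
    ParL (kp B' X) (Real.log X) (τ * Real.log X) (bI th e * Real.log X) (lK th τ * Real.log X)
      (Real.log (Real.log X)) ∧
    ∀ T : Finset ℕ, X5 X / 2 ≤ US (kp B' X) (zt X) T → US (kp B' X) (zt X) T ≤ X →
    T.card ≤ 10 ∧
    (¬ gdT (vlog (kp B' X) (zt X)) (kp B' X) (τ * Real.log X) (bI th e * Real.log X) T →
      TyL (vlog (kp B' X) (zt X)) (kp B' X) (Real.log X) (τ * Real.log X)
        (bI th e * Real.log X) (lK th τ * Real.log X) (Real.log (Real.log X)) T) ∧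
    (T.card = 1 →
      ¬ gdT (vlog (kp B' X) (zt X)) (kp B' X) (τ * Real.log X) (bI th e * Real.log X) T) := by
  obtain ⟨X1, hX1⟩ := l_big τ hA.pos
  obtain ⟨X3, hX3⟩ := kp_par B' hB
  refine ⟨max X1 X3, fun X hX => ?_⟩
  simp only [max_le_iff] at hX
  obtain ⟨g1, g2, g3, g4, g5, g6, gz⟩ := hX1 X hX.1
  obtain ⟨k1, k2, k3, _⟩ := hX3 X hX.2
  obtain ⟨p1, p3⟩ := par_l (κ := kp B' X) hA g3 (by linarith) g6
  refine ⟨p1, fun T hT1 hT2 => ?_⟩
  set κ := kp B' X with hκ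
  set x := Real.log (X : ℝ) with hx
  set l := Real.log x with hl
  have hz1 : 1 ≤ zt X := by omega
  have hzr : (1 : ℝ) ≤ zt X := by exact_mod_cast hz1
  have hzj : ∀ j, x / 10 - l ≤ vlog κ (zt X) j := by
    intro j
    rw [vlog_eq κ _ j hz1]
    have h3 : Real.log ((X : ℝ) ^ (1 / 10 : ℝ)) ≤ Real.log (zt X) :=
      Real.log_le_log (Real.rpow_pos_of_pos (by exact_mod_cast g1) _) gz
    rw [Real.log_rpow (by exact_mod_cast g1)] at h3
    have h4 : 0 ≤ κ * (j : ℝ) := by positivity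
    linarith
  have hlog2 : Real.log 2 < 1 := by
    have := Real.log_two_lt_d9
    linarith
  have hlog2' : 0 < Real.log 2 := Real.log_pos (by norm_num)
  have hXp : (0 : ℝ) < X := by exact_mod_cast g1
  have hxp : 0 < x := by linarith
  have hX5 : 0 < X5 X := by
    unfold X5
    positivity
  have hUp : 0 < US κ (zt X) T := lt_of_lt_of_le (by positivity) hT1
  have hlo : x - (Real.log 2 + 5 * l) ≤ sg (vlog κ (zt X)) T := by
    rw [← log_US κ _ hz1]
    have h3 := Real.log_le_log (by positivity) hT1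
    have h4 : Real.log (X5 X / 2) = x - (Real.log 2 + 5 * l) := by
      unfold X5
      rw [Real.log_div (by positivity) (by norm_num), Real.log_div hXp.ne' (by positivity),
        Real.log_pow]
      push_cast
      ring
    rw [h4] at h3
    exact h3
  have hhi : sg (vlog κ (zt X)) T ≤ x := by
    rw [← log_US κ _ hz1]
    exact Real.log_le_log hUp hT2
  have hT8 : T.card ≤ 10 := by
    by_contra hc
    have hc9 : 11 ≤ T.card := by omega
    have h5 : (zt X : ℝ) ^ T.card ≤ US κ (zt X) T := by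
      unfold US
      rw [← Finset.prod_const]
      refine Finset.prod_le_prod (fun _ _ => by positivity) fun j _ => ?_
      unfold ub
      have h6 : (1 : ℝ) ≤ Real.exp (κ * j) := Real.one_le_exp (by positivity)
      nlinarith
    have h7 : (zt X : ℝ) ^ 11 ≤ (zt X : ℝ) ^ T.card := pow_le_pow_right₀ hzr hc9
    linarith
  refine ⟨hT8, fun hg => ⟨p1, by linarith, hhi, fun j _ => lt_of_lt_of_le p3 (hzj j), hg⟩,
    fun hc1 => ?_⟩
  obtain ⟨j, rfl⟩ := Finset.card_eq_one.1 hc1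
  rintro ⟨S, hS, hS1, hS2⟩
  obtain ⟨q1, q2, q3, q4, q5, q6, q7, q8, q9, q10, q11⟩ := p1
  rcases Finset.subset_singleton_iff.1 hS with rfl | rfl
  · have hsg0 : sg (vlog κ (zt X)) (∅ : Finset ℕ) = 0 := by simp [sg]
    rw [hsg0] at hS1
    linarith
  · linarith

/-- the values in terms of the sums over subsets -/
theorem rep_l {α β ℓ κ : ℝ} {X : ℕ} {T : Finset ℕ} (hT : T.card ≤ 10) :
    (gdT (vlog κ (zt X)) κ (α * Real.log X) (β * Real.log X) T →
      amL α β ℓ κ X T = 0 ∧ bmL α β ℓ κ X T = 0) ∧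
    (¬ gdT (vlog κ (zt X)) κ (α * Real.log X) (β * Real.log X) T →
      amL α β ℓ κ X T = ∑ S ∈ T.powerset, lamA (vlog κ (zt X)) (Real.log X) (ℓ * Real.log X) S ∧
      bmL α β ℓ κ X T = ∑ S ∈ T.powerset, lamB (vlog κ (zt X)) (Real.log X) (β * Real.log X)
        (ℓ * Real.log X) (Real.log (Real.log X)) S) := by
  unfold amL bmL Wl wT
  rw [if_pos hT, if_pos hT]
  constructor
  · intro h
    rw [if_pos h, if_pos h]
    exact ⟨rfl, rfl⟩
  · intro h
    rw [if_neg h, if_neg h]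
    exact ⟨rfl, rfl⟩

/-- Lemma CL for the types -/
theorem tyL {th e τ : ℝ} (hA : AdmX th e τ) (B' : ℕ) (hB : 1 ≤ B') : ∃ X0 : ℕ, ∀ X : ℕ, X0 ≤ X →
    ∀ T : Finset ℕ, X5 X / 2 ≤ US (kp B' X) (zt X) T → US (kp B' X) (zt X) T ≤ X →
    (T.card = 1 → amL τ (bI th e) (lK th τ) (kp B' X) X T = 1 ∧
      bmL τ (bI th e) (lK th τ) (kp B' X) X T = 1) ∧
    (2 ≤ T.card → amL τ (bI th e) (lK th τ) (kp B' X) X T ≤ 0 ∧
      0 ≤ bmL τ (bI th e) (lK th τ) (kp B' X) X T) := by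
  obtain ⟨X0, h⟩ := ty_l hA B' hB
  refine ⟨X0, fun X hX T hT1 hT2 => ?_⟩
  obtain ⟨_, h⟩ := h X hX
  obtain ⟨h1, h2, h3⟩ := h T hT1 hT2
  obtain ⟨e1, e2⟩ := rep_l (α := τ) (β := bI th e) (ℓ := lK th τ) (κ := kp B' X) (X := X) h1
  by_cases hg : gdT (vlog (kp B' X) (zt X)) (kp B' X) (τ * Real.log X) (bI th e * Real.log X) T
  · obtain ⟨f1, f2⟩ := e1 hg
    rw [f1, f2]
    exact ⟨fun hc => absurd hg (h3 hc), fun _ => ⟨le_rfl, le_rfl⟩⟩
  · obtain ⟨f1, f2⟩ := e2 hg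
    rw [f1, f2]
    exact (h2 hg).cl

/-- Lemma CL in the form `TyCL` -/
theorem tyclL {th e τ : ℝ} (hA : AdmX th e τ) (B' : ℕ) (hB : 1 ≤ B') : ∃ X0 : ℕ, ∀ X : ℕ,
    X0 ≤ X → IY.TyCL (kp B' X) X (amL τ (bI th e) (lK th τ) (kp B' X) X)
      (fun T => bmL τ (bI th e) (lK th τ) (kp B' X) X T -
        amL τ (bI th e) (lK th τ) (kp B' X) X T) := by
  obtain ⟨X0, h⟩ := tyL hA B' hB
  refine ⟨X0, fun X hX T hT1 hT2 => ?_⟩
  obtain ⟨h1, h2⟩ := h X hX T hT1 hT2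
  refine ⟨fun hc => ?_, fun hc => ?_⟩
  · obtain ⟨k1, k2⟩ := h1 hc
    refine ⟨k1, ?_⟩
    simp only [k1, k2, sub_self]
  · obtain ⟨k1, k2⟩ := h2 hc
    refine ⟨k1, ?_, ?_⟩
    · show 0 ≤ _ + (_ - _)
      linarith
    · show 0 ≤ _ - _
      linarith

/-- the values on the types of the numbers in `(X5 X / 2, X]`, for the numerics; `x = log X`,
`l = log log X`, `b = (th - 3e) x`, `w = lK th τ x` -/
theorem lval {th e τ : ℝ} (hA : AdmX th e τ) (B' : ℕ) (hB : 1 ≤ B') : ∃ X0 : ℕ, ∀ X : ℕ, X0 ≤ X →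
    ∀ x l b w : ℝ, x = Real.log X → l = Real.log (Real.log X) → b = bI th e * Real.log X →
    w = lK th τ * Real.log X → ∀ v : ℕ → ℝ, v = vlog (kp B' X) (zt X) →
    ∀ A B : Finset ℕ → ℝ, A = amL τ (bI th e) (lK th τ) (kp B' X) X →
    B = bmL τ (bI th e) (lK th τ) (kp B' X) X →
    ∀ T : Finset ℕ, X5 X / 2 ≤ US (kp B' X) (zt X) T → US (kp B' X) (zt X) T ≤ X →
    (T.card = 1 → A T = 1 ∧ B T = 1) ∧
    (T.card = 2 → - A T ≤ ∑ j ∈ T, nr x l (v j) ∧
      B T ≤ ∑ j ∈ T, (vE x b w l (v j) + nr x l (v j))) ∧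
    (T.card = 3 → (A T = 0 ∧ B T = 0) ∨ ((∀ j ∈ T, b - 1 ≤ v j) ∧
      (A T = 0 ∨ (A T = -2 ∧ ∀ j ∈ T, v j ≤ x - w) ∨ (A T = -2 ∧ ∃ j ∈ T, x / 2 < v j) ∨
        (A T = -3 ∧ ∃ j ∈ T, |v j - x / 2| ≤ 20 * l)) ∧
      B T ≤ 2 * (6 * l + 3) / (x - 3 * b) + ∑ j ∈ T, (nr x l (v j) + 2 * ed x w l (v j)))) ∧
    (T.card = 4 → (A T = 0 ∧ B T = 0) ∨ ((∀ j ∈ T, b - 1 ≤ v j) ∧ -9 ≤ A T ∧ B T ≤ 9 ∧
      ((A T = 0 ∧ B T ≤ 6 - 4 * (x - 4 * b) / (x - 3 * b)) ∨
        ∃ i ∈ T, ∃ j ∈ T, i ≠ j ∧ |v i + v j - x / 2| ≤ 20 * l))) ∧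
    (5 ≤ T.card → A T = 0 ∧ B T = 0) := by
  obtain ⟨X0, h⟩ := ty_l hA B' hB
  refine ⟨X0, ?_⟩
  rintro X hX x l b w rfl rfl rfl rfl v rfl A B rfl rfl T hT1 hT2
  obtain ⟨p1, h⟩ := h X hX
  obtain ⟨h1, h2, h3⟩ := h T hT1 hT2
  obtain ⟨e1, e2⟩ := rep_l (α := τ) (β := bI th e) (ℓ := lK th τ) (κ := kp B' X) (X := X) h1
  have q6 := p1.h3b
  have ql := p1.hl
  have n0 : ∀ u, 0 ≤ vE (Real.log X) (bI th e * Real.log X) (lK th τ * Real.log X)
      (Real.log (Real.log X)) u := fun u => vE_nonneg _ _ _ (by linarith)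
  have n1 : ∀ u, 0 ≤ nr (Real.log X) (Real.log (Real.log X)) u := fun u => nr_nonneg _ _ _
  by_cases hg : gdT (vlog (kp B' X) (zt X)) (kp B' X) (τ * Real.log X) (bI th e * Real.log X) T
  · obtain ⟨f1, f2⟩ := e1 hg
    rw [f1, f2]
    refine ⟨fun hc => absurd hg (h3 hc), fun _ => ⟨?_, ?_⟩, fun _ => Or.inl ⟨rfl, rfl⟩,
      fun _ => Or.inl ⟨rfl, rfl⟩, fun _ => ⟨rfl, rfl⟩⟩
    · rw [neg_zero]
      exact Finset.sum_nonneg fun j _ => n1 _
    · exact Finset.sum_nonneg fun j _ => add_nonneg (n0 _) (n1 _)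
  · obtain ⟨f1, f2⟩ := e2 hg
    rw [f1, f2]
    have hK := h2 hg
    refine ⟨hK.a1, fun hc => ⟨(hK.a2 hc).2, (hK.b2 hc).2⟩, fun hc => Or.inr ⟨fun j hj =>
      (hK.box hj).le, hK.a3 hc, (hK.b3 hc).2⟩, fun hc => Or.inr ⟨fun j hj => (hK.box hj).le,
      (hK.a4 hc).2.1, (hK.b4 hc).2.1, ?_⟩, fun hc => absurd hK.card_le (by omega)⟩
    rcases (hK.a4 hc).2.2 with k1 | k1
    · rcases (hK.b4 hc).2.2 with k2 | k2
      · exact Or.inl ⟨k1, k2⟩
      · exact Or.inr k2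
    · exact Or.inr k1

/-! ### Bounds and supports -/

theorem lamA_bd (v : ℕ → ℝ) (x w : ℝ) (S : Finset ℕ) : |lamA v x w S| ≤ 2 := by
  unfold lamA lamG
  simp only [Finset.sum_const_zero, sub_zero]
  split_ifs <;> norm_num

theorem lamB_bd {v : ℕ → ℝ} {x b w l : ℝ} (h : 3 * b < x) (h2 : 2 * b + 2 * l + 1 ≤ w)
    (S : Finset ℕ) : |lamB v x b w l S| ≤ 6 := by
  have n0 : ∀ u, 0 ≤ vE x b w l u := fun u => vE_nonneg _ _ _ h.le
  have n1 : ∀ u, vE x b w l u ≤ 2 := fun u => vE_le h h2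
  unfold lamB lamG
  by_cases c0 : S.card = 0
  · rw [if_pos c0]
    norm_num
  · rw [if_neg c0]
    by_cases c1 : S.card = 1
    · rw [if_pos c1]
      have m0 := n0 (sg v S)
      have m1 := n1 (sg v S)
      show |(if sg v S < x / 2 - 3 * l then (-1 : ℝ) else 0) + vE x b w l (sg v S)| ≤ 6
      rw [abs_le]
      split_ifs <;> constructor <;> linarith
    · rw [if_neg c1]
      by_cases c2 : S.card = 2
      · rw [if_pos c2]
        have m2 : 0 ≤ ∑ j ∈ S, vE x b w l (v j) := Finset.sum_nonneg fun j _ => n0 _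
        have m3 : ∑ j ∈ S, vE x b w l (v j) ≤ 4 := by
          have := Finset.sum_le_card_nsmul S (fun j => vE x b w l (v j)) 2 (fun j _ => n1 _)
          rw [c2] at this
          norm_num at this
          exact this
        show |if sg v S ≤ w then (if sg v S < x / 2 - 3 * l then (1 : ℝ) else 2) -
          ∑ j ∈ S, vE x b w l (v j) else 0| ≤ 6
        rw [abs_le]
        split_ifs <;> constructor <;> linarith
      · rw [if_neg c2]
        norm_num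

theorem lamA_supp {v : ℕ → ℝ} {κ x a b w l : ℝ} (p : ParL κ x a b w l) {S : Finset ℕ}
    (h : lamA v x w S ≠ 0) : sg v S ≤ w := by
  obtain ⟨q1, q2, q3, q4, q5, q6, q7, q8, q9, q10, q11⟩ := p
  unfold lamA lamG at h
  by_cases c0 : S.card = 0
  · have : S = ∅ := Finset.card_eq_zero.1 c0
    rw [this]
    simp only [sg, Finset.sum_empty]
    linarith
  · rw [if_neg c0] at h
    by_cases c1 : S.card = 1
    · rw [if_pos c1] at h
      by_cases c3 : sg v S ≤ x / 2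
      · linarith
      · exact absurd (if_neg c3) h
    · rw [if_neg c1] at h
      by_cases c2 : S.card = 2
      · rw [if_pos c2] at h
        by_contra c3
        rw [if_neg c3] at h
        exact h rfl
      · rw [if_neg c2] at h
        exact absurd rfl h

theorem lamB_supp {v : ℕ → ℝ} {κ x a b w l : ℝ} (p : ParL κ x a b w l) {S : Finset ℕ}
    (h : lamB v x b w l S ≠ 0) : sg v S ≤ w := by
  obtain ⟨q1, q2, q3, q4, q5, q6, q7, q8, q9, q10, q11⟩ := p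
  unfold lamB lamG at h
  by_cases c0 : S.card = 0
  · have : S = ∅ := Finset.card_eq_zero.1 c0
    rw [this]
    simp only [sg, Finset.sum_empty]
    linarith
  · rw [if_neg c0] at h
    by_cases c1 : S.card = 1
    · rw [if_pos c1] at h
      by_contra hc
      push Not at hc
      apply h
      show (if sg v S < x / 2 - 3 * l then (-1 : ℝ) else 0) + vE x b w l (sg v S) = 0
      rw [if_neg (show ¬ sg v S < x / 2 - 3 * l by intro h3; linarith), vE_zero (by linarith)]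
      norm_num
    · rw [if_neg c1] at h
      by_cases c2 : S.card = 2
      · rw [if_pos c2] at h
        by_contra c3
        rw [if_neg c3] at h
        exact h rfl
      · rw [if_neg c2] at h
        exact absurd rfl h

private theorem wl_bd {α β κ : ℝ} {X : ℕ} {lam : Finset ℕ → ℝ} (h : ∀ S, |lam S| ≤ 2 ^ 13)
    (T : Finset ℕ) : |Wl α β κ X lam T| ≤ 2 ^ 23 := by
  unfold Wl wT
  split_ifs with h8 hg
  · simp
  · calc |∑ S ∈ T.powerset, lam S| ≤ ∑ S ∈ T.powerset, |lam S| := Finset.abs_sum_le_sum_abs _ _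
      _ ≤ ∑ _S ∈ T.powerset, (2 : ℝ) ^ 13 := Finset.sum_le_sum fun S _ => h S
      _ = 2 ^ T.card * 2 ^ 13 := by
          rw [Finset.sum_const, Finset.card_powerset, nsmul_eq_mul]
          push_cast
          ring
      _ ≤ 2 ^ 10 * 2 ^ 13 := by
          have : (2 : ℝ) ^ T.card ≤ 2 ^ 10 := pow_le_pow_right₀ (by norm_num) h8
          linarith
      _ ≤ 2 ^ 23 := by norm_num
  · simp

/-- the bounds and the supports of the weights for large `X` -/
theorem lam_l {th e τ : ℝ} (hA : AdmX th e τ) : ∃ X0 : ℕ, ∀ X : ℕ, X0 ≤ X → ∀ κ : ℝ,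
    (∀ S, |lamA (vlog κ (zt X)) (Real.log X) (lK th τ * Real.log X) S| ≤ 2) ∧
    (∀ S, |lamB (vlog κ (zt X)) (Real.log X) (bI th e * Real.log X) (lK th τ * Real.log X)
      (Real.log (Real.log X)) S| ≤ 6) ∧
    (∀ S, lamA (vlog κ (zt X)) (Real.log X) (lK th τ * Real.log X) S ≠ 0 →
      sg (vlog κ (zt X)) S ≤ lK th τ * Real.log X) ∧
    (∀ S, lamB (vlog κ (zt X)) (Real.log X) (bI th e * Real.log X) (lK th τ * Real.log X)
      (Real.log (Real.log X)) S ≠ 0 → sg (vlog κ (zt X)) S ≤ lK th τ * Real.log X) := by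
  obtain ⟨X1, hX1⟩ := l_big τ hA.pos
  refine ⟨X1, fun X hX κ => ?_⟩
  obtain ⟨g1, g2, g3, g4, g5, g6, gz⟩ := hX1 X hX
  obtain ⟨p1, p3⟩ := par_l (κ := 0) hA g3 (by norm_num) g6
  have h3b := p1.h3b
  refine ⟨fun S => lamA_bd _ _ _ S, fun S => lamB_bd (by linarith) p1.h2b S,
    fun S h => lamA_supp p1 h, fun S h => lamB_supp p1 h⟩

/-- bounds for the values -/
theorem bdL {th e τ : ℝ} (hA : AdmX th e τ) (B' : ℕ) : ∃ X0 : ℕ, ∀ X : ℕ, X0 ≤ X →
    ∀ T : Finset ℕ, |amL τ (bI th e) (lK th τ) (kp B' X) X T| ≤ 2 ^ 23 ∧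
      |bmL τ (bI th e) (lK th τ) (kp B' X) X T| ≤ 2 ^ 23 := by
  obtain ⟨X0, h⟩ := lam_l hA
  refine ⟨X0, fun X hX T => ?_⟩
  obtain ⟨h1, h2, _, _⟩ := h X hX (kp B' X)
  exact ⟨wl_bd (fun S => (h1 S).trans (by norm_num)) T,
    wl_bd (fun S => (h2 S).trans (by norm_num)) T⟩

/-! ### (W2) -/

/-- the sum of two families -/
theorem abL_eq (α β ℓ κ : ℝ) (X : ℕ) : (fun T => amL α β ℓ κ X T + bmL α β ℓ κ X T) =
    Wl α β κ X (fun S => lamA (vlog κ (zt X)) (Real.log X) (ℓ * Real.log X) S +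
      lamB (vlog κ (zt X)) (Real.log X) (β * Real.log X) (ℓ * Real.log X)
        (Real.log (Real.log X)) S) := by
  funext T
  unfold amL bmL Wl wT
  split_ifs
  · simp
  · rw [← Finset.sum_add_distrib]
  · simp

/-- (W2) for `A`, `B` and `A + B` -/
theorem decL (B : ℕ) : ∃ B0 : ℕ, ∀ B' : ℕ, B0 ≤ B' → ∃ C2 : ℕ, ∀ th e τ : ℝ, AdmX th e τ →
    JX.DecJ B C2 th e τ (amF th e τ B') ∧ JX.DecJ B C2 th e τ (bmF th e τ B') ∧
    JX.DecJ B C2 th e τ (fun X => wty (kp B' X) X (fun T =>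
      amL τ (bI th e) (lK th τ) (kp B' X) X T + bmL τ (bI th e) (lK th τ) (kp B' X) X T)) := by
  obtain ⟨B0, h⟩ := decK_types B
  refine ⟨B0, fun B' hB' => ?_⟩
  obtain ⟨C2, h⟩ := h B' hB'
  refine ⟨C2, fun th e τ hA => ?_⟩
  obtain ⟨X0, hl⟩ := lam_l hA
  have hlog : 0 < Real.log (3 / 2 : ℝ) := Real.log_pos (by norm_num)
  obtain ⟨h1, h2, h3, h4, h5, h6⟩ := hA
  have ht0 : 0 < τ := by linarith
  have a2 : τ + 1 / 10 < bI th e := by unfold bI; linarith
  have a3 : bI th e < 1 / 2 := by unfold bI; linarith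
  have a4 : lK th τ + τ < JX.lv th e := by
    unfold lK JX.lv
    rw [lt_min_iff]
    constructor <;> linarith
  refine ⟨?_, ?_, ?_⟩
  · refine decJ_of_decW (h τ (bI th e) (lK th τ) (JX.lv th e) ht0 a2 a3 a4 (fun X => lamA
      (vlog (kp B' X) (zt X)) (Real.log X) (lK th τ * Real.log X)) ⟨X0, fun X hX => ?_⟩)
    obtain ⟨m1, m2, m3, m4⟩ := hl X hX (kp B' X)
    refine ⟨fun S => (m1 S).trans (by norm_num), fun S hS => ?_⟩
    have := m3 S hS
    rw [sub_sub_cancel]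
    linarith
  · refine decJ_of_decW (h τ (bI th e) (lK th τ) (JX.lv th e) ht0 a2 a3 a4 (fun X => lamB
      (vlog (kp B' X) (zt X)) (Real.log X) (bI th e * Real.log X) (lK th τ * Real.log X)
      (Real.log (Real.log X))) ⟨X0, fun X hX => ?_⟩)
    obtain ⟨m1, m2, m3, m4⟩ := hl X hX (kp B' X)
    refine ⟨fun S => (m2 S).trans (by norm_num), fun S hS => ?_⟩
    have := m4 S hS
    rw [sub_sub_cancel]
    linarith
  · have h7 := h τ (bI th e) (lK th τ) (JX.lv th e) ht0 a2 a3 a4 (fun X S => lamA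
      (vlog (kp B' X) (zt X)) (Real.log X) (lK th τ * Real.log X) S +
      lamB (vlog (kp B' X) (zt X)) (Real.log X) (bI th e * Real.log X) (lK th τ * Real.log X)
      (Real.log (Real.log X)) S) ⟨X0, fun X hX => ?_⟩
    · have h6 : (fun X => wty (kp B' X) X (fun T =>
          amL τ (bI th e) (lK th τ) (kp B' X) X T + bmL τ (bI th e) (lK th τ) (kp B' X) X T)) =
          fun X => wty (kp B' X) X (Wl τ (bI th e) (kp B' X) X (fun S =>
          lamA (vlog (kp B' X) (zt X)) (Real.log X) (lK th τ * Real.log X) S +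
          lamB (vlog (kp B' X) (zt X)) (Real.log X) (bI th e * Real.log X)
            (lK th τ * Real.log X) (Real.log (Real.log X)) S)) := by
        funext X
        rw [abL_eq]
      rw [h6]
      exact decJ_of_decW h7
    · obtain ⟨m1, m2, m3, m4⟩ := hl X hX (kp B' X)
      refine ⟨fun S => (abs_add_le _ _).trans ((add_le_add (m1 S) (m2 S)).trans (by norm_num)),
        fun S hS => ?_⟩
      by_contra hc
      push Not at hc
      rw [sub_sub_cancel] at hc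
      apply hS
      have n1 : lamA (vlog (kp B' X) (zt X)) (Real.log X) (lK th τ * Real.log X) S = 0 := by
        by_contra hn
        have := m3 S hn
        linarith
      have n2 : lamB (vlog (kp B' X) (zt X)) (Real.log X) (bI th e * Real.log X)
          (lK th τ * Real.log X) (Real.log (Real.log X)) S = 0 := by
        by_contra hn
        have := m4 S hn
        linarith
      show lamA _ _ _ S + lamB _ _ _ _ _ S = 0
      rw [n1, n2, add_zero]

end Pool.MP_dd84fd_nt.LX
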