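import Pool.Agent.Lib.MP_dd84fd_nt.JX.Defs

/-!
# Goldbach exceptions, Theorem L: definitions and interface

Paper: /team-store/L47_paper.md (helper47).  `P` = primes (a *wide* family: type II blocks with small
variable in `(X^τ/2, X^(1/2)]`), `A` = a *narrow* family (`JX.DecJ`), a minorant of the primes.
`P*A - f_P*f_A = (1/2) ((P - f_P) * (A + f_A) + (P + f_P) * (A - f_A))`; outside an exceptional set of size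
`X^(th-e/4)` and the multiples of few moduli this is small; only `A` has to be narrow.
`g ≥ 2 P*A - A*A` as `(P - A) * (P - A) ≥ 0`.
-/

set_option autoImplicit false

namespace Pool.MP_dd84fd_nt.LX

open Finset Pool.MP_67663b_nt.Odd Pool.MP_dd84fd_nt.En Pool.MP_dd84fd_nt.E2 Pool.MP_dd84fd_nt.LS
open Pool.MP_dd84fd_nt.L2G (nrm)
open Pool.MP_dd84fd_nt.GX Pool.MP_dd84fd_nt.HX Pool.MP_dd84fd_nt.IX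
open Pool.MP_dd84fd_nt.PL (rr)
open Pool.MP_dd84fd_nt.JX (Adm ZJ DecJ Str)

/-- the wide decomposition: as `JX.DecJ`, type I level `ZJ`, type II blocks with small variable `m`,
`X^τ/2 ≤ M_i < m ≤ X^(1/2)` -/
def DecW (B C2 : ℕ) (th e τ : ℝ) (ww : ℕ → ℕ → ℝ) : Prop := ∃ X0 : ℕ, ∀ X : ℕ, X0 ≤ X →
  ∃ (I : ℕ) (γ α : ℕ → ℕ → ℝ) (M K : ℕ → ℕ) (a c : ℕ → ℕ → ℝ) (err : ℕ → ℝ),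
    (I : ℝ) ≤ (Real.log X) ^ C2 ∧
    (∀ i, (∀ n, |γ i n| ≤ (Real.log X) ^ C2) ∧
      ∑ n ∈ Ico 1 X, |γ i (n + 1) - γ i n| ≤ (Real.log X) ^ C2) ∧
    (∀ i l, |α i l| ≤ (Real.log X) ^ C2) ∧ (∀ i (l : ℕ), ZJ th e X < l → α i l = 0) ∧
    (∀ i n, |a i n| ≤ (Real.log X) ^ C2 ∧ |c i n| ≤ (Real.log X) ^ C2) ∧
    (∀ i, (X : ℝ) ^ τ / 2 ≤ M i ∧ (M i : ℝ) ≤ (X : ℝ) ^ (1 / 2 : ℝ) ∧ K i * M i ≤ X) ∧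
    (∀ i m, a i m ≠ 0 → M i < m ∧ m ≤ 2 * M i ∧ (m : ℝ) ≤ (X : ℝ) ^ (1 / 2 : ℝ) ∧
      m * K i ≤ X) ∧
    (∀ n ∈ Icc 1 X, ww X n = ∑ i ∈ range I, γ i n * ∑ l ∈ n.divisors, α i l +
      ∑ i ∈ range I, ∑ m ∈ n.divisors, (if n / m ≤ K i then a i m * c i (n / m) else 0) +
      err n) ∧
    ∑ n ∈ Icc 1 X, err n ^ 2 ≤ X / (Real.log X) ^ B

/-- the integrand `W1_{s1} W2_{s2} e(-n .)` for two families -/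
noncomputable def FFL (ww1 gg1 : ℕ → ℕ → ℝ) (s1 : ℝ) (ww2 gg2 : ℕ → ℕ → ℝ) (s2 : ℝ)
    (w X n : ℕ) (θ : ℝ) : ℂ :=
  WI ww1 gg1 s1 w X θ * WI ww2 gg2 s2 w X θ * ee (-((n : ℝ) * θ))

/-- `(1/G) Σ_j ω(j) U(j) v̂(j) e(-n j / G)` with an arbitrary function `U` -/
noncomputable def PhU (G : ℕ) [NeZero G] (X : ℕ) (U : ZMod G → ℂ) (v : ℕ → ℝ) (ω : ZMod G → ℂ)
    (n : ℕ) : ℂ :=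
  (1 / (G : ℂ)) * ∑ j : ZMod G, ω j * U j * tr G X v j *
    ZMod.stdAddChar (-((n : ZMod G) * j))

/-- the structure theorem: `U` arbitrary, `v` narrow -/
def StL : Prop := ∀ (C CV : ℕ) (th e τ η : ℝ), Adm th e τ → 0 < η → η ≤ e → ∃ X0 : ℕ,
  ∀ X : ℕ, X0 ≤ X → ∀ (G : ℕ) [NeZero G], X ^ 5 ≤ G → ∀ U : ZMod G → ℂ, VBH G X CV U →
    ∀ v : ℕ → ℝ, Str C th e τ X v → ∀ ω : ZMod G → ℂ, (∀ j, ‖ω j‖ ≤ 1) → ∀ E : Finset ℕ,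
    E ⊆ Icc 1 X → (X : ℝ) ^ (th - e) ≤ E.card → ∀ ph : ℕ → ℂ, (∀ n, ‖ph n‖ ≤ 1) →
    NoAPH G (dl th e) X ω E ((X : ℝ) ^ (-η)) →
    ‖∑ n ∈ E, ph n * PhU G X U v ω n‖ ≤ (X : ℝ) ^ (1 - η / 100) * E.card

/-- the tree theorem -/
def TreeL : Prop := ∀ (A C CV : ℕ) (th e τ : ℝ), Adm th e τ → ∃ X0 : ℕ, ∀ X : ℕ, X0 ≤ X →
  ∀ (G : ℕ) [NeZero G], X ^ 5 ≤ G → ∀ U : ZMod G → ℂ, VBH G X CV U → ∀ v : ℕ → ℝ,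
    Str C th e τ X v → ∀ Bx : Finset ℕ, Bx ⊆ Icc 1 X →
    (∀ n ∈ Bx, ∀ (Λ : ℕ) (bb : ℝ), 1 ≤ Λ → 1 ≤ bb → (Λ : ℝ) * bb ≤ 2 * (X : ℝ) ^ (1 - th + e) →
      (X : ℝ) / (Real.log X) ^ A < ‖PhU G X U v (wSI G th e X Λ bb) n‖) →
    (Bx.card : ℝ) ≤ (X : ℝ) ^ (th - e / 4)

/-- the pointwise lemma: the first family wide, the second narrow -/
def PlL : Prop := ∀ A : ℕ, ∃ B : ℕ, ∀ K0 C1 C2 : ℕ, ∃ K1 K2 : ℕ, ∀ th e τ : ℝ, Adm th e τ →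
  ∀ ww1 gg1 ww2 gg2 : ℕ → ℕ → ℝ, W1 K0 C1 ww1 gg1 → DecW B C2 th e τ ww1 → W1 K0 C1 ww2 gg2 →
  DecJ B C2 th e τ ww2 → ∀ D' A0 : ℕ, 1 ≤ D' →
  ∃ X0 : ℕ, ∀ X : ℕ, X0 ≤ X → ∀ s1 s2 : ℝ, |s1| ≤ 1 → |s2| ≤ 1 → ∀ n : ℕ, X < 2 * n → n ≤ X →
    ∀ (QQ : Finset ℕ) (N b : ℝ) (bq : ℕ → ℝ), (∀ q ∈ QQ, 1 ≤ q ∧ b ≤ bq q ∧ bq q ≤ 2 * b) →
    (∀ q ∈ QQ, ∀ q' ∈ QQ, (Nat.lcm q q' : ℝ) ≤ N) → (QQ.card : ℝ) ≤ (X : ℝ) ^ (e / 2) →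
    1 / (Real.log X) ^ A0 ≤ b → N * b ≤ (X : ℝ) ^ (1 - th + 3 / 2 * e) →
    ((Real.log X) ^ K2 < b ∨ ∀ q ∈ QQ, (Real.log X) ^ K1 * (Nat.gcd q n : ℝ) < q) →
    ∑ q ∈ QQ, ‖∑ a ∈ rr q,
      ((∫ x in (bq q / X)..(2 * bq q / X),
          FFL ww1 gg1 s1 ww2 gg2 s2 (wX D' X) X n ((a : ℝ) / q + x)) +
      ∫ x in (bq q / X)..(2 * bq q / X),
          FFL ww1 gg1 s1 ww2 gg2 s2 (wX D' X) X n ((a : ℝ) / q - x))‖ ≤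
      X / (Real.log X) ^ A

/-- greedy for the narrow family: mass of `W_s` on the arcs of the `q` with small `q / (q, n)` -/
def GreedyL : Prop := ∀ A : ℕ, ∃ B : ℕ, ∀ K0 C1 C2 K1 K2 : ℕ, ∃ C : ℕ, ∀ (K : ℕ) (th e τ : ℝ),
  Adm th e τ → ∀ ww gg : ℕ → ℕ → ℝ, W1 K0 C1 ww gg → DecJ B C2 th e τ ww → ∀ D' : ℕ, 1 ≤ D' →
  ∃ X0 : ℕ, ∀ X : ℕ, X0 ≤ X → ∀ s : ℝ, |s| ≤ 1 → ∃ D : Finset ℕ,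
    (D.card : ℝ) ≤ (Real.log X) ^ C ∧
    (∀ d ∈ D, (Real.log X) ^ K ≤ (d : ℝ) ∧ (d : ℝ) ≤ (X : ℝ) ^ (1 - th + 3 * e)) ∧
    ∀ n ∈ Icc 1 X, (∀ d ∈ D, ¬ d ∣ n) → ∀ (QQ : Finset ℕ) (N : ℝ),
      (∀ q ∈ QQ, (Real.log X) ^ (K + K1) < (q : ℝ) ∧
        (q : ℝ) ≤ (Real.log X) ^ K1 * (Nat.gcd q n : ℝ)) →
      (∀ q ∈ QQ, ∀ q' ∈ QQ, (Nat.lcm q q' : ℝ) ≤ N) → N ≤ (X : ℝ) ^ (1 - th + 3 / 2 * e) →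
      ∑ q ∈ QQ, ∑ a ∈ rr q, ∫ x in (-(2 * (Real.log X) ^ K2) / X)..(2 * (Real.log X) ^ K2 / X),
        ‖WI ww gg s (wX D' X) X ((a : ℝ) / q + x)‖ ^ 2 ≤
        X / (Real.log X) ^ A

/-- centre, for one function -/
def CentreL : Prop := ∀ A : ℕ, ∃ A0 : ℕ, ∀ (K0 C1 : ℕ) (ww gg : ℕ → ℕ → ℝ), W1 K0 C1 ww gg →
  ∀ D' : ℕ, 1 ≤ D' → ∃ X0 : ℕ, ∀ X : ℕ, X0 ≤ X → ∀ s : ℝ, |s| ≤ 1 → ∀ (QQ : Finset ℕ) (N : ℝ),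
    (∀ q ∈ QQ, 1 ≤ q) → (∀ q ∈ QQ, ∀ q' ∈ QQ, (Nat.lcm q q' : ℝ) ≤ N) → N ≤ X →
    ∑ q ∈ QQ, ∑ a ∈ rr q, ∫ x in (-(1 / (Real.log X) ^ A0) / X)..(1 / (Real.log X) ^ A0 / X),
      ‖WI ww gg s (wX D' X) X ((a : ℝ) / q + x)‖ ^ 2 ≤
      X / (Real.log X) ^ A

/-- GEN_L -/
def GenL : Prop := ∀ A : ℕ, ∃ B : ℕ, ∀ K0 C1 C2 : ℕ, ∃ C : ℕ, ∀ th e τ : ℝ, Adm th e τ →
  ∀ ww1 gg1 ww2 gg2 : ℕ → ℕ → ℝ, W1 K0 C1 ww1 gg1 → DecW B C2 th e τ ww1 → MajI ww1 gg1 →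
  W1 K0 C1 ww2 gg2 → DecJ B C2 th e τ ww2 → MajI ww2 gg2 → ∀ K : ℕ,
  ∃ D0 : ℕ, ∀ D' : ℕ, D0 ≤ D' → ∃ X0 : ℕ, ∀ X : ℕ, X0 ≤ X → ∃ D Ex : Finset ℕ,
    (D.card : ℝ) ≤ (Real.log X) ^ C ∧
    (∀ d ∈ D, (Real.log X) ^ K ≤ (d : ℝ) ∧ (d : ℝ) ≤ (X : ℝ) ^ (1 - th + 3 * e)) ∧
    (Ex.card : ℝ) ≤ 2 * (X : ℝ) ^ (th - e / 4) ∧
    ∀ n : ℕ, X < 2 * n → n ≤ X → Even n → n ∉ Ex → (∀ d ∈ D, ¬ d ∣ n) →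
      |cvv (ww1 X) (ww2 X) n - cvv (fI gg1 X (wX D' X)) (fI gg2 X (wX D' X)) n| ≤
        X / (Real.log X) ^ A

/-- the primes are wide -/
def DecPW : Prop := ∀ B : ℕ, ∃ C2 : ℕ, ∀ th e τ : ℝ, Adm th e τ → DecW B C2 th e τ Pool.MP_dd84fd_nt.JX.wP

end Pool.MP_dd84fd_nt.LX
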