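import Pool.Agent.Lib.MP_dd84fd_nt.KX.KAll

/-!
# LX-LAll: from one scale to all scales, `θ ≥ 1/8`

Same proof as `KX.allG`.
-/

set_option autoImplicit false

namespace Pool.MP_dd84fd_nt.LX

open Finset Pool.MP_67663b_nt.Odd Pool.MP_dd84fd_nt.En Pool.MP_dd84fd_nt.E2 Pool.MP_dd84fd_nt.LS
open Pool.MP_dd84fd_nt.GX Pool.MP_dd84fd_nt.HX
open Pool.MP_dd84fd_nt.KX (ScG thinG)

private theorem fin_scale (X n : ℕ) (hn : 1 ≤ n) (hnX : n ≤ X) :
    ∃ i, i ≤ Nat.log 2 X ∧ n ≤ X / 2 ^ i ∧ X / 2 ^ i < 2 * n := by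
  have h0 : X / n ≠ 0 := by
    have := Nat.div_pos hnX hn
    omega
  refine ⟨Nat.log 2 (X / n), ?_, ?_, ?_⟩
  · exact Nat.log_mono_right (Nat.div_le_self _ _)
  · rw [Nat.le_div_iff_mul_le (by positivity)]
    have h1 := Nat.pow_log_le_self 2 h0
    have h2 : n * 2 ^ Nat.log 2 (X / n) ≤ n * (X / n) := Nat.mul_le_mul_left _ h1
    exact h2.trans (Nat.mul_div_le _ _)
  · rw [Nat.div_lt_iff_lt_mul (by positivity)]
    have h1 := Nat.lt_pow_succ_log_self (b := 2) (by norm_num) (X / n)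
    rw [Nat.div_lt_iff_lt_mul hn, pow_succ] at h1
    calc X < 2 ^ Nat.log 2 (X / n) * 2 * n := h1
      _ = 2 * n * 2 ^ Nat.log 2 (X / n) := by ring

private theorem fin_log2 (X : ℕ) (hL : 1 ≤ Real.log X) :
    ((Nat.log 2 X : ℕ) : ℝ) + 1 ≤ 3 * Real.log X := by
  have h1 := Real.natLog_le_logb X 2
  have h2 : (0.6931471803 : ℝ) < Real.log 2 := Real.log_two_gt_d9
  have h3 : Real.logb 2 X ≤ 2 * Real.log X := by
    rw [Real.logb, div_le_iff₀ (by linarith)]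
    nlinarith
  push_cast at h1 h3
  linarith

/-- all scales -/
theorem allG8 (Bad : ℕ → Prop) (C' : ℕ) (θ ε : ℝ) (h1 : 1 / 8 ≤ θ) (h2 : θ ≤ 1) (hε : 0 < ε)
    (H : ScG Bad C' (θ + ε / 4)) : ∀ K : ℕ,
    ∃ X0 : ℕ, ∀ X : ℕ, X0 ≤ X → ∃ D : Finset ℕ,
      (D.card : ℝ) ≤ (Real.log X) ^ (C' + 2) ∧
      (∀ d ∈ D, (Real.log X) ^ K ≤ (d : ℝ) ∧ (d : ℝ) ≤ (X : ℝ) ^ (1 - θ)) ∧
      ∀ P : ℕ → Prop, ∀ _ : DecidablePred P,
        (∀ n, P n → Even n ∧ (∀ d ∈ D, (d : ℝ) ≤ (n : ℝ) ^ (1 - θ) → ¬ d ∣ n) ∧ Bad n) →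
        (((Icc 1 X).filter P).card : ℝ) ≤ (X : ℝ) ^ (θ + ε) := by
  intro K
  obtain ⟨Y0, hY0⟩ := thinG Bad C' θ (ε / 2) (by linarith) (by positivity)
    (by rw [show ε / 2 / 2 = ε / 4 by ring]; exact H) (K + 1)
  obtain ⟨X1, hX1⟩ := MP_log_large (max 10 (8 ^ (K + 1)))
  obtain ⟨X4, hX4⟩ := MP_log_pow 4 1 (ε := ε / 2) (by positivity)
  refine ⟨max (Y0 ^ 8) (max X1 X4), fun X hX => ?_⟩
  simp only [max_le_iff] at hX
  obtain ⟨hXY, hX1', hX4'⟩ := hX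
  have hL := hX1 X hX1'
  have hL10 : 10 ≤ Real.log X := (le_max_left _ _).trans hL
  have hLK : 8 ^ (K + 1) ≤ Real.log X := (le_max_right _ _).trans hL
  have e4 := hX4 X hX4'
  rw [pow_one] at e4
  clear hX1 hX4
  obtain ⟨L, hLdef⟩ : ∃ L : ℝ, L = Real.log X := ⟨_, rfl⟩
  rw [← hLdef] at hL10 hLK e4
  have hXpos : (0 : ℝ) < X := by
    rcases Nat.eq_zero_or_pos X with h | h
    · exfalso
      subst h
      simp at hLdef
      linarith
    · exact_mod_cast h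
  have hX1R : (1 : ℝ) ≤ X := by
    have : 1 ≤ X := by
      have : 0 < X := by exact_mod_cast hXpos
      omega
    exact_mod_cast this
  have hL0 : 0 < L := by linarith
  -- the scales
  obtain ⟨I, hI⟩ : ∃ I : Finset ℕ, I = (range (Nat.log 2 X + 1)).filter
    (fun i => X ≤ (X / 2 ^ i) ^ 8) := ⟨_, rfl⟩
  have hIcard : (I.card : ℝ) ≤ 3 * L := by
    have h1 : I.card ≤ Nat.log 2 X + 1 := by
      rw [hI]
      exact (card_filter_le _ _).trans (by rw [card_range])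
    have h2 := fin_log2 X (by rw [← hLdef]; linarith)
    rw [← hLdef] at h2
    have h3 : (I.card : ℝ) ≤ (Nat.log 2 X : ℝ) + 1 := by exact_mod_cast h1
    linarith
  have hYi : ∀ i ∈ I, X ≤ (X / 2 ^ i) ^ 8 := by
    intro i hi
    rw [hI, mem_filter] at hi
    exact hi.2
  classical
  have hex : ∀ i ∈ I, ∃ D : Finset ℕ, (D.card : ℝ) ≤ (Real.log (X / 2 ^ i : ℕ)) ^ C' ∧
      (∀ d ∈ D, (Real.log (X / 2 ^ i : ℕ)) ^ (K + 1) ≤ (d : ℝ) ∧
        (d : ℝ) ≤ (((X / 2 ^ i : ℕ) : ℝ) / 2) ^ (1 - θ)) ∧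
      (((Icc 1 (X / 2 ^ i)).filter (fun n => X / 2 ^ i < 2 * n ∧ Even n ∧ (∀ d ∈ D, ¬ d ∣ n) ∧
        Bad n)).card : ℝ) ≤ ((X / 2 ^ i : ℕ) : ℝ) ^ (θ + ε / 2) := by
    intro i hi
    obtain ⟨D, d1, d2, d3⟩ := hY0 (X / 2 ^ i) ((Nat.pow_le_pow_iff_left (by norm_num)).1
      (hXY.trans (hYi i hi)))
    refine ⟨D, d1, d2, ?_⟩
    convert d3 using 3
  choose! f hf1 hf2 hf3 using hex
  -- facts about the scales
  have hsc : ∀ i ∈ I, (1 : ℝ) ≤ (X / 2 ^ i : ℕ) ∧ ((X / 2 ^ i : ℕ) : ℝ) ≤ X ∧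
      L / 8 ≤ Real.log (X / 2 ^ i : ℕ) ∧ Real.log (X / 2 ^ i : ℕ) ≤ L := by
    intro i hi
    have h1 : (X : ℝ) ≤ ((X / 2 ^ i : ℕ) : ℝ) ^ 8 := by exact_mod_cast hYi i hi
    have h2 : (1 : ℝ) ≤ (X / 2 ^ i : ℕ) := by
      by_contra hlt
      push Not at hlt
      have h3 : (X / 2 ^ i : ℕ) = 0 := by
        have : (X / 2 ^ i : ℕ) < 1 := by exact_mod_cast hlt
        exact Nat.lt_one_iff.1 this
      rw [h3, Nat.cast_zero, zero_pow (by norm_num)] at h1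
      linarith
    have h3 : ((X / 2 ^ i : ℕ) : ℝ) ≤ X := by exact_mod_cast Nat.div_le_self _ _
    refine ⟨h2, h3, ?_, ?_⟩
    · have h4 := Real.log_le_log hXpos h1
      rw [Real.log_pow, ← hLdef] at h4
      push_cast at h4
      linarith
    · rw [hLdef]
      exact Real.log_le_log (by linarith) h3
  refine ⟨I.biUnion f, ?_, ?_, ?_⟩
  · -- the cardinality
    rw [← hLdef]
    have hci : ∀ i ∈ I, ((f i).card : ℝ) ≤ L ^ C' := by
      intro i hi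
      obtain ⟨s1, s2, s3, s4⟩ := hsc i hi
      exact (hf1 i hi).trans (pow_le_pow_left₀ (by linarith) s4 _)
    have h1 : ((I.biUnion f).card : ℝ) ≤ ∑ i ∈ I, ((f i).card : ℝ) := by
      exact_mod_cast card_biUnion_le
    have h2 := sum_le_card_nsmul I _ _ hci
    rw [nsmul_eq_mul] at h2
    have h3 : 0 < L ^ C' := by positivity
    calc ((I.biUnion f).card : ℝ) ≤ I.card * L ^ C' := h1.trans h2
      _ ≤ 3 * L * L ^ C' := mul_le_mul_of_nonneg_right hIcard h3.le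
      _ ≤ L * L * L ^ C' := by
          refine mul_le_mul_of_nonneg_right ?_ h3.le
          exact mul_le_mul_of_nonneg_right (by linarith) hL0.le
      _ = L ^ (C' + 2) := by ring
  · intro d hd
    rw [mem_biUnion] at hd
    obtain ⟨i, hi, hd⟩ := hd
    obtain ⟨s1, s2, s3, s4⟩ := hsc i hi
    obtain ⟨d1, d2⟩ := hf2 i hi d hd
    refine ⟨?_, d2.trans (Real.rpow_le_rpow (by linarith) (by linarith) (by linarith))⟩
    rw [← hLdef]
    refine le_trans ?_ d1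
    calc L ^ K = L ^ K * 1 := (mul_one _).symm
      _ ≤ L ^ K * (L / 8 ^ (K + 1)) := by
          refine mul_le_mul_of_nonneg_left ?_ (by positivity)
          rw [le_div_iff₀ (by positivity), one_mul]
          exact hLK
      _ = (L / 8) ^ (K + 1) := by
          rw [_root_.div_pow, pow_succ L K]
          ring
      _ ≤ (Real.log (X / 2 ^ i : ℕ)) ^ (K + 1) := pow_le_pow_left₀ (by positivity) s3 _
  · -- the exceptions
    intro P _ hP
    have hsub : (Icc 1 X).filter P ⊆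
        Icc 1 ⌊(X : ℝ) ^ (1 / 8 : ℝ)⌋₊ ∪ I.biUnion (fun i => (Icc 1 (X / 2 ^ i)).filter
          (fun n => X / 2 ^ i < 2 * n ∧ Even n ∧ (∀ d ∈ f i, ¬ d ∣ n) ∧ Bad n)) := by
      intro n hn
      rw [mem_filter, mem_Icc] at hn
      obtain ⟨⟨hn1, hnX⟩, hPn⟩ := hn
      obtain ⟨hev, hap, hexc⟩ := hP n hPn
      rw [mem_union]
      by_cases hsq : n ≤ ⌊(X : ℝ) ^ (1 / 8 : ℝ)⌋₊
      · exact Or.inl (mem_Icc.2 ⟨hn1, hsq⟩)
      · right
        rw [not_le, Nat.floor_lt (by positivity)] at hsq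
        obtain ⟨i, hi1, hi2, hi3⟩ := fin_scale X n hn1 hnX
        have hiI : i ∈ I := by
          rw [hI, mem_filter, mem_range]
          refine ⟨by omega, ?_⟩
          have h1 : (X : ℝ) ≤ (n : ℝ) ^ 8 := by
            have h2 : ((X : ℝ) ^ (1 / 8 : ℝ)) ^ 8 = X := by
              rw [← Real.rpow_natCast, ← Real.rpow_mul hXpos.le]
              norm_num
            rw [← h2]
            exact pow_le_pow_left₀ (by positivity) hsq.le 8
          have h2 : X ≤ n ^ 8 := by exact_mod_cast h1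
          exact h2.trans (Nat.pow_le_pow_left hi2 8)
        rw [mem_biUnion]
        refine ⟨i, hiI, ?_⟩
        rw [mem_filter, mem_Icc]
        refine ⟨⟨hn1, hi2⟩, hi3, hev, fun d hd => hap d (mem_biUnion.2 ⟨i, hiI, hd⟩) ?_, hexc⟩
        -- the size of `d`
        have hi3R : ((X / 2 ^ i : ℕ) : ℝ) ≤ 2 * n := by exact_mod_cast hi3.le
        exact (hf2 i hiI d hd).2.trans
          (Real.rpow_le_rpow (by positivity) (by linarith) (by linarith))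
    have h1 : (((Icc 1 X).filter P).card : ℝ) ≤
        ⌊(X : ℝ) ^ (1 / 8 : ℝ)⌋₊ + ∑ i ∈ I, (((Icc 1 (X / 2 ^ i)).filter
          (fun n => X / 2 ^ i < 2 * n ∧ Even n ∧ (∀ d ∈ f i, ¬ d ∣ n) ∧ Bad n)).card : ℝ) := by
      have h2 := (card_le_card hsub).trans ((card_union_le _ _).trans
        (Nat.add_le_add_left card_biUnion_le _))
      rw [Nat.card_Icc, Nat.add_sub_cancel] at h2
      exact_mod_cast h2
    have h2 : ∀ i ∈ I, (((Icc 1 (X / 2 ^ i)).filter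
          (fun n => X / 2 ^ i < 2 * n ∧ Even n ∧ (∀ d ∈ f i, ¬ d ∣ n) ∧ Bad n)).card : ℝ) ≤
        (X : ℝ) ^ (θ + ε / 2) := by
      intro i hi
      obtain ⟨s1, s2, s3, s4⟩ := hsc i hi
      exact (hf3 i hi).trans (Real.rpow_le_rpow (by linarith) s2 (by linarith))
    have h3 := sum_le_card_nsmul I _ _ h2
    rw [nsmul_eq_mul] at h3
    have h4 : (⌊(X : ℝ) ^ (1 / 8 : ℝ)⌋₊ : ℝ) ≤ (X : ℝ) ^ (θ + ε / 2) :=
      (Nat.floor_le (by positivity)).trans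
        (Real.rpow_le_rpow_of_exponent_le hX1R (by linarith))
    have h5 : (X : ℝ) ^ (θ + ε) = (X : ℝ) ^ (ε / 2) * (X : ℝ) ^ (θ + ε / 2) := by
      rw [← Real.rpow_add hXpos]
      congr 1
      ring
    have h6 : (0 : ℝ) < (X : ℝ) ^ (θ + ε / 2) := by positivity
    rw [h5]
    have h7 : (I.card : ℝ) * (X : ℝ) ^ (θ + ε / 2) ≤ 3 * L * (X : ℝ) ^ (θ + ε / 2) :=
      mul_le_mul_of_nonneg_right hIcard h6.le
    have h8 : 4 * L * (X : ℝ) ^ (θ + ε / 2) ≤ (X : ℝ) ^ (ε / 2) * (X : ℝ) ^ (θ + ε / 2) :=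
      mul_le_mul_of_nonneg_right e4 h6.le
    have h9 : (X : ℝ) ^ (θ + ε / 2) ≤ L * (X : ℝ) ^ (θ + ε / 2) :=
      le_mul_of_one_le_left h6.le (by linarith)
    linarith


end Pool.MP_dd84fd_nt.LX
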