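import Pool.Agent.Lib.MP_dd84fd_nt.LX.PwLamA

/-!
# PL_L-Lam: a function independent of `a` against a wide block

Small `h` (`h ≤ g = X^(τ/8)`): `zc_small`, `lt_cs`, `lamj_num` (with `N = 0`); large `h`: one modulus at a time, `zc_large`.
-/

set_option autoImplicit false

namespace Pool.MP_dd84fd_nt.LXP

open Finset Pool.MP_67663b_nt.Odd Pool.MP_dd84fd_nt.PL Pool.MP_dd84fd_nt.HX Pool.MP_dd84fd_nt.HXP
open Pool.MP_dd84fd_nt.JX (Adm)
open Pool.MP_dd84fd_nt.JXP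

theorem lw_E (X b β q M h g : ℝ) (hX : 1 ≤ X) (hb : 0 < b) (hβ : b ≤ β) (hM : 1 ≤ M)
    (hg : 1 ≤ g) (hgh : g ≤ h) (hhq : h ≤ q) (hMg : g ^ 8 / 2 ≤ M) (hM2 : M ^ 2 ≤ X)
    (hgX : g ^ 2 ≤ X) :
    (4 * h + X / (M * b)) * X * (h * (1 + β) + M) ≤
      q ^ 2 * (X / g) ^ 2 * (4 * (1 + β) + 4 + 2 * (1 + β) / b + 1 / b) := by
  have hg0 : 0 < g := by linarith
  have hh0 : 0 < h := by linarith
  have hq0 : 0 < q := by linarith
  have hβ0 : 0 < β := by linarith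
  have hM0 : 0 < M := by linarith
  have hX0 : 0 < X := by linarith
  have e1 : (4 * h + X / (M * b)) * X * (h * (1 + β) + M) =
      h ^ 2 * X * (4 * (1 + β)) + h * M * X * 4 + X ^ 2 * h / M * ((1 + β) / b) +
        X ^ 2 * (1 / b) := by
    field_simp
    ring
  have e2 : q ^ 2 * (X / g) ^ 2 * (4 * (1 + β) + 4 + 2 * (1 + β) / b + 1 / b) =
      q ^ 2 * X ^ 2 / g ^ 2 * (4 * (1 + β)) + q ^ 2 * X ^ 2 / g ^ 2 * 4 +
        2 * (q ^ 2 * X ^ 2 / g ^ 2) * ((1 + β) / b) + q ^ 2 * X ^ 2 / g ^ 2 * (1 / b) := by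
    rw [div_pow]
    ring
  rw [e1, e2]
  have hg2 : 0 < g ^ 2 := by positivity
  have hhq2 : h ^ 2 ≤ q ^ 2 := pow_le_pow_left₀ hh0.le hhq 2
  have hgq2 : g ^ 2 ≤ q ^ 2 := pow_le_pow_left₀ hg0.le (hgh.trans hhq) 2
  refine add_le_add (add_le_add (add_le_add ?_ ?_) ?_) ?_
  · refine mul_le_mul_of_nonneg_right ?_ (by positivity)
    rw [le_div_iff₀ hg2]
    calc h ^ 2 * X * g ^ 2 ≤ q ^ 2 * X * X :=
          mul_le_mul (mul_le_mul_of_nonneg_right hhq2 hX0.le) hgX hg2.le (by positivity)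
      _ = q ^ 2 * X ^ 2 := by ring
  · refine mul_le_mul_of_nonneg_right ?_ (by norm_num)
    rw [le_div_iff₀ hg2]
    have h1 : M * g ≤ X := by nlinarith [sq_nonneg (M - g)]
    calc h * M * X * g ^ 2 = (h * g) * ((M * g) * X) := by ring
      _ ≤ (q * q) * (X * X) :=
          mul_le_mul (mul_le_mul hhq (hgh.trans hhq) hg0.le hq0.le)
            (mul_le_mul_of_nonneg_right h1 hX0.le) (by positivity) (by positivity)
      _ = q ^ 2 * X ^ 2 := by ring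
  · refine mul_le_mul_of_nonneg_right ?_ (by positivity)
    rw [← mul_div_assoc, div_le_div_iff₀ hM0 hg2]
    have h1 : g ^ 2 ≤ 2 * M := by
      have : g ^ 2 ≤ g ^ 8 := pow_le_pow_right₀ hg (by norm_num)
      linarith
    have h2 : h ≤ q ^ 2 := by nlinarith
    calc X ^ 2 * h * g ^ 2 ≤ X ^ 2 * q ^ 2 * (2 * M) :=
          mul_le_mul (mul_le_mul_of_nonneg_left h2 (by positivity)) h1 hg2.le (by positivity)
      _ = 2 * (q ^ 2 * X ^ 2) * M := by ring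
  · refine mul_le_mul_of_nonneg_right ?_ (by positivity)
    rw [le_div_iff₀ hg2]
    calc X ^ 2 * g ^ 2 ≤ X ^ 2 * q ^ 2 := mul_le_mul_of_nonneg_left hgq2 (by positivity)
      _ = q ^ 2 * X ^ 2 := by ring

/-- a large `h`, one modulus: the numbers -/
theorem lw_per_large (C X b β Λ0 q φ κ Z Am M h L S Sc g : ℝ) (hC : 0 < C) (hX : 1 ≤ X)
    (hb : 0 < b) (hβ : b ≤ β) (hΛ0 : 0 ≤ Λ0) (hφ : 0 < φ) (hκ : 0 ≤ κ) (hAm : 0 ≤ Am)
    (hM : 1 ≤ M) (hL : 1 ≤ L) (hg : 1 ≤ g) (hgh : g ≤ h) (hhq : h ≤ q) (hMg : g ^ 8 / 2 ≤ M)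
    (hM2 : M ^ 2 ≤ X) (hgX : g ^ 2 ≤ X) (hS : 0 ≤ S) (hSc0 : 0 ≤ Sc)
    (hZ : Z ≤ h / φ * (1 / (2 * (M * (β / X)))) * ((h * (7 * (M * (β / X))) + 1) * Sc))
    (hSc : Sc ≤ S * X / M) :
    β / X * (C * (1 + 24 * L) * κ * (Λ0 * X / q * Real.sqrt φ * Real.sqrt Z) *
        (Am * Real.sqrt (M * (h * (1 + β) + M)))) ≤
      β * (C * (1 + 24 * L)) * Λ0 * Am * Real.sqrt S * (κ * Real.sqrt h) * (X / g) *
        Real.sqrt (4 * (1 + β) + 4 + 2 * (1 + β) / b + 1 / b) := by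
  have hg0 : 0 < g := by linarith
  have hh0 : 0 < h := by linarith
  have hq0 : 0 < q := by linarith
  have hβ0 : 0 < β := by linarith
  have hM0 : 0 < M := by linarith
  have hX0 : 0 < X := by linarith
  obtain ⟨E, hE⟩ : ∃ E : ℝ, E = 4 * (1 + β) + 4 + 2 * (1 + β) / b + 1 / b := ⟨_, rfl⟩
  have hE0 : 0 ≤ E := by rw [hE]; positivity
  have hE1 := lw_E X b β q M h g hX hb hβ hM hg hgh hhq hMg hM2 hgX
  rw [← hE] at hE1 ⊢
  have h1 : φ * Z ≤ h * (4 * h + X / (M * b)) * (S * X / M) := by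
    have h2 : φ * Z ≤ h * (7 / 2 * h + X / (2 * (M * β))) * Sc := by
      calc φ * Z ≤ φ * (h / φ * (1 / (2 * (M * (β / X)))) *
            ((h * (7 * (M * (β / X))) + 1) * Sc)) := mul_le_mul_of_nonneg_left hZ hφ.le
        _ = h * (7 / 2 * h + X / (2 * (M * β))) * Sc := by
            field_simp
    refine h2.trans (mul_le_mul (mul_le_mul_of_nonneg_left ?_ hh0.le) hSc hSc0 (by positivity))
    refine add_le_add (by linarith) ?_
    refine div_le_div_of_nonneg_left hX0.le (by positivity) ?_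
    nlinarith [mul_pos hM0 hb, mul_le_mul_of_nonneg_left hβ hM0.le]
  have h3 : Real.sqrt φ * Real.sqrt Z * Real.sqrt (M * (h * (1 + β) + M)) ≤
      Real.sqrt h * Real.sqrt S * (q * (X / g)) * Real.sqrt E := by
    rw [← Real.sqrt_mul hφ.le, ← Real.sqrt_mul' _ (by positivity)]
    calc Real.sqrt (φ * Z * (M * (h * (1 + β) + M))) ≤
          Real.sqrt (h * S * (q * (X / g)) ^ 2 * E) := by
          refine Real.sqrt_le_sqrt ?_
          calc φ * Z * (M * (h * (1 + β) + M)) ≤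
                h * (4 * h + X / (M * b)) * (S * X / M) * (M * (h * (1 + β) + M)) :=
                mul_le_mul_of_nonneg_right h1 (by positivity)
            _ = h * S * ((4 * h + X / (M * b)) * X * (h * (1 + β) + M)) := by
                field_simp
            _ ≤ h * S * (q ^ 2 * (X / g) ^ 2 * E) :=
                mul_le_mul_of_nonneg_left hE1 (by positivity)
            _ = _ := by ring
      _ = Real.sqrt h * Real.sqrt S * (q * (X / g)) * Real.sqrt E := by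
          rw [Real.sqrt_mul (by positivity), Real.sqrt_mul (by positivity),
            Real.sqrt_mul hh0.le, Real.sqrt_sq (by positivity)]
  calc β / X * (C * (1 + 24 * L) * κ * (Λ0 * X / q * Real.sqrt φ * Real.sqrt Z) *
        (Am * Real.sqrt (M * (h * (1 + β) + M)))) =
      (β * (C * (1 + 24 * L)) * Λ0 * Am * κ / q) *
        (Real.sqrt φ * Real.sqrt Z * Real.sqrt (M * (h * (1 + β) + M))) := by
        field_simp
    _ ≤ (β * (C * (1 + 24 * L)) * Λ0 * Am * κ / q) *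
        (Real.sqrt h * Real.sqrt S * (q * (X / g)) * Real.sqrt E) := by
        refine mul_le_mul_of_nonneg_left h3 ?_
        have : 0 < L := by linarith
        positivity
    _ = _ := by
        field_simp

/-- the tail of one modulus -/
theorem lwt_tail (C X b β q φ : ℝ) (hC : 0 < C) (hX : 1 ≤ X) (hb : 0 < b) (hβ1 : b ≤ β)
    (hβ2 : β ≤ 2 * b) (hbX : b ≤ X) (hq : 1 ≤ q) (hqX : q ≤ X) (hφ0 : 0 ≤ φ) (hφ : φ ≤ q) :
    β / X * (C * φ * (8 * X ^ 4) ^ 2 / Real.sqrt (X ^ 24)) ≤ 128 * C / X ^ 3 := by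
  have h := lt_per C X b β 0 q φ 0 0 0 0 0 1 (8 * X ^ 4) (X ^ 24) hC hX hb hβ1 hβ2 hbX le_rfl hq
    hqX hφ0 hφ le_rfl le_rfl le_rfl le_rfl le_rfl rfl rfl
  simpa using h

/-- the constants of a large `h` -/
theorem lw_const (C L b β W : ℝ) (A1 A2 C0 : ℕ) (hC : 0 < C) (hL : 1 ≤ L) (hb : 0 < b)
    (hβ1 : b ≤ β) (hβ2 : β ≤ 2 * b) (hbA : b ≤ L ^ A2) (hbi : 1 / b ≤ L ^ A1) (hW : 0 ≤ W) :
    β * (C * (1 + 24 * L)) * L ^ C0 * L ^ C0 * Real.sqrt (L ^ C0) * W *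
        Real.sqrt (4 * (1 + β) + 4 + 2 * (1 + β) / b + 1 / b) ≤
      250 * C * L ^ (1 + 2 * A2 + A1 + 3 * C0) * W := by
  have hL0 : 0 < L := by linarith
  have hβ0 : 0 < β := by linarith
  have p1 : ∀ k : ℕ, 1 ≤ L ^ k := fun k => one_le_pow₀ hL
  have h1 : Real.sqrt (L ^ C0) ≤ L ^ C0 := by
    rw [Real.sqrt_le_left (by positivity)]
    nlinarith [p1 C0]
  have h2 : 4 * (1 + β) + 4 + 2 * (1 + β) / b + 1 / b ≤ (5 * L ^ (A1 + A2)) ^ 2 := by
    have e1 : 2 * (1 + β) / b ≤ 2 * (1 / b) + 4 := by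
      rw [div_le_iff₀ hb, add_mul, mul_assoc, one_div_mul_cancel hb.ne']
      linarith
    have a1 : L ^ A2 ≤ L ^ (A1 + A2) := pow_le_pow_right₀ hL (by omega)
    have a2 : L ^ A1 ≤ L ^ (A1 + A2) := pow_le_pow_right₀ hL (by omega)
    have a3 := p1 (A1 + A2)
    nlinarith
  have h3 : Real.sqrt (4 * (1 + β) + 4 + 2 * (1 + β) / b + 1 / b) ≤ 5 * L ^ (A1 + A2) := by
    rw [Real.sqrt_le_left (by positivity)]
    exact h2
  have h4 : β ≤ 2 * L ^ A2 := by linarith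
  have h5 : C * (1 + 24 * L) ≤ C * (25 * L) := mul_le_mul_of_nonneg_left (by linarith) hC.le
  calc β * (C * (1 + 24 * L)) * L ^ C0 * L ^ C0 * Real.sqrt (L ^ C0) * W *
        Real.sqrt (4 * (1 + β) + 4 + 2 * (1 + β) / b + 1 / b) ≤
      (2 * L ^ A2) * (C * (25 * L)) * L ^ C0 * L ^ C0 * L ^ C0 * W * (5 * L ^ (A1 + A2)) := by
        refine mul_le_mul ?_ h3 (Real.sqrt_nonneg _) (by positivity)
        refine mul_le_mul_of_nonneg_right ?_ hW
        refine mul_le_mul ?_ h1 (Real.sqrt_nonneg _) (by positivity)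
        refine mul_le_mul_of_nonneg_right (mul_le_mul_of_nonneg_right ?_ (by positivity))
          (by positivity)
        exact mul_le_mul h4 h5 (by positivity) (by positivity)
    _ = 250 * C * L ^ (1 + 2 * A2 + A1 + 3 * C0) * W := by
        rw [pow_add, pow_add, pow_add, pow_add, pow_one, pow_mul, pow_mul]
        ring

/-- the constants of the small `h` -/
theorem lw_const2 (C C' D4 L b W : ℝ) (A2 C0 : ℕ) (hC : 0 < C) (hC' : 0 < C') (hD4 : 1 ≤ D4)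
    (hL : 1 ≤ L) (hb : 0 < b) (hbA : b ≤ L ^ A2) (hW : 0 ≤ W)
    (hLC : 100 * C * (3 * D4 + 6) * (1 + 2 * C') ≤ L) :
    50 * C * L * L ^ C0 * L ^ C0 * ((3 * D4 + 6) * (1 + b) *
        Real.sqrt (C' * (1 + L) ^ 3 * L ^ C0) * W) ≤ L ^ (4 + 3 * C0 + A2) * W := by
  have hL0 : 0 < L := by linarith
  have p1 : ∀ k : ℕ, 1 ≤ L ^ k := fun k => one_le_pow₀ hL
  have hD0 : 0 ≤ 3 * D4 + 6 := by linarith
  have h1 : Real.sqrt (C' * (1 + L) ^ 3 * L ^ C0) ≤ (1 + 2 * C') * L ^ 2 * L ^ C0 := by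
    rw [Real.sqrt_le_left (by positivity)]
    have a1 : (1 + L) ^ 3 ≤ 8 * L ^ 4 := by
      have : (1 + L) ^ 3 ≤ (2 * L) ^ 3 := pow_le_pow_left₀ (by linarith) (by linarith) 3
      have h2 : L ^ 3 ≤ L ^ 4 := pow_le_pow_right₀ hL (by norm_num)
      nlinarith
    have a2 : L ^ C0 ≤ (L ^ C0) ^ 2 := by nlinarith [p1 C0]
    have a3 : 8 * C' ≤ (1 + 2 * C') ^ 2 := by nlinarith [sq_nonneg (1 - 2 * C')]
    calc C' * (1 + L) ^ 3 * L ^ C0 ≤ C' * (8 * L ^ 4) * (L ^ C0) ^ 2 :=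
          mul_le_mul (mul_le_mul_of_nonneg_left a1 hC'.le) a2 (by positivity) (by positivity)
      _ = (8 * C') * (L ^ 4 * (L ^ C0) ^ 2) := by ring
      _ ≤ (1 + 2 * C') ^ 2 * (L ^ 4 * (L ^ C0) ^ 2) :=
          mul_le_mul_of_nonneg_right a3 (by positivity)
      _ = _ := by ring
  have h2 : 1 + b ≤ 2 * L ^ A2 := by linarith [p1 A2]
  calc 50 * C * L * L ^ C0 * L ^ C0 * ((3 * D4 + 6) * (1 + b) *
        Real.sqrt (C' * (1 + L) ^ 3 * L ^ C0) * W) ≤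
      50 * C * L * L ^ C0 * L ^ C0 * ((3 * D4 + 6) * (2 * L ^ A2) *
        ((1 + 2 * C') * L ^ 2 * L ^ C0) * W) := by
        refine mul_le_mul_of_nonneg_left (mul_le_mul_of_nonneg_right ?_ hW) (by positivity)
        exact mul_le_mul (mul_le_mul_of_nonneg_left h2 hD0) h1 (Real.sqrt_nonneg _)
          (by positivity)
    _ = (100 * C * (3 * D4 + 6) * (1 + 2 * C')) * (L ^ 3 * L ^ C0 * L ^ C0 * L ^ C0 * L ^ A2 * W) := by
        ring
    _ ≤ L * (L ^ 3 * L ^ C0 * L ^ C0 * L ^ C0 * L ^ A2 * W) :=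
        mul_le_mul_of_nonneg_right hLC (by positivity)
    _ = L ^ (4 + 3 * C0 + A2) * W := by
        rw [pow_add, pow_add, pow_mul]
        ring

theorem lw_a1 (M X : ℝ) (h1 : 1 ≤ M) (h2 : M ^ 2 ≤ X) : M ≤ X := by nlinarith

theorem lw_a3 (t : ℝ) : t ≤ 1 + t ^ 2 := by nlinarith [sq_nonneg (t - 1)]

theorem lw_a4 (P X M : ℝ) (h : P ≤ X) (hM : 1 ≤ M) (hX : 0 ≤ X) : P * X ≤ X ^ 2 * M := by
  nlinarith [mul_nonneg hX hX, mul_le_mul_of_nonneg_right h hX]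

theorem lw_a5 (a b X : ℝ) (h1 : a ≤ X) (h2 : b ≤ X ^ 2) (hX : 1 ≤ X) : a + b ≤ 2 * X ^ 2 := by
  nlinarith

theorem lw_a6 (P X q : ℝ) (h : P ≤ X) (hX : 1 ≤ X) (hq : 1 ≤ q) :
    P * X ≤ 8 * X ^ 4 * q := by
  have h1 : P * X ≤ X * X := mul_le_mul_of_nonneg_right h (by linarith)
  have h2 : X ^ 2 ≤ X ^ 4 := pow_le_pow_right₀ hX (by norm_num)
  have h3 : 0 < X ^ 4 := by positivity
  have h4 : 8 * X ^ 4 ≤ 8 * X ^ 4 * q := by nlinarith
  nlinarith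

theorem lw_a7 (τ : ℝ) (h0 : 0 < τ) (h1 : τ ≤ 1 / 10) : τ ^ 2 / 1000 ≤ τ / 10000 := by nlinarith

theorem lw_a8 (X : ℝ) (hX : 16 ≤ X) : 16 * X ≤ X ^ 24 := by
  calc (16 : ℝ) * X ≤ X * X := by nlinarith
    _ = X ^ 2 := by ring
    _ ≤ X ^ 24 := pow_le_pow_right₀ (by linarith) (by norm_num)

theorem lw_bs (X K q : ℕ) (c : ℕ → ℂ) (P M : ℝ) (hX : 1 ≤ X) (hK : K ≤ X) (hM : 1 ≤ M)
    (hP : P ≤ X) (hc : ∑ k ∈ Icc 1 K, ‖c k‖ ^ 2 ≤ P * X / M) (x : ℝ) :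
    ‖tp K (cq q c) x‖ ≤ 2 * (X : ℝ) ^ 2 := by
  have hX' : (1 : ℝ) ≤ X := by exact_mod_cast hX
  unfold tp
  refine (norm_sum_le _ _).trans ?_
  have h2 : ∀ k ∈ Icc 1 K, ‖cq q c k * ee ((k : ℝ) * x)‖ ≤ 1 + ‖c k‖ ^ 2 := by
    intro k _
    have h3 : ‖ee ((k : ℝ) * x)‖ = 1 := by
      unfold ee
      rw [Complex.norm_exp]
      simp
    have h4 : ‖cq q c k‖ ≤ ‖c k‖ := by
      unfold cq
      split_ifs
      · exact le_rfl
      · rw [norm_zero]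
        exact norm_nonneg _
    rw [norm_mul, h3, mul_one]
    exact h4.trans (lw_a3 _)
  refine (Finset.sum_le_sum h2).trans ?_
  rw [Finset.sum_add_distrib]
  have h5 : ∑ _k ∈ Icc 1 K, (1 : ℝ) ≤ X := by
    simp only [Finset.sum_const, Nat.card_Icc, nsmul_eq_mul, mul_one]
    have : K + 1 - 1 = K := by omega
    rw [this]
    exact_mod_cast hK
  have h6 : P * X / M ≤ X ^ 2 := by
    rw [div_le_iff₀ (by linarith)]
    exact lw_a4 P X M hP hM (by linarith)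
  exact lw_a5 _ _ _ h5 (hc.trans h6) hX'

theorem lw_a9 (P L : ℝ) (h1 : 1 ≤ P) (h2 : 3 ≤ L) : P + 2 ≤ P * L := by nlinarith

theorem lam_two_w : LamTwoW := by
  classical
  obtain ⟨C, hC, h1⟩ := lwc_one
  obtain ⟨C', hC', h1'⟩ := zc_small
  obtain ⟨D4, hD4, h4⟩ := lt_D4
  refine ⟨5, ?_⟩
  intro C0 A2 th e τ A1 hpar
  obtain ⟨X0, hX0⟩ := j2_std th e τ A1 hpar
  obtain ⟨hp1, hp2, hp3, hp4, hp5⟩ := hpar
  have hτ0 : 0 < τ := by linarith
  obtain ⟨X1, hX1e⟩ := j2_tau 3 (τ / 16) (by positivity)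
  obtain ⟨X2, hX2e⟩ := j2_log 1 2 (τ / 16) (by positivity)
  obtain ⟨X3, hX3e⟩ := j2_rpow (128 * C) 1 (by norm_num)
  obtain ⟨X4, hX4e⟩ := j2_rpow 2 τ hτ0
  obtain ⟨X5, hX5e⟩ := j2_tau 1 (1 / 1000) (by norm_num)
  obtain ⟨X6, hX6e⟩ := j2_log (C0 + A2) 15 (1 / 4) (by norm_num)
  obtain ⟨X7, hX7e⟩ := j2_log (2 * A2 + 1) (480 * C') (1 / 100) (by norm_num)
  obtain ⟨X8, hX8e⟩ := j2_log (1 + 2 * A2 + A1 + 3 * C0) (250 * C) (τ / 20) (by positivity)
  obtain ⟨X9, hX9e⟩ := j2_big (max 3 (100 * C * (3 * D4 + 6) * (1 + 2 * C')))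
  refine ⟨max (max (max X0 X1) (max X2 X3)) (max (max X4 X5) (max (max X6 X7) (max X8 X9))), ?_⟩
  intro X hX n b N σ QQ bq hstd hbA2 lam hlam hlb M K MM a c hblk
  simp only [max_le_iff] at hX
  obtain ⟨⟨⟨x0, x1⟩, x2, x3⟩, ⟨x4, x5⟩, ⟨x6, x7⟩, x8, x9⟩ := hX
  obtain ⟨hX16, hL1, hb0, hNX, hbX, hN82, -, hqq'⟩ := hX0 X x0 n b N σ QQ bq hstd
  have g1 := hX1e X x1
  have g2 := hX2e X x2
  have g3 := hX3e X x3
  have g4 := hX4e X x4
  have g5 := hX5e X x5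
  have g6 := hX6e X x6
  have g7 := hX7e X x7
  have g8 := hX8e X x8
  obtain ⟨g9, g10⟩ := max_le_iff.1 (hX9e X x9)
  rw [Real.rpow_one] at g3
  rw [pow_one] at g2
  obtain ⟨h2n, hnX, hσ, hbA, hN1, hNb, hFam, hcardQ, hbq⟩ := hstd
  obtain ⟨hM1, hM2, hK, hMM, ha, hcA, hMK, hc⟩ := hblk
  obtain ⟨L, hL⟩ : ∃ L : ℝ, L = Real.log X := ⟨_, rfl⟩
  rw [← hL] at hL1 g2 g6 g7 g8 g9 g10 hbA hbA2 hlb ha hcA hc ⊢
  have hX16' : (16 : ℝ) ≤ X := by exact_mod_cast hX16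
  have hXp : (0 : ℝ) < X := by linarith
  have hX1 : 1 ≤ X := by omega
  have hX1' : (1 : ℝ) ≤ X := by linarith
  have hn1 : 1 ≤ n := by omega
  have p1 : ∀ k : ℕ, 1 ≤ L ^ k := fun k => one_le_pow₀ hL1
  have hL0 : 0 < L := by linarith
  obtain ⟨Y, hY⟩ : ∃ Y : ℝ, Y = ∑ q ∈ QQ, 1 / ((q : ℝ) * (hq q n : ℝ) ^ (1 / 4 : ℝ)) :=
    ⟨_, rfl⟩
  have hY0 : 0 ≤ Y := by rw [hY]; exact Finset.sum_nonneg fun q _ => by positivity
  rw [← hY]
  -- no `m`
  rcases MM.eq_empty_or_nonempty with hemp | ⟨m0, hm0⟩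
  · have hz : ∀ q ∈ QQ, ‖Bq X (bq q) σ n q (fun _ x => lam q x)
        (f2f MM a (tp K (cq q c)) σ q)‖ = 0 := by
      intro q _
      rw [norm_eq_zero]
      unfold Bq
      refine Finset.sum_eq_zero fun a' _ => ?_
      have : ∀ x : ℝ, f2f MM a (tp K (cq q c)) σ q a' x = 0 := by
        intro x
        unfold f2f
        rw [hemp]
        simp
      simp [this]
    rw [Finset.sum_eq_zero hz]
    have : 0 ≤ (X : ℝ) ^ (-(τ ^ 2 / 1000)) := Real.rpow_nonneg hXp.le _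
    positivity
  -- powers
  obtain ⟨g, hg⟩ : ∃ g : ℝ, g = (X : ℝ) ^ (τ / 8) := ⟨_, rfl⟩
  have hg1 : 1 ≤ g := by rw [hg]; exact Real.one_le_rpow hX1' (by positivity)
  have hg0 : 0 < g := by linarith
  have hg8 : g ^ 8 = (X : ℝ) ^ τ := by
    rw [hg, ← Real.rpow_natCast, ← Real.rpow_mul hXp.le]
    congr 1
    push_cast
    ring
  have hgX : g ^ 2 ≤ X := by
    rw [hg, ← Real.rpow_natCast, ← Real.rpow_mul hXp.le]
    calc (X : ℝ) ^ (τ / 8 * ((2 : ℕ) : ℝ)) ≤ (X : ℝ) ^ (1 : ℝ) :=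
          Real.rpow_le_rpow_of_exponent_le hX1' (by push_cast; linarith)
      _ = X := Real.rpow_one _
  have hgg : (X : ℝ) ^ (τ / 16) * (X : ℝ) ^ (τ / 16) = g := by
    rw [hg, ← Real.rpow_add hXp]
    congr 1
    ring
  have hMy : g ^ 8 / 2 ≤ M := by
    rw [hg8]
    exact hM1
  have hM12 : 1 ≤ M := by
    refine le_trans ?_ hM1
    linarith
  have hM0 : 0 < M := by linarith
  have hMsq : M ^ 2 ≤ X := by
    calc M ^ 2 ≤ ((X : ℝ) ^ (1 / 2 : ℝ)) ^ 2 := pow_le_pow_left₀ hM0.le hM2 2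
      _ = X := by
          rw [← Real.rpow_natCast, ← Real.rpow_mul hXp.le]
          norm_num
  have hMX' : M ≤ X := lw_a1 M X hM12 hMsq
  have hMKX : M * K ≤ X := by
    have e1 : ((m0 * K : ℕ) : ℝ) ≤ X := by exact_mod_cast hMK m0 hm0
    push_cast at e1
    exact (mul_le_mul_of_nonneg_right (hMM m0 hm0).1.le (Nat.cast_nonneg K)).trans e1
  have hqq : ∀ q ∈ QQ, 1 ≤ q ∧ q ≤ X := fun q hqm => ⟨(hqq' q hqm).1, (hqq' q hqm).2.1⟩
  have hPX : L ^ C0 ≤ X := by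
    have e1 : L ^ C0 ≤ L ^ (C0 + A2) := pow_le_pow_right₀ hL1 (by omega)
    have e2 : (X : ℝ) ^ (1 / 4 : ℝ) ≤ X := by
      calc (X : ℝ) ^ (1 / 4 : ℝ) ≤ (X : ℝ) ^ (1 : ℝ) :=
            Real.rpow_le_rpow_of_exponent_le hX1' (by norm_num)
        _ = X := Real.rpow_one _
    linarith [p1 (C0 + A2)]
  have hP1 := p1 C0
  -- bound of the inner polynomial
  have hBs : ∀ (q : ℕ) (x : ℝ), ‖tp K (cq q c) x‖ ≤ 2 * (X : ℝ) ^ 2 := fun q x =>
    lw_bs X K q c (L ^ C0) M hX1 hK hM12 hPX hc x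
  have hh1 : ∀ q ∈ QQ, 1 ≤ hq q n ∧ hq q n ≤ q := by
    intro q hqm
    obtain ⟨hq1, hqX⟩ := hqq q hqm
    exact ⟨hq_pos q n hq1, Nat.div_le_self _ _⟩
  -- one modulus
  have hone : ∀ q ∈ QQ, ‖Bq X (bq q) σ n q (fun _ x => lam q x)
      (f2f MM a (tp K (cq q c)) σ q)‖ ≤
      bq q / X * (C * (1 + 24 * L) * ltK (hq q n) * (L ^ C0 * X / q *
        Real.sqrt (Nat.totient q) * Real.sqrt (Zc q n K c σ (M * (bq q / X)))) *
        (L ^ C0 * Real.sqrt (M * (hq q n * (1 + bq q) + M))) +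
        C * Nat.totient q * (8 * (X : ℝ) ^ 4) ^ 2 / Real.sqrt ((X ^ 24 : ℕ) : ℝ)) := by
    intro q hqm
    obtain ⟨hq1, hqX⟩ := hqq q hqm
    have hq1' : (1 : ℝ) ≤ q := by exact_mod_cast hq1
    have : NeZero q := ⟨by omega⟩
    have hβ := hbq q hqm
    have h2 := h1 X n q (bq q) σ hX1 hnX (by linarith) hσ hn1 (lam q) (L ^ C0 * X / q) (hlam q)
      (hlb q hqm) M (L ^ C0) K MM a c hM12 (by positivity) hMM ha (2 * (X : ℝ) ^ 2)
      (8 * (X : ℝ) ^ 4) (X ^ 24) (hBs q)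
      (by
        rw [div_le_iff₀ (by linarith)]
        exact lw_a6 _ _ _ hPX hX1' hq1')
      (by
        calc 2 * M * L ^ C0 * (2 * (X : ℝ) ^ 2) ≤ 2 * (2 * X) * X * (2 * (X : ℝ) ^ 2) := by
              refine mul_le_mul_of_nonneg_right (mul_le_mul (by linarith) hPX (by positivity)
                (by linarith)) (by positivity)
          _ = 8 * (X : ℝ) ^ 4 := by ring)
      (Nat.one_le_pow _ _ hX1)
      (by
        have h3 : bq q ≤ 2 * X := by linarith [hβ.2]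
        have h5 : (16 : ℝ) * X ≤ X ^ 24 := lw_a8 X hX16'
        push_cast
        linarith)
    have hlogJ : Real.log ((X ^ 24 : ℕ) : ℝ) = 24 * L := by
      rw [hL]
      push_cast
      rw [Real.log_pow]
      norm_num
    rw [hlogJ] at h2
    exact h2
  -- small `h`
  have hpers : ∀ q ∈ QQ, ‖Bq X (bq q) σ n q (fun _ x => lam q x)
      (f2f MM a (tp K (cq q c)) σ q)‖ ≤
      50 * C * L * L ^ C0 * L ^ C0 * (b * (ltK (hq q n) / Real.sqrt q *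
        Real.sqrt (Zc q n K c σ (M * (bq q / X))) *
        (M + Real.sqrt (2 * M * (1 + b)) * Real.sqrt (hq q n)))) + 128 * C / (X : ℝ) ^ 3 := by
    intro q hqm
    obtain ⟨hq1, hqX⟩ := hqq q hqm
    have hq1' : (1 : ℝ) ≤ q := by exact_mod_cast hq1
    have hqX' : (q : ℝ) ≤ X := by exact_mod_cast hqX
    have hβ := hbq q hqm
    exact (hone q hqm).trans (lt_per C X b (bq q) (L ^ C0) q (Nat.totient q) (ltK (hq q n))
      (Zc q n K c σ (M * (bq q / X))) (L ^ C0) M (hq q n)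
      L (8 * (X : ℝ) ^ 4) ((X ^ 24 : ℕ) : ℝ) hC hX1' hb0 hβ.1 hβ.2 hbX (by positivity) hq1' hqX'
      (Nat.cast_nonneg _) (by exact_mod_cast Nat.totient_le q) (ltK_nonneg _) (by positivity)
      (by linarith) (Nat.cast_nonneg _) hL1 rfl (by push_cast; ring))
  -- large `h`
  have hκh : ∀ q ∈ QQ, ltK (hq q n) ^ 2 * (hq q n : ℝ) ≤ (X : ℝ) ^ (τ / 16) := by
    intro q hqm
    have hh0 : (0 : ℝ) < hq q n := by exact_mod_cast (hh1 q hqm).1
    have h6 := ltK_sq (hq q n) (hh1 q hqm).1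
    rw [le_div_iff₀ hh0] at h6
    refine h6.trans ?_
    refine g1 (hq q n) (hh1 q hqm).1 ?_
    have h7 : (hq q n : ℝ) ≤ X := by
      exact_mod_cast (hh1 q hqm).2.trans (hqq q hqm).2
    have h8 : (2 * X : ℝ) ≤ (2 * X) ^ 3 := le_self_pow₀ (by linarith) (by norm_num)
    linarith
  have hbi : 1 / b ≤ L ^ A1 := by
    rw [Real.rpow_neg hL0.le, Real.rpow_natCast] at hbA
    rw [div_le_iff₀ hb0]
    have h2 : 0 < L ^ A1 := by positivity
    calc (1 : ℝ) = L ^ A1 * (L ^ A1)⁻¹ := by rw [mul_inv_cancel₀ h2.ne']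
      _ ≤ L ^ A1 * b := mul_le_mul_of_nonneg_left hbA h2.le
  have hperl : ∀ q ∈ QQ, g ≤ (hq q n : ℝ) → ‖Bq X (bq q) σ n q (fun _ x => lam q x)
      (f2f MM a (tp K (cq q c)) σ q)‖ ≤
      (X : ℝ) ^ (τ / 20) * ((X : ℝ) ^ (τ / 32) * (X / g)) + 128 * C / (X : ℝ) ^ 3 := by
    intro q hqm hgq
    obtain ⟨hq1, hqX⟩ := hqq q hqm
    have hq1' : (1 : ℝ) ≤ q := by exact_mod_cast hq1
    have hqX' : (q : ℝ) ≤ X := by exact_mod_cast hqX
    have : NeZero q := ⟨by omega⟩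
    have hβ := hbq q hqm
    have hβ0 : 0 < bq q := by linarith
    have hφ : (0 : ℝ) < Nat.totient q := by exact_mod_cast Nat.totient_pos.2 hq1
    have hzc := zc_large q n K c σ (M * (bq q / X)) hσ (by positivity)
    have h2 := lw_per_large C X b (bq q) (L ^ C0) q (Nat.totient q) (ltK (hq q n))
      (Zc q n K c σ (M * (bq q / X))) (L ^ C0) M (hq q n) L (L ^ C0)
      (∑ k ∈ Icc 1 K, ‖c k‖ ^ 2) g hC hX1' hb0 hβ.1 (by positivity) hφ (ltK_nonneg _)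
      (by positivity) hM12 hL1 hg1 hgq (by exact_mod_cast (hh1 q hqm).2) hMy hMsq hgX
      (by positivity) (Finset.sum_nonneg fun k _ => by positivity) hzc hc
    have h3 := lw_const C L b (bq q) (ltK (hq q n) * Real.sqrt (hq q n) * (X / g)) A1 A2 C0 hC hL1
      hb0 hβ.1 hβ.2 hbA2 hbi (by have := ltK_nonneg (hq q n); positivity)
    have h4' : ltK (hq q n) * Real.sqrt (hq q n) ≤ (X : ℝ) ^ (τ / 32) := by
      have e1 : ltK (hq q n) * Real.sqrt (hq q n) =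
          Real.sqrt (ltK (hq q n) ^ 2 * (hq q n : ℝ)) := by
        rw [Real.sqrt_mul (sq_nonneg _), Real.sqrt_sq (ltK_nonneg _)]
      rw [e1, Real.sqrt_le_left (Real.rpow_nonneg hXp.le _)]
      refine (hκh q hqm).trans (le_of_eq ?_)
      rw [← Real.rpow_natCast, ← Real.rpow_mul hXp.le]
      congr 1
      push_cast
      ring
    have htail := lwt_tail C X b (bq q) q (Nat.totient q) hC hX1' hb0 hβ.1 hβ.2 hbX hq1' hqX'
      hφ.le (by exact_mod_cast Nat.totient_le q)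
    refine (hone q hqm).trans ?_
    rw [mul_add]
    refine add_le_add ?_ (by push_cast; exact htail)
    refine h2.trans ?_
    calc bq q * (C * (1 + 24 * L)) * L ^ C0 * L ^ C0 * Real.sqrt (L ^ C0) *
          (ltK (hq q n) * Real.sqrt (hq q n)) * (X / g) *
          Real.sqrt (4 * (1 + bq q) + 4 + 2 * (1 + bq q) / b + 1 / b) =
          bq q * (C * (1 + 24 * L)) * L ^ C0 * L ^ C0 * Real.sqrt (L ^ C0) *
          (ltK (hq q n) * Real.sqrt (hq q n) * (X / g)) *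
          Real.sqrt (4 * (1 + bq q) + 4 + 2 * (1 + bq q) / b + 1 / b) := by ring
      _ ≤ _ := h3
      _ ≤ (X : ℝ) ^ (τ / 20) * ((X : ℝ) ^ (τ / 32) * (X / g)) := by
          refine mul_le_mul g8 (mul_le_mul_of_nonneg_right h4' (by positivity)) ?_
            (Real.rpow_nonneg hXp.le _)
          have := ltK_nonneg (hq q n)
          positivity
  -- the two families
  obtain ⟨Qs, hQs⟩ : ∃ Qs : Finset ℕ, Qs = QQ.filter (fun q => (hq q n : ℝ) ≤ g) := ⟨_, rfl⟩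
  obtain ⟨Ql, hQl⟩ : ∃ Ql : Finset ℕ, Ql = QQ.filter (fun q => ¬ (hq q n : ℝ) ≤ g) := ⟨_, rfl⟩
  have hQs' : ∀ q ∈ Qs, q ∈ QQ ∧ (hq q n : ℝ) ≤ g := by
    intro q hqm
    rw [hQs] at hqm
    exact Finset.mem_filter.1 hqm
  have hQl' : ∀ q ∈ Ql, q ∈ QQ ∧ g ≤ (hq q n : ℝ) := by
    intro q hqm
    rw [hQl] at hqm
    obtain ⟨i1, i2⟩ := Finset.mem_filter.1 hqm
    exact ⟨i1, (not_le.1 i2).le⟩
  have hQsub : Qs ⊆ QQ := fun q hqm => (hQs' q hqm).1
  have hsplit : ∑ q ∈ QQ, ‖Bq X (bq q) σ n q (fun _ x => lam q x)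
      (f2f MM a (tp K (cq q c)) σ q)‖ ≤
      (∑ q ∈ Qs, 50 * C * L * L ^ C0 * L ^ C0 * (b * (ltK (hq q n) / Real.sqrt q *
        Real.sqrt (Zc q n K c σ (M * (bq q / X))) *
        (M + Real.sqrt (2 * M * (1 + b)) * Real.sqrt (hq q n))))) +
      (∑ _q ∈ Ql, (X : ℝ) ^ (τ / 20) * ((X : ℝ) ^ (τ / 32) * (X / g))) +
      ∑ _q ∈ QQ, 128 * C / (X : ℝ) ^ 3 := by
    rw [← Finset.sum_filter_add_sum_filter_not QQ (fun q => (hq q n : ℝ) ≤ g)
      (fun q => ‖Bq X (bq q) σ n q (fun _ x => lam q x) (f2f MM a (tp K (cq q c)) σ q)‖),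
      ← Finset.sum_filter_add_sum_filter_not QQ (fun q => (hq q n : ℝ) ≤ g)
      (fun q => 128 * C / (X : ℝ) ^ 3), ← hQs, ← hQl]
    have i1 := Finset.sum_le_sum fun q (hqm : q ∈ Qs) => hpers q (hQs' q hqm).1
    have i2 := Finset.sum_le_sum fun q (hqm : q ∈ Ql) =>
      hperl q (hQl' q hqm).1 (hQl' q hqm).2
    rw [Finset.sum_add_distrib] at i1 i2
    linarith
  refine hsplit.trans ?_
  -- the tail
  have hτ7 := lw_a7 τ hτ0 (by linarith)
  have hcard : (QQ.card : ℝ) ≤ X := by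
    have : QQ.card ≤ X := by
      calc QQ.card ≤ (Icc 1 X).card := Finset.card_le_card fun q hqm => Finset.mem_Icc.2 (hqq q hqm)
        _ = X := by simp
    exact_mod_cast this
  have hXτ : (1 : ℝ) ≤ X * (X : ℝ) ^ (-(τ ^ 2 / 1000)) := by
    have e1 : (X : ℝ) * (X : ℝ) ^ (-(τ ^ 2 / 1000)) = (X : ℝ) ^ (1 + -(τ ^ 2 / 1000)) := by
      rw [Real.rpow_add hXp, Real.rpow_one]
    rw [e1]
    exact Real.one_le_rpow hX1' (by linarith [hτ7])
  have htail : ∑ _q ∈ QQ, 128 * C / (X : ℝ) ^ 3 ≤ X * (X : ℝ) ^ (-(τ ^ 2 / 1000)) := by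
    refine le_trans ?_ hXτ
    rw [Finset.sum_const, nsmul_eq_mul]
    calc (QQ.card : ℝ) * (128 * C / (X : ℝ) ^ 3) ≤ X * (128 * C / (X : ℝ) ^ 3) :=
          mul_le_mul_of_nonneg_right hcard (by positivity)
      _ = 128 * C / X ^ 2 := by field_simp
      _ ≤ 1 := by
          rw [div_le_one (by positivity)]
          have : (X : ℝ) ≤ X ^ 2 := le_self_pow₀ hX1' (by norm_num)
          linarith
  -- the large `h`
  have hlarge : ∑ _q ∈ Ql, (X : ℝ) ^ (τ / 20) * ((X : ℝ) ^ (τ / 32) * (X / g)) ≤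
      X * (X : ℝ) ^ (-(τ ^ 2 / 1000)) := by
    rw [Finset.sum_const, nsmul_eq_mul]
    have i1 : (Ql.card : ℝ) ≤ (X : ℝ) ^ (e / 2) := by
      refine le_trans ?_ hcardQ
      exact_mod_cast Finset.card_le_card (fun q hqm => (hQl' q hqm).1)
    have i2 : X / g = (X : ℝ) ^ (1 - τ / 8) := by
      rw [hg, Real.rpow_sub hXp, Real.rpow_one]
    have i3 : 0 ≤ (X : ℝ) ^ (τ / 20) * ((X : ℝ) ^ (τ / 32) * (X / g)) := by positivity
    refine (mul_le_mul_of_nonneg_right i1 i3).trans ?_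
    rw [i2]
    have e1 : (X : ℝ) * (X : ℝ) ^ (-(τ ^ 2 / 1000)) = (X : ℝ) ^ (1 + -(τ ^ 2 / 1000)) := by
      rw [Real.rpow_add hXp, Real.rpow_one]
    rw [e1, ← Real.rpow_add hXp, ← Real.rpow_add hXp, ← Real.rpow_add hXp]
    exact Real.rpow_le_rpow_of_exponent_le hX1' (by linarith)
  -- the small `h`
  have hsum : ∑ q ∈ Qs, Zc q n K c σ (M * (bq q / X)) ≤
      (8 * 0 + X / (M * b)) * ((C' * (1 + L) ^ 3 * L ^ C0) * X / M) := by
    have hFs : Fam Qs N := ⟨fun q hqm => hFam.1 q (hQsub hqm),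
      fun q hqm q' hqm' => hFam.2 q (hQsub hqm) q' (hQsub hqm')⟩
    have hMb : M * b / X ≤ (X : ℝ) ^ (-(1 / 2) : ℝ) * L ^ A2 := by
      rw [div_le_iff₀ hXp]
      calc M * b ≤ (X : ℝ) ^ (1 / 2 : ℝ) * L ^ A2 :=
            mul_le_mul hM2 hbA2 hb0.le (Real.rpow_nonneg hXp.le _)
        _ = (X : ℝ) ^ (-(1 / 2) : ℝ) * L ^ A2 * X := by
            have e1 : (X : ℝ) ^ (1 / 2 : ℝ) = (X : ℝ) ^ (-(1 / 2) : ℝ) * X := by
              conv_rhs => rw [← Real.rpow_one (X : ℝ), ← Real.rpow_mul hXp.le,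
                ← Real.rpow_add hXp]
              norm_num
            rw [e1]
            ring
    have hMb0 : 0 ≤ M * b / X := by positivity
    have hX4 : 15 * L ^ A2 ≤ (X : ℝ) ^ (1 / 4 : ℝ) := by
      refine le_trans ?_ g6
      exact mul_le_mul_of_nonneg_left (pow_le_pow_right₀ hL1 (by omega)) (by norm_num)
    have hc15 : 15 * (M * b / X) ≤ 1 := by
      calc 15 * (M * b / X) ≤ 15 * ((X : ℝ) ^ (-(1 / 2) : ℝ) * L ^ A2) := by linarith
        _ = (X : ℝ) ^ (-(1 / 2) : ℝ) * (15 * L ^ A2) := by ring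
        _ ≤ (X : ℝ) ^ (-(1 / 2) : ℝ) * (X : ℝ) ^ (1 / 4 : ℝ) :=
            mul_le_mul_of_nonneg_left hX4 (Real.rpow_nonneg hXp.le _)
        _ = (X : ℝ) ^ (-(1 / 4) : ℝ) := by
            rw [← Real.rpow_add hXp]
            norm_num
        _ ≤ 1 := Real.rpow_le_one_of_one_le_of_nonpos hX1' (by norm_num)
    have hR : ∑ q ∈ Qs, (hq q n : ℝ) ≤ g * (X : ℝ) ^ (e / 2) := by
      calc ∑ q ∈ Qs, (hq q n : ℝ) ≤ ∑ _q ∈ Qs, g := Finset.sum_le_sum fun q hqm => (hQs' q hqm).2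
        _ = g * Qs.card := by rw [Finset.sum_const, nsmul_eq_mul, mul_comm]
        _ ≤ g * (X : ℝ) ^ (e / 2) := by
            refine mul_le_mul_of_nonneg_left ?_ hg0.le
            refine le_trans ?_ hcardQ
            exact_mod_cast Finset.card_le_card hQsub
    have hN41 : Real.sqrt N ≤ (X : ℝ) ^ (445 / 1000 : ℝ) := by
      rw [Real.sqrt_le_left (Real.rpow_nonneg hXp.le _)]
      have e1 : ((X : ℝ) ^ (445 / 1000 : ℝ)) ^ 2 = (X : ℝ) ^ (89 / 100 : ℝ) := by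
        rw [← Real.rpow_natCast, ← Real.rpow_mul hXp.le]
        norm_num
      rw [e1]
      refine le_trans ?_ hN82
      exact le_mul_of_one_le_right (by linarith) (by linarith)
    have hKM : (K : ℝ) * (15 * (M * b / X)) ≤ 15 * L ^ A2 := by
      calc (K : ℝ) * (15 * (M * b / X)) = 15 * b * (M * K / X) := by ring
        _ ≤ 15 * b * 1 := by
            refine mul_le_mul_of_nonneg_left ?_ (by positivity)
            rw [div_le_one hXp]
            exact hMKX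
        _ ≤ 15 * L ^ A2 := by linarith
    have hcond : C' * (g * (X : ℝ) ^ (e / 2)) * (1 + K * (15 * (M * b / X))) * Real.sqrt N *
        (X : ℝ) ^ (1 / 1000 : ℝ) * (1 + Real.log X) * (15 * (M * b / X)) ≤ 1 := by
      rw [← hL]
      have j1 : 1 + (K : ℝ) * (15 * (M * b / X)) ≤ 16 * L ^ A2 := by linarith [p1 A2]
      have j2 : 1 + L ≤ 2 * L := by linarith
      have j3 : 15 * (M * b / X) ≤ 15 * ((X : ℝ) ^ (-(1 / 2) : ℝ) * L ^ A2) := by linarith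
      have u1 : 0 ≤ (X : ℝ) ^ (e / 2) := Real.rpow_nonneg hXp.le _
      have u2 : 0 ≤ (X : ℝ) ^ (1 / 1000 : ℝ) := Real.rpow_nonneg hXp.le _
      have u3 : 0 ≤ (X : ℝ) ^ (445 / 1000 : ℝ) := Real.rpow_nonneg hXp.le _
      have u4 : 0 ≤ (X : ℝ) ^ (-(1 / 2) : ℝ) := Real.rpow_nonneg hXp.le _
      calc C' * (g * (X : ℝ) ^ (e / 2)) * (1 + K * (15 * (M * b / X))) * Real.sqrt N *
            (X : ℝ) ^ (1 / 1000 : ℝ) * (1 + L) * (15 * (M * b / X)) ≤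
          C' * (g * (X : ℝ) ^ (e / 2)) * (16 * L ^ A2) * (X : ℝ) ^ (445 / 1000 : ℝ) *
            (X : ℝ) ^ (1 / 1000 : ℝ) * (2 * L) * (15 * ((X : ℝ) ^ (-(1 / 2) : ℝ) * L ^ A2)) := by
            refine mul_le_mul (mul_le_mul (mul_le_mul_of_nonneg_right (mul_le_mul
              (mul_le_mul_of_nonneg_left j1 (by positivity)) hN41 (Real.sqrt_nonneg _)
              (by positivity)) u2) j2 (by positivity) (by positivity)) j3 (by positivity)
              (by positivity)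
        _ = (480 * C' * L ^ (2 * A2 + 1)) * (g * (X : ℝ) ^ (e / 2) * (X : ℝ) ^ (445 / 1000 : ℝ) *
            (X : ℝ) ^ (1 / 1000 : ℝ) * (X : ℝ) ^ (-(1 / 2) : ℝ)) := by
            rw [pow_add, pow_mul, pow_one]
            ring
        _ ≤ (X : ℝ) ^ (1 / 100 : ℝ) * (g * (X : ℝ) ^ (e / 2) * (X : ℝ) ^ (445 / 1000 : ℝ) *
            (X : ℝ) ^ (1 / 1000 : ℝ) * (X : ℝ) ^ (-(1 / 2) : ℝ)) :=
            mul_le_mul_of_nonneg_right g7 (by positivity)
        _ = (X : ℝ) ^ (1 / 100 + (τ / 8 + e / 2 + 445 / 1000 + 1 / 1000 + -(1 / 2)) : ℝ) := by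
            rw [hg, ← Real.rpow_add hXp, ← Real.rpow_add hXp, ← Real.rpow_add hXp,
              ← Real.rpow_add hXp, ← Real.rpow_add hXp]
        _ ≤ 1 := Real.rpow_le_one_of_one_le_of_nonpos hX1' (by linarith)
    have h2 := h1' X Qs N (by omega) hFs hNX n (g * (X : ℝ) ^ (e / 2))
      ((X : ℝ) ^ (1 / 1000 : ℝ)) hR (Real.one_le_rpow hX1' (by norm_num))
      (by
        intro m hm hmN
        have := g5 m hm (by rw [pow_one]; linarith)
        rwa [pow_one] at this)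
      K c M b σ bq hσ hM0 hb0 (fun q hqm => hbq q (hQsub hqm)) hc15 hcond
    refine h2.trans ?_
    rw [← hL]
    calc X / (2 * M * b) * (C' * (1 + L) ^ 3 * ∑ k ∈ Icc 1 K, ‖c k‖ ^ 2) ≤
          X / (M * b) * (C' * (1 + L) ^ 3 * (L ^ C0 * X / M)) := by
          refine mul_le_mul ?_ (mul_le_mul_of_nonneg_left hc (by positivity)) ?_ (by positivity)
          · refine div_le_div_of_nonneg_left hXp.le (by positivity) ?_
            have := mul_pos hM0 hb0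
            linarith
          · exact mul_nonneg (by positivity) (Finset.sum_nonneg fun k _ => by positivity)
      _ = _ := by ring
  have hZ0 : ∀ q ∈ Qs, 0 ≤ Zc q n K c σ (M * (bq q / X)) := by
    intro q hqm
    have := (hbq q (hQsub hqm)).1
    refine Zc_nonneg q n K c σ _ ?_
    have : 0 < bq q := by linarith
    positivity
  have hcs := lt_cs Qs (fun q => ltK (hq q n)) (fun q => (hq q n : ℝ))
    (fun q => Zc q n K c σ (M * (bq q / X))) M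
    (Real.sqrt (2 * M * (1 + b))) (fun q _ => Nat.cast_nonneg _) hZ0 (by linarith)
    (Real.sqrt_nonneg _)
  have hU1 : ∑ q ∈ Qs, ltK (hq q n) ^ 2 / q ≤ D4 * Y := by
    rw [hY, Finset.mul_sum]
    refine le_trans ?_ (Finset.sum_le_sum_of_subset_of_nonneg hQsub fun q _ _ => by positivity)
    refine Finset.sum_le_sum fun q hqm' => ?_
    have hqm := hQsub hqm'
    have hq0 : (0 : ℝ) < q := by exact_mod_cast (hqq q hqm).1
    calc ltK (hq q n) ^ 2 / q ≤ D4 * (1 / (hq q n : ℝ) ^ (1 / 4 : ℝ)) / q :=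
          div_le_div_of_nonneg_right (h4 _ (hh1 q hqm).1) hq0.le
      _ = D4 * (1 / ((q : ℝ) * (hq q n : ℝ) ^ (1 / 4 : ℝ))) := by
          rw [mul_div_assoc, div_div, mul_comm ((hq q n : ℝ) ^ (1 / 4 : ℝ))]
  have hU2 : ∑ q ∈ Qs, ltK (hq q n) ^ 2 * (hq q n : ℝ) / q ≤ g ^ 2 := by
    have h5 : ∀ q ∈ Qs, ltK (hq q n) ^ 2 * (hq q n : ℝ) / q ≤
        (X : ℝ) ^ (τ / 16) * (1 / (q : ℝ)) := by
      intro q hqm'
      have hqm := hQsub hqm'
      have hq0 : (0 : ℝ) < q := by exact_mod_cast (hqq q hqm).1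
      rw [mul_one_div]
      exact div_le_div_of_nonneg_right (hκh q hqm) hq0.le
    calc ∑ q ∈ Qs, ltK (hq q n) ^ 2 * (hq q n : ℝ) / q ≤
          ∑ q ∈ Qs, (X : ℝ) ^ (τ / 16) * (1 / (q : ℝ)) := Finset.sum_le_sum h5
      _ = (X : ℝ) ^ (τ / 16) * ∑ q ∈ Qs, 1 / (q : ℝ) := by rw [Finset.mul_sum]
      _ ≤ (X : ℝ) ^ (τ / 16) * (X : ℝ) ^ (τ / 16) := by
          refine mul_le_mul_of_nonneg_left ?_ (Real.rpow_nonneg hXp.le _)
          have := lamj_harm X Qs (fun q hqm => hqq q (hQsub hqm))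
          rw [← hL] at this
          linarith
      _ = g := hgg
      _ ≤ g ^ 2 := le_self_pow₀ hg1 (by norm_num)
  have hLp : 0 ≤ C' * (1 + L) ^ 3 * L ^ C0 := by positivity
  have hnum := lamj_num g X b 0 M (C' * (1 + L) ^ 3 * L ^ C0) (∑ q ∈ Qs, ltK (hq q n) ^ 2 / q)
    (∑ q ∈ Qs, ltK (hq q n) ^ 2 * (hq q n : ℝ) / q)
    (∑ q ∈ Qs, Zc q n K c σ (M * (bq q / X))) Y D4 hg1 hXp hb0 le_rfl
    hMy (by simpa using hXp.le) hLp hY0 (Finset.sum_nonneg hZ0) hsum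
    (Finset.sum_nonneg fun q _ => by positivity) hU1 (Finset.sum_nonneg fun q _ => by positivity)
    hU2 hD4
  have hfin := (mul_le_mul_of_nonneg_left hcs hb0.le).trans hnum
  have hsmall : ∑ q ∈ Qs, 50 * C * L * L ^ C0 * L ^ C0 * (b * (ltK (hq q n) / Real.sqrt q *
        Real.sqrt (Zc q n K c σ (M * (bq q / X))) *
        (M + Real.sqrt (2 * M * (1 + b)) * Real.sqrt (hq q n)))) ≤
      L ^ (4 + 3 * C0 + A2) * (X * (Real.sqrt Y + 1 / g)) := by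
    rw [← Finset.mul_sum, ← Finset.mul_sum]
    refine (mul_le_mul_of_nonneg_left hfin (by positivity)).trans ?_
    have h5 := lw_const2 C C' D4 L b (X * (Real.sqrt Y + 1 / g)) A2 C0 hC hC' hD4 hL1 hb0 hbA2
      (by have := Real.sqrt_nonneg Y; positivity) g10
    refine le_trans (le_of_eq ?_) h5
    ring
  have em : 1 / g ≤ (X : ℝ) ^ (-(τ ^ 2 / 1000)) := by
    rw [hg, one_div, ← Real.rpow_neg hXp.le]
    exact Real.rpow_le_rpow_of_exponent_le hX1' (by linarith)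
  have hT0 : 0 < (X : ℝ) ^ (-(τ ^ 2 / 1000)) := Real.rpow_pos_of_pos hXp _
  obtain ⟨T, hT⟩ : ∃ T : ℝ, T = (X : ℝ) ^ (-(τ ^ 2 / 1000)) := ⟨_, rfl⟩
  rw [← hT] at htail hlarge em hT0 ⊢
  have hsY := Real.sqrt_nonneg Y
  have hp : L ^ (4 + 3 * C0 + A2) * L ≤ L ^ (5 * (C0 + A2 + 1)) := by
    rw [← pow_succ]
    exact pow_le_pow_right₀ hL1 (by omega)
  have hXT : 0 ≤ X * (Real.sqrt Y + T) := by positivity
  have hbig : (L ^ (4 + 3 * C0 + A2) + 2) * (X * (Real.sqrt Y + T)) ≤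
      L ^ (5 * (C0 + A2 + 1)) * (X * (Real.sqrt Y + T)) := by
    refine mul_le_mul_of_nonneg_right ?_ hXT
    refine le_trans ?_ hp
    exact lw_a9 _ _ (p1 (4 + 3 * C0 + A2)) g9
  have hs2 : L ^ (4 + 3 * C0 + A2) * (X * (Real.sqrt Y + 1 / g)) ≤
      L ^ (4 + 3 * C0 + A2) * (X * (Real.sqrt Y + T)) :=
    mul_le_mul_of_nonneg_left (mul_le_mul_of_nonneg_left (by linarith) hXp.le) (by positivity)
  have hs3 : X * T ≤ X * (Real.sqrt Y + T) := mul_le_mul_of_nonneg_left (by linarith) hXp.le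
  calc _ ≤ L ^ (4 + 3 * C0 + A2) * (X * (Real.sqrt Y + 1 / g)) + X * T + X * T :=
        add_le_add (add_le_add hsmall hlarge) htail
    _ ≤ (L ^ (4 + 3 * C0 + A2) + 2) * (X * (Real.sqrt Y + T)) := by linarith
    _ ≤ L ^ (5 * (C0 + A2 + 1)) * (X * (Real.sqrt Y + T)) := hbig
    _ = _ := by ring

end Pool.MP_dd84fd_nt.LXP
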