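import Pool.Agent.Lib.MP_dd84fd_nt.JX.PlDefs
import Pool.Agent.Lib.MP_dd84fd_nt.LX.Defs

/-!
# Theorem L, PL_L: definitions

`BlkW`: a wide type II block, `X^τ/2 ≤ M ≤ X^(1/2)`, with pointwise bounds.  Everything else (`StdJ`, `BlkJ`, `cA`, `WJa`, `T1j`, `T2j`)
as in `JX/PlDefs.lean`.  `TwoTwoW`: wide block against narrow block; `LamTwoW`: a function independent of `a` against a wide block;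
all constants absorbed in `X0`.
-/

set_option autoImplicit false

namespace Pool.MP_dd84fd_nt.LXP

open Finset Pool.MP_67663b_nt.Odd Pool.MP_dd84fd_nt.PL Pool.MP_dd84fd_nt.HX Pool.MP_dd84fd_nt.HXP
open Pool.MP_dd84fd_nt.JX (Adm)
open Pool.MP_dd84fd_nt.JXP

/-- a wide type II block: `m ∈ MM ⊆ (M, 2M]`, `|a_m|, |c_k| ≤ Am`, `m K ≤ X`, `∑_{k ≤ K} |c_k|² ≤ S X / M` -/
def BlkW (X : ℕ) (τ M : ℝ) (K : ℕ) (MM : Finset ℕ) (a c : ℕ → ℂ) (Am S : ℝ) : Prop :=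
  (X : ℝ) ^ τ / 2 ≤ M ∧ M ≤ (X : ℝ) ^ (1 / 2 : ℝ) ∧ K ≤ X ∧
    (∀ m ∈ MM, M < (m : ℝ) ∧ (m : ℝ) ≤ 2 * M) ∧ (∀ m ∈ MM, ‖a m‖ ≤ Am) ∧
    (∀ k, ‖c k‖ ≤ Am) ∧ (∀ m ∈ MM, m * K ≤ X) ∧
    ∑ k ∈ Icc 1 K, ‖c k‖ ^ 2 ≤ S * X / M

/-- a wide block against a narrow block -/
def TwoTwoW : Prop := ∃ k : ℕ, ∀ (C0 : ℕ) (th e τ : ℝ) (A1 : ℕ), Adm th e τ → ∃ X0 : ℕ,
  ∀ X : ℕ, X0 ≤ X → ∀ (n : ℕ) (b N σ : ℝ) (QQ : Finset ℕ) (bq : ℕ → ℝ),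
  StdJ X n th e A1 b N σ QQ bq → ∀ H : ℝ, 1 ≤ H → (∀ q ∈ QQ, H ≤ (hq q n : ℝ) * (1 + b)) →
  ∀ (M1 M2 : ℝ) (K1 K2 : ℕ) (MM1 MM2 : Finset ℕ) (a1 a2 c1 c2 : ℕ → ℂ),
  BlkW X τ M1 K1 MM1 a1 c1 ((Real.log X) ^ C0) ((Real.log X) ^ C0) →
  BlkJ X th e τ M2 K2 MM2 a2 c2 ((Real.log X) ^ C0) ((Real.log X) ^ C0) →
  ∑ q ∈ QQ, ‖Bq X (bq q) σ n q (f2f MM1 a1 (tp K1 (cq q c1)) σ q)
      (f2f MM2 a2 (tp K2 (cq q c2)) σ q)‖ ≤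
    (Real.log X) ^ (k * (C0 + 1)) * X * (H ^ (-(1 / 4) : ℝ) + (X : ℝ) ^ (-(τ ^ 2 / 1000)))

/-- a function independent of `a` against a wide block -/
def LamTwoW : Prop := ∃ k : ℕ, ∀ (C0 A2 : ℕ) (th e τ : ℝ) (A1 : ℕ), Adm th e τ → ∃ X0 : ℕ,
  ∀ X : ℕ, X0 ≤ X → ∀ (n : ℕ) (b N σ : ℝ) (QQ : Finset ℕ) (bq : ℕ → ℝ),
  StdJ X n th e A1 b N σ QQ bq → b ≤ (Real.log X) ^ A2 →
  ∀ (lam : ℕ → ℝ → ℂ), (∀ q, Continuous (lam q)) →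
  (∀ q ∈ QQ, ∀ x, ‖lam q x‖ ≤ (Real.log X) ^ C0 * X / q) →
  ∀ (M : ℝ) (K : ℕ) (MM : Finset ℕ) (a c : ℕ → ℂ),
  BlkW X τ M K MM a c ((Real.log X) ^ C0) ((Real.log X) ^ C0) →
  ∑ q ∈ QQ, ‖Bq X (bq q) σ n q (fun _ x => lam q x) (f2f MM a (tp K (cq q c)) σ q)‖ ≤
    (Real.log X) ^ (k * (C0 + A2 + 1)) * X *
      (Real.sqrt (∑ q ∈ QQ, 1 / ((q : ℝ) * (hq q n : ℝ) ^ (1 / 4 : ℝ))) +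
        (X : ℝ) ^ (-(τ ^ 2 / 1000)))

end Pool.MP_dd84fd_nt.LXP
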