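import Pool.Agent.Lib.MP_dd84fd_nt.JX.PlTwo
import Pool.Agent.Lib.MP_dd84fd_nt.LX.PlDefs
import Pool.Agent.Lib.MP_dd84fd_nt.HX.PlArc

/-!
# PL_L-L2: the `L²` norm of a block on the arcs

`f2f MM a (tp K (cq q c)) σ q a' x = tp X (cq q w) (a'/q + σx)`, `w n = ∑_{m ∣ n, m ∈ MM, n/m ≤ K} a m c (n/m)` (`alg_II` is the real version,
`HXP`), `‖w n‖ ≤ Am² τ(n)`, `∑_{n ≤ X} τ(n)² ≤ X (1 + log X)^3`, `N2_tpc`.
-/

set_option autoImplicit false

namespace Pool.MP_dd84fd_nt.LXP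

open Finset Pool.MP_67663b_nt.Odd Pool.MP_dd84fd_nt.PL Pool.MP_dd84fd_nt.HX Pool.MP_dd84fd_nt.HXP
open Pool.MP_dd84fd_nt.JXP

private theorem wl_mult (d t : ℕ) (hd : 0 < d) (F : ℕ → ℂ) :
    ∑ n ∈ (Icc 1 t).filter (fun n => d ∣ n), F n = ∑ k ∈ Icc 1 (t / d), F (d * k) := by
  symm
  refine sum_bij (fun k _ => d * k) ?_ ?_ ?_ ?_
  · intro k hk
    rw [mem_Icc] at hk
    rw [mem_filter, mem_Icc]
    refine ⟨⟨Nat.mul_pos hd hk.1, ?_⟩, dvd_mul_right d k⟩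
    calc d * k ≤ d * (t / d) := Nat.mul_le_mul_left d hk.2
      _ ≤ t := Nat.mul_div_le t d
  · intro k _ k' _ h
    exact Nat.eq_of_mul_eq_mul_left hd h
  · intro n hn
    rw [mem_filter, mem_Icc] at hn
    obtain ⟨k, rfl⟩ := hn.2
    refine ⟨k, ?_, rfl⟩
    rw [mem_Icc]
    constructor
    · exact Nat.pos_of_mul_pos_left hn.1.1
    · rw [Nat.le_div_iff_mul_le hd, mul_comm]
      exact hn.1.2
  · intro k _
    rfl

/-- the coefficients of a block -/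
private noncomputable def wl_w (K : ℕ) (MM : Finset ℕ) (a c : ℕ → ℂ) (n : ℕ) : ℂ :=
  ∑ m ∈ MM.filter (fun m => m ∣ n), (if n / m ≤ K then a m * c (n / m) else 0)

private theorem wl_alg (X q K : ℕ) (MM : Finset ℕ) (a c : ℕ → ℂ)
    (hM0 : ∀ m ∈ MM, 1 ≤ m) (hK : ∀ m ∈ MM, m * K ≤ X) (θ : ℝ) :
    tp X (cq q (wl_w K MM a c)) θ =
      ∑ m ∈ MM.filter (fun m => Nat.Coprime m q), a m * tp K (cq q c) ((m : ℝ) * θ) := by
  classical
  have h1 : ∀ n ∈ Icc 1 X, cq q (wl_w K MM a c) n * ee ((n : ℝ) * θ) =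
      ∑ m ∈ MM, if m ∣ n then (if Nat.Coprime n q then (if n / m ≤ K then
        a m * (c (n / m) * ee ((n : ℝ) * θ)) else 0) else 0) else 0 := by
    intro n hn
    unfold cq wl_w
    by_cases hc : Nat.Coprime n q
    · simp only [if_pos hc]
      rw [Finset.sum_mul, sum_filter]
      refine sum_congr rfl fun m _ => ?_
      split_ifs
      · ring
      · ring
      · rfl
    · simp only [if_neg hc, zero_mul, ite_self, sum_const_zero]
  unfold tp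
  rw [sum_congr rfl h1, sum_comm, sum_filter]
  refine sum_congr rfl fun m hm => ?_
  have hm1 := hM0 m hm
  rw [← sum_filter, wl_mult m X hm1]
  by_cases hc : Nat.Coprime m q
  · rw [if_pos hc]
    have hKX : K ≤ X / m := by
      rw [Nat.le_div_iff_mul_le hm1, mul_comm]
      exact hK m hm
    rw [mul_sum]
    symm
    have h4 : ∀ k ∈ Icc 1 K, a m * (cq q c k * ee ((k : ℝ) * ((m : ℝ) * θ))) =
        (if Nat.Coprime (m * k) q then
        (if m * k / m ≤ K then a m * (c (m * k / m) *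
          ee (((m * k : ℕ) : ℝ) * θ)) else 0) else 0) := by
      intro k hk
      rw [Nat.mul_div_cancel_left k hm1, if_pos (mem_Icc.1 hk).2]
      unfold cq
      by_cases hk2 : Nat.Coprime k q
      · rw [if_pos hk2, if_pos (Nat.Coprime.mul_left hc hk2)]
        have h5 : (k : ℝ) * ((m : ℝ) * θ) = ((m * k : ℕ) : ℝ) * θ := by
          push_cast
          ring
        rw [h5]
      · rw [if_neg hk2, if_neg (fun h => hk2 (Nat.Coprime.coprime_mul_left h))]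
        simp
    rw [sum_congr rfl h4]
    refine sum_subset (Finset.Icc_subset_Icc_right hKX) ?_
    intro k _ hk'
    have hk2 : ¬ k ≤ K := by
      intro hcon
      apply hk'
      rw [mem_Icc] at *
      omega
    rw [Nat.mul_div_cancel_left k hm1, if_neg hk2, ite_self]
  · rw [if_neg hc]
    refine sum_eq_zero fun k _ => ?_
    rw [if_neg (fun h => hc (Nat.Coprime.coprime_mul_right h))]

private theorem wl_harm (x : ℕ) : ∑ j ∈ Icc 1 x, 1 / (j : ℝ) ≤ 1 + Real.log x := by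
  have h := harmonic_le_one_add_log x
  rw [harmonic_eq_sum_Icc] at h
  push_cast at h
  simpa [one_div] using h

/-- the number of common multiples -/
private theorem wl_cnt (X d e : ℕ) (hd : 1 ≤ d) (he : 1 ≤ e) :
    ((((Icc 1 X).filter (fun n => d ∣ n ∧ e ∣ n)).card : ℕ) : ℝ) ≤
      X * (1 / (Nat.gcd d e : ℝ) * (1 / ((d / Nat.gcd d e : ℕ) : ℝ) *
        (1 / ((e / Nat.gcd d e : ℕ) : ℝ)))) := by
  have hg : 0 < Nat.gcd d e := Nat.gcd_pos_of_pos_left e hd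
  have hl : 0 < Nat.lcm d e := Nat.lcm_pos hd he
  have h1 : ((Icc 1 X).filter (fun n => d ∣ n ∧ e ∣ n)) =
      (Ioc 0 X).filter (fun n => Nat.lcm d e ∣ n) := by
    ext n
    simp only [mem_filter, mem_Icc, mem_Ioc, Nat.lcm_dvd_iff]
    constructor
    · rintro ⟨⟨h2, h3⟩, h4⟩
      exact ⟨⟨by omega, h3⟩, h4⟩
    · rintro ⟨⟨h2, h3⟩, h4⟩
      exact ⟨⟨by omega, h3⟩, h4⟩
  rw [h1, Nat.Ioc_filter_dvd_card_eq_div]
  have h2 : Nat.lcm d e = Nat.gcd d e * ((d / Nat.gcd d e) * (e / Nat.gcd d e)) := by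
    obtain ⟨u, hu⟩ := Nat.gcd_dvd_left d e
    obtain ⟨v, hv⟩ := Nat.gcd_dvd_right d e
    have h3 : d / Nat.gcd d e = u := Nat.div_eq_of_eq_mul_right hg hu
    have h4 : e / Nat.gcd d e = v := Nat.div_eq_of_eq_mul_right hg hv
    rw [h3, h4]
    have h5 := Nat.gcd_mul_lcm d e
    have h6 : Nat.gcd d e * Nat.lcm d e = Nat.gcd d e * (Nat.gcd d e * (u * v)) := by
      rw [h5]
      calc d * e = (Nat.gcd d e * u) * (Nat.gcd d e * v) := by rw [← hu, ← hv]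
        _ = _ := by ring
    exact Nat.eq_of_mul_eq_mul_left hg h6
  refine (Nat.cast_div_le).trans (le_of_eq ?_)
  rw [h2]
  push_cast
  rw [div_eq_mul_one_div, one_div_mul_one_div, one_div_mul_one_div]

/-- second moment of the divisor function -/
private theorem wl_tau (X : ℕ) :
    ∑ n ∈ Icc 1 X, (n.divisors.card : ℝ) ^ 2 ≤ X * (1 + Real.log X) ^ 3 := by
  classical
  have h1 : ∀ n ∈ Icc 1 X, (n.divisors.card : ℝ) ^ 2 =
      ∑ p ∈ Icc 1 X ×ˢ Icc 1 X, if p.1 ∣ n ∧ p.2 ∣ n then (1 : ℝ) else 0 := by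
    intro n hn
    rw [mem_Icc] at hn
    have h2 : (n.divisors.card : ℝ) = ∑ d ∈ Icc 1 X, if d ∣ n then (1 : ℝ) else 0 := by
      rw [← sum_filter, sum_const, nsmul_eq_mul, mul_one]
      congr 2
      ext d
      rw [Nat.mem_divisors, mem_filter, mem_Icc]
      constructor
      · rintro ⟨h3, h4⟩
        exact ⟨⟨Nat.pos_of_dvd_of_pos h3 (by omega), (Nat.le_of_dvd (by omega) h3).trans hn.2⟩, h3⟩
      · rintro ⟨h3, h4⟩
        exact ⟨h4, by omega⟩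
    rw [h2, sq, sum_mul_sum, ← sum_product']
    refine sum_congr rfl fun p _ => ?_
    by_cases h3 : p.1 ∣ n
    · by_cases h4 : p.2 ∣ n
      · rw [if_pos h3, if_pos h4, if_pos ⟨h3, h4⟩, mul_one]
      · have h5 : ¬ (p.1 ∣ n ∧ p.2 ∣ n) := fun h => h4 h.2
        rw [if_neg h4, if_neg h5, mul_zero]
    · have h5 : ¬ (p.1 ∣ n ∧ p.2 ∣ n) := fun h => h3 h.1
      rw [if_neg h3, if_neg h5, zero_mul]
  rw [sum_congr rfl h1, sum_comm]
  have h3 : ∀ p ∈ Icc 1 X ×ˢ Icc 1 X, (∑ n ∈ Icc 1 X, if p.1 ∣ n ∧ p.2 ∣ n then (1 : ℝ) else 0) ≤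
      X * (fun t : ℕ × ℕ × ℕ => 1 / (t.1 : ℝ) * (1 / (t.2.1 : ℝ) * (1 / (t.2.2 : ℝ))))
        (Nat.gcd p.1 p.2, p.1 / Nat.gcd p.1 p.2, p.2 / Nat.gcd p.1 p.2) := by
    intro p hp
    rw [mem_product, mem_Icc, mem_Icc] at hp
    rw [← sum_filter, sum_const, nsmul_eq_mul, mul_one]
    exact wl_cnt X p.1 p.2 hp.1.1 hp.2.1
  refine (sum_le_sum h3).trans ?_
  rw [← mul_sum]
  refine mul_le_mul_of_nonneg_left ?_ (Nat.cast_nonneg _)
  have hinj : Set.InjOn (fun p : ℕ × ℕ => (Nat.gcd p.1 p.2, p.1 / Nat.gcd p.1 p.2,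
      p.2 / Nat.gcd p.1 p.2)) ((Icc 1 X ×ˢ Icc 1 X : Finset (ℕ × ℕ)) : Set (ℕ × ℕ)) := by
    rintro ⟨a, b⟩ _ ⟨a', b'⟩ _ h
    simp only [Prod.mk.injEq] at h
    obtain ⟨h4, h5, h6⟩ := h
    have e1 := Nat.mul_div_cancel' (Nat.gcd_dvd_left a b)
    have e2 := Nat.mul_div_cancel' (Nat.gcd_dvd_right a b)
    have e3 := Nat.mul_div_cancel' (Nat.gcd_dvd_left a' b')
    have e4 := Nat.mul_div_cancel' (Nat.gcd_dvd_right a' b')
    rw [h5, h4] at e1
    rw [h6, h4] at e2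
    exact Prod.ext (e1.symm.trans e3) (e2.symm.trans e4)
  rw [← sum_image (f := fun t : ℕ × ℕ × ℕ => 1 / (t.1 : ℝ) * (1 / (t.2.1 : ℝ) *
    (1 / (t.2.2 : ℝ)))) hinj]
  have hsub : (Icc 1 X ×ˢ Icc 1 X).image (fun p : ℕ × ℕ => (Nat.gcd p.1 p.2,
      p.1 / Nat.gcd p.1 p.2, p.2 / Nat.gcd p.1 p.2)) ⊆ Icc 1 X ×ˢ (Icc 1 X ×ˢ Icc 1 X) := by
    intro t ht
    rw [mem_image] at ht
    obtain ⟨p, hp, rfl⟩ := ht
    rw [mem_product, mem_Icc, mem_Icc] at hp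
    obtain ⟨⟨p1, p2⟩, p3, p4⟩ := hp
    have hg : 0 < Nat.gcd p.1 p.2 := Nat.gcd_pos_of_pos_left p.2 p1
    rw [mem_product, mem_product, mem_Icc, mem_Icc, mem_Icc]
    refine ⟨⟨hg, (Nat.le_of_dvd p1 (Nat.gcd_dvd_left _ _)).trans p2⟩, ⟨?_, ?_⟩, ?_, ?_⟩
    · exact Nat.div_pos (Nat.le_of_dvd p1 (Nat.gcd_dvd_left _ _)) hg
    · exact (Nat.div_le_self _ _).trans p2
    · exact Nat.div_pos (Nat.le_of_dvd p3 (Nat.gcd_dvd_right _ _)) hg
    · exact (Nat.div_le_self _ _).trans p4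
  refine (sum_le_sum_of_subset_of_nonneg hsub fun t _ _ => by positivity).trans ?_
  have h4 : ∑ t ∈ Icc 1 X ×ˢ (Icc 1 X ×ˢ Icc 1 X), (1 / (t.1 : ℝ) * (1 / (t.2.1 : ℝ) *
      (1 / (t.2.2 : ℝ)))) = (∑ j ∈ Icc 1 X, 1 / (j : ℝ)) ^ 3 := by
    rw [sum_product]
    simp only [sum_product]
    have : ∀ x : ℕ, ∑ y ∈ Icc 1 X, ∑ z ∈ Icc 1 X, 1 / (x : ℝ) * (1 / (y : ℝ) * (1 / (z : ℝ))) =
        1 / (x : ℝ) * (∑ j ∈ Icc 1 X, 1 / (j : ℝ)) ^ 2 := by
      intro x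
      rw [sq, sum_mul_sum, mul_sum]
      refine sum_congr rfl fun y _ => ?_
      rw [mul_sum]
    simp only [this]
    rw [← sum_mul]
    ring
  rw [h4]
  exact pow_le_pow_left₀ (sum_nonneg fun j _ => by positivity) (wl_harm X) 3

theorem blk_N2 : ∃ C : ℝ, 0 < C ∧ ∀ (X : ℕ) (b N σ τ : ℝ) (QQ : Finset ℕ) (bq : ℕ → ℝ), 2 ≤ X →
    0 < b → 1 ≤ N → N * b ≤ X → N ≤ X → (σ = 1 ∨ σ = -1) → Fam QQ N →
    (∀ q ∈ QQ, b ≤ bq q ∧ bq q ≤ 2 * b) →
    ∀ (M Am S : ℝ) (K : ℕ) (MM : Finset ℕ) (a c : ℕ → ℂ), 0 ≤ Am → BlkW X τ M K MM a c Am S →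
    N2 X bq QQ (fun q => f2f MM a (tp K (cq q c)) σ q) ≤
      C * Am ^ 4 * X * (1 + Real.log X) ^ 5 := by
  refine ⟨12, by norm_num, ?_⟩
  intro X b N σ τ QQ bq hX hb hN1 hNb hNX hσ hF hbq M Am S K MM a c hAm hblk
  obtain ⟨hM1, -, -, hMM, ha, hc, hK, -⟩ := hblk
  have hX0 : (0 : ℝ) < X := by exact_mod_cast (by omega : 0 < X)
  have hM0 : ∀ m ∈ MM, 1 ≤ m := by
    intro m hm
    have h1 : 0 < (X : ℝ) ^ τ := Real.rpow_pos_of_pos hX0 _
    have h2 := (hMM m hm).1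
    have h3 : (0 : ℝ) < m := by linarith
    exact_mod_cast h3
  have e1 : (fun q => f2f MM a (tp K (cq q c)) σ q) =
      (fun (q a' : ℕ) (x : ℝ) => tp X (cq q (wl_w K MM a c)) ((a' : ℝ) / q + σ * x)) := by
    funext q a' x
    rw [wl_alg X q K MM a c hM0 hK]
    rfl
  rw [e1]
  refine (N2_tpc X (by omega) b N σ hb hN1 hNb hσ QQ hF bq hbq X (wl_w K MM a c)).trans ?_
  have hw : ∀ n ∈ Icc 1 X, ‖wl_w K MM a c n‖ ^ 2 ≤ Am ^ 4 * (n.divisors.card : ℝ) ^ 2 := by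
    intro n hn
    rw [mem_Icc] at hn
    have h1 : ‖wl_w K MM a c n‖ ≤ (n.divisors.card : ℝ) * (Am * Am) := by
      unfold wl_w
      calc _ ≤ ∑ m ∈ MM.filter (fun m => m ∣ n), ‖(if n / m ≤ K then a m * c (n / m) else 0)‖ :=
            norm_sum_le _ _
        _ ≤ ∑ m ∈ MM.filter (fun m => m ∣ n), Am * Am := by
            refine sum_le_sum fun m hm => ?_
            rw [mem_filter] at hm
            split_ifs
            · rw [norm_mul]
              exact mul_le_mul (ha m hm.1) (hc _) (norm_nonneg _) hAm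
            · rw [norm_zero]
              positivity
        _ = ((MM.filter (fun m => m ∣ n)).card : ℝ) * (Am * Am) := by
            rw [sum_const, nsmul_eq_mul]
        _ ≤ _ := by
            refine mul_le_mul_of_nonneg_right ?_ (by positivity)
            have : (MM.filter (fun m => m ∣ n)).card ≤ n.divisors.card := by
              refine card_le_card fun m hm => ?_
              rw [mem_filter] at hm
              exact Nat.mem_divisors.2 ⟨hm.2, by omega⟩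
            exact_mod_cast this
    calc ‖wl_w K MM a c n‖ ^ 2 ≤ ((n.divisors.card : ℝ) * (Am * Am)) ^ 2 :=
          pow_le_pow_left₀ (norm_nonneg _) h1 2
      _ = _ := by ring
  have hs : ∑ n ∈ Icc 1 X, ‖wl_w K MM a c n‖ ^ 2 ≤ Am ^ 4 * (X * (1 + Real.log X) ^ 3) := by
    refine (sum_le_sum hw).trans ?_
    rw [← mul_sum]
    exact mul_le_mul_of_nonneg_left (wl_tau X) (by positivity)
  have hlN : 0 ≤ Real.log N := Real.log_nonneg hN1
  have hl : Real.log N ≤ Real.log X := Real.log_le_log (by linarith) hNX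
  calc 12 * (1 + Real.log N) ^ 2 * ∑ n ∈ Icc 1 X, ‖wl_w K MM a c n‖ ^ 2
      ≤ 12 * (1 + Real.log X) ^ 2 * (Am ^ 4 * (X * (1 + Real.log X) ^ 3)) := by
        have h2 : (1 + Real.log N) ^ 2 ≤ (1 + Real.log X) ^ 2 :=
          pow_le_pow_left₀ (by linarith) (by linarith) 2
        exact mul_le_mul (by linarith) hs (sum_nonneg fun n _ => by positivity) (by positivity)
    _ = _ := by ring

end Pool.MP_dd84fd_nt.LXP
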