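import Pool.Agent.Lib.MP_dd84fd_nt.LX.PwA
import Pool.Agent.Lib.MP_dd84fd_nt.LX.PwL2

/-!
# PL_L-Two: a wide block against a narrow block

`q` with `h T ≤ X^(τ/5)` (`T = 1 + b`): `lv_w` with `alm_window`, the masses by `za_sum`.  `q` with `h T > X^(τ/5)`: `lv_w` with the number of
large values, `zb_one`.
-/

set_option autoImplicit false

namespace Pool.MP_dd84fd_nt.LXP

open Finset Pool.MP_67663b_nt.Odd Pool.MP_dd84fd_nt.PL Pool.MP_dd84fd_nt.HX Pool.MP_dd84fd_nt.HXP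
open Pool.MP_dd84fd_nt.JX (Adm)
open Pool.MP_dd84fd_nt.JXP

/-- one modulus: `lv_w` for the blocks -/
theorem tw_pre : ∃ C : ℝ, 0 < C ∧ ∀ (C0 : ℕ) (th e τ : ℝ) (A1 : ℕ), Adm th e τ → ∃ X0 : ℕ,
    ∀ X : ℕ, X0 ≤ X → ∀ (n : ℕ) (b N σ : ℝ) (QQ : Finset ℕ) (bq : ℕ → ℝ),
    StdJ X n th e A1 b N σ QQ bq → ∀ q ∈ QQ, ∀ (_ : NeZero q) (_ : NeZero (hq q n))
    (hd : hq q n ∣ q),
    ∀ (M1 M2 : ℝ) (K1 K2 : ℕ) (MM1 MM2 : Finset ℕ) (a1 a2 c1 c2 : ℕ → ℂ),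
    BlkW X τ M1 K1 MM1 a1 c1 ((Real.log X) ^ C0) ((Real.log X) ^ C0) →
    BlkJ X th e τ M2 K2 MM2 a2 c2 ((Real.log X) ^ C0) ((Real.log X) ^ C0) →
    ((LgC q MM2 a2 M2 ((X : ℝ) ^ (-(τ ^ 2 / 950)) * (Real.log X) ^ C0 * M2) (X ^ 30)).card : ℝ) ≤
      (X : ℝ) ^ (2 * τ / 25) ∧
    ∀ (A2 B2 : ℝ), 0 ≤ A2 → 0 ≤ B2 →
    (∀ T : ℕ, 1 ≤ T → ∀ (χ : DirichletCharacter ℂ q) (k : ℤ),
      ∑ ξ : DirichletCharacter ℂ (hq q n), ∑ j ∈ Icc (k - T) (k + T),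
        (if |j| ≤ ((X ^ 30 : ℕ) : ℤ) ∧
            (X : ℝ) ^ (-(τ ^ 2 / 950)) * (Real.log X) ^ C0 * M2 <
              ‖alm q MM2 a2 M2 (DirichletCharacter.changeLevel hd ξ * χ, j)‖ then
          ‖alm q MM2 a2 M2 (DirichletCharacter.changeLevel hd ξ * χ, j)‖ ^ 2 else 0) ≤
            A2 * T + B2) →
    ‖Bq X (bq q) σ n q (f2f MM1 a1 (tp K1 (cq q c1)) σ q)
        (f2f MM2 a2 (tp K2 (cq q c2)) σ q)‖ ≤
      C * (Real.log X * (2 * b / X) * (ltK (hq q n) / Real.sqrt (1 + bq q)) *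
        (Real.sqrt ((X / (2 * (M1 * b))) * ZA X n b σ M1 K1 c1 MM2 a2 M2
            ((X : ℝ) ^ (-(τ ^ 2 / 950)) * (Real.log X) ^ C0 * M2) q) *
          Real.sqrt (∑ r ∈ rr q, ∫ t in (0 : ℝ)..1,
            ‖tp K2 (cq q c2) ((r : ℝ) / q + σ * (M2 * (bq q / X)) *
              Real.exp (2 * Int.fract t))‖ ^ 2)) *
        ((Real.log X) ^ C0 * Real.sqrt (M1 * ((hq q n : ℝ) * (1 + bq q) + M1))) *
          Real.sqrt (A2 * (1 + bq q) + B2)) +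
      C * ((X : ℝ) ^ (-(τ ^ 2 / 950)) * (Real.log X) ^ C0 * M2) * (Real.sqrt (2 * b / X) *
        Real.sqrt (∑ a' ∈ rr q, ∫ x in (bq q / X)..(2 * bq q / X),
          ‖f2f MM1 a1 (tp K1 (cq q c1)) σ q a' x‖ ^ 2) *
        Real.sqrt (∑ r ∈ rr q, ∫ t in (0 : ℝ)..1,
            ‖tp K2 (cq q c2) ((r : ℝ) / q + σ * (M2 * (bq q / X)) *
              Real.exp (2 * Int.fract t))‖ ^ 2)) +
      C / (X : ℝ) ^ 3 := by
  obtain ⟨C, hC, h1⟩ := lv_w
  refine ⟨C, hC, ?_⟩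
  intro C0 th e τ A1 hpar
  obtain ⟨hp1, hp2, hp3, hp4, hp5⟩ := hpar
  have hτ0 : 0 < τ := by linarith
  obtain ⟨Cc, hCc, hcnt⟩ := cnt_large ⌈32 / τ⌉₊ (by
    exact Nat.one_le_iff_ne_zero.2 (Nat.ceil_pos.2 (by positivity)).ne')
  obtain ⟨hk3, X2, hX2⟩ := pw_par τ Cc hτ0 hp4 hCc
  obtain ⟨X1, hX1⟩ := j2_std th e τ A1 ⟨hp1, hp2, hp3, hp4, hp5⟩
  obtain ⟨X3, hX3⟩ := j2_log C0 1 1 (by norm_num)
  refine ⟨max X1 (max X2 X3), ?_⟩
  intro X hX n b N σ QQ bq hstd q hqm _ _ hd M1 M2 K1 K2 MM1 MM2 a1 a2 c1 c2 hblk1 hblk2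
  obtain ⟨hX16, hL1, hb0, hNX, hbX, hNb82, hNbM, hqq⟩ :=
    hX1 X ((le_max_left _ _).trans hX) n b N σ QQ bq hstd
  obtain ⟨-, y1, y2, y3, y4, y5⟩ := hX2 X ((le_max_left _ _).trans ((le_max_right _ _).trans hX))
  have y6 := hX3 X ((le_max_right _ _).trans ((le_max_right _ _).trans hX))
  rw [one_mul, Real.rpow_one] at y6
  obtain ⟨h2n, hnX, hσ, hbA, hN1, hNb, hFam, -, hbq⟩ := hstd
  obtain ⟨hM11, hM12, hK1, hMM1, ha1, -, -, hc1⟩ := hblk1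
  obtain ⟨hM21, hM22, hK2, hMM2, ha2, hc2⟩ := hblk2
  have hX16' : (16 : ℝ) ≤ X := by exact_mod_cast hX16
  have hXp : (0 : ℝ) < X := by linarith
  have hX1 : 1 ≤ X := by omega
  have hX1' : (1 : ℝ) ≤ X := by linarith
  have hM1 : 1 ≤ M1 := y2.trans hM11
  have hM2 : 1 ≤ M2 := y2.trans hM21
  have hM10 : 0 < M1 := by linarith
  have hM20 : 0 < M2 := by linarith
  have hrp : ∀ s : ℝ, s ≤ 1 → (X : ℝ) ^ s ≤ X := by
    intro s hs
    have h5 : (X : ℝ) ^ s ≤ (X : ℝ) ^ (1 : ℝ) := Real.rpow_le_rpow_of_exponent_le hX1' hs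
    rwa [Real.rpow_one] at h5
  have hM1X : M1 ≤ X := hM12.trans (hrp _ (by norm_num))
  have hM2X : M2 ≤ X := hM22.trans (hrp _ (by linarith))
  obtain ⟨Am, hAm⟩ : ∃ A : ℝ, A = (Real.log X) ^ C0 := ⟨_, rfl⟩
  rw [← hAm] at ha1 ha2 hc1 hc2 y6 ⊢
  have hAm0 : 0 < Am := by rw [hAm]; positivity
  -- the inner polynomial
  have hBsum : ∀ (M : ℝ) (K : ℕ) (c : ℕ → ℂ), 1 ≤ M → K ≤ X →
      ∑ k ∈ Icc 1 K, ‖c k‖ ^ 2 ≤ Am * X / M → ∑ k ∈ Icc 1 K, ‖c k‖ ≤ 2 * (X : ℝ) ^ 2 := by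
    intro M K c hM hK hc
    have h2 : ∀ k ∈ Icc 1 K, ‖c k‖ ≤ 1 + ‖c k‖ ^ 2 := by
      intro k _
      nlinarith only [sq_nonneg (‖c k‖ - 1), norm_nonneg (c k)]
    refine (Finset.sum_le_sum h2).trans ?_
    rw [Finset.sum_add_distrib]
    have h5 : ∑ _k ∈ Icc 1 K, (1 : ℝ) ≤ X := by
      simp only [Finset.sum_const, Nat.card_Icc, nsmul_eq_mul, mul_one]
      have : K + 1 - 1 = K := by omega
      rw [this]
      exact_mod_cast hK
    have h6 : Am * X / M ≤ X ^ 2 := by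
      rw [div_le_iff₀ (by linarith only [hM])]
      nlinarith only [mul_nonneg (sq_nonneg (X : ℝ)) (sub_nonneg.2 hM),
        mul_nonneg hXp.le (sub_nonneg.2 y6)]
    nlinarith only [hc.trans h6, h5, mul_nonneg hXp.le (sub_nonneg.2 hX1')]
  have hs1 := hBsum M1 K1 (cq q c1) hM1 hK1 ((h2_cq_norm q K1 c1).trans hc1)
  have hs2 := hBsum M2 K2 (cq q c2) hM2 hK2 ((h2_cq_norm q K2 c2).trans hc2)
  obtain ⟨hq1, hqX, hqN⟩ := hqq q hqm
  have hqX' : (q : ℝ) ≤ X := by exact_mod_cast hqX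
  have hβ := hbq q hqm
  have hβ0 : 0 < bq q := by linarith
  obtain ⟨v, hv⟩ : ∃ v : ℝ, v = (X : ℝ) ^ (-(τ ^ 2 / 950)) := ⟨_, rfl⟩
  have hv0 : 0 < v := by rw [hv]; positivity
  have hv1 : v ≤ 1 := by
    rw [hv]
    exact Real.rpow_le_one_of_one_le_of_nonpos hX1' (by
      have : 0 ≤ τ ^ 2 / 950 := by positivity
      linarith)
  rw [← hv] at y4 ⊢
  refine ⟨?_, ?_⟩
  · refine (hcnt q M2 Am v ((X : ℝ) ^ (τ / 500)) MM2 a2 (X ^ 30) hM2 (Nat.one_le_pow _ _ hX1) hAm0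
      hv0 (Real.one_le_rpow hX1' (by positivity)) hMM2 ha2 ?_ ?_).trans y4
    · intro m hm hmM
      refine y5 m hm (hmM.trans (pow_le_pow_left₀ (by linarith) ?_ _))
      linarith
    · refine le_trans ?_ (y3.trans (pow_le_pow_left₀ (by linarith) hM21 _))
      push_cast
      refine mul_le_mul_of_nonneg_right ?_ (by positivity)
      exact le_trans (by exact_mod_cast Nat.totient_le q) hqX'
  · intro A2 B2 hA2 hB2 hwin
    have g2 := h1 X n q (hq q n) rfl hd (bq q) σ hX16 hnX h2n hβ0 (by linarith) hqX hσ M1 M2 Am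
      K1 K2 MM1 MM2 a1 a2 (cq q c1) (cq q c2) hM1 hM2 hM1X hM2X hK1 hK2 hAm0 y6 hMM1 hMM2 ha1 ha2
      hs1 hs2 v A2 B2 hv0 hv1 hA2 hB2 hwin
    refine g2.trans ?_
    have g3 := zo_le X q hX1 (Om q (hq q n) hd MM2 a2 M2 (v * Am * M2) (X ^ 30)) K1 c1 σ M1 b
      (bq q) hσ hM10 hb0 hβ.1 hβ.2
    have g4 : 1 / (Nat.totient q : ℝ) * ∑ χ ∈ Om q (hq q n) hd MM2 a2 M2 (v * Am * M2) (X ^ 30),
        (χ.conductor : ℝ) * ∫ γ in (M1 * (b / X))..(16 * (M1 * (b / X))),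
          ‖cS q K1 c1 χ (σ * γ)‖ ^ 2 = ZA X n b σ M1 K1 c1 MM2 a2 M2 (v * Am * M2) q := by
      unfold ZA
      rw [omQ_eq X n q hd MM2 a2 M2 (v * Am * M2)]
    rw [g4] at g3
    have hbX2 : bq q / X ≤ 2 * b / X := div_le_div_of_nonneg_right hβ.2 hXp.le
    have hL0 : 0 ≤ Real.log X := by linarith
    have hκ0 : 0 ≤ ltK (hq q n) := ltK_nonneg _
    have hbX0 : 0 ≤ bq q / X := by positivity
    refine add_le_add (add_le_add ?_ ?_) le_rfl
    · refine mul_le_mul_of_nonneg_left ?_ hC.le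
      have hs : Real.sqrt (Nat.totient q * ∑ χ ∈ Om q (hq q n) hd MM2 a2 M2 (v * Am * M2) (X ^ 30),
            ∑' j : ℤ, ‖fq q (Bt q (tp K1 (cq q c1)) (σ * (M1 * (bq q / X)))) χ j‖ ^ 2) ≤
          Real.sqrt ((X / (2 * (M1 * b))) * ZA X n b σ M1 K1 c1 MM2 a2 M2 (v * Am * M2) q) :=
        Real.sqrt_le_sqrt g3
      gcongr
    · gcongr

/-- numerical part, case A -/
theorem tw_numA (C Cw L b X κ Q Z Am M1 M2 h β E4 Y : ℝ) (hC : 0 < C) (hCw : 0 < Cw) (hL : 0 ≤ L)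
    (hb : 0 < b) (hX : 0 < X) (hβ1 : b ≤ β) (hβ2 : β ≤ 2 * b) (hAm : 0 < Am) (hM1 : 0 < M1)
    (hM2 : 0 < M2) (hh : 0 ≤ h) (hκ : 0 ≤ κ) (hY : h * (1 + b) ≤ Y) (hY1 : 4 * Y ≤ M1)
    (hY2 : 4 * Y ≤ M2) (hE : κ / Real.sqrt (1 + b) ≤ E4) :
    C * (L * (2 * b / X) * (κ / Real.sqrt (1 + β)) * (Real.sqrt Q * Real.sqrt Z) *
        (Am * Real.sqrt (M1 * (h * (1 + β) + M1))) *
        Real.sqrt ((Cw * Am ^ 2 * M2 * h) * (1 + β) + Cw * Am ^ 2 * M2 * M2)) ≤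
      8 * C * (Cw + 1) * (L * (b / X) * Am ^ 2 * (M1 * M2) * E4 * (Real.sqrt Q * Real.sqrt Z)) := by
  have hhY : h * (1 + β) ≤ 2 * Y := by
    calc h * (1 + β) ≤ h * (2 * (1 + b)) := mul_le_mul_of_nonneg_left (by linarith) hh
      _ = 2 * (h * (1 + b)) := by ring
      _ ≤ 2 * Y := by linarith
  have hY0 : 0 ≤ Y := le_trans (by positivity) hY
  have s1 : Real.sqrt (M1 * (h * (1 + β) + M1)) ≤ 2 * M1 := by
    rw [Real.sqrt_le_left (by linarith)]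
    nlinarith
  have s2 : Real.sqrt ((Cw * Am ^ 2 * M2 * h) * (1 + β) + Cw * Am ^ 2 * M2 * M2) ≤
      (Cw + 1) * Am * (2 * M2) := by
    rw [Real.sqrt_le_left (by positivity)]
    have h1 : (Cw * Am ^ 2 * M2 * h) * (1 + β) + Cw * Am ^ 2 * M2 * M2 =
        Cw * (Am ^ 2 * (M2 * (h * (1 + β) + M2))) := by ring
    have h2 : M2 * (h * (1 + β) + M2) ≤ 4 * M2 ^ 2 := by nlinarith
    have h3 : Cw ≤ (Cw + 1) ^ 2 := by nlinarith
    rw [h1]
    calc Cw * (Am ^ 2 * (M2 * (h * (1 + β) + M2))) ≤ (Cw + 1) ^ 2 * (Am ^ 2 * (4 * M2 ^ 2)) := by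
          refine mul_le_mul h3 (mul_le_mul_of_nonneg_left h2 (by positivity)) ?_ (by positivity)
          have : 0 ≤ β := by linarith
          positivity
      _ = _ := by ring
  have s3 : κ / Real.sqrt (1 + β) ≤ E4 := by
    refine le_trans ?_ hE
    exact div_le_div_of_nonneg_left hκ (Real.sqrt_pos.2 (by linarith))
      (Real.sqrt_le_sqrt (by linarith))
  have hE0 : 0 ≤ E4 := le_trans (by positivity) hE
  calc _ ≤ C * (L * (2 * b / X) * E4 * (Real.sqrt Q * Real.sqrt Z) *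
        (Am * (2 * M1)) * ((Cw + 1) * Am * (2 * M2))) := by
        gcongr
    _ = _ := by ring

private theorem sq3 (x y z t : ℝ) (hx : 0 ≤ x) (hy : 0 ≤ y) (ht : 0 < t) :
    x / Real.sqrt t * Real.sqrt y * Real.sqrt z = Real.sqrt (x ^ 2 / t * y * z) := by
  have h1 : 0 ≤ x ^ 2 / t := by positivity
  rw [Real.sqrt_mul (mul_nonneg h1 hy), Real.sqrt_mul h1, Real.sqrt_div' _ ht.le,
    Real.sqrt_sq hx]

private theorem sq4 (g r x b : ℝ) (hg : 0 ≤ g) (hr : 0 ≤ r) (hx : 0 ≤ x) (hb : 0 < b) :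
    Real.sqrt g * Real.sqrt r * (x / Real.sqrt b) = Real.sqrt (g * r * (x ^ 2 / b)) := by
  rw [Real.sqrt_mul (mul_nonneg hg hr), Real.sqrt_mul hg, Real.sqrt_div' _ hb.le,
    Real.sqrt_sq hx]

/-- numerical part, case B -/
theorem tw_numB (C L b X κ ZA Z Am M1 M2 h β S SM D G W : ℝ) (hC : 0 < C) (hL : 0 ≤ L)
    (hb : 0 < b) (hX : 0 < X) (hβ1 : b ≤ β) (hAm : 0 < Am) (hM1 : 0 < M1) (hZA0 : 0 ≤ ZA)
    (hM2 : 0 < M2) (hh : 0 < h) (hκ : 0 ≤ κ) (hD : 0 ≤ D) (hG : 0 ≤ G) (hS : 0 ≤ S)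
    (hκ2 : κ ^ 2 ≤ D / h)
    (hZA : ZA ≤ 2 * (1 + L) * G * (h * (15 * (M1 * (b / X))) + 1) * SM) (hSM : SM ≤ S * X / M1)
    (hW : 15 * h * b / X + 15 * M1 / X + 1 / M1 + 1 / (h * (1 + b)) ≤ W) :
    C * (L * (2 * b / X) * (κ / Real.sqrt (1 + β)) * (Real.sqrt ((X / (2 * (M1 * b))) * ZA) *
        Real.sqrt Z) * (Am * Real.sqrt (M1 * (h * (1 + β) + M1))) *
        Real.sqrt (0 * (1 + β) + G * (2 * Am * M2) ^ 2)) ≤
      4 * C * (L * Am ^ 2 * G * Real.sqrt (D * (1 + L) * S * W)) *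
        (Real.sqrt b * (M2 * Real.sqrt Z)) := by
  have hβ0 : 0 < β := by linarith
  have hT : 0 < 1 + β := by linarith
  have hW0 : 0 ≤ W := le_trans (by positivity) hW
  have sG : Real.sqrt (0 * (1 + β) + G * (2 * Am * M2) ^ 2) = Real.sqrt G * (2 * Am * M2) := by
    rw [zero_mul, zero_add, Real.sqrt_mul hG, Real.sqrt_sq (by positivity)]
  have hP : (κ / Real.sqrt (1 + β)) * Real.sqrt ((X / (2 * (M1 * b))) * ZA) *
      Real.sqrt (M1 * (h * (1 + β) + M1)) ≤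
      Real.sqrt G * Real.sqrt (D * (1 + L) * S * W) * (X / Real.sqrt b) := by
    have e1 : (κ / Real.sqrt (1 + β)) * Real.sqrt ((X / (2 * (M1 * b))) * ZA) *
      Real.sqrt (M1 * (h * (1 + β) + M1)) =
      Real.sqrt (κ ^ 2 / (1 + β) * ((X / (2 * (M1 * b))) * ZA) * (M1 * (h * (1 + β) + M1))) :=
      sq3 _ _ _ _ hκ (by positivity) hT
    have e2 : Real.sqrt G * Real.sqrt (D * (1 + L) * S * W) * (X / Real.sqrt b) =
        Real.sqrt (G * (D * (1 + L) * S * W) * (X ^ 2 / b)) :=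
      sq4 _ _ _ _ hG (by positivity) hX.le hb
    rw [e1, e2]
    refine Real.sqrt_le_sqrt ?_
    have h1 : κ ^ 2 / (1 + β) ≤ D / (h * (1 + β)) := by
      rw [← div_div]
      exact div_le_div_of_nonneg_right hκ2 hT.le
    have h2 : (X / (2 * (M1 * b))) * ZA ≤ (X / (2 * (M1 * b))) *
        (2 * (1 + L) * G * (h * (15 * (M1 * (b / X))) + 1) * (S * X / M1)) := by
      refine mul_le_mul_of_nonneg_left (hZA.trans ?_) (by positivity)
      exact mul_le_mul_of_nonneg_left hSM (by positivity)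
    calc κ ^ 2 / (1 + β) * ((X / (2 * (M1 * b))) * ZA) * (M1 * (h * (1 + β) + M1)) ≤
        D / (h * (1 + β)) * ((X / (2 * (M1 * b))) *
        (2 * (1 + L) * G * (h * (15 * (M1 * (b / X))) + 1) * (S * X / M1))) *
        (M1 * (h * (1 + β) + M1)) := by
          refine mul_le_mul_of_nonneg_right (mul_le_mul h1 h2 (by positivity) (by positivity))
            (by positivity)
      _ = G * (D * (1 + L) * S * ((h * (15 * (M1 * (b / X))) + 1) *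
          (1 / M1 + 1 / (h * (1 + β))))) * (X ^ 2 / b) := by
          field_simp
      _ ≤ G * (D * (1 + L) * S * W) * (X ^ 2 / b) := by
          refine mul_le_mul_of_nonneg_right (mul_le_mul_of_nonneg_left
            (mul_le_mul_of_nonneg_left ?_ (by positivity)) hG) (by positivity)
          refine le_trans ?_ hW
          have e3 : (h * (15 * (M1 * (b / X))) + 1) * (1 / M1 + 1 / (h * (1 + β))) =
              15 * h * b / X + 15 * M1 / X * (b / (1 + β)) + 1 / M1 + 1 / (h * (1 + β)) := by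
            field_simp
            ring
          have e4 : b / (1 + β) ≤ 1 := by
            rw [div_le_one hT]
            linarith
          have e5 : 15 * M1 / X * (b / (1 + β)) ≤ 15 * M1 / X :=
            mul_le_of_le_one_right (by positivity) e4
          have e6 : 1 / (h * (1 + β)) ≤ 1 / (h * (1 + b)) := by
            refine div_le_div_of_nonneg_left (by norm_num) (by positivity) ?_
            exact mul_le_mul_of_nonneg_left (by linarith) hh.le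
          rw [e3]
          linarith
  rw [sG]
  have hsb : Real.sqrt b * Real.sqrt b = b := Real.mul_self_sqrt hb.le
  have hsG : Real.sqrt G * Real.sqrt G = G := Real.mul_self_sqrt hG
  have hsb0 : 0 < Real.sqrt b := Real.sqrt_pos.2 hb
  have hbb : b * (X / Real.sqrt b) = X * Real.sqrt b := by
    rw [mul_div_assoc', div_eq_iff hsb0.ne']
    calc b * X = X * (Real.sqrt b * Real.sqrt b) := by rw [hsb]; ring
      _ = X * Real.sqrt b * Real.sqrt b := by ring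
  calc _ = (C * L * (2 * b / X) * Real.sqrt Z * Am * (Real.sqrt G * (2 * Am * M2))) *
        ((κ / Real.sqrt (1 + β)) * Real.sqrt ((X / (2 * (M1 * b))) * ZA) *
        Real.sqrt (M1 * (h * (1 + β) + M1))) := by ring
    _ ≤ (C * L * (2 * b / X) * Real.sqrt Z * Am * (Real.sqrt G * (2 * Am * M2))) *
        (Real.sqrt G * Real.sqrt (D * (1 + L) * S * W) * (X / Real.sqrt b)) :=
        mul_le_mul_of_nonneg_left hP (by positivity)
    _ = 4 * C * L * Real.sqrt Z * Am ^ 2 * M2 * Real.sqrt (D * (1 + L) * S * W) *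
        (Real.sqrt G * Real.sqrt G) * (b * (X / Real.sqrt b) / X) := by ring
    _ = _ := by
        rw [hsG, hbb]
        field_simp

/-- numerical part: the sum over the moduli in case A -/
theorem tw_sumA (CC D0 Cz L b X Am S M1 M2 H4 VQ V2 : ℝ) (hCC : 0 < CC) (hD0 : 0 < D0)
    (hCz : 0 < Cz) (hL : 1 ≤ L) (hb : 0 < b) (hX : 0 < X) (hS : 0 ≤ S) (hM1 : 0 < M1)
    (hH : 0 ≤ H4) (hVQ : VQ = X / (2 * (M1 * b)) * (Cz * (1 + L) ^ 3 * (S * X / M1)))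
    (hV2 : Real.sqrt V2 * M2 ≤ Real.sqrt (108 * L ^ 2 * (S * X ^ 2 / b))) :
    CC * (L * (b / X) * Am ^ 2 * (M1 * M2) * (D0 * H4) * (Real.sqrt VQ * Real.sqrt V2)) ≤
      8 * CC * D0 * (54 * Cz + 1) * (L ^ 6 * Am ^ 2 * S * X * H4) := by
  have hL0 : 0 < L := by linarith
  have e1 : Real.sqrt VQ * M1 = Real.sqrt (Cz * (1 + L) ^ 3 / 2 * (S * X ^ 2 / b)) := by
    have h1 : Real.sqrt VQ * M1 = Real.sqrt (VQ * M1 ^ 2) := by
      rw [Real.sqrt_mul' _ (by positivity), Real.sqrt_sq hM1.le]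
    rw [h1, hVQ]
    congr 1
    field_simp
  have hp : 0 ≤ S * X ^ 2 / b := by positivity
  have h2 : (Real.sqrt VQ * M1) * (Real.sqrt V2 * M2) ≤
      (54 * Cz + 1) * (8 * L ^ 5) * (S * X ^ 2 / b) := by
    calc (Real.sqrt VQ * M1) * (Real.sqrt V2 * M2) ≤
        Real.sqrt (Cz * (1 + L) ^ 3 / 2 * (S * X ^ 2 / b)) *
          Real.sqrt (108 * L ^ 2 * (S * X ^ 2 / b)) := by
          rw [e1]
          exact mul_le_mul_of_nonneg_left hV2 (Real.sqrt_nonneg _)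
      _ = Real.sqrt (Cz * (1 + L) ^ 3 / 2 * (S * X ^ 2 / b) *
          (108 * L ^ 2 * (S * X ^ 2 / b))) := by
          rw [← Real.sqrt_mul (by positivity)]
      _ ≤ (54 * Cz + 1) * (8 * L ^ 5) * (S * X ^ 2 / b) := by
          rw [Real.sqrt_le_left (by positivity)]
          have e2 : Cz * (1 + L) ^ 3 / 2 * (S * X ^ 2 / b) * (108 * L ^ 2 * (S * X ^ 2 / b)) =
              (54 * Cz * ((1 + L) ^ 3 * L ^ 2)) * (S * X ^ 2 / b) ^ 2 := by ring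
          rw [e2, mul_pow]
          refine mul_le_mul_of_nonneg_right ?_ (by positivity)
          have h3 : (1 + L) ^ 3 * L ^ 2 ≤ 8 * L ^ 5 := by
            calc (1 + L) ^ 3 * L ^ 2 ≤ (2 * L) ^ 3 * L ^ 2 := by gcongr; linarith
              _ = 8 * L ^ 5 := by ring
          have h4 : 1 ≤ 8 * L ^ 5 := by
            have := one_le_pow₀ (n := 5) hL
            linarith
          calc 54 * Cz * ((1 + L) ^ 3 * L ^ 2) ≤ (54 * Cz + 1) * (8 * L ^ 5) := by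
                refine mul_le_mul (by linarith) h3 (by positivity) (by positivity)
            _ = ((54 * Cz + 1) * (8 * L ^ 5)) ^ 1 := (pow_one _).symm
            _ ≤ ((54 * Cz + 1) * (8 * L ^ 5)) ^ 2 := by
                refine pow_le_pow_right₀ ?_ (by norm_num)
                nlinarith
  calc CC * (L * (b / X) * Am ^ 2 * (M1 * M2) * (D0 * H4) * (Real.sqrt VQ * Real.sqrt V2)) =
      CC * (L * (b / X) * Am ^ 2 * (D0 * H4)) * ((Real.sqrt VQ * M1) * (Real.sqrt V2 * M2)) := by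
        ring
    _ ≤ CC * (L * (b / X) * Am ^ 2 * (D0 * H4)) *
        ((54 * Cz + 1) * (8 * L ^ 5) * (S * X ^ 2 / b)) :=
        mul_le_mul_of_nonneg_left h2 (by positivity)
    _ = _ := by
        field_simp

/-- numerical part: the small values -/
theorem tw_sumS (C C2 L b X Am S M2 v N2' V2 : ℝ) (hC : 0 < C) (hC2 : 0 < C2)
    (hL : 1 ≤ L) (hb : 0 < b) (hX : 0 < X) (hS : 1 ≤ S) (hAm : 1 ≤ Am) (hM2 : 0 ≤ M2)
    (hv : 0 ≤ v) (hN : N2' ≤ C2 * Am ^ 4 * X * (1 + L) ^ 5)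
    (hV2 : Real.sqrt V2 * M2 ≤ Real.sqrt (108 * L ^ 2 * (S * X ^ 2 / b))) :
    C * (v * Am * M2) * (Real.sqrt (2 * b / X) * (Real.sqrt N2' * Real.sqrt V2)) ≤
      32 * C * (216 * C2 + 1) * (L ^ 7 * Am ^ 5 * S) * v * X := by
  have hL0 : 0 < L := by linarith
  have hA0 : 0 < Am := by linarith
  have hS0 : 0 < S := by linarith
  have h1 : Real.sqrt (2 * b / X) * Real.sqrt N2' * (Real.sqrt V2 * M2) ≤
      (216 * C2 + 1) * (Am ^ 4 * (32 * L ^ 7) * S) * X := by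
    calc Real.sqrt (2 * b / X) * Real.sqrt N2' * (Real.sqrt V2 * M2) ≤
        Real.sqrt (2 * b / X) * Real.sqrt (C2 * Am ^ 4 * X * (1 + L) ^ 5) *
          Real.sqrt (108 * L ^ 2 * (S * X ^ 2 / b)) := by
          gcongr
      _ = Real.sqrt (2 * b / X * (C2 * Am ^ 4 * X * (1 + L) ^ 5) *
          (108 * L ^ 2 * (S * X ^ 2 / b))) := by
          rw [← Real.sqrt_mul (by positivity), ← Real.sqrt_mul (by positivity)]
      _ ≤ (216 * C2 + 1) * (Am ^ 4 * (32 * L ^ 7) * S) * X := by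
          rw [Real.sqrt_le_left (by positivity)]
          have e2 : 2 * b / X * (C2 * Am ^ 4 * X * (1 + L) ^ 5) * (108 * L ^ 2 * (S * X ^ 2 / b)) =
              (216 * C2 * (Am ^ 4 * ((1 + L) ^ 5 * L ^ 2) * S)) * X ^ 2 := by
            field_simp
            ring
          rw [e2, mul_pow]
          refine mul_le_mul_of_nonneg_right ?_ (by positivity)
          have h3 : (1 + L) ^ 5 * L ^ 2 ≤ 32 * L ^ 7 := by
            calc (1 + L) ^ 5 * L ^ 2 ≤ (2 * L) ^ 5 * L ^ 2 := by gcongr; linarith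
              _ = 32 * L ^ 7 := by ring
          have h4 : 1 ≤ Am ^ 4 * (32 * L ^ 7) * S := by
            have p1 := one_le_pow₀ (n := 7) hL
            have p2 := one_le_pow₀ (n := 4) hAm
            have p3 : 1 ≤ 32 * L ^ 7 := by linarith
            exact one_le_mul_of_one_le_of_one_le (one_le_mul_of_one_le_of_one_le p2 p3) hS
          calc 216 * C2 * (Am ^ 4 * ((1 + L) ^ 5 * L ^ 2) * S) ≤
              (216 * C2 + 1) * (Am ^ 4 * (32 * L ^ 7) * S) := by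
                refine mul_le_mul (by linarith) ?_ (by positivity) (by positivity)
                gcongr
            _ = ((216 * C2 + 1) * (Am ^ 4 * (32 * L ^ 7) * S)) ^ 1 := (pow_one _).symm
            _ ≤ ((216 * C2 + 1) * (Am ^ 4 * (32 * L ^ 7) * S)) ^ 2 := by
                refine pow_le_pow_right₀ ?_ (by norm_num)
                exact one_le_mul_of_one_le_of_one_le (by linarith) h4
  calc C * (v * Am * M2) * (Real.sqrt (2 * b / X) * (Real.sqrt N2' * Real.sqrt V2)) =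
      (C * v * Am) * (Real.sqrt (2 * b / X) * Real.sqrt N2' * (Real.sqrt V2 * M2)) := by ring
    _ ≤ (C * v * Am) * ((216 * C2 + 1) * (Am ^ 4 * (32 * L ^ 7) * S) * X) :=
        mul_le_mul_of_nonneg_left h1 (by positivity)
    _ = _ := by ring

theorem cs_sqrt (QQ : Finset ℕ) (f g : ℕ → ℝ) (F G : ℝ) (hf : ∀ q ∈ QQ, 0 ≤ f q)
    (hg : ∀ q ∈ QQ, 0 ≤ g q) (hF : ∑ q ∈ QQ, f q ≤ F) (hG : ∑ q ∈ QQ, g q ≤ G) :
    ∑ q ∈ QQ, Real.sqrt (f q) * Real.sqrt (g q) ≤ Real.sqrt F * Real.sqrt G := by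
  have h3 := Real.sum_mul_le_sqrt_mul_sqrt QQ (fun q => Real.sqrt (f q)) (fun q => Real.sqrt (g q))
  have e1 : ∑ q ∈ QQ, Real.sqrt (f q) ^ 2 = ∑ q ∈ QQ, f q :=
    Finset.sum_congr rfl fun q hq' => Real.sq_sqrt (hf q hq')
  have e2 : ∑ q ∈ QQ, Real.sqrt (g q) ^ 2 = ∑ q ∈ QQ, g q :=
    Finset.sum_congr rfl fun q hq' => Real.sq_sqrt (hg q hq')
  rw [e1, e2] at h3
  exact h3.trans (mul_le_mul (Real.sqrt_le_sqrt hF) (Real.sqrt_le_sqrt hG) (Real.sqrt_nonneg _)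
      (Real.sqrt_nonneg _))

/-- case B: one modulus -/
theorem tw_B (C : ℝ) (hC : 0 < C) (C0 : ℕ) (th e τ : ℝ) (A1 : ℕ) (hpar : Adm th e τ) :
    ∃ X0 : ℕ, ∀ X : ℕ, X0 ≤ X → ∀ (n : ℕ) (b N σ : ℝ) (QQ : Finset ℕ) (bq : ℕ → ℝ),
    StdJ X n th e A1 b N σ QQ bq → ∀ q ∈ QQ, ∀ (_ : NeZero q) (_ : NeZero (hq q n))
    (_ : hq q n ∣ q), (X : ℝ) ^ (τ / 5) < (hq q n : ℝ) * (1 + b) →
    ∀ (M1 M2 Z V : ℝ) (K1 : ℕ) (MM1 MM2 : Finset ℕ) (a1 a2 c1 : ℕ → ℂ), 0 < M2 →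
    BlkW X τ M1 K1 MM1 a1 c1 ((Real.log X) ^ C0) ((Real.log X) ^ C0) →
    ((LgC q MM2 a2 M2 V (X ^ 30)).card : ℝ) ≤ (X : ℝ) ^ (2 * τ / 25) →
    C * (Real.log X * (2 * b / X) * (ltK (hq q n) / Real.sqrt (1 + bq q)) *
        (Real.sqrt ((X / (2 * (M1 * b))) * ZA X n b σ M1 K1 c1 MM2 a2 M2 V q) * Real.sqrt Z) *
        ((Real.log X) ^ C0 * Real.sqrt (M1 * ((hq q n : ℝ) * (1 + bq q) + M1))) *
          Real.sqrt (0 * (1 + bq q) + (X : ℝ) ^ (2 * τ / 25) *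
            (2 * (Real.log X) ^ C0 * M2) ^ 2)) ≤
      (X : ℝ) ^ (-(τ / 60)) * (Real.sqrt b * (M2 * Real.sqrt Z)) := by
  obtain ⟨hp1, hp2, hp3, hp4, hp5⟩ := hpar
  have hτ0 : 0 < τ := by linarith
  obtain ⟨hk3, X2, hX2⟩ := pw_par τ 1 hτ0 hp4 one_pos
  obtain ⟨X1, hX1⟩ := j2_std th e τ A1 ⟨hp1, hp2, hp3, hp4, hp5⟩
  obtain ⟨X3, hX3⟩ := pw_logs e τ (264 * C) (3 * C0 + 2) hτ0 hp4 hp3 hp5
  refine ⟨max X1 (max X2 X3), ?_⟩
  intro X hX n b N σ QQ bq hstd q hqm _ _ hd hB M1 M2 Z V K1 MM1 MM2 a1 a2 c1 hM20 hblk1 hG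
  obtain ⟨hX16, hL1, hb0, hNX, hbX, hNb82, hNbM, hqq⟩ :=
    hX1 X ((le_max_left _ _).trans hX) n b N σ QQ bq hstd
  obtain ⟨-, y1, y2, y3, y4, y5⟩ := hX2 X ((le_max_left _ _).trans ((le_max_right _ _).trans hX))
  obtain ⟨y6, -, -⟩ := hX3 X ((le_max_right _ _).trans ((le_max_right _ _).trans hX))
  obtain ⟨h2n, hnX, hσ, hbA, hN1, hNb, hFam, -, hbq⟩ := hstd
  obtain ⟨hM11, hM12, hK1, hMM1, ha1, -, -, hc1⟩ := hblk1
  have hX16' : (16 : ℝ) ≤ X := by exact_mod_cast hX16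
  have hXp : (0 : ℝ) < X := by linarith
  have hX1 : 1 ≤ X := by omega
  have hX1' : (1 : ℝ) ≤ X := by linarith
  have hM1 : 1 ≤ M1 := y2.trans hM11
  have hM10 : 0 < M1 := by linarith
  obtain ⟨hq1, hqX, hqN⟩ := hqq q hqm
  have hβ := hbq q hqm
  have hh1 : 1 ≤ hq q n := Nat.one_le_iff_ne_zero.2 (NeZero.ne _)
  have hh0 : (0 : ℝ) < hq q n := by exact_mod_cast hh1
  have hhq : (hq q n : ℝ) ≤ N := by
    have h6 : hq q n ≤ q := Nat.div_le_self _ _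
    have h6' : (hq q n : ℝ) ≤ q := by exact_mod_cast h6
    linarith
  obtain ⟨L, hL⟩ : ∃ L : ℝ, L = Real.log X := ⟨_, rfl⟩
  rw [← hL] at hL1 hc1 y6 ⊢
  obtain ⟨S, hS⟩ : ∃ A : ℝ, A = L ^ C0 := ⟨_, rfl⟩
  rw [← hS] at hc1 ⊢
  have hL0 : 0 < L := by linarith
  have hS1 : 1 ≤ S := by rw [hS]; exact one_le_pow₀ hL1
  have hS0 : 0 < S := by linarith
  have hκ2 : ltK (hq q n) ^ 2 ≤ (X : ℝ) ^ (τ / 500) / (hq q n : ℝ) := by
    refine (ltK_sq (hq q n) hh1).trans (div_le_div_of_nonneg_right ?_ hh0.le)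
    have h7 : hq q n ≤ X := (Nat.div_le_self _ _).trans hqX
    have h8 : (1 : ℝ) ≤ ((hq q n).divisors.card : ℝ) := by
      exact_mod_cast Finset.card_pos.2 ⟨1, Nat.one_mem_divisors.2 (by omega)⟩
    refine (pow_le_pow_right₀ h8 hk3).trans (y5 (hq q n) hh1 ?_)
    have h9 : (hq q n : ℝ) ≤ 2 * X := by
      have : (hq q n : ℝ) ≤ X := by exact_mod_cast h7
      linarith
    refine h9.trans (le_self_pow₀ (by linarith) (by omega))
  have hZA := zb_one X n q hX1 hqX hd K1 c1 σ M1 b hσ hM10 hb0 MM2 a2 M2 V _ hG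
  rw [← hL] at hZA
  have hZA0 : 0 ≤ ZA X n b σ M1 K1 c1 MM2 a2 M2 V q := by
    unfold ZA
    refine mul_nonneg (by positivity) (Finset.sum_nonneg fun χ _ => mul_nonneg
      (Nat.cast_nonneg _) (intervalIntegral.integral_nonneg ?_ fun γ _ => by positivity))
    have : 0 ≤ M1 * (b / X) := by positivity
    linarith
  have hrpe : ∀ s t : ℝ, s ≤ t → (X : ℝ) ^ s ≤ (X : ℝ) ^ t := fun s t h =>
    Real.rpow_le_rpow_of_exponent_le hX1' h
  have hW : 15 * (hq q n : ℝ) * b / X + 15 * M1 / X + 1 / M1 + 1 / ((hq q n : ℝ) * (1 + b)) ≤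
      33 * (X : ℝ) ^ (-(τ / 5)) := by
    have w1 : 15 * (hq q n : ℝ) * b / X ≤ 15 * (X : ℝ) ^ (-(τ / 5)) := by
      rw [div_le_iff₀ hXp]
      calc 15 * (hq q n : ℝ) * b = 15 * ((hq q n : ℝ) * b) := by ring
        _ ≤ 15 * (N * (1 + b)) := by
            refine mul_le_mul_of_nonneg_left ?_ (by norm_num)
            exact mul_le_mul hhq (by linarith) hb0.le (by linarith)
        _ ≤ 15 * (X : ℝ) ^ (89 / 100 : ℝ) := by linarith
        _ ≤ 15 * (X : ℝ) ^ (-(τ / 5) + 1) := by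
            have := hrpe (89 / 100) (-(τ / 5) + 1) (by linarith)
            linarith
        _ = 15 * (X : ℝ) ^ (-(τ / 5)) * X := by
            rw [Real.rpow_add hXp, Real.rpow_one]
            ring
    have w2 : 15 * M1 / X ≤ 15 * (X : ℝ) ^ (-(τ / 5)) := by
      rw [div_le_iff₀ hXp]
      calc 15 * M1 ≤ 15 * (X : ℝ) ^ (1 / 2 : ℝ) := by linarith
        _ ≤ 15 * (X : ℝ) ^ (-(τ / 5) + 1) := by
            have := hrpe (1 / 2) (-(τ / 5) + 1) (by linarith)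
            linarith
        _ = 15 * (X : ℝ) ^ (-(τ / 5)) * X := by
            rw [Real.rpow_add hXp, Real.rpow_one]
            ring
    have w3 : 1 / M1 ≤ 2 * (X : ℝ) ^ (-(τ / 5)) := by
      rw [div_le_iff₀ hM10]
      have w5 : (X : ℝ) ^ (-(τ / 5)) * (X : ℝ) ^ (τ / 5) = 1 := by
        rw [← Real.rpow_add hXp]
        simp
      have w6 : (X : ℝ) ^ (τ / 5) ≤ M1 := by
        have : 0 ≤ (X : ℝ) ^ (τ / 5) := by positivity
        linarith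
      calc (1 : ℝ) = (X : ℝ) ^ (-(τ / 5)) * (X : ℝ) ^ (τ / 5) := w5.symm
        _ ≤ (X : ℝ) ^ (-(τ / 5)) * M1 := mul_le_mul_of_nonneg_left w6 (by positivity)
        _ ≤ 2 * (X : ℝ) ^ (-(τ / 5)) * M1 := by
            have : 0 ≤ (X : ℝ) ^ (-(τ / 5)) * M1 := by positivity
            linarith
    have w4 : 1 / ((hq q n : ℝ) * (1 + b)) ≤ (X : ℝ) ^ (-(τ / 5)) := by
      rw [Real.rpow_neg hXp.le, ← one_div]
      exact div_le_div_of_nonneg_left (by norm_num) (by positivity) hB.le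
    linarith
  have m1 := tw_numB C L b X (ltK (hq q n)) (ZA X n b σ M1 K1 c1 MM2 a2 M2 V q) Z S M1 M2
    (hq q n) (bq q) S (∑ k ∈ Icc 1 K1, ‖c1 k‖ ^ 2) ((X : ℝ) ^ (τ / 500)) ((X : ℝ) ^ (2 * τ / 25))
    (33 * (X : ℝ) ^ (-(τ / 5))) hC hL0.le hb0 hXp hβ.1 hS0 hM10 hZA0 hM20 hh0 (ltK_nonneg _)
    (by positivity) (by positivity) hS0.le hκ2 hZA hc1 hW
  refine m1.trans (mul_le_mul_of_nonneg_right ?_ (by positivity))
  have hsq : Real.sqrt ((X : ℝ) ^ (τ / 500) * (1 + L) * S * (33 * (X : ℝ) ^ (-(τ / 5)))) ≤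
      66 * L * S * ((X : ℝ) ^ (τ / 1000) * (X : ℝ) ^ (-(τ / 10))) := by
    rw [Real.sqrt_le_left (by positivity)]
    have e1 : (X : ℝ) ^ (τ / 500) = ((X : ℝ) ^ (τ / 1000)) ^ 2 := by
      rw [← Real.rpow_natCast, ← Real.rpow_mul hXp.le]
      congr 1
      push_cast
      ring
    have e2 : (X : ℝ) ^ (-(τ / 5)) = ((X : ℝ) ^ (-(τ / 10))) ^ 2 := by
      rw [← Real.rpow_natCast, ← Real.rpow_mul hXp.le]
      congr 1
      push_cast
      ring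
    rw [e1, e2]
    have h5 : 33 * (1 + L) * S ≤ (66 * L * S) ^ 2 := by
      have h6 : 1 ≤ 66 * L * S := by
        have : 1 ≤ L * S := one_le_mul_of_one_le_of_one_le hL1 hS1
        nlinarith only [this]
      calc 33 * (1 + L) * S ≤ 66 * L * S := by
            nlinarith only [mul_nonneg (sub_nonneg.2 hL1) hS0.le]
        _ = (66 * L * S) ^ 1 := (pow_one _).symm
        _ ≤ (66 * L * S) ^ 2 := pow_le_pow_right₀ h6 (by norm_num)
    calc ((X : ℝ) ^ (τ / 1000)) ^ 2 * (1 + L) * S * (33 * ((X : ℝ) ^ (-(τ / 10))) ^ 2) =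
        (33 * (1 + L) * S) * ((X : ℝ) ^ (τ / 1000) * (X : ℝ) ^ (-(τ / 10))) ^ 2 := by ring
      _ ≤ (66 * L * S) ^ 2 * ((X : ℝ) ^ (τ / 1000) * (X : ℝ) ^ (-(τ / 10))) ^ 2 :=
          mul_le_mul_of_nonneg_right h5 (by positivity)
      _ = _ := by ring
  refine le_trans ?_ y6
  calc 4 * C * (L * S ^ 2 * (X : ℝ) ^ (2 * τ / 25) *
        Real.sqrt ((X : ℝ) ^ (τ / 500) * (1 + L) * S * (33 * (X : ℝ) ^ (-(τ / 5))))) ≤
      4 * C * (L * S ^ 2 * (X : ℝ) ^ (2 * τ / 25) *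
        (66 * L * S * ((X : ℝ) ^ (τ / 1000) * (X : ℝ) ^ (-(τ / 10))))) := by
        gcongr
    _ = 264 * C * (L ^ 2 * S ^ 3) * ((X : ℝ) ^ (2 * τ / 25) * ((X : ℝ) ^ (τ / 1000) *
        (X : ℝ) ^ (-(τ / 10)))) := by ring
    _ = _ := by
        rw [hS, ← pow_mul]
        congr 2
        ring

theorem twoTwoW : TwoTwoW := by
  classical
  obtain ⟨C, hC, hpre⟩ := tw_pre
  obtain ⟨Cw, hCw, hw⟩ := alm_window
  obtain ⟨D0, hD0, h4⟩ := h2_D
  obtain ⟨Cz, hCz, hz⟩ := za_sum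
  obtain ⟨C2, hC2, hN2⟩ := blk_N2
  refine ⟨7, ?_⟩
  intro C0 th e τ A1 hpar
  obtain ⟨X1, hX1⟩ := hpre C0 th e τ A1 hpar
  obtain ⟨X2, hX2⟩ := tw_B C hC C0 th e τ A1 hpar
  obtain ⟨X3, hX3⟩ := hz th e τ hpar
  obtain ⟨X4, hX4⟩ := j2_std th e τ A1 hpar
  obtain ⟨hp1, hp2, hp3, hp4, hp5⟩ := hpar
  have hτ0 : 0 < τ := by linarith
  obtain ⟨hk3, X5, hX5⟩ := pw_par τ 1 hτ0 hp4 one_pos
  obtain ⟨X6, hX6⟩ := pw_logs e τ 108 (C0 + 2) hτ0 hp4 hp3 hp5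
  obtain ⟨X7, hX7⟩ := pw_logs e τ (32 * C * (216 * C2 + 1)) (6 * C0 + 7) hτ0 hp4 hp3 hp5
  obtain ⟨X8, hX8⟩ := j2_big (8 * (8 * C * (Cw + 1)) * D0 * (54 * Cz + 1) + 3)
  obtain ⟨X9, hX9⟩ := j2_rpow C 1 one_pos
  refine ⟨X1 + X2 + X3 + X4 + X5 + X6 + X7 + X8 + X9, ?_⟩
  intro X hX n b N σ QQ bq hstd H hH hHq M1 M2 K1 K2 MM1 MM2 a1 a2 c1 c2 hblk1 hblk2
  have g1 := hX1 X (by omega) n b N σ QQ bq hstd
  have g2 := hX2 X (by omega) n b N σ QQ bq hstd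
  obtain ⟨hX16, hL1, hb0, hNX, hbX, hNb82, hNbM, hqq⟩ := hX4 X (by omega) n b N σ QQ bq hstd
  obtain ⟨-, y1, y2, y3, y4, y5⟩ := hX5 X (by omega)
  have g3 := hX3 X (by omega)
  obtain ⟨-, z1, -⟩ := hX6 X (by omega)
  obtain ⟨-, -, z2⟩ := hX7 X (by omega)
  have z3 := hX8 X (by omega)
  have z4 := hX9 X (by omega)
  rw [Real.rpow_one] at z4
  obtain ⟨h2n, hnX, hσ, hbA, hN1, hNb, hFam, hcard, hbq⟩ := hstd
  have hX16' : (16 : ℝ) ≤ X := by exact_mod_cast hX16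
  have hXp : (0 : ℝ) < X := by linarith
  have hX1 : 1 ≤ X := by omega
  have hX1' : (1 : ℝ) ≤ X := by linarith
  have hNbX : N * b ≤ X := by
    refine hNb.trans ?_
    have h5 : (X : ℝ) ^ (1 - th + 3 / 2 * e) ≤ (X : ℝ) ^ (1 : ℝ) :=
      Real.rpow_le_rpow_of_exponent_le hX1' (by linarith)
    rwa [Real.rpow_one] at h5
  have hH0 : 0 < H := by linarith
  obtain ⟨H4, hH4⟩ : ∃ y : ℝ, y = H ^ (-(1 / 4) : ℝ) := ⟨_, rfl⟩
  have hH40 : 0 ≤ H4 := by rw [hH4]; exact Real.rpow_nonneg hH0.le _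
  rw [← hH4]
  have hXe0 : 0 ≤ (X : ℝ) ^ (-(τ ^ 2 / 1000)) := by positivity
  rcases MM1.eq_empty_or_nonempty with hE | ⟨m0, hm0⟩
  · subst hE
    have h0 : ∀ q, Bq X (bq q) σ n q (f2f ∅ a1 (tp K1 (cq q c1)) σ q)
        (f2f MM2 a2 (tp K2 (cq q c2)) σ q) = 0 := by
      intro q
      unfold Bq
      refine Finset.sum_eq_zero fun a' _ => ?_
      have h00 : ∀ x : ℝ, f2f ∅ a1 (tp K1 (cq q c1)) σ q a' x = 0 := by
        intro x
        unfold f2f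
        simp
      simp only [h00, zero_mul, intervalIntegral.integral_zero]
    simp only [h0, norm_zero, Finset.sum_const_zero]
    have : 0 ≤ Real.log X := by linarith
    positivity
  have hblk1' := hblk1
  have hblk2' := hblk2
  obtain ⟨hM11, hM12, hK1, hMM1, ha1, hc1b, hMK, hc1⟩ := hblk1
  obtain ⟨hM21, hM22, hK2, hMM2, ha2, hc2⟩ := hblk2
  have hM1 : 1 ≤ M1 := y2.trans hM11
  have hM2 : 1 ≤ M2 := y2.trans hM21
  have hM10 : 0 < M1 := by linarith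
  have hM20 : 0 < M2 := by linarith
  have hKM : (K1 : ℝ) * M1 ≤ X := by
    have h5 : ((m0 * K1 : ℕ) : ℝ) ≤ X := by exact_mod_cast hMK m0 hm0
    push_cast at h5
    have h6 := (hMM1 m0 hm0).1
    have h7 : (0 : ℝ) ≤ K1 := Nat.cast_nonneg _
    nlinarith only [h5, mul_le_mul_of_nonneg_left h6.le h7]
  obtain ⟨L, hL⟩ : ∃ L : ℝ, L = Real.log X := ⟨_, rfl⟩
  obtain ⟨S, hS⟩ : ∃ A : ℝ, A = L ^ C0 := ⟨_, rfl⟩
  have hL0 : 0 < L := by rw [hL]; linarith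
  have hS1 : 1 ≤ S := by rw [hS]; exact one_le_pow₀ (by rw [hL]; exact hL1)
  have hS0 : 0 < S := by linarith
  have hLS : (Real.log X) ^ C0 = S := by rw [hS, hL]
  obtain ⟨V, hV⟩ : ∃ V : ℝ, V = (X : ℝ) ^ (-(τ ^ 2 / 950)) * S * M2 := ⟨_, rfl⟩
  obtain ⟨Z, hZ⟩ : ∃ Z : ℕ → ℝ, Z = fun q => ∑ r ∈ rr q, ∫ t in (0 : ℝ)..1,
    ‖tp K2 (cq q c2) ((r : ℝ) / q + σ * (M2 * (bq q / X)) * Real.exp (2 * Int.fract t))‖ ^ 2 :=
    ⟨_, rfl⟩
  obtain ⟨Nq, hNq⟩ : ∃ Z : ℕ → ℝ, Z = fun q => ∑ a' ∈ rr q, ∫ x in (bq q / X)..(2 * bq q / X),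
          ‖f2f MM1 a1 (tp K1 (cq q c1)) σ q a' x‖ ^ 2 := ⟨_, rfl⟩
  obtain ⟨Qf, hQf⟩ : ∃ Z : ℕ → ℝ, Z = fun q => X / (2 * (M1 * b)) *
    ZA X n b σ M1 K1 c1 MM2 a2 M2 V q := ⟨_, rfl⟩
  have hZ0 : ∀ q ∈ QQ, 0 ≤ Z q := by
    intro q _
    rw [hZ]
    refine Finset.sum_nonneg fun r _ => ?_
    refine intervalIntegral.integral_nonneg (by norm_num) fun t _ => by positivity
  have hNq0 : ∀ q ∈ QQ, 0 ≤ Nq q := by
    intro q hqm
    rw [hNq]
    refine Finset.sum_nonneg fun r _ => ?_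
    refine intervalIntegral.integral_nonneg ?_ fun t _ => by positivity
    have := (hbq q hqm).1
    exact div_le_div_of_nonneg_right (by linarith) hXp.le
  have hZA0 : ∀ q, 0 ≤ ZA X n b σ M1 K1 c1 MM2 a2 M2 V q := by
    intro q
    unfold ZA
    refine mul_nonneg (by positivity) (Finset.sum_nonneg fun χ _ => mul_nonneg
      (Nat.cast_nonneg _) (intervalIntegral.integral_nonneg ?_ fun γ _ => by positivity))
    have : 0 ≤ M1 * (b / X) := by positivity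
    linarith
  have hQf0 : ∀ q, 0 ≤ Qf q := by
    intro q
    rw [hQf]
    exact mul_nonneg (by positivity) (hZA0 q)
  have hins : ∀ q ∈ QQ, ∃ (_ : NeZero q) (_ : NeZero (hq q n)), hq q n ∣ q := by
    intro q hqm
    have hq1 := (hqq q hqm).1
    have hh1 : 1 ≤ hq q n := by
      unfold hq
      exact Nat.div_pos (Nat.le_of_dvd hq1 (Nat.gcd_dvd_left q n)) (Nat.gcd_pos_of_pos_left _ hq1)
    exact ⟨⟨by omega⟩, ⟨by omega⟩, Nat.div_dvd_of_dvd (Nat.gcd_dvd_left q n)⟩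
  have hLgC : ∀ q ∈ QQ, ∀ _ : NeZero q,
      ((LgC q MM2 a2 M2 V (X ^ 30)).card : ℝ) ≤ (X : ℝ) ^ (2 * τ / 25) := by
    intro q hqm i1
    obtain ⟨_, i2, hd⟩ := hins q hqm
    have h5 := (g1 q hqm i1 i2 hd M1 M2 K1 K2 MM1 MM2 a1 a2 c1 c2 hblk1' hblk2').1
    rw [hLS, ← hV] at h5
    exact h5
  -- one modulus
  have key : ∀ q ∈ QQ, ‖Bq X (bq q) σ n q (f2f MM1 a1 (tp K1 (cq q c1)) σ q)
        (f2f MM2 a2 (tp K2 (cq q c2)) σ q)‖ ≤
      (if (hq q n : ℝ) * (1 + b) ≤ (X : ℝ) ^ (τ / 5) then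
        8 * C * (Cw + 1) * (L * (b / X) * S ^ 2 * (M1 * M2) * (D0 * H4) *
          (Real.sqrt (Qf q) * Real.sqrt (Z q))) else 0) +
      (X : ℝ) ^ (-(τ / 60)) * (Real.sqrt b * (M2 * Real.sqrt (Z q))) +
      C * ((X : ℝ) ^ (-(τ ^ 2 / 950)) * S * M2) * (Real.sqrt (2 * b / X) *
        (Real.sqrt (Nq q) * Real.sqrt (Z q))) + C / (X : ℝ) ^ 3 := by
    intro q hqm
    rw [← hV]
    obtain ⟨i1, i2, hd⟩ := hins q hqm
    obtain ⟨-, h5⟩ := g1 q hqm i1 i2 hd M1 M2 K1 K2 MM1 MM2 a1 a2 c1 c2 hblk1' hblk2'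
    rw [hLS, ← hV, ← hL] at h5
    have hL5 := hLgC q hqm i1
    have hZq : Z q = ∑ r ∈ rr q, ∫ t in (0 : ℝ)..1,
      ‖tp K2 (cq q c2) ((r : ℝ) / q + σ * (M2 * (bq q / X)) * Real.exp (2 * Int.fract t))‖ ^ 2 := by
      rw [hZ]
    have hNqq : Nq q = ∑ a' ∈ rr q, ∫ x in (bq q / X)..(2 * bq q / X),
          ‖f2f MM1 a1 (tp K1 (cq q c1)) σ q a' x‖ ^ 2 := by rw [hNq]
    have hQq : Qf q = X / (2 * (M1 * b)) * ZA X n b σ M1 K1 c1 MM2 a2 M2 V q := by rw [hQf]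
    rw [← hZq, ← hNqq] at h5
    have hB0 : 0 ≤ (X : ℝ) ^ (-(τ / 60)) * (Real.sqrt b * (M2 * Real.sqrt (Z q))) := by positivity
    have hβ := hbq q hqm
    have hh1 : 1 ≤ hq q n := Nat.one_le_iff_ne_zero.2 (NeZero.ne _)
    have hh0 : (0 : ℝ) < hq q n := by exact_mod_cast hh1
    by_cases hA : (hq q n : ℝ) * (1 + b) ≤ (X : ℝ) ^ (τ / 5)
    · rw [if_pos hA]
      have h6 := h5 (Cw * S ^ 2 * M2 * (hq q n : ℝ)) (Cw * S ^ 2 * M2 * M2) (by positivity)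
        (by positivity) (by
          intro T hT χ k
          refine le_trans ?_ (hw q (hq q n) hd M2 S MM2 a2 hM2 hS0.le hMM2
            (by rw [← hLS]; exact ha2) T hT χ k)
          refine Finset.sum_le_sum fun ξ _ => Finset.sum_le_sum fun j _ => ?_
          split_ifs
          · exact le_rfl
          · positivity)
      have t1 := h2_num1 (ltK (hq q n)) (1 + b) (hq q n) H D0 (ltK_nonneg _) (by linarith) hh0 hH
        (hHq q hqm) hD0 (h4 _ hh1)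
      rw [← hH4] at t1
      have h7 := tw_numA C Cw L b X (ltK (hq q n))
        (X / (2 * (M1 * b)) * ZA X n b σ M1 K1 c1 MM2 a2 M2 V q) (Z q) S M1 M2 (hq q n) (bq q)
        (D0 * H4) ((X : ℝ) ^ (τ / 5)) hC hCw hL0.le hb0 hXp hβ.1 hβ.2 hS0 hM10 hM20 hh0.le
        (ltK_nonneg _) hA (y1.trans hM11) (y1.trans hM21) t1
      rw [← hQq] at h6 h7
      refine h6.trans ?_
      have e7 : Real.sqrt (2 * b / X) * Real.sqrt (Nq q) * Real.sqrt (Z q) =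
        Real.sqrt (2 * b / X) * (Real.sqrt (Nq q) * Real.sqrt (Z q)) := by ring
      rw [e7]
      linarith
    · rw [if_neg hA]
      rw [not_le] at hA
      have hR2 : ∀ p, ‖alm q MM2 a2 M2 p‖ ≤ 2 * S * M2 := fun p =>
        alm_le q MM2 a2 M2 S hM2 hS0.le hMM2 (by rw [← hLS]; exact ha2) p
      have h6 := h5 0 ((X : ℝ) ^ (2 * τ / 25) * (2 * S * M2) ^ 2) le_rfl (by positivity) (by
          intro T hT χ k
          refine le_trans (om_win q (hq q n) hd MM2 a2 M2 V (2 * S * M2) _ (X ^ 30) hR2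
            (by positivity) hL5 (Icc (k - T) (k + T)) χ) ?_
          rw [zero_mul, zero_add])
      have h7 := g2 q hqm i1 i2 hd hA M1 M2 (Z q) V K1 MM1 MM2 a1 a2 c1 hM20 hblk1' hL5
      rw [hLS, ← hL] at h7
      rw [← hQq] at h6 h7
      refine h6.trans ?_
      have e7 : Real.sqrt (2 * b / X) * Real.sqrt (Nq q) * Real.sqrt (Z q) =
        Real.sqrt (2 * b / X) * (Real.sqrt (Nq q) * Real.sqrt (Z q)) := by ring
      rw [e7]
      linarith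
  -- sums
  have hL1' : 1 ≤ L := by rw [hL]; exact hL1
  obtain ⟨V2, hV2⟩ : ∃ V : ℝ, V = 12 * L ^ 2 * (8 * N + X / (M2 * b)) * (S * X / M2) := ⟨_, rfl⟩
  have hlogN : 3 * (1 + Real.log N) ^ 2 ≤ 12 * L ^ 2 := by
    have h5 : Real.log N ≤ L := by rw [hL]; exact Real.log_le_log (by linarith) hNX
    have h6 : 0 ≤ Real.log N := Real.log_nonneg hN1
    have h7 : (1 + Real.log N) ^ 2 ≤ (2 * L) ^ 2 :=
      pow_le_pow_left₀ (by linarith) (by linarith) 2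
    nlinarith only [h7]
  have hc1S : ∑ k ∈ Icc 1 K1, ‖c1 k‖ ^ 2 ≤ S * X / M1 := by rw [← hLS]; exact hc1
  have hc2S : ∑ k ∈ Icc 1 K2, ‖c2 k‖ ^ 2 ≤ S * X / M2 := by rw [← hLS]; exact hc2
  have hN0 : 0 ≤ N := by linarith
  have hZs : ∑ q ∈ QQ, Z q ≤ V2 := by
    have h2 := bmass_c X hX1 b N σ M2 hb0 hN1 hM20 hσ QQ hFam bq hbq K2 c2
    rw [hZ, hV2]
    refine h2.trans ?_
    have hc0 : 0 ≤ ∑ k ∈ Icc 1 K2, ‖c2 k‖ ^ 2 := Finset.sum_nonneg fun k _ => by positivity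
    have h5 : 0 ≤ 8 * N + X / (M2 * b) := by positivity
    exact mul_le_mul (mul_le_mul_of_nonneg_right hlogN h5) hc2S hc0 (by positivity)
  have hMV : Real.sqrt V2 * M2 ≤ Real.sqrt (108 * L ^ 2 * (S * (X : ℝ) ^ 2 / b)) := by
    have e1 : Real.sqrt V2 * M2 = Real.sqrt (V2 * M2 ^ 2) := by
      rw [Real.sqrt_mul' _ (by positivity), Real.sqrt_sq hM20.le]
    rw [e1]
    refine Real.sqrt_le_sqrt ?_
    have e2 : V2 * M2 ^ 2 = 12 * L ^ 2 * S * X * (8 * (N * M2) + X / b) := by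
      rw [hV2]
      field_simp
    have e3 : N * M2 ≤ X / b := by
      rw [le_div_iff₀ hb0]
      linarith [hNbM M2 hM22 hM20.le]
    rw [e2]
    calc 12 * L ^ 2 * S * X * (8 * (N * M2) + X / b) ≤
          12 * L ^ 2 * S * X * (8 * (X / b) + X / b) :=
          mul_le_mul_of_nonneg_left (by linarith) (by positivity)
      _ = 108 * L ^ 2 * (S * (X : ℝ) ^ 2 / b) := by ring
  refine (Finset.sum_le_sum key).trans ?_
  rw [Finset.sum_add_distrib, Finset.sum_add_distrib, Finset.sum_add_distrib, ← Finset.sum_filter]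
  -- tail
  have htail : ∑ _q ∈ QQ, C / (X : ℝ) ^ 3 ≤ 1 := by
    rw [Finset.sum_const, nsmul_eq_mul]
    have hcard : (QQ.card : ℝ) ≤ X := by
      have : QQ.card ≤ X := by
        calc QQ.card ≤ (Icc 1 X).card := Finset.card_le_card fun q hqm =>
              Finset.mem_Icc.2 ⟨(hqq q hqm).1, (hqq q hqm).2.1⟩
          _ = X := by simp
      exact_mod_cast this
    calc (QQ.card : ℝ) * (C / (X : ℝ) ^ 3) ≤ X * (C / (X : ℝ) ^ 3) :=
          mul_le_mul_of_nonneg_right hcard (by positivity)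
      _ = C / X ^ 2 := by field_simp
      _ ≤ 1 := by
          rw [div_le_one (by positivity)]
          nlinarith only [z4, mul_nonneg hXp.le (sub_nonneg.2 hX1')]
  have hone : 1 ≤ X * (X : ℝ) ^ (-(τ ^ 2 / 1000)) := by
    have h5 : X * (X : ℝ) ^ (-(τ ^ 2 / 1000)) = (X : ℝ) ^ (1 + -(τ ^ 2 / 1000)) := by
      rw [Real.rpow_add hXp, Real.rpow_one]
    rw [h5]
    refine Real.one_le_rpow hX1' ?_
    nlinarith only [hτ0, hp4]
  -- small values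
  have hsmall : ∑ q ∈ QQ, C * ((X : ℝ) ^ (-(τ ^ 2 / 950)) * S * M2) * (Real.sqrt (2 * b / X) *
        (Real.sqrt (Nq q) * Real.sqrt (Z q))) ≤ X * (X : ℝ) ^ (-(τ ^ 2 / 1000)) := by
    rw [← Finset.mul_sum, ← Finset.mul_sum]
    have hNs : ∑ q ∈ QQ, Nq q ≤ C2 * S ^ 4 * X * (1 + L) ^ 5 := by
      have h5 := hN2 X b N σ τ QQ bq (by omega) hb0 hN1 hNbX hNX hσ hFam hbq M1 S S K1 MM1
        a1 c1 hS0.le (by rw [← hLS]; exact hblk1')
      rw [← hL] at h5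
      rw [hNq]
      exact h5
    have h6 := cs_sqrt QQ Nq Z _ _ hNq0 hZ0 hNs hZs
    have h7 := tw_sumS C C2 L b X S S M2 ((X : ℝ) ^ (-(τ ^ 2 / 950)))
      (C2 * S ^ 4 * X * (1 + L) ^ 5) V2 hC hC2 hL1' hb0 hXp hS1 hS1 hM20.le (by positivity) le_rfl
      hMV
    have h8 : 32 * C * (216 * C2 + 1) * (L ^ 7 * S ^ 5 * S) * (X : ℝ) ^ (-(τ ^ 2 / 950)) ≤
        (X : ℝ) ^ (-(τ ^ 2 / 1000)) := by
      refine le_trans (le_of_eq ?_) z2
      rw [← hL, hS]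
      have : L ^ (6 * C0 + 7) = L ^ 7 * (L ^ C0) ^ 5 * L ^ C0 := by
        rw [← pow_mul, ← pow_add, ← pow_add]
        congr 1
        ring
      rw [this]
    calc _ ≤ C * ((X : ℝ) ^ (-(τ ^ 2 / 950)) * S * M2) * (Real.sqrt (2 * b / X) *
          (Real.sqrt (C2 * S ^ 4 * X * (1 + L) ^ 5) * Real.sqrt V2)) := by
          gcongr
      _ ≤ _ := h7
      _ = (32 * C * (216 * C2 + 1) * (L ^ 7 * S ^ 5 * S) * (X : ℝ) ^ (-(τ ^ 2 / 950))) * X := by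
          ring
      _ ≤ (X : ℝ) ^ (-(τ ^ 2 / 1000)) * X := mul_le_mul_of_nonneg_right h8 hXp.le
      _ = _ := by ring
  -- case B
  have hBs : ∑ q ∈ QQ, (X : ℝ) ^ (-(τ / 60)) * (Real.sqrt b * (M2 * Real.sqrt (Z q))) ≤
      X * (X : ℝ) ^ (-(τ ^ 2 / 1000)) := by
    rw [← Finset.mul_sum, ← Finset.mul_sum, ← Finset.mul_sum]
    have h6 := cs_sqrt QQ (fun _ => 1) Z (X ^ (e / 2)) V2 (fun q _ => by norm_num) hZ0
      (by
        rw [Finset.sum_const, nsmul_eq_mul, mul_one]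
        exact hcard) hZs
    simp only [Real.sqrt_one, one_mul] at h6
    have e8 : Real.sqrt ((X : ℝ) ^ (e / 2)) = (X : ℝ) ^ (e / 4) := by
      rw [Real.sqrt_eq_rpow, ← Real.rpow_mul hXp.le]
      congr 1
      ring
    rw [e8] at h6
    have e9 : Real.sqrt b * Real.sqrt (108 * L ^ 2 * (S * (X : ℝ) ^ 2 / b)) ≤
        108 * (L ^ 2 * S) * X := by
      rw [← Real.sqrt_mul hb0.le]
      rw [Real.sqrt_le_left (by positivity)]
      have e10 : b * (108 * L ^ 2 * (S * (X : ℝ) ^ 2 / b)) = 108 * (L ^ 2 * S) * X ^ 2 := by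
        field_simp
      rw [e10, mul_pow]
      refine mul_le_mul_of_nonneg_right ?_ (by positivity)
      have h11 : 1 ≤ 108 * (L ^ 2 * S) := by
        have p1 := one_le_pow₀ (n := 2) hL1'
        have : 1 ≤ L ^ 2 * S := one_le_mul_of_one_le_of_one_le p1 hS1
        linarith
      calc 108 * (L ^ 2 * S) = (108 * (L ^ 2 * S)) ^ 1 := (pow_one _).symm
        _ ≤ (108 * (L ^ 2 * S)) ^ 2 := pow_le_pow_right₀ h11 (by norm_num)
    have h8 : 108 * (L ^ 2 * S) * ((X : ℝ) ^ (-(τ / 60)) * (X : ℝ) ^ (e / 4)) ≤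
        (X : ℝ) ^ (-(τ ^ 2 / 1000)) := by
      refine le_trans (le_of_eq ?_) z1
      rw [← hL, hS]
      have : L ^ (C0 + 2) = L ^ 2 * L ^ C0 := by
        rw [← pow_add]
        congr 1
        ring
      rw [this]
    calc (X : ℝ) ^ (-(τ / 60)) * (Real.sqrt b * (M2 * ∑ q ∈ QQ, Real.sqrt (Z q))) ≤
        (X : ℝ) ^ (-(τ / 60)) * (Real.sqrt b * (M2 * ((X : ℝ) ^ (e / 4) * Real.sqrt V2))) := by
          gcongr
      _ = (X : ℝ) ^ (-(τ / 60)) * (X : ℝ) ^ (e / 4) * (Real.sqrt b * (Real.sqrt V2 * M2)) := by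
          ring
      _ ≤ (X : ℝ) ^ (-(τ / 60)) * (X : ℝ) ^ (e / 4) * (Real.sqrt b *
          Real.sqrt (108 * L ^ 2 * (S * (X : ℝ) ^ 2 / b))) := by
          gcongr
      _ ≤ (X : ℝ) ^ (-(τ / 60)) * (X : ℝ) ^ (e / 4) * (108 * (L ^ 2 * S) * X) :=
          mul_le_mul_of_nonneg_left e9 (by positivity)
      _ = (108 * (L ^ 2 * S) * ((X : ℝ) ^ (-(τ / 60)) * (X : ℝ) ^ (e / 4))) * X := by ring
      _ ≤ (X : ℝ) ^ (-(τ ^ 2 / 1000)) * X := mul_le_mul_of_nonneg_right h8 hXp.le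
      _ = _ := by ring
  -- case A
  have hAs : ∑ q ∈ QQ.filter (fun q => (hq q n : ℝ) * (1 + b) ≤ (X : ℝ) ^ (τ / 5)),
      8 * C * (Cw + 1) * (L * (b / X) * S ^ 2 * (M1 * M2) * (D0 * H4) *
          (Real.sqrt (Qf q) * Real.sqrt (Z q))) ≤ L ^ (7 * (C0 + 1)) * X * H4 := by
    obtain ⟨QA, hQA⟩ : ∃ Q : Finset ℕ, Q = QQ.filter (fun q => (hq q n : ℝ) * (1 + b) ≤
      (X : ℝ) ^ (τ / 5)) := ⟨_, rfl⟩
    rw [← hQA]
    have hsub : QA ⊆ QQ := by rw [hQA]; exact Finset.filter_subset _ _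
    have h5 : ∑ q ∈ QA, Qf q ≤ X / (2 * (M1 * b)) * (Cz * (1 + L) ^ 3 * (S * X / M1)) := by
      rw [hQf, ← Finset.mul_sum]
      refine mul_le_mul_of_nonneg_left ?_ (by positivity)
      have h6 := g3 n b N σ QA hb0 hN1 hNX hNb ⟨fun q hqm => hFam.1 q (hsub hqm),
        fun q hqm q' hqm' => hFam.2 q (hsub hqm) q' (hsub hqm')⟩
        (le_trans (by exact_mod_cast Finset.card_le_card hsub) hcard) hσ
        (fun q hqm => by
          rw [hQA] at hqm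
          exact (Finset.mem_filter.1 hqm).2)
        (by
          intro m hm hmX
          have h8 : (1 : ℝ) ≤ (m.divisors.card : ℝ) := by
            exact_mod_cast Finset.card_pos.2 ⟨1, Nat.one_mem_divisors.2 (by omega)⟩
          refine (le_self_pow₀ h8 (by omega)).trans (y5 m hm ?_)
          refine le_trans (by linarith : (m : ℝ) ≤ 2 * X) (le_self_pow₀ (by linarith) (by omega)))
        M1 K1 c1 MM2 a2 M2 V hM10 hM12 hKM (fun q hqm i1 => hLgC q (hsub hqm) i1)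
      rw [← hL] at h6
      refine h6.trans ?_
      exact mul_le_mul_of_nonneg_left hc1S (by positivity)
    have h6 := cs_sqrt QA Qf Z _ V2 (fun q _ => hQf0 q) (fun q hqm => hZ0 q (hsub hqm)) h5
      ((Finset.sum_le_sum_of_subset_of_nonneg hsub (fun q hqm _ => hZ0 q hqm)).trans hZs)
    have h7 := tw_sumA (8 * C * (Cw + 1)) D0 Cz L b X S S M1 M2 H4
      (X / (2 * (M1 * b)) * (Cz * (1 + L) ^ 3 * (S * X / M1))) V2 (by positivity) (by linarith) hCz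
      hL1' hb0 hXp hS0.le hM10 hH40 rfl hMV
    rw [← Finset.mul_sum, ← Finset.mul_sum]
    refine le_trans ?_ (h7.trans ?_)
    · have : 0 ≤ D0 := by linarith
      gcongr
    · have e8 : L ^ (7 * (C0 + 1)) = L ^ 7 * (L ^ C0) ^ 7 := by
        rw [← pow_mul, ← pow_add]
        congr 1
        ring
      have h9 : 8 * (8 * C * (Cw + 1)) * D0 * (54 * Cz + 1) ≤ L := by
        rw [hL]
        linarith
      have h10 : S ^ 2 * S ≤ S ^ 7 := by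
        calc S ^ 2 * S = S ^ 3 := by ring
          _ ≤ S ^ 7 := pow_le_pow_right₀ hS1 (by norm_num)
      rw [e8, ← hS]
      calc 8 * (8 * C * (Cw + 1)) * D0 * (54 * Cz + 1) * (L ^ 6 * S ^ 2 * S * X * H4) =
          8 * (8 * C * (Cw + 1)) * D0 * (54 * Cz + 1) * (L ^ 6 * (S ^ 2 * S) * (X * H4)) := by ring
        _ ≤ L * (L ^ 6 * S ^ 7 * (X * H4)) := by
            gcongr
        _ = L ^ 7 * S ^ 7 * X * H4 := by ring
  have hL3 : 3 ≤ L ^ (7 * (C0 + 1)) := by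
    have h9 : 3 ≤ L := by
      rw [hL]
      have : 0 < 8 * (8 * C * (Cw + 1)) * D0 * (54 * Cz + 1) := by positivity
      linarith
    exact h9.trans (le_self_pow₀ hL1' (by omega))
  have hXX : 0 ≤ X * (X : ℝ) ^ (-(τ ^ 2 / 1000)) := by positivity
  have hfin := mul_le_mul_of_nonneg_right hL3 hXX
  rw [← hL]
  have e11 : L ^ (7 * (C0 + 1)) * X * (H4 + (X : ℝ) ^ (-(τ ^ 2 / 1000))) =
      L ^ (7 * (C0 + 1)) * X * H4 + L ^ (7 * (C0 + 1)) * (X * (X : ℝ) ^ (-(τ ^ 2 / 1000))) := by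
    ring
  rw [e11]
  linarith

end Pool.MP_dd84fd_nt.LXP
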