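import Pool.Agent.Lib.MP_dd84fd_nt.LX.PlFin
import Pool.Agent.Lib.MP_dd84fd_nt.LX.PwTwo
import Pool.Agent.Lib.MP_dd84fd_nt.LX.PwLam

/-!
# PL_L: the pointwise lemma
-/

set_option autoImplicit false

namespace Pool.MP_dd84fd_nt.LXP

theorem plL : Pool.MP_dd84fd_nt.LX.PlL := pl_l twoTwoW lam_two_w

end Pool.MP_dd84fd_nt.LXP
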