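import Pool.Agent.Lib.MP_dd84fd_nt.LX.Defs
import Pool.Agent.Lib.MP_dd84fd_nt.JX.LQ
import Pool.Agent.Lib.MP_dd84fd_nt.JX.STI
import Pool.Agent.Lib.MP_dd84fd_nt.JX.SPc

/-!
# LX-SSt: the structure theorem of Theorem L

`Σ_{n ∈ E} ph n PhU G X U v ω n = Σ_{n ≤ X} v n F n`, `F = FF G (xx G U ω E ph)`.  Type I parts of `v`: `JX.ti_j`
(hypothesis on `U` only: `VBH`).  A block `b` of `v`: Cauchy, `‖(1/G) Σ_j ω_j U_j b̂_j K_j‖ ≤ (nm2 U)^(1/2) (nm2 (ω b̂ K))^(1/2)`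
and the Q-lemma `JX.q_lem`.
-/

set_option autoImplicit false

namespace Pool.MP_dd84fd_nt.LX

open Finset Pool.MP_67663b_nt.Odd Pool.MP_dd84fd_nt.En Pool.MP_dd84fd_nt.E2 Pool.MP_dd84fd_nt.LS
open Pool.MP_dd84fd_nt.L2G (nrm)
open Pool.MP_dd84fd_nt.GX Pool.MP_dd84fd_nt.HX
open Pool.MP_dd84fd_nt.IX (dl yB wSI SSI y3_dl y2_dl)
open Pool.MP_dd84fd_nt.JX (Adm ZJ DecJ Str ty1 ty2 Ok1 Ok2 str_ok ti_j ty1_sum q_lem TIJ1)

theorem pair_u (X G : ℕ) [NeZero G] (U : ZMod G → ℂ) (v : ℕ → ℝ) (ω : ZMod G → ℂ) (E : Finset ℕ)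
    (ph : ℕ → ℂ) :
    ∑ n ∈ E, ph n * PhU G X U v ω n =
      ∑ n ∈ Icc 1 X, ((v n : ℝ) : ℂ) * FF G (xx G U ω E ph) n := by
  have hL : ∑ n ∈ E, ph n * PhU G X U v ω n =
      (1 / (G : ℂ)) * ∑ j : ZMod G, xx G U ω E ph j * tr G X v j := by
    have h1 : ∀ n ∈ E, ph n * PhU G X U v ω n = (1 / (G : ℂ)) * ∑ j : ZMod G,
        (ω j * U j * tr G X v j) * (ph n * ZMod.stdAddChar (-((n : ZMod G) * j))) := by
      intro n _
      unfold PhU
      rw [mul_left_comm, Finset.mul_sum]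
      congr 1
      refine Finset.sum_congr rfl fun j _ => ?_
      ring
    rw [Finset.sum_congr rfl h1, ← Finset.mul_sum, Finset.sum_comm]
    congr 1
    refine Finset.sum_congr rfl fun j _ => ?_
    rw [← Finset.mul_sum]
    unfold xx KE
    ring
  have hR : ∑ n ∈ Icc 1 X, ((v n : ℝ) : ℂ) * FF G (xx G U ω E ph) n =
      (1 / (G : ℂ)) * ∑ j : ZMod G, xx G U ω E ph j * tr G X v j := by
    have h1 : ∀ n ∈ Icc 1 X, ((v n : ℝ) : ℂ) * FF G (xx G U ω E ph) n =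
        (1 / (G : ℂ)) * ∑ j : ZMod G, xx G U ω E ph j *
          (((v n : ℝ) : ℂ) * ZMod.stdAddChar ((n : ZMod G) * j)) := by
      intro n _
      unfold FF
      rw [mul_left_comm, Finset.mul_sum]
      congr 1
      refine Finset.sum_congr rfl fun j _ => ?_
      ring
    rw [Finset.sum_congr rfl h1, ← Finset.mul_sum, Finset.sum_comm]
    congr 1
    refine Finset.sum_congr rfl fun j _ => ?_
    rw [← Finset.mul_sum]
    rfl
  rw [hL, hR]

/-- one function against `U`, Cauchy -/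
theorem pair_cs (X G : ℕ) [NeZero G] (U : ZMod G → ℂ) (v : ℕ → ℝ) (ω : ZMod G → ℂ)
    (E : Finset ℕ) (ph : ℕ → ℂ) :
    ‖∑ n ∈ Icc 1 X, ((v n : ℝ) : ℂ) * FF G (xx G U ω E ph) n‖ ≤
      Real.sqrt (nm2 G U) * Real.sqrt (nm2 G (xx G (tr G X v) ω E ph)) := by
  have hR : ∑ n ∈ Icc 1 X, ((v n : ℝ) : ℂ) * FF G (xx G U ω E ph) n =
      (1 / (G : ℂ)) * ∑ j : ZMod G, U j * xx G (tr G X v) ω E ph j := by
    have h1 : ∀ n ∈ Icc 1 X, ((v n : ℝ) : ℂ) * FF G (xx G U ω E ph) n =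
        (1 / (G : ℂ)) * ∑ j : ZMod G, xx G U ω E ph j *
          (((v n : ℝ) : ℂ) * ZMod.stdAddChar ((n : ZMod G) * j)) := by
      intro n _
      unfold FF
      rw [mul_left_comm, Finset.mul_sum]
      congr 1
      refine Finset.sum_congr rfl fun j _ => ?_
      ring
    rw [Finset.sum_congr rfl h1, ← Finset.mul_sum, Finset.sum_comm]
    congr 1
    refine Finset.sum_congr rfl fun j _ => ?_
    rw [← Finset.mul_sum]
    have h2 : ∑ n ∈ Icc 1 X, ((v n : ℝ) : ℂ) * ZMod.stdAddChar ((n : ZMod G) * j) =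
        tr G X v j := rfl
    rw [h2]
    unfold xx
    ring
  rw [hR, norm_mul]
  have h0 : ‖(1 / (G : ℂ))‖ = 1 / (G : ℝ) := by simp
  rw [h0]
  have hG0 : (0 : ℝ) ≤ 1 / (G : ℝ) := by positivity
  have h1 : ‖∑ j : ZMod G, U j * xx G (tr G X v) ω E ph j‖ ≤
      ∑ j : ZMod G, ‖U j‖ * ‖xx G (tr G X v) ω E ph j‖ := by
    refine (norm_sum_le _ _).trans (le_of_eq ?_)
    exact Finset.sum_congr rfl fun j _ => norm_mul _ _
  have h2 := Finset.sum_mul_sq_le_sq_mul_sq (Finset.univ : Finset (ZMod G))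
    (fun j => ‖U j‖) (fun j => ‖xx G (tr G X v) ω E ph j‖)
  rw [← Real.sqrt_mul (by unfold nm2; positivity)]
  refine Real.le_sqrt_of_sq_le ?_
  calc (1 / (G : ℝ) * ‖∑ j : ZMod G, U j * xx G (tr G X v) ω E ph j‖) ^ 2
      ≤ (1 / (G : ℝ) * ∑ j : ZMod G, ‖U j‖ * ‖xx G (tr G X v) ω E ph j‖) ^ 2 :=
        pow_le_pow_left₀ (by positivity) (mul_le_mul_of_nonneg_left h1 hG0) 2
    _ = (1 / (G : ℝ)) ^ 2 * (∑ j : ZMod G, ‖U j‖ * ‖xx G (tr G X v) ω E ph j‖) ^ 2 := by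
        rw [mul_pow]
    _ ≤ (1 / (G : ℝ)) ^ 2 * ((∑ j : ZMod G, ‖U j‖ ^ 2) *
        ∑ j : ZMod G, ‖xx G (tr G X v) ω E ph j‖ ^ 2) :=
        mul_le_mul_of_nonneg_left h2 (by positivity)
    _ = nm2 G U * nm2 G (xx G (tr G X v) ω E ph) := by
        unfold nm2
        ring

theorem st_l : StL := by
  intro C CV th e τ η hA hη hη'
  obtain ⟨ht1, ht2, he0, hτ1, hτ2⟩ := id hA
  obtain ⟨X3, hT1⟩ := ti_j CV th e τ η hA hη hη'
  obtain ⟨X5, hT3⟩ := q_lem C th e τ η hA hη hη'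
  obtain ⟨X6, hX6⟩ := MP_log_pow 3 (3 * C + CV) (ε := η / 40) (by linarith)
  refine ⟨X3 + X5 + X6 + 8, ?_⟩
  intro X hX G _ hG U hU v hv ω hω E hE hcard ph hph hN
  have hX8 : 8 ≤ X := by omega
  have hX1 : 1 ≤ X := by omega
  have hX0 : (0 : ℝ) < X := by exact_mod_cast hX1
  have hX1r : (1 : ℝ) ≤ X := by exact_mod_cast hX1
  have hG4 : 4 * X ^ 2 ≤ G := by
    have h1 : 4 * X ^ 2 ≤ X ^ 5 := by
      have h2 : X ^ 5 = X ^ 3 * X ^ 2 := by ring
      rw [h2]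
      have h3 : 4 ≤ X ^ 3 := by
        calc 4 ≤ 8 ^ 3 := by norm_num
          _ ≤ X ^ 3 := Nat.pow_le_pow_left hX8 3
      exact Nat.mul_le_mul_right _ h3
    exact h1.trans hG
  have hG3 : 3 * X ≤ G := by
    have h1 : 3 * X ≤ 4 * X ^ 2 := by nlinarith
    exact h1.trans hG4
  set L : ℝ := Real.log X with hLdef
  have hL1 : 1 ≤ L := by
    have h1 : Real.log 8 ≤ L := Real.log_le_log (by norm_num) (by exact_mod_cast hX8)
    have h2 : Real.log 8 = 3 * Real.log 2 := by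
      rw [show (8 : ℝ) = 2 ^ 3 by norm_num, Real.log_pow]
      norm_num
    have h3 := Real.log_two_gt_d9
    linarith
  have hL0 : 0 < L := by linarith
  have hE0 : (0 : ℝ) ≤ E.card := Nat.cast_nonneg _
  obtain ⟨I, γ, α, M, K, a, c, hI, hk1, hk2, hv'⟩ := str_ok C th e τ X v hv
  set Q : ℝ := L ^ C with hQdef
  have hQ1 : 1 ≤ Q := one_le_pow₀ hL1
  have hQ0 : 0 ≤ Q := by linarith
  have hCV1 : 1 ≤ L ^ CV := one_le_pow₀ hL1
  set Y : ℝ := (X : ℝ) ^ (1 - η / 20) * E.card with hY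
  have hY0 : 0 ≤ Y := by positivity
  have hYa : (X : ℝ) ^ (1 - η / 4) * E.card ≤ Y := by
    refine mul_le_mul_of_nonneg_right ?_ hE0
    exact Real.rpow_le_rpow_of_exponent_le hX1r (by linarith)
  have hone : ∀ i, ‖∑ n ∈ Icc 1 X, ((ty1 (γ i) (α i) n : ℝ) : ℂ) *
      FF G (xx G U ω E ph) n‖ ≤ 2 * Q ^ 2 * Y := by
    intro i
    refine (ty1_sum th e X hX1 _ _ (hT1 X (by omega) G hG3 _ hU ω hω E hE hcard ph hph hN)
      (γ i) (α i) Q (hk1 i)).trans ?_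
    exact mul_le_mul_of_nonneg_left hYa (by positivity)
  have htwo : ∀ i, ‖∑ n ∈ Icc 1 X, ((ty2 (K i) (a i) (c i) n : ℝ) : ℂ) *
      FF G (xx G U ω E ph) n‖ ≤ L ^ CV * Y := by
    intro i
    refine (pair_cs X G U _ ω E ph).trans ?_
    have h1 := hT3 X (by omega) G hG4 (M i) (K i) (a i) (c i) (hk2 i) ω hω E hE hcard ph hph hN
    have h2 : Real.sqrt (nm2 G U) ≤ Real.sqrt X * L ^ CV := by
      refine Real.sqrt_le_iff.2 ⟨by positivity, hU.1.trans ?_⟩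
      rw [mul_pow, Real.sq_sqrt hX0.le]
      have h3 : L ^ CV ≤ (L ^ CV) ^ 2 := by nlinarith
      exact mul_le_mul_of_nonneg_left h3 hX0.le
    have h3 : Real.sqrt (nm2 G (xx G (tr G X (ty2 (K i) (a i) (c i))) ω E ph)) ≤
        (X : ℝ) ^ (1 / 2 - η / 20) * E.card := by
      refine Real.sqrt_le_iff.2 ⟨by positivity, h1.trans (le_of_eq ?_)⟩
      rw [mul_pow, ← Real.rpow_natCast ((X : ℝ) ^ (1 / 2 - η / 20)) 2, ← Real.rpow_mul hX0.le]
      congr 2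
      push_cast
      ring
    calc Real.sqrt (nm2 G U) * Real.sqrt (nm2 G (xx G (tr G X (ty2 (K i) (a i) (c i))) ω E ph))
        ≤ (Real.sqrt X * L ^ CV) * ((X : ℝ) ^ (1 / 2 - η / 20) * E.card) :=
          mul_le_mul h2 h3 (Real.sqrt_nonneg _) (by positivity)
      _ = L ^ CV * Y := by
          have h4 : Real.sqrt X * (X : ℝ) ^ (1 / 2 - η / 20) = (X : ℝ) ^ (1 - η / 20) := by
            rw [Real.sqrt_eq_rpow, ← Real.rpow_add hX0]
            congr 1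
            ring
          rw [hY, ← h4]
          ring
  have hsum : ‖∑ n ∈ E, ph n * PhU G X U v ω n‖ ≤ I * (2 * Q ^ 2 * Y) + I * (L ^ CV * Y) := by
    rw [pair_u]
    have h1 : ∑ n ∈ Icc 1 X, ((v n : ℝ) : ℂ) * FF G (xx G U ω E ph) n =
        ∑ i ∈ range I, ∑ n ∈ Icc 1 X, ((ty1 (γ i) (α i) n : ℝ) : ℂ) * FF G (xx G U ω E ph) n +
        ∑ i ∈ range I, ∑ n ∈ Icc 1 X, ((ty2 (K i) (a i) (c i) n : ℝ) : ℂ) *
          FF G (xx G U ω E ph) n := by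
      rw [Finset.sum_comm, Finset.sum_comm (s := range I) (t := Icc 1 X)
        (f := fun i n => ((ty2 (K i) (a i) (c i) n : ℝ) : ℂ) * FF G (xx G U ω E ph) n),
        ← Finset.sum_add_distrib]
      refine Finset.sum_congr rfl fun n hn => ?_
      rw [hv' n hn, ← Finset.sum_mul, ← Finset.sum_mul]
      push_cast
      ring
    rw [h1]
    refine (norm_add_le _ _).trans (add_le_add ?_ ?_)
    · refine (norm_sum_le _ _).trans ((Finset.sum_le_sum fun i _ => hone i).trans (le_of_eq ?_))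
      rw [Finset.sum_const, Finset.card_range, nsmul_eq_mul]
    · refine (norm_sum_le _ _).trans ((Finset.sum_le_sum fun i _ => htwo i).trans (le_of_eq ?_))
      rw [Finset.sum_const, Finset.card_range, nsmul_eq_mul]
  refine hsum.trans ?_
  have h1 : I * (2 * Q ^ 2 * Y) + I * (L ^ CV * Y) ≤ 3 * L ^ (3 * C + CV) * Y := by
    have h2 : Q ^ 2 ≤ Q ^ 2 * L ^ CV := le_mul_of_one_le_right (by positivity) hCV1
    have h3 : L ^ CV ≤ Q ^ 2 * L ^ CV := le_mul_of_one_le_left (by positivity)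
      (one_le_pow₀ hQ1)
    have h4 : 2 * Q ^ 2 * Y + L ^ CV * Y ≤ 3 * (Q ^ 2 * L ^ CV) * Y := by nlinarith
    calc I * (2 * Q ^ 2 * Y) + I * (L ^ CV * Y) = I * (2 * Q ^ 2 * Y + L ^ CV * Y) := by ring
      _ ≤ Q * (3 * (Q ^ 2 * L ^ CV) * Y) :=
          mul_le_mul hI h4 (by positivity) hQ0
      _ = 3 * L ^ (3 * C + CV) * Y := by
          rw [hQdef, pow_add, show 3 * C = C + (C + C) by ring, pow_add, pow_add]
          ring
  refine h1.trans ?_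
  have hq := hX6 X (by omega)
  calc 3 * L ^ (3 * C + CV) * Y ≤ (X : ℝ) ^ (η / 40) * Y := mul_le_mul_of_nonneg_right hq hY0
    _ = ((X : ℝ) ^ (η / 40) * (X : ℝ) ^ (1 - η / 20)) * E.card := by rw [hY]; ring
    _ ≤ (X : ℝ) ^ (1 - η / 100) * E.card := by
        refine mul_le_mul_of_nonneg_right ?_ hE0
        rw [← Real.rpow_add hX0]
        exact Real.rpow_le_rpow_of_exponent_le hX1r (by linarith)

end Pool.MP_dd84fd_nt.LX
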