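import Pool.Agent.Lib.MP_dd84fd_nt.LX.Defs
import Pool.Agent.Lib.MP_dd84fd_nt.IY.PrB

/-!
# Theorem L: the primes are wide (helper33)

`DecPW` from `IY.dec_wP` with the window `(X^(1/10), X^β]`, `β = max (1 - lv) (9/20) < 1/2`.
-/

set_option autoImplicit false

namespace Pool.MP_dd84fd_nt.LX

open Finset Pool.MP_67663b_nt.Odd Pool.MP_dd84fd_nt.En Pool.MP_dd84fd_nt.E2 Pool.MP_dd84fd_nt.LS
open Pool.MP_dd84fd_nt.L2G (nrm)
open Pool.MP_dd84fd_nt.GX Pool.MP_dd84fd_nt.HX Pool.MP_dd84fd_nt.IX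
open Pool.MP_dd84fd_nt.PL (rr)
open Pool.MP_dd84fd_nt.JX (Adm ZJ DecJ Str)

theorem decPW : DecPW := by
  intro B
  obtain ⟨C, hC⟩ := IY.dec_wP B
  refine ⟨C, fun th e τ hA => ?_⟩
  obtain ⟨a1, a2, a3, a4, a5⟩ := hA
  have hlv : 1 / 2 < JX.lv th e := lt_min (by linarith) (by linarith)
  set β : ℝ := max (1 - JX.lv th e) (9 / 20) with hβ
  have hb1 : 9 / 20 ≤ β := le_max_right _ _
  have hb2 : β < 1 / 2 := max_lt (by linarith) (by norm_num)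
  have hb3 : 1 - β ≤ JX.lv th e := by
    have := le_max_left (1 - JX.lv th e) (9 / 20)
    linarith
  obtain ⟨X1, hX1⟩ := hC (1 / 10) β (by norm_num) (by linarith) (by linarith) (by linarith) hb2
  refine ⟨max X1 1, fun X hX => ?_⟩
  simp only [max_le_iff] at hX
  obtain ⟨b1, b3⟩ := hX
  obtain ⟨I, γ, al, M, K, a, c, err, p1, p2, p3, p4, p5, p6, p7, p8, p9⟩ := hX1 X b1
  have hXr : (1 : ℝ) ≤ X := by exact_mod_cast b3
  have h1 : (X : ℝ) ^ τ ≤ (X : ℝ) ^ (1 / 10 : ℝ) := Real.rpow_le_rpow_of_exponent_le hXr a4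
  have h2 : (X : ℝ) ^ β ≤ (X : ℝ) ^ (1 / 2 : ℝ) := Real.rpow_le_rpow_of_exponent_le hXr hb2.le
  have hZ : 2 * (X : ℝ) ^ (1 - β) ≤ ZJ th e X := by
    unfold ZJ
    have := Real.rpow_le_rpow_of_exponent_le hXr hb3
    linarith
  refine ⟨I, γ, al, M, K, a, c, err, p1, p2, p3, ?_, p5, ?_, ?_, p8, p9⟩
  · intro i l hl
    exact p4 i l (lt_of_le_of_lt hZ hl)
  · intro i
    obtain ⟨q1, q2, q3⟩ := p6 i
    exact ⟨by linarith, q2.trans h2, q3⟩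
  · intro i m hm
    obtain ⟨q1, q2, q3, q4⟩ := p7 i m hm
    exact ⟨q1, q2, q3.trans h2, q4⟩

end Pool.MP_dd84fd_nt.LX
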