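import Pool.Agent.Lib.MP_dd84fd_nt.LX.Defs
import Pool.Agent.Lib.MP_dd84fd_nt.IX.FaFacts
import Pool.Agent.Lib.MP_dd84fd_nt.IX.GrDefs
import Pool.Agent.Lib.MP_dd84fd_nt.LS.Four
import Pool.Agent.Lib.MP_dd84fd_nt.E2.FBound
import Pool.Agent.Lib.MP_dd84fd_nt.FA.Lip

/-!
# LX-FaFacts: elementary facts about `WI`, `FFL`, `PhU`
-/

set_option autoImplicit false

namespace Pool.MP_dd84fd_nt.LX

open Finset Pool.MP_67663b_nt.Odd Pool.MP_dd84fd_nt.En Pool.MP_dd84fd_nt.E2 Pool.MP_dd84fd_nt.LS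
  Pool.MP_dd84fd_nt.GX Pool.MP_dd84fd_nt.HX Pool.MP_dd84fd_nt.IX

open Pool.MP_dd84fd_nt.L2G (nrm)

open Pool.MP_dd84fd_nt.PL (rr)

theorem tr_cfI (G : ℕ) [NeZero G] (ww gg : ℕ → ℕ → ℝ) (s : ℝ) (X w : ℕ) (j : ZMod G) :
    tr G X (cfI ww gg s w X) j = WI ww gg s w X (al G j) := by
  rw [tr_ee]
  rfl

/-- the norm of `FFL` -/
theorem ffl_norm (ww1 gg1 ww2 gg2 : ℕ → ℕ → ℝ) (s1 s2 : ℝ) (w X n : ℕ) (θ : ℝ) :
    ‖FFL ww1 gg1 s1 ww2 gg2 s2 w X n θ‖ = ‖WI ww1 gg1 s1 w X θ‖ * ‖WI ww2 gg2 s2 w X θ‖ := by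
  unfold FFL
  rw [norm_mul, norm_ee, mul_one, norm_mul]

theorem ffl_cont (ww1 gg1 ww2 gg2 : ℕ → ℕ → ℝ) (s1 s2 : ℝ) (w X n : ℕ) :
    Continuous (FFL ww1 gg1 s1 ww2 gg2 s2 w X n) := by
  have h1 := wi_cont ww1 gg1 s1 w X
  have h2 := wi_cont ww2 gg2 s2 w X
  unfold FFL
  refine (h1.mul h2).mul ?_
  unfold ee
  fun_prop

theorem ffl_grid (G : ℕ) [NeZero G] (ww1 gg1 ww2 gg2 : ℕ → ℕ → ℝ) (s1 s2 : ℝ) (X w n : ℕ)
    (j : ZMod G) :
    tr G X (cfI ww1 gg1 s1 w X) j * tr G X (cfI ww2 gg2 s2 w X) j *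
      ZMod.stdAddChar (-((n : ZMod G) * j)) = FFL ww1 gg1 s1 ww2 gg2 s2 w X n (al G j) := by
  have h : (ZMod.stdAddChar (-((n : ZMod G) * j)) : ℂ) = ee (-((n : ℝ) * al G j)) := by
    rw [← conj_chi, chi_ee]
    unfold ee al
    rw [← Complex.exp_conj]
    congr 1
    simp only [map_mul, Complex.conj_I, Complex.conj_ofReal, map_ofNat]
    push_cast
    ring
  unfold FFL
  rw [tr_cfI, tr_cfI, h]

theorem wi_facts (K0 C1 : ℕ) (ww gg : ℕ → ℕ → ℝ) (hW : W1 K0 C1 ww gg) (D' : ℕ) :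
    ∃ X0 : ℕ, ∀ X : ℕ, X0 ≤ X →
    ∀ s : ℝ, |s| ≤ 1 → (∀ x, WI ww gg s (wX D' X) X (x + 1) = WI ww gg s (wX D' X) X x) ∧
      (∀ x, ‖WI ww gg s (wX D' X) X x‖ ≤ X * (Real.log X) ^ 2) ∧
      (∀ x y, ‖WI ww gg s (wX D' X) X x - WI ww gg s (wX D' X) X y‖ ≤
        7 * (X : ℝ) ^ 2 * (Real.log X) ^ 2 * |x - y|) := by
  obtain ⟨X1, hX1⟩ := coefI K0 C1 ww gg hW D'
  refine ⟨X1, fun X hX s hs => ?_⟩
  have hc := hX1 X hX s hs
  refine ⟨?_, ?_, ?_⟩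
  · intro x
    unfold WI
    refine Finset.sum_congr rfl fun m _ => ?_
    congr 1
    have : (m : ℝ) * (x + 1) = (m : ℝ) * x + ((m : ℤ) : ℝ) := by push_cast; ring
    rw [this, ee_add_int]
  · intro x
    unfold WI
    refine (norm_sum_le _ _).trans ?_
    have h1 : ∑ m ∈ Icc 1 X, ‖((ww X m + s * fI gg X (wX D' X) m : ℝ) : ℂ) * ee ((m : ℝ) * x)‖ ≤
        ∑ _m ∈ Icc 1 X, (Real.log X) ^ 2 := by
      refine Finset.sum_le_sum fun m hm => ?_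
      rw [norm_mul, norm_ee, mul_one, Complex.norm_real, Real.norm_eq_abs]
      exact hc m
    refine h1.trans (le_of_eq ?_)
    rw [Finset.sum_const, Nat.card_Icc, nsmul_eq_mul, Nat.add_sub_cancel]
  · intro x y
    unfold WI
    rw [← Finset.sum_sub_distrib]
    refine (norm_sum_le _ _).trans ?_
    have h1 : ∑ m ∈ Icc 1 X, ‖((ww X m + s * fI gg X (wX D' X) m : ℝ) : ℂ) * ee ((m : ℝ) * x) -
        ((ww X m + s * fI gg X (wX D' X) m : ℝ) : ℂ) * ee ((m : ℝ) * y)‖ ≤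
        ∑ _m ∈ Icc 1 X, (Real.log X) ^ 2 * (7 * (X * |x - y|)) := by
      refine Finset.sum_le_sum fun m hm => ?_
      obtain ⟨hm1, hm2⟩ := Finset.mem_Icc.mp hm
      rw [← mul_sub, norm_mul, Complex.norm_real, Real.norm_eq_abs]
      refine mul_le_mul (hc m) ?_ (norm_nonneg _) (by positivity)
      refine (FA.ee_lip _ _).trans ?_
      rw [← mul_sub, abs_mul, abs_of_nonneg (Nat.cast_nonneg m)]
      have : (m : ℝ) ≤ X := by exact_mod_cast hm2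
      gcongr
    refine h1.trans (le_of_eq ?_)
    rw [Finset.sum_const, Nat.card_Icc, nsmul_eq_mul, Nat.add_sub_cancel]
    ring

theorem ffl_facts (K0 C1 : ℕ) (ww1 gg1 ww2 gg2 : ℕ → ℕ → ℝ) (hW1 : W1 K0 C1 ww1 gg1)
    (hW2 : W1 K0 C1 ww2 gg2) (D' : ℕ) :
    ∃ X0 : ℕ, ∀ X : ℕ, X0 ≤ X → ∀ s1 s2 : ℝ, |s1| ≤ 1 → |s2| ≤ 1 →
    ∀ n : ℕ, n ≤ X → (∀ x, FFL ww1 gg1 s1 ww2 gg2 s2 (wX D' X) X n (x + 1) =
      FFL ww1 gg1 s1 ww2 gg2 s2 (wX D' X) X n x) ∧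
      (∀ x y, ‖FFL ww1 gg1 s1 ww2 gg2 s2 (wX D' X) X n x -
        FFL ww1 gg1 s1 ww2 gg2 s2 (wX D' X) X n y‖ ≤ (X : ℝ) ^ 4 * |x - y|) ∧
      ∀ x, ‖FFL ww1 gg1 s1 ww2 gg2 s2 (wX D' X) X n x‖ ≤ (X : ℝ) ^ 3 := by
  obtain ⟨X1, hX1⟩ := wi_facts K0 C1 ww1 gg1 hW1 D'
  obtain ⟨X3, hX3⟩ := wi_facts K0 C1 ww2 gg2 hW2 D'
  obtain ⟨X2, hX2⟩ := MP_log_pow 21 4 (show (0 : ℝ) < 1 by norm_num)
  refine ⟨max (max X1 X2) (max X3 1), fun X hX s1 s2 hs1 hs2 n hn => ?_⟩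
  have h1 : X1 ≤ X := by omega
  have h2 : X2 ≤ X := by omega
  have h4 : X3 ≤ X := by omega
  have h3 : 1 ≤ X := by omega
  obtain ⟨p1, b1, l1⟩ := hX1 X h1 s1 hs1
  obtain ⟨p2, b2, l2⟩ := hX3 X h4 s2 hs2
  have hlog : 21 * Real.log (X : ℝ) ^ 4 ≤ X := by
    have := hX2 X h2
    rwa [Real.rpow_one] at this
  have hL0 : 0 ≤ Real.log (X : ℝ) := Real.log_natCast_nonneg X
  have hX0 : (0 : ℝ) < X := by exact_mod_cast h3
  have hnX : (n : ℝ) ≤ X := by exact_mod_cast hn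
  obtain ⟨w, hw⟩ : ∃ w : ℕ, w = wX D' X := ⟨_, rfl⟩
  rw [← hw] at p1 b1 l1 p2 b2 l2 ⊢
  obtain ⟨A, hA⟩ : ∃ A : ℝ → ℂ, A = WI ww1 gg1 s1 w X := ⟨_, rfl⟩
  obtain ⟨B, hB⟩ : ∃ B : ℝ → ℂ, B = WI ww2 gg2 s2 w X := ⟨_, rfl⟩
  have hF : ∀ x, FFL ww1 gg1 s1 ww2 gg2 s2 w X n x = A x * B x * ee (-((n : ℝ) * x)) := by
    intro x
    rw [hA, hB]
    rfl
  rw [← hA] at p1 b1 l1
  rw [← hB] at p2 b2 l2
  refine ⟨?_, ?_, ?_⟩
  · intro x
    rw [hF, hF, p1, p2]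
    congr 1
    have : -((n : ℝ) * (x + 1)) = -((n : ℝ) * x) + ((-(n : ℤ) : ℤ) : ℝ) := by push_cast; ring
    rw [this, ee_add_int]
  · intro x y
    rw [hF, hF]
    have e : A x * B x * ee (-((n : ℝ) * x)) - A y * B y * ee (-((n : ℝ) * y)) =
        (A x - A y) * B x * ee (-((n : ℝ) * x)) +
        A y * (B x - B y) * ee (-((n : ℝ) * x)) +
        A y * B y * (ee (-((n : ℝ) * x)) - ee (-((n : ℝ) * y))) := by ring
    rw [e]
    refine norm_add₃_le.trans ?_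
    have c1 : ‖(A x - A y) * B x * ee (-((n : ℝ) * x))‖ ≤
        (7 * (X : ℝ) ^ 2 * Real.log X ^ 2 * |x - y|) * (X * Real.log X ^ 2) := by
      rw [norm_mul, norm_ee, mul_one, norm_mul]
      exact mul_le_mul (l1 x y) (b2 x) (norm_nonneg _) (by positivity)
    have c2 : ‖A y * (B x - B y) * ee (-((n : ℝ) * x))‖ ≤
        (X * Real.log X ^ 2) * (7 * (X : ℝ) ^ 2 * Real.log X ^ 2 * |x - y|) := by
      rw [norm_mul, norm_ee, mul_one, norm_mul]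
      exact mul_le_mul (b1 y) (l2 x y) (norm_nonneg _) (by positivity)
    have c3 : ‖A y * B y * (ee (-((n : ℝ) * x)) - ee (-((n : ℝ) * y)))‖ ≤
        (X * Real.log X ^ 2) * (X * Real.log X ^ 2) * (7 * (X * |x - y|)) := by
      rw [norm_mul, norm_mul]
      refine mul_le_mul (mul_le_mul (b1 y) (b2 y) (norm_nonneg _) (by positivity)) ?_
        (norm_nonneg _) (by positivity)
      refine (FA.ee_lip _ _).trans ?_
      have e2 : -((n : ℝ) * x) - -((n : ℝ) * y) = -((n : ℝ) * (x - y)) := by ring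
      rw [e2, abs_neg, abs_mul, abs_of_nonneg (Nat.cast_nonneg n)]
      gcongr
    have habs := abs_nonneg (x - y)
    calc _ ≤ (7 * (X : ℝ) ^ 2 * Real.log X ^ 2 * |x - y|) * (X * Real.log X ^ 2) +
          (X * Real.log X ^ 2) * (7 * (X : ℝ) ^ 2 * Real.log X ^ 2 * |x - y|) +
          (X * Real.log X ^ 2) * (X * Real.log X ^ 2) * (7 * (X * |x - y|)) :=
          add_le_add (add_le_add c1 c2) c3
      _ = (21 * Real.log (X : ℝ) ^ 4) * ((X : ℝ) ^ 3 * |x - y|) := by ring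
      _ ≤ X * ((X : ℝ) ^ 3 * |x - y|) := by gcongr
      _ = _ := by ring
  · intro x
    rw [hF, norm_mul, norm_ee, mul_one, norm_mul]
    calc ‖A x‖ * ‖B x‖ ≤ (X * Real.log X ^ 2) * (X * Real.log X ^ 2) :=
          mul_le_mul (b1 x) (b2 x) (norm_nonneg _) (by positivity)
      _ = (1 * Real.log (X : ℝ) ^ 4) * (X : ℝ) ^ 2 := by ring
      _ ≤ (21 * Real.log (X : ℝ) ^ 4) * (X : ℝ) ^ 2 := by gcongr; norm_num
      _ ≤ X * (X : ℝ) ^ 2 := by gcongr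
      _ = _ := by ring

/-- the square sum of the coefficients -/
theorem cf_sq (K0 C1 : ℕ) (ww gg : ℕ → ℕ → ℝ) (hW : W1 K0 C1 ww gg) (D' : ℕ) :
    ∃ X0 : ℕ, ∀ X : ℕ, X0 ≤ X → ∀ s : ℝ, |s| ≤ 1 →
      ∑ n ∈ Icc 1 X, (cfI ww gg s (wX D' X) X n) ^ 2 ≤ X * (Real.log X) ^ 4 := by
  obtain ⟨X1, hX1⟩ := coefI K0 C1 ww gg hW D'
  refine ⟨X1, fun X hX s hs => ?_⟩
  have h5 : ∑ n ∈ Icc 1 X, (cfI ww gg s (wX D' X) X n) ^ 2 ≤ ∑ _n ∈ Icc 1 X, (Real.log X) ^ 4 := by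
    refine Finset.sum_le_sum fun n hn => ?_
    have h7 : |cfI ww gg s (wX D' X) X n| ≤ (Real.log X) ^ 2 := hX1 X hX s hs n
    calc (cfI ww gg s (wX D' X) X n) ^ 2 = |cfI ww gg s (wX D' X) X n| ^ 2 := (sq_abs _).symm
      _ ≤ ((Real.log X) ^ 2) ^ 2 := pow_le_pow_left₀ (abs_nonneg _) h7 2
      _ = _ := by ring
  refine h5.trans (le_of_eq ?_)
  rw [Finset.sum_const, Nat.card_Icc, nsmul_eq_mul, Nat.add_sub_cancel]

/-- the bounds for `tr (ww + s f)` -/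
theorem vbh_cf (K0 C1 : ℕ) (ww gg : ℕ → ℕ → ℝ) (hW : W1 K0 C1 ww gg) (D' : ℕ) :
    ∃ X0 : ℕ, ∀ X : ℕ, X0 ≤ X → ∀ s : ℝ, |s| ≤ 1 → ∀ (G : ℕ) [NeZero G], 3 * X ≤ G →
      VBH G X 4 (tr G X (cfI ww gg s (wX D' X) X)) := by
  obtain ⟨X1, hX1⟩ := cf_sq K0 C1 ww gg hW D'
  obtain ⟨X2, hX2⟩ := wi_facts K0 C1 ww gg hW D'
  obtain ⟨X3, hX3⟩ := MP_log_large 1
  refine ⟨max (max X1 X2) (max X3 1), fun X hX s hs G hGz hG => ?_⟩
  have h1 : X1 ≤ X := by omega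
  have h2 : X2 ≤ X := by omega
  have h3 : X3 ≤ X := by omega
  have h4 : 1 ≤ X := by omega
  have hXG : X < G := by omega
  have hL := hX3 X h3
  refine ⟨?_, fun j => ?_⟩
  · unfold nm2
    rw [parseval G X hXG]
    exact hX1 X h1 s hs
  · rw [tr_cfI]
    refine ((hX2 X h2 s hs).2.1 _).trans ?_
    refine mul_le_mul_of_nonneg_left ?_ (Nat.cast_nonneg _)
    exact pow_le_pow_right₀ hL (by norm_num)

/-- Cauchy -/
theorem phU_cauchy (G : ℕ) [NeZero G] (X : ℕ) (U : ZMod G → ℂ) (v : ℕ → ℝ) (ω : ZMod G → ℂ)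
    (hω : ∀ j, ‖ω j‖ ≤ 1) (n : ℕ) :
    ‖PhU G X U v ω n‖ ^ 2 ≤ nm2 G U * nm2 G (tr G X v) := by
  have hG : 0 < G := Nat.pos_of_ne_zero (NeZero.ne G)
  have hGr : (0 : ℝ) < G := by exact_mod_cast hG
  have h1 : ‖PhU G X U v ω n‖ ≤ (1 / (G : ℝ)) *
      ∑ j : ZMod G, ‖U j‖ * ‖tr G X v j‖ := by
    unfold PhU
    rw [norm_mul]
    have e1 : ‖(1 / (G : ℂ))‖ = 1 / (G : ℝ) := by
      rw [norm_div, norm_one, Complex.norm_natCast]
    rw [e1]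
    refine mul_le_mul_of_nonneg_left ?_ (by positivity)
    refine (norm_sum_le _ _).trans (Finset.sum_le_sum fun j _ => ?_)
    rw [norm_mul, norm_mul, norm_mul]
    have e2 : ‖(ZMod.stdAddChar (-((n : ZMod G) * j)) : ℂ)‖ = 1 := by
      rw [← conj_chi, chi_ee]
      rw [RCLike.norm_conj]
      exact norm_ee _
    rw [e2, mul_one]
    have h5 : ‖ω j‖ * ‖U j‖ ≤ 1 * ‖U j‖ :=
      mul_le_mul_of_nonneg_right (hω j) (norm_nonneg _)
    rw [one_mul] at h5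
    exact mul_le_mul_of_nonneg_right h5 (norm_nonneg _)
  have h2 : (∑ j : ZMod G, ‖U j‖ * ‖tr G X v j‖) ^ 2 ≤
      (∑ j : ZMod G, ‖U j‖ ^ 2) * ∑ j : ZMod G, ‖tr G X v j‖ ^ 2 :=
    Finset.sum_mul_sq_le_sq_mul_sq _ _ _
  calc ‖PhU G X U v ω n‖ ^ 2 ≤ ((1 / (G : ℝ)) *
      ∑ j : ZMod G, ‖U j‖ * ‖tr G X v j‖) ^ 2 := pow_le_pow_left₀ (norm_nonneg _) h1 2
    _ = (1 / (G : ℝ)) ^ 2 * (∑ j : ZMod G, ‖U j‖ * ‖tr G X v j‖) ^ 2 := by ring
    _ ≤ (1 / (G : ℝ)) ^ 2 * ((∑ j : ZMod G, ‖U j‖ ^ 2) *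
        ∑ j : ZMod G, ‖tr G X v j‖ ^ 2) := mul_le_mul_of_nonneg_left h2 (by positivity)
    _ = nm2 G U * nm2 G (tr G X v) := by
        unfold nm2
        ring

/-- linearity in `ω` -/
theorem phU_one (G : ℕ) [NeZero G] (th e : ℝ) (X Λ n : ℕ) (bb : ℝ) (U : ZMod G → ℂ)
    (v : ℕ → ℝ) :
    PhU G X U v (fun _ => 1) n = PhU G X U v (fun j => 1 - wSI G th e X Λ bb j) n +
      PhU G X U v (wSI G th e X Λ bb) n := by
  unfold PhU
  rw [← mul_add, ← sum_add_distrib]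
  congr 1
  refine sum_congr rfl fun j _ => ?_
  ring

/-- linearity in `v` -/
theorem phU_add (G : ℕ) [NeZero G] (X n : ℕ) (U : ZMod G → ℂ) (v v1 v2 : ℕ → ℝ)
    (ω : ZMod G → ℂ) (h : ∀ m ∈ Icc 1 X, v m = v1 m + v2 m) :
    PhU G X U v ω n = PhU G X U v1 ω n + PhU G X U v2 ω n := by
  have hv : ∀ j, tr G X v j = tr G X v1 j + tr G X v2 j := by
    intro j
    unfold tr
    rw [← Finset.sum_add_distrib]
    refine Finset.sum_congr rfl fun m hm => ?_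
    rw [h m hm]
    push_cast
    ring
  unfold PhU
  rw [← mul_add, ← sum_add_distrib]
  congr 1
  refine sum_congr rfl fun j _ => ?_
  rw [hv]
  ring

private theorem cast_eq_small' {N a b : ℕ} (ha : a < N) (hb : b < N)
    (h : (a : ZMod N) = (b : ZMod N)) : a = b := by
  have h1 := (ZMod.natCast_eq_natCast_iff a b N).1 h
  exact Nat.ModEq.eq_of_lt_of_lt h1 ha hb

theorem co_prod (N : ℕ) [NeZero N] (Y : ℕ) (hY : 2 * Y < N) (u v : ℕ → ℝ) (n : ℕ) (hn : n ≤ Y) :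
    co N (fun j => tr N Y u j * tr N Y v j) n =
      ((∑ a ∈ Icc 1 (n - 1), u a * v (n - a) : ℝ) : ℂ) := by
  have hN : (N : ℂ) ≠ 0 := by exact_mod_cast NeZero.ne N
  unfold co
  have h1 : ∀ j ∈ (univ : Finset (ZMod N)),
      (fun j => tr N Y u j * tr N Y v j) j * ZMod.stdAddChar (-((n : ZMod N) * j)) =
      ∑ a ∈ Icc 1 Y, ∑ b ∈ Icc 1 Y, ((u a * v b : ℝ) : ℂ) *
        ZMod.stdAddChar (((a : ZMod N) + (b : ZMod N) - (n : ZMod N)) * j) := by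
    intro j _
    show tr N Y u j * tr N Y v j * ZMod.stdAddChar (-((n : ZMod N) * j)) = _
    unfold tr
    rw [Finset.sum_mul_sum, Finset.sum_mul]
    refine Finset.sum_congr rfl (fun a _ => ?_)
    rw [Finset.sum_mul]
    refine Finset.sum_congr rfl (fun b _ => ?_)
    have : ((a : ZMod N) + (b : ZMod N) - (n : ZMod N)) * j =
      (a : ZMod N) * j + (b : ZMod N) * j + (-((n : ZMod N) * j)) := by ring
    rw [this, AddChar.map_add_eq_mul, AddChar.map_add_eq_mul]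
    push_cast
    ring
  rw [Finset.sum_congr rfl h1, Finset.sum_comm]
  have h2 : ∀ a ∈ Icc 1 Y, ∑ j : ZMod N, ∑ b ∈ Icc 1 Y, ((u a * v b : ℝ) : ℂ) *
        ZMod.stdAddChar (((a : ZMod N) + (b : ZMod N) - (n : ZMod N)) * j) =
      if a ≤ n - 1 then (N : ℂ) * ((u a * v (n - a) : ℝ) : ℂ) else 0 := by
    intro a ha
    rw [Finset.mem_Icc] at ha
    rw [Finset.sum_comm]
    by_cases han : a ≤ n - 1
    · rw [if_pos han]
      rw [Finset.sum_eq_single (n - a)]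
      · rw [← Finset.mul_sum, sum_chi, if_pos]
        · ring
        · rw [Nat.cast_sub (by omega)]
          ring
      · intro b hb hne
        rw [Finset.mem_Icc] at hb
        rw [← Finset.mul_sum, sum_chi, if_neg, mul_zero]
        intro h0
        apply hne
        have : ((a + b : ℕ) : ZMod N) = ((n : ℕ) : ZMod N) := by
          push_cast
          exact sub_eq_zero.1 h0
        have := cast_eq_small' (by omega) (by omega) this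
        omega
      · intro h
        exfalso
        apply h
        rw [Finset.mem_Icc]
        omega
    · rw [if_neg han]
      apply Finset.sum_eq_zero
      intro b hb
      rw [Finset.mem_Icc] at hb
      rw [← Finset.mul_sum, sum_chi, if_neg, mul_zero]
      intro h0
      have : ((a + b : ℕ) : ZMod N) = ((n : ℕ) : ZMod N) := by
        push_cast
        exact sub_eq_zero.1 h0
      have := cast_eq_small' (by omega) (by omega) this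
      omega
  rw [Finset.sum_congr rfl h2, ← Finset.sum_filter]
  have h3 : (Icc 1 Y).filter (fun a => a ≤ n - 1) = Icc 1 (n - 1) := by
    ext a
    simp only [Finset.mem_filter, Finset.mem_Icc]
    omega
  rw [h3, ← Finset.mul_sum, ← mul_assoc, one_div, inv_mul_cancel₀ hN, one_mul, Complex.ofReal_sum]

/-- `PhU` with `ω = 1` is a convolution -/
theorem phU_co (G : ℕ) [NeZero G] (X : ℕ) (hX : 2 * X < G) (a b : ℕ → ℝ) (n : ℕ) (hn : n ≤ X) :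
    PhU G X (tr G X a) b (fun _ => 1) n = ((cvv a b n : ℝ) : ℂ) := by
  have h2 : PhU G X (tr G X a) b (fun _ => 1) n = co G (fun j => tr G X a j * tr G X b j) n := by
    unfold PhU co
    congr 1
    refine Finset.sum_congr rfl fun j _ => ?_
    rw [one_mul]
  rw [h2, co_prod G X hX a b n hn]
  rfl

/-- `ww1 * ww2 - f1 * f2 = (1/2) ((ww1 - f1) * (ww2 + f2) + (ww1 + f1) * (ww2 - f2))` -/
theorem repL (ww1 gg1 ww2 gg2 : ℕ → ℕ → ℝ) (w X n : ℕ) :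
    cvv (cfI ww1 gg1 (-1) w X) (cfI ww2 gg2 1 w X) n +
      cvv (cfI ww1 gg1 1 w X) (cfI ww2 gg2 (-1) w X) n =
      2 * (cvv (ww1 X) (ww2 X) n - cvv (fI gg1 X w) (fI gg2 X w) n) := by
  unfold cvv
  rw [← Finset.sum_add_distrib, ← Finset.sum_sub_distrib, Finset.mul_sum]
  refine Finset.sum_congr rfl fun m _ => ?_
  unfold cfI
  ring

end Pool.MP_dd84fd_nt.LX
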