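import Pool.Agent.Lib.MP_dd84fd_nt.LX.FaBound
import Pool.Agent.Lib.MP_dd84fd_nt.LX.FaFacts
import Pool.Agent.Lib.MP_dd84fd_nt.IX.GrErr

/-!
# LX-FaGood: the denominators with small `q / (q, n)` and the centre

`∑ ∫ |W1| |W2| ≤ T ∑ ∫ |W1|² + (1/T) ∑ ∫ |W2|²`, the first sum is `≤ 2 ∑ c1²` (overlap), the second is
small (greedy, centre); for `q ≤ L^(K+K1)` the product is small pointwise (major arcs).
-/

set_option autoImplicit false

namespace Pool.MP_dd84fd_nt.LX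

open Finset Pool.MP_67663b_nt.Odd Pool.MP_dd84fd_nt.En Pool.MP_dd84fd_nt.E2 Pool.MP_dd84fd_nt.LS
  Pool.MP_dd84fd_nt.GX Pool.MP_dd84fd_nt.HX Pool.MP_dd84fd_nt.IX

open Pool.MP_dd84fd_nt.L2G (nrm)

open Pool.MP_dd84fd_nt.PL (rr Fam)

open Pool.MP_dd84fd_nt.JX (Adm)

theorem WtE_cauchy (X : ℕ) (hX : 1 ≤ X) (r : ℝ) (hr : 0 ≤ r) (c1 c2 : ℕ → ℝ) (T : ℝ)
    (hT : 0 < T) (q : ℕ) :
    WtE X c1 c2 r q ≤ T * WtE X c1 c1 r q + WtE X c2 c2 r q / T := by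
  have hX0 : (0 : ℝ) < X := by exact_mod_cast hX
  have hrX : 0 ≤ r / (X : ℝ) := by positivity
  have hle : -r / (X : ℝ) ≤ r / X := by rw [neg_div]; linarith
  unfold WtE
  rw [Finset.mul_sum, Finset.sum_div, ← Finset.sum_add_distrib]
  refine Finset.sum_le_sum fun a _ => ?_
  unfold arcE
  obtain ⟨f, hf⟩ : ∃ f : ℝ → ℝ, f = fun x => ‖ES X c1 ((a : ℝ) / q + x)‖ := ⟨_, rfl⟩
  obtain ⟨g, hg⟩ : ∃ g : ℝ → ℝ, g = fun x => ‖ES X c2 ((a : ℝ) / q + x)‖ := ⟨_, rfl⟩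
  have hadd : Continuous (fun x : ℝ => (a : ℝ) / q + x) := continuous_const.add continuous_id
  have hfc : Continuous f := by rw [hf]; exact ((ES_cont X c1).comp hadd).norm
  have hgc : Continuous g := by rw [hg]; exact ((ES_cont X c2).comp hadd).norm
  have e1 : ∀ x : ℝ, ‖ES X c1 ((a : ℝ) / q + x)‖ = f x := fun x => by rw [hf]
  have e2 : ∀ x : ℝ, ‖ES X c2 ((a : ℝ) / q + x)‖ = g x := fun x => by rw [hg]
  simp only [e1, e2]
  have h1 : Continuous (fun x : ℝ => T * (f x * f x)) := continuous_const.mul (hfc.mul hfc)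
  have h2 : Continuous (fun x : ℝ => g x * g x / T) := (hgc.mul hgc).div_const T
  have e3 : T * (∫ x in (-r / X)..(r / X), f x * f x) + (∫ x in (-r / X)..(r / X), g x * g x) / T =
      ∫ x in (-r / X)..(r / X), (T * (f x * f x) + g x * g x / T) := by
    rw [intervalIntegral.integral_add (h1.intervalIntegrable _ _) (h2.intervalIntegrable _ _),
      intervalIntegral.integral_const_mul, intervalIntegral.integral_div]
  rw [e3]
  refine intervalIntegral.integral_mono_on hle ((hfc.mul hgc).intervalIntegrable _ _)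
    ((h1.add h2).intervalIntegrable _ _) fun x _ => ?_
  have h6 : 0 ≤ (T * f x - g x) ^ 2 / T := by positivity
  have h7 : (T * f x - g x) ^ 2 / T = T * (f x * f x) - 2 * (f x * g x) + g x * g x / T := by
    field_simp
    ring
  rw [h7] at h6
  have h8 : 0 ≤ T * (f x * f x) := mul_nonneg hT.le (mul_self_nonneg _)
  have h9 : 0 ≤ g x * g x / T := div_nonneg (mul_self_nonneg _) hT.le
  show f x * g x ≤ T * (f x * f x) + g x * g x / T
  linarith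

/-- Cauchy over a family: `T = 1/L^(A+5)` -/
theorem wt_pair (X : ℕ) (hX : 1 ≤ X) (L : ℝ) (hL : 6 ≤ L) (r : ℝ) (hr : 0 ≤ r) (c1 c2 : ℕ → ℝ)
    (A : ℕ) (hc : ∑ n ∈ Icc 1 X, c1 n ^ 2 ≤ X * L ^ 4) (QQ : Finset ℕ) (N : ℝ)
    (hF : Fam QQ N) (hN : 2 * r * N ≤ X)
    (h2 : ∑ q ∈ QQ, WtE X c2 c2 r q ≤ X / L ^ (2 * A + 6)) :
    ∑ q ∈ QQ, WtE X c1 c2 r q ≤ X / (2 * L ^ A) := by
  have hX0 : (0 : ℝ) < X := by exact_mod_cast hX
  have hL0 : 0 < L := by linarith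
  have hT : 0 < 1 / L ^ (A + 5) := by positivity
  have h1 := WtE_err X hX r hr QQ N hF hN c1 c1 1 one_pos
  rw [one_mul, div_one] at h1
  calc ∑ q ∈ QQ, WtE X c1 c2 r q ≤
        ∑ q ∈ QQ, (1 / L ^ (A + 5) * WtE X c1 c1 r q + WtE X c2 c2 r q / (1 / L ^ (A + 5))) :=
        Finset.sum_le_sum fun q _ => WtE_cauchy X hX r hr c1 c2 _ hT q
    _ = 1 / L ^ (A + 5) * ∑ q ∈ QQ, WtE X c1 c1 r q +
        L ^ (A + 5) * ∑ q ∈ QQ, WtE X c2 c2 r q := by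
        rw [Finset.mul_sum, Finset.mul_sum, ← Finset.sum_add_distrib]
        refine Finset.sum_congr rfl fun q _ => ?_
        field_simp
    _ ≤ 1 / L ^ (A + 5) * (X * L ^ 4 + X * L ^ 4) + L ^ (A + 5) * (X / L ^ (2 * A + 6)) := by
        refine add_le_add (mul_le_mul_of_nonneg_left (h1.trans (add_le_add hc hc)) hT.le)
          (mul_le_mul_of_nonneg_left h2 (by positivity))
    _ = X / (2 * L ^ A) * (6 / L) := by
        have e1 : L ^ (2 * A + 6) = L ^ (A + 5) * (L ^ A * L) := by ring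
        have e2 : L ^ (A + 5) = L ^ A * L * L ^ 4 := by ring
        rw [e1, e2]
        field_simp
        ring
    _ ≤ X / (2 * L ^ A) * 1 := by
        refine mul_le_mul_of_nonneg_left ?_ (by positivity)
        rw [div_le_one hL0]
        exact hL
    _ = X / (2 * L ^ A) := mul_one _

theorem dscG_eq (X : ℕ) (c1 c2 : ℕ → ℝ) (F : ℝ → ℂ)
    (hF : ∀ θ, ‖F θ‖ = ‖ES X c1 θ‖ * ‖ES X c2 θ‖) (q : ℕ) (v : ℝ) :
    dscG (fun x => ‖F x‖) X q v = WtE X c1 c2 v q := by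
  unfold dscG WtE arcE
  refine Finset.sum_congr rfl fun a _ => ?_
  simp only [hF]

/-- small denominators -/
private theorem small_q (X : ℕ) (hX : 1 ≤ X) (L : ℝ) (hL : 6 ≤ L) (F : ℝ → ℂ) (hFc : Continuous F)
    (K K2 A : ℕ)
    (hmaj : ∀ θ, Ht (L ^ (K + K2 + 1)) X θ → ‖F θ‖ ≤ (X : ℝ) ^ 2 / L ^ (2 * K + K2 + A + 2))
    (QQ : Finset ℕ) (h1 : ∀ q ∈ QQ, 1 ≤ q ∧ (q : ℝ) ≤ L ^ K) :
    ∑ q ∈ QQ, dscG (fun x => ‖F x‖) X q (2 * L ^ K2) ≤ X / (2 * L ^ A) := by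
  have hX0 : (0 : ℝ) < X := by exact_mod_cast hX
  have hL0 : 0 < L := by linarith
  have hr0 : 0 ≤ 2 * L ^ K2 := by positivity
  have hle : -(2 * L ^ K2) / (X : ℝ) ≤ 2 * L ^ K2 / X := by
    rw [neg_div]
    have : 0 ≤ 2 * L ^ K2 / (X : ℝ) := by positivity
    linarith
  have harc : ∀ q ∈ QQ, ∀ a ∈ rr q, ∫ x in (-(2 * L ^ K2) / X)..(2 * L ^ K2 / X),
      ‖F ((a : ℝ) / q + x)‖ ≤ 4 * L ^ K2 * X / L ^ (2 * K + K2 + A + 2) := by
    intro q hq a ha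
    obtain ⟨q1, q2⟩ := h1 q hq
    have hb : ∀ x ∈ Set.Icc (-(2 * L ^ K2) / (X : ℝ)) (2 * L ^ K2 / X),
        ‖F ((a : ℝ) / q + x)‖ ≤ (X : ℝ) ^ 2 / L ^ (2 * K + K2 + A + 2) := by
      intro x hx
      apply hmaj
      refine ⟨q, a, by omega, ?_, ?_⟩
      · unfold PL.rr at ha
        rw [mem_filter] at ha
        exact ha.2
      · have hx1 : X * |(a : ℝ) / q + x - ((a : ℤ) : ℝ) / q| ≤ 2 * L ^ K2 := by
          have e1 : (a : ℝ) / q + x - ((a : ℤ) : ℝ) / q = x := by push_cast; ring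
          rw [e1]
          have h3 : |x| ≤ 2 * L ^ K2 / X := by
            rw [abs_le]
            refine ⟨?_, hx.2⟩
            have := hx.1
            rw [neg_div] at this
            exact this
          calc (X : ℝ) * |x| ≤ X * (2 * L ^ K2 / X) := mul_le_mul_of_nonneg_left h3 hX0.le
            _ = 2 * L ^ K2 := by field_simp
        have h4 : (1 : ℝ) ≤ L ^ K2 := one_le_pow₀ (by linarith)
        have hq0 : (0 : ℝ) ≤ q := Nat.cast_nonneg q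
        calc (q : ℝ) * (1 + X * |(a : ℝ) / q + x - ((a : ℤ) : ℝ) / q|) ≤
              L ^ K * (L ^ K2 * L) := by
              refine mul_le_mul q2 ?_ (by positivity) (by positivity)
              nlinarith
          _ = L ^ (K + K2 + 1) := by ring
    have hcont : Continuous (fun x : ℝ => ‖F ((a : ℝ) / q + x)‖) := by fun_prop
    calc ∫ x in (-(2 * L ^ K2) / X)..(2 * L ^ K2 / X), ‖F ((a : ℝ) / q + x)‖
        ≤ ∫ _x in (-(2 * L ^ K2) / X)..(2 * L ^ K2 / X),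
          (X : ℝ) ^ 2 / L ^ (2 * K + K2 + A + 2) :=
          intervalIntegral.integral_mono_on hle (hcont.intervalIntegrable _ _)
            (continuous_const.intervalIntegrable _ _) hb
      _ = 4 * L ^ K2 * X / L ^ (2 * K + K2 + A + 2) := by
          rw [intervalIntegral.integral_const, smul_eq_mul]
          field_simp
          ring
  have hq : ∀ q ∈ QQ, dscG (fun x => ‖F x‖) X q (2 * L ^ K2) ≤
      L ^ K * (4 * L ^ K2 * X / L ^ (2 * K + K2 + A + 2)) := by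
    intro q hq
    obtain ⟨q1, q2⟩ := h1 q hq
    unfold dscG
    refine (Finset.sum_le_sum (harc q hq)).trans ?_
    rw [Finset.sum_const, nsmul_eq_mul]
    refine mul_le_mul_of_nonneg_right ?_ (by positivity)
    have h4 : (rr q).card ≤ q := by
      unfold rr
      refine (card_filter_le _ _).trans ?_
      rw [card_range]
    calc ((rr q).card : ℝ) ≤ q := by exact_mod_cast h4
      _ ≤ L ^ K := q2
  refine (Finset.sum_le_sum hq).trans ?_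
  rw [Finset.sum_const, nsmul_eq_mul]
  have hcard : (QQ.card : ℝ) ≤ L ^ K := by
    have hsub : QQ ⊆ Icc 1 ⌊L ^ K⌋₊ := by
      intro q hq
      rw [mem_Icc]
      exact ⟨(h1 q hq).1, Nat.le_floor (h1 q hq).2⟩
    have h5 := Finset.card_le_card hsub
    rw [Nat.card_Icc, Nat.add_sub_cancel] at h5
    calc (QQ.card : ℝ) ≤ (⌊L ^ K⌋₊ : ℝ) := by exact_mod_cast h5
      _ ≤ L ^ K := Nat.floor_le (by positivity)
  calc (QQ.card : ℝ) * (L ^ K * (4 * L ^ K2 * X / L ^ (2 * K + K2 + A + 2))) ≤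
        L ^ K * (L ^ K * (4 * L ^ K2 * X / L ^ (2 * K + K2 + A + 2))) :=
        mul_le_mul_of_nonneg_right hcard (by positivity)
    _ = X / (2 * L ^ A) * (8 / L ^ 2) := by
        have e1 : L ^ (2 * K + K2 + A + 2) = L ^ K * L ^ K * L ^ K2 * L ^ A * L ^ 2 := by ring
        rw [e1]
        field_simp
        ring
    _ ≤ X / (2 * L ^ A) * 1 := by
        refine mul_le_mul_of_nonneg_left ?_ (by positivity)
        rw [div_le_one (by positivity)]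
        nlinarith
    _ = X / (2 * L ^ A) := mul_one _

theorem good_of (th e τ : ℝ) (hA : Adm th e τ) (A K K1 K2 : ℕ) : ∃ X0 : ℕ, ∀ X : ℕ, X0 ≤ X →
    ∀ n : ℕ, ∀ c1 c2 : ℕ → ℝ, ∑ m ∈ Icc 1 X, c1 m ^ 2 ≤ X * (Real.log X) ^ 4 →
    ∀ F : ℝ → ℂ, Continuous F → (∀ θ, ‖F θ‖ = ‖ES X c1 θ‖ * ‖ES X c2 θ‖) →
    (∀ θ, Ht ((Real.log X) ^ (K + K1 + K2 + 1)) X θ →
      ‖F θ‖ ≤ (X : ℝ) ^ 2 / (Real.log X) ^ (2 * (K + K1) + K2 + A + 2)) →
    (∀ (QQ : Finset ℕ) (N : ℝ),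
      (∀ q ∈ QQ, (Real.log X) ^ (K + K1) < (q : ℝ) ∧
        (q : ℝ) ≤ (Real.log X) ^ K1 * (Nat.gcd q n : ℝ)) →
      (∀ q ∈ QQ, ∀ q' ∈ QQ, (Nat.lcm q q' : ℝ) ≤ N) → N ≤ (X : ℝ) ^ (1 - th + 3 / 2 * e) →
      ∑ q ∈ QQ, WtE X c2 c2 (2 * (Real.log X) ^ K2) q ≤ X / (Real.log X) ^ (2 * A + 6)) →
    GoodG th e (fun x => ‖F x‖) X n A K1 K2 := by
  classical
  obtain ⟨X1, hX1⟩ := MP_log_large 6
  obtain ⟨X2, hX2⟩ := MP_log_pow 4 K2 (ε := 1 / 10) (by norm_num)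
  refine ⟨max (max X1 X2) 1, fun X hX n c1 c2 hc F hFc hFn hmaj hgr QQ N h1 h2 h3 => ?_⟩
  have g1 : X1 ≤ X := by omega
  have g2 : X2 ≤ X := by omega
  have g3 : 1 ≤ X := by omega
  have hL := hX1 X g1
  have hlog := hX2 X g2
  obtain ⟨a1, a2, a3, a4, a5⟩ := hA
  set L : ℝ := Real.log (X : ℝ) with hLd
  have hL0 : 0 < L := by linarith
  have hX1' : (1 : ℝ) ≤ X := by exact_mod_cast g3
  have hX0 : (0 : ℝ) < X := by linarith
  rw [← Finset.sum_filter_add_sum_filter_not QQ (fun q : ℕ => (q : ℝ) ≤ L ^ (K + K1))]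
  have hs : ∑ q ∈ QQ.filter (fun q : ℕ => (q : ℝ) ≤ L ^ (K + K1)),
      dscG (fun x => ‖F x‖) X q (2 * L ^ K2) ≤ X / (2 * L ^ A) := by
    refine small_q X g3 L hL F hFc (K + K1) K2 A hmaj _ fun q hq => ?_
    rw [mem_filter] at hq
    exact ⟨(h1 q hq.1).1, hq.2⟩
  have hb : ∑ q ∈ QQ.filter (fun q : ℕ => ¬ (q : ℝ) ≤ L ^ (K + K1)),
      dscG (fun x => ‖F x‖) X q (2 * L ^ K2) ≤ X / (2 * L ^ A) := by
    have hsub : QQ.filter (fun q : ℕ => ¬ (q : ℝ) ≤ L ^ (K + K1)) ⊆ QQ :=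
      Finset.filter_subset _ _
    have h4 := hgr (QQ.filter (fun q : ℕ => ¬ (q : ℝ) ≤ L ^ (K + K1))) N
      (fun q hq => ⟨not_le.1 (mem_filter.1 hq).2, (h1 q (hsub hq)).2⟩)
      (fun q hq q' hq' => h2 q (hsub hq) q' (hsub hq')) h3
    have h5 : ∀ q ∈ QQ.filter (fun q : ℕ => ¬ (q : ℝ) ≤ L ^ (K + K1)),
        dscG (fun x => ‖F x‖) X q (2 * L ^ K2) = WtE X c1 c2 (2 * L ^ K2) q := fun q _ =>
      dscG_eq X c1 c2 F hFn q _
    rw [Finset.sum_congr rfl h5]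
    refine wt_pair X g3 L hL (2 * L ^ K2) (by positivity) c1 c2 A hc _ N
      ⟨fun q hq => (h1 q (hsub hq)).1, fun q hq q' hq' => h2 q (hsub hq) q' (hsub hq')⟩ ?_ h4
    calc 2 * (2 * L ^ K2) * N ≤ 2 * (2 * L ^ K2) * (X : ℝ) ^ (1 - th + 3 / 2 * e) :=
          mul_le_mul_of_nonneg_left h3 (by positivity)
      _ = (4 * L ^ K2) * (X : ℝ) ^ (1 - th + 3 / 2 * e) := by ring
      _ ≤ (X : ℝ) ^ (1 / 10 : ℝ) * (X : ℝ) ^ (9 / 10 : ℝ) := by
          refine mul_le_mul hlog (Real.rpow_le_rpow_of_exponent_le hX1' (by linarith))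
            (by positivity) (by positivity)
      _ = X := by
          rw [← Real.rpow_add hX0]
          norm_num
  calc _ ≤ (X : ℝ) / (2 * L ^ A) + X / (2 * L ^ A) := add_le_add hs hb
    _ = X / L ^ A := by field_simp; ring

theorem centre_of (th e τ : ℝ) (hA : Adm th e τ) (A A0 : ℕ) : ∃ X0 : ℕ, ∀ X : ℕ, X0 ≤ X →
    ∀ c1 c2 : ℕ → ℝ, ∑ m ∈ Icc 1 X, c1 m ^ 2 ≤ X * (Real.log X) ^ 4 →
    ∀ F : ℝ → ℂ, (∀ θ, ‖F θ‖ = ‖ES X c1 θ‖ * ‖ES X c2 θ‖) →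
    (∀ (QQ : Finset ℕ) (N : ℝ), (∀ q ∈ QQ, 1 ≤ q) →
      (∀ q ∈ QQ, ∀ q' ∈ QQ, (Nat.lcm q q' : ℝ) ≤ N) → N ≤ X →
      ∑ q ∈ QQ, WtE X c2 c2 (1 / (Real.log X) ^ A0) q ≤ X / (Real.log X) ^ (2 * A + 6)) →
    ∀ (QQ : Finset ℕ) (N : ℝ), (∀ q ∈ QQ, 1 ≤ q) →
      (∀ q ∈ QQ, ∀ q' ∈ QQ, (Nat.lcm q q' : ℝ) ≤ N) → N ≤ (X : ℝ) ^ (1 - th + 3 / 2 * e) →
      ∑ q ∈ QQ, dscG (fun x => ‖F x‖) X q (1 / (Real.log X) ^ A0) ≤ X / (Real.log X) ^ A := by
  obtain ⟨X1, hX1⟩ := MP_log_large 6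
  obtain ⟨X2, hX2⟩ := MP_log_pow 2 0 (ε := 1 / 10) (by norm_num)
  refine ⟨max (max X1 X2) 1, fun X hX c1 c2 hc F hFn hce QQ N h1 h2 h3 => ?_⟩
  have g1 : X1 ≤ X := by omega
  have g2 : X2 ≤ X := by omega
  have g3 : 1 ≤ X := by omega
  have hL := hX1 X g1
  have hlog := hX2 X g2
  rw [pow_zero, mul_one] at hlog
  obtain ⟨a1, a2, a3, a4, a5⟩ := hA
  set L : ℝ := Real.log (X : ℝ) with hLd
  have hL0 : 0 < L := by linarith
  have hX1' : (1 : ℝ) ≤ X := by exact_mod_cast g3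
  have hX0 : (0 : ℝ) < X := by linarith
  have hNX : 2 * N ≤ X := by
    calc 2 * N ≤ 2 * (X : ℝ) ^ (1 - th + 3 / 2 * e) := by linarith
      _ ≤ (X : ℝ) ^ (1 / 10 : ℝ) * (X : ℝ) ^ (9 / 10 : ℝ) := by
          refine mul_le_mul hlog (Real.rpow_le_rpow_of_exponent_le hX1' (by linarith))
            (by positivity) (by positivity)
      _ = X := by
          rw [← Real.rpow_add hX0]
          norm_num
  rcases Finset.eq_empty_or_nonempty QQ with hemp | ⟨q0, hq0⟩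
  · rw [hemp, Finset.sum_empty]
    positivity
  have hN1 : 1 ≤ N := by
    have g1 := h2 q0 hq0 q0 hq0
    rw [Nat.lcm_self] at g1
    have g2 : (1 : ℝ) ≤ q0 := by exact_mod_cast h1 q0 hq0
    linarith
  have h4 := hce QQ N h1 h2 (by linarith)
  have h5 : ∀ q ∈ QQ, dscG (fun x => ‖F x‖) X q (1 / L ^ A0) = WtE X c1 c2 (1 / L ^ A0) q :=
    fun q _ => dscG_eq X c1 c2 F hFn q _
  rw [Finset.sum_congr rfl h5]
  have hr1 : 1 / L ^ A0 ≤ 1 := by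
    rw [div_le_one (by positivity)]
    exact one_le_pow₀ (by linarith)
  have h6 := wt_pair X g3 L hL (1 / L ^ A0) (by positivity) c1 c2 A hc QQ N ⟨h1, h2⟩ (by
    have : 2 * (1 / L ^ A0) * N ≤ 2 * 1 * N :=
      mul_le_mul_of_nonneg_right (by linarith) (by linarith)
    linarith) h4
  refine h6.trans ?_
  exact div_le_div_of_nonneg_left hX0.le (by positivity) (by
    have : 0 < L ^ A := by positivity
    linarith)

end Pool.MP_dd84fd_nt.LX
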