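import Pool.Agent.Lib.MP_dd84fd_nt.LX.FaArcs
import Pool.Agent.Lib.MP_dd84fd_nt.LX.FaGood
import Pool.Agent.Lib.MP_dd84fd_nt.JX.FaFin

/-!
# LX-FaFin: GEN_L from the structured decomposition (StrWJ), the tree theorem, the pointwise lemma,
greedy and centre

`ww1 * ww2 - f1 * f2 = (1/2) ((ww1 - f1) * (ww2 + f2) + (ww1 + f1) * (ww2 - f2))`. For each of the two
terms: `U = tr (ww1 + s1 f1)` arbitrary, `ww2 + s2 f2 = v + err` (`StrWJ`), `TreeL` for `(U, v)` gives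
an exceptional set, Cauchy for `err`; the discs: `PlL`, `GreedyL`, `CentreL` and `MajI` for the factor
with `s = -1`.
-/

set_option autoImplicit false

namespace Pool.MP_dd84fd_nt.LX

open Finset Pool.MP_67663b_nt.Odd Pool.MP_dd84fd_nt.En Pool.MP_dd84fd_nt.E2 Pool.MP_dd84fd_nt.LS
  Pool.MP_dd84fd_nt.GX Pool.MP_dd84fd_nt.HX Pool.MP_dd84fd_nt.IX

open Pool.MP_dd84fd_nt.L2G (nrm)

open Pool.MP_dd84fd_nt.PL (rr Fam)

open Pool.MP_dd84fd_nt.JX (Adm ZJ DecJ Str StrWJ decJ_mono)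

private theorem fn_logpow (A : ℕ) : ∃ X0 : ℕ, ∀ X : ℕ, X0 ≤ X → (Real.log (X : ℝ)) ^ A ≤ X := by
  have h3 : ∀ᶠ x : ℝ in Filter.atTop, (Real.log x) ^ A ≤ x := by
    have h4 := (Real.isLittleO_pow_log_id_atTop (n := A)).bound one_pos
    filter_upwards [h4, Filter.eventually_ge_atTop 1] with x hx hx1
    rw [one_mul, Real.norm_eq_abs, Real.norm_eq_abs, id, abs_of_pos (by linarith : 0 < x)] at hx
    exact (le_abs_self _).trans hx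
  exact Filter.eventually_atTop.1 ((tendsto_natCast_atTop_atTop (R := ℝ)).eventually h3)

/-- `DecW` is monotone in `B` -/
theorem decW_mono {B B' C2 : ℕ} {th e τ : ℝ} {ww : ℕ → ℕ → ℝ} (hB : B' ≤ B)
    (h : DecW B C2 th e τ ww) : DecW B' C2 th e τ ww := by
  obtain ⟨X0, hX0⟩ := h
  obtain ⟨X1, hX1⟩ := MP_log_large 1
  refine ⟨max X0 X1, fun X hX => ?_⟩
  obtain ⟨I, γ, α, M, K, a, c, err, h1, h2, h3, h4, h5, h6, h7, h8, h9⟩ :=
    hX0 X ((le_max_left _ _).trans hX)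
  have hL := hX1 X ((le_max_right _ _).trans hX)
  refine ⟨I, γ, α, M, K, a, c, err, h1, h2, h3, h4, h5, h6, h7, h8, h9.trans ?_⟩
  exact div_le_div_of_nonneg_left (Nat.cast_nonneg _) (by positivity)
    (pow_le_pow_right₀ hL hB)

private theorem wSI_le (G : ℕ) (th e : ℝ) (X Λ : ℕ) (bb : ℝ) (j : ZMod G) :
    ‖wSI G th e X Λ bb j‖ ≤ 1 := by
  unfold wSI
  split_ifs <;> simp

theorem wt_sq (ww gg : ℕ → ℕ → ℝ) (s : ℝ) (w X : ℕ) (r : ℝ) (q : ℕ) :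
    WtE X (cfI ww gg s w X) (cfI ww gg s w X) r q =
      ∑ a ∈ rr q, ∫ x in (-r / X)..(r / X), ‖WI ww gg s w X ((a : ℝ) / q + x)‖ ^ 2 := by
  unfold WtE arcE
  refine sum_congr rfl fun a _ => ?_
  apply intervalIntegral.integral_congr
  intro x _
  simp only
  rw [← WI_ES, pow_two]

theorem gen_l (hSt : StrWJ) (hT : TreeL) (hP : PlL) (hG : GreedyL) (hC : CentreL) : GenL := by
  classical
  intro A
  obtain ⟨A1, hA1⟩ : ∃ A1 : ℕ, A1 = A + 2 := ⟨_, rfl⟩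
  obtain ⟨Bs, hs⟩ := hSt (2 * A1 + 6)
  obtain ⟨Bp, hp⟩ := hP (A1 + 4)
  obtain ⟨Bg, hg⟩ := hG (2 * (A1 + 4) + 6)
  obtain ⟨A0, hc⟩ := hC (2 * (A1 + 4) + 6)
  refine ⟨max Bs (max Bp Bg), fun K0 C1 C2 => ?_⟩
  obtain ⟨Cs, hs⟩ := hs K0 C1 C2
  obtain ⟨K1, K2, hp⟩ := hp K0 C1 C2
  obtain ⟨C, hg⟩ := hg K0 C1 C2 K1 (K2 + 1)
  refine ⟨C + 1, fun th e τ hA ww1 gg1 ww2 gg2 hW1 hDec1 hMaj1 hW2 hDec2 hMaj2 K => ?_⟩
  have hDw : DecW Bp C2 th e τ ww1 :=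
    decW_mono ((le_max_left _ _).trans (le_max_right _ _)) hDec1
  have hDs : DecJ Bs C2 th e τ ww2 := decJ_mono (le_max_left _ _) hDec2
  have hDp : DecJ Bp C2 th e τ ww2 := decJ_mono ((le_max_left _ _).trans (le_max_right _ _)) hDec2
  have hDg : DecJ Bg C2 th e τ ww2 := decJ_mono ((le_max_right _ _).trans (le_max_right _ _)) hDec2
  obtain ⟨AA, hAA⟩ : ∃ AA : ℕ, AA = 2 * (K + K1) + (K2 + 1) + (A1 + 4) + 2 := ⟨_, rfl⟩
  obtain ⟨BB, hBB⟩ : ∃ BB : ℕ, BB = K + K1 + (K2 + 1) + 1 := ⟨_, rfl⟩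
  obtain ⟨D1, hM1⟩ := hMaj1 (AA + 2) BB
  obtain ⟨D2, hM2⟩ := hMaj2 (AA + 2) BB
  refine ⟨max (max D1 D2) 1, fun D' hD' => ?_⟩
  have hD1 : D1 ≤ D' := by omega
  have hD2 : D2 ≤ D' := by omega
  have hD3 : 1 ≤ D' := by omega
  obtain ⟨X1, hX1⟩ := hM1 D' hD1
  obtain ⟨X2, hX2⟩ := hM2 D' hD2
  obtain ⟨Xt, hXt⟩ := hT A1 Cs 4 th e τ hA
  obtain ⟨Xs, hXs⟩ := hs th e τ hA ww2 gg2 hW2 hDs D' hD3
  obtain ⟨Xp, hXp⟩ := hp th e τ hA ww1 gg1 ww2 gg2 hW1 hDw hW2 hDp D' (A0 + 1) hD3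
  obtain ⟨Xg, hXg⟩ := hg K th e τ hA ww2 gg2 hW2 hDg D' hD3
  obtain ⟨Xc, hXc⟩ := hc K0 C1 ww2 gg2 hW2 D' hD3
  obtain ⟨Xa, hXa⟩ := phU_discs K0 C1 ww1 gg1 ww2 gg2 hW1 hW2 th e τ hA D'
  obtain ⟨Xb, hXb⟩ := discs_boundG th e τ hA A1 K1 K2 A0
  obtain ⟨Xo, hXo⟩ := good_of th e τ hA (A1 + 4) K K1 (K2 + 1)
  obtain ⟨Xe, hXe⟩ := centre_of th e τ hA (A1 + 4) A0
  obtain ⟨Xv, hXv⟩ := vbh_cf K0 C1 ww1 gg1 hW1 D'
  obtain ⟨Xq, hXq⟩ := cf_sq K0 C1 ww1 gg1 hW1 D'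
  obtain ⟨Xw1, hXw1⟩ := wi_facts K0 C1 ww1 gg1 hW1 D'
  obtain ⟨Xw2, hXw2⟩ := wi_facts K0 C1 ww2 gg2 hW2 D'
  obtain ⟨Xl, hXl⟩ := MP_log_large 4
  obtain ⟨Xm, hXm⟩ := fn_logpow A1
  refine ⟨max (max (max (max X1 X2) (max Xt Xs)) (max (max Xp Xg) (max Xc Xa)))
    (max (max (max Xb Xo) (max Xe Xv)) (max (max Xq Xw1) (max (max Xw2 Xl) (max Xm 2)))),
    fun X hX => ?_⟩
  simp only [max_le_iff] at hX
  obtain ⟨⟨⟨⟨g1, g2⟩, g3, g4⟩, ⟨g5, g6⟩, g7, g8⟩, ⟨⟨g9, g10⟩, g11, g12⟩, ⟨g13, g14⟩,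
    ⟨g15, g16⟩, g17, g18⟩ := hX
  have hX1 := hX1 X g1
  have hX2 := hX2 X g2
  have hXt := hXt X g3
  have hXs := hXs X g4
  have hXp := hXp X g5
  have hXg := hXg X g6
  have hXc := hXc X g7
  have hXa := hXa X g8
  have hXb := hXb X g9
  have hXo := hXo X g10
  have hXe := hXe X g11
  have hXv := hXv X g12
  have hXq := hXq X g13
  have hXw1 := hXw1 X g14
  have hXw2 := hXw2 X g15
  have hL := hXl X g16
  have hLm := hXm X g17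
  obtain ⟨w, hw⟩ : ∃ w : ℕ, w = wX D' X := ⟨_, rfl⟩
  rw [← hw] at hX1 hX2 hXs hXp hXg hXc hXa hXv hXq hXw1 hXw2 ⊢
  set L : ℝ := Real.log (X : ℝ) with hLd
  have hX11 : (1 : ℝ) ≤ X := by exact_mod_cast (by omega : 1 ≤ X)
  have hX0 : (0 : ℝ) < X := by linarith
  have hL0 : 0 < L := by linarith
  have hXz : X ≠ 0 := by omega
  -- the modulus
  obtain ⟨G, hGe⟩ : ∃ G : ℕ, G = X ^ 10 := ⟨_, rfl⟩
  have hGz : NeZero G := ⟨by rw [hGe]; positivity⟩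
  have hG3 : 3 * X ≤ G := by
    rw [hGe]
    have h1 : 2 ^ 9 ≤ X ^ 9 := Nat.pow_le_pow_left g18 9
    calc 3 * X ≤ X ^ 9 * X := Nat.mul_le_mul_right X (by omega)
      _ = X ^ 10 := by ring
  have hG5 : X ^ 5 ≤ G := by
    rw [hGe]
    exact Nat.pow_le_pow_right (by omega) (by norm_num)
  have hXG : X < G := by omega
  -- one of the two terms
  have key : ∀ s1 s2 : ℝ, |s1| ≤ 1 → |s2| ≤ 1 →
      (∀ θ, Ht (L ^ BB) X θ → ‖FFL ww1 gg1 s1 ww2 gg2 s2 w X 0 θ‖ ≤ (X : ℝ) ^ 2 / L ^ AA) →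
      ∃ D Ex : Finset ℕ, (D.card : ℝ) ≤ L ^ C ∧
        (∀ d ∈ D, L ^ K ≤ (d : ℝ) ∧ (d : ℝ) ≤ (X : ℝ) ^ (1 - th + 3 * e)) ∧
        (Ex.card : ℝ) ≤ (X : ℝ) ^ (th - e / 4) ∧
        ∀ n : ℕ, X < 2 * n → n ≤ X → n ∉ Ex → (∀ d ∈ D, ¬ d ∣ n) →
          |cvv (cfI ww1 gg1 s1 w X) (cfI ww2 gg2 s2 w X) n| ≤ X / L ^ A := by
    intro s1 s2 hs1 hs2 hmaj
    obtain ⟨D, hDc, hDm, hDg'⟩ := hXg s2 hs2
    obtain ⟨v, err, hv, hve, herr⟩ := hXs s2 hs2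
    have hvb := hXv s1 hs1 G hG3
    obtain ⟨c1, hc1⟩ : ∃ c1 : ℕ → ℝ, c1 = cfI ww1 gg1 s1 w X := ⟨_, rfl⟩
    obtain ⟨c2, hc2⟩ : ∃ c2 : ℕ → ℝ, c2 = cfI ww2 gg2 s2 w X := ⟨_, rfl⟩
    have hsq := hXq s1 hs1
    rw [← hc1] at hvb hsq
    obtain ⟨U, hU⟩ : ∃ U : ZMod G → ℂ, U = tr G X c1 := ⟨_, rfl⟩
    rw [← hU] at hvb
    obtain ⟨Ex, hEx⟩ : ∃ Ex : Finset ℕ, Ex = (Icc 1 X).filter (fun n => ∀ (Λ : ℕ) (bb : ℝ),
        1 ≤ Λ → 1 ≤ bb → (Λ : ℝ) * bb ≤ 2 * (X : ℝ) ^ (1 - th + e) →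
        (X : ℝ) / L ^ A1 < ‖PhU G X U v (wSI G th e X Λ bb) n‖) := ⟨_, rfl⟩
    refine ⟨D, Ex, hDc, hDm, ?_, ?_⟩
    · refine hXt G hG5 U hvb v hv Ex ?_ ?_
      · rw [hEx]
        exact Finset.filter_subset _ _
      · intro n hn Λ bb h1 h2 h3
        rw [hEx, Finset.mem_filter] at hn
        exact hn.2 Λ bb h1 h2 h3
    · intro n hn1 hn2 hnEx hnD
      have hn0 : 1 ≤ n := by omega
      have hex : ∃ (Λ : ℕ) (bb : ℝ), 1 ≤ Λ ∧ 1 ≤ bb ∧ (Λ : ℝ) * bb ≤ 2 * (X : ℝ) ^ (1 - th + e) ∧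
          ‖PhU G X U v (wSI G th e X Λ bb) n‖ ≤ (X : ℝ) / L ^ A1 := by
        by_contra hcc
        apply hnEx
        rw [hEx, Finset.mem_filter]
        refine ⟨Finset.mem_Icc.2 ⟨hn0, hn2⟩, fun Λ bb h1 h2 h3 => ?_⟩
        by_contra h4
        exact hcc ⟨Λ, bb, h1, h2, h3, not_lt.1 h4⟩
      obtain ⟨Λ, bb, hΛ, hbb, hΛb, hsmall⟩ := hex
      obtain ⟨F, hF⟩ : ∃ F : ℝ → ℂ, F = FFL ww1 gg1 s1 ww2 gg2 s2 w X n := ⟨_, rfl⟩
      have hFc : Continuous F := by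
        rw [hF]
        exact ffl_cont ww1 gg1 ww2 gg2 s1 s2 w X n
      have hFn : ∀ θ, ‖F θ‖ = ‖ES X c1 θ‖ * ‖ES X c2 θ‖ := by
        intro θ
        rw [hF, ffl_norm, hc1, hc2]
        rfl
      have hFm : ∀ θ, Ht (L ^ (K + K1 + (K2 + 1) + 1)) X θ →
          ‖F θ‖ ≤ (X : ℝ) ^ 2 / L ^ (2 * (K + K1) + (K2 + 1) + (A1 + 4) + 2) := by
        intro θ hθ
        rw [← hBB] at hθ
        rw [← hAA, hF, ffl_norm]
        have := hmaj θ hθ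
        rwa [ffl_norm] at this
      have hgreedy : ∀ (QQ : Finset ℕ) (N : ℝ),
          (∀ q ∈ QQ, L ^ (K + K1) < (q : ℝ) ∧ (q : ℝ) ≤ L ^ K1 * (Nat.gcd q n : ℝ)) →
          (∀ q ∈ QQ, ∀ q' ∈ QQ, (Nat.lcm q q' : ℝ) ≤ N) → N ≤ (X : ℝ) ^ (1 - th + 3 / 2 * e) →
          ∑ q ∈ QQ, WtE X c2 c2 (2 * L ^ (K2 + 1)) q ≤ X / L ^ (2 * (A1 + 4) + 6) := by
        intro QQ N h1 h2 h3
        have h4 := hDg' n (Finset.mem_Icc.2 ⟨hn0, hn2⟩) hnD QQ N h1 h2 h3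
        refine le_trans (le_of_eq ?_) h4
        refine Finset.sum_congr rfl fun q _ => ?_
        rw [hc2]
        exact wt_sq ww2 gg2 s2 w X (2 * L ^ (K2 + 1)) q
      have hgood := hXo n c1 c2 hsq F hFc hFn hFm hgreedy
      have hcen : ∀ (QQ : Finset ℕ) (N : ℝ), (∀ q ∈ QQ, 1 ≤ q) →
          (∀ q ∈ QQ, ∀ q' ∈ QQ, (Nat.lcm q q' : ℝ) ≤ N) → N ≤ X →
          ∑ q ∈ QQ, WtE X c2 c2 (1 / L ^ A0) q ≤ X / L ^ (2 * (A1 + 4) + 6) := by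
        intro QQ N h1 h2 h3
        have h4 := hXc s2 hs2 QQ N h1 h2 h3
        refine le_trans (le_of_eq ?_) h4
        refine Finset.sum_congr rfl fun q _ => ?_
        rw [hc2]
        exact wt_sq ww2 gg2 s2 w X (1 / L ^ A0) q
      have hcentre := hXe c1 c2 hsq F hFn hcen
      have hpl : ∀ (QQ : Finset ℕ) (N b : ℝ) (bq : ℕ → ℝ),
          (∀ q ∈ QQ, 1 ≤ q ∧ b ≤ bq q ∧ bq q ≤ 2 * b) →
          (∀ q ∈ QQ, ∀ q' ∈ QQ, (Nat.lcm q q' : ℝ) ≤ N) → (QQ.card : ℝ) ≤ (X : ℝ) ^ (e / 2) →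
          1 / L ^ (A0 + 1) ≤ b → N * b ≤ (X : ℝ) ^ (1 - th + 3 / 2 * e) →
          (L ^ K2 < b ∨ ∀ q ∈ QQ, L ^ K1 * (Nat.gcd q n : ℝ) < q) →
          ∑ q ∈ QQ, ‖∑ a ∈ rr q, ((∫ x in (bq q / X)..(2 * bq q / X), F ((a : ℝ) / q + x)) +
            ∫ x in (bq q / X)..(2 * bq q / X), F ((a : ℝ) / q - x))‖ ≤ X / L ^ (A1 + 4) := by
        rw [hF]
        exact hXp s1 s2 hs1 hs2 n hn1 hn2
      have hdisc := hXb n F hFc hpl hgood hcentre Λ bb hΛ hbb hΛb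
      have hph := hXa s1 s2 hs1 hs2 Λ bb hΛ hbb hΛb G (by rw [hGe]) n hn2
      rw [← hF, ← hc1, ← hc2, ← hU] at hph
      have hone := phU_one G th e X Λ n bb U c2
      have hadd := phU_add G X n U c2 v err (wSI G th e X Λ bb) (fun m hm => by
        rw [← hve m hm, hc2]
        rfl)
      have hco := phU_co G X (by omega) c1 c2 n hn2
      rw [← hU] at hco
      -- the error part
      have hcau := phU_cauchy G X U err (wSI G th e X Λ bb) (fun j => wSI_le G th e X Λ bb j) n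
      have hE : nm2 G (tr G X err) ≤ X / L ^ (2 * A1 + 6) := by
        unfold nm2
        rw [parseval G X hXG]
        exact herr
      have hE0 : 0 ≤ nm2 G (tr G X err) := by
        unfold nm2
        positivity
      have hVe : ‖PhU G X U err (wSI G th e X Λ bb) n‖ ≤ X / L ^ A1 := by
        have h1 : ‖PhU G X U err (wSI G th e X Λ bb) n‖ ^ 2 ≤ (X / L ^ (A1 + 1)) ^ 2 := by
          calc ‖PhU G X U err (wSI G th e X Λ bb) n‖ ^ 2 ≤ nm2 G U * nm2 G (tr G X err) := hcau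
            _ ≤ (X * L ^ 4) * (X / L ^ (2 * A1 + 6)) := mul_le_mul hvb.1 hE hE0 (by positivity)
            _ = (X / L ^ (A1 + 1)) ^ 2 := by
                have h2 : L ^ (2 * A1 + 6) = L ^ 4 * (L ^ (A1 + 1)) ^ 2 := by
                  rw [← pow_mul, ← pow_add]
                  congr 1
                  ring
                rw [h2]
                field_simp
        have h3 : ‖PhU G X U err (wSI G th e X Λ bb) n‖ ≤ X / L ^ (A1 + 1) :=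
          (sq_le_sq₀ (norm_nonneg _) (by positivity)).1 h1
        refine h3.trans ?_
        exact div_le_div_of_nonneg_left hX0.le (by positivity)
          (pow_le_pow_right₀ (by linarith) (by omega))
      have hE1 : 1 ≤ X / L ^ A1 := by
        rw [le_div_iff₀ (by positivity), one_mul]
        exact hLm
      have htot : ‖PhU G X U c2 (fun _ => 1) n‖ ≤ 4 * (X / L ^ A1) := by
        rw [hone, hadd]
        have h5 : ‖PhU G X U c2 (fun j => 1 - wSI G th e X Λ bb j) n‖ ≤ 1 + X / L ^ A1 := by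
          have h6 : PhU G X U c2 (fun j => 1 - wSI G th e X Λ bb j) n =
              (PhU G X U c2 (fun j => 1 - wSI G th e X Λ bb j) n -
                ∑ q ∈ QQi th e X Λ, dsc F X q (rdi th e X Λ bb q)) +
              ∑ q ∈ QQi th e X Λ, dsc F X q (rdi th e X Λ bb q) := by ring
          rw [h6]
          exact (norm_add_le _ _).trans (add_le_add hph hdisc)
        refine (norm_add_le _ _).trans ?_
        have h7 := norm_add_le (PhU G X U v (wSI G th e X Λ bb) n)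
          (PhU G X U err (wSI G th e X Λ bb) n)
        linarith
      rw [hco, Complex.norm_real, Real.norm_eq_abs] at htot
      rw [← hc1, ← hc2]
      refine htot.trans ?_
      have h8 : L ^ A1 = L ^ 2 * L ^ A := by
        rw [hA1]
        ring
      rw [h8, mul_div_assoc', div_le_div_iff₀ (by positivity) (by positivity)]
      have h9 : 4 ≤ L ^ 2 := by nlinarith
      have h10 : 0 ≤ X * L ^ A := by positivity
      calc 4 * (X : ℝ) * L ^ A = 4 * (X * L ^ A) := by ring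
        _ ≤ L ^ 2 * (X * L ^ A) := mul_le_mul_of_nonneg_right h9 h10
        _ = X * (L ^ 2 * L ^ A) := by ring
  have hprod : (X : ℝ) / L ^ (AA + 2) * (X * L ^ 2) = (X : ℝ) ^ 2 / L ^ AA := by
    rw [pow_add]
    field_simp
  obtain ⟨Da, Ea, a1, a2, a3, a4⟩ := key (-1) 1 (by norm_num) (by norm_num) (by
    intro θ hθ
    rw [ffl_norm, ← hprod]
    exact mul_le_mul (hX1 θ hθ) ((hXw2 1 (by norm_num)).2.1 θ) (norm_nonneg _) (by positivity))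
  obtain ⟨Db, Eb, b1, b2, b3, b4⟩ := key 1 (-1) (by norm_num) (by norm_num) (by
    intro θ hθ
    rw [ffl_norm, mul_comm, ← hprod]
    exact mul_le_mul (hX2 θ hθ) ((hXw1 1 (by norm_num)).2.1 θ) (norm_nonneg _) (by positivity))
  refine ⟨Da ∪ Db, Ea ∪ Eb, ?_, ?_, ?_, ?_⟩
  · have h1 : ((Da ∪ Db).card : ℝ) ≤ Da.card + Db.card := by
      exact_mod_cast Finset.card_union_le Da Db
    have h2 : 0 ≤ L ^ C := by positivity
    calc ((Da ∪ Db).card : ℝ) ≤ L ^ C + L ^ C := h1.trans (add_le_add a1 b1)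
      _ = 2 * L ^ C := by ring
      _ ≤ L * L ^ C := mul_le_mul_of_nonneg_right (by linarith) h2
      _ = L ^ (C + 1) := by ring
  · intro d hd
    rw [Finset.mem_union] at hd
    exact hd.elim (a2 d) (b2 d)
  · have h1 : ((Ea ∪ Eb).card : ℝ) ≤ Ea.card + Eb.card := by
      exact_mod_cast Finset.card_union_le Ea Eb
    linarith
  · intro n hn1 hn2 _ hnE hnD
    rw [Finset.mem_union, not_or] at hnE
    have h1 := a4 n hn1 hn2 hnE.1 (fun d hd => hnD d (Finset.mem_union_left _ hd))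
    have h2 := b4 n hn1 hn2 hnE.2 (fun d hd => hnD d (Finset.mem_union_right _ hd))
    have h3 := repL ww1 gg1 ww2 gg2 w X n
    have h4 : |2 * (cvv (ww1 X) (ww2 X) n - cvv (fI gg1 X w) (fI gg2 X w) n)| ≤
        X / L ^ A + X / L ^ A := by
      rw [← h3]
      exact (abs_add_le _ _).trans (add_le_add h1 h2)
    rw [abs_mul, abs_of_pos (by norm_num : (0 : ℝ) < 2)] at h4
    linarith

end Pool.MP_dd84fd_nt.LX
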