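import Pool.Agent.Lib.MP_dd84fd_nt.KX.NKb

/-!
# Theorem L, numerics: the sum over one prime, `1/5 ≤ θ ≤ 1/4` (helper88)

As KX/NKb, eight blocks of slices; `0.593 y²`.
-/

set_option autoImplicit false

namespace Pool.MP_dd84fd_nt.LX

open Finset Pool.MP_dd84fd_nt.IY Pool.MP_dd84fd_nt.KX

/-- bounds for `1/(u(1-u))` on the blocks -/
noncomputable def HL : ℕ → ℝ
  | 0 => 626 / 100
  | 1 => 5745 / 1000
  | 2 => 5342 / 1000
  | 3 => 5025 / 1000
  | 4 => 477 / 100
  | 5 => 4567 / 1000
  | 6 => 445 / 100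
  | 7 => 436 / 100
  | _ => 0

/-- weights of the slices -/
noncomputable def wL (δ : ℝ) (i : ℕ) : ℝ := HL (i / 25) * (((i : ℝ) + 1) * δ)

theorem sum_blocks (m n : ℕ) (f : ℕ → ℝ) :
    ∑ i ∈ range (m * n), f i = ∑ j ∈ range n, ∑ i ∈ range m, f (m * j + i) := by
  induction n with
  | zero => simp
  | succ n ih =>
    rw [Nat.mul_succ, Finset.sum_range_add, ih, Finset.sum_range_succ]

theorem wL_sum (δ : ℝ) : ∑ i ∈ range 200, wL δ i = 1896361 / 20 * δ := by
  rw [show 200 = 25 * 8 from rfl, sum_blocks]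
  have h : ∀ j, ∑ i ∈ range 25, wL δ (25 * j + i) = HL j * ((625 * j + 325) * δ) := by
    intro j
    have h1 : ∀ i ∈ range 25, wL δ (25 * j + i) = HL j * ((25 * (j : ℝ) + 1) * δ) +
        HL j * δ * (i : ℝ) := by
      intro i hi
      have hi' := Finset.mem_range.mp hi
      unfold wL
      have h2 : (25 * j + i) / 25 = j := by omega
      rw [h2]
      push_cast
      ring
    rw [Finset.sum_congr rfl h1, Finset.sum_add_distrib,
      ← Finset.mul_sum (range 25) (fun i : ℕ => (i : ℝ)) (HL j * δ), gauss_real]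
    simp only [Finset.sum_const, Finset.card_range, nsmul_eq_mul]
    push_cast
    ring
  rw [Finset.sum_congr rfl fun j _ => h j]
  simp only [Finset.sum_range_succ, Finset.sum_range_zero, HL]
  push_cast
  ring

/-- the bound on one slice -/
theorem HL_le (θ δ ε : ℝ) (i : ℕ) (h1 : 1 / 5 ≤ θ) (h2 : θ ≤ 1 / 4) {y : ℝ} (hy : y = 1 - 3 * θ)
    (hyδ : y = 400 * δ) (_hε : 0 ≤ ε) (hε2 : δ + ε ≤ 1001 / 1000000) (hi : i < 200) :
    (1 : ℝ) ≤ HL (i / 25) * ((θ + i * δ) * (1 - (θ + i * δ + δ) - ε)) := by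
  have hδ : δ = (1 - 3 * θ) / 400 := by linarith
  have hδ0 : 0 < δ := by rw [hδ]; linarith
  have key : ∀ u0 H : ℝ, 0 < H → 0 ≤ u0 → u0 ≤ θ + i * δ → θ + i * δ ≤ 2 / 5 →
      (1 : ℝ) ≤ H * (u0 * (1 - u0 - 1001 / 1000000)) →
      (1 : ℝ) ≤ H * ((θ + i * δ) * (1 - (θ + i * δ + δ) - ε)) := by
    intro u0 H hH h0 h3 h4 h5
    refine h5.trans (mul_le_mul_of_nonneg_left ?_ hH.le)
    nlinarith
  have hi200 : (i : ℝ) ≤ 200 := by exact_mod_cast hi.le
  have hup : θ + i * δ ≤ 2 / 5 := by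
    have : (i : ℝ) * δ ≤ 200 * δ := mul_le_mul_of_nonneg_right hi200 hδ0.le
    linarith
  obtain ⟨j, hj⟩ : ∃ j, j = i / 25 := ⟨_, rfl⟩
  have hj8 : j < 8 := by omega
  have hji : 25 * j ≤ i := by omega
  have hjr : (25 * j : ℝ) * δ ≤ i * δ := by
    refine mul_le_mul_of_nonneg_right ?_ hδ0.le
    exact_mod_cast hji
  rw [← hj]
  interval_cases j
  · refine key (1 / 5) _ (by norm_num [HL]) (by norm_num) ?_ hup (by norm_num [HL])
    push_cast at hjr
    linarith
  · refine key (225 / 1000) _ (by norm_num [HL]) (by norm_num) ?_ hup (by norm_num [HL])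
    push_cast at hjr
    linarith
  · refine key (1 / 4) _ (by norm_num [HL]) (by norm_num) ?_ hup (by norm_num [HL])
    push_cast at hjr
    linarith
  · refine key (275 / 1000) _ (by norm_num [HL]) (by norm_num) ?_ hup (by norm_num [HL])
    push_cast at hjr
    linarith
  · refine key (3 / 10) _ (by norm_num [HL]) (by norm_num) ?_ hup (by norm_num [HL])
    push_cast at hjr
    linarith
  · refine key (325 / 1000) _ (by norm_num [HL]) (by norm_num) ?_ hup (by norm_num [HL])
    push_cast at hjr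
    linarith
  · refine key (34375 / 100000) _ (by norm_num [HL]) (by norm_num) ?_ hup (by norm_num [HL])
    push_cast at hjr
    linarith
  · refine key (359375 / 1000000) _ (by norm_num [HL]) (by norm_num) ?_ hup (by norm_num [HL])
    push_cast at hjr
    linarith

/-- **the sum over one prime** -/
theorem E_sumL (θ : ℝ) (h1 : 1 / 5 ≤ θ) (h2 : θ ≤ 1 / 4) : ∃ X0 : ℕ, ∀ X : ℕ, X0 ≤ X →
    ∀ n : ℕ, X5 X < n → n ≤ X →
      ∑ p ∈ PS X θ ((1 - θ) / 2), (Real.log p / Real.log X - θ) *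
        (Real.log n / (p * Real.log ((n : ℝ) / p))) ≤ 593 / 1000 * (1 - 3 * θ) ^ 2 := by
  classical
  set y := 1 - 3 * θ with hy
  have hy0 : 0 < y := by rw [hy]; linarith
  have hy4 : y ≤ 2 / 5 := by rw [hy]; linarith
  set δ := y / 400 with hδ
  have hδ0 : 0 < δ := by rw [hδ]; positivity
  have hδ1 : δ ≤ 1 / 1000 := by rw [hδ]; linarith
  set ε := δ ^ 2 / 100 with hε
  have hε0 : 0 < ε := by rw [hε]; positivity
  have hεδ : ε ≤ δ / 100000 := by rw [hε]; nlinarith
  have hyδ : y = 400 * δ := by rw [hδ]; ring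
  have hθδ : θ = 1 / 3 - 400 / 3 * δ := by linarith
  obtain ⟨X1, hX1⟩ := mp ε hε0
  obtain ⟨X2, hX2⟩ := logn_ge ε hε0
  refine ⟨X1 + X2 + 2, fun X hX n hn1 hn2 => ?_⟩
  obtain ⟨hn3, hn4, hXr, hn5⟩ := hX2 X (by omega) n hn1 hn2
  have hmp := hX1 X (by omega)
  have hX1' : 1 < X := by omega
  have hL : 0 < Real.log X := Real.log_pos hXr
  set L := Real.log (X : ℝ) with hLd
  set u : ℕ → ℝ := fun i => θ + i * δ with hu
  set S : ℕ → Finset ℕ := fun i => PS X (u i) (u (i + 1)) with hS
  set W : ℕ → ℝ := fun i => if i < 200 then ((i : ℝ) + 1) * δ / (1 - u (i + 1) - ε) else 0 with hW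
  have hus : ∀ i, u (i + 1) = u i + δ := by
    intro i
    rw [hu]
    simp only
    push_cast
    ring
  have hu0 : ∀ i, θ ≤ u i := by
    intro i
    rw [hu]
    simp only
    have : 0 ≤ (i : ℝ) * δ := by positivity
    linarith
  have hu1 : ∀ i, i < 200 → u (i + 1) ≤ (1 - θ) / 2 := by
    intro i hi'
    rw [hu]
    simp only
    have h3 : ((i + 1 : ℕ) : ℝ) ≤ 200 := by exact_mod_cast hi'
    have h4 : ((i + 1 : ℕ) : ℝ) * δ ≤ 200 * δ := mul_le_mul_of_nonneg_right h3 hδ0.le
    linarith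
  have hden : ∀ i, i < 200 → 1 / 2 < 1 - u (i + 1) - ε := by
    intro i hi'
    have := hu1 i hi'
    linarith
  have hW0 : ∀ i, 0 ≤ W i := by
    intro i
    rw [hW]
    simp only
    split_ifs with h3
    · have := hden i h3
      exact div_nonneg (by positivity) (by linarith)
    · exact le_rfl
  -- the slices cover
  have hcov : ∀ p ∈ PS X θ ((1 - θ) / 2), ∃ i ∈ range 200, p ∈ S i ∧
      (Real.log p / L - θ) * (Real.log n / (p * Real.log ((n : ℝ) / p))) ≤ W i / (p : ℝ) := by
    intro p hp'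
    obtain ⟨hp, hpX, hpL, hpU⟩ := of_mem_PS hX1' hp'
    rw [← hLd] at hpL hpU
    have hp0 : (0 : ℝ) < p := by exact_mod_cast hp.pos
    have hn0 : (0 : ℝ) < n := by exact_mod_cast hn5
    have hlc : Real.log ((n : ℝ) / p) = Real.log n - Real.log p :=
      Real.log_div hn0.ne' hp0.ne'
    set a := Real.log p / L with ha
    set N := Real.log n / L with hN
    have haL : a * L = Real.log p := div_mul_cancel₀ _ hL.ne'
    have hNL : N * L = Real.log n := div_mul_cancel₀ _ hL.ne'
    have hN1 : N ≤ 1 := by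
      rw [hN, div_le_one hL]
      exact hn4
    have hN2 : 1 - ε ≤ N := by
      rw [hN, le_div_iff₀ hL]
      exact hn3
    have e3 : θ ≤ a := by
      rw [ha, le_div_iff₀ hL]
      exact hpL
    have e4 : a < (1 - θ) / 2 := by
      rw [ha, div_lt_iff₀ hL]
      exact hpU
    set z : ℝ := (a - θ) / δ with hz
    have hz0 : 0 ≤ z := div_nonneg (by linarith) hδ0.le
    have hz4 : z < 200 := by
      rw [hz, div_lt_iff₀ hδ0]
      linarith
    set i := ⌊z⌋₊ with hi'
    have hi4 : i < 200 := by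
      have := Nat.floor_le hz0
      have h3 : (i : ℝ) < 200 := lt_of_le_of_lt this hz4
      exact_mod_cast h3
    have hia : u i ≤ a := by
      have h3 : (i : ℝ) ≤ z := Nat.floor_le hz0
      rw [hz, le_div_iff₀ hδ0] at h3
      rw [hu]
      simp only
      linarith
    have hib : a < u (i + 1) := by
      have h3 : z < (i : ℝ) + 1 := Nat.lt_floor_add_one z
      rw [hz, div_lt_iff₀ hδ0] at h3
      rw [hu]
      simp only
      push_cast
      linarith
    refine ⟨i, Finset.mem_range.mpr hi4, ?_, ?_⟩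
    · rw [hS]
      refine mem_PS hX1' hp hpX ?_ ?_
      · change u i * L ≤ Real.log p
        rw [← haL]
        exact mul_le_mul_of_nonneg_right hia hL.le
      · change Real.log p < u (i + 1) * L
        rw [← haL]
        exact mul_lt_mul_of_pos_right hib hL
    · have hW' : W i = ((i : ℝ) + 1) * δ / (1 - u (i + 1) - ε) := by
        rw [hW]
        simp only
        rw [if_pos hi4]
      have hd := hden i hi4
      have hc0 : 0 < N - a := by linarith
      have hck : Real.log ((n : ℝ) / p) = (N - a) * L := by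
        rw [hlc, sub_mul, hNL, haL]
      have e5 : Real.log n / (p * Real.log ((n : ℝ) / p)) = N / (N - a) / (p : ℝ) := by
        rw [hck, ← hNL]
        field_simp
      rw [e5, hW', ← mul_div_assoc]
      refine div_le_div_of_nonneg_right ?_ (by positivity)
      have e6 : a - θ ≤ ((i : ℝ) + 1) * δ := by
        have : u (i + 1) = θ + ((i : ℝ) + 1) * δ := by
          rw [hu]
          simp only
          push_cast
          ring
        linarith
      have e7 : N / (N - a) ≤ 1 / (1 - u (i + 1) - ε) := by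
        rw [div_le_div_iff₀ hc0 (by linarith)]
        have e8 : N * (1 - u (i + 1) - ε) ≤ N * (1 - a - ε) :=
          mul_le_mul_of_nonneg_left (by linarith) (by linarith)
        nlinarith
      have e9 : 0 ≤ N / (N - a) := div_nonneg (by linarith) hc0.le
      calc (a - θ) * (N / (N - a)) ≤ ((i : ℝ) + 1) * δ * (1 / (1 - u (i + 1) - ε)) :=
            mul_le_mul e6 e7 e9 (by positivity)
        _ = ((i : ℝ) + 1) * δ / (1 - u (i + 1) - ε) := by rw [mul_one_div]
  -- the bound for one slice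
  have hsl : ∀ i ∈ range 200, W i * ∑ t ∈ S i, 1 / (t : ℝ) ≤ wL δ i * (δ + ε) := by
    intro i hi'
    have hi4 := Finset.mem_range.mp hi'
    have hW' : W i = ((i : ℝ) + 1) * δ / (1 - u (i + 1) - ε) := by
      rw [hW]
      simp only
      rw [if_pos hi4]
    have hd := hden i hi4
    have hui := hu1 i hi4
    have hui0 := hu0 i
    have hs := hus i
    have m1 := hmp (u i) (u (i + 1)) (by linarith) (by linarith)
    rw [hs, show u i + δ - u i = δ by ring, max_eq_right hδ0.le] at m1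
    have hui00 : 0 < u i := by linarith
    have m1' : ∑ p ∈ PS X (u i) (u i + δ), 1 / (p : ℝ) ≤ (δ + ε) / u i := by
      refine m1.trans ?_
      rw [le_div_iff₀ hui00, add_mul, div_mul_cancel₀ _ hui00.ne']
      nlinarith
    have hi0 : (0 : ℝ) ≤ i := Nat.cast_nonneg i
    calc W i * ∑ t ∈ S i, 1 / (t : ℝ) ≤ W i * ((δ + ε) / u i) := by
          refine mul_le_mul_of_nonneg_left ?_ (hW0 i)
          change ∑ t ∈ PS X (u i) (u (i + 1)), 1 / (t : ℝ) ≤ _
          rw [hs]
          exact m1'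
      _ = ((i : ℝ) + 1) * δ * (δ + ε) / (u i * (1 - u (i + 1) - ε)) := by
          rw [hW']
          field_simp
      _ ≤ wL δ i * (δ + ε) := by
          rw [div_le_iff₀ (by positivity)]
          have h4 : (1 : ℝ) ≤ HL (i / 25) * (u i * (1 - u (i + 1) - ε)) := by
            rw [hs]
            exact HL_le θ δ ε i h1 h2 hy hyδ hε0.le (by linarith) hi4
          have h5 : 0 ≤ ((i : ℝ) + 1) * δ * (δ + ε) := by positivity
          unfold wL
          nlinarith
  refine (slice_one (PS X θ ((1 - θ) / 2)) _ 200 S W hW0 hcov).trans ?_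
  refine (Finset.sum_le_sum hsl).trans ?_
  rw [← Finset.sum_mul, wL_sum, hyδ]
  have f1 : δ + ε ≤ 100001 / 100000 * δ := by linarith
  have f2 : 1896361 / 20 * δ * (δ + ε) ≤ 1896361 / 20 * δ * (100001 / 100000 * δ) :=
    mul_le_mul_of_nonneg_left f1 (by positivity)
  refine f2.trans ?_
  nlinarith [sq_nonneg δ]

/-- the sum without the factor -/
theorem E_oneL (θ : ℝ) (h1 : 1 / 5 ≤ θ) (h2 : θ < 1 / 3) : ∃ X0 : ℕ, ∀ X : ℕ, X0 ≤ X →
    ∀ n : ℕ, X5 X < n → n ≤ X →
      ∑ p ∈ PS X θ ((1 - θ) / 2), Real.log n / (p * Real.log ((n : ℝ) / p)) ≤ 3 := by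
  obtain ⟨X1, hX1⟩ := mp (1 / 100) (by norm_num)
  obtain ⟨X2, hX2⟩ := logn_ge (1 / 100) (by norm_num)
  refine ⟨X1 + X2 + 2, fun X hX n hn1 hn2 => ?_⟩
  obtain ⟨hn3, hn4, hXr, hn5⟩ := hX2 X (by omega) n hn1 hn2
  have hmp := hX1 X (by omega) θ ((1 - θ) / 2) (by linarith) (by linarith)
  have hX1' : 1 < X := by omega
  have hL : 0 < Real.log X := Real.log_pos hXr
  have hterm : ∀ p ∈ PS X θ ((1 - θ) / 2), Real.log n / (p * Real.log ((n : ℝ) / p)) ≤
      2 * (1 / (p : ℝ)) := by
    intro p hp'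
    obtain ⟨hp, hpX, hpL, hpU⟩ := of_mem_PS hX1' hp'
    have hp0 : (0 : ℝ) < p := by exact_mod_cast hp.pos
    have hn0 : (0 : ℝ) < n := by exact_mod_cast hn5
    have hlc : Real.log ((n : ℝ) / p) = Real.log n - Real.log p :=
      Real.log_div hn0.ne' hp0.ne'
    have h3 : Real.log p ≤ 2 / 5 * Real.log X := by nlinarith
    have h4 : 0 < Real.log n - Real.log p := by nlinarith
    rw [hlc, div_le_iff₀ (mul_pos hp0 h4)]
    have h5 : 2 * (1 / (p : ℝ)) * (p * (Real.log n - Real.log p)) =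
        2 * (Real.log n - Real.log p) := by field_simp
    rw [h5]
    nlinarith
  refine (Finset.sum_le_sum hterm).trans ?_
  rw [← Finset.mul_sum]
  have h6 : max 0 ((1 - θ) / 2 - θ) / θ ≤ 1 := by
    rw [max_eq_right (by linarith), div_le_iff₀ (by linarith)]
    linarith
  linarith

end Pool.MP_dd84fd_nt.LX
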