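import Pool.Agent.Lib.MP_dd84fd_nt.LX.NDefs

/-!
# Theorem L, numerics: `p q ≤ X^(1/2)` (H_sum)

`m = 1/4 + ε/2`, `δ = (m - θ)/200`, slices `u i = θ + i δ`, `i < 200`, for the exponent `a` of `q` (`a ≤ m` as `2a ≤ 1/2 + ε`).
For `q` in slice `i` the exponent of `p` is in `[u i, m)` (first kind) or in `[m, 1/2+ε-u i]` (second kind).
-/

set_option autoImplicit false

namespace Pool.MP_dd84fd_nt.LX

open Finset Pool.MP_dd84fd_nt.IY Pool.MP_dd84fd_nt.KX

/-- the weight -/
private theorem h_wt (N η s t : ℝ) (hη : 0 < η) (hN1 : 1 - η ≤ N) (hN2 : N ≤ 1) (hs : s < 1 - η)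
    (ht : t ≤ s) : 0 < N - t ∧ N / (N - t) ≤ 1 / (1 - η - s) := by
  have h0 : 0 < N - t := by linarith
  refine ⟨h0, ?_⟩
  rw [div_le_div_iff₀ h0 (by linarith)]
  have h1 : N * (1 - η - s) ≤ N - s := by nlinarith
  linarith

/-- the sum of a piecewise constant weight -/
private theorem h_sum (A B δ η : ℝ) :
    ∑ i ∈ range 200, (if i < 100 then A else B) * ((200 - (i : ℝ)) * δ + 2 * η) =
      A * (15050 * δ + 200 * η) + B * (5050 * δ + 200 * η) := by
  rw [show 200 = 100 + 100 from rfl, Finset.sum_range_add]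
  have h1 : ∑ i ∈ range 100, (if i < 100 then A else B) * ((((100 + 100 : ℕ) : ℝ) - (i : ℝ)) * δ + 2 * η) =
      ∑ i ∈ range 100, A * ((200 - (i : ℝ)) * δ + 2 * η) := by
    refine Finset.sum_congr rfl fun i hi => ?_
    rw [if_pos (Finset.mem_range.mp hi)]
    norm_num
  have h2 : ∑ i ∈ range 100, (if 100 + i < 100 then A else B) *
      ((((100 + 100 : ℕ) : ℝ) - ((100 + i : ℕ) : ℝ)) * δ + 2 * η) =
      ∑ i ∈ range 100, B * ((100 - (i : ℝ)) * δ + 2 * η) := by
    refine Finset.sum_congr rfl fun i hi => ?_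
    rw [if_neg (by omega)]
    push_cast
    ring
  have h3 : ∀ c : ℝ, ∑ i ∈ range 100, ((c - (i : ℝ)) * δ + 2 * η) =
      (100 * c - 4950) * δ + 200 * η := by
    intro c
    rw [Finset.sum_add_distrib, ← Finset.sum_mul, Finset.sum_sub_distrib, gauss_real]
    simp only [Finset.sum_const, Finset.card_range, nsmul_eq_mul]
    norm_num
    ring
  norm_num at h1 h2 ⊢
  rw [h1, h2, ← Finset.mul_sum, ← Finset.mul_sum, h3, h3]
  ring

/-- the facts about an element of `KH` -/
private theorem h_rep (θ ε η : ℝ) (X n : ℕ) (hη : 0 < η) (hL : 0 < Real.log (X : ℝ))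
    (hn5 : 0 < n) (hn3 : (1 - η) * Real.log X ≤ Real.log n) (hn4 : Real.log n ≤ Real.log X)
    (k p q : ℕ) (hkX : k ≤ X) (hp : p.Prime) (hq : q.Prime) (hqp : q < p) (hkpq : k = p * q)
    (hqL : θ * Real.log X ≤ Real.log q) (hk2 : Real.log k ≤ (1 / 2 + ε) * Real.log X) :
    p ≤ X ∧ q ≤ X ∧ ∃ a b N : ℝ, a * Real.log X = Real.log q ∧ b * Real.log X = Real.log p ∧
      a < b ∧ θ ≤ a ∧ a + b ≤ 1 / 2 + ε ∧ 1 - η ≤ N ∧ N ≤ 1 ∧
      Real.log n / (k * Real.log ((n : ℝ) / k)) = N / (N - (a + b)) / ((q : ℝ) * p) := by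
  set L := Real.log (X : ℝ) with hLd
  have hp0 : (0 : ℝ) < p := by exact_mod_cast hp.pos
  have hq0 : (0 : ℝ) < q := by exact_mod_cast hq.pos
  have hk1 : 0 < k := by rw [hkpq]; exact Nat.mul_pos hp.pos hq.pos
  have hk0 : (0 : ℝ) < k := by exact_mod_cast hk1
  have hn0 : (0 : ℝ) < n := by exact_mod_cast hn5
  have hlk : Real.log k = Real.log p + Real.log q := by
    rw [hkpq]
    push_cast
    rw [Real.log_mul hp0.ne' hq0.ne']
  have hlc : Real.log ((n : ℝ) / k) = Real.log n - Real.log p - Real.log q := by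
    rw [Real.log_div hn0.ne' hk0.ne', hlk]
    ring
  have hlqp : Real.log q < Real.log p := Real.log_lt_log hq0 (by exact_mod_cast hqp)
  have hpX : p ≤ X := by
    refine le_trans ?_ hkX
    rw [hkpq]
    exact Nat.le_mul_of_pos_right p hq.pos
  have hqX : q ≤ X := hqp.le.trans hpX
  have haL : Real.log q / L * L = Real.log q := div_mul_cancel₀ _ hL.ne'
  have hbL : Real.log p / L * L = Real.log p := div_mul_cancel₀ _ hL.ne'
  have hNL : Real.log n / L * L = Real.log n := div_mul_cancel₀ _ hL.ne'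
  refine ⟨hpX, hqX, Real.log q / L, Real.log p / L, Real.log n / L, haL, hbL, ?_, ?_, ?_, ?_, ?_, ?_⟩
  · exact div_lt_div_of_pos_right hlqp hL
  · rw [le_div_iff₀ hL]
    exact hqL
  · rw [← add_div, div_le_iff₀ hL]
    linarith
  · rw [le_div_iff₀ hL]
    exact hn3
  · rw [div_le_one hL]
    exact hn4
  · have hck : Real.log ((n : ℝ) / k) =
        (Real.log n / L - (Real.log q / L + Real.log p / L)) * L := by
      rw [hlc, sub_mul, add_mul, hNL, haL, hbL]
      ring
    rw [hck, hkpq]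
    nth_rewrite 1 [← hNL]
    push_cast
    field_simp

/-- first kind, `u` in the lower half -/
private theorem h_poly1 (u : ℝ) (h1 : 1 / 5 ≤ u) (h2 : u ≤ 2501 / 10000) :
    (2198 : ℝ) / 100000 ≤ u * u * (7497 / 10000 - u) := by
  have e3 : u = 1 / 5 + (u - 1 / 5) := by ring
  set t := u - 1 / 5 with ht
  have ht0 : 0 ≤ t := by rw [ht]; linarith
  have ht1 : t ≤ 501 / 10000 := by rw [ht]; linarith
  rw [e3]
  nlinarith [mul_nonneg ht0 ht0, mul_nonneg (mul_nonneg ht0 ht0) (sub_nonneg.mpr ht1)]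

/-- first kind, `u` in the upper half -/
private theorem h_poly2 (u : ℝ) (h1 : 224 / 1000 ≤ u) (h2 : u ≤ 2501 / 10000) :
    (2637 : ℝ) / 100000 ≤ u * u * (7497 / 10000 - u) := by
  have e3 : u = 224 / 1000 + (u - 224 / 1000) := by ring
  set t := u - 224 / 1000 with ht
  have ht0 : 0 ≤ t := by rw [ht]; linarith
  have ht1 : t ≤ 301 / 10000 := by rw [ht]; linarith
  rw [e3]
  nlinarith [mul_nonneg ht0 ht0, mul_nonneg (mul_nonneg ht0 ht0) (sub_nonneg.mpr ht1)]

/-- the constants of the first kind -/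
private theorem h_pr1 (i : ℕ) (u d : ℝ) (h1 : 1 / 5 ≤ u) (h2 : u ≤ 2501 / 10000)
    (h3 : ¬ i < 100 → 224 / 1000 ≤ u) (hd : 7497 / 10000 - u ≤ d) :
    1 ≤ (if i < 100 then (4550 : ℝ) / 100 else 380 / 10) * (u * u * d) := by
  have hsq : 0 ≤ u * u := mul_self_nonneg u
  have hcm := mul_le_mul_of_nonneg_left hd hsq
  split_ifs with h4
  · have h5 := h_poly1 u h1 h2
    linarith
  · have h5 := h_poly2 u (h3 h4) h2
    linarith

/-- the constants of the second kind -/
private theorem h_pr2 (i : ℕ) (u m d : ℝ) (h1 : 1 / 5 ≤ u)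
    (h3 : ¬ i < 100 → 224 / 1000 ≤ u) (hm : 1 / 4 ≤ m) (hd : 49998 / 100000 ≤ d) :
    1 ≤ (if i < 100 then (4005 : ℝ) / 100 else 358 / 10) * (u * m * d) := by
  have hmc : (1 : ℝ) / 4 * (49998 / 100000) ≤ m * d :=
    mul_le_mul hm hd (by norm_num) (by linarith)
  split_ifs with h4
  · have h5 : (1 : ℝ) / 5 * (1 / 4 * (49998 / 100000)) ≤ u * (m * d) :=
      mul_le_mul h1 hmc (by norm_num) (by linarith)
    rw [mul_assoc u m d]
    linarith
  · have h6 := h3 h4
    have h5 : (224 : ℝ) / 1000 * (1 / 4 * (49998 / 100000)) ≤ u * (m * d) :=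
      mul_le_mul h6 hmc (by norm_num) (by linarith)
    rw [mul_assoc u m d]
    linarith

/-- `(c/u + η) u ≤ c + η` -/
private theorem h_lin (c η u : ℝ) (hη : 0 < η) (hu : 0 < u) (hu1 : u ≤ 1) :
    c / u + η ≤ (c + η) / u := by
  rw [le_div_iff₀ hu, add_mul, div_mul_cancel₀ _ hu.ne']
  have := mul_le_mul_of_nonneg_left hu1 hη.le
  linarith

/-- the total -/
private theorem h_tot (θ δ η : ℝ) (hδ0 : 0 < δ) (hη0 : 0 < η) (hηδ : η ≤ δ / 300000)
    (hy : δ ≤ 62515 / 100000000 * (1 - 3 * θ)) :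
    (δ + η) * (4550 / 100 * (15050 * δ + 200 * η) + 380 / 10 * (5050 * δ + 200 * η)) +
      (δ + η) * (4005 / 100 * (15050 * δ + 200 * η) + 358 / 10 * (5050 * δ + 200 * η)) ≤
      65 / 100 * (1 - 3 * θ) ^ 2 := by
  have hy0 : 0 < 1 - 3 * θ := by
    by_contra hcon
    have := not_lt.mp hcon
    linarith
  have e1 : (δ + η) * (4550 / 100 * (15050 * δ + 200 * η) + 380 / 10 * (5050 * δ + 200 * η)) +
      (δ + η) * (4005 / 100 * (15050 * δ + 200 * η) + 358 / 10 * (5050 * δ + 200 * η)) ≤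
      (δ * (300001 / 300000)) * (1660218 * δ) := by
    have e2 : (δ + η) * (4550 / 100 * (15050 * δ + 200 * η) + 380 / 10 * (5050 * δ + 200 * η)) +
      (δ + η) * (4005 / 100 * (15050 * δ + 200 * η) + 358 / 10 * (5050 * δ + 200 * η)) =
      (δ + η) * (8555 / 100 * (15050 * δ + 200 * η) + 738 / 10 * (5050 * δ + 200 * η)) := by ring
    rw [e2]
    refine mul_le_mul (by linarith) (by linarith) (by positivity) (by positivity)
  refine e1.trans ?_
  have e3 : δ * δ ≤ (62515 / 100000000 * (1 - 3 * θ)) * (62515 / 100000000 * (1 - 3 * θ)) :=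
    mul_le_mul hy hy hδ0.le (by positivity)
  have e4 : 0 ≤ (1 - 3 * θ) ^ 2 := sq_nonneg _
  have e5 : (62515 / 100000000 * (1 - 3 * θ)) * (62515 / 100000000 * (1 - 3 * θ)) =
      (62515 / 100000000) ^ 2 * (1 - 3 * θ) ^ 2 := by ring
  rw [e5] at e3
  have e6 : (δ * (300001 / 300000)) * (1660218 * δ) = (300001 / 300000 * 1660218) * (δ * δ) := by
    ring
  rw [e6]
  have e7 : (300001 / 300000 * 1660218 : ℝ) * (δ * δ) ≤
      (300001 / 300000 * 1660218) * ((62515 / 100000000) ^ 2 * (1 - 3 * θ) ^ 2) :=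
    mul_le_mul_of_nonneg_left e3 (by norm_num)
  refine e7.trans ?_
  rw [← mul_assoc]
  exact mul_le_mul_of_nonneg_right (by norm_num) e4

theorem H_sum (θ : ℝ) (h1 : 1 / 5 ≤ θ) (h2 : θ ≤ 1 / 4) : ∃ ε0 : ℝ, 0 < ε0 ∧ ∀ ε : ℝ, 0 < ε →
    ε ≤ ε0 → ∃ X0 : ℕ, ∀ X : ℕ, X0 ≤ X → ∀ n : ℕ, X5 X < n → n ≤ X →
      ∑ k ∈ KH X θ ε, Real.log n / (k * Real.log ((n : ℝ) / k)) ≤
        65 / 100 * (1 - 3 * θ) ^ 2 := by
  classical
  refine ⟨1 / 100000, by norm_num, fun ε hε hε1 => ?_⟩
  set m : ℝ := 1 / 4 + ε / 2 with hm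
  set δ : ℝ := (m - θ) / 200 with hδ
  have hmθ : 0 < m - θ := by rw [hm]; linarith
  have hδ0 : 0 < δ := by rw [hδ]; positivity
  have hδ1 : δ ≤ 1 / 3990 := by rw [hδ, hm]; linarith
  have hδm : 200 * δ = m - θ := by rw [hδ]; ring
  set η : ℝ := δ ^ 2 / 100 with hη
  have hη0 : 0 < η := by rw [hη]; positivity
  have hηδ : η ≤ δ / 300000 := by rw [hη]; nlinarith
  obtain ⟨X1, hX1⟩ := mp η hη0
  obtain ⟨X2, hX2⟩ := logn_ge η hη0
  refine ⟨X1 + X2 + 2, fun X hX n hn1 hn2 => ?_⟩
  obtain ⟨hn3, hn4, hXr, hn5⟩ := hX2 X (by omega) n hn1 hn2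
  have hmp := hX1 X (by omega)
  have hX1' : 1 < X := by omega
  have hL : 0 < Real.log X := Real.log_pos hXr
  have hfacts := h_rep θ ε η X n hη0 hL hn5 hn3 hn4
  set L := Real.log (X : ℝ) with hLd
  set u : ℕ → ℝ := fun i => θ + i * δ with hu
  have hus : ∀ i, u (i + 1) = u i + δ := by
    intro i
    rw [hu]
    simp only
    push_cast
    ring
  have hu0 : ∀ i, θ ≤ u i := by
    intro i
    rw [hu]
    simp only
    have : 0 ≤ (i : ℝ) * δ := by positivity
    linarith
  have hu1 : ∀ i, i < 200 → u (i + 1) ≤ m := by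
    intro i hi'
    rw [hu]
    simp only
    have h3 : ((i + 1 : ℕ) : ℝ) ≤ 200 := by exact_mod_cast hi'
    have h4 : ((i + 1 : ℕ) : ℝ) * δ ≤ 200 * δ := mul_le_mul_of_nonneg_right h3 hδ0.le
    linarith
  have hui : ∀ i, m - u i = (200 - (i : ℝ)) * δ := by
    intro i
    rw [hu]
    simp only
    linarith
  have hm14 : m ≤ 250005 / 1000000 := by rw [hm]; linarith
  have hm1 : 1 / 4 < m := by rw [hm]; linarith
  have hu224 : ∀ i : ℕ, ¬ i < 100 → 224 / 1000 ≤ u i := by
    intro i h3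
    have e3 : u i = θ + i * δ := rfl
    have e4 : (100 : ℝ) ≤ i := by exact_mod_cast not_lt.mp h3
    have e5 : 100 * δ ≤ (i : ℝ) * δ := mul_le_mul_of_nonneg_right e4 hδ0.le
    rw [e3]
    have e6 : 100 * δ = (m - θ) / 2 := by linarith
    linarith
  -- the slice of `a`
  have hslice : ∀ a : ℝ, θ ≤ a → a < m → ∃ i < 200, u i ≤ a ∧ a < u (i + 1) := by
    intro a ha1 ha2
    set z : ℝ := (a - θ) / δ with hz
    have hz0 : 0 ≤ z := div_nonneg (by linarith) hδ0.le
    have hz4 : z < 200 := by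
      rw [hz, div_lt_iff₀ hδ0]
      linarith
    refine ⟨⌊z⌋₊, ?_, ?_, ?_⟩
    · have h3 : ((⌊z⌋₊ : ℕ) : ℝ) < 200 := lt_of_le_of_lt (Nat.floor_le hz0) hz4
      exact_mod_cast h3
    · have h3 : ((⌊z⌋₊ : ℕ) : ℝ) ≤ z := Nat.floor_le hz0
      rw [hz, le_div_iff₀ hδ0] at h3
      rw [hu]
      simp only
      linarith
    · have h3 : z < ((⌊z⌋₊ : ℕ) : ℝ) + 1 := Nat.lt_floor_add_one z
      rw [hz, div_lt_iff₀ hδ0] at h3
      rw [hu]
      simp only
      push_cast
      linarith
  -- the two kinds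
  set P : ℕ → Prop := fun k => ∃ p q : ℕ, p.Prime ∧ q.Prime ∧ q < p ∧ k = p * q ∧
    θ * L ≤ Real.log q ∧ Real.log k ≤ (1 / 2 + ε) * L ∧ Real.log p < m * L with hP
  set f : ℕ → ℝ := fun k => Real.log n / (k * Real.log ((n : ℝ) / k)) with hf
  have hsp : ∑ k ∈ KH X θ ε, f k = ∑ k ∈ (KH X θ ε).filter P, f k +
      ∑ k ∈ (KH X θ ε).filter (fun k => ¬ P k), f k :=
    (Finset.sum_filter_add_sum_filter_not _ _ _).symm
  -- Mertens on the slice of `q`
  have hq1 : ∀ i < 200, ∑ p ∈ PS X (u i) (u (i + 1)), 1 / (p : ℝ) ≤ (δ + η) / u i := by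
    intro i hi'
    have hui' := hu1 i hi'
    have hui0 := hu0 i
    have hs := hus i
    have hui00 : 0 < u i := by linarith
    have m1 := hmp (u i) (u (i + 1)) (by linarith) (by linarith)
    rw [hs, show u i + δ - u i = δ by ring, max_eq_right hδ0.le] at m1
    rw [hs]
    exact m1.trans (h_lin δ η (u i) hη0 hui00 (by linarith))
  -- first kind
  have hA : ∑ k ∈ (KH X θ ε).filter P, f k ≤
      (δ + η) * (4550 / 100 * (15050 * δ + 200 * η) + 380 / 10 * (5050 * δ + 200 * η)) := by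
    set S : ℕ → Finset (ℕ × ℕ) := fun i => (PS X (u i) (u (i + 1))) ×ˢ (PS X (u i) m) with hS
    set W : ℕ → ℝ := fun i => if i < 200 then 1 / (1 - η - (u (i + 1) + m)) else 0 with hW
    have hden : ∀ i, i < 200 → 499 / 1000 < 1 - η - (u (i + 1) + m) := by
      intro i hi'
      have := hu1 i hi'
      linarith
    have hW0 : ∀ i, 0 ≤ W i := by
      intro i
      rw [hW]
      simp only
      split_ifs with h3
      · have := hden i h3
        exact div_nonneg (by norm_num) (by linarith)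
      · exact le_rfl
    have hcov : ∀ k ∈ (KH X θ ε).filter P, ∃ i ∈ range 200, ∃ t ∈ S i, k = t.1 * t.2 ∧
        f k ≤ W i / ((t.1 : ℝ) * t.2) := by
      intro k hk
      rw [Finset.mem_filter] at hk
      obtain ⟨hk0, p, q, hp, hq, hqp, hkpq, hqL, hk2, hpm⟩ := hk
      unfold KH at hk0
      rw [Finset.mem_filter, Finset.mem_Icc] at hk0
      obtain ⟨hpX, hqX, a, b, N, haL, hbL, hab, hθa, hab2, hN1, hN2, hval⟩ :=
        hfacts k p q hk0.1.2 hp hq hqp hkpq hqL hk2
      have ham : a < m := by rw [hm]; linarith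
      have hbm : b < m := by
        rw [← hbL] at hpm
        exact lt_of_mul_lt_mul_right hpm hL.le
      obtain ⟨i, hi, hia, hib⟩ := hslice a hθa ham
      refine ⟨i, Finset.mem_range.mpr hi, (q, p), ?_, by rw [hkpq, mul_comm], ?_⟩
      · rw [hS]
        refine Finset.mem_product.mpr ⟨?_, ?_⟩
        · refine mem_PS hX1' hq hqX ?_ ?_
          · rw [← hLd, ← haL]
            exact mul_le_mul_of_nonneg_right hia hL.le
          · rw [← hLd, ← haL]
            exact mul_lt_mul_of_pos_right hib hL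
        · refine mem_PS hX1' hp hpX ?_ ?_
          · rw [← hLd, ← hbL]
            exact mul_le_mul_of_nonneg_right (by linarith) hL.le
          · exact hpm
      · have hW' : W i = 1 / (1 - η - (u (i + 1) + m)) := by
          rw [hW]
          simp only
          rw [if_pos hi]
        have hd := hden i hi
        show Real.log n / (k * Real.log ((n : ℝ) / k)) ≤ _
        rw [hval, hW']
        refine div_le_div_of_nonneg_right ?_ (by positivity)
        exact (h_wt N η (u (i + 1) + m) (a + b) hη0 hN1 hN2 (by linarith) (by linarith)).2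
    have hsl : ∀ i ∈ range 200, W i * ∑ t ∈ S i, 1 / ((t.1 : ℝ) * t.2) ≤
        (δ + η) * ((if i < 100 then 4550 / 100 else 380 / 10) * ((200 - (i : ℝ)) * δ + 2 * η)) := by
      intro i hi'
      have hi4 := Finset.mem_range.mp hi'
      have hW' : W i = 1 / (1 - η - (u (i + 1) + m)) := by
        rw [hW]
        simp only
        rw [if_pos hi4]
      have hd := hden i hi4
      have hui' := hu1 i hi4
      have hui0 := hu0 i
      have hs := hus i
      have hui00 : 0 < u i := by linarith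
      have e1 : ∑ t ∈ S i, 1 / ((t.1 : ℝ) * t.2) = (∑ p ∈ PS X (u i) (u (i + 1)), 1 / (p : ℝ)) *
          (∑ q ∈ PS X (u i) m, 1 / (q : ℝ)) := by
        rw [hS]
        simp only
        rw [Finset.sum_product, Finset.sum_mul_sum]
        refine Finset.sum_congr rfl fun p _ => Finset.sum_congr rfl fun q _ => ?_
        rw [one_div_mul_one_div]
      rw [e1]
      have m2 := hmp (u i) m (by linarith) (by linarith)
      have hl0 : 0 ≤ (200 - (i : ℝ)) * δ := by rw [← hui]; linarith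
      rw [hui, max_eq_right hl0] at m2
      have m2' : ∑ q ∈ PS X (u i) m, 1 / (q : ℝ) ≤ ((200 - (i : ℝ)) * δ + 2 * η) / u i := by
        refine (m2.trans (h_lin ((200 - (i : ℝ)) * δ) η (u i) hη0 hui00 (by linarith))).trans ?_
        exact div_le_div_of_nonneg_right (by linarith) hui00.le
      have m1' := hq1 i hi4
      have n1 : 0 ≤ ∑ q ∈ PS X (u i) m, 1 / (q : ℝ) := Finset.sum_nonneg fun q _ => by positivity
      have hpr : 1 ≤ (if i < 100 then (4550 : ℝ) / 100 else 380 / 10) *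
          (u i * u i * (1 - η - (u (i + 1) + m))) := by
        have hui2 : u i ≤ 2501 / 10000 := by
          have : u i ≤ u (i + 1) := by rw [hs]; linarith
          linarith
        exact h_pr1 i (u i) _ (by linarith) hui2 (hu224 i) (by rw [hs]; linarith)
      have hD : 0 < u i * u i * (1 - η - (u (i + 1) + m)) := by
        have : 0 < 1 - η - (u (i + 1) + m) := by linarith
        positivity
      have hnum : 0 ≤ (δ + η) * ((200 - (i : ℝ)) * δ + 2 * η) := by positivity
      calc W i * ((∑ p ∈ PS X (u i) (u (i + 1)), 1 / (p : ℝ)) *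
            (∑ q ∈ PS X (u i) m, 1 / (q : ℝ)))
          ≤ W i * ((δ + η) / u i * (((200 - (i : ℝ)) * δ + 2 * η) / u i)) := by
            refine mul_le_mul_of_nonneg_left ?_ (hW0 i)
            exact mul_le_mul m1' m2' n1 (by positivity)
        _ = (δ + η) * ((200 - (i : ℝ)) * δ + 2 * η) / (u i * u i * (1 - η - (u (i + 1) + m))) := by
            rw [hW']
            field_simp
        _ ≤ (δ + η) * ((if i < 100 then 4550 / 100 else 380 / 10) *
            ((200 - (i : ℝ)) * δ + 2 * η)) := by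
            rw [div_le_iff₀ hD]
            calc (δ + η) * ((200 - (i : ℝ)) * δ + 2 * η)
                = (δ + η) * ((200 - (i : ℝ)) * δ + 2 * η) * 1 := (mul_one _).symm
              _ ≤ (δ + η) * ((200 - (i : ℝ)) * δ + 2 * η) *
                  ((if i < 100 then (4550 : ℝ) / 100 else 380 / 10) *
                    (u i * u i * (1 - η - (u (i + 1) + m)))) :=
                  mul_le_mul_of_nonneg_left hpr hnum
              _ = _ := by ring
    refine (slice_sum _ _ 200 S W hW0 hcov).trans ((Finset.sum_le_sum hsl).trans (le_of_eq ?_))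
    rw [← Finset.mul_sum, h_sum]
  -- second kind
  have hB : ∑ k ∈ (KH X θ ε).filter (fun k => ¬ P k), f k ≤
      (δ + η) * (4005 / 100 * (15050 * δ + 200 * η) + 358 / 10 * (5050 * δ + 200 * η)) := by
    set S : ℕ → Finset (ℕ × ℕ) := fun i =>
      (PS X (u i) (u (i + 1))) ×ˢ (PS X m (2 * m - u i + η)) with hS
    set W : ℕ → ℝ := fun _ => 1 / (1 - η - (1 / 2 + ε)) with hW
    have hden : 49998 / 100000 < 1 - η - (1 / 2 + ε) := by linarith
    have hW0 : ∀ i, 0 ≤ W i := by
      intro i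
      rw [hW]
      exact div_nonneg (by norm_num) (by linarith)
    have hcov : ∀ k ∈ (KH X θ ε).filter (fun k => ¬ P k), ∃ i ∈ range 200, ∃ t ∈ S i,
        k = t.1 * t.2 ∧ f k ≤ W i / ((t.1 : ℝ) * t.2) := by
      intro k hk
      rw [Finset.mem_filter] at hk
      obtain ⟨hk0, hnP⟩ := hk
      unfold KH at hk0
      rw [Finset.mem_filter, Finset.mem_Icc] at hk0
      obtain ⟨hk1, p, q, hp, hq, hqp, hkpq, hqL, hk2⟩ := hk0
      rw [← hLd] at hqL hk2
      have hpm : m * L ≤ Real.log p := by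
        by_contra hcon
        exact hnP ⟨p, q, hp, hq, hqp, hkpq, hqL, hk2, not_le.mp hcon⟩
      obtain ⟨hpX, hqX, a, b, N, haL, hbL, hab, hθa, hab2, hN1, hN2, hval⟩ :=
        hfacts k p q hk1.2 hp hq hqp hkpq hqL hk2
      have ham : a < m := by rw [hm]; linarith
      have hbm : m ≤ b := by
        rw [← hbL] at hpm
        exact le_of_mul_le_mul_right hpm hL
      obtain ⟨i, hi, hia, hib⟩ := hslice a hθa ham
      refine ⟨i, Finset.mem_range.mpr hi, (q, p), ?_, by rw [hkpq, mul_comm], ?_⟩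
      · rw [hS]
        refine Finset.mem_product.mpr ⟨?_, ?_⟩
        · refine mem_PS hX1' hq hqX ?_ ?_
          · rw [← hLd, ← haL]
            exact mul_le_mul_of_nonneg_right hia hL.le
          · rw [← hLd, ← haL]
            exact mul_lt_mul_of_pos_right hib hL
        · refine mem_PS hX1' hp hpX hpm ?_
          rw [← hLd, ← hbL]
          refine mul_lt_mul_of_pos_right ?_ hL
          have : 2 * m = 1 / 2 + ε := by rw [hm]; ring
          linarith
      · show Real.log n / (k * Real.log ((n : ℝ) / k)) ≤ _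
        rw [hval]
        refine div_le_div_of_nonneg_right ?_ (by positivity)
        exact (h_wt N η (1 / 2 + ε) (a + b) hη0 hN1 hN2 (by linarith) hab2).2
    have hsl : ∀ i ∈ range 200, W i * ∑ t ∈ S i, 1 / ((t.1 : ℝ) * t.2) ≤
        (δ + η) * ((if i < 100 then 4005 / 100 else 358 / 10) * ((200 - (i : ℝ)) * δ + 2 * η)) := by
      intro i hi'
      have hi4 := Finset.mem_range.mp hi'
      have hui' := hu1 i hi4
      have hui0 := hu0 i
      have hs := hus i
      have hui00 : 0 < u i := by linarith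
      have hm0 : 0 < m := by linarith
      have e1 : ∑ t ∈ S i, 1 / ((t.1 : ℝ) * t.2) = (∑ p ∈ PS X (u i) (u (i + 1)), 1 / (p : ℝ)) *
          (∑ q ∈ PS X m (2 * m - u i + η), 1 / (q : ℝ)) := by
        rw [hS]
        simp only
        rw [Finset.sum_product, Finset.sum_mul_sum]
        refine Finset.sum_congr rfl fun p _ => Finset.sum_congr rfl fun q _ => ?_
        rw [one_div_mul_one_div]
      rw [e1]
      have m2 := hmp m (2 * m - u i + η) (by linarith) (by linarith)
      have hl0 : 0 ≤ (200 - (i : ℝ)) * δ := by rw [← hui]; linarith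
      have e2 : 2 * m - u i + η - m = (200 - (i : ℝ)) * δ + η := by
        have := hui i
        linarith
      rw [e2, max_eq_right (by linarith)] at m2
      have m2' : ∑ q ∈ PS X m (2 * m - u i + η), 1 / (q : ℝ) ≤
          ((200 - (i : ℝ)) * δ + 2 * η) / m := by
        refine (m2.trans (h_lin ((200 - (i : ℝ)) * δ + η) η m hη0 hm0 (by linarith))).trans ?_
        exact div_le_div_of_nonneg_right (by linarith) hm0.le
      have m1' := hq1 i hi4
      have n1 : 0 ≤ ∑ q ∈ PS X m (2 * m - u i + η), 1 / (q : ℝ) :=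
        Finset.sum_nonneg fun q _ => by positivity
      have hpr : 1 ≤ (if i < 100 then (4005 : ℝ) / 100 else 358 / 10) *
          (u i * m * (1 - η - (1 / 2 + ε))) := by
        exact h_pr2 i (u i) m _ (by linarith) (hu224 i) hm1.le hden.le
      have hD : 0 < u i * m * (1 - η - (1 / 2 + ε)) := by
        have : 0 < 1 - η - (1 / 2 + ε) := by linarith
        positivity
      have hnum : 0 ≤ (δ + η) * ((200 - (i : ℝ)) * δ + 2 * η) := by positivity
      calc W i * ((∑ p ∈ PS X (u i) (u (i + 1)), 1 / (p : ℝ)) *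
            (∑ q ∈ PS X m (2 * m - u i + η), 1 / (q : ℝ)))
          ≤ W i * ((δ + η) / u i * (((200 - (i : ℝ)) * δ + 2 * η) / m)) := by
            refine mul_le_mul_of_nonneg_left ?_ (hW0 i)
            exact mul_le_mul m1' m2' n1 (by positivity)
        _ = (δ + η) * ((200 - (i : ℝ)) * δ + 2 * η) / (u i * m * (1 - η - (1 / 2 + ε))) := by
            rw [hW]
            simp only
            field_simp
        _ ≤ (δ + η) * ((if i < 100 then 4005 / 100 else 358 / 10) *
            ((200 - (i : ℝ)) * δ + 2 * η)) := by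
            rw [div_le_iff₀ hD]
            calc (δ + η) * ((200 - (i : ℝ)) * δ + 2 * η)
                = (δ + η) * ((200 - (i : ℝ)) * δ + 2 * η) * 1 := (mul_one _).symm
              _ ≤ (δ + η) * ((200 - (i : ℝ)) * δ + 2 * η) *
                  ((if i < 100 then (4005 : ℝ) / 100 else 358 / 10) *
                    (u i * m * (1 - η - (1 / 2 + ε)))) :=
                  mul_le_mul_of_nonneg_left hpr hnum
              _ = _ := by ring
    refine (slice_sum _ _ 200 S W hW0 hcov).trans ((Finset.sum_le_sum hsl).trans (le_of_eq ?_))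
    rw [← Finset.mul_sum, h_sum]
  show ∑ k ∈ KH X θ ε, f k ≤ _
  rw [hsp]
  refine (add_le_add hA hB).trans ?_
  have hy : δ ≤ 62515 / 100000000 * (1 - 3 * θ) := by
    rw [hδ, hm]
    linarith
  exact h_tot θ δ η hδ0 hη0 hηδ hy

end Pool.MP_dd84fd_nt.LX
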