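import Pool.Agent.Lib.MP_dd84fd_nt.LX.NDefs

/-!
# Theorem L, numerics: four primes (helper88)

With `s = 1 - 4θ`: the sum of `log n / (k log (n/k))` over `KQ X n θ` is at most `3.84 s³`. Slices `u i = θ + i s/800`, `i < 200`, for
the exponent of the smallest prime; `M i = (1 - u i)/3`.
-/

set_option autoImplicit false

namespace Pool.MP_dd84fd_nt.LX

open Finset Pool.MP_dd84fd_nt.IY Pool.MP_dd84fd_nt.KX

/-- sum over slices, general form -/
theorem slice_gen {α : Type*} [DecidableEq α] (K : Finset ℕ) (f : ℕ → ℝ) (N : ℕ)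
    (S : ℕ → Finset α) (W : ℕ → ℝ) (g : α → ℝ) (φ : α → ℕ)
    (hW : ∀ i, 0 ≤ W i) (hg : ∀ t, 0 ≤ g t)
    (h : ∀ k ∈ K, ∃ i ∈ range N, ∃ t ∈ S i, k = φ t ∧ f k ≤ W i * g t) :
    ∑ k ∈ K, f k ≤ ∑ i ∈ range N, W i * ∑ t ∈ S i, g t := by
  classical
  have h0 : ∀ k : K, ∃ x : (_ : ℕ) × α, x.1 ∈ range N ∧ x.2 ∈ S x.1 ∧ (k : ℕ) = φ x.2 ∧
      f k ≤ W x.1 * g x.2 := by
    intro k
    obtain ⟨i, hi, t, ht, h1, h2⟩ := h k k.2
    exact ⟨⟨i, t⟩, hi, ht, h1, h2⟩
  choose X h1 h2 h3 h4 using h0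
  have e1 : ∑ k ∈ K, f k = ∑ k : K, f k := (Finset.sum_coe_sort K f).symm
  have e2 : ∑ k : K, f k ≤ ∑ k : K, W (X k).1 * g (X k).2 :=
    Finset.sum_le_sum fun k _ => h4 k
  have e3 : ∑ k : K, W (X k).1 * g (X k).2 =
      ∑ x ∈ (Finset.univ : Finset K).image X, W x.1 * g x.2 := by
    rw [Finset.sum_image]
    intro a _ b _ hab
    have : (a : ℕ) = b := by rw [h3 a, h3 b, hab]
    exact Subtype.ext this
  have e4 : ∑ i ∈ range N, W i * ∑ t ∈ S i, g t = ∑ x ∈ (range N).sigma S, W x.1 * g x.2 := by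
    rw [Finset.sum_sigma]
    refine Finset.sum_congr rfl fun i _ => ?_
    rw [Finset.mul_sum]
  rw [e1, e4]
  refine e2.trans (e3.le.trans ?_)
  refine Finset.sum_le_sum_of_subset_of_nonneg ?_ fun x _ _ => mul_nonneg (hW _) (hg _)
  intro x hx
  obtain ⟨k, _, rfl⟩ := Finset.mem_image.mp hx
  exact Finset.mem_sigma.mpr ⟨h1 k, h2 k⟩

/-- half of a square -/
theorem half_sq (S : Finset ℕ) (f : ℕ → ℝ) (hf : ∀ p, 0 ≤ f p) :
    ∑ t ∈ (S ×ˢ S).filter (fun t : ℕ × ℕ => t.1 < t.2), f t.1 * f t.2 ≤ (∑ p ∈ S, f p) ^ 2 / 2 := by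
  classical
  have e1 : (∑ p ∈ S, f p) ^ 2 = ∑ t ∈ S ×ˢ S, f t.1 * f t.2 := by
    rw [pow_two, Finset.sum_mul_sum, ← Finset.sum_product']
  have e2 : ∑ t ∈ (S ×ˢ S).filter (fun t : ℕ × ℕ => t.1 < t.2), f t.1 * f t.2 =
      ∑ t ∈ (S ×ˢ S).filter (fun t : ℕ × ℕ => t.2 < t.1), f t.1 * f t.2 := by
    refine Finset.sum_nbij' (fun t => (t.2, t.1)) (fun t => (t.2, t.1)) ?_ ?_ ?_ ?_ ?_
    · intro t ht
      rw [Finset.mem_filter, Finset.mem_product] at ht ⊢
      exact ⟨⟨ht.1.2, ht.1.1⟩, ht.2⟩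
    · intro t ht
      rw [Finset.mem_filter, Finset.mem_product] at ht ⊢
      exact ⟨⟨ht.1.2, ht.1.1⟩, ht.2⟩
    · intro t _
      rfl
    · intro t _
      rfl
    · intro t _
      simp only
      ring
  have e3 : ∑ t ∈ (S ×ˢ S).filter (fun t : ℕ × ℕ => t.1 < t.2), f t.1 * f t.2 +
      ∑ t ∈ (S ×ˢ S).filter (fun t : ℕ × ℕ => t.2 < t.1), f t.1 * f t.2 ≤
      ∑ t ∈ S ×ˢ S, f t.1 * f t.2 := by
    rw [← Finset.sum_union]
    · refine Finset.sum_le_sum_of_subset_of_nonneg ?_ fun t _ _ => mul_nonneg (hf _) (hf _)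
      exact Finset.union_subset (Finset.filter_subset _ _) (Finset.filter_subset _ _)
    · rw [Finset.disjoint_filter]
      intro t _ h1 h2
      omega
  linarith

theorem sq_sum_real (n : ℕ) : ∑ i ∈ range n, (i : ℝ) ^ 2 = (n - 1) * n * (2 * n - 1) / 6 := by
  induction n with
  | zero => simp
  | succ n ih =>
    rw [Finset.sum_range_succ, ih]
    push_cast
    ring

theorem sq_sum200 : ∑ i ∈ range 200, (200 - (i : ℝ)) ^ 2 = 2686700 := by
  have h : ∀ i ∈ range 200, (200 - (i : ℝ)) ^ 2 = 40000 - 400 * (i : ℝ) + (i : ℝ) ^ 2 := by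
    intro i _
    ring
  rw [Finset.sum_congr rfl h, Finset.sum_add_distrib, Finset.sum_sub_distrib, sq_sum_real,
    ← Finset.mul_sum, gauss_real]
  simp only [Finset.sum_const, Finset.card_range, nsmul_eq_mul]
  norm_num

/-- the coefficient -/
theorem cQ (u d : ℝ) (h1 : 1 / 5 ≤ u) (h2 : u ≤ 1 / 4) (hd : 0 ≤ d) (hd2 : d ≤ 26 / 100000) :
    (1 + 2 * u) / 3 ≤ 822 * u ^ 3 * ((1 - u) / 3) * ((1 - u) / 3 - d) := by
  obtain ⟨t, ht⟩ : ∃ t, t = u - 1 / 5 := ⟨_, rfl⟩
  have ht0 : 0 ≤ t := by linarith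
  have ht1 : t ≤ 1 / 20 := by linarith
  have hu : u = 1 / 5 + t := by linarith
  have e1 : 8 / 1000 + 12 / 100 * t ≤ u ^ 3 := by
    rw [hu]
    nlinarith [mul_nonneg ht0 ht0, mul_nonneg ht0 (mul_nonneg ht0 ht0)]
  have e2 : (64 / 100 - 16 / 10 * t) / 9 - 8 / 30 * d ≤ (1 - u) / 3 * ((1 - u) / 3 - d) := by
    rw [hu]
    nlinarith [mul_nonneg ht0 ht0, mul_nonneg ht0 hd]
  have e3 : 0 ≤ (64 / 100 - 16 / 10 * t) / 9 - 8 / 30 * d := by nlinarith
  have e4 : (8 / 1000 + 12 / 100 * t) * ((64 / 100 - 16 / 10 * t) / 9 - 8 / 30 * d) ≤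
      u ^ 3 * ((1 - u) / 3 * ((1 - u) / 3 - d)) :=
    mul_le_mul e1 e2 e3 (by positivity)
  have e5 : 822 * u ^ 3 * ((1 - u) / 3) * ((1 - u) / 3 - d) =
      822 * (u ^ 3 * ((1 - u) / 3 * ((1 - u) / 3 - d))) := by ring
  rw [e5]
  have e6 : (1 + 2 * u) / 3 ≤
      822 * ((8 / 1000 + 12 / 100 * t) * ((64 / 100 - 16 / 10 * t) / 9 - 8 / 30 * d)) := by
    rw [hu]
    nlinarith [mul_nonneg ht0 hd, mul_nonneg ht0 (sub_nonneg.mpr ht1)]
  linarith

/-- **the density of the products of four primes** -/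
theorem Q4_sum (θ : ℝ) (h1 : 1 / 5 ≤ θ) (h2 : θ < 1 / 4) : ∃ X0 : ℕ, ∀ X : ℕ, X0 ≤ X →
    ∀ n : ℕ, X5 X < n → n ≤ X →
      ∑ k ∈ KQ X n θ, Real.log n / (k * Real.log ((n : ℝ) / k)) ≤
        384 / 100 * (1 - 4 * θ) ^ 3 := by
  classical
  set s := 1 - 4 * θ with hs
  have hs0 : 0 < s := by rw [hs]; linarith
  have hs5 : s ≤ 1 / 5 := by rw [hs]; linarith
  set δ := s / 800 with hδ
  have hδ0 : 0 < δ := by rw [hδ]; positivity
  have hδ1 : δ ≤ 1 / 4000 := by rw [hδ]; linarith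
  set ε := δ / 1000000 with hε
  have hε0 : 0 < ε := by rw [hε]; positivity
  have hεδ : ε = δ / 1000000 := hε
  have hsδ : s = 800 * δ := by rw [hδ]; ring
  have hθδ : θ = 1 / 4 - 200 * δ := by linarith
  obtain ⟨X1, hX1⟩ := mp ε hε0
  obtain ⟨X2, hX2⟩ := logn_ge ε hε0
  refine ⟨X1 + X2 + 2, fun X hX n hn1 hn2 => ?_⟩
  obtain ⟨hn3, hn4, hXr, hn5⟩ := hX2 X (by omega) n hn1 hn2
  have hmp := hX1 X (by omega)
  have hX1' : 1 < X := by omega
  have hL : 0 < Real.log X := Real.log_pos hXr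
  set L := Real.log (X : ℝ) with hLd
  set u : ℕ → ℝ := fun i => θ + i * δ with hu
  set M : ℕ → ℝ := fun i => (1 - u i) / 3 with hM
  set A : ℕ → Finset (ℕ × ℕ) := fun i =>
    ((PS X (u i) (M i)) ×ˢ (PS X (u i) (M i))).filter (fun t : ℕ × ℕ => t.1 < t.2) with hA
  set B : ℕ → Finset (ℕ × ℕ) := fun i =>
    (PS X (u i) (M i)) ×ˢ (PS X (M i) (1 / 2 - u i + ε)) with hB
  set S : ℕ → Finset (ℕ × (ℕ × ℕ)) := fun i => (PS X (u i) (u (i + 1))) ×ˢ (A i ∪ B i) with hS
  set W : ℕ → ℝ := fun i => if i < 200 then 1 / (M i - δ - ε) else 0 with hW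
  set g : ℕ × (ℕ × ℕ) → ℝ := fun t => 1 / (t.1 : ℝ) * (1 / (t.2.1 : ℝ) * (1 / (t.2.2 : ℝ))) with hg
  have hus : ∀ i, u (i + 1) = u i + δ := by
    intro i
    rw [hu]
    simp only
    push_cast
    ring
  have hu0 : ∀ i, θ ≤ u i := by
    intro i
    rw [hu]
    simp only
    have : 0 ≤ (i : ℝ) * δ := by positivity
    linarith
  have hu1 : ∀ i, i < 200 → u (i + 1) ≤ 1 / 4 := by
    intro i hi'
    rw [hu]
    simp only
    have h3 : ((i + 1 : ℕ) : ℝ) ≤ 200 := by exact_mod_cast hi'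
    have h4 : ((i + 1 : ℕ) : ℝ) * δ ≤ 200 * δ := mul_le_mul_of_nonneg_right h3 hδ0.le
    linarith
  have hu2 : ∀ i, i < 200 → u i ≤ 1 / 4 := by
    intro i hi'
    have := hu1 i hi'
    rw [hus] at this
    linarith
  have hMe : ∀ i, M i = (1 - u i) / 3 := fun i => rfl
  have hden : ∀ i, i < 200 → 1 / 5 < M i - δ - ε := by
    intro i hi'
    have := hu2 i hi'
    rw [hMe]
    linarith
  have hW0 : ∀ i, 0 ≤ W i := by
    intro i
    rw [hW]
    simp only
    split_ifs with h3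
    · have := hden i h3
      exact div_nonneg (by norm_num) (by linarith)
    · exact le_rfl
  have hg0 : ∀ t, 0 ≤ g t := by
    intro t
    rw [hg]
    positivity
  -- the slices cover
  have hcov : ∀ k ∈ KQ X n θ, ∃ i ∈ range 200, ∃ t ∈ S i, k = t.1 * (t.2.1 * t.2.2) ∧
      Real.log n / (k * Real.log ((n : ℝ) / k)) ≤ W i * g t := by
    intro k hk
    unfold KQ at hk
    rw [Finset.mem_filter, Finset.mem_Icc] at hk
    obtain ⟨⟨hk1, hkX⟩, p, q, r, hp, hq, hr, hqp, hrq, hkpq, hrL, hpd⟩ := hk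
    have hp0 : (0 : ℝ) < p := by exact_mod_cast hp.pos
    have hq0 : (0 : ℝ) < q := by exact_mod_cast hq.pos
    have hr0 : (0 : ℝ) < r := by exact_mod_cast hr.pos
    have hk0 : (0 : ℝ) < k := by exact_mod_cast hk1
    have hn0 : (0 : ℝ) < n := by exact_mod_cast hn5
    have hlk : Real.log k = Real.log p + Real.log q + Real.log r := by
      rw [hkpq]
      push_cast
      rw [Real.log_mul (by positivity) hr0.ne', Real.log_mul hp0.ne' hq0.ne']
    have hlc : Real.log ((n : ℝ) / k) = Real.log n - Real.log p - Real.log q - Real.log r := by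
      rw [Real.log_div hn0.ne' hk0.ne', hlk]
      ring
    have hlqp : Real.log q < Real.log p := Real.log_lt_log hq0 (by exact_mod_cast hqp)
    have hlrq : Real.log r < Real.log q := Real.log_lt_log hr0 (by exact_mod_cast hrq)
    have hpX : p ≤ X := by
      refine le_trans ?_ hkX
      rw [hkpq, mul_assoc]
      exact Nat.le_mul_of_pos_right p (Nat.mul_pos hq.pos hr.pos)
    have hqX : q ≤ X := hqp.le.trans hpX
    have hrX : r ≤ X := hrq.le.trans hqX
    set a := Real.log r / L with ha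
    set b := Real.log q / L with hb
    set c := Real.log p / L with hc
    set N := Real.log n / L with hN
    have haL : a * L = Real.log r := div_mul_cancel₀ _ hL.ne'
    have hbL : b * L = Real.log q := div_mul_cancel₀ _ hL.ne'
    have hcL : c * L = Real.log p := div_mul_cancel₀ _ hL.ne'
    have hNL : N * L = Real.log n := div_mul_cancel₀ _ hL.ne'
    have hab : a < b := by
      rw [ha, hb]
      exact div_lt_div_of_pos_right hlrq hL
    have hbc : b < c := by
      rw [hb, hc]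
      exact div_lt_div_of_pos_right hlqp hL
    have hN1 : N ≤ 1 := by
      rw [hN, div_le_one hL]
      exact hn4
    have hN2 : 1 - ε ≤ N := by
      rw [hN, le_div_iff₀ hL]
      exact hn3
    rw [hlc] at hpd
    have e1 : c ≤ N - a - b - c := by
      have : c * L ≤ (N - a - b - c) * L := by
        rw [sub_mul, sub_mul, sub_mul, hcL, hbL, haL, hNL]
        linarith
      exact le_of_mul_le_mul_right this hL
    have e3 : θ ≤ a := by
      rw [ha, le_div_iff₀ hL]
      exact hrL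
    have e4 : a < 1 / 4 := by linarith
    set z : ℝ := (a - θ) / δ with hz
    have hz0 : 0 ≤ z := div_nonneg (by linarith) hδ0.le
    have hz4 : z < 200 := by
      rw [hz, div_lt_iff₀ hδ0]
      linarith
    set i := ⌊z⌋₊ with hi'
    have hi4 : i < 200 := by
      have := Nat.floor_le hz0
      have h3 : (i : ℝ) < 200 := lt_of_le_of_lt this hz4
      exact_mod_cast h3
    have hia : u i ≤ a := by
      have h3 : (i : ℝ) ≤ z := Nat.floor_le hz0
      rw [hz, le_div_iff₀ hδ0] at h3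
      rw [hu]
      simp only
      linarith
    have hib : a < u (i + 1) := by
      have h3 : z < (i : ℝ) + 1 := Nat.lt_floor_add_one z
      rw [hz, div_lt_iff₀ hδ0] at h3
      rw [hu]
      simp only
      push_cast
      linarith
    have hib' : a < u i + δ := by rw [← hus]; exact hib
    have hMi := hMe i
    have hd := hden i hi4
    have hbM : b < M i := by rw [hMi]; linarith
    have hqm : q ∈ PS X (u i) (M i) := by
      refine mem_PS hX1' hq hqX ?_ ?_
      · change u i * L ≤ Real.log q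
        rw [← hbL]
        exact mul_le_mul_of_nonneg_right (by linarith) hL.le
      · change Real.log q < M i * L
        rw [← hbL]
        exact mul_lt_mul_of_pos_right hbM hL
    have hrm : r ∈ PS X (u i) (u (i + 1)) := by
      refine mem_PS hX1' hr hrX ?_ ?_
      · change u i * L ≤ Real.log r
        rw [← haL]
        exact mul_le_mul_of_nonneg_right hia hL.le
      · change Real.log r < u (i + 1) * L
        rw [← haL]
        exact mul_lt_mul_of_pos_right hib hL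
    have hW' : W i = 1 / (M i - δ - ε) := by
      rw [hW]
      simp only
      rw [if_pos hi4]
    have hd0 : 0 < N - a - b - c := by linarith
    have hck : Real.log ((n : ℝ) / k) = (N - a - b - c) * L := by
      rw [hlc, sub_mul, sub_mul, sub_mul, hNL, haL, hbL, hcL]
      ring
    have e5 : Real.log n / (k * Real.log ((n : ℝ) / k)) =
        N / (N - a - b - c) * (1 / (r : ℝ) * (1 / (q : ℝ) * (1 / (p : ℝ)))) := by
      rw [hck, ← hNL, hkpq]
      push_cast
      field_simp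
    refine ⟨i, Finset.mem_range.mpr hi4, (r, (q, p)), ?_, by rw [hkpq]; ring, ?_⟩
    · rw [hS]
      refine Finset.mem_product.mpr ⟨hrm, ?_⟩
      rcases lt_or_ge c (M i) with h5 | h5
      · refine Finset.mem_union_left _ ?_
        rw [hA]
        refine Finset.mem_filter.mpr ⟨Finset.mem_product.mpr ⟨hqm, ?_⟩, hqp⟩
        refine mem_PS hX1' hp hpX ?_ ?_
        · change u i * L ≤ Real.log p
          rw [← hcL]
          exact mul_le_mul_of_nonneg_right (by linarith) hL.le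
        · change Real.log p < M i * L
          rw [← hcL]
          exact mul_lt_mul_of_pos_right h5 hL
      · refine Finset.mem_union_right _ ?_
        rw [hB]
        refine Finset.mem_product.mpr ⟨hqm, ?_⟩
        refine mem_PS hX1' hp hpX ?_ ?_
        · change M i * L ≤ Real.log p
          rw [← hcL]
          exact mul_le_mul_of_nonneg_right h5 hL.le
        · change Real.log p < (1 / 2 - u i + ε) * L
          rw [← hcL]
          exact mul_lt_mul_of_pos_right (by linarith) hL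
    · rw [e5, hW']
      refine mul_le_mul_of_nonneg_right ?_ (by positivity)
      rw [div_le_div_iff₀ hd0 (by linarith)]
      have e6 : M i - δ - ε ≤ N - a - b - c := by
        rcases lt_or_ge c (M i) with h5 | h5
        · linarith
        · linarith
      have e7 : N * (M i - δ - ε) ≤ 1 * (M i - δ - ε) :=
        mul_le_mul_of_nonneg_right hN1 (by linarith)
      linarith
  -- the bound for one slice
  have hsl : ∀ i ∈ range 200, W i * ∑ t ∈ S i, g t ≤
      411 * (δ + ε) * ((200 - (i : ℝ)) ^ 2 * (4 / 3 * δ * (1 + 1 / 100000)) ^ 2) := by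
    intro i hi'
    have hi4 := Finset.mem_range.mp hi'
    have hW' : W i = 1 / (M i - δ - ε) := by
      rw [hW]
      simp only
      rw [if_pos hi4]
    have hd := hden i hi4
    have hui := hu2 i hi4
    have hui0 := hu0 i
    have hss := hus i
    have hMi := hMe i
    have hui00 : 0 < u i := by linarith
    have hM00 : 0 < M i := by linarith
    have hM1 : M i ≤ 1 := by linarith
    have hi200 : (i : ℝ) + 1 ≤ 200 := by exact_mod_cast hi4
    set e := M i - u i with he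
    have hee : e = 4 / 3 * δ * (200 - i) := by
      have e3 : u i = θ + i * δ := rfl
      rw [he, hMi, e3]
      linarith
    have he1 : 4 / 3 * δ ≤ e := by rw [hee]; nlinarith
    have he0 : 0 < e := by linarith
    have m1 := hmp (u i) (u (i + 1)) (by linarith) (by linarith [hu1 i hi4])
    rw [hss, show u i + δ - u i = δ by ring, max_eq_right hδ0.le] at m1
    have m2 := hmp (u i) (M i) (by linarith) (by linarith)
    rw [max_eq_right (by linarith : (0 : ℝ) ≤ M i - u i)] at m2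
    have m3 := hmp (M i) (1 / 2 - u i + ε) (by linarith) (by linarith)
    rw [max_eq_right (by linarith : (0 : ℝ) ≤ 1 / 2 - u i + ε - M i)] at m3
    have m1' : ∑ p ∈ PS X (u i) (u i + δ), 1 / (p : ℝ) ≤ (δ + ε) / u i := by
      refine m1.trans ?_
      rw [le_div_iff₀ hui00, add_mul, div_mul_cancel₀ _ hui00.ne']
      nlinarith
    have m2' : ∑ p ∈ PS X (u i) (M i), 1 / (p : ℝ) ≤ (e + 4 * ε) / u i := by
      refine m2.trans ?_
      rw [le_div_iff₀ hui00, add_mul, div_mul_cancel₀ _ hui00.ne']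
      nlinarith
    have m3' : ∑ p ∈ PS X (M i) (1 / 2 - u i + ε), 1 / (p : ℝ) ≤ (e + 4 * ε) / 2 / M i := by
      refine m3.trans ?_
      rw [le_div_iff₀ hM00, add_mul, div_mul_cancel₀ _ hM00.ne']
      have : 1 / 2 - u i + ε - M i = e / 2 + ε := by rw [he, hMi]; ring
      rw [this]
      nlinarith
    set Sr := ∑ p ∈ PS X (u i) (u (i + 1)), 1 / (p : ℝ) with hSr
    set Sq := ∑ p ∈ PS X (u i) (M i), 1 / (p : ℝ) with hSq
    set Sp := ∑ p ∈ PS X (M i) (1 / 2 - u i + ε), 1 / (p : ℝ) with hSp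
    have n1 : 0 ≤ Sr := Finset.sum_nonneg fun q _ => by positivity
    have n2 : 0 ≤ Sq := Finset.sum_nonneg fun q _ => by positivity
    have n3 : 0 ≤ Sp := Finset.sum_nonneg fun q _ => by positivity
    have k1 : ∑ t ∈ A i ∪ B i, 1 / (t.1 : ℝ) * (1 / (t.2 : ℝ)) ≤ Sq ^ 2 / 2 + Sq * Sp := by
      have k2 : ∑ t ∈ A i ∪ B i, 1 / (t.1 : ℝ) * (1 / (t.2 : ℝ)) ≤
          ∑ t ∈ A i, 1 / (t.1 : ℝ) * (1 / (t.2 : ℝ)) +
          ∑ t ∈ B i, 1 / (t.1 : ℝ) * (1 / (t.2 : ℝ)) := by
        rw [← Finset.sum_union_inter]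
        have : 0 ≤ ∑ t ∈ A i ∩ B i, 1 / (t.1 : ℝ) * (1 / (t.2 : ℝ)) :=
          Finset.sum_nonneg fun t _ => by positivity
        linarith
      have k3 : ∑ t ∈ A i, 1 / (t.1 : ℝ) * (1 / (t.2 : ℝ)) ≤ Sq ^ 2 / 2 :=
        half_sq (PS X (u i) (M i)) (fun p => 1 / (p : ℝ)) fun p => by positivity
      have k4 : ∑ t ∈ B i, 1 / (t.1 : ℝ) * (1 / (t.2 : ℝ)) = Sq * Sp := by
        rw [hSq, hSp, Finset.sum_mul_sum, ← Finset.sum_product']
      linarith
    have k5 : ∑ t ∈ S i, g t = Sr * ∑ t ∈ A i ∪ B i, 1 / (t.1 : ℝ) * (1 / (t.2 : ℝ)) := by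
      rw [hSr, Finset.sum_mul_sum, ← Finset.sum_product']
    have k6 : Sq ^ 2 / 2 + Sq * Sp ≤ ((e + 4 * ε) / u i) ^ 2 / 2 +
        (e + 4 * ε) / u i * ((e + 4 * ε) / 2 / M i) := by
      have k7 : Sq ^ 2 ≤ ((e + 4 * ε) / u i) ^ 2 := pow_le_pow_left₀ n2 m2' 2
      have k8 : Sq * Sp ≤ (e + 4 * ε) / u i * ((e + 4 * ε) / 2 / M i) :=
        mul_le_mul m2' m3' n3 (by positivity)
      linarith
    have k9 : Sr ≤ (δ + ε) / u i := by
      rw [hSr, hss]
      exact m1'
    have k10 : 0 ≤ ((e + 4 * ε) / u i) ^ 2 / 2 +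
        (e + 4 * ε) / u i * ((e + 4 * ε) / 2 / M i) := by positivity
    have hcq := cQ (u i) (δ + ε) (by linarith) hui (by linarith) (by linarith)
    have hMd : M i - δ - ε = (1 - u i) / 3 - (δ + ε) := by rw [hMi]; ring
    have hMdp : 0 < M i - δ - ε := by linarith
    have k11 : 1 / (M i - δ - ε) * ((δ + ε) / u i * (((e + 4 * ε) / u i) ^ 2 / 2 +
        (e + 4 * ε) / u i * ((e + 4 * ε) / 2 / M i))) =
        (δ + ε) * (e + 4 * ε) ^ 2 * ((M i + u i) / (2 * u i ^ 3 * M i * (M i - δ - ε))) := by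
      field_simp
    have k12 : (M i + u i) / (2 * u i ^ 3 * M i * (M i - δ - ε)) ≤ 411 := by
      rw [div_le_iff₀ (by positivity)]
      have e9 : M i + u i = (1 + 2 * u i) / 3 := by rw [hMi]; ring
      rw [e9, hMd, hMi]
      linarith
    have k13 : e + 4 * ε ≤ (200 - (i : ℝ)) * (4 / 3 * δ * (1 + 1 / 100000)) := by
      rw [hee]
      have : 4 * ε ≤ (200 - (i : ℝ)) * (4 / 3 * δ * (1 / 100000)) := by
        rw [hεδ]
        nlinarith
      linarith
    have k14 : (e + 4 * ε) ^ 2 ≤ (200 - (i : ℝ)) ^ 2 * (4 / 3 * δ * (1 + 1 / 100000)) ^ 2 := by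
      rw [← mul_pow]
      exact pow_le_pow_left₀ (by positivity) k13 2
    calc W i * ∑ t ∈ S i, g t
        = 1 / (M i - δ - ε) * (Sr * ∑ t ∈ A i ∪ B i, 1 / (t.1 : ℝ) * (1 / (t.2 : ℝ))) := by
          rw [hW', k5]
      _ ≤ 1 / (M i - δ - ε) * ((δ + ε) / u i * (((e + 4 * ε) / u i) ^ 2 / 2 +
        (e + 4 * ε) / u i * ((e + 4 * ε) / 2 / M i))) := by
          refine mul_le_mul_of_nonneg_left ?_ (by positivity)
          exact mul_le_mul k9 (k1.trans k6)
            (Finset.sum_nonneg fun t _ => by positivity) (by positivity)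
      _ = (δ + ε) * (e + 4 * ε) ^ 2 * ((M i + u i) / (2 * u i ^ 3 * M i * (M i - δ - ε))) := k11
      _ ≤ (δ + ε) * ((200 - (i : ℝ)) ^ 2 * (4 / 3 * δ * (1 + 1 / 100000)) ^ 2) * 411 := by
          refine mul_le_mul ?_ k12 (by positivity) (by positivity)
          exact mul_le_mul_of_nonneg_left k14 (by positivity)
      _ = 411 * (δ + ε) * ((200 - (i : ℝ)) ^ 2 * (4 / 3 * δ * (1 + 1 / 100000)) ^ 2) := by ring
  refine (slice_gen (KQ X n θ) _ 200 S W g (fun t => t.1 * (t.2.1 * t.2.2)) hW0 hg0 hcov).trans ?_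
  refine (Finset.sum_le_sum hsl).trans ?_
  rw [← Finset.mul_sum, ← Finset.sum_mul, sq_sum200, hsδ, hεδ]
  have h3 : 0 < δ ^ 3 := by positivity
  nlinarith

end Pool.MP_dd84fd_nt.LX
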