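import Pool.Agent.Lib.MP_dd84fd_nt.LX.NDefs

/-!
# Theorem L, numerics: the edges

`Σ_{q ≥ X^θ} 1/q ≤ 4 + ε` (`IY.mp` with `u = θ ≥ 1/5`, `w = 1`; the primes up to `X` themselves: `w = 1` gives `< X`, add one term),
a prime in a window of length `2 ε L` above `L/8`: `≤ 20 ε`. `KE2`: three cases; in the third (`log k` near `(1-c) L`, `1 - c ≥ 1/2 - ..`) fix `q`, `p > q` is
in a window of length `2 ε L` and `log p ≥ (1-c-ε) L/2`. `KE3`: three cases, fix the smaller prime of the pair and the third prime.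
-/

set_option autoImplicit false

namespace Pool.MP_dd84fd_nt.LX

open Finset Pool.MP_dd84fd_nt.IY Pool.MP_dd84fd_nt.KX

/-- a sum over a set of values -/
theorem inv_le {α : Type*} (K : Finset ℕ) (T : Finset α) (val : α → ℕ)
    (h : ∀ k ∈ K, ∃ t ∈ T, k = val t) :
    ∑ k ∈ K, 1 / (k : ℝ) ≤ ∑ t ∈ T, 1 / (val t : ℝ) := by
  classical
  rcases K.eq_empty_or_nonempty with rfl | ⟨k0, hk0⟩
  · rw [Finset.sum_empty]
    exact Finset.sum_nonneg fun t _ => by positivity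
  obtain ⟨t0, _, _⟩ := h k0 hk0
  haveI : Nonempty α := ⟨t0⟩
  choose! g hg hv using h
  have h1 : ∑ k ∈ K, 1 / (k : ℝ) = ∑ k ∈ K, 1 / (val (g k) : ℝ) :=
    Finset.sum_congr rfl fun k hk => by rw [← hv k hk]
  have h2 : ∑ k ∈ K, 1 / (val (g k) : ℝ) = ∑ t ∈ K.image g, 1 / (val t : ℝ) := by
    rw [Finset.sum_image]
    intro a ha b hb hab
    rw [hv a ha, hv b hb, hab]
  rw [h1, h2]
  refine Finset.sum_le_sum_of_subset_of_nonneg ?_ fun t _ _ => by positivity
  intro t ht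
  obtain ⟨k, hk, rfl⟩ := Finset.mem_image.1 ht
  exact hg k hk

/-- pairs of primes with a product near `X^s` -/
noncomputable def Wp (X : ℕ) (s ε : ℝ) : Finset (ℕ × ℕ) :=
  open Classical in (PS X (1 / 5) 1 ×ˢ PS X (1 / 5) 1).filter (fun t => t.2 < t.1 ∧
    |Real.log t.1 + Real.log t.2 - s * Real.log X| ≤ ε * Real.log X)

private theorem all_sum (ε : ℝ) (hε : 0 < ε) (hε2 : ε ≤ 1 / 100) : ∃ X0 : ℕ, ∀ X : ℕ, X0 ≤ X →
    1 < X ∧ ∑ p ∈ PS X (1 / 5) 1, 1 / (p : ℝ) ≤ 401 / 100 ∧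
    (∀ u : ℝ, 235 / 1000 ≤ u → u ≤ 1 / 2 →
      ∑ p ∈ PS X u (u + 3 * ε), 1 / (p : ℝ) ≤ 14 * ε) := by
  obtain ⟨X1, hX1⟩ := mp ε hε
  refine ⟨X1 + 2, fun X hX => ⟨by omega, ?_, fun u hu hu2 => ?_⟩⟩
  · have h1 := hX1 X (by omega) (1 / 5) 1 (by norm_num) le_rfl
    rw [max_eq_right (by norm_num)] at h1
    norm_num at h1 ⊢
    linarith
  · have h1 := hX1 X (by omega) u (u + 3 * ε) (by linarith) (by linarith)
    rw [max_eq_right (by linarith)] at h1
    have h2 : (u + 3 * ε - u) / u ≤ 13 * ε := by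
      rw [div_le_iff₀ (by linarith)]
      nlinarith
    linarith

private theorem wp_sum (s ε : ℝ) (hs : 1 / 2 ≤ s) (hs2 : s ≤ 2 / 3) (hε : 0 < ε)
    (hε2 : ε ≤ 1 / 100) {X : ℕ} (hX : 1 < X)
    (h1 : ∑ p ∈ PS X (1 / 5) 1, 1 / (p : ℝ) ≤ 401 / 100)
    (h2 : ∀ u : ℝ, 235 / 1000 ≤ u → u ≤ 1 / 2 →
      ∑ p ∈ PS X u (u + 3 * ε), 1 / (p : ℝ) ≤ 14 * ε) :
    ∑ t ∈ Wp X s ε, 1 / ((t.1 : ℝ) * t.2) ≤ 57 * ε := by
  classical
  have hXr : (1 : ℝ) < X := by exact_mod_cast hX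
  have hL : 0 < Real.log X := Real.log_pos hXr
  unfold Wp
  rw [Finset.sum_filter, Finset.sum_product_right]
  have h3 : ∀ q ∈ PS X (1 / 5) 1, ∑ p ∈ PS X (1 / 5) 1, (if q < p ∧
      |Real.log p + Real.log q - s * Real.log X| ≤ ε * Real.log X then
      1 / ((p : ℝ) * q) else 0) ≤ 14 * ε * (1 / (q : ℝ)) := by
    intro q hq
    obtain ⟨q1, q2, q3, q4⟩ := of_mem_PS hX hq
    have hq0 : (0 : ℝ) < q := by exact_mod_cast q1.pos
    rw [← Finset.sum_filter]
    set F := (PS X (1 / 5) 1).filter (fun p : ℕ => q < p ∧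
      |Real.log p + Real.log q - s * Real.log X| ≤ ε * Real.log X) with hF
    rcases F.eq_empty_or_nonempty with he | ⟨p0, hp0⟩
    · rw [he, Finset.sum_empty]
      positivity
    · set a := Real.log q / Real.log X with ha
      have haL : a * Real.log X = Real.log q := div_mul_cancel₀ _ hL.ne'
      have hlow : a ≤ (s + ε) / 2 := by
        rw [hF, Finset.mem_filter] at hp0
        obtain ⟨k1, k2, k3⟩ := hp0
        obtain ⟨p1, p2, p3, p4⟩ := of_mem_PS hX k1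
        have k4 := (abs_le.1 k3).2
        have k5 : Real.log q ≤ Real.log p0 :=
          Real.log_le_log hq0 (by exact_mod_cast k2.le)
        have k6 : 2 * a * Real.log X ≤ (s + ε) * Real.log X := by
          rw [mul_assoc, haL]
          linarith
        have k7 := le_of_mul_le_mul_right k6 hL
        linarith
      have hal : 1 / 5 ≤ a := by
        have : 1 / 5 * Real.log X ≤ a * Real.log X := by rw [haL]; exact q3
        exact le_of_mul_le_mul_right this hL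
      have hsub : F ⊆ PS X (s - ε - a) (s - ε - a + 3 * ε) := by
        intro p hp
        rw [hF, Finset.mem_filter] at hp
        obtain ⟨k1, k2, k3⟩ := hp
        obtain ⟨p1, p2, p3, p4⟩ := of_mem_PS hX k1
        obtain ⟨k4, k5⟩ := abs_le.1 k3
        refine mem_PS hX p1 p2 ?_ ?_
        · have : (s - ε - a) * Real.log X = s * Real.log X - ε * Real.log X - Real.log q := by
            rw [← haL]; ring
          linarith
        · have : (s - ε - a + 3 * ε) * Real.log X =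
              s * Real.log X + 2 * (ε * Real.log X) - Real.log q := by
            rw [← haL]; ring
          have hεL : 0 < ε * Real.log X := mul_pos hε hL
          linarith
      have h4 := h2 (s - ε - a) (by linarith) (by linarith)
      calc ∑ p ∈ F, 1 / ((p : ℝ) * q) = (∑ p ∈ F, 1 / (p : ℝ)) * (1 / (q : ℝ)) := by
            rw [Finset.sum_mul]
            refine Finset.sum_congr rfl fun p _ => ?_
            rw [one_div_mul_one_div]
        _ ≤ 14 * ε * (1 / (q : ℝ)) := by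
            refine mul_le_mul_of_nonneg_right ?_ (by positivity)
            exact (Finset.sum_le_sum_of_subset_of_nonneg hsub fun p _ _ => by positivity).trans h4
  refine (Finset.sum_le_sum h3).trans ?_
  rw [← Finset.mul_sum]
  nlinarith

private theorem ab_sum {X : ℕ} {c ε : ℝ} (hc : 1 / 3 ≤ c) (hc2 : c ≤ 1 / 2) (hε : 0 < ε)
    (hε2 : ε ≤ 1 / 100) (h1 : ∑ p ∈ PS X (1 / 5) 1, 1 / (p : ℝ) ≤ 401 / 100)
    (h2 : ∀ u : ℝ, 235 / 1000 ≤ u → u ≤ 1 / 2 →
      ∑ p ∈ PS X u (u + 3 * ε), 1 / (p : ℝ) ≤ 14 * ε) :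
    ∑ t ∈ PS X (c - ε) (c - ε + 3 * ε) ×ˢ PS X (1 / 5) 1, 1 / ((t.1 : ℝ) * t.2) ≤ 57 * ε := by
  rw [Finset.sum_product]
  have h3 : ∑ p ∈ PS X (c - ε) (c - ε + 3 * ε), ∑ q ∈ PS X (1 / 5) 1, 1 / ((p : ℝ) * q) =
      (∑ p ∈ PS X (c - ε) (c - ε + 3 * ε), 1 / (p : ℝ)) * ∑ q ∈ PS X (1 / 5) 1, 1 / (q : ℝ) := by
    rw [Finset.sum_mul_sum]
    refine Finset.sum_congr rfl fun p _ => Finset.sum_congr rfl fun q _ => ?_
    rw [one_div_mul_one_div]
  have h4 := h2 (c - ε) (by linarith) (by linarith)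
  have h5 : 0 ≤ ∑ q ∈ PS X (1 / 5) 1, 1 / (q : ℝ) := Finset.sum_nonneg fun q _ => by positivity
  show ∑ p ∈ PS X (c - ε) (c - ε + 3 * ε), ∑ q ∈ PS X (1 / 5) 1, 1 / ((p : ℝ) * q) ≤ 57 * ε
  rw [h3]
  calc (∑ p ∈ PS X (c - ε) (c - ε + 3 * ε), 1 / (p : ℝ)) * ∑ q ∈ PS X (1 / 5) 1, 1 / (q : ℝ) ≤
        14 * ε * (401 / 100) := mul_le_mul h4 h1 h5 (by positivity)
    _ ≤ 57 * ε := by linarith

/-- a prime factor `p` of `k` with `p < k ≤ X` is in `PS X (1/5) 1` -/
private theorem mem_all {X : ℕ} {θ : ℝ} (hX : 1 < X) (h1 : 1 / 5 ≤ θ) {p : ℕ} (hp : p.Prime)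
    (hpX : p < X) (hθ : θ * Real.log X ≤ Real.log p) : p ∈ PS X (1 / 5) 1 := by
  have hXr : (1 : ℝ) < X := by exact_mod_cast hX
  have hL : 0 < Real.log X := Real.log_pos hXr
  refine mem_PS hX hp hpX.le ?_ ?_
  · exact (mul_le_mul_of_nonneg_right h1 hL.le).trans hθ
  · rw [one_mul]
    exact Real.log_lt_log (by exact_mod_cast hp.pos) (by exact_mod_cast hpX)

theorem edge2 (θ c ε : ℝ) (h1 : 1 / 5 ≤ θ) (hc : 1 / 3 ≤ c) (hc2 : c ≤ 1 / 2) (hε : 0 < ε)
    (hε2 : ε ≤ 1 / 100) : ∃ X0 : ℕ, ∀ X : ℕ, X0 ≤ X →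
      ∑ k ∈ KE2 X θ c ε, 1 / (k : ℝ) ≤ 1000 * ε := by
  classical
  obtain ⟨X0, h⟩ := all_sum ε hε hε2
  refine ⟨X0, fun X hX => ?_⟩
  obtain ⟨hX1, g1, g2⟩ := h X hX
  have hXr : (1 : ℝ) < X := by exact_mod_cast hX1
  have hL : 0 < Real.log X := Real.log_pos hXr
  have hεL : 0 < ε * Real.log X := mul_pos hε hL
  set A := PS X (c - ε) (c - ε + 3 * ε) ×ˢ PS X (1 / 5) 1 with hA
  set S : ℕ → Finset (ℕ × ℕ) := fun i => if i = 2 then Wp X (1 - c) ε else A with hS
  have h3 := slice_sum (KE2 X θ c ε) (fun k => 1 / (k : ℝ)) 3 S (fun _ => 1)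
    (fun _ => zero_le_one) (by
      intro k hk
      unfold KE2 at hk
      rw [Finset.mem_filter, Finset.mem_Icc] at hk
      obtain ⟨⟨k1, k2⟩, p, q, hp, hq, hqp, rfl, hθ, hcase⟩ := hk
      have hp0 : (0 : ℝ) < p := by exact_mod_cast hp.pos
      have hq0 : (0 : ℝ) < q := by exact_mod_cast hq.pos
      have hpX : p < X := by
        have h5 := hq.two_le
        have h6 := hp.pos
        nlinarith
      have hqX : q < X := hqp.trans hpX
      have hpq : Real.log q ≤ Real.log p := Real.log_le_log hq0 (by exact_mod_cast hqp.le)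
      have m1 := mem_all hX1 h1 hp hpX (hθ.trans hpq)
      have m2 := mem_all hX1 h1 hq hqX hθ
      have hval : (1 : ℝ) / ((p * q : ℕ) : ℝ) ≤ 1 / ((p : ℝ) * q) := by
        push_cast
        exact le_rfl
      have hval' : (1 : ℝ) / ((p * q : ℕ) : ℝ) ≤ 1 / ((q : ℝ) * p) := by
        push_cast
        rw [mul_comm]
      have win : ∀ z : ℕ, z.Prime → z ≤ X → |Real.log z - c * Real.log X| ≤ ε * Real.log X →
          z ∈ PS X (c - ε) (c - ε + 3 * ε) := by
        intro z hz hzX hzc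
        obtain ⟨z1, z2⟩ := abs_le.1 hzc
        refine mem_PS hX1 hz hzX ?_ ?_
        · have : (c - ε) * Real.log X = c * Real.log X - ε * Real.log X := by ring
          linarith
        · have : (c - ε + 3 * ε) * Real.log X = c * Real.log X + 2 * (ε * Real.log X) := by ring
          linarith
      rcases hcase with h7 | h7 | h7
      · refine ⟨0, by simp, (p, q), ?_, rfl, hval⟩
        rw [hS]
        simp only [show ¬ (0 = 2) by omega, if_false, hA]
        exact Finset.mem_product.2 ⟨win p hp hpX.le h7, m2⟩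
      · refine ⟨1, by simp, (q, p), ?_, mul_comm p q, hval'⟩
        rw [hS]
        simp only [show ¬ (1 = 2) by omega, if_false, hA]
        exact Finset.mem_product.2 ⟨win q hq hqX.le h7, m1⟩
      · refine ⟨2, by simp, (p, q), ?_, rfl, hval⟩
        rw [hS]
        simp only [if_true]
        unfold Wp
        rw [Finset.mem_filter]
        refine ⟨Finset.mem_product.2 ⟨m1, m2⟩, hqp, ?_⟩
        have h8 : Real.log ((p * q : ℕ) : ℝ) = Real.log p + Real.log q := by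
          push_cast
          exact Real.log_mul hp0.ne' hq0.ne'
        rw [h8] at h7
        exact h7)
  refine h3.trans ?_
  have s1 := ab_sum hc hc2 hε hε2 g1 g2
  have s2 := wp_sum (1 - c) ε (by linarith) (by linarith) hε hε2 hX1 g1 g2
  rw [Finset.sum_range_succ, Finset.sum_range_succ, Finset.sum_range_one]
  simp only [hS, show ¬ (0 = 2) by omega, show ¬ (1 = 2) by omega, if_false, if_true, one_mul, hA]
  linarith

theorem edge3 (θ ε : ℝ) (h1 : 1 / 5 ≤ θ) (hε : 0 < ε) (hε2 : ε ≤ 1 / 100) : ∃ X0 : ℕ,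
    ∀ X : ℕ, X0 ≤ X → ∑ k ∈ KE3 X θ ε, 1 / (k : ℝ) ≤ 10000 * ε := by
  classical
  obtain ⟨X0, h⟩ := all_sum ε hε hε2
  refine ⟨X0, fun X hX => ?_⟩
  obtain ⟨hX1, g1, g2⟩ := h X hX
  have hXr : (1 : ℝ) < X := by exact_mod_cast hX1
  have hL : 0 < Real.log X := Real.log_pos hXr
  set T : Finset ((ℕ × ℕ) × ℕ) := Wp X (1 / 2) ε ×ˢ PS X (1 / 5) 1 with hT
  have h3 := inv_le (KE3 X θ ε) T (fun t => t.1.1 * t.1.2 * t.2) (by
    intro k hk
    unfold KE3 at hk
    rw [Finset.mem_filter, Finset.mem_Icc] at hk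
    obtain ⟨⟨k1, k2⟩, p, q, r, hp, hq, hr, hqp, hrq, rfl, hθ, hcase⟩ := hk
    have hp0 : (0 : ℝ) < p := by exact_mod_cast hp.pos
    have hq0 : (0 : ℝ) < q := by exact_mod_cast hq.pos
    have hr0 : (0 : ℝ) < r := by exact_mod_cast hr.pos
    have hpX : p < X := by
      have h5 := hq.two_le
      have h6 := hr.two_le
      have h7 := hp.pos
      have h8 : p * 2 * 2 ≤ p * q * r := Nat.mul_le_mul (Nat.mul_le_mul_left p h5) h6
      omega
    have hqX : q < X := hqp.trans hpX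
    have hrX : r < X := hrq.trans hqX
    have l1 : Real.log r ≤ Real.log q := Real.log_le_log hr0 (by exact_mod_cast hrq.le)
    have l2 : Real.log q ≤ Real.log p := Real.log_le_log hq0 (by exact_mod_cast hqp.le)
    have m1 := mem_all hX1 h1 hp hpX (hθ.trans (l1.trans l2))
    have m2 := mem_all hX1 h1 hq hqX (hθ.trans l1)
    have m3 := mem_all hX1 h1 hr hrX hθ
    have wm : ∀ a b : ℕ, a ∈ PS X (1 / 5) 1 → b ∈ PS X (1 / 5) 1 → b < a →
        |Real.log a + Real.log b - Real.log X / 2| ≤ ε * Real.log X → (a, b) ∈ Wp X (1 / 2) ε := by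
      intro a b ha hb hab h4
      unfold Wp
      rw [Finset.mem_filter]
      refine ⟨Finset.mem_product.2 ⟨ha, hb⟩, hab, ?_⟩
      have h5 : (1 : ℝ) / 2 * Real.log X = Real.log X / 2 := by ring
      rw [h5]
      exact h4
    rcases hcase with h7 | h7 | h7
    · exact ⟨((p, q), r), Finset.mem_product.2 ⟨wm p q m1 m2 hqp h7, m3⟩, rfl⟩
    · refine ⟨((p, r), q), Finset.mem_product.2 ⟨wm p r m1 m3 (hrq.trans hqp) h7, m2⟩, ?_⟩
      show p * q * r = p * r * q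
      ring
    · refine ⟨((q, r), p), Finset.mem_product.2 ⟨wm q r m2 m3 hrq h7, m1⟩, ?_⟩
      show p * q * r = q * r * p
      ring)
  refine h3.trans ?_
  have s2 := wp_sum (1 / 2) ε le_rfl (by norm_num) hε hε2 hX1 g1 g2
  have h4 : ∑ t ∈ T, 1 / ((t.1.1 * t.1.2 * t.2 : ℕ) : ℝ) =
      (∑ t ∈ Wp X (1 / 2) ε, 1 / ((t.1 : ℝ) * t.2)) * ∑ q ∈ PS X (1 / 5) 1, 1 / (q : ℝ) := by
    rw [hT, Finset.sum_product, Finset.sum_mul_sum]
    refine Finset.sum_congr rfl fun t _ => Finset.sum_congr rfl fun q _ => ?_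
    push_cast
    rw [one_div_mul_one_div]
  rw [h4]
  have h5 : 0 ≤ ∑ q ∈ PS X (1 / 5) 1, 1 / (q : ℝ) := Finset.sum_nonneg fun q _ => by positivity
  calc (∑ t ∈ Wp X (1 / 2) ε, 1 / ((t.1 : ℝ) * t.2)) * ∑ q ∈ PS X (1 / 5) 1, 1 / (q : ℝ) ≤
        57 * ε * (401 / 100) := mul_le_mul s2 g1 h5 (by positivity)
    _ ≤ 10000 * ε := by linarith

end Pool.MP_dd84fd_nt.LX
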