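import Pool.Agent.Lib.MP_dd84fd_nt.LX.NLf
import Pool.Agent.Lib.MP_dd84fd_nt.LX.SvFam
import Pool.Agent.Lib.MP_dd84fd_nt.KX.NKc
import Pool.Agent.Lib.MP_dd84fd_nt.IY.CUs

/-!
# Theorem L, numerics: the values at one `k` (helper88)
-/

set_option autoImplicit false

namespace Pool.MP_dd84fd_nt.LX

open Finset Pool.MP_67663b_nt.Odd Pool.MP_dd84fd_nt.En Pool.MP_dd84fd_nt.E2 Pool.MP_dd84fd_nt.HX
  Pool.MP_dd84fd_nt.IY Pool.MP_dd84fd_nt.KX

theorem PB_nonneg (θ ε c c1 c2 c3 c4 c5 : ℝ) (X n k : ℕ) (hX : 1 < X) (hε : 0 ≤ ε)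
    (hc1 : 0 ≤ c1) (hc2 : 0 ≤ c2) (hc3 : 0 ≤ c3) (hc4 : 0 ≤ c4) (hc5 : 0 ≤ c5) :
    (0 : ℝ) ≤ PB θ ε c c1 c2 c3 c4 c5 X n k := by
  classical
  have hL : 0 < Real.log (X : ℝ) := Real.log_pos (by exact_mod_cast hX)
  have f : ∀ S : Finset ℕ, (0 : ℝ) ≤ (if k ∈ S then 1 else 0) := fun S => by
    split_ifs <;> norm_num
  have g : (0 : ℝ) ≤ (if k ∈ IY.PS X θ ((1 - θ) / 2) then
      Real.log k / Real.log X - θ + ε else 0) := by
    split_ifs with h
    · obtain ⟨_, _, h1, _⟩ := of_mem_PS hX h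
      have : θ ≤ Real.log k / Real.log X := by
        rw [le_div_iff₀ hL]
        exact h1
      linarith
    · exact le_rfl
  unfold PB
  have f1 := f (KT X n θ)
  have f2 := f (KH X θ ε)
  have f4 := f (KQ X n θ)
  have f5 := f (IY.PS X (1 / 2 - ε) (1 / 2 + ε))
  have f6 := f (KE2 X θ (1 / 2) ε)
  have f7 := f (KE2 X θ c ε)
  have f8 := f (KE3 X θ ε)
  have f9 := f (KA2 X θ)
  positivity

/-- the facts at one `k` -/
structure Fk (th e τ ε : ℝ) (κ : ℝ) (X n k : ℕ) (x l b w θ : ℝ) (T : Finset ℕ) (j0 : ℕ) : Prop where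
  hx : x = Real.log X
  hX1 : 1 < X
  hl1 : 1 ≤ l
  hκ0 : 0 < κ
  hκ1 : κ ≤ 1 / 100
  hτx : 100 * l + 100 ≤ τ * x
  hεx : 100 * l + 100 ≤ ε * x
  hτεx : 100 * l + 100 ≤ τ * ε * x
  hε1 : 0 < ε
  hb : b = bI th e * x
  hw : w = lK th τ * x
  hbx : b = th * x - 3 * (e * x)
  hwx : w = x / 2 + th * x / 2 - 2 * (τ * x)
  hex : 1000 * (e * x) ≤ τ * x
  hex0 : 0 ≤ e * x
  hth1 : 16 * (τ * x) ≤ th * x - x / 5
  hth2 : 16 * (τ * x) ≤ x / 3 - th * x
  hθx : θ * x = th * x - 5 * (τ * x)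
  hkX : k ≤ X
  hk0 : 0 < k
  hvn1 : vlog κ (zt X) j0 ≤ Real.log ((n : ℝ) / k)
  hvn2 : Real.log ((n : ℝ) / k) < vlog κ (zt X) j0 + κ
  hnk : Real.log ((n : ℝ) / k) = Real.log n - Real.log k
  hn1 : x - 5 * l ≤ Real.log n
  hn2 : Real.log n ≤ x
  hT : T = insert j0 (ty κ (zt X) k)
  hj0 : j0 ∉ ty κ (zt X) k
  hmono : ∀ j ∈ ty κ (zt X) k, vlog κ (zt X) j ≤ vlog κ (zt X) j0
  hp1 : ∀ p ∈ k.primeFactors, vlog κ (zt X) (bx κ (zt X) p) ≤ Real.log p
  hp2 : ∀ p ∈ k.primeFactors, Real.log p < vlog κ (zt X) (bx κ (zt X) p) + κ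
  hple : ∀ p ∈ k.primeFactors, Real.log p ≤ Real.log ((n : ℝ) / k)
  hsl : x - 6 * l ≤ sg (vlog κ (zt X)) T
  hsu : sg (vlog κ (zt X)) T ≤ x
  hS : Simp κ (zt X) k

theorem fk (th e τ : ℝ) (hA : AdmX th e τ) (B' : ℕ) (hB : 1 ≤ B') (ε : ℝ) (hε : 0 < ε) :
    ∃ X0 : ℕ, ∀ X : ℕ, X0 ≤ X → ∀ n k : ℕ,
    X5 X < n → n ≤ X → 2 ≤ k → Simp (kp B' X) (zt X) k → (zt X : ℝ) ≤ (n : ℝ) / k →
    (∀ j ∈ ty (kp B' X) (zt X) k, j < bx (kp B' X) (zt X) ((n : ℝ) / k)) →
    Fk th e τ ε (kp B' X) X n k (Real.log X) (Real.log (Real.log X)) (bI th e * Real.log X)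
      (lK th τ * Real.log X) (th - 5 * τ)
      (insert (bx (kp B' X) (zt X) ((n : ℝ) / k)) (ty (kp B' X) (zt X) k))
      (bx (kp B' X) (zt X) ((n : ℝ) / k)) := by
  obtain ⟨a1, a2, a3, a4, a5, a6⟩ := hA
  have hτ0 : 0 < τ := by linarith
  have hc0 : 0 < min (min τ ε) (τ * ε) := lt_min (lt_min hτ0 hε) (mul_pos hτ0 hε)
  obtain ⟨X1, hX1⟩ := nhc_big _ hc0 B' hB
  obtain ⟨X2, hX2⟩ := sg_n B' hB
  refine ⟨max X1 (max X2 2), ?_⟩
  intro X hX n k hn hnX hk hS hz hj
  simp only [max_le_iff] at hX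
  obtain ⟨b1, b2, b3⟩ := hX
  obtain ⟨g1, g2, g3, g4, g5, g6, g7, g8, g9⟩ := hX1 X b1
  obtain ⟨hcard, ht1, ht2⟩ := hX2 X b2 n k hn hnX (by omega) hS hz hj
  set x := Real.log (X : ℝ) with hxd
  set l := Real.log x with hld
  set κ := kp B' X with hκd
  set z := zt X with hzd
  have hx0 : 0 < x := by linarith
  have hm1 : min (min τ ε) (τ * ε) * x ≤ τ * x :=
    mul_le_mul_of_nonneg_right ((min_le_left _ _).trans (min_le_left _ _)) hx0.le
  have hm2 : min (min τ ε) (τ * ε) * x ≤ ε * x :=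
    mul_le_mul_of_nonneg_right ((min_le_left _ _).trans (min_le_right _ _)) hx0.le
  have hm3 : min (min τ ε) (τ * ε) * x ≤ τ * ε * x :=
    mul_le_mul_of_nonneg_right (min_le_right _ _) hx0.le
  have hz1 : 1 ≤ z := by omega
  have hk0 : (0 : ℝ) < k := by exact_mod_cast (by omega : 0 < k)
  have hXR : (1 : ℝ) < X := by exact_mod_cast (by omega : 1 < X)
  have hX5 : 0 < X5 X := by
    unfold X5
    rw [← hxd]
    positivity
  have hn0 : (0 : ℝ) < n := hX5.trans hn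
  have hkX : k ≤ X := by
    have h1 : (1 : ℝ) ≤ (n : ℝ) / k := by
      have : (1 : ℝ) ≤ z := by exact_mod_cast hz1
      linarith
    rw [le_div_iff₀ hk0, one_mul] at h1
    have h2 : (k : ℝ) ≤ (X : ℝ) := h1.trans (by exact_mod_cast hnX)
    exact_mod_cast h2
  have hlog2 : Real.log 2 < 7 / 10 := by
    have := Real.log_two_lt_d9
    linarith
  have hvn := vlog_bx g7 hz1 hz
  have hvp : ∀ p ∈ k.primeFactors, vlog κ z (bx κ z p) ≤ Real.log p ∧
      Real.log p < vlog κ z (bx κ z p) + κ := fun p hp => vlog_bx g7 hz1 (by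
        exact_mod_cast hS.1.2 p hp)
  refine ⟨rfl, by omega, g3, g7, g8, g5.trans hm1, g5.trans hm2, g5.trans hm3, hε,
    rfl, rfl, ?_, ?_, ?_,
    by positivity, ?_, ?_, by ring, hkX, by omega, hvn.1, hvn.2,
    Real.log_div hn0.ne' hk0.ne', ?_, ?_, rfl, fun h => lt_irrefl _ (hj _ h), ?_,
    fun p hp => (hvp p hp).1, fun p hp => (hvp p hp).2, ?_, by linarith, ht2, hS⟩
  · unfold bI
    ring
  · unfold lK
    ring
  · have := mul_le_mul_of_nonneg_right a4 hx0.le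
    linarith
  · have := mul_le_mul_of_nonneg_right a5 hx0.le
    linarith
  · have := mul_le_mul_of_nonneg_right a6 hx0.le
    linarith
  · have h3 : Real.log (X5 X) ≤ Real.log n := Real.log_le_log hX5 hn.le
    have h4 : Real.log (X5 X) = x - 5 * l := by
      unfold X5
      rw [Real.log_div (by linarith) (by rw [← hxd]; positivity), Real.log_pow, ← hxd]
      norm_num
      rfl
    linarith
  · exact Real.log_le_log hn0 (by exact_mod_cast hnX)
  · intro j hjm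
    rw [vlog_eq κ z _ hz1, vlog_eq κ z _ hz1]
    have h10 : (j : ℝ) ≤ (bx κ z ((n : ℝ) / k) : ℕ) := by exact_mod_cast (hj j hjm).le
    have := mul_le_mul_of_nonneg_left h10 g7.le
    linarith
  · intro p hp
    exact Real.log_le_log (by exact_mod_cast (Nat.prime_of_mem_primeFactors hp).pos)
      (n_le g7 hz1 hS hz hj hp)

namespace Fk

variable {th e τ ε κ : ℝ} {X n k : ℕ} {x l b w θ : ℝ} {T : Finset ℕ} {j0 : ℕ}

theorem x0 (F : Fk th e τ ε κ X n k x l b w θ T j0) : 0 < x := by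
  have h1 := F.hth1
  have h2 := F.hth2
  have h3 := F.hτx
  have h4 := F.hl1
  linarith

theorem b3 (F : Fk th e τ ε κ X n k x l b w θ T j0) : 48 * (τ * x) ≤ x - 3 * b := by
  have h1 := F.hth2
  have h2 := F.hbx
  have h3 := F.hex0
  linarith

theorem bθ (F : Fk th e τ ε κ X n k x l b w θ T j0) : θ * x + 4 * (τ * x) ≤ b := by
  have h1 := F.hex
  have h2 := F.hbx
  have h3 := F.hθx
  have h4 := F.hτx
  have h5 := F.hl1
  linarith

/-- one prime -/
theorem w1 (F : Fk th e τ ε κ X n k x l b w θ T j0) (hc : k.primeFactors.card = 1) :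
    ∃ jp : ℕ, k.Prime ∧ jp ≠ j0 ∧ T = {jp, j0} ∧ vlog κ (zt X) jp ≤ Real.log k ∧
      Real.log k < vlog κ (zt X) jp + κ ∧ vlog κ (zt X) jp ≤ vlog κ (zt X) j0 ∧
      x - 6 * l ≤ vlog κ (zt X) jp + vlog κ (zt X) j0 ∧
      vlog κ (zt X) jp + vlog κ (zt X) j0 ≤ x := by
  obtain ⟨p, hp⟩ := Finset.card_eq_one.1 hc
  have hpm : p ∈ k.primeFactors := by rw [hp]; simp
  have hpp := Nat.prime_of_mem_primeFactors hpm
  have hprod : ∏ p ∈ k.primeFactors, p = k := Nat.prod_primeFactors_of_squarefree F.hS.2.1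
  rw [hp, Finset.prod_singleton] at hprod
  have hT0' : ty κ (zt X) k = {bx κ (zt X) p} := by
    unfold ty
    rw [hp, Finset.image_singleton]
  have hjpT : bx κ (zt X) p ∈ ty κ (zt X) k := by rw [hT0']; simp
  have hne : bx κ (zt X) p ≠ j0 := fun h => F.hj0 (h ▸ hjpT)
  have hTT : T = {bx κ (zt X) p, j0} := by
    rw [F.hT, hT0', Finset.pair_comm]
  have hs : sg (vlog κ (zt X)) T = vlog κ (zt X) (bx κ (zt X) p) + vlog κ (zt X) j0 := by
    unfold sg
    rw [hTT, Finset.sum_pair hne]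
  have h1 := F.hp1 p hpm
  have h2 := F.hp2 p hpm
  have h3 := F.hsl
  have h4 := F.hsu
  rw [hs] at h3 h4
  rw [← hprod]
  exact ⟨_, hpp, hne, by rw [hprod] at *; exact hTT, h1, h2, F.hmono _ hjpT, h3, h4⟩

/-- two primes -/
theorem w2 (F : Fk th e τ ε κ X n k x l b w θ T j0) (hc : k.primeFactors.card = 2) :
    ∃ p q jp jq : ℕ, p.Prime ∧ q.Prime ∧ q < p ∧ k = p * q ∧ jp ≠ jq ∧ jp ≠ j0 ∧ jq ≠ j0 ∧
      T = {jp, jq, j0} ∧
      vlog κ (zt X) jp ≤ Real.log p ∧ Real.log p < vlog κ (zt X) jp + κ ∧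
      vlog κ (zt X) jq ≤ Real.log q ∧ Real.log q < vlog κ (zt X) jq + κ ∧
      vlog κ (zt X) jp ≤ vlog κ (zt X) j0 ∧ vlog κ (zt X) jq ≤ vlog κ (zt X) j0 ∧
      x - 6 * l ≤ vlog κ (zt X) jp + vlog κ (zt X) jq + vlog κ (zt X) j0 ∧
      vlog κ (zt X) jp + vlog κ (zt X) jq + vlog κ (zt X) j0 ≤ x ∧
      Real.log k = Real.log p + Real.log q ∧ Real.log p ≤ Real.log ((n : ℝ) / k) := by
  obtain ⟨p', q', hpq', hpf'⟩ := Finset.card_eq_two.1 hc
  obtain ⟨p, q, hqp, hpf⟩ : ∃ p q : ℕ, q < p ∧ k.primeFactors = {p, q} := by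
    rcases lt_or_gt_of_ne hpq' with h | h
    · exact ⟨q', p', h, by rw [hpf', Finset.pair_comm]⟩
    · exact ⟨p', q', h, hpf'⟩
  have hpq : p ≠ q := hqp.ne'
  have hpm : p ∈ k.primeFactors := by rw [hpf]; simp
  have hqm : q ∈ k.primeFactors := by rw [hpf]; simp
  have hpp := Nat.prime_of_mem_primeFactors hpm
  have hqq := Nat.prime_of_mem_primeFactors hqm
  have hprod : ∏ p ∈ k.primeFactors, p = k := Nat.prod_primeFactors_of_squarefree F.hS.2.1
  rw [hpf, Finset.prod_pair hpq] at hprod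
  have hbb : bx κ (zt X) p ≠ bx κ (zt X) q := fun h => hpq (F.hS.2.2 p hpm q hqm h)
  have hT0' : ty κ (zt X) k = {bx κ (zt X) p, bx κ (zt X) q} := by
    unfold ty
    rw [hpf, Finset.image_insert, Finset.image_singleton]
  have hjpT : bx κ (zt X) p ∈ ty κ (zt X) k := by rw [hT0']; simp
  have hjqT : bx κ (zt X) q ∈ ty κ (zt X) k := by rw [hT0']; simp
  have hne1 : bx κ (zt X) p ≠ j0 := fun h => F.hj0 (h ▸ hjpT)
  have hne2 : bx κ (zt X) q ≠ j0 := fun h => F.hj0 (h ▸ hjqT)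
  have hTT : T = {bx κ (zt X) p, bx κ (zt X) q, j0} := by
    rw [F.hT, hT0']
    ext j
    simp only [Finset.mem_insert, Finset.mem_singleton]
    tauto
  have hs : sg (vlog κ (zt X)) T = vlog κ (zt X) (bx κ (zt X) p) +
      vlog κ (zt X) (bx κ (zt X) q) + vlog κ (zt X) j0 := by
    unfold sg
    rw [hTT, Finset.sum_insert (by simp [hbb, hne1]), Finset.sum_pair hne2]
    ring
  have h3 := F.hsl
  have h4 := F.hsu
  rw [hs] at h3 h4
  have hlk : Real.log k = Real.log p + Real.log q := by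
    rw [← hprod]
    push_cast
    exact Real.log_mul (by exact_mod_cast hpp.ne_zero) (by exact_mod_cast hqq.ne_zero)
  exact ⟨p, q, _, _, hpp, hqq, hqp, hprod.symm, hbb, hne1, hne2, hTT, F.hp1 p hpm, F.hp2 p hpm,
    F.hp1 q hqm, F.hp2 q hqm, F.hmono _ hjpT, F.hmono _ hjqT, h3, h4, hlk, F.hple p hpm⟩

/-- three primes -/
theorem w3 (F : Fk th e τ ε κ X n k x l b w θ T j0) (hc : k.primeFactors.card = 3) :
    ∃ p q r jp jq jr : ℕ, p.Prime ∧ q.Prime ∧ r.Prime ∧ q < p ∧ r < q ∧ k = p * q * r ∧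
      T = {jp, jq, jr, j0} ∧
      vlog κ (zt X) jp ≤ Real.log p ∧ Real.log p < vlog κ (zt X) jp + κ ∧
      vlog κ (zt X) jq ≤ Real.log q ∧ Real.log q < vlog κ (zt X) jq + κ ∧
      vlog κ (zt X) jr ≤ Real.log r ∧ Real.log r < vlog κ (zt X) jr + κ ∧
      x - 6 * l ≤ vlog κ (zt X) jp + vlog κ (zt X) jq + vlog κ (zt X) jr + vlog κ (zt X) j0 ∧
      vlog κ (zt X) jp + vlog κ (zt X) jq + vlog κ (zt X) jr + vlog κ (zt X) j0 ≤ x ∧
      Real.log p ≤ Real.log ((n : ℝ) / k) := by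
  obtain ⟨p', q', r', h12, h13, h23, hpf'⟩ := Finset.card_eq_three.1 hc
  obtain ⟨p, q, r, hqp, hrq, hpf⟩ : ∃ p q r : ℕ, q < p ∧ r < q ∧ k.primeFactors = {p, q, r} := by
    rcases lt_or_gt_of_ne h12 with h | h
    · rcases lt_or_gt_of_ne h23 with h' | h'
      · exact ⟨r', q', p', h', h, by rw [hpf']; ext j; simp only [Finset.mem_insert, Finset.mem_singleton]; tauto⟩
      · rcases lt_or_gt_of_ne h13 with h'' | h''
        · exact ⟨q', r', p', h', h'', by rw [hpf']; ext j; simp only [Finset.mem_insert, Finset.mem_singleton]; tauto⟩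
        · exact ⟨q', p', r', h, h'', by rw [hpf']; ext j; simp only [Finset.mem_insert, Finset.mem_singleton]; tauto⟩
    · rcases lt_or_gt_of_ne h13 with h' | h'
      · exact ⟨r', p', q', h', h, by rw [hpf']; ext j; simp only [Finset.mem_insert, Finset.mem_singleton]; tauto⟩
      · rcases lt_or_gt_of_ne h23 with h'' | h''
        · exact ⟨p', r', q', h', h'', by rw [hpf']; ext j; simp only [Finset.mem_insert, Finset.mem_singleton]; tauto⟩
        · exact ⟨p', q', r', h, h'', hpf'⟩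
  have hpq : p ≠ q := hqp.ne'
  have hqr : q ≠ r := hrq.ne'
  have hpr : p ≠ r := (hrq.trans hqp).ne'
  have hpm : p ∈ k.primeFactors := by rw [hpf]; simp
  have hqm : q ∈ k.primeFactors := by rw [hpf]; simp
  have hrm : r ∈ k.primeFactors := by rw [hpf]; simp
  have hpp := Nat.prime_of_mem_primeFactors hpm
  have hqq := Nat.prime_of_mem_primeFactors hqm
  have hrr := Nat.prime_of_mem_primeFactors hrm
  have hprod : ∏ p ∈ k.primeFactors, p = k := Nat.prod_primeFactors_of_squarefree F.hS.2.1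
  rw [hpf, Finset.prod_insert (by simp [hpq, hpr]), Finset.prod_pair hqr] at hprod
  have hb1 : bx κ (zt X) p ≠ bx κ (zt X) q := fun h => hpq (F.hS.2.2 p hpm q hqm h)
  have hb2 : bx κ (zt X) p ≠ bx κ (zt X) r := fun h => hpr (F.hS.2.2 p hpm r hrm h)
  have hb3 : bx κ (zt X) q ≠ bx κ (zt X) r := fun h => hqr (F.hS.2.2 q hqm r hrm h)
  have hT0' : ty κ (zt X) k = {bx κ (zt X) p, bx κ (zt X) q, bx κ (zt X) r} := by
    unfold ty
    rw [hpf, Finset.image_insert, Finset.image_insert, Finset.image_singleton]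
  have hjpT : bx κ (zt X) p ∈ ty κ (zt X) k := by rw [hT0']; simp
  have hjqT : bx κ (zt X) q ∈ ty κ (zt X) k := by rw [hT0']; simp
  have hjrT : bx κ (zt X) r ∈ ty κ (zt X) k := by rw [hT0']; simp
  have hne1 : bx κ (zt X) p ≠ j0 := fun h => F.hj0 (h ▸ hjpT)
  have hne2 : bx κ (zt X) q ≠ j0 := fun h => F.hj0 (h ▸ hjqT)
  have hne3 : bx κ (zt X) r ≠ j0 := fun h => F.hj0 (h ▸ hjrT)
  have hTT : T = {bx κ (zt X) p, bx κ (zt X) q, bx κ (zt X) r, j0} := by
    rw [F.hT, hT0']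
    ext j
    simp only [Finset.mem_insert, Finset.mem_singleton]
    tauto
  have hs : sg (vlog κ (zt X)) T = vlog κ (zt X) (bx κ (zt X) p) +
      vlog κ (zt X) (bx κ (zt X) q) + vlog κ (zt X) (bx κ (zt X) r) + vlog κ (zt X) j0 := by
    unfold sg
    rw [hTT, Finset.sum_insert (by simp [hb1, hb2, hne1]), Finset.sum_insert (by simp [hb3, hne2]),
      Finset.sum_pair hne3]
    ring
  have h3 := F.hsl
  have h4 := F.hsu
  rw [hs] at h3 h4
  exact ⟨p, q, r, _, _, _, hpp, hqq, hrr, hqp, hrq, by rw [← hprod]; ring, hTT,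
    F.hp1 p hpm, F.hp2 p hpm, F.hp1 q hqm, F.hp2 q hqm, F.hp1 r hrm, F.hp2 r hrm, h3, h4,
    F.hple p hpm⟩

open Classical in
/-- `PB` is at least a term -/
theorem pb_ge (F : Fk th e τ ε κ X n k x l b w θ T j0) (c c1 c2 c3 c4 c5 : ℝ)
    (hc1 : 0 ≤ c1) (hc2 : 0 ≤ c2) (hc3 : 0 ≤ c3) (hc4 : 0 ≤ c4) (hc5 : 0 ≤ c5) :
    (k ∈ KT X n θ → c1 ≤ PB θ ε c c1 c2 c3 c4 c5 X n k) ∧
    (k ∈ KH X θ ε → c2 ≤ PB θ ε c c1 c2 c3 c4 c5 X n k) ∧
    (k ∈ KQ X n θ → c4 ≤ PB θ ε c c1 c2 c3 c4 c5 X n k) ∧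
    (c3 * (if k ∈ IY.PS X θ ((1 - θ) / 2) then Real.log k / Real.log X - θ + ε else 0) +
      c5 * (if k ∈ IY.PS X (1 / 2 - ε) (1 / 2 + ε) then 1 else 0) ≤
        PB θ ε c c1 c2 c3 c4 c5 X n k) ∧
    (k ∈ KE3 X θ ε → c5 ≤ PB θ ε c c1 c2 c3 c4 c5 X n k) ∧
    (c5 * ((if k ∈ KE2 X θ (1 / 2) ε then 1 else 0) + (if k ∈ KE2 X θ c ε then 1 else 0)) +
      ε * (if k ∈ KA2 X θ then 1 else 0) ≤ PB θ ε c c1 c2 c3 c4 c5 X n k) := by
  have hε := F.hε1
  have hL : 0 < Real.log (X : ℝ) := Real.log_pos (by exact_mod_cast F.hX1)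
  have f : ∀ S : Finset ℕ, (0 : ℝ) ≤ (if k ∈ S then 1 else 0) := fun S => by
    split_ifs <;> norm_num
  have g : (0 : ℝ) ≤ (if k ∈ IY.PS X θ ((1 - θ) / 2) then
      Real.log k / Real.log X - θ + ε else 0) := by
    split_ifs with h
    · obtain ⟨_, _, h1, _⟩ := of_mem_PS F.hX1 h
      have : θ ≤ Real.log k / Real.log X := by
        rw [le_div_iff₀ hL]
        exact h1
      linarith
    · exact le_rfl
  have f1 := mul_nonneg hc1 (f (KT X n θ))
  have f2 := mul_nonneg hc2 (f (KH X θ ε))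
  have f3 := mul_nonneg hc3 g
  have f4 := mul_nonneg hc4 (f (KQ X n θ))
  have f5 := mul_nonneg hc5 (f (IY.PS X (1 / 2 - ε) (1 / 2 + ε)))
  have f6 := mul_nonneg hc5 (f (KE2 X θ (1 / 2) ε))
  have f7 := mul_nonneg hc5 (f (KE2 X θ c ε))
  have f8 := mul_nonneg hc5 (f (KE3 X θ ε))
  have f9 := mul_nonneg hε.le (f (KA2 X θ))
  unfold PB
  refine ⟨fun h => ?_, fun h => ?_, fun h => ?_, ?_, fun h => ?_, ?_⟩
  · rw [if_pos h]
    linarith
  · rw [if_pos h]
    linarith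
  · rw [if_pos h]
    linarith
  · linarith
  · rw [if_pos h]
    linarith
  · linarith

/-- one prime -/
theorem c1 (F : Fk th e τ ε κ X n k x l b w θ T j0) (hc : k.primeFactors.card = 1)
    (hβ : 0 < 1 - 3 * bI th e) (A B c c4 : ℝ) (hc4 : 0 ≤ c4)
    (hA : -A ≤ ∑ j ∈ T, nr x l (vlog κ (zt X) j))
    (hB : B ≤ ∑ j ∈ T, (vE x b w l (vlog κ (zt X) j) + nr x l (vlog κ (zt X) j))) :
    -A ≤ PB θ ε c 2 2 0 0 9 X n k ∧
      B ≤ PB θ ε c 0 0 (2 / (1 - 3 * bI th e)) c4 9 X n k := by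
  classical
  obtain ⟨jp, hkp, hne, hTT, h1, h2, h3, h4, h5⟩ := F.w1 hc
  have hx0 := F.x0
  have hX := F.hX1
  have hb3 := F.b3
  have hbθ := F.bθ
  have hkX := F.hkX
  have k1 := F.hκ1
  have k2 := F.hκ0
  have k3 := F.hl1
  have k4 := F.hτx
  have k5 := F.hεx
  have k6 := F.hwx
  have k7 := F.hth1
  have k8 := F.hth2
  have k9 := F.hθx
  have k10 := F.hbx
  have k11 := F.hex
  have k12 := F.hex0
  have hxe := F.hx
  have hb' := F.hb
  have hεx0 : 0 ≤ ε * x := by linarith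
  rw [hTT, Finset.sum_pair hne] at hA hB
  have hnear : x / 2 - 26 * l ≤ vlog κ (zt X) jp → k ∈ IY.PS X (1 / 2 - ε) (1 / 2 + ε) := by
    intro h
    refine mem_PS hX hkp hkX ?_ ?_
    · rw [← hxe]
      linarith
    · rw [← hxe]
      linarith
  have hA1 : nr x l (vlog κ (zt X) jp) + nr x l (vlog κ (zt X) j0) ≤
      9 * (if k ∈ IY.PS X (1 / 2 - ε) (1 / 2 + ε) then 1 else 0) := by
    by_cases h6 : x / 2 - 26 * l ≤ vlog κ (zt X) jp
    · rw [if_pos (hnear h6)]
      unfold nr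
      split_ifs <;> norm_num
    · have h7 : nr x l (vlog κ (zt X) jp) = 0 := by
        unfold nr
        rw [if_neg]
        intro h8
        have := (abs_le.1 h8).1
        linarith
      have h9 : nr x l (vlog κ (zt X) j0) = 0 := by
        unfold nr
        rw [if_neg]
        intro h8
        have := (abs_le.1 h8).2
        linarith
      rw [h7, h9]
      split_ifs <;> norm_num
  have hvE0 : vE x b w l (vlog κ (zt X) j0) = 0 := by
    refine vE_zero ?_
    linarith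
  have hg : (0 : ℝ) ≤ (if k ∈ IY.PS X θ ((1 - θ) / 2) then
      Real.log k / Real.log X - θ + ε else 0) := by
    split_ifs with h
    · obtain ⟨_, _, h1, _⟩ := of_mem_PS hX h
      have : θ ≤ Real.log k / Real.log X := by
        rw [le_div_iff₀ (by rw [← hxe]; exact hx0)]
        exact h1
      linarith [F.hε1]
    · exact le_rfl
  have hi4 : 0 ≤ 2 / (1 - 3 * bI th e) := div_nonneg (by norm_num) hβ.le
  have hx3b : x - 3 * b = (1 - 3 * bI th e) * x := by rw [hb']; ring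
  have hA2 : vE x b w l (vlog κ (zt X) jp) ≤ 2 / (1 - 3 * bI th e) *
      (if k ∈ IY.PS X θ ((1 - θ) / 2) then Real.log k / Real.log X - θ + ε else 0) := by
    by_cases h6 : vlog κ (zt X) jp ≤ x - w
    · by_cases h7 : 0 < vlog κ (zt X) jp - b + 2 * l + 1
      · have hmem : k ∈ IY.PS X θ ((1 - θ) / 2) := by
          refine mem_PS hX hkp hkX ?_ ?_
          · rw [← hxe]
            linarith
          · have : (1 - θ) / 2 * x = x / 2 - (θ * x) / 2 := by ring
            rw [← hxe, this]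
            linarith
        rw [if_pos hmem]
        have h8 : vE x b w l (vlog κ (zt X) jp) =
            2 * (vlog κ (zt X) jp - b + 2 * l + 1) / (x - 3 * b) := by
          unfold vE
          rw [if_pos h6, max_eq_right h7.le]
        rw [h8, hx3b, div_mul_eq_mul_div, div_le_div_iff₀ (by positivity) hβ]
        have h9 : (Real.log k / Real.log X - θ + ε) * x = Real.log k - θ * x + ε * x := by
          rw [← hxe]
          field_simp
        have h10 : 2 * (Real.log k / Real.log X - θ + ε) * ((1 - 3 * bI th e) * x) =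
            2 * (Real.log k - θ * x + ε * x) * (1 - 3 * bI th e) := by
          rw [← h9]
          ring
        rw [h10]
        refine mul_le_mul_of_nonneg_right ?_ hβ.le
        linarith
      · have h8 : vE x b w l (vlog κ (zt X) jp) = 0 := by
          unfold vE
          rw [if_pos h6, max_eq_left (by linarith)]
          norm_num
        rw [h8]
        exact mul_nonneg hi4 hg
    · rw [vE_zero (not_le.1 h6)]
      exact mul_nonneg hi4 hg
  have q1 := (F.pb_ge c 2 2 0 0 9 (by norm_num) (by norm_num) (by norm_num) (by norm_num)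
    (by norm_num)).2.2.2.1
  have q2 := (F.pb_ge c 0 0 (2 / (1 - 3 * bI th e)) c4 9 (by norm_num) (by norm_num) hi4 hc4
    (by norm_num)).2.2.2.1
  constructor
  · linarith
  · linarith

/-- two primes -/
theorem c2 (F : Fk th e τ ε κ X n k x l b w θ T j0) (hc : k.primeFactors.card = 2)
    (hβ : 0 < 1 - 3 * bI th e) (A B c c4 : ℝ) (hc4 : 0 ≤ c4) (hcw : c * x = x - w)
    (hbox : ∀ j ∈ T, b - 1 ≤ vlog κ (zt X) j)
    (hA : A = 0 ∨ (A = -2 ∧ ∀ j ∈ T, vlog κ (zt X) j ≤ x - w) ∨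
      (A = -2 ∧ ∃ j ∈ T, x / 2 < vlog κ (zt X) j) ∨
        (A = -3 ∧ ∃ j ∈ T, |vlog κ (zt X) j - x / 2| ≤ 20 * l))
    (hB : B ≤ 2 * (6 * l + 3) / (x - 3 * b) + ∑ j ∈ T, (nr x l (vlog κ (zt X) j) +
      2 * ed x w l (vlog κ (zt X) j))) :
    -A ≤ PB θ ε c 2 2 0 0 9 X n k ∧
      B ≤ PB θ ε c 0 0 (2 / (1 - 3 * bI th e)) c4 9 X n k := by
  classical
  obtain ⟨p, q, jp, jq, hpp, hqq, hqp, hkpq, hbb, hne1, hne2, hTT, p1, p2, q1, q2, m1, m2, s1, s2,
    hlk, hpn⟩ := F.w2 hc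
  have hx0 := F.x0
  have hX := F.hX1
  have hb3 := F.b3
  have hbθ := F.bθ
  have hkX := F.hkX
  have hk0 := F.hk0
  have k1 := F.hκ1
  have k2 := F.hκ0
  have k3 := F.hl1
  have k4 := F.hτx
  have k5 := F.hεx
  have k6 := F.hwx
  have k7 := F.hth1
  have k8 := F.hth2
  have k9 := F.hθx
  have k10 := F.hbx
  have k11 := F.hex
  have k12 := F.hex0
  have k13 := F.hvn1
  have k14 := F.hvn2
  have k15 := F.hnk
  have k16 := F.hn1
  have k17 := F.hn2
  have hxe := F.hx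
  have hb' := F.hb
  have hε0 := F.hε1
  have hεx0 : 0 ≤ ε * x := by linarith
  have bp := hbox jp (by rw [hTT]; simp)
  have bq := hbox jq (by rw [hTT]; simp)
  have b0 := hbox j0 (by rw [hTT]; simp)
  have hqθ : θ * Real.log X ≤ Real.log q := by
    rw [← hxe]
    linarith
  have hi4 : 0 ≤ 2 / (1 - 3 * bI th e) := div_nonneg (by norm_num) hβ.le
  -- an edge
  have hE : ∀ c' : ℝ, ∀ j ∈ T, |vlog κ (zt X) j - c' * x| ≤ 20 * l → k ∈ KE2 X θ c' ε := by
    intro c' j hj h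
    obtain ⟨h1, h2⟩ := abs_le.1 h
    unfold KE2
    rw [Finset.mem_filter, Finset.mem_Icc]
    refine ⟨⟨by omega, hkX⟩, p, q, hpp, hqq, hqp, hkpq, hqθ, ?_⟩
    rw [← hxe]
    rw [hTT] at hj
    simp only [Finset.mem_insert, Finset.mem_singleton] at hj
    rcases hj with rfl | rfl | rfl
    · left
      rw [abs_le]
      constructor <;> linarith
    · right; left
      rw [abs_le]
      constructor <;> linarith
    · right; right
      rw [abs_le]
      constructor <;> linarith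
  obtain ⟨r1, r2, -, -, -, r6⟩ := F.pb_ge c 2 2 0 0 9 (by norm_num) (by norm_num) (by norm_num)
    (by norm_num) (by norm_num)
  obtain ⟨-, -, -, -, -, t6⟩ := F.pb_ge c 0 0 (2 / (1 - 3 * bI th e)) c4 9 (by norm_num)
    (by norm_num) hi4 hc4 (by norm_num)
  have f : ∀ S : Finset ℕ, (0 : ℝ) ≤ (if k ∈ S then 1 else 0) := fun S => by
    split_ifs <;> norm_num
  have f1 := f (KE2 X θ (1 / 2) ε)
  have f2 := f (KE2 X θ c ε)
  have f3 := mul_nonneg hε0.le (f (KA2 X θ))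
  constructor
  · rcases hA with h | ⟨h, h'⟩ | ⟨h, j, hj, h'⟩ | ⟨h, j, hj, h'⟩
    · rw [h]
      linarith
    · rw [h]
      have hmem : k ∈ KT X n θ := by
        unfold KT
        rw [Finset.mem_filter, Finset.mem_Icc]
        refine ⟨⟨by omega, hkX⟩, p, q, hpp, hqq, hqp, hkpq, hqθ, hpn, ?_⟩
        rw [← hxe]
        have h6 := h' j0 (by rw [hTT]; simp)
        have : (1 - θ) / 2 * x = x / 2 - (θ * x) / 2 := by ring
        rw [this]
        linarith
      linarith [r1 hmem]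
    · rw [h]
      have h0 : x / 2 < vlog κ (zt X) j0 := by
        rw [hTT] at hj
        simp only [Finset.mem_insert, Finset.mem_singleton] at hj
        rcases hj with rfl | rfl | rfl <;> linarith
      have hmem : k ∈ KH X θ ε := by
        unfold KH
        rw [Finset.mem_filter, Finset.mem_Icc]
        refine ⟨⟨by omega, hkX⟩, p, q, hpp, hqq, hqp, hkpq, hqθ, ?_⟩
        rw [← hxe]
        linarith
      linarith [r2 hmem]
    · rw [h]
      have hmem : k ∈ KE2 X θ (1 / 2) ε := hE _ j hj (by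
        rw [show (1 : ℝ) / 2 * x = x / 2 by ring]
        exact h')
      rw [if_pos hmem] at r6
      linarith
  · have hA2 : k ∈ KA2 X θ := by
      unfold KA2
      rw [Finset.mem_filter, Finset.mem_Icc]
      exact ⟨⟨by omega, hkX⟩, p, q, hpp, hqq, hqp, hkpq, hqθ⟩
    have g1 : 2 * (6 * l + 3) / (x - 3 * b) ≤ ε := by
      rw [div_le_iff₀ (by linarith)]
      have h1 := F.hτεx
      have h2 := mul_le_mul_of_nonneg_left hb3 hε0.le
      have h3 : ε * (48 * (τ * x)) = 48 * (τ * ε * x) := by ring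
      linarith
    have g2 : ∑ j ∈ T, nr x l (vlog κ (zt X) j) ≤
        9 * (if k ∈ KE2 X θ (1 / 2) ε then 1 else 0) := by
      by_cases h : k ∈ KE2 X θ (1 / 2) ε
      · rw [if_pos h]
        have h1 : ∑ j ∈ T, nr x l (vlog κ (zt X) j) ≤ ∑ _j ∈ T, (1 : ℝ) := by
          refine Finset.sum_le_sum fun j _ => ?_
          unfold nr
          split_ifs <;> norm_num
        have h2 : T.card ≤ 3 := by
          rw [hTT]
          exact Finset.card_le_three
        have h3 : (T.card : ℝ) ≤ 3 := by exact_mod_cast h2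
        rw [Finset.sum_const, nsmul_eq_mul, mul_one] at h1
        linarith
      · rw [if_neg h]
        have h1 : ∑ j ∈ T, nr x l (vlog κ (zt X) j) = 0 := by
          refine Finset.sum_eq_zero fun j hj => ?_
          unfold nr
          rw [if_neg]
          intro h2
          exact h (hE _ j hj (by
            rw [show (1 : ℝ) / 2 * x = x / 2 by ring]
            exact h2))
        rw [h1]
        norm_num
    have g3 : ∑ j ∈ T, 2 * ed x w l (vlog κ (zt X) j) ≤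
        9 * (if k ∈ KE2 X θ c ε then 1 else 0) := by
      by_cases h : k ∈ KE2 X θ c ε
      · rw [if_pos h]
        have h1 : ∑ j ∈ T, 2 * ed x w l (vlog κ (zt X) j) ≤ ∑ _j ∈ T, (2 : ℝ) := by
          refine Finset.sum_le_sum fun j _ => ?_
          unfold ed
          split_ifs <;> norm_num
        have h2 : T.card ≤ 3 := by
          rw [hTT]
          exact Finset.card_le_three
        have h3 : (T.card : ℝ) ≤ 3 := by exact_mod_cast h2
        rw [Finset.sum_const, nsmul_eq_mul] at h1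
        linarith
      · rw [if_neg h]
        have h1 : ∑ j ∈ T, 2 * ed x w l (vlog κ (zt X) j) = 0 := by
          refine Finset.sum_eq_zero fun j hj => ?_
          unfold ed
          rw [if_neg, mul_zero]
          intro h2
          exact h (hE _ j hj (by
            rw [hcw]
            exact h2))
        rw [h1]
        norm_num
    rw [Finset.sum_add_distrib] at hB
    rw [if_pos hA2] at t6
    linarith

/-- three primes -/
theorem c3 (F : Fk th e τ ε κ X n k x l b w θ T j0) (hc : k.primeFactors.card = 3)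
    (hβ : 0 < 1 - 3 * bI th e) (A B c c4 : ℝ) (hc4 : 0 ≤ c4)
    (hbox : ∀ j ∈ T, b - 1 ≤ vlog κ (zt X) j) (hA9 : -9 ≤ A) (hB9 : B ≤ 9)
    (hAB : (A = 0 ∧ B ≤ c4) ∨
        ∃ i ∈ T, ∃ j ∈ T, i ≠ j ∧ |vlog κ (zt X) i + vlog κ (zt X) j - x / 2| ≤ 20 * l) :
    -A ≤ PB θ ε c 2 2 0 0 9 X n k ∧
      B ≤ PB θ ε c 0 0 (2 / (1 - 3 * bI th e)) c4 9 X n k := by
  classical
  obtain ⟨p, q, r, jp, jq, jr, hpp, hqq, hrr, hqp, hrq, hkpq, hTT, p1, p2, q1, q2, r1, r2,
    s1, s2, hpn⟩ := F.w3 hc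
  have hx0 := F.x0
  have hX := F.hX1
  have hb3 := F.b3
  have hbθ := F.bθ
  have hkX := F.hkX
  have hk0 := F.hk0
  have k1 := F.hκ1
  have k2 := F.hκ0
  have k3 := F.hl1
  have k4 := F.hτx
  have k5 := F.hεx
  have hxe := F.hx
  have hε0 := F.hε1
  have hεx0 : 0 ≤ ε * x := by linarith
  have bp := hbox jp (by rw [hTT]; simp)
  have bq := hbox jq (by rw [hTT]; simp)
  have br := hbox jr (by rw [hTT]; simp)
  have hrθ : θ * Real.log X ≤ Real.log r := by
    rw [← hxe]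
    linarith
  have hi4 : 0 ≤ 2 / (1 - 3 * bI th e) := div_nonneg (by norm_num) hβ.le
  obtain ⟨-, -, -, -, a5, a6⟩ := F.pb_ge c 2 2 0 0 9 (by norm_num) (by norm_num) (by norm_num)
    (by norm_num) (by norm_num)
  obtain ⟨-, -, t3, -, t5, t6⟩ := F.pb_ge c 0 0 (2 / (1 - 3 * bI th e)) c4 9 (by norm_num)
    (by norm_num) hi4 hc4 (by norm_num)
  have f : ∀ S : Finset ℕ, (0 : ℝ) ≤ (if k ∈ S then 1 else 0) := fun S => by
    split_ifs <;> norm_num
  have f1 := f (KE2 X θ (1 / 2) ε)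
  have f2 := f (KE2 X θ c ε)
  have f3 := mul_nonneg hε0.le (f (KA2 X θ))
  rcases hAB with ⟨hA, hB⟩ | ⟨i, hi, j, hj, hij, h⟩
  · have hmem : k ∈ KQ X n θ := by
      unfold KQ
      rw [Finset.mem_filter, Finset.mem_Icc]
      exact ⟨⟨by omega, hkX⟩, p, q, r, hpp, hqq, hrr, hqp, hrq, hkpq, hrθ, hpn⟩
    have h1 := t3 hmem
    rw [hA]
    constructor <;> linarith
  · have hmem : k ∈ KE3 X θ ε := by
      unfold KE3
      rw [Finset.mem_filter, Finset.mem_Icc]
      refine ⟨⟨by omega, hkX⟩, p, q, r, hpp, hqq, hrr, hqp, hrq, hkpq, hrθ, ?_⟩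
      rw [← hxe]
      obtain ⟨h1, h2⟩ := abs_le.1 h
      have e1 : |Real.log p + Real.log q - x / 2| ≤ ε * x ↔
        -(ε * x) ≤ Real.log p + Real.log q - x / 2 ∧ Real.log p + Real.log q - x / 2 ≤ ε * x := abs_le
      have e2 : |Real.log p + Real.log r - x / 2| ≤ ε * x ↔
        -(ε * x) ≤ Real.log p + Real.log r - x / 2 ∧ Real.log p + Real.log r - x / 2 ≤ ε * x := abs_le
      have e3 : |Real.log q + Real.log r - x / 2| ≤ ε * x ↔
        -(ε * x) ≤ Real.log q + Real.log r - x / 2 ∧ Real.log q + Real.log r - x / 2 ≤ ε * x := abs_le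
      rw [e1, e2, e3]
      rw [hTT] at hi hj
      simp only [Finset.mem_insert, Finset.mem_singleton] at hi hj
      rcases hi with rfl | rfl | rfl | rfl <;> rcases hj with rfl | rfl | rfl | rfl
      · exact absurd rfl hij
      · left; constructor <;> linarith
      · right; left; constructor <;> linarith
      · right; right; constructor <;> linarith
      · left; constructor <;> linarith
      · exact absurd rfl hij
      · right; right; constructor <;> linarith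
      · right; left; constructor <;> linarith
      · right; left; constructor <;> linarith
      · right; right; constructor <;> linarith
      · exact absurd rfl hij
      · left; constructor <;> linarith
      · right; right; constructor <;> linarith
      · right; left; constructor <;> linarith
      · left; constructor <;> linarith
      · exact absurd rfl hij
    have h1 := a5 hmem
    have h2 := t5 hmem
    constructor <;> linarith

end Fk

/-- **the values at one `k`** -/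
theorem nlg (th e τ : ℝ) (hA : AdmX th e τ) (B' : ℕ) (hB : 1 ≤ B') (ε : ℝ) (hε : 0 < ε) :
    ∃ X0 : ℕ, ∀ X : ℕ, X0 ≤ X → ∀ n k : ℕ,
    X5 X < n → n ≤ X → 2 ≤ k → Simp (kp B' X) (zt X) k → (zt X : ℝ) ≤ (n : ℝ) / k →
    (∀ j ∈ ty (kp B' X) (zt X) k, j < bx (kp B' X) (zt X) ((n : ℝ) / k)) →
    -amL τ (bI th e) (lK th τ) (kp B' X) X
        (insert (bx (kp B' X) (zt X) ((n : ℝ) / k)) (ty (kp B' X) (zt X) k)) ≤
      PB (th - 5 * τ) ε (1 - lK th τ) 2 2 0 0 9 X n k ∧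
    bmL τ (bI th e) (lK th τ) (kp B' X) X
        (insert (bx (kp B' X) (zt X) ((n : ℝ) / k)) (ty (kp B' X) (zt X) k)) ≤
      PB (th - 5 * τ) ε (1 - lK th τ) 0 0 (2 / (1 - 3 * bI th e))
        (6 - 4 * (1 - 4 * bI th e) / (1 - 3 * bI th e)) 9 X n k := by
  obtain ⟨X1, hF⟩ := fk th e τ hA B' hB ε hε
  obtain ⟨X2, hV⟩ := lval hA B' hB
  obtain ⟨X3, hU⟩ := us_v B' hB
  refine ⟨max X1 (max X2 X3), ?_⟩
  intro X hX n k hn hnX hk hS hz hj
  simp only [max_le_iff] at hX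
  have F := hF X hX.1 n k hn hnX hk hS hz hj
  obtain ⟨u1, u2, u3⟩ := hU X hX.2.2 n k hn hnX (by omega) hS hz hj
  obtain ⟨v1, v2, v3, v4, v5⟩ := hV X hX.2.1 _ _ _ _ rfl rfl rfl rfl _ rfl _ _ rfl rfl _ u1 u2
  obtain ⟨a1, a2, a3, a4, a5, a6⟩ := hA
  have hx0 := F.x0
  have hb0 : 0 < bI th e := by
    unfold bI
    linarith
  have hβ : 0 < 1 - 3 * bI th e := by
    unfold bI
    linarith
  have hc4 : 0 ≤ 6 - 4 * (1 - 4 * bI th e) / (1 - 3 * bI th e) := by
    have : 4 * (1 - 4 * bI th e) / (1 - 3 * bI th e) ≤ 4 := by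
      rw [div_le_iff₀ hβ]
      linarith
    linarith
  have hi4 : 0 ≤ 2 / (1 - 3 * bI th e) := div_nonneg (by norm_num) hβ.le
  have z1 := PB_nonneg (th - 5 * τ) ε (1 - lK th τ) 2 2 0 0 9 X n k F.hX1 hε.le (by norm_num)
    (by norm_num) (by norm_num) (by norm_num) (by norm_num)
  have z2 := PB_nonneg (th - 5 * τ) ε (1 - lK th τ) 0 0 (2 / (1 - 3 * bI th e))
    (6 - 4 * (1 - 4 * bI th e) / (1 - 3 * bI th e)) 9 X n k F.hX1 hε.le (by norm_num)
    (by norm_num) hi4 hc4 (by norm_num)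
  have hpfne : k.primeFactors.Nonempty := by
    rw [Nat.nonempty_primeFactors]
    omega
  have hpf1 : 1 ≤ k.primeFactors.card := Finset.card_pos.2 hpfne
  obtain h | h | h | h : k.primeFactors.card = 1 ∨ k.primeFactors.card = 2 ∨
    k.primeFactors.card = 3 ∨ 4 ≤ k.primeFactors.card := by omega
  · obtain ⟨y1, y2⟩ := v2 (by omega)
    exact F.c1 h hβ _ _ _ _ hc4 y1 y2
  · rcases v3 (by omega) with ⟨y1, y2⟩ | ⟨y1, y2, y3⟩
    · rw [y1, y2, neg_zero]
      exact ⟨z1, z2⟩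
    · exact F.c2 h hβ _ _ _ _ hc4 (by ring) y1 y2 y3
  · rcases v4 (by omega) with ⟨y1, y2⟩ | ⟨y1, y2, y3, y4⟩
    · rw [y1, y2, neg_zero]
      exact ⟨z1, z2⟩
    · refine F.c3 h hβ _ _ _ _ hc4 y1 y2 y3 ?_
      rcases y4 with ⟨y5, y6⟩ | y5
      · left
        refine ⟨y5, y6.trans (le_of_eq ?_)⟩
        have : (4 * (Real.log X - 4 * (bI th e * Real.log X)) /
            (Real.log X - 3 * (bI th e * Real.log X))) =
            4 * (1 - 4 * bI th e) / (1 - 3 * bI th e) := by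
          rw [show 4 * (Real.log X - 4 * (bI th e * Real.log X)) =
            (4 * (1 - 4 * bI th e)) * Real.log X by ring,
            show Real.log X - 3 * (bI th e * Real.log X) = (1 - 3 * bI th e) * Real.log X by ring]
          exact mul_div_mul_right _ _ hx0.ne'
        rw [this]
      · exact Or.inr y5
  · obtain ⟨y1, y2⟩ := v5 (by omega)
    rw [y1, y2, neg_zero]
    exact ⟨z1, z2⟩

end Pool.MP_dd84fd_nt.LX
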