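import Pool.Agent.Lib.MP_dd84fd_nt.LX.NLa
import Pool.Agent.Lib.MP_dd84fd_nt.LX.NLb
import Pool.Agent.Lib.MP_dd84fd_nt.LX.NLc
import Pool.Agent.Lib.MP_dd84fd_nt.LX.NLd
import Pool.Agent.Lib.MP_dd84fd_nt.LX.NLe
import Pool.Agent.Lib.MP_dd84fd_nt.LX.NLg
import Pool.Agent.Lib.MP_dd84fd_nt.LX.LDefs

/-!
# Theorem L, numerics: `numL : NumL 4` (helper88)
-/

set_option autoImplicit false

namespace Pool.MP_dd84fd_nt.LX

open Finset Pool.MP_67663b_nt.Odd Pool.MP_dd84fd_nt.En Pool.MP_dd84fd_nt.E2 Pool.MP_dd84fd_nt.HX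
  Pool.MP_dd84fd_nt.IY Pool.MP_dd84fd_nt.KX

/-- the value at `k = 1` -/
theorem nl_one (th e τ : ℝ) (hA : AdmX th e τ) (B' : ℕ) (hB : 1 ≤ B') : ∃ X0 : ℕ, ∀ X : ℕ,
    X0 ≤ X → ∀ n : ℕ, X5 X < n → n ≤ X →
    amL τ (bI th e) (lK th τ) (kp B' X) X
        (insert (bx (kp B' X) (zt X) ((n : ℝ) / (1 : ℕ))) (ty (kp B' X) (zt X) 1)) = 1 ∧
    bmL τ (bI th e) (lK th τ) (kp B' X) X
        (insert (bx (kp B' X) (zt X) ((n : ℝ) / (1 : ℕ))) (ty (kp B' X) (zt X) 1)) = 1 := by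
  classical
  obtain ⟨X1, hV⟩ := lval hA B' hB
  obtain ⟨X2, hU⟩ := us_v B' hB
  obtain ⟨X3, hX3⟩ := X5_ge
  refine ⟨X1 + X2 + X3 + 2, ?_⟩
  intro X hX n hn hnX
  obtain ⟨h51, -⟩ := hX3 X (by omega)
  have hsimp : Simp (kp B' X) (zt X) 1 := by
    refine ⟨⟨one_ne_zero, ?_⟩, squarefree_one, ?_⟩
    · intro p hp
      simp at hp
    · intro p hp
      simp at hp
  have hty : ty (kp B' X) (zt X) 1 = ∅ := by
    unfold ty
    simp
  have hnz : (zt X : ℝ) ≤ (n : ℝ) / (1 : ℕ) := by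
    rw [Nat.cast_one, div_one]
    linarith
  have hj : ∀ j ∈ ty (kp B' X) (zt X) 1, j < bx (kp B' X) (zt X) ((n : ℝ) / (1 : ℕ)) := by
    rw [hty]
    intro j hj
    simp at hj
  obtain ⟨u1, u2, u3⟩ := hU X (by omega) n 1 hn hnX le_rfl hsimp hnz hj
  obtain ⟨v1, -⟩ := hV X (by omega) _ _ _ _ rfl rfl rfl rfl _ rfl _ _ rfl rfl _ u1 u2
  exact v1 (by rw [u3]; simp)

/-- no products of two primes below the square root -/
theorem H_zero (θ ε : ℝ) (h : 1 / 2 + ε < 2 * θ) : EvN fun X n => ∑ k ∈ KH X θ ε, qn n k ≤ 0 := by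
  classical
  refine ⟨2, fun X hX n _ _ => ?_⟩
  have hL : 0 < Real.log (X : ℝ) := Real.log_pos (by exact_mod_cast (by omega : 1 < X))
  refine le_of_eq (Finset.sum_eq_zero fun k hk => ?_)
  exfalso
  unfold KH at hk
  rw [Finset.mem_filter, Finset.mem_Icc] at hk
  obtain ⟨⟨_, _⟩, p, q, hp, hq, hqp, hkpq, hq1, hk1⟩ := hk
  have hp0 : (0 : ℝ) < p := by exact_mod_cast hp.pos
  have hq0 : (0 : ℝ) < q := by exact_mod_cast hq.pos
  have h1 : Real.log q < Real.log p := Real.log_lt_log hq0 (by exact_mod_cast hqp)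
  have h2 : Real.log k = Real.log p + Real.log q := by
    rw [hkpq]
    push_cast
    exact Real.log_mul hp0.ne' hq0.ne'
  have h3 := mul_lt_mul_of_pos_right h hL
  linarith

/-- no products of four primes -/
theorem Q_zero (θ : ℝ) (h : 1 / 4 < θ) : EvN fun X n => ∑ k ∈ KQ X n θ, qn n k ≤ 0 := by
  classical
  refine ⟨2, fun X hX n hn1 hn2 => ?_⟩
  have hL : 0 < Real.log (X : ℝ) := Real.log_pos (by exact_mod_cast (by omega : 1 < X))
  have hX5 : 0 < X5 X := by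
    unfold X5
    positivity
  have hn0 : (0 : ℝ) < n := hX5.trans hn1
  refine le_of_eq (Finset.sum_eq_zero fun k hk => ?_)
  exfalso
  unfold KQ at hk
  rw [Finset.mem_filter, Finset.mem_Icc] at hk
  obtain ⟨⟨_, _⟩, p, q, r, hp, hq, hr, hqp, hrq, hkpq, hr1, hpn⟩ := hk
  have hp0 : (0 : ℝ) < p := by exact_mod_cast hp.pos
  have hq0 : (0 : ℝ) < q := by exact_mod_cast hq.pos
  have hr0 : (0 : ℝ) < r := by exact_mod_cast hr.pos
  have h1 : Real.log q < Real.log p := Real.log_lt_log hq0 (by exact_mod_cast hqp)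
  have h2 : Real.log r < Real.log q := Real.log_lt_log hr0 (by exact_mod_cast hrq)
  have hk0 : (0 : ℝ) < k := by
    rw [hkpq]
    push_cast
    positivity
  have h3 : Real.log k = Real.log p + Real.log q + Real.log r := by
    rw [hkpq]
    push_cast
    rw [Real.log_mul (mul_pos hp0 hq0).ne' hr0.ne', Real.log_mul hp0.ne' hq0.ne']
  rw [Real.log_div hn0.ne' hk0.ne'] at hpn
  have h4 : Real.log n ≤ Real.log X := Real.log_le_log hn0 (by exact_mod_cast hn2)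
  have h5 := mul_lt_mul_of_pos_right h hL
  linarith

/-- the densities from the sums -/
theorem nlh_gen (th e τ : ℝ) (hA : AdmX th e τ) (ε tT tH tE tQ a b : ℝ) (hε : 0 < ε)
    (hε2 : ε ≤ 1 / 100)
    (HT : EvN fun X n => ∑ k ∈ KT X n (th - 5 * τ), qn n k ≤ tT)
    (HH : EvN fun X n => ∑ k ∈ KH X (th - 5 * τ) ε, qn n k ≤ tH)
    (HE : EvN fun X n => ∑ p ∈ IY.PS X (th - 5 * τ) ((1 - (th - 5 * τ)) / 2),
      (Real.log p / Real.log X - (th - 5 * τ)) * qn n p ≤ tE)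
    (HQ : EvN fun X n => ∑ k ∈ KQ X n (th - 5 * τ), qn n k ≤ tQ)
    (ha : a + (2 * tT + 2 * tH + 9 * (120020 * ε) + 1000 * ε) ≤ 1)
    (hb : 1 + (2 / (1 - 3 * bI th e) * (tE + 3 * ε) +
      (6 - 4 * (1 - 4 * bI th e) / (1 - 3 * bI th e)) * tQ + 9 * (120020 * ε) + 1000 * ε) ≤ b) :
    NumLA th e τ a b := by
  classical
  intro B' hB
  have hA' := hA
  obtain ⟨a1, a2, a3, a4, a5, a6⟩ := hA'
  have hτ0 : 0 < τ := by linarith
  have hθ1 : 1 / 5 ≤ th - 5 * τ := by linarith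
  have hθ2 : th - 5 * τ < 1 / 3 := by linarith
  have hb0 : 0 < bI th e := by
    unfold bI
    linarith
  have hβ : 0 < 1 - 3 * bI th e := by
    unfold bI
    linarith
  have hc4 : 0 ≤ 6 - 4 * (1 - 4 * bI th e) / (1 - 3 * bI th e) := by
    have : 4 * (1 - 4 * bI th e) / (1 - 3 * bI th e) ≤ 4 := by
      rw [div_le_iff₀ hβ]
      linarith
    linarith
  have hi4 : 0 ≤ 2 / (1 - 3 * bI th e) := div_nonneg (by norm_num) hβ.le
  have hc : 1 / 3 ≤ 1 - lK th τ := by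
    unfold lK
    linarith
  have hc' : 1 - lK th τ ≤ 1 / 2 := by
    unfold lK
    linarith
  have HE1 : EvN fun X n => ∑ p ∈ IY.PS X (th - 5 * τ) ((1 - (th - 5 * τ)) / 2), qn n p ≤ 3 :=
    E_oneL _ hθ1 hθ2
  have HN : EvN fun X n => ∑ p ∈ IY.PS X (1 / 2 - ε) (1 / 2 + ε), qn n p ≤ 20 * ε :=
    N_one ε hε (by linarith)
  have H2 := edge2 (th - 5 * τ) (1 / 2) ε hθ1 (by norm_num) le_rfl hε hε2
  have H2c := edge2 (th - 5 * τ) (1 - lK th τ) ε hθ1 hc hc' hε hε2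
  have H3 := edge3 (th - 5 * τ) ε hθ1 hε hε2
  obtain ⟨X1, h1⟩ := NLf_side (th - 5 * τ) ε (1 - lK th τ) tT tH tE tQ 2 2 0 0 9 hθ1 hθ2 hε hε2
    (by norm_num) (by norm_num) le_rfl le_rfl (by norm_num) HT HH HE HE1 HQ HN H2 H2c H3 B'
  obtain ⟨X2, h2⟩ := NLf_side (th - 5 * τ) ε (1 - lK th τ) tT tH tE tQ 0 0 (2 / (1 - 3 * bI th e))
    (6 - 4 * (1 - 4 * bI th e) / (1 - 3 * bI th e)) 9 hθ1 hθ2 hε hε2
    le_rfl le_rfl hi4 hc4 (by norm_num) HT HH HE HE1 HQ HN H2 H2c H3 B'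
  obtain ⟨X3, h3⟩ := nlg th e τ hA B' hB ε hε
  obtain ⟨X4, h4⟩ := nl_one th e τ hA B' hB
  refine ⟨X1 + X2 + X3 + X4, fun X hX n hn1 hn2 => ?_⟩
  obtain ⟨v1, v2⟩ := h4 X (by omega) n hn1 hn2
  have k1 := h1 X (by omega) (fun T => -amL τ (bI th e) (lK th τ) (kp B' X) X T) n hn1 hn2 (by
    intro k hk e1 e2 e3
    exact (h3 X (by omega) n k hn1 hn2 hk e1 e2 e3).1)
  have k2 := h2 X (by omega) (fun T => bmL τ (bI th e) (lK th τ) (kp B' X) X T) n hn1 hn2 (by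
    intro k hk e1 e2 e3
    exact (h3 X (by omega) n k hn1 hn2 hk e1 e2 e3).2)
  have hneg : gty (kp B' X) X (fun T => -amL τ (bI th e) (lK th τ) (kp B' X) X T) n =
      - gty (kp B' X) X (amL τ (bI th e) (lK th τ) (kp B' X) X) n := by
    unfold gty
    rw [if_pos ⟨hn1, hn2⟩, if_pos ⟨hn1, hn2⟩, ← Finset.sum_neg_distrib]
    refine Finset.sum_congr rfl fun k _ => ?_
    unfold vty
    split_ifs
    · rw [neg_div]
    · rw [zero_div, neg_zero]
  rw [hneg, v1] at k1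
  rw [v2] at k2
  have e1 : Real.log n * -gty (kp B' X) X (amL τ (bI th e) (lK th τ) (kp B' X) X) n =
      -(Real.log n * gty (kp B' X) X (amL τ (bI th e) (lK th τ) (kp B' X) X) n) := by ring
  rw [e1] at k1
  constructor
  · linarith
  · linarith

/-- `th ≤ 1/4` -/
theorem numL_low (th : ℝ) (h1 : 1 / 5 < th) (h2 : th ≤ 1 / 4) : ∃ τ0 a b : ℝ, 0 < τ0 ∧
    0 ≤ a ∧ a ≤ 1 ∧ 1 ≤ b ∧ (1 - a) * (1 - a) < 4 * (1 - 3 * th) ^ 3 ∧
    (1 - a) * (b - 1) < 4 * (1 - 3 * th) ^ 3 ∧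
    ∀ e τ : ℝ, AdmX th e τ → τ ≤ τ0 → NumLA th e τ a b := by
  set x := 1 - 3 * th with hx
  have hx0 : 1 / 4 ≤ x := by rw [hx]; linarith
  have hx5 : x < 2 / 5 := by rw [hx]; linarith
  have hx2 : 0 < x ^ 2 := by positivity
  have hx3 : 0 < x ^ 3 := by positivity
  refine ⟨x / 1000000, 1 - 265 / 100 * x ^ 2, 1 + 1495 / 1000 * x, by positivity, by nlinarith,
    by nlinarith, by nlinarith, ?_, ?_, ?_⟩
  · have : (1 - (1 - 265 / 100 * x ^ 2)) * (1 - (1 - 265 / 100 * x ^ 2)) =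
      70225 / 10000 * x * x ^ 3 := by ring
    rw [this]
    exact mul_lt_mul_of_pos_right (by linarith) hx3
  · have : (1 - (1 - 265 / 100 * x ^ 2)) * (1 + 1495 / 1000 * x - 1) =
      396175 / 100000 * x ^ 3 := by ring
    rw [this]
    exact mul_lt_mul_of_pos_right (by norm_num) hx3
  intro e τ hA hτ
  have hA' := hA
  obtain ⟨a1, a2, a3, a4, a5, a6⟩ := hA'
  have hτ0 : 0 < τ := by linarith
  have hθ1 : 1 / 5 ≤ th - 5 * τ := by linarith
  have hθ2 : th - 5 * τ < 1 / 3 := by linarith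
  have hθ4 : th - 5 * τ < 1 / 4 := by linarith
  obtain ⟨ε0, hε0, hH⟩ := H_sum (th - 5 * τ) hθ1 hθ4.le
  set ε := min ε0 (1 / 1000000000000) with hε
  have hεp : 0 < ε := lt_min hε0 (by norm_num)
  have hε1 : ε ≤ 1 / 1000000000000 := min_le_right _ _
  have hεx : ε ≤ x ^ 2 / 10000000000 := by nlinarith
  have HT : EvN fun X n => ∑ k ∈ KT X n (th - 5 * τ), qn n k ≤
      67 / 100 * (1 - 3 * (th - 5 * τ)) ^ 2 := T_sumL _ hθ1 hθ2
  have HH : EvN fun X n => ∑ k ∈ KH X (th - 5 * τ) ε, qn n k ≤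
      65 / 100 * (1 - 3 * (th - 5 * τ)) ^ 2 := hH ε hεp (min_le_left _ _)
  have HE : EvN fun X n => ∑ p ∈ IY.PS X (th - 5 * τ) ((1 - (th - 5 * τ)) / 2),
      (Real.log p / Real.log X - (th - 5 * τ)) * qn n p ≤
      593 / 1000 * (1 - 3 * (th - 5 * τ)) ^ 2 := E_sumL _ hθ1 hθ4.le
  have HQ : EvN fun X n => ∑ k ∈ KQ X n (th - 5 * τ), qn n k ≤
      384 / 100 * (1 - 4 * (th - 5 * τ)) ^ 3 := Q4_sum _ hθ1 hθ4
  have hy : 1 - 3 * (th - 5 * τ) = x + 15 * τ := by rw [hx]; ring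
  have hs : 1 - 4 * (th - 5 * τ) = (4 * (x + 15 * τ) - 1) / 3 := by rw [hx]; ring
  rw [hy] at HT HH HE
  rw [hs] at HQ
  set y := x + 15 * τ with hyd
  have hyx : y ≤ x * (1 + 15 / 1000000) := by linarith
  have hyx2 : x ≤ y := by linarith
  have hy5 : y ≤ 2 / 5 := by rw [← hy]; linarith
  have hy0 : 0 < y := by linarith
  have hy2 : y ^ 2 ≤ x ^ 2 * (10001 / 10000) := by
    have h3 : y ^ 2 ≤ (x * (1 + 15 / 1000000)) ^ 2 := pow_le_pow_left₀ hy0.le hyx 2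
    nlinarith
  set s := (4 * y - 1) / 3 with hsd
  have hs0 : 0 ≤ s := by rw [hsd]; linarith
  have hs5 : s ≤ 1 / 5 := by rw [hsd]; linarith
  have hsy : s ≤ y / 2 := by rw [hsd]; linarith
  have hs3 : s ^ 3 ≤ y ^ 2 / 20 := by
    have h3 : s ^ 2 ≤ (y / 2) ^ 2 := pow_le_pow_left₀ hs0 hsy 2
    have h4 : s ^ 3 = s ^ 2 * s := by ring
    rw [h4]
    calc s ^ 2 * s ≤ (y / 2) ^ 2 * (1 / 5) := mul_le_mul h3 hs5 hs0 (by positivity)
      _ = y ^ 2 / 20 := by ring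
  have hβ : 1 - 3 * bI th e = x + 9 * e := by
    unfold bI
    rw [hx]
    ring
  have hβ4 : 1 - 4 * bI th e = (4 * x - 1) / 3 + 12 * e := by
    unfold bI
    rw [hx]
    ring
  have hc3 : 2 / (1 - 3 * bI th e) ≤ 2 / x := by
    rw [hβ]
    exact div_le_div_of_nonneg_left (by norm_num) (by linarith) (by linarith)
  have hc4 : 6 - 4 * (1 - 4 * bI th e) / (1 - 3 * bI th e) ≤ 8 / 5 / x := by
    rw [hβ, hβ4]
    have h3 : 4 * (4 * x - 1) / 3 / x ≤ 4 * ((4 * x - 1) / 3 + 12 * e) / (x + 9 * e) := by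
      rw [div_le_div_iff₀ (by linarith) (by linarith)]
      nlinarith
    have h4 : 6 - 4 * (4 * x - 1) / 3 / x ≤ 8 / 5 / x := by
      have h5 : 6 - 4 * (4 * x - 1) / 3 / x = (2 / 3 * x + 4 / 3) / x := by
        field_simp
        ring
      rw [h5]
      exact div_le_div_of_nonneg_right (by linarith) (by linarith)
    linarith
  refine nlh_gen th e τ hA ε _ _ _ _ _ _ hεp (by linarith) HT HH HE HQ ?_ ?_
  · linarith
  · have m1 : 2 / (1 - 3 * bI th e) * (593 / 1000 * y ^ 2 + 3 * ε) ≤ 11862 / 10000 * x := by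
      calc 2 / (1 - 3 * bI th e) * (593 / 1000 * y ^ 2 + 3 * ε)
          ≤ 2 / x * (5931 / 10000 * x ^ 2) :=
            mul_le_mul hc3 (by linarith) (by positivity) (by positivity)
        _ = 11862 / 10000 * x := by
            field_simp
            ring
    have m2 : (6 - 4 * (1 - 4 * bI th e) / (1 - 3 * bI th e)) * (384 / 100 * s ^ 3) ≤
        3074 / 10000 * x := by
      calc (6 - 4 * (1 - 4 * bI th e) / (1 - 3 * bI th e)) * (384 / 100 * s ^ 3)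
          ≤ 8 / 5 / x * (384 / 100 * s ^ 3) := mul_le_mul_of_nonneg_right hc4 (by positivity)
        _ ≤ 8 / 5 / x * (384 / 100 * (x ^ 2 * (10001 / 10000) / 20)) := by
            refine mul_le_mul_of_nonneg_left ?_ (by positivity)
            linarith
        _ = 30723072 / 100000000 * x := by
            field_simp
            ring
        _ ≤ 3074 / 10000 * x := by linarith
    linarith

/-- `1/4 < th` -/
theorem numL_high (th : ℝ) (h1 : 1 / 4 < th) (h2 : th < 1 / 3) : ∃ τ0 a b : ℝ, 0 < τ0 ∧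
    0 ≤ a ∧ a ≤ 1 ∧ 1 ≤ b ∧ (1 - a) * (1 - a) < 4 * (1 - 3 * th) ^ 3 ∧
    (1 - a) * (b - 1) < 4 * (1 - 3 * th) ^ 3 ∧
    ∀ e τ : ℝ, AdmX th e τ → τ ≤ τ0 → NumLA th e τ a b := by
  set x := 1 - 3 * th with hx
  have hx0 : 0 < x := by rw [hx]; linarith
  have hx4 : x < 1 / 4 := by rw [hx]; linarith
  have hx2 : 0 < x ^ 2 := by positivity
  have hx3 : 0 < x ^ 3 := by positivity
  refine ⟨min (x / 1000000) ((th - 1 / 4) / 20), 1 - 129 / 100 * x ^ 2, 1 + 126 / 100 * x,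
    lt_min (by positivity) (by linarith), by nlinarith, by nlinarith, by linarith, ?_, ?_, ?_⟩
  · have : (1 - (1 - 129 / 100 * x ^ 2)) * (1 - (1 - 129 / 100 * x ^ 2)) =
      16641 / 10000 * x * x ^ 3 := by ring
    rw [this]
    exact mul_lt_mul_of_pos_right (by linarith) hx3
  · have : (1 - (1 - 129 / 100 * x ^ 2)) * (1 + 126 / 100 * x - 1) =
      16254 / 10000 * x ^ 3 := by ring
    rw [this]
    exact mul_lt_mul_of_pos_right (by norm_num) hx3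
  intro e τ hA hτ
  have hτ1 := hτ.trans (min_le_left _ _)
  have hτ2 := hτ.trans (min_le_right _ _)
  have hA' := hA
  obtain ⟨a1, a2, a3, a4, a5, a6⟩ := hA'
  have hτ0 : 0 < τ := by linarith
  have hθ1 : 1 / 4 < th - 5 * τ := by linarith
  have hθ2 : th - 5 * τ < 1 / 3 := by linarith
  set ε := min (x ^ 2 / 10000000000) ((th - 1 / 4) / 2) with hε
  have hεp : 0 < ε := lt_min (by positivity) (by linarith)
  have hεx : ε ≤ x ^ 2 / 10000000000 := min_le_left _ _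
  have hεt : ε ≤ (th - 1 / 4) / 2 := min_le_right _ _
  have hxx : x ^ 2 ≤ x / 4 := by nlinarith
  have HT : EvN fun X n => ∑ k ∈ KT X n (th - 5 * τ), qn n k ≤
      64 / 100 * (1 - 3 * (th - 5 * τ)) ^ 2 := T_sum _ hθ1.le hθ2
  have HH := H_zero (th - 5 * τ) ε (by linarith)
  have HE : EvN fun X n => ∑ p ∈ IY.PS X (th - 5 * τ) ((1 - (th - 5 * τ)) / 2),
      (Real.log p / Real.log X - (th - 5 * τ)) * qn n p ≤
      62 / 100 * (1 - 3 * (th - 5 * τ)) ^ 2 := E_sum _ hθ1.le hθ2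
  have HQ := Q_zero (th - 5 * τ) hθ1
  have hy : 1 - 3 * (th - 5 * τ) = x + 15 * τ := by rw [hx]; ring
  rw [hy] at HT HE
  set y := x + 15 * τ with hyd
  have hyx : y ≤ x * (1 + 15 / 1000000) := by linarith
  have hy0 : 0 < y := by linarith
  have hy2 : y ^ 2 ≤ x ^ 2 * (10001 / 10000) := by
    have h3 : y ^ 2 ≤ (x * (1 + 15 / 1000000)) ^ 2 := pow_le_pow_left₀ hy0.le hyx 2
    nlinarith
  have hβ : 1 - 3 * bI th e = x + 9 * e := by
    unfold bI
    rw [hx]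
    ring
  have hc3 : 2 / (1 - 3 * bI th e) ≤ 2 / x := by
    rw [hβ]
    exact div_le_div_of_nonneg_left (by norm_num) (by linarith) (by linarith)
  refine nlh_gen th e τ hA ε _ _ _ _ _ _ hεp (by linarith) HT HH HE HQ ?_ ?_
  · linarith
  · have m1 : 2 / (1 - 3 * bI th e) * (62 / 100 * y ^ 2 + 3 * ε) ≤ 1241 / 1000 * x := by
      calc 2 / (1 - 3 * bI th e) * (62 / 100 * y ^ 2 + 3 * ε)
          ≤ 2 / x * (6205 / 10000 * x ^ 2) :=
            mul_le_mul hc3 (by linarith) (by positivity) (by positivity)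
        _ = 1241 / 1000 * x := by
            field_simp
            ring
    linarith

/-- **the numerics for Theorem L** -/
theorem numL : NumL 4 := by
  intro th h1 h2
  rcases le_or_gt th (1 / 4) with h | h
  · exact numL_low th h1 h
  · exact numL_high th h h2

end Pool.MP_dd84fd_nt.LX
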