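import Pool.Agent.Lib.MP_dd84fd_nt.LX.LScale
import Pool.Agent.Lib.MP_dd84fd_nt.LX.FaFin
import Pool.Agent.Lib.MP_dd84fd_nt.LX.STr
import Pool.Agent.Lib.MP_dd84fd_nt.LX.Gr
import Pool.Agent.Lib.MP_dd84fd_nt.LX.Cen
import Pool.Agent.Lib.MP_dd84fd_nt.LX.PlAll
import Pool.Agent.Lib.MP_dd84fd_nt.LX.DcW
import Pool.Agent.Lib.MP_dd84fd_nt.LX.NLh

/-!
# Theorem L
-/

set_option autoImplicit false

namespace Pool.MP_dd84fd_nt.LX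

/-- The uniform analytic input for pairs of families. -/
theorem genL : GenL :=
  gen_l Pool.MP_dd84fd_nt.JX.strWJ tree_l_all Pool.MP_dd84fd_nt.LXP.plL greedy_l centre_l

/-- Theorem L -/
theorem fin_l : ∃ C : ℕ, ∀ θ ε : ℝ,
    1 / 5 ≤ θ → θ < 1 / 3 → 0 < ε → ∀ K : ℕ, ∃ X0 : ℕ, ∀ X : ℕ, X0 ≤ X → ∃ D : Finset ℕ,
      (D.card : ℝ) ≤ (Real.log X) ^ C ∧
      (∀ d ∈ D, (Real.log X) ^ K ≤ (d : ℝ) ∧ (d : ℝ) ≤ (X : ℝ) ^ (1 - θ)) ∧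
      ∀ P : ℕ → Prop, ∀ _ : DecidablePred P,
        (∀ n, P n → Even n ∧ (∀ d ∈ D, (d : ℝ) ≤ (n : ℝ) ^ (1 - θ) → ¬ d ∣ n) ∧
          BadL 4 θ n) →
        (((Finset.Icc 1 X).filter P).card : ℝ) ≤ (X : ℝ) ^ (θ + ε) :=
  finL 4 (by norm_num) genL decPW numL

end Pool.MP_dd84fd_nt.LX
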