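import Pool.Agent.Lib.MP_dd84fd_nt.JX.FaDisc
import Pool.Agent.Lib.MP_dd84fd_nt.HX.FaRiem
import Pool.Agent.Lib.MP_dd84fd_nt.LX.FaFacts

/-!
# LX-FaArcs: the structured part is a sum of integrals over discs (copy of JX-FaArcs)
-/

set_option autoImplicit false

namespace Pool.MP_dd84fd_nt.LX

open Finset Pool.MP_67663b_nt.Odd Pool.MP_dd84fd_nt.En Pool.MP_dd84fd_nt.E2 Pool.MP_dd84fd_nt.LS
  Pool.MP_dd84fd_nt.GX Pool.MP_dd84fd_nt.HX Pool.MP_dd84fd_nt.IX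

open Pool.MP_dd84fd_nt.L2G (nrm)

open Pool.MP_dd84fd_nt.PL (rr)

open Pool.MP_dd84fd_nt.JX (Adm qq_factsJ disc_sumJ)

private theorem faarcs_pair (F : ℝ → ℂ) (X : ℕ) (hX : 2 ≤ X) (hper : ∀ x, F (x + 1) = F x)
    (hF : ∀ x y, ‖F x - F y‖ ≤ (X : ℝ) ^ 4 * |x - y|) (hM : ∀ x, ‖F x‖ ≤ (X : ℝ) ^ 3)
    (G : ℕ) [NeZero G] (hG : X ^ 10 ≤ G) (QQ : Finset ℕ) (r : ℕ → ℝ)
    (hq : ∀ q ∈ QQ, (q : ℝ) ≤ X ∧ 0 ≤ r q ∧ 2 * (r q / X) < 1) (hc : (QQ.card : ℝ) ≤ X) :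
    ‖(1 / (G : ℂ)) * ∑ j : ZMod G, (∑ q ∈ QQ, ∑ a ∈ rr q, din ((a : ℝ) / q) (r q / X) (al G j)) *
      F (al G j) - ∑ q ∈ QQ, dsc F X q (r q)‖ ≤ 1 := by
  have hX0 : (0 : ℝ) < X := by
    have : 0 < X := by omega
    exact_mod_cast this
  have hX2 : (2 : ℝ) ≤ X := by exact_mod_cast hX
  have hGR : (X : ℝ) ^ 10 ≤ G := by exact_mod_cast hG
  have hG0 : (0 : ℝ) < G := lt_of_lt_of_le (by positivity) hGR
  have e1 : (1 / (G : ℂ)) * ∑ j : ZMod G,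
      (∑ q ∈ QQ, ∑ a ∈ rr q, din ((a : ℝ) / q) (r q / X) (al G j)) * F (al G j) =
      ∑ q ∈ QQ, ∑ a ∈ rr q, (1 / (G : ℂ)) * ∑ j : ZMod G,
        din ((a : ℝ) / q) (r q / X) (al G j) * F (al G j) := by
    have : ∀ j : ZMod G, (∑ q ∈ QQ, ∑ a ∈ rr q, din ((a : ℝ) / q) (r q / X) (al G j)) *
        F (al G j) = ∑ q ∈ QQ, ∑ a ∈ rr q, din ((a : ℝ) / q) (r q / X) (al G j) * F (al G j) := by
      intro j
      rw [sum_mul]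
      exact sum_congr rfl fun q _ => by rw [sum_mul]
    simp_rw [this]
    rw [sum_comm, mul_sum]
    refine sum_congr rfl fun q _ => ?_
    rw [sum_comm, mul_sum]
  rw [e1, ← sum_sub_distrib]
  unfold dsc
  have e2 : ∀ q ∈ QQ, ‖(∑ a ∈ rr q, (1 / (G : ℂ)) * ∑ j : ZMod G,
        din ((a : ℝ) / q) (r q / X) (al G j) * F (al G j)) -
      ∑ a ∈ rr q, ∫ x in (-(r q / X))..(r q / X), F ((a : ℝ) / q + x)‖ ≤
      X * (((X : ℝ) ^ 4 * 2 + 3 * (X : ℝ) ^ 3) / G) := by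
    intro q hqq
    obtain ⟨h1, h2, h3⟩ := hq q hqq
    rw [← sum_sub_distrib]
    refine (norm_sum_le _ _).trans ?_
    have h5 : ∀ a ∈ rr q, ‖(1 / (G : ℂ)) * ∑ j : ZMod G,
        din ((a : ℝ) / q) (r q / X) (al G j) * F (al G j) -
        ∫ x in (-(r q / X))..(r q / X), F ((a : ℝ) / q + x)‖ ≤
          ((X : ℝ) ^ 4 * 2 + 3 * (X : ℝ) ^ 3) / G := fun a _ =>
      grid_disc F ((X : ℝ) ^ 4) ((X : ℝ) ^ 3) hper hF hM G ((a : ℝ) / q) (r q / X)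
        (by positivity) h3
    refine (sum_le_sum h5).trans ?_
    rw [sum_const, nsmul_eq_mul]
    refine mul_le_mul_of_nonneg_right ?_ (by positivity)
    have h4 : (rr q).card ≤ q := by
      unfold rr
      refine (card_filter_le _ _).trans ?_
      rw [card_range]
    calc ((rr q).card : ℝ) ≤ q := by exact_mod_cast h4
      _ ≤ X := h1
  refine (norm_sum_le _ _).trans ((sum_le_sum e2).trans ?_)
  rw [sum_const, nsmul_eq_mul]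
  have e3 : (QQ.card : ℝ) * (X * (((X : ℝ) ^ 4 * 2 + 3 * (X : ℝ) ^ 3) / G)) ≤
      X * (X * (((X : ℝ) ^ 4 * 2 + 3 * (X : ℝ) ^ 3) / G)) :=
    mul_le_mul_of_nonneg_right hc (by positivity)
  refine e3.trans ?_
  have e4 : (X : ℝ) * (X * (((X : ℝ) ^ 4 * 2 + 3 * (X : ℝ) ^ 3) / G)) =
      (X ^ 2 * ((X : ℝ) ^ 4 * 2 + 3 * (X : ℝ) ^ 3)) / G := by ring
  rw [e4, div_le_one hG0]
  refine le_trans ?_ hGR
  have e5 : (X : ℝ) ^ 2 * ((X : ℝ) ^ 4 * 2 + 3 * (X : ℝ) ^ 3) = (X : ℝ) ^ 5 * (2 * X + 3) := by ring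
  have e6 : (X : ℝ) ^ 10 = (X : ℝ) ^ 5 * X ^ 5 := by ring
  rw [e5, e6]
  refine mul_le_mul_of_nonneg_left ?_ (by positivity)
  have e7 : (16 : ℝ) ≤ (X : ℝ) ^ 4 := by
    calc (16 : ℝ) = 2 ^ 4 := by norm_num
      _ ≤ (X : ℝ) ^ 4 := pow_le_pow_left₀ (by norm_num) hX2 4
  have e8 : (X : ℝ) ^ 5 = X ^ 4 * X := by ring
  rw [e8]
  nlinarith

private theorem faarcs_y3 : ∃ X0 : ℕ, ∀ X : ℕ, X0 ≤ X → ∀ th e τ : ℝ, Adm th e τ →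
    2 * y3 (dl th e) X < X := by
  refine ⟨1025, fun X hX th e τ hA => ?_⟩
  obtain ⟨hA1, hA2, hA3, hA4, hA5⟩ := hA
  have hX17 : (1025 : ℝ) ≤ X := by exact_mod_cast hX
  have hX0 : (0 : ℝ) < X := by linarith
  have hX1 : (1 : ℝ) ≤ X := by linarith
  have h1 : 2 * (X : ℝ) ^ (9 / 10 : ℝ) < X := by
    have h2 : (2 : ℝ) < (X : ℝ) ^ (1 / 10 : ℝ) := by
      have h3 : ((1024 : ℝ)) ^ (1 / 10 : ℝ) < (X : ℝ) ^ (1 / 10 : ℝ) :=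
        Real.rpow_lt_rpow (by norm_num) (by linarith) (by norm_num)
      have h4 : ((1024 : ℝ)) ^ (1 / 10 : ℝ) = 2 := by
        rw [show (1024 : ℝ) = 2 ^ (10 : ℝ) by norm_num, ← Real.rpow_mul (by norm_num)]
        norm_num
      rwa [h4] at h3
    calc 2 * (X : ℝ) ^ (9 / 10 : ℝ) < (X : ℝ) ^ (1 / 10 : ℝ) * (X : ℝ) ^ (9 / 10 : ℝ) :=
          mul_lt_mul_of_pos_right h2 (Real.rpow_pos_of_pos hX0 _)
      _ = X := by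
          rw [← Real.rpow_add hX0]
          norm_num
  rw [y3_dl]
  refine lt_of_le_of_lt ?_ h1
  have : (X : ℝ) ^ (1 - th + 3 * e) ≤ (X : ℝ) ^ (9 / 10 : ℝ) :=
    Real.rpow_le_rpow_of_exponent_le hX1 (by linarith)
  linarith

theorem phU_discs (K0 C1 : ℕ) (ww1 gg1 ww2 gg2 : ℕ → ℕ → ℝ) (hW1 : W1 K0 C1 ww1 gg1)
    (hW2 : W1 K0 C1 ww2 gg2) (th e τ : ℝ) (hA : Adm th e τ) (D' : ℕ) : ∃ X0 : ℕ, ∀ X : ℕ, X0 ≤ X →
    ∀ s1 s2 : ℝ, |s1| ≤ 1 → |s2| ≤ 1 →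
    ∀ (Λ : ℕ) (bb : ℝ), 1 ≤ Λ → 1 ≤ bb → Λ * bb ≤ 2 * (X : ℝ) ^ (1 - th + e) →
    ∀ (G : ℕ) [NeZero G], X ^ 10 ≤ G → ∀ n : ℕ, n ≤ X →
    ‖PhU G X (tr G X (cfI ww1 gg1 s1 (wX D' X) X)) (cfI ww2 gg2 s2 (wX D' X) X)
        (fun j => 1 - wSI G th e X Λ bb j) n -
      ∑ q ∈ QQi th e X Λ, dsc (FFL ww1 gg1 s1 ww2 gg2 s2 (wX D' X) X n) X q
        (rdi th e X Λ bb q)‖ ≤ 1 := by
  obtain ⟨X1, hX1⟩ := qq_factsJ th e τ hA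
  obtain ⟨X2, hX2⟩ := disc_sumJ th e τ hA
  obtain ⟨X3, hX3⟩ := ffl_facts K0 C1 ww1 gg1 ww2 gg2 hW1 hW2 D'
  obtain ⟨X4, hX4⟩ := faarcs_y3
  refine ⟨max (max X1 X2) (max (max X3 X4) 2),
    fun X hX s1 s2 hs1 hs2 Λ bb hΛ hb hlb G _ hG n hn => ?_⟩
  have h1 : X1 ≤ X := by omega
  have h2 : X2 ≤ X := by omega
  have h3 : X3 ≤ X := by omega
  have h4 : X4 ≤ X := by omega
  have h5 : 2 ≤ X := by omega
  obtain ⟨q1, _, q3, _⟩ := hX1 X h1 Λ bb hΛ hb hlb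
  have hd := hX2 X h2 Λ bb hΛ hb hlb G
  obtain ⟨f1, f2, f3⟩ := hX3 X h3 s1 s2 hs1 hs2 n hn
  have hy := hX4 X h4 th e τ hA
  have hX0 : (0 : ℝ) < X := by
    have : 0 < X := by omega
    exact_mod_cast this
  have hX11 : (1 : ℝ) ≤ X := by
    have : 1 ≤ X := by omega
    exact_mod_cast this
  have eq0 : PhU G X (tr G X (cfI ww1 gg1 s1 (wX D' X) X)) (cfI ww2 gg2 s2 (wX D' X) X)
      (fun j => 1 - wSI G th e X Λ bb j) n =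
      (1 / (G : ℂ)) * ∑ j : ZMod G, (∑ q ∈ QQi th e X Λ, ∑ a ∈ rr q,
        din ((a : ℝ) / q) (rdi th e X Λ bb q / X) (al G j)) *
          FFL ww1 gg1 s1 ww2 gg2 s2 (wX D' X) X n (al G j) := by
    unfold PhU
    congr 1
    refine sum_congr rfl fun j _ => ?_
    rw [← hd j, ← ffl_grid]
    ring
  rw [eq0]
  refine faarcs_pair (FFL ww1 gg1 s1 ww2 gg2 s2 (wX D' X) X n) X h5 f1 f2 f3 G hG (QQi th e X Λ)
    (fun q => rdi th e X Λ bb q) ?_ ?_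
  · intro q hq
    obtain ⟨g1, g2, g3, _⟩ := q1 q hq
    have g1r : (1 : ℝ) ≤ q := by exact_mod_cast g1
    have g4 : (q : ℝ) ≤ y3 (dl th e) X := by nlinarith
    have g5 : rdi th e X Λ bb q ≤ y3 (dl th e) X := by nlinarith
    have g6 : (0 : ℝ) < y3 (dl th e) X := by linarith
    refine ⟨by linarith, by linarith, ?_⟩
    rw [← mul_div_assoc, div_lt_one hX0]
    linarith
  · refine q3.trans ?_
    calc (X : ℝ) ^ (e / 2) ≤ (X : ℝ) ^ (1 : ℝ) :=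
          Real.rpow_le_rpow_of_exponent_le hX11
            (by linarith [hA.1, hA.2.1, hA.2.2.1, hA.2.2.2.1, hA.2.2.2.2])
      _ = X := Real.rpow_one _

end Pool.MP_dd84fd_nt.LX
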