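import Pool.Agent.Lib.MP_dd84fd_nt.LX.LFab

/-!
# LX-LLow: the lower bound for `g` from a minorant

`g ≥ 2 P * A - A * A` (up to small primes), because `(P - A) * (P - A) ≥ 0`; the main term is
`p * p - (p - α) * (p - α)` for the densities `α ≤ p`.
-/

set_option autoImplicit false

namespace Pool.MP_dd84fd_nt.LX

open Finset Pool.MP_67663b_nt.Odd Pool.MP_dd84fd_nt.En Pool.MP_dd84fd_nt.E2 Pool.MP_dd84fd_nt.HX
  Pool.MP_dd84fd_nt.IX Pool.MP_dd84fd_nt.IY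
open Pool.MP_dd84fd_nt.JX (wP gP wP_nonneg wP_le_one fI_gP)

/-- a minorant: `1` at the types with one box, `≤ 0` at the others -/
def TyMA (κ : ℝ) (X : ℕ) (A : Finset ℕ → ℝ) : Prop :=
  ∀ T : Finset ℕ, X5 X / 2 ≤ US κ (zt X) T → US κ (zt X) T ≤ X →
    (T.card = 1 → A T = 1) ∧ (2 ≤ T.card → A T ≤ 0)

/-- a minorant and the type function of the primes -/
theorem TyMA.ml {κ : ℝ} {X : ℕ} {A : Finset ℕ → ℝ} (h : TyMA κ X A) : TyML κ X A PT := by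
  intro T h1 h2
  obtain ⟨a1, a2⟩ := h T h1 h2
  refine ⟨fun hc => ⟨a1 hc, if_pos hc⟩, fun hc => ⟨a2 hc, ?_⟩⟩
  have hne : ¬ T.card = 1 := by omega
  have h3 : PT T = 0 := if_neg hne
  rw [h3]

theorem final_lo (B' : ℕ) (hB : 1 ≤ B') (a δ : ℝ) (hδ : 0 < δ) (ha : 0 ≤ a) (ha1 : a ≤ 1) :
    ∃ D0 : ℕ, ∀ D' : ℕ, D0 ≤ D' → ∃ X0 : ℕ, ∀ X : ℕ, X0 ≤ X →
    ∀ A : Finset ℕ → ℝ, TyMA (kp B' X) X A → (∀ T, |A T| ≤ 2 ^ 24) →
    (∀ n : ℕ, X5 X < n → n ≤ X → a ≤ Real.log n * gty (kp B' X) X A n) →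
    ∀ n : ℕ, X < 2 * n → n ≤ X → Even n → ClP B' D' X A n → Cl2 B' D' X A A n →
      (1 - (1 - a) ^ 2 - δ) * (SS n * JJ n) ≤ g n := by
  classical
  obtain ⟨D1, hD1⟩ := main_lo 1 (1 - a) (δ / 4) (by linarith) zero_le_one (by linarith)
  obtain ⟨D4, hD4⟩ := f2_diff B' hB 1 1 zero_le_one one_pos
  refine ⟨max D1 D4, fun D' hD' => ?_⟩
  simp only [max_le_iff] at hD'
  obtain ⟨k1, k4⟩ := hD'
  obtain ⟨X1, hX1⟩ := hD1 D' k1
  obtain ⟨X4, hX4⟩ := hD4 D' k4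
  obtain ⟨Y1, hY1⟩ := gty_PT B' hB
  obtain ⟨Y2, hY2⟩ := gty_AB B' hB
  obtain ⟨Y3, hY3⟩ := wty_AB B' hB
  obtain ⟨Y4, hY4⟩ := JJ_ge
  obtain ⟨Y5, hY5⟩ := IY.X5_ge
  obtain ⟨Y6, hY6⟩ := cvv_wP_pI (2 ^ 24) (by norm_num)
  obtain ⟨c0, hc⟩ : ∃ c0 : ℝ, c0 = 2 * C2 := ⟨_, rfl⟩
  have hc0 : 0 < c0 := by have := C2_pos; rw [hc]; positivity
  obtain ⟨Y7, hY7⟩ := MP_log_large (2 ^ 33 / (δ * c0) + 1)
  refine ⟨max (max X1 X4) (max (max (max Y1 Y2) (max Y3 Y4)) (max (max Y5 Y6) (max Y7 2))),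
    fun X hX A hT0 hbd hden n hn hnX hne hPA hAA => ?_⟩
  simp only [max_le_iff] at hX
  obtain ⟨⟨x1, x4⟩, ⟨⟨y1, y2⟩, y3, y4⟩, ⟨y5, y6⟩, y7, y8⟩ := hX
  have hT := hT0.ml
  have hX0 : (0 : ℝ) < X := by exact_mod_cast (by omega : 0 < X)
  obtain ⟨hz, hX5X⟩ := hY5 X y5
  have hz1 : (1 : ℝ) ≤ X5 X := by
    have : (0 : ℝ) ≤ (zt X : ℝ) := Nat.cast_nonneg _
    linarith
  -- densities
  have hzero : ∀ (W : Finset ℕ → ℝ) (m : ℕ), (m : ℝ) ≤ X5 X → gty (kp B' X) X W m = 0 := by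
    intro W m hm
    have hcon : ¬ (X5 X < m ∧ m ≤ X) := fun h => absurd h.1 (not_lt.2 hm)
    unfold gty
    rw [if_neg hcon]
  have hval : ∀ m : ℕ, X5 X < m → m ≤ X → 0 < Real.log (m : ℝ) ∧
      Real.log m * gty (kp B' X) X PT m = 1 ∧
      gty (kp B' X) X A m ≤ gty (kp B' X) X PT m ∧ 0 ≤ gty (kp B' X) X A m := by
    intro m h1 h2
    have hl : 0 < Real.log (m : ℝ) := Real.log_pos (lt_of_le_of_lt hz1 h1)
    have h3 := hY1 X y1 m h1 h2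
    obtain ⟨h4, -⟩ := hY2 X y2 A PT hT m h1 h2
    have h6 := hden m h1 h2
    refine ⟨hl, ?_, ?_, ?_⟩
    · rw [h3]
      field_simp
    · rw [h3]; exact h4
    · by_contra hcon
      have := mul_neg_of_pos_of_neg hl (not_le.1 hcon)
      linarith
  -- main terms
  have m1 := hX1 X x1 (gty (kp B' X) X PT)
    (fun m => gty (kp B' X) X PT m - gty (kp B' X) X A m)
    (fun m h1 h2 => by
      obtain ⟨v0, v1, v2, v4⟩ := hval m h1 h2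
      have h6 := hden m h1 h2
      refine ⟨v1.ge, by linarith, ?_⟩
      rw [mul_sub, v1]
      linarith)
    (fun m h1 => ⟨hzero _ m h1, by rw [hzero _ m h1, hzero _ m h1, sub_zero]⟩) n hn hnX hne
  have m4 := hX4 X x4 (gty (kp B' X) X A)
    (fun m h1 h2 => by
      obtain ⟨v0, v1, v2, v4⟩ := hval m h1 h2
      refine ⟨v4, ?_⟩
      rw [← v1]
      exact mul_le_mul_of_nonneg_left v2 v0.le)
    (fun m h1 => hzero _ m h1) n hn hnX hne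
  -- numbers
  obtain ⟨n1, -⟩ := vec_l (pI X) (wty (kp B' X) X A) (wty (kp B' X) X PT) (hY3 X y3 A PT hT) n
  have hwb : ∀ m, |wty (kp B' X) X A m| ≤ 2 ^ 24 := by
    intro m
    unfold wty
    split_ifs
    · exact hbd _
    · rw [abs_zero]; norm_num
  have n3 := hY6 X y6 _ hwb n hnX
  have n5 := pI_le_g X n
  -- circle method
  unfold ClP at hPA
  unfold Cl2 at hAA
  have hfp : (fI gP X (wX D' X)) = f2 (wX D' X) := funext fun m => fI_gP X (wX D' X) m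
  rw [hfp] at hPA
  obtain ⟨w, hw⟩ : ∃ w : ℕ, w = wX D' X := ⟨_, rfl⟩
  rw [← hw] at hPA hAA m1 m4
  obtain ⟨p, hp⟩ : ∃ p : ℕ → ℝ, p = fun m => gty (kp B' X) X PT m * f1 w m := ⟨_, rfl⟩
  obtain ⟨α, hα⟩ : ∃ α : ℕ → ℝ, α = fun m => gty (kp B' X) X A m * f1 w m := ⟨_, rfl⟩
  have e1 : (fun m => (gty (kp B' X) X PT m - gty (kp B' X) X A m) * f1 w m) =
      fun m => p m - α m := by
    rw [hp, hα]
    funext m
    ring
  rw [e1, ← hp, cvv_sub2, cvv_comm α p] at m1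
  rw [← hp, ← hα] at m4
  rw [← hα] at hPA hAA
  -- the error term
  have hL := hY7 X y7
  have hSS : c0 ≤ SS n := by rw [hc]; exact SS_ge n
  have hJJ := hY4 X y4 n hn hnX
  have hX5e : X5 X = X / (Real.log (X : ℝ)) ^ 5 := rfl
  rw [hX5e] at n3 hz1
  obtain ⟨L, hLd⟩ : ∃ L : ℝ, L = Real.log (X : ℝ) := ⟨_, rfl⟩
  rw [← hLd] at n3 hz1 hL hJJ hPA hAA
  have h1600 : 0 < 2 ^ 33 / (δ * c0) := by positivity
  have hL1 : 1 ≤ L := by linarith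
  have hL0 : 0 < L := by linarith
  have hnr : (X : ℝ) < 2 * n := by exact_mod_cast hn
  have hJ2 : X / (16 * L ^ 2) ≤ JJ n := by
    refine le_trans ?_ hJJ
    rw [div_le_div_iff₀ (by positivity) (by positivity)]
    have h12 : 0 < L ^ 2 := by positivity
    nlinarith
  have hJ0 : 0 ≤ JJ n := le_trans (by positivity) hJ2
  have herr : 2 ^ 27 * (X / L ^ 5) ≤ δ / 4 * (SS n * JJ n) := by
    have e1 : c0 * (X / (16 * L ^ 2)) ≤ SS n * JJ n :=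
      mul_le_mul hSS hJ2 (by positivity) (hc0.le.trans hSS)
    have e2 : 2 ^ 27 * (X / L ^ 5) ≤ δ / 4 * (c0 * (X / (16 * L ^ 2))) := by
      have e3 : δ / 4 * (c0 * (X / (16 * L ^ 2))) =
          (δ * c0 * L ^ 3 / 2 ^ 33) * (2 ^ 27 * (X / L ^ 5)) := by
        field_simp
        norm_num
      rw [e3]
      have e4 : 1 ≤ δ * c0 * L ^ 3 / 2 ^ 33 := by
        rw [le_div_iff₀ (by norm_num), one_mul]
        have e5 : 2 ^ 33 / (δ * c0) ≤ L ^ 3 := by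
          calc 2 ^ 33 / (δ * c0) ≤ L := by linarith
            _ = L ^ 1 := (pow_one L).symm
            _ ≤ L ^ 3 := pow_le_pow_right₀ hL1 (by norm_num)
        rw [div_le_iff₀ (by positivity)] at e5
        linarith
      exact le_mul_of_one_le_left (by positivity) e4
    have e6 : δ / 4 * (c0 * (X / (16 * L ^ 2))) ≤ δ / 4 * (SS n * JJ n) :=
      mul_le_mul_of_nonneg_left e1 (by linarith)
    linarith
  obtain ⟨V, hV⟩ : ∃ V : ℝ, V = SS n * JJ n := ⟨_, rfl⟩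
  obtain ⟨Q, hQ⟩ : ∃ Q : ℝ, Q = X / L ^ 5 := ⟨_, rfl⟩
  rw [← hV] at m1 herr ⊢
  have m4l := m4.1
  rw [← hQ] at herr n3 hz1 hPA hAA
  have b1 := abs_le.1 hPA
  have b3 := abs_le.1 hAA
  have b5 := abs_le.1 n3
  have hV0 : 0 ≤ δ / 4 * V := by
    have : (0 : ℝ) ≤ 2 ^ 27 * Q := by linarith
    linarith
  have f1 : (1 - (1 - a) ^ 2 - δ) * V = (1 ^ 2 - (1 - a) ^ 2 - δ / 4) * V -
      3 * (δ / 4 * V) := by ring
  rw [f1]
  linarith [b1.1, b3.2, b5.1, b5.2, m4l]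

end Pool.MP_dd84fd_nt.LX
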