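import Pool.Agent.Lib.MP_dd84fd_nt.IY.CDen
import Pool.Agent.Lib.MP_dd84fd_nt.IY.CCl
import Pool.Agent.Lib.MP_dd84fd_nt.IY.CMn2
import Pool.Agent.Lib.MP_dd84fd_nt.IY.CFab

/-!
# LX-LMn: densities and main terms for a minorant and a majorant

`TyML κ X A B`: the type functions `A`, `B` are `1` at the types with one box and `A ≤ 0 ≤ B` at the
others. `PT`: the type function of the primes. `main_up2`: upper bound for the main term with two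
different functions.
-/

set_option autoImplicit false

namespace Pool.MP_dd84fd_nt.LX

open Finset Pool.MP_67663b_nt.Odd Pool.MP_dd84fd_nt.En Pool.MP_dd84fd_nt.E2 Pool.MP_dd84fd_nt.HX
  Pool.MP_dd84fd_nt.IY

/-- the hypotheses on the types -/
def TyML (κ : ℝ) (X : ℕ) (A B : Finset ℕ → ℝ) : Prop :=
  ∀ T : Finset ℕ, X5 X / 2 ≤ US κ (zt X) T → US κ (zt X) T ≤ X →
    (T.card = 1 → A T = 1 ∧ B T = 1) ∧ (2 ≤ T.card → A T ≤ 0 ∧ 0 ≤ B T)

/-- the type function of the primes -/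
def PT (T : Finset ℕ) : ℝ := if T.card = 1 then 1 else 0

theorem tyL_A {κ : ℝ} {X : ℕ} {A B : Finset ℕ → ℝ} (h : TyML κ X A B) :
    TyCL κ X A (fun T => PT T - A T) := by
  intro T h1 h2
  obtain ⟨a1, a2⟩ := h T h1 h2
  refine ⟨fun hc => ?_, fun hc => ?_⟩
  · obtain ⟨b1, -⟩ := a1 hc
    have h3 : PT T = 1 := if_pos hc
    show A T = 1 ∧ PT T - A T = 0
    rw [h3, b1]
    norm_num
  · obtain ⟨b1, -⟩ := a2 hc
    have hne : ¬ T.card = 1 := by omega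
    have h3 : PT T = 0 := if_neg hne
    show A T ≤ 0 ∧ 0 ≤ A T + (PT T - A T) ∧ 0 ≤ PT T - A T
    rw [h3]
    exact ⟨b1, by linarith, by linarith⟩

theorem tyL_B {κ : ℝ} {X : ℕ} {A B : Finset ℕ → ℝ} (h : TyML κ X A B) :
    TyCL κ X PT (fun T => B T - PT T) := by
  intro T h1 h2
  obtain ⟨a1, a2⟩ := h T h1 h2
  refine ⟨fun hc => ?_, fun hc => ?_⟩
  · obtain ⟨-, b1⟩ := a1 hc
    have h3 : PT T = 1 := if_pos hc
    show PT T = 1 ∧ B T - PT T = 0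
    rw [h3, b1]
    norm_num
  · obtain ⟨-, b1⟩ := a2 hc
    have hne : ¬ T.card = 1 := by omega
    have h3 : PT T = 0 := if_neg hne
    show PT T ≤ 0 ∧ 0 ≤ PT T + (B T - PT T) ∧ 0 ≤ B T - PT T
    rw [h3]
    exact ⟨le_rfl, by linarith, by linarith⟩

theorem gty_PT (B' : ℕ) (hB : 1 ≤ B') : ∃ X0 : ℕ, ∀ X : ℕ, X0 ≤ X → ∀ n : ℕ, X5 X < n → n ≤ X →
    gty (kp B' X) X PT n = 1 / Real.log n := by
  classical
  obtain ⟨X2, hX2⟩ := us_v B' hB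
  obtain ⟨X3, hX3⟩ := X5_ge
  refine ⟨max X2 (max X3 1), fun X hX n hn5 hnX => ?_⟩
  simp only [max_le_iff] at hX
  obtain ⟨hXX2, hXX3, hX1'⟩ := hX
  obtain ⟨h5, -⟩ := hX3 X hXX3
  have hsimp : Simp (kp B' X) (zt X) 1 := by
    refine ⟨⟨one_ne_zero, ?_⟩, squarefree_one, ?_⟩
    · intro p hp
      simp at hp
    · intro p hp
      simp at hp
  have hty : ty (kp B' X) (zt X) 1 = ∅ := by
    unfold ty
    simp
  have hn1 : (zt X : ℝ) ≤ (n : ℝ) / (1 : ℕ) := by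
    rw [Nat.cast_one, div_one]
    linarith
  have hall : ∀ j ∈ ty (kp B' X) (zt X) 1, j < bx (kp B' X) (zt X) ((n : ℝ) / (1 : ℕ)) := by
    rw [hty]
    intro j hj
    simp at hj
  obtain ⟨-, -, h3⟩ := hX2 X hXX2 n 1 hn5 hnX le_rfl hsimp hn1 hall
  have h3' : (insert (bx (kp B' X) (zt X) ((n : ℝ) / (1 : ℕ))) (ty (kp B' X) (zt X) 1)).card
      = 1 := by
    rw [h3]
    simp
  have hone : vty (kp B' X) (zt X) PT ((n : ℝ) / (1 : ℕ)) 1 /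
      ((1 : ℕ) * Real.log ((n : ℝ) / (1 : ℕ))) = 1 / Real.log n := by
    unfold vty
    rw [if_pos ⟨hsimp, hn1, hall⟩]
    unfold PT
    rw [if_pos h3', Nat.cast_one, div_one, one_mul]
  unfold gty
  rw [if_pos ⟨hn5, hnX⟩, ← hone]
  refine Finset.sum_eq_single (f := fun k : ℕ => vty (kp B' X) (zt X) PT ((n : ℝ) / k) k /
    (k * Real.log ((n : ℝ) / k))) 1 ?_ ?_
  · intro k hk hk1
    rw [mem_Icc] at hk
    show vty (kp B' X) (zt X) PT ((n : ℝ) / k) k / (k * Real.log ((n : ℝ) / k)) = 0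
    unfold vty
    by_cases hc : Simp (kp B' X) (zt X) k ∧ (zt X : ℝ) ≤ (n : ℝ) / k ∧
        ∀ j ∈ ty (kp B' X) (zt X) k, j < bx (kp B' X) (zt X) ((n : ℝ) / k)
    · rw [if_pos hc]
      obtain ⟨-, -, h6⟩ := hX2 X hXX2 n k hn5 hnX hk.1 hc.1 hc.2.1 hc.2.2
      have h7 : 0 < k.primeFactors.card := by
        rw [card_pos]
        exact Nat.nonempty_primeFactors.2 (by omega)
      unfold PT
      rw [if_neg (by rw [h6]; omega), zero_div]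
    · rw [if_neg hc, zero_div]
  · intro h
    exact absurd (mem_Icc.2 ⟨le_rfl, hX1'⟩) h

/-- the densities: `gty A ≤ 1/log ≤ gty B` -/
theorem gty_AB (B' : ℕ) (hB : 1 ≤ B') : ∃ X0 : ℕ, ∀ X : ℕ, X0 ≤ X → ∀ A B : Finset ℕ → ℝ,
    TyML (kp B' X) X A B → ∀ n : ℕ, X5 X < n → n ≤ X →
    gty (kp B' X) X A n ≤ 1 / Real.log n ∧ 1 / Real.log n ≤ gty (kp B' X) X B n := by
  obtain ⟨X1, hX1⟩ := gty_PT B' hB
  obtain ⟨X2, hX2⟩ := gty_nonneg B' hB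
  refine ⟨max X1 X2, fun X hX A B hT n hn5 hnX => ?_⟩
  have h1 := hX1 X ((le_max_left _ _).trans hX) n hn5 hnX
  have h2 := hX2 X ((le_max_right _ _).trans hX) _ _ (tyL_A hT) n
  have h3 := hX2 X ((le_max_right _ _).trans hX) _ _ (tyL_B hT) n
  have h4 : gty (kp B' X) X PT n = gty (kp B' X) X A n +
      gty (kp B' X) X (fun T => PT T - A T) n := by
    rw [← gty_add]
    congr 1
    funext T
    ring
  have h5 : gty (kp B' X) X B n = gty (kp B' X) X PT n +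
      gty (kp B' X) X (fun T => B T - PT T) n := by
    rw [← gty_add]
    congr 1
    funext T
    ring
  constructor
  · linarith
  · linarith

/-- the numbers -/
theorem wty_AB (B' : ℕ) (hB : 1 ≤ B') : ∃ X0 : ℕ, ∀ X : ℕ, X0 ≤ X → ∀ A B : Finset ℕ → ℝ,
    TyML (kp B' X) X A B → ∀ n : ℕ, wty (kp B' X) X A n ≤ pI X n ∧
      pI X n ≤ wty (kp B' X) X B n := by
  obtain ⟨X1, hX1⟩ := cl_num B' hB
  refine ⟨X1, fun X hX A B hT n => ?_⟩
  obtain ⟨h1, -, -⟩ := hX1 X hX _ _ (tyL_A hT) n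
  obtain ⟨-, h2, -⟩ := hX1 X hX _ _ (tyL_B hT) n
  refine ⟨h1, ?_⟩
  have h3 : wty (kp B' X) X B n = wty (kp B' X) X PT n +
      wty (kp B' X) X (fun T => B T - PT T) n := by
    unfold wty
    split_ifs
    · ring
    · ring
  rw [h3]
  exact h2

/-- upper bound for the main term, two functions -/
theorem main_up2 (c1 c2 δ : ℝ) (hc1 : 0 ≤ c1) (hc2 : 0 ≤ c2) (hδ : 0 < δ) : ∃ D0 : ℕ,
    ∀ D' : ℕ, D0 ≤ D' → ∃ X0 : ℕ, ∀ X : ℕ, X0 ≤ X → ∀ h1 h2 : ℕ → ℝ,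
    (∀ n : ℕ, X5 X < n → n ≤ X → 0 ≤ h1 n ∧ Real.log n * h1 n ≤ c1) →
    (∀ n : ℕ, X5 X < n → n ≤ X → 0 ≤ h2 n ∧ Real.log n * h2 n ≤ c2) →
    (∀ n : ℕ, (n : ℝ) ≤ X5 X → h1 n = 0 ∧ h2 n = 0) → ∀ n : ℕ, X < 2 * n → n ≤ X → Even n →
    cvv (fun m => h1 m * f1 (wX D' X) m) (fun m => h2 m * f1 (wX D' X) m) n ≤
      (c1 * c2 + δ) * (SS n * JJ n) := by
  classical
  have hη : 0 < δ / (c1 * c2 + 1) := by positivity
  obtain ⟨D0, hD0⟩ := filt_asym _ hη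
  refine ⟨D0, fun D' hD' => ?_⟩
  obtain ⟨X1, hX1⟩ := hD0 D' hD'
  obtain ⟨X6, hX6⟩ := X5_ge
  refine ⟨max X1 X6, fun X hX h1 h2 hg1 hg2 hg0 n hn hnX hne => ?_⟩
  simp only [max_le_iff] at hX
  obtain ⟨hXX1, hXX6⟩ := hX
  obtain ⟨hz, hX5X⟩ := hX6 X hXX6
  have hzt : (1 : ℝ) ≤ X5 X := by
    have : (0 : ℝ) ≤ (zt X : ℝ) := Nat.cast_nonneg _
    linarith
  obtain ⟨hF1, hV0⟩ := hX1 X hXX1 n hn hnX hne
  obtain ⟨w, hw⟩ : ∃ w : ℕ, w = wX D' X := ⟨_, rfl⟩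
  obtain ⟨V, hV⟩ : ∃ V : ℝ, V = SS n * JJ n := ⟨_, rfl⟩
  rw [← hw, ← hV] at hF1
  rw [← hV] at hV0
  rw [← hw, ← hV]
  have hpt : cvv (fun m => h1 m * f1 w m) (fun m => h2 m * f1 w m) n ≤
      c1 * c2 * ∑ m ∈ (Icc 1 (n - 1)).filter
        (fun m : ℕ => X5 X < m ∧ X5 X < ((n - m : ℕ) : ℝ)), f2 w m * f2 w (n - m) := by
    unfold cvv
    rw [Finset.mul_sum]
    have h3 : ∑ m ∈ Icc 1 (n - 1), (h1 m * f1 w m * (h2 (n - m) * f1 w (n - m))) =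
        ∑ m ∈ (Icc 1 (n - 1)).filter (fun m : ℕ => X5 X < m ∧ X5 X < ((n - m : ℕ) : ℝ)),
          (h1 m * f1 w m * (h2 (n - m) * f1 w (n - m))) := by
      rw [Finset.sum_filter_of_ne]
      intro m _ hne
      by_contra hcon
      apply hne
      by_cases h4 : X5 X < m
      · have h5 : ((n - m : ℕ) : ℝ) ≤ X5 X := by
          by_contra h8
          exact hcon ⟨h4, not_le.1 h8⟩
        rw [(hg0 _ h5).2]
        ring
      · rw [(hg0 _ (not_lt.1 h4)).1]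
        ring
    rw [h3]
    refine Finset.sum_le_sum fun m hm => ?_
    rw [Finset.mem_filter, Finset.mem_Icc] at hm
    obtain ⟨⟨h4, h5⟩, h6, h7⟩ := hm
    obtain ⟨a1, a2⟩ := hg1 m h6 (by omega)
    obtain ⟨b1, b2⟩ := hg2 (n - m) h7 (by omega)
    have hl1 : 0 < Real.log (m : ℝ) := Real.log_pos (by linarith)
    have hl2 : 0 < Real.log ((n - m : ℕ) : ℝ) := Real.log_pos (by linarith)
    unfold f2
    have hf1 := f1_nonneg w m
    have hf2 := f1_nonneg w (n - m)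
    obtain ⟨l1, hl1d⟩ : ∃ l : ℝ, l = Real.log (m : ℝ) := ⟨_, rfl⟩
    obtain ⟨l2, hl2d⟩ : ∃ l : ℝ, l = Real.log ((n - m : ℕ) : ℝ) := ⟨_, rfl⟩
    rw [← hl1d] at hl1 a2 ⊢
    rw [← hl2d] at hl2 b2 ⊢
    have hprod : (l1 * h1 m) * (l2 * h2 (n - m)) ≤ c1 * c2 :=
      mul_le_mul a2 b2 (mul_nonneg hl2.le b1) ((mul_nonneg hl1.le a1).trans a2)
    have hd : h1 m * h2 (n - m) ≤ c1 * c2 / (l1 * l2) := by
      rw [le_div_iff₀ (mul_pos hl1 hl2)]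
      linarith
    calc h1 m * f1 w m * (h2 (n - m) * f1 w (n - m)) =
          (h1 m * h2 (n - m)) * (f1 w m * f1 w (n - m)) := by ring
      _ ≤ c1 * c2 / (l1 * l2) * (f1 w m * f1 w (n - m)) :=
          mul_le_mul_of_nonneg_right hd (mul_nonneg hf1 hf2)
      _ = c1 * c2 * (f1 w m / l1 * (f1 w (n - m) / l2)) := by
          field_simp
  refine hpt.trans ?_
  obtain ⟨F, hF⟩ : ∃ F : ℝ, F = ∑ m ∈ (Icc 1 (n - 1)).filter
    (fun m : ℕ => X5 X < m ∧ X5 X < ((n - m : ℕ) : ℝ)), f2 w m * f2 w (n - m) := ⟨_, rfl⟩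
  rw [← hF] at hF1 ⊢
  have h3 : F ≤ V + δ / (c1 * c2 + 1) * V := by
    have := (abs_le.1 hF1).2
    linarith
  have hc : 0 ≤ c1 * c2 := mul_nonneg hc1 hc2
  calc c1 * c2 * F ≤ c1 * c2 * (V + δ / (c1 * c2 + 1) * V) :=
        mul_le_mul_of_nonneg_left h3 hc
    _ = c1 * c2 * V + (c1 * c2 / (c1 * c2 + 1)) * (δ * V) := by
        field_simp
    _ ≤ c1 * c2 * V + 1 * (δ * V) := by
        have h4 : c1 * c2 / (c1 * c2 + 1) ≤ 1 := by
          rw [div_le_one (by positivity)]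
          linarith
        have h5 : 0 ≤ δ * V := mul_nonneg hδ.le hV0
        have := mul_le_mul_of_nonneg_right h4 h5
        linarith
    _ = (c1 * c2 + δ) * V := by ring

theorem f2_nonneg' (w n : ℕ) : 0 ≤ f2 w n :=
  div_nonneg (f1_nonneg w n) (Real.log_natCast_nonneg n)

/-- the terms with a small variable are negligible -/
theorem low_part (η : ℝ) (hη : 0 < η) : ∃ D0 : ℕ, ∀ D' : ℕ, D0 ≤ D' → ∃ X0 : ℕ, ∀ X : ℕ,
    X0 ≤ X → ∀ n : ℕ, X < 2 * n → n ≤ X → Even n →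
    ∑ m ∈ (Icc 1 (n - 1)).filter (fun m : ℕ => ¬ (X5 X < m ∧ X5 X < ((n - m : ℕ) : ℝ))),
        f2 (wX D' X) m * f2 (wX D' X) (n - m) ≤ η * (SS n * JJ n) := by
  classical
  obtain ⟨D1, hD1⟩ := filt_asym (η / 2) (by positivity)
  obtain ⟨D2, -, hD2⟩ := conv2_ss 5
  refine ⟨max D1 D2, fun D' hD' => ?_⟩
  obtain ⟨X1, hX1⟩ := hD1 D' ((le_max_left _ _).trans hD')
  obtain ⟨X2, hX2⟩ := hD2 D' ((le_max_right _ _).trans hD')
  obtain ⟨X3, hX3⟩ := JJ_ge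
  obtain ⟨c0, hc⟩ : ∃ c0 : ℝ, c0 = 2 * C2 := ⟨_, rfl⟩
  have hc0 : 0 < c0 := by have := C2_pos; rw [hc]; positivity
  obtain ⟨X4, hX4⟩ := MP_log_large (32 / (η * c0) + 1)
  refine ⟨max (max X1 X2) (max X3 (max X4 1)), fun X hX n hn hnX hne => ?_⟩
  simp only [max_le_iff] at hX
  obtain ⟨⟨x1, x2⟩, x3, x4, x5⟩ := hX
  have hX0 : (0 : ℝ) < X := by exact_mod_cast (by omega : 0 < X)
  obtain ⟨g1, g2⟩ := hX1 X x1 n hn hnX hne
  have g3 := hX2 X x2 n (by omega) hnX hne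
  have hJJ := hX3 X x3 n hn hnX
  have hL := hX4 X x4
  have hSS : c0 ≤ SS n := by rw [hc]; exact SS_ge n
  have h1 : conv2 (wX D' X) n = ∑ m ∈ (Icc 1 (n - 1)).filter
        (fun m : ℕ => X5 X < m ∧ X5 X < ((n - m : ℕ) : ℝ)),
        f2 (wX D' X) m * f2 (wX D' X) (n - m) +
      ∑ m ∈ (Icc 1 (n - 1)).filter (fun m : ℕ => ¬ (X5 X < m ∧ X5 X < ((n - m : ℕ) : ℝ))),
        f2 (wX D' X) m * f2 (wX D' X) (n - m) := (Finset.sum_filter_add_sum_filter_not _ _ _).symm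
  obtain ⟨L, hLd⟩ : ∃ L : ℝ, L = Real.log X := ⟨_, rfl⟩
  rw [← hLd] at g3 hJJ hL
  have h1600 : 0 < 32 / (η * c0) := by positivity
  have hL1 : 1 ≤ L := by linarith
  have hL0 : 0 < L := by linarith
  have hnr : (X : ℝ) < 2 * n := by exact_mod_cast hn
  have hJ2 : X / (16 * L ^ 2) ≤ JJ n := by
    refine le_trans ?_ hJJ
    rw [div_le_div_iff₀ (by positivity) (by positivity)]
    have h12 : 0 < L ^ 2 := by positivity
    nlinarith
  have herr : X / L ^ 5 ≤ η / 2 * (SS n * JJ n) := by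
    have e1 : c0 * (X / (16 * L ^ 2)) ≤ SS n * JJ n :=
      mul_le_mul hSS hJ2 (by positivity) (hc0.le.trans hSS)
    have e2 : X / L ^ 5 ≤ η / 2 * (c0 * (X / (16 * L ^ 2))) := by
      have e3 : η / 2 * (c0 * (X / (16 * L ^ 2))) = (η * c0 * L ^ 3 / 32) * (X / L ^ 5) := by
        field_simp
        norm_num
      rw [e3]
      have e4 : 1 ≤ η * c0 * L ^ 3 / 32 := by
        rw [le_div_iff₀ (by norm_num), one_mul]
        have e5 : 32 / (η * c0) ≤ L ^ 3 := by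
          calc 32 / (η * c0) ≤ L := by linarith
            _ = L ^ 1 := (pow_one L).symm
            _ ≤ L ^ 3 := pow_le_pow_right₀ hL1 (by norm_num)
        rw [div_le_iff₀ (by positivity)] at e5
        linarith
      exact le_mul_of_one_le_left (by positivity) e4
    have e6 : η / 2 * (c0 * (X / (16 * L ^ 2))) ≤ η / 2 * (SS n * JJ n) :=
      mul_le_mul_of_nonneg_left e1 (by linarith)
    linarith
  have g4 := (abs_le.1 g1).1
  have g5 := (abs_le.1 g3).2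
  linarith

end Pool.MP_dd84fd_nt.LX
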