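import Pool.Agent.Lib.MP_dd84fd_nt.KX.NKb

/-!
# Theorem L, numerics: sets of numbers `k` (helper88)

`KH` = products `p q` of primes `q < p`, `q ≥ X^θ`, `p q ≤ X^(1/2+ε)`; `KQ` = products `p q r` of primes
`r < q < p ≤ n/(p q r)`, `r ≥ X^θ`; `KE2`, `KE3` = products of two / three primes on the edges.
-/

set_option autoImplicit false

namespace Pool.MP_dd84fd_nt.LX

open Finset Pool.MP_dd84fd_nt.IY Pool.MP_dd84fd_nt.KX

/-- products of two primes below the square root -/
noncomputable def KH (X : ℕ) (θ ε : ℝ) : Finset ℕ :=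
  open Classical in (Icc 1 X).filter (fun k : ℕ => ∃ p q : ℕ, p.Prime ∧ q.Prime ∧ q < p ∧
    k = p * q ∧ θ * Real.log X ≤ Real.log q ∧ Real.log k ≤ (1 / 2 + ε) * Real.log X)

/-- products of three primes, with a fourth one -/
noncomputable def KQ (X n : ℕ) (θ : ℝ) : Finset ℕ :=
  open Classical in (Icc 1 X).filter (fun k : ℕ => ∃ p q r : ℕ, p.Prime ∧ q.Prime ∧ r.Prime ∧
    q < p ∧ r < q ∧ k = p * q * r ∧ θ * Real.log X ≤ Real.log r ∧
    Real.log p ≤ Real.log ((n : ℝ) / k))

/-- products of two primes, on an edge at `c` -/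
noncomputable def KE2 (X : ℕ) (θ c ε : ℝ) : Finset ℕ :=
  open Classical in (Icc 1 X).filter (fun k : ℕ => ∃ p q : ℕ, p.Prime ∧ q.Prime ∧ q < p ∧
    k = p * q ∧ θ * Real.log X ≤ Real.log q ∧
    (|Real.log p - c * Real.log X| ≤ ε * Real.log X ∨ |Real.log q - c * Real.log X| ≤ ε * Real.log X ∨
      |Real.log k - (1 - c) * Real.log X| ≤ ε * Real.log X))

/-- products of three primes, two of them with a product near the square root -/
noncomputable def KE3 (X : ℕ) (θ ε : ℝ) : Finset ℕ :=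
  open Classical in (Icc 1 X).filter (fun k : ℕ => ∃ p q r : ℕ, p.Prime ∧ q.Prime ∧ r.Prime ∧
    q < p ∧ r < q ∧ k = p * q * r ∧ θ * Real.log X ≤ Real.log r ∧
    (|Real.log p + Real.log q - Real.log X / 2| ≤ ε * Real.log X ∨
      |Real.log p + Real.log r - Real.log X / 2| ≤ ε * Real.log X ∨
      |Real.log q + Real.log r - Real.log X / 2| ≤ ε * Real.log X))

end Pool.MP_dd84fd_nt.LX
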