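import Pool.Agent.Lib.MP_dd84fd_nt.KX.NKb

/-!
# Theorem L, numerics: the density of the balanced triples, `θ ≥ 1/5` (helper88)

As KX/NKa, with `0.67 y²`.
-/

set_option autoImplicit false

namespace Pool.MP_dd84fd_nt.LX

open Finset Pool.MP_dd84fd_nt.IY Pool.MP_dd84fd_nt.KX

/-- the product of the three exponents, first part -/
theorem tri1L (θ a d : ℝ) (h1 : 1 / 5 ≤ θ) (h3 : θ ≤ a) (h4 : a ≤ (1 + θ) / 4)
    (hd : 0 ≤ d) (hd2 : d ≤ 1 / 2500) (h2 : θ ≤ 1 / 3) :
    22 / 350 ≤ a * ((1 + θ) / 2 - a - d) * (1 - a - d) := by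
  have e1 : (3 / 10) ^ 2 * (7 / 10) ≤ a * ((1 + θ) / 2 - a) * (1 - a) := by
    set t := (1 + θ) / 4 - a with ht
    have ht0 : 0 ≤ t := by rw [ht]; linarith
    set s := (1 + θ) / 4 with hsd
    have hs : 3 / 10 ≤ s := by rw [hsd]; linarith
    have hs2 : s ≤ 1 / 3 := by rw [hsd]; linarith
    have ht1 : t ≤ 1 - 3 * s := by rw [ht, hsd]; linarith
    have ha : a = s - t := by rw [ht]; ring
    have e2 : (1 + θ) / 2 = 2 * s := by rw [hsd]; ring
    rw [e2, ha]
    have e3 : (s - t) * (2 * s - (s - t)) * (1 - (s - t)) = (s ^ 2 - t ^ 2) * (1 - s + t) := by ring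
    rw [e3]
    have e4 : s ^ 2 * (1 - s) ≤ (s ^ 2 - t ^ 2) * (1 - s + t) := by
      have e5 : (s ^ 2 - t ^ 2) * (1 - s + t) - s ^ 2 * (1 - s) = t * (s ^ 2 - t * (1 - s + t)) := by
        ring
      have e6 : 0 ≤ s ^ 2 - t * (1 - s + t) := by nlinarith
      nlinarith [mul_nonneg ht0 e6]
    have e7 : (3 / 10) ^ 2 * (7 / 10) ≤ s ^ 2 * (1 - s) := by
      nlinarith [mul_nonneg (sub_nonneg.mpr hs) (sub_nonneg.mpr hs)]
    linarith
  have ha4 : a ≤ 1 / 3 := by linarith
  have e8 : a * ((1 + θ) / 2 - a) * (1 - a) - d / 3 ≤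
      a * ((1 + θ) / 2 - a - d) * (1 - a - d) := by
    have f1 : a * ((1 + θ) / 2 - a - d) * (1 - a - d) = a * ((1 + θ) / 2 - a) * (1 - a) -
        d * (a * ((1 + θ) / 2 - a) + a * (1 - a - d)) := by ring
    rw [f1]
    have f2 : a * ((1 + θ) / 2 - a) ≤ 1 / 9 := by
      nlinarith [sq_nonneg ((1 + θ) / 4 - a)]
    have f3 : a * (1 - a - d) ≤ 2 / 9 := by
      nlinarith
    nlinarith
  have e9 : (22 : ℝ) / 350 + 1 / 7500 ≤ (3 / 10) ^ 2 * (7 / 10) := by norm_num
  linarith

/-- the product of the three exponents, second part -/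
theorem tri2L (a d : ℝ) (h1 : 3 / 10 ≤ a) (h2 : a ≤ 1 / 3) (hd : 0 ≤ d) (hd2 : d ≤ 1 / 2500) :
    22 / 350 ≤ a * a * (1 - a - d) := by
  have e1 : (3 / 10) ^ 2 * (7 / 10) ≤ a ^ 2 * (1 - a) := by
    nlinarith [mul_nonneg (sub_nonneg.mpr h1) (sub_nonneg.mpr h1)]
  have e2 : a * a * (1 - a - d) = a ^ 2 * (1 - a) - d * (a * a) := by ring
  rw [e2]
  have e3 : a * a ≤ 1 / 9 := by nlinarith
  have e4 : d * (a * a) ≤ d * (1 / 9) := mul_le_mul_of_nonneg_left e3 hd
  have e9 : (22 : ℝ) / 350 + 1 / 7500 ≤ (3 / 10) ^ 2 * (7 / 10) := by norm_num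
  linarith

/-- **the density of the balanced triples** -/
theorem T_sumL (θ : ℝ) (h1 : 1 / 5 ≤ θ) (h2 : θ < 1 / 3) : ∃ X0 : ℕ, ∀ X : ℕ, X0 ≤ X →
    ∀ n : ℕ, X5 X < n → n ≤ X →
      ∑ k ∈ KT X n θ, Real.log n / (k * Real.log ((n : ℝ) / k)) ≤
        67 / 100 * (1 - 3 * θ) ^ 2 := by
  classical
  set y := 1 - 3 * θ with hy
  have hy0 : 0 < y := by rw [hy]; linarith
  have hy4 : y ≤ 2 / 5 := by rw [hy]; linarith
  set δ := y / 1200 with hδ
  have hδ0 : 0 < δ := by rw [hδ]; positivity
  have hδ1 : δ ≤ 1 / 3000 := by rw [hδ]; linarith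
  set ε := δ ^ 2 / 100 with hε
  have hε0 : 0 < ε := by rw [hε]; positivity
  have hεδ : ε ≤ δ / 300000 := by rw [hε]; nlinarith
  have hyδ : y = 1200 * δ := by rw [hδ]; ring
  have hθδ : θ = 1 / 3 - 400 * δ := by linarith
  obtain ⟨X1, hX1⟩ := mp ε hε0
  obtain ⟨X2, hX2⟩ := logn_ge ε hε0
  refine ⟨X1 + X2 + 2, fun X hX n hn1 hn2 => ?_⟩
  obtain ⟨hn3, hn4, hXr, hn5⟩ := hX2 X (by omega) n hn1 hn2
  have hmp := hX1 X (by omega)
  have hX1' : 1 < X := by omega
  have hL : 0 < Real.log X := Real.log_pos hXr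
  set L := Real.log (X : ℝ) with hLd
  set u : ℕ → ℝ := fun i => θ + i * δ with hu
  set lo : ℕ → ℝ := fun i => max ((1 + θ) / 2 - u (i + 1) - ε) (u i) with hlo
  set hi : ℕ → ℝ := fun i => (1 - u i) / 2 + ε with hhi
  set S : ℕ → Finset (ℕ × ℕ) := fun i => (PS X (u i) (u (i + 1))) ×ˢ (PS X (lo i) (hi i)) with hS
  set W : ℕ → ℝ := fun i => if i < 400 then 2 / (1 - u (i + 1) - ε) else 0 with hW
  have hus : ∀ i, u (i + 1) = u i + δ := by
    intro i
    rw [hu]
    simp only
    push_cast
    ring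
  have hu0 : ∀ i, θ ≤ u i := by
    intro i
    rw [hu]
    simp only
    have : 0 ≤ (i : ℝ) * δ := by positivity
    linarith
  have hu1 : ∀ i, i < 400 → u (i + 1) ≤ 1 / 3 := by
    intro i hi'
    rw [hu]
    simp only
    have h3 : ((i + 1 : ℕ) : ℝ) ≤ 400 := by exact_mod_cast hi'
    have h4 : ((i + 1 : ℕ) : ℝ) * δ ≤ 400 * δ := mul_le_mul_of_nonneg_right h3 hδ0.le
    linarith
  have hden : ∀ i, i < 400 → 1 / 2 < 1 - u (i + 1) - ε := by
    intro i hi'
    have := hu1 i hi'
    linarith
  have hW0 : ∀ i, 0 ≤ W i := by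
    intro i
    rw [hW]
    simp only
    split_ifs with h3
    · have := hden i h3
      exact div_nonneg (by norm_num) (by linarith)
    · exact le_rfl
  -- the slices cover
  have hcov : ∀ k ∈ KT X n θ, ∃ i ∈ range 400, ∃ t ∈ S i, k = t.1 * t.2 ∧
      Real.log n / (k * Real.log ((n : ℝ) / k)) ≤ W i / ((t.1 : ℝ) * t.2) := by
    intro k hk
    unfold KT at hk
    rw [Finset.mem_filter, Finset.mem_Icc] at hk
    obtain ⟨⟨hk1, hkX⟩, p, q, hp, hq, hqp, hkpq, hqL, hpc, hcL⟩ := hk
    have hp0 : (0 : ℝ) < p := by exact_mod_cast hp.pos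
    have hq0 : (0 : ℝ) < q := by exact_mod_cast hq.pos
    have hk0 : (0 : ℝ) < k := by exact_mod_cast hk1
    have hn0 : (0 : ℝ) < n := by exact_mod_cast hn5
    have hlk : Real.log k = Real.log p + Real.log q := by
      rw [hkpq]
      push_cast
      rw [Real.log_mul hp0.ne' hq0.ne']
    have hlc : Real.log ((n : ℝ) / k) = Real.log n - Real.log p - Real.log q := by
      rw [Real.log_div hn0.ne' hk0.ne', hlk]
      ring
    have hlqp : Real.log q < Real.log p := Real.log_lt_log hq0 (by exact_mod_cast hqp)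
    have hpX : p ≤ X := by
      refine le_trans ?_ hkX
      rw [hkpq]
      exact Nat.le_mul_of_pos_right p hq.pos
    have hqX : q ≤ X := hqp.le.trans hpX
    set a := Real.log q / L with ha
    set b := Real.log p / L with hb
    set N := Real.log n / L with hN
    have haL : a * L = Real.log q := div_mul_cancel₀ _ hL.ne'
    have hbL : b * L = Real.log p := div_mul_cancel₀ _ hL.ne'
    have hNL : N * L = Real.log n := div_mul_cancel₀ _ hL.ne'
    have hab : a < b := by
      rw [ha, hb]
      exact div_lt_div_of_pos_right hlqp hL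
    have hN1 : N ≤ 1 := by
      rw [hN, div_le_one hL]
      exact hn4
    have hN2 : 1 - ε ≤ N := by
      rw [hN, le_div_iff₀ hL]
      exact hn3
    rw [hlc] at hpc hcL
    have e1 : 2 * b + a ≤ N := by
      have : (2 * b + a) * L ≤ N * L := by
        rw [add_mul, mul_assoc, hbL, haL, hNL]
        linarith
      exact le_of_mul_le_mul_right this hL
    have e2 : N - a - b ≤ (1 - θ) / 2 := by
      have : (N - a - b) * L ≤ (1 - θ) / 2 * L := by
        rw [sub_mul, sub_mul, hNL, haL, hbL]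
        linarith
      exact le_of_mul_le_mul_right this hL
    have e3 : θ ≤ a := by
      rw [ha, le_div_iff₀ hL]
      exact hqL
    have e4 : a < 1 / 3 := by linarith
    set z : ℝ := (a - θ) / δ with hz
    have hz0 : 0 ≤ z := div_nonneg (by linarith) hδ0.le
    have hz4 : z < 400 := by
      rw [hz, div_lt_iff₀ hδ0]
      linarith
    set i := ⌊z⌋₊ with hi'
    have hi4 : i < 400 := by
      have := Nat.floor_le hz0
      have h3 : (i : ℝ) < 400 := lt_of_le_of_lt this hz4
      exact_mod_cast h3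
    have hia : u i ≤ a := by
      have h3 : (i : ℝ) ≤ z := Nat.floor_le hz0
      rw [hz, le_div_iff₀ hδ0] at h3
      rw [hu]
      simp only
      linarith
    have hib : a < u (i + 1) := by
      have h3 : z < (i : ℝ) + 1 := Nat.lt_floor_add_one z
      rw [hz, div_lt_iff₀ hδ0] at h3
      rw [hu]
      simp only
      push_cast
      linarith
    refine ⟨i, Finset.mem_range.mpr hi4, (q, p), ?_, by rw [hkpq, mul_comm], ?_⟩
    · rw [hS]
      refine Finset.mem_product.mpr ⟨?_, ?_⟩
      · refine mem_PS hX1' hq hqX ?_ ?_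
        · change u i * L ≤ Real.log q
          rw [← haL]
          exact mul_le_mul_of_nonneg_right hia hL.le
        · change Real.log q < u (i + 1) * L
          rw [← haL]
          exact mul_lt_mul_of_pos_right hib hL
      · refine mem_PS hX1' hp hpX ?_ ?_
        · change lo i * L ≤ Real.log p
          rw [← hbL]
          refine mul_le_mul_of_nonneg_right ?_ hL.le
          rw [hlo]
          exact max_le (by linarith) (by linarith)
        · change Real.log p < hi i * L
          rw [← hbL]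
          refine mul_lt_mul_of_pos_right ?_ hL
          rw [hhi]
          simp only
          linarith
    · simp only
      have hW' : W i = 2 / (1 - u (i + 1) - ε) := by
        rw [hW]
        simp only
        rw [if_pos hi4]
      have hd := hden i hi4
      have hc0 : 0 < N - a - b := by linarith
      have hck : Real.log ((n : ℝ) / k) = (N - a - b) * L := by
        rw [hlc, sub_mul, sub_mul, hNL, haL, hbL]
        ring
      have e5 : Real.log n / (k * Real.log ((n : ℝ) / k)) = N / (N - a - b) / ((q : ℝ) * p) := by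
        rw [hck, ← hNL, hkpq]
        push_cast
        field_simp
      rw [e5, hW']
      refine div_le_div_of_nonneg_right ?_ (by positivity)
      rw [div_le_div_iff₀ hc0 (by linarith)]
      -- N (1 - u - ε) ≤ 2 (N - a - b)
      have e6 : N * (1 - u (i + 1) - ε) ≤ N * (1 - a - ε) :=
        mul_le_mul_of_nonneg_left (by linarith) (by linarith)
      have e7 : N * (1 - a - ε) ≤ N - a := by
        nlinarith
      linarith
  -- the bound for one slice
  have hsl : ∀ i ∈ range 400, W i * ∑ t ∈ S i, 1 / ((t.1 : ℝ) * t.2) ≤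
      350 / 11 * (δ + ε) * (lenK δ i + 3 * ε) := by
    intro i hi'
    have hi4 := Finset.mem_range.mp hi'
    have hW' : W i = 2 / (1 - u (i + 1) - ε) := by
      rw [hW]
      simp only
      rw [if_pos hi4]
    have hd := hden i hi4
    have hui := hu1 i hi4
    have hui0 := hu0 i
    have hs := hus i
    have hlo1 : u i ≤ lo i := le_max_right _ _
    have hlo2 : (1 + θ) / 2 - u (i + 1) - ε ≤ lo i := le_max_left _ _
    have hlo3 : lo i ≤ 1 := by
      rw [hlo]
      exact max_le (by linarith) (by linarith)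
    rw [hS]
    simp only
    rw [Finset.sum_product]
    have e1 : ∑ p ∈ PS X (u i) (u (i + 1)), ∑ q ∈ PS X (lo i) (hi i),
        1 / ((p : ℝ) * q) = (∑ p ∈ PS X (u i) (u (i + 1)), 1 / (p : ℝ)) *
        (∑ q ∈ PS X (lo i) (hi i), 1 / (q : ℝ)) := by
      rw [Finset.sum_mul_sum]
      refine Finset.sum_congr rfl fun p _ => Finset.sum_congr rfl fun q _ => ?_
      rw [one_div_mul_one_div]
    rw [e1]
    have m1 := hmp (u i) (u (i + 1)) (by linarith) (by linarith)
    have m2 := hmp (lo i) (hi i) (by linarith) (by rw [hhi]; simp only; linarith)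
    rw [hs, show u i + δ - u i = δ by ring, max_eq_right hδ0.le] at m1
    have hlen : max 0 (hi i - lo i) ≤ lenK δ i + 2 * ε := by
      have hl0 : 0 ≤ lenK δ i := by
        unfold lenK
        split_ifs with h3
        · positivity
        · have : (i : ℝ) ≤ 400 := by exact_mod_cast hi4.le
          have : 0 ≤ 3 * (400 - (i : ℝ)) / 2 := by linarith
          positivity
      refine max_le (by linarith) ?_
      unfold lenK
      split_ifs with h3
      · have e2 : hi i = (1 - u i) / 2 + ε := rfl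
        have e3 : u i = θ + i * δ := rfl
        rw [e2]
        have e4 : ((i : ℝ) / 2 + 1) * δ = (i * δ) / 2 + δ := by ring
        rw [e4]
        linarith
      · have e2 : hi i = (1 - u i) / 2 + ε := rfl
        have e3 : u i = θ + i * δ := rfl
        rw [e2]
        have e4 : 3 * (400 - (i : ℝ)) / 2 * δ = 600 * δ - 3 * (i * δ) / 2 := by ring
        rw [e4]
        linarith
    have hlo0 : 0 < lo i := by linarith
    have hui00 : 0 < u i := by linarith
    have m2' : ∑ q ∈ PS X (lo i) (hi i), 1 / (q : ℝ) ≤ (lenK δ i + 3 * ε) / lo i := by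
      refine m2.trans ?_
      rw [le_div_iff₀ hlo0, add_mul, div_mul_cancel₀ _ hlo0.ne']
      nlinarith
    have m1' : ∑ p ∈ PS X (u i) (u i + δ), 1 / (p : ℝ) ≤ (δ + ε) / u i := by
      refine m1.trans ?_
      rw [le_div_iff₀ hui00, add_mul, div_mul_cancel₀ _ hui00.ne']
      nlinarith
    have n1 : 0 ≤ ∑ q ∈ PS X (lo i) (hi i), 1 / (q : ℝ) :=
      Finset.sum_nonneg fun q _ => by positivity
    have hpr : (22 : ℝ) / 350 ≤ u i * lo i * (1 - u (i + 1) - ε) := by
      rcases lt_or_ge i 300 with h3 | h3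
      · have h4 : u i ≤ (1 + θ) / 4 := by
          have e3 : u i = θ + i * δ := rfl
          have e4 : (i : ℝ) ≤ 300 := by exact_mod_cast h3.le
          have e5 : (i : ℝ) * δ ≤ 300 * δ := mul_le_mul_of_nonneg_right e4 hδ0.le
          rw [e3]
          linarith
        have h5 := tri1L θ (u i) (δ + ε) h1 hui0 h4 (by linarith) (by linarith) h2.le
        have h6 : u i * ((1 + θ) / 2 - u i - (δ + ε)) * (1 - u i - (δ + ε)) ≤
            u i * lo i * (1 - u (i + 1) - ε) := by
          have e6 : 1 - u i - (δ + ε) = 1 - u (i + 1) - ε := by rw [hs]; ring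
          rw [e6]
          refine mul_le_mul_of_nonneg_right ?_ (by linarith)
          exact mul_le_mul_of_nonneg_left (by linarith) hui00.le
        linarith
      · have h4 : 3 / 10 ≤ u i := by
          have e3 : u i = θ + i * δ := rfl
          have e4 : (300 : ℝ) ≤ i := by exact_mod_cast h3
          have e5 : 300 * δ ≤ (i : ℝ) * δ := mul_le_mul_of_nonneg_right e4 hδ0.le
          rw [e3]
          linarith
        have h5 := tri2L (u i) (δ + ε) h4 (by linarith) (by linarith) (by linarith)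
        have h6 : u i * u i * (1 - u i - (δ + ε)) ≤ u i * lo i * (1 - u (i + 1) - ε) := by
          have e6 : 1 - u i - (δ + ε) = 1 - u (i + 1) - ε := by rw [hs]; ring
          rw [e6]
          refine mul_le_mul_of_nonneg_right ?_ (by linarith)
          exact mul_le_mul_of_nonneg_left hlo1 hui00.le
        linarith
    have hl3 : 0 ≤ lenK δ i + 3 * ε := by
      have := le_max_left (0 : ℝ) (hi i - lo i)
      linarith
    calc W i * ((∑ p ∈ PS X (u i) (u (i + 1)), 1 / (p : ℝ)) *
          (∑ q ∈ PS X (lo i) (hi i), 1 / (q : ℝ)))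
        ≤ W i * ((δ + ε) / u i * ((lenK δ i + 3 * ε) / lo i)) := by
          refine mul_le_mul_of_nonneg_left ?_ (hW0 i)
          rw [hs]
          exact mul_le_mul m1' m2' n1 (by positivity)
      _ = 2 * (δ + ε) * (lenK δ i + 3 * ε) / (u i * lo i * (1 - u (i + 1) - ε)) := by
          rw [hW']
          field_simp
      _ ≤ 2 * (δ + ε) * (lenK δ i + 3 * ε) / (22 / 350) :=
          div_le_div_of_nonneg_left (by positivity) (by norm_num) hpr
      _ = 350 / 11 * (δ + ε) * (lenK δ i + 3 * ε) := by ring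
  refine (slice_sum (KT X n θ) _ 400 S W hW0 hcov).trans ?_
  refine (Finset.sum_le_sum hsl).trans ?_
  rw [← Finset.mul_sum, Finset.sum_add_distrib, lenK_sum]
  simp only [Finset.sum_const, Finset.card_range, nsmul_eq_mul]
  rw [hyδ]
  push_cast
  have f1 : 350 / 11 * (δ + ε) * (30300 * δ + 400 * (3 * ε)) ≤
      350 / 11 * (δ * (100001 / 100000)) * (30301 * δ) := by
    refine mul_le_mul ?_ ?_ (by positivity) (by positivity)
    · linarith
    · linarith
  refine f1.trans ?_
  nlinarith [sq_nonneg δ]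

end Pool.MP_dd84fd_nt.LX
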