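import Pool.Agent.Lib.MP_dd84fd_nt.LX.NDefs
import Pool.Agent.Lib.MP_dd84fd_nt.IY.NLg
import Pool.Agent.Lib.MP_dd84fd_nt.IY.CDen

/-!
# Theorem L, numerics: the density of a type function from pointwise bounds (helper88)
-/

set_option autoImplicit false

namespace Pool.MP_dd84fd_nt.LX

open Finset Pool.MP_67663b_nt.Odd Pool.MP_dd84fd_nt.En Pool.MP_dd84fd_nt.E2 Pool.MP_dd84fd_nt.HX
  Pool.MP_dd84fd_nt.IY Pool.MP_dd84fd_nt.KX

/-- `log n / (k log (n/k))` -/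
noncomputable def qn (n k : ℕ) : ℝ := Real.log n / (k * Real.log ((n : ℝ) / k))

/-- products of two primes `≥ X^θ` -/
noncomputable def KA2 (X : ℕ) (θ : ℝ) : Finset ℕ :=
  open Classical in (Icc 1 X).filter (fun k : ℕ => ∃ p q : ℕ, p.Prime ∧ q.Prime ∧ q < p ∧
    k = p * q ∧ θ * Real.log X ≤ Real.log q)

/-- eventually, for all `n` in `(X5 X, X]` -/
def EvN (P : ℕ → ℕ → Prop) : Prop := ∃ X0 : ℕ, ∀ X : ℕ, X0 ≤ X → ∀ n : ℕ, X5 X < n → n ≤ X → P X n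

theorem all2 (θ : ℝ) (h1 : 1 / 5 ≤ θ) : ∃ X0 : ℕ, ∀ X : ℕ, X0 ≤ X →
    ∑ k ∈ KA2 X θ, 1 / (k : ℝ) ≤ 100 := by
  classical
  obtain ⟨X1, hX1⟩ := mp 1 one_pos
  refine ⟨X1 + 2, fun X hX => ?_⟩
  have hmp := hX1 X (by omega) θ 1 (by linarith) le_rfl
  have hX1' : 1 < X := by omega
  have hXr : (1 : ℝ) < X := by exact_mod_cast hX1'
  have hL : 0 < Real.log X := Real.log_pos hXr
  have hsub : KA2 X θ ⊆ ((IY.PS X θ 1) ×ˢ (IY.PS X θ 1)).image (fun t : ℕ × ℕ => (t.1 * t.2 : ℕ)) := by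
    intro k hk
    unfold KA2 at hk
    rw [Finset.mem_filter, Finset.mem_Icc] at hk
    obtain ⟨⟨hk1, hkX⟩, p, q, hp, hq, hqp, hkpq, hqL⟩ := hk
    have hp0 : (0 : ℝ) < p := by exact_mod_cast hp.pos
    have hq0 : (0 : ℝ) < q := by exact_mod_cast hq.pos
    have hlqp : Real.log q < Real.log p := Real.log_lt_log hq0 (by exact_mod_cast hqp)
    have hpX : p < X := by
      have h2 : p * 2 ≤ p * q := Nat.mul_le_mul_left p hq.two_le
      have h3 := hp.pos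
      omega
    have hlpX : Real.log p < Real.log X := Real.log_lt_log hp0 (by exact_mod_cast hpX)
    refine Finset.mem_image.mpr ⟨(p, q), Finset.mem_product.mpr ⟨?_, ?_⟩, hkpq.symm⟩
    · exact mem_PS hX1' hp hpX.le (by linarith) (by linarith)
    · exact mem_PS hX1' hq (by omega) hqL (by linarith)
  have h5 : ∑ p ∈ IY.PS X θ 1, 1 / (p : ℝ) ≤ 9 := by
    by_cases hθ : θ ≤ 1
    · rw [max_eq_right (by linarith)] at hmp
      have : (1 - θ) / θ ≤ 4 := by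
        rw [div_le_iff₀ (by linarith)]
        linarith
      linarith
    · rw [max_eq_left (by linarith), zero_div] at hmp
      linarith
  have h6 : 0 ≤ ∑ p ∈ IY.PS X θ 1, 1 / (p : ℝ) := Finset.sum_nonneg fun q _ => by positivity
  calc ∑ k ∈ KA2 X θ, 1 / (k : ℝ)
      ≤ ∑ k ∈ ((IY.PS X θ 1) ×ˢ (IY.PS X θ 1)).image (fun t : ℕ × ℕ => (t.1 * t.2 : ℕ)),
          1 / (k : ℝ) :=
        Finset.sum_le_sum_of_subset_of_nonneg hsub fun k _ _ =>
          div_nonneg zero_le_one (Nat.cast_nonneg k)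
    _ ≤ ∑ t ∈ (IY.PS X θ 1) ×ˢ (IY.PS X θ 1), 1 / ((t.1 * t.2 : ℕ) : ℝ) :=
        sum_image_le' _ (fun t : ℕ × ℕ => (t.1 * t.2 : ℕ)) (fun k : ℕ => 1 / (k : ℝ)) fun k =>
          div_nonneg zero_le_one (Nat.cast_nonneg k)
    _ = (∑ p ∈ IY.PS X θ 1, 1 / (p : ℝ)) * ∑ p ∈ IY.PS X θ 1, 1 / (p : ℝ) := by
        rw [Finset.sum_mul_sum, ← Finset.sum_product']
        refine Finset.sum_congr rfl fun t _ => ?_
        push_cast
        rw [one_div_mul_one_div]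
    _ ≤ 9 * 9 := mul_le_mul h5 h5 h6 (by norm_num)
    _ ≤ 100 := by norm_num

open Classical in
/-- the pointwise bound -/
noncomputable def PB (θ ε c c1 c2 c3 c4 c5 : ℝ) (X n k : ℕ) : ℝ :=
  c1 * (if k ∈ KT X n θ then 1 else 0) + c2 * (if k ∈ KH X θ ε then 1 else 0) +
    c3 * (if k ∈ IY.PS X θ ((1 - θ) / 2) then Real.log k / Real.log X - θ + ε else 0) +
    c4 * (if k ∈ KQ X n θ then 1 else 0) +
    c5 * ((if k ∈ IY.PS X (1 / 2 - ε) (1 / 2 + ε) then 1 else 0) +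
      (if k ∈ KE2 X θ (1 / 2) ε then 1 else 0) + (if k ∈ KE2 X θ c ε then 1 else 0) +
      (if k ∈ KE3 X θ ε then 1 else 0)) +
    ε * (if k ∈ KA2 X θ then 1 else 0)

open Classical in
/-- one side, for a family `W` -/
theorem NLf_side (θ ε c tT tH tE tQ c1 c2 c3 c4 c5 : ℝ) (h1 : 1 / 5 ≤ θ) (h2 : θ < 1 / 3)
    (hε : 0 < ε) (hε2 : ε ≤ 1 / 100) (hc1 : 0 ≤ c1) (hc2 : 0 ≤ c2)
    (hc3 : 0 ≤ c3) (hc4 : 0 ≤ c4) (hc5 : 0 ≤ c5)
    (HT : EvN fun X n => ∑ k ∈ KT X n θ, qn n k ≤ tT)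
    (HH : EvN fun X n => ∑ k ∈ KH X θ ε, qn n k ≤ tH)
    (HE : EvN fun X n => ∑ p ∈ IY.PS X θ ((1 - θ) / 2), (Real.log p / Real.log X - θ) * qn n p ≤ tE)
    (HE1 : EvN fun X n => ∑ p ∈ IY.PS X θ ((1 - θ) / 2), qn n p ≤ 3)
    (HQ : EvN fun X n => ∑ k ∈ KQ X n θ, qn n k ≤ tQ)
    (HN : EvN fun X n => ∑ p ∈ IY.PS X (1 / 2 - ε) (1 / 2 + ε), qn n p ≤ 20 * ε)
    (H2 : ∃ X0 : ℕ, ∀ X : ℕ, X0 ≤ X → ∑ k ∈ KE2 X θ (1 / 2) ε, 1 / (k : ℝ) ≤ 1000 * ε)
    (H2c : ∃ X0 : ℕ, ∀ X : ℕ, X0 ≤ X → ∑ k ∈ KE2 X θ c ε, 1 / (k : ℝ) ≤ 1000 * ε)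
    (H3 : ∃ X0 : ℕ, ∀ X : ℕ, X0 ≤ X → ∑ k ∈ KE3 X θ ε, 1 / (k : ℝ) ≤ 10000 * ε) (B' : ℕ) :
    ∃ X0 : ℕ, ∀ X : ℕ, X0 ≤ X → ∀ W : Finset ℕ → ℝ, ∀ n : ℕ, X5 X < n → n ≤ X →
      (∀ k : ℕ, 2 ≤ k →
        Simp (kp B' X) (zt X) k → (zt X : ℝ) ≤ (n : ℝ) / k →
        (∀ j ∈ ty (kp B' X) (zt X) k, j < bx (kp B' X) (zt X) ((n : ℝ) / k)) →
        W (insert (bx (kp B' X) (zt X) ((n : ℝ) / k)) (ty (kp B' X) (zt X) k)) ≤
          PB θ ε c c1 c2 c3 c4 c5 X n k) →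
      Real.log n * gty (kp B' X) X W n ≤
        W (insert (bx (kp B' X) (zt X) ((n : ℝ) / (1 : ℕ))) (ty (kp B' X) (zt X) 1)) +
          (c1 * tT + c2 * tH + c3 * (tE + 3 * ε) + c4 * tQ + c5 * (120020 * ε) + 1000 * ε) := by
  obtain ⟨X1, hl⟩ := log_one ⟨20, 0, 0, fun _ _ => 0⟩ (by norm_num) B'
  obtain ⟨X2, hT⟩ := HT
  obtain ⟨X3, hH⟩ := HH
  obtain ⟨X4, hE⟩ := HE
  obtain ⟨X4', hE1⟩ := HE1
  obtain ⟨X5', hQ⟩ := HQ
  obtain ⟨X9, hN⟩ := HN
  obtain ⟨X10, hk2⟩ := H2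
  obtain ⟨X11, hk2c⟩ := H2c
  obtain ⟨X12, hk3⟩ := H3
  obtain ⟨X13, hka⟩ := all2 θ h1
  obtain ⟨X6, h5⟩ := X5_ge
  obtain ⟨X7, hz6⟩ := zt_log
  obtain ⟨X8, h8⟩ := logn_ge (1 / 10) (by norm_num)
  refine ⟨X1 + X2 + X3 + X4 + X4' + X5' + X6 + X7 + X8 + X9 + X10 + X11 + X12 + X13 + 2,
    fun X hX W n hn1 hn2 hW => ?_⟩
  set κ := kp B' X with hκ
  set z := zt X with hz
  set L := Real.log (X : ℝ) with hL
  obtain ⟨h51, -⟩ := h5 X (by omega)
  obtain ⟨hz2, -⟩ := hz6 X (by omega)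
  have hz2' : (2 : ℝ) ≤ zt X := by exact_mod_cast hz2
  have hnz : (zt X : ℝ) ≤ n := by linarith
  have hn2' : (2 : ℝ) ≤ n := by linarith
  have hlogn : 0 < Real.log (n : ℝ) := Real.log_pos (by linarith)
  have hlogn' : 0 ≤ Real.log (n : ℝ) := hlogn.le
  have hX1' : 1 < X := by omega
  have hXR : (1 : ℝ) < X := by exact_mod_cast hX1'
  have hL0 : 0 < L := Real.log_pos hXR
  have hn0 : (0 : ℝ) < n := by linarith
  have t1 := hT X (by omega) n hn1 hn2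
  have t2 := hH X (by omega) n hn1 hn2
  have t3 := hE X (by omega) n hn1 hn2
  have t3' := hE1 X (by omega) n hn1 hn2
  have t4 := hQ X (by omega) n hn1 hn2
  have t5 := hN X (by omega) n hn1 hn2
  have t6 := hk2 X (by omega)
  have t7 := hk2c X (by omega)
  have t8 := hk3 X (by omega)
  have t9 := hka X (by omega)
  have hn9 := (h8 X (by omega) n hn1 hn2).1
  rw [← hL] at hn9
  set K : Finset ℕ := (Icc 2 X).filter (fun k : ℕ => Simp κ z k ∧ (z : ℝ) ≤ (n : ℝ) / k ∧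
    ∀ j ∈ ty κ z k, j < bx κ z ((n : ℝ) / k)) with hK
  have hqK : ∀ k ∈ K, 0 ≤ qn n k ∧ qn n k ≤ 10 * (1 / (k : ℝ)) := by
    intro k hkK
    rw [hK, Finset.mem_filter, Finset.mem_Icc] at hkK
    obtain ⟨⟨hk2', hkX⟩, hk2, hk3, hk4⟩ := hkK
    have hk0 : (0 : ℝ) < k := by exact_mod_cast (by omega : 0 < k)
    obtain ⟨-, hlk, -, hr2⟩ := hl X (by omega) n k hn1 hn2 (by omega) hk2 hk3 hk4
    have e : qn n k = Real.log n / Real.log ((n : ℝ) / k) * (1 / (k : ℝ)) := by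
      unfold qn
      field_simp
    refine ⟨div_nonneg hlogn' (by positivity), ?_⟩
    rw [e]
    exact mul_le_mul_of_nonneg_right hr2 (by positivity)
  have hterm : ∀ k ∈ K, Real.log n * (vty κ z W ((n : ℝ) / k) k /
      (k * Real.log ((n : ℝ) / k))) ≤
      c1 * (if k ∈ KT X n θ then qn n k else 0) + c2 * (if k ∈ KH X θ ε then qn n k else 0) +
        c3 * (if k ∈ IY.PS X θ ((1 - θ) / 2) then (Real.log k / L - θ) * qn n k + ε * qn n k
          else 0) +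
        c4 * (if k ∈ KQ X n θ then qn n k else 0) +
        c5 * ((if k ∈ IY.PS X (1 / 2 - ε) (1 / 2 + ε) then qn n k else 0) +
          10 * (if k ∈ KE2 X θ (1 / 2) ε then 1 / (k : ℝ) else 0) +
          10 * (if k ∈ KE2 X θ c ε then 1 / (k : ℝ) else 0) +
          10 * (if k ∈ KE3 X θ ε then 1 / (k : ℝ) else 0)) +
        10 * ε * (if k ∈ KA2 X θ then 1 / (k : ℝ) else 0) := by
    intro k hkK
    obtain ⟨hq0, hq10⟩ := hqK k hkK
    rw [hK, Finset.mem_filter, Finset.mem_Icc] at hkK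
    obtain ⟨⟨hk2', hkX⟩, hk2, hk3, hk4⟩ := hkK
    have hv : vty κ z W ((n : ℝ) / k) k =
        W (insert (bx κ z ((n : ℝ) / k)) (ty κ z k)) := by
      unfold vty
      rw [if_pos ⟨hk2, hk3, hk4⟩]
    have e : Real.log n * (vty κ z W ((n : ℝ) / k) k / (k * Real.log ((n : ℝ) / k))) =
        W (insert (bx κ z ((n : ℝ) / k)) (ty κ z k)) * qn n k := by
      rw [hv]
      unfold qn
      ring
    rw [e]
    refine (mul_le_mul_of_nonneg_right (hW k hk2' hk2 hk3 hk4) hq0).trans ?_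
    have f : ∀ (S : Finset ℕ), (if k ∈ S then (1 : ℝ) else 0) * qn n k ≤
        10 * (if k ∈ S then 1 / (k : ℝ) else 0) := by
      intro S
      split_ifs
      · linarith
      · linarith
    have g : ∀ (S : Finset ℕ), (if k ∈ S then (1 : ℝ) else 0) * qn n k =
        (if k ∈ S then qn n k else 0) := by
      intro S
      split_ifs <;> ring
    have f1 := f (KE2 X θ (1 / 2) ε)
    have f2 := f (KE2 X θ c ε)
    have f3 := f (KE3 X θ ε)
    have f4 := mul_le_mul_of_nonneg_left (f (KA2 X θ)) hε.le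
    have g1 := g (KT X n θ)
    have g2 := g (KH X θ ε)
    have g3 := g (KQ X n θ)
    have g4 := g (IY.PS X (1 / 2 - ε) (1 / 2 + ε))
    have g5 : (if k ∈ IY.PS X θ ((1 - θ) / 2) then Real.log k / Real.log X - θ + ε else 0) *
        qn n k = (if k ∈ IY.PS X θ ((1 - θ) / 2) then
          (Real.log k / L - θ) * qn n k + ε * qn n k else 0) := by
      rw [← hL]
      split_ifs <;> ring
    unfold PB
    rw [← g1, ← g2, ← g3, ← g4, ← g5]
    have f5 := mul_le_mul_of_nonneg_left (add_le_add (add_le_add f1 f2) f3) hc5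
    linarith
  -- terms outside `K` vanish
  have hzero : ∀ k ∈ Icc 2 X, k ∉ K → Real.log n * (vty κ z W ((n : ℝ) / k) k /
      (k * Real.log ((n : ℝ) / k))) = 0 := by
    intro k hk hkK
    have hv : vty κ z W ((n : ℝ) / k) k = 0 := by
      unfold vty
      rw [if_neg]
      intro hcon
      apply hkK
      rw [hK, Finset.mem_filter]
      exact ⟨hk, hcon⟩
    rw [hv, zero_div, mul_zero]
  have hsplit : Icc 1 X = insert 1 (Icc 2 X) := by
    ext k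
    simp only [Finset.mem_Icc, Finset.mem_insert]
    omega
  have h1n : (1 : ℕ) ∉ Icc 2 X := by
    simp
  have hg2 : gty κ X W n =
      vty κ z W ((n : ℝ) / (1 : ℕ)) 1 / ((1 : ℕ) * Real.log ((n : ℝ) / (1 : ℕ))) +
      ∑ k ∈ Icc 2 X, vty κ z W ((n : ℝ) / k) k / (k * Real.log ((n : ℝ) / k)) := by
    unfold gty
    rw [if_pos ⟨hn1, hn2⟩, hsplit, Finset.sum_insert h1n]
  have hsimp : Simp κ z 1 := by
    refine ⟨⟨one_ne_zero, ?_⟩, squarefree_one, ?_⟩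
    · intro p hp
      simp at hp
    · intro p hp
      simp at hp
  have hty : ty κ z 1 = ∅ := by
    unfold ty
    simp
  have hone : Real.log n * (vty κ z W ((n : ℝ) / (1 : ℕ)) 1 /
      ((1 : ℕ) * Real.log ((n : ℝ) / (1 : ℕ)))) =
      W (insert (bx κ z ((n : ℝ) / (1 : ℕ))) (ty κ z 1)) := by
    unfold vty
    rw [if_pos ⟨hsimp, by rw [Nat.cast_one, div_one]; exact hnz, by
      rw [hty]
      intro j hj
      simp at hj⟩]
    rw [Nat.cast_one, div_one, one_mul]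
    field_simp
  rw [hg2, mul_add, hone, Finset.mul_sum]
  refine add_le_add le_rfl ?_
  have hKsub : K ⊆ Icc 2 X := Finset.filter_subset _ _
  rw [← Finset.sum_subset hKsub hzero]
  refine (Finset.sum_le_sum hterm).trans ?_
  simp only [Finset.sum_add_distrib, ← Finset.mul_sum]
  have hqPS : ∀ u w : ℝ, 0 < u → w ≤ 9 / 10 → ∀ k ∈ IY.PS X u w, 0 ≤ qn n k := by
    intro u w hu hw k hk
    obtain ⟨hp, _, _, hk3⟩ := of_mem_PS hX1' hk
    have hk0 : (0 : ℝ) < k := by exact_mod_cast hp.pos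
    refine div_nonneg hlogn' (mul_nonneg hk0.le ?_)
    rw [← hL] at hk3
    rw [Real.log_div hn0.ne' hk0.ne']
    nlinarith
  have hqKT : ∀ k ∈ KT X n θ, 0 ≤ qn n k := by
    intro k hk
    unfold KT at hk
    rw [Finset.mem_filter] at hk
    obtain ⟨_, p, q', hp, _, _, _, _, h10, _⟩ := hk
    have h11 : 0 ≤ Real.log (p : ℝ) := Real.log_natCast_nonneg p
    exact div_nonneg hlogn' (mul_nonneg (Nat.cast_nonneg k) (h11.trans h10))
  have hqKQ : ∀ k ∈ KQ X n θ, 0 ≤ qn n k := by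
    intro k hk
    unfold KQ at hk
    rw [Finset.mem_filter] at hk
    obtain ⟨_, p, q', r, hp, _, _, _, _, _, _, h10⟩ := hk
    have h11 : 0 ≤ Real.log (p : ℝ) := Real.log_natCast_nonneg p
    exact div_nonneg hlogn' (mul_nonneg (Nat.cast_nonneg k) (h11.trans h10))
  have hqKH : ∀ k ∈ KH X θ ε, 0 ≤ qn n k := by
    intro k hk
    unfold KH at hk
    rw [Finset.mem_filter, Finset.mem_Icc] at hk
    obtain ⟨⟨hk1, _⟩, _, _, _, _, _, _, _, h10⟩ := hk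
    have hk0 : (0 : ℝ) < k := by exact_mod_cast hk1
    refine div_nonneg hlogn' (mul_nonneg hk0.le ?_)
    rw [← hL] at h10
    rw [Real.log_div hn0.ne' hk0.ne']
    nlinarith
  have hind : ∀ (S : Finset ℕ) (f : ℕ → ℝ), (∀ k ∈ S, 0 ≤ f k) →
      ∑ k ∈ K, (if k ∈ S then f k else 0) ≤ ∑ k ∈ S, f k := by
    intro S f hf
    rw [← Finset.sum_filter]
    exact Finset.sum_le_sum_of_subset_of_nonneg (fun k hk => (Finset.mem_filter.mp hk).2)
      fun k hk _ => hf k hk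
  have h1k : ∀ (S : Finset ℕ), ∀ k ∈ S, (0 : ℝ) ≤ 1 / (k : ℝ) := fun S k _ =>
    div_nonneg zero_le_one (Nat.cast_nonneg k)
  have u1 : ∑ k ∈ K, (if k ∈ KT X n θ then qn n k else 0) ≤ tT := (hind _ _ hqKT).trans t1
  have u2 : ∑ k ∈ K, (if k ∈ KH X θ ε then qn n k else 0) ≤ tH := (hind _ _ hqKH).trans t2
  have u4 : ∑ k ∈ K, (if k ∈ KQ X n θ then qn n k else 0) ≤ tQ := (hind _ _ hqKQ).trans t4
  have u5 : ∑ k ∈ K, (if k ∈ IY.PS X (1 / 2 - ε) (1 / 2 + ε) then qn n k else 0) ≤ 20 * ε :=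
    (hind _ _ (hqPS _ _ (by linarith) (by linarith))).trans t5
  have u6 := (hind (KE2 X θ (1 / 2) ε) _ (h1k _)).trans t6
  have u7 := (hind (KE2 X θ c ε) _ (h1k _)).trans t7
  have u8 := (hind (KE3 X θ ε) _ (h1k _)).trans t8
  have u9 := (hind (KA2 X θ) _ (h1k _)).trans t9
  have hq3 := hqPS θ ((1 - θ) / 2) (by linarith) (by linarith)
  have u3 : ∑ k ∈ K, (if k ∈ IY.PS X θ ((1 - θ) / 2) then (Real.log k / L - θ) * qn n k + ε * qn n k
      else 0) ≤ tE + 3 * ε := by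
    refine (hind _ (fun k => (Real.log k / L - θ) * qn n k + ε * qn n k) ?_).trans ?_
    · intro k hk
      obtain ⟨_, _, h12, _⟩ := of_mem_PS hX1' hk
      have h13 : θ ≤ Real.log k / L := by
        rw [le_div_iff₀ hL0]
        exact h12
      have h14 := hq3 k hk
      have h15 : 0 ≤ (Real.log k / L - θ) * qn n k := mul_nonneg (by linarith) h14
      have h16 : 0 ≤ ε * qn n k := mul_nonneg hε.le h14
      exact add_nonneg h15 h16
    · rw [Finset.sum_add_distrib, ← Finset.mul_sum]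
      have h17 : ε * ∑ k ∈ IY.PS X θ ((1 - θ) / 2), qn n k ≤ ε * 3 :=
        mul_le_mul_of_nonneg_left t3' hε.le
      linarith
  have v1 := mul_le_mul_of_nonneg_left u1 hc1
  have v2 := mul_le_mul_of_nonneg_left u2 hc2
  have v3 := mul_le_mul_of_nonneg_left u3 hc3
  have v4 := mul_le_mul_of_nonneg_left u4 hc4
  have v5 := mul_le_mul_of_nonneg_left (add_le_add (add_le_add (add_le_add u5
    (mul_le_mul_of_nonneg_left u6 (show (0 : ℝ) ≤ 10 by norm_num)))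
    (mul_le_mul_of_nonneg_left u7 (show (0 : ℝ) ≤ 10 by norm_num)))
    (mul_le_mul_of_nonneg_left u8 (show (0 : ℝ) ≤ 10 by norm_num))) hc5
  have v6 := mul_le_mul_of_nonneg_left u9 (show 0 ≤ 10 * ε by positivity)
  linarith

end Pool.MP_dd84fd_nt.LX
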