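import Pool.Agent.Lib.MP_dd84fd_nt.JX.PlSig
import Pool.Agent.Lib.MP_dd84fd_nt.LX.PlArc

/-!
# PL_L-Sig: the pointwise lemma PL_L, one side of the arcs

As `JXP.pl_sigma_j` (`JX/PlSig.lean`) for two families: the first wide (`arc_w`), the second narrow (`arc_j`);
inputs `TwoTwoW`, `LamTwoW` (`LX/PlDefs.lean`).
-/

set_option autoImplicit false

namespace Pool.MP_dd84fd_nt.LXP

open Finset Pool.MP_67663b_nt.Odd Pool.MP_dd84fd_nt.E2 Pool.MP_dd84fd_nt.PL Pool.MP_dd84fd_nt.HX Pool.MP_dd84fd_nt.HXP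
open Pool.MP_dd84fd_nt.IX (W1 WI)
open Pool.MP_dd84fd_nt.IXP (WI_l2)
open Pool.MP_dd84fd_nt.JX (Adm DecJ)
open Pool.MP_dd84fd_nt.JXP
open Pool.MP_dd84fd_nt.LX (DecW)

private theorem Bq_add_right (X : ℕ) (b σ : ℝ) (n q : ℕ) (f g g' : ℕ → ℝ → ℂ)
    (hf : ∀ a, Continuous (f a)) (hg : ∀ a, Continuous (g a)) (hg' : ∀ a, Continuous (g' a)) :
    Bq X b σ n q f (fun a x => g a x + g' a x) = Bq X b σ n q f g + Bq X b σ n q f g' := by
  rw [Bq_comm, Bq_add_left X b σ n q g g' f hg hg' hf, Bq_comm X b σ n q g f,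
    Bq_comm X b σ n q g' f]

private theorem Bq_sum_right (X : ℕ) (b σ : ℝ) (n q I : ℕ) (f : ℕ → ℝ → ℂ) (g : ℕ → ℕ → ℝ → ℂ)
    (hf : ∀ a, Continuous (f a)) (hg : ∀ i a, Continuous (g i a)) :
    Bq X b σ n q f (fun a x => ∑ i ∈ range I, g i a x) = ∑ i ∈ range I, Bq X b σ n q f (g i) := by
  rw [Bq_comm, Bq_sum_left X b σ n q I g f hg hf]
  exact sum_congr rfl fun i _ => Bq_comm _ _ _ _ _ _ _

private theorem expand (X n : ℕ) (bq : ℕ → ℝ) (σ : ℝ) (QQ : Finset ℕ) (hb : ∀ q ∈ QQ, 0 < bq q)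
    (M1 E1 M2 E2 : ℕ → ℕ → ℝ → ℂ) (hM1 : ∀ q a, Continuous (M1 q a))
    (hE1 : ∀ q a, Continuous (E1 q a)) (hM2 : ∀ q a, Continuous (M2 q a))
    (hE2 : ∀ q a, Continuous (E2 q a)) :
    ∑ q ∈ QQ, ‖Bq X (bq q) σ n q (fun a x => M1 q a x + E1 q a x)
        (fun a x => M2 q a x + E2 q a x)‖ ≤
      ∑ q ∈ QQ, ‖Bq X (bq q) σ n q (M1 q) (M2 q)‖ +
      Real.sqrt (N2 X bq QQ E1) * Real.sqrt (N2 X bq QQ (fun q a x => M2 q a x + E2 q a x)) +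
      Real.sqrt (N2 X bq QQ (fun q a x => M1 q a x + E1 q a x)) * Real.sqrt (N2 X bq QQ E2) +
      Real.sqrt (N2 X bq QQ E1) * Real.sqrt (N2 X bq QQ E2) := by
  have key : ∀ q ∈ QQ, ‖Bq X (bq q) σ n q (fun a x => M1 q a x + E1 q a x)
        (fun a x => M2 q a x + E2 q a x)‖ ≤
      ‖Bq X (bq q) σ n q (M1 q) (M2 q)‖ +
      ‖Bq X (bq q) σ n q (E1 q) (fun a x => M2 q a x + E2 q a x)‖ +
      ‖Bq X (bq q) σ n q (fun a x => M1 q a x + E1 q a x) (E2 q)‖ +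
      ‖Bq X (bq q) σ n q (E1 q) (E2 q)‖ := by
    intro q _
    have h1 := Bq_add_left X (bq q) σ n q (M1 q) (E1 q) (fun a x => M2 q a x + E2 q a x)
      (hM1 q) (hE1 q) (fun a => (hM2 q a).add (hE2 q a))
    have h2 := Bq_add_right X (bq q) σ n q (M1 q) (M2 q) (E2 q) (hM1 q) (hM2 q) (hE2 q)
    have h3 := Bq_add_left X (bq q) σ n q (M1 q) (E1 q) (E2 q) (hM1 q) (hE1 q) (hE2 q)
    have h4 : Bq X (bq q) σ n q (fun a x => M1 q a x + E1 q a x)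
        (fun a x => M2 q a x + E2 q a x) =
        Bq X (bq q) σ n q (M1 q) (M2 q) +
        Bq X (bq q) σ n q (E1 q) (fun a x => M2 q a x + E2 q a x) +
        Bq X (bq q) σ n q (fun a x => M1 q a x + E1 q a x) (E2 q) -
        Bq X (bq q) σ n q (E1 q) (E2 q) := by
      rw [h1, h2, h3]
      ring
    rw [h4]
    refine (norm_sub_le _ _).trans ?_
    have h5 := norm_add_le (Bq X (bq q) σ n q (M1 q) (M2 q) +
        Bq X (bq q) σ n q (E1 q) (fun a x => M2 q a x + E2 q a x))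
        (Bq X (bq q) σ n q (fun a x => M1 q a x + E1 q a x) (E2 q))
    have h6 := norm_add_le (Bq X (bq q) σ n q (M1 q) (M2 q))
        (Bq X (bq q) σ n q (E1 q) (fun a x => M2 q a x + E2 q a x))
    linarith
  refine (sum_le_sum key).trans ?_
  rw [sum_add_distrib, sum_add_distrib, sum_add_distrib]
  have c1 : ∑ q ∈ QQ, ‖Bq X (bq q) σ n q (E1 q) (fun a x => M2 q a x + E2 q a x)‖ ≤
      Real.sqrt (N2 X bq QQ E1) * Real.sqrt (N2 X bq QQ (fun q a x => M2 q a x + E2 q a x)) :=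
    Bq_cauchy X bq σ n QQ hb E1 (fun q a x => M2 q a x + E2 q a x) hE1
      (fun q a => (hM2 q a).add (hE2 q a))
  have c2 : ∑ q ∈ QQ, ‖Bq X (bq q) σ n q (fun a x => M1 q a x + E1 q a x) (E2 q)‖ ≤
      Real.sqrt (N2 X bq QQ (fun q a x => M1 q a x + E1 q a x)) * Real.sqrt (N2 X bq QQ E2) :=
    Bq_cauchy X bq σ n QQ hb (fun q a x => M1 q a x + E1 q a x) E2
      (fun q a => (hM1 q a).add (hE1 q a)) hE2
  have c3 := Bq_cauchy X bq σ n QQ hb E1 E2 hE1 hE2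
  linarith

private theorem sum_one (X n I : ℕ) (bq : ℕ → ℝ) (σ : ℝ) (QQ : Finset ℕ)
    (g : ℕ → ℕ → ℝ → ℂ) (hg : ∀ q a, Continuous (g q a))
    (F : ℕ → ℕ → ℕ → ℝ → ℂ) (hF : ∀ i q a, Continuous (F i q a)) (R : ℝ)
    (h : ∀ i < I, ∑ q ∈ QQ, ‖Bq X (bq q) σ n q (g q) (F i q)‖ ≤ R) :
    ∑ q ∈ QQ, ‖Bq X (bq q) σ n q (g q) (fun a x => ∑ i ∈ range I, F i q a x)‖ ≤ I * R := by
  have h1 : ∀ q ∈ QQ, ‖Bq X (bq q) σ n q (g q) (fun a x => ∑ i ∈ range I, F i q a x)‖ ≤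
      ∑ i ∈ range I, ‖Bq X (bq q) σ n q (g q) (F i q)‖ := by
    intro q _
    rw [Bq_sum_right X (bq q) σ n q I (g q) (fun i => F i q) (hg q) (fun i a => hF i q a)]
    exact norm_sum_le _ _
  refine (sum_le_sum h1).trans ?_
  rw [sum_comm]
  have h2 : ∑ i ∈ range I, ∑ q ∈ QQ, ‖Bq X (bq q) σ n q (g q) (F i q)‖ ≤
      ∑ _i ∈ range I, R := sum_le_sum fun i hi => h i (mem_range.1 hi)
  rw [sum_const, card_range, nsmul_eq_mul] at h2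
  exact h2

/-- `∑_i F_i` against `∑_j F'_j` -/
private theorem sum_two (X n I I' : ℕ) (bq : ℕ → ℝ) (σ : ℝ) (QQ : Finset ℕ)
    (F F' : ℕ → ℕ → ℕ → ℝ → ℂ) (hF : ∀ i q a, Continuous (F i q a))
    (hF' : ∀ i q a, Continuous (F' i q a)) (R : ℝ)
    (h : ∀ i < I, ∀ j < I', ∑ q ∈ QQ, ‖Bq X (bq q) σ n q (F i q) (F' j q)‖ ≤ R) :
    ∑ q ∈ QQ, ‖Bq X (bq q) σ n q (fun a x => ∑ i ∈ range I, F i q a x)
      (fun a x => ∑ i ∈ range I', F' i q a x)‖ ≤ I' * (I * R) := by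
  refine sum_one X n I' bq σ QQ (fun q a x => ∑ i ∈ range I, F i q a x)
    (fun q a => continuous_finsetSum _ fun i _ => hF i q a) F' hF' (I * R) fun j hj => ?_
  have h1 := sum_one X n I bq σ QQ (fun q => F' j q) (fun q a => hF' j q a) F hF R
    (fun i hi => by
      refine le_trans (le_of_eq ?_) (h i hi j hj)
      exact sum_congr rfl fun q _ => by rw [Bq_comm])
  refine le_trans (le_of_eq ?_) h1
  exact sum_congr rfl fun q _ => by rw [Bq_comm]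

private theorem hroot {L : ℝ} (hL : 0 < L) (m : ℕ) :
    (L ^ (4 * m)) ^ (-(1 / 4) : ℝ) = (L ^ m)⁻¹ := by
  have h0 : 0 ≤ L ^ m := pow_nonneg hL.le m
  rw [Real.rpow_neg (pow_nonneg hL.le _), show 4 * m = m * 4 by ring, pow_mul,
    show (1 / 4 : ℝ) = ((4 : ℕ) : ℝ)⁻¹ by norm_num, Real.pow_rpow_inv_natCast h0 (by norm_num)]

private theorem ev_pow (K : ℕ) (η : ℝ) (hη : 0 < η) :
    ∀ᶠ X : ℕ in Filter.atTop, (Real.log X) ^ K ≤ (X : ℝ) ^ η := by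
  have h := (isLittleO_log_rpow_rpow_atTop (K : ℝ) hη).bound (c := 1) one_pos
  have h2 := (tendsto_natCast_atTop_atTop (R := ℝ)).eventually h
  filter_upwards [h2, Filter.eventually_ge_atTop 1] with X hX h1
  have h3 : 0 ≤ Real.log X := Real.log_nonneg (by exact_mod_cast h1)
  have h4 : 0 ≤ (X : ℝ) ^ η := Real.rpow_nonneg (Nat.cast_nonneg X) _
  rw [one_mul, Real.norm_eq_abs, Real.norm_eq_abs, Real.rpow_natCast, abs_of_nonneg h4,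
    abs_of_nonneg (pow_nonneg h3 K)] at hX
  exact hX

private theorem ev_log (c : ℝ) : ∀ᶠ X : ℕ in Filter.atTop, c ≤ Real.log X :=
  (Real.tendsto_log_atTop.comp (tendsto_natCast_atTop_atTop (R := ℝ))).eventually_ge_atTop c

/-- the size of `W` -/
private theorem W_N2 (K0 C1 : ℕ) (ww gg : ℕ → ℕ → ℝ) (hw1 : W1 K0 C1 ww gg) (D' : ℕ)
    (hD : 1 ≤ D') : ∃ X0 : ℕ, ∀ X : ℕ, X0 ≤ X → ∀ s : ℝ, |s| ≤ 1 →
    ∀ (b N σ : ℝ) (QQ : Finset ℕ) (bq : ℕ → ℝ), 0 < b → 1 ≤ N → N * b ≤ X → (σ = 1 ∨ σ = -1) →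
    Fam QQ N → (∀ q ∈ QQ, b ≤ bq q ∧ bq q ≤ 2 * b) →
    N2 X bq QQ (fun q a x => WJa ww gg s σ (wX D' X) X q a x) ≤ 4 * X * (Real.log X) ^ 3 := by
  obtain ⟨X0, h⟩ := WI_l2 K0 C1 ww gg hw1 D' hD
  refine ⟨max X0 1, fun X hX s hs b N σ QQ bq hb hN1 hNb hσ hN hbq => ?_⟩
  obtain ⟨e, h2, h3⟩ := h X ((le_max_left _ _).trans hX) s hs
  have h4 := N2_tp X ((le_max_right _ _).trans hX) b N σ hb hN1 hNb hσ QQ hN bq hbq X e
  have h5 : (fun (q a : ℕ) (x : ℝ) => WJa ww gg s σ (wX D' X) X q a x) =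
      fun (q a : ℕ) (x : ℝ) => tp X e ((a : ℝ) / q + σ * x) := by
    funext q a x
    exact h3 _
  rw [h5]
  refine h4.trans ?_
  linarith

/-- the error terms -/
private theorem err_bound {Xr L N1 N2' W1 W2 : ℝ} (A : ℕ) (hX : 0 ≤ Xr) (hL : 1 ≤ L)
    (h1 : N1 ≤ 4 * Xr / L ^ (2 * (A + 6))) (h2 : N2' ≤ 4 * Xr / L ^ (2 * (A + 6)))
    (h3 : W1 ≤ 4 * Xr * L ^ 3) (h4 : W2 ≤ 4 * Xr * L ^ 3) :
    Real.sqrt N1 * Real.sqrt W2 + Real.sqrt W1 * Real.sqrt N2' + Real.sqrt N1 * Real.sqrt N2' ≤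
      12 * (Xr / L ^ (A + 4)) := by
  have hL0 : 0 < L := by linarith
  have e1 : Real.sqrt (4 * Xr / L ^ (2 * (A + 6))) = 2 * Real.sqrt Xr / L ^ (A + 6) := by
    rw [show 4 * Xr / L ^ (2 * (A + 6)) = (2 / L ^ (A + 6)) ^ 2 * Xr by
      rw [div_pow, ← pow_mul, show (A + 6) * 2 = 2 * (A + 6) by ring]
      ring, Real.sqrt_mul (by positivity), Real.sqrt_sq (by positivity)]
    ring
  have e2 : Real.sqrt (4 * Xr * L ^ 4) = 2 * Real.sqrt Xr * L ^ 2 := by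
    rw [show 4 * Xr * L ^ 4 = (2 * L ^ 2) ^ 2 * Xr by ring, Real.sqrt_mul (by positivity),
      Real.sqrt_sq (by positivity)]
    ring
  have h34 : 4 * Xr * L ^ 3 ≤ 4 * Xr * L ^ 4 := by
    apply mul_le_mul_of_nonneg_left _ (by positivity)
    exact pow_le_pow_right₀ hL (by norm_num)
  have a1 : Real.sqrt N1 ≤ 2 * Real.sqrt Xr / L ^ (A + 6) := e1 ▸ Real.sqrt_le_sqrt h1
  have a2 : Real.sqrt N2' ≤ 2 * Real.sqrt Xr / L ^ (A + 6) := e1 ▸ Real.sqrt_le_sqrt h2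
  have a3 : Real.sqrt W1 ≤ 2 * Real.sqrt Xr * L ^ 2 := e2 ▸ Real.sqrt_le_sqrt (h3.trans h34)
  have a4 : Real.sqrt W2 ≤ 2 * Real.sqrt Xr * L ^ 2 := e2 ▸ Real.sqrt_le_sqrt (h4.trans h34)
  have hs : Real.sqrt Xr * Real.sqrt Xr = Xr := Real.mul_self_sqrt hX
  have hsn := Real.sqrt_nonneg Xr
  have hLL : L ^ 2 / L ^ (A + 6) = 1 / L ^ (A + 4) := by
    rw [show A + 6 = (A + 4) + 2 by ring, pow_add L (A + 4) 2]
    field_simp
  have p1 : Real.sqrt N1 * Real.sqrt W2 ≤ 4 * (Xr / L ^ (A + 4)) := by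
    calc Real.sqrt N1 * Real.sqrt W2
        ≤ (2 * Real.sqrt Xr / L ^ (A + 6)) * (2 * Real.sqrt Xr * L ^ 2) :=
          mul_le_mul a1 a4 (Real.sqrt_nonneg _) (by positivity)
      _ = 4 * (Real.sqrt Xr * Real.sqrt Xr) * (L ^ 2 / L ^ (A + 6)) := by ring
      _ = 4 * (Xr / L ^ (A + 4)) := by
          rw [hs, hLL]
          ring
  have p2 : Real.sqrt W1 * Real.sqrt N2' ≤ 4 * (Xr / L ^ (A + 4)) := by
    calc Real.sqrt W1 * Real.sqrt N2'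
        ≤ (2 * Real.sqrt Xr * L ^ 2) * (2 * Real.sqrt Xr / L ^ (A + 6)) :=
          mul_le_mul a3 a2 (Real.sqrt_nonneg _) (by positivity)
      _ = 4 * (Real.sqrt Xr * Real.sqrt Xr) * (L ^ 2 / L ^ (A + 6)) := by ring
      _ = 4 * (Xr / L ^ (A + 4)) := by
          rw [hs, hLL]
          ring
  have p3 : Real.sqrt N1 * Real.sqrt N2' ≤ 4 * (Xr / L ^ (A + 4)) := by
    calc Real.sqrt N1 * Real.sqrt N2'
        ≤ (2 * Real.sqrt Xr / L ^ (A + 6)) * (2 * Real.sqrt Xr / L ^ (A + 6)) :=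
          mul_le_mul a1 a2 (Real.sqrt_nonneg _) (by positivity)
      _ = 4 * ((Real.sqrt Xr * Real.sqrt Xr) / (L ^ (A + 6) * L ^ (A + 6))) := by ring
      _ ≤ 4 * (Xr / L ^ (A + 4)) := by
          rw [hs]
          apply mul_le_mul_of_nonneg_left _ (by norm_num)
          apply div_le_div_of_nonneg_left hX (by positivity)
          rw [← pow_add]
          exact pow_le_pow_right₀ hL (by omega)
  linarith

/-- a function independent of `a` against type II -/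
private theorem lt_bound {Xr L C3 C5 I' b Sg x16 : ℝ} (C0 K2 E T : ℕ) (hC3 : 0 < C3)
    (hC5 : 0 < C5) (hX : 0 ≤ Xr)
    (hL : 1 ≤ L) (hI0 : 0 ≤ I') (hI : I' ≤ L ^ C0) (hb0 : 0 < b) (hb : b ≤ L ^ K2)
    (hT : E + (4 * C0 + 3 + K2) ≤ T)
    (hS : Sg ≤ 2 * C5 * L * ((L ^ T)⁻¹) ^ 2) (hx : x16 ≤ (L ^ T)⁻¹) (h1 : 1 ≤ Xr * (L ^ T)⁻¹) :
    I' * (C3 * L ^ 2 * L ^ C0 * L ^ C0 * Real.sqrt (L ^ C0) * (1 + b) * Xr * (Real.sqrt Sg + x16) + 1) ≤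
      (2 * C3 * (2 * C5 + 2) + 1) * (Xr / L ^ E) := by
  have hL0 : 0 < L := by linarith
  have hy : 0 < (L ^ T)⁻¹ := by positivity
  have s1 : Real.sqrt (L ^ C0) ≤ L ^ C0 := by
    rw [Real.sqrt_le_left (by positivity)]
    have : 1 ≤ L ^ C0 := one_le_pow₀ hL
    nlinarith
  have s2 : Real.sqrt Sg ≤ (2 * C5 + 1) * L * (L ^ T)⁻¹ := by
    rw [Real.sqrt_le_left (by positivity)]
    refine hS.trans ?_
    rw [mul_pow]
    apply mul_le_mul_of_nonneg_right _ (by positivity)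
    nlinarith [mul_pos hC5 hL0, mul_nonneg hC5.le (sub_nonneg.2 hL), sq_nonneg (C5 * L)]
  have s3 : Real.sqrt Sg + x16 ≤ (2 * C5 + 2) * L * (L ^ T)⁻¹ := by
    have : (L ^ T)⁻¹ ≤ L * (L ^ T)⁻¹ := by nlinarith
    nlinarith
  have s4 : 1 + b ≤ 2 * L ^ K2 := by
    have : 1 ≤ L ^ K2 := one_le_pow₀ hL
    linarith
  have s5 : C3 * L ^ 2 * L ^ C0 * L ^ C0 * Real.sqrt (L ^ C0) * (1 + b) * Xr * (Real.sqrt Sg + x16) ≤
      C3 * L ^ 2 * L ^ C0 * L ^ C0 * L ^ C0 * (2 * L ^ K2) * Xr * ((2 * C5 + 2) * L * (L ^ T)⁻¹) := by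
    have t1 : C3 * L ^ 2 * L ^ C0 * L ^ C0 * Real.sqrt (L ^ C0) * (1 + b) * Xr ≤
        C3 * L ^ 2 * L ^ C0 * L ^ C0 * L ^ C0 * (2 * L ^ K2) * Xr := by
      apply mul_le_mul_of_nonneg_right _ hX
      apply mul_le_mul _ s4 (by linarith) (by positivity)
      exact mul_le_mul_of_nonneg_left s1 (by positivity)
    have t2 : 0 ≤ C3 * L ^ 2 * L ^ C0 * L ^ C0 * Real.sqrt (L ^ C0) * (1 + b) * Xr := by
      have : 0 < 1 + b := by linarith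
      positivity
    calc C3 * L ^ 2 * L ^ C0 * L ^ C0 * Real.sqrt (L ^ C0) * (1 + b) * Xr * (Real.sqrt Sg + x16)
        ≤ C3 * L ^ 2 * L ^ C0 * L ^ C0 * Real.sqrt (L ^ C0) * (1 + b) * Xr *
          ((2 * C5 + 2) * L * (L ^ T)⁻¹) := mul_le_mul_of_nonneg_left s3 t2
      _ ≤ _ := mul_le_mul_of_nonneg_right t1 (by positivity)
  set Q := L ^ (3 * C0 + 3 + K2) * (Xr * (L ^ T)⁻¹) with hQ
  have s6 : C3 * L ^ 2 * L ^ C0 * L ^ C0 * L ^ C0 * (2 * L ^ K2) * Xr *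
      ((2 * C5 + 2) * L * (L ^ T)⁻¹) = 2 * C3 * (2 * C5 + 2) * Q := by
    rw [hQ, show 3 * C0 + 3 + K2 = C0 + C0 + C0 + 2 + 1 + K2 by ring, pow_add, pow_add, pow_add,
      pow_add, pow_add]
    ring
  have s7 : 1 ≤ Q := by
    rw [hQ]
    have : 1 ≤ L ^ (3 * C0 + 3 + K2) := one_le_pow₀ hL
    nlinarith
  have s8 : C3 * L ^ 2 * L ^ C0 * L ^ C0 * Real.sqrt (L ^ C0) * (1 + b) * Xr *
      (Real.sqrt Sg + x16) + 1 ≤ (2 * C3 * (2 * C5 + 2) + 1) * Q := by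
    have : (2 * C3 * (2 * C5 + 2) + 1) * Q = 2 * C3 * (2 * C5 + 2) * Q + Q := by ring
    linarith
  have s9 : L ^ C0 * Q ≤ Xr / L ^ E := by
    rw [hQ]
    calc L ^ C0 * (L ^ (3 * C0 + 3 + K2) * (Xr * (L ^ T)⁻¹))
        = Xr * (L ^ (4 * C0 + 3 + K2) / L ^ T) := by
          rw [show 4 * C0 + 3 + K2 = C0 + (3 * C0 + 3 + K2) by ring, pow_add L C0]
          ring
      _ ≤ Xr * (1 / L ^ E) := by
          apply mul_le_mul_of_nonneg_left _ hX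
          rw [div_le_div_iff₀ (by positivity) (by positivity), one_mul, ← pow_add]
          exact pow_le_pow_right₀ hL (by omega)
      _ = Xr / L ^ E := by ring
  have hQ0 : 0 ≤ Q := by linarith
  calc I' * (C3 * L ^ 2 * L ^ C0 * L ^ C0 * Real.sqrt (L ^ C0) * (1 + b) * Xr *
        (Real.sqrt Sg + x16) + 1)
      ≤ I' * ((2 * C3 * (2 * C5 + 2) + 1) * Q) := mul_le_mul_of_nonneg_left s8 hI0
    _ ≤ L ^ C0 * ((2 * C3 * (2 * C5 + 2) + 1) * Q) :=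
        mul_le_mul_of_nonneg_right hI (by positivity)
    _ = (2 * C3 * (2 * C5 + 2) + 1) * (L ^ C0 * Q) := by ring
    _ ≤ (2 * C3 * (2 * C5 + 2) + 1) * (Xr / L ^ E) :=
        mul_le_mul_of_nonneg_left s9 (by positivity)

/-- two functions independent of `a` -/
private theorem ll_bound {Xr L C4 C5 b Sg : ℝ} (C0 K2 E T : ℕ) (hC4 : 0 < C4)
    (hC5 : 0 < C5) (hX : 0 ≤ Xr) (hL : 1 ≤ L) (hb0 : 0 < b) (hb : b ≤ L ^ K2)
    (hT : E + (2 * C0 + 1 + K2) ≤ T) (hS : Sg ≤ 2 * C5 * L * ((L ^ T)⁻¹) ^ 2) :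
    C4 * (L ^ C0) ^ 2 * b * Xr * Sg ≤ 2 * C4 * C5 * (Xr / L ^ E) := by
  have hL0 : 0 < L := by linarith
  have hy : 0 < (L ^ T)⁻¹ := by positivity
  have hy1 : (L ^ T)⁻¹ ≤ 1 := inv_le_one_of_one_le₀ (one_le_pow₀ hL)
  have h1 : C4 * (L ^ C0) ^ 2 * b * Xr * Sg ≤
      C4 * (L ^ C0) ^ 2 * L ^ K2 * Xr * (2 * C5 * L * (L ^ T)⁻¹) := by
    have t1 : C4 * (L ^ C0) ^ 2 * b * Xr ≤ C4 * (L ^ C0) ^ 2 * L ^ K2 * Xr := by
      apply mul_le_mul_of_nonneg_right _ hX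
      exact mul_le_mul_of_nonneg_left hb (by positivity)
    have t2 : Sg ≤ 2 * C5 * L * (L ^ T)⁻¹ := by
      refine hS.trans ?_
      apply mul_le_mul_of_nonneg_left _ (by positivity)
      nlinarith
    calc C4 * (L ^ C0) ^ 2 * b * Xr * Sg
        ≤ C4 * (L ^ C0) ^ 2 * b * Xr * (2 * C5 * L * (L ^ T)⁻¹) :=
          mul_le_mul_of_nonneg_left t2 (by positivity)
      _ ≤ _ := mul_le_mul_of_nonneg_right t1 (by positivity)
  refine h1.trans ?_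
  calc C4 * (L ^ C0) ^ 2 * L ^ K2 * Xr * (2 * C5 * L * (L ^ T)⁻¹)
      = 2 * C4 * C5 * (Xr * (L ^ (2 * C0 + 1 + K2) / L ^ T)) := by
        rw [pow_add L (2 * C0 + 1), pow_succ L (2 * C0)]
        ring
    _ ≤ 2 * C4 * C5 * (Xr * (1 / L ^ E)) := by
        apply mul_le_mul_of_nonneg_left _ (by positivity)
        apply mul_le_mul_of_nonneg_left _ hX
        rw [div_le_div_iff₀ (by positivity) (by positivity), one_mul, ← pow_add]
        exact pow_le_pow_right₀ hL (by omega)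
    _ = 2 * C4 * C5 * (Xr / L ^ E) := by ring

private theorem four (X n : ℕ) (bq : ℕ → ℝ) (σ : ℝ) (QQ : Finset ℕ)
    (l1 l2 G G' : ℕ → ℕ → ℝ → ℂ) (h1 : ∀ q a, Continuous (l1 q a)) (h2 : ∀ q a, Continuous (l2 q a))
    (hG : ∀ q a, Continuous (G q a)) (hG' : ∀ q a, Continuous (G' q a)) :
    ∑ q ∈ QQ, ‖Bq X (bq q) σ n q (fun a x => l1 q a x + G q a x) (fun a x => l2 q a x + G' q a x)‖ ≤
      ∑ q ∈ QQ, ‖Bq X (bq q) σ n q (l1 q) (l2 q)‖ + ∑ q ∈ QQ, ‖Bq X (bq q) σ n q (l1 q) (G' q)‖ +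
      ∑ q ∈ QQ, ‖Bq X (bq q) σ n q (l2 q) (G q)‖ + ∑ q ∈ QQ, ‖Bq X (bq q) σ n q (G q) (G' q)‖ := by
  rw [← sum_add_distrib, ← sum_add_distrib, ← sum_add_distrib]
  refine sum_le_sum fun q _ => ?_
  have e1 := Bq_add_left X (bq q) σ n q (l1 q) (G q) (fun a x => l2 q a x + G' q a x)
    (h1 q) (hG q) (fun a => (h2 q a).add (hG' q a))
  have e2 := Bq_add_right X (bq q) σ n q (l1 q) (l2 q) (G' q) (h1 q) (h2 q) (hG' q)
  have e3 := Bq_add_right X (bq q) σ n q (G q) (l2 q) (G' q) (hG q) (h2 q) (hG' q)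
  have e4 := Bq_comm X (bq q) σ n q (G q) (l2 q)
  rw [e1, e2, e3, e4]
  have t1 := norm_add_le (Bq X (bq q) σ n q (l1 q) (l2 q) + Bq X (bq q) σ n q (l1 q) (G' q))
    (Bq X (bq q) σ n q (l2 q) (G q) + Bq X (bq q) σ n q (G q) (G' q))
  have t2 := norm_add_le (Bq X (bq q) σ n q (l1 q) (l2 q)) (Bq X (bq q) σ n q (l1 q) (G' q))
  have t3 := norm_add_le (Bq X (bq q) σ n q (l2 q) (G q)) (Bq X (bq q) σ n q (G q) (G' q))
  linarith

/-! ### monotonicity -/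

private theorem decW_mono (B B' C2 : ℕ) (th e τ : ℝ) (ww : ℕ → ℕ → ℝ) (hB : B' ≤ B)
    (h : DecW B C2 th e τ ww) : DecW B' C2 th e τ ww := by
  obtain ⟨X0, h0⟩ := h
  obtain ⟨X1, h1⟩ := j2_big 1
  refine ⟨max X0 X1, fun X hX => ?_⟩
  obtain ⟨I, γ, α, M, K, a, c, err, p1, p2, p3, p4, p5, p6, p7, p8, p9⟩ :=
    h0 X ((le_max_left _ _).trans hX)
  have hL := h1 X ((le_max_right _ _).trans hX)
  refine ⟨I, γ, α, M, K, a, c, err, p1, p2, p3, p4, p5, p6, p7, p8, p9.trans ?_⟩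
  exact div_le_div_of_nonneg_left (Nat.cast_nonneg _) (by positivity)
    (pow_le_pow_right₀ hL hB)

private theorem decJ_mono (B B' C2 : ℕ) (th e τ : ℝ) (ww : ℕ → ℕ → ℝ) (hB : B' ≤ B)
    (h : DecJ B C2 th e τ ww) : DecJ B' C2 th e τ ww := by
  obtain ⟨X0, h0⟩ := h
  obtain ⟨X1, h1⟩ := j2_big 1
  refine ⟨max X0 X1, fun X hX => ?_⟩
  obtain ⟨I, γ, α, M, K, a, c, err, p1, p2, p3, p4, p5, p6, p7, p8, p9⟩ :=
    h0 X ((le_max_left _ _).trans hX)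
  have hL := h1 X ((le_max_right _ _).trans hX)
  refine ⟨I, γ, α, M, K, a, c, err, p1, p2, p3, p4, p5, p6, p7, p8, p9.trans ?_⟩
  exact div_le_div_of_nonneg_left (Nat.cast_nonneg _) (by positivity)
    (pow_le_pow_right₀ hL hB)

private theorem blkW_mono (X : ℕ) (τ M : ℝ) (K : ℕ) (MM : Finset ℕ) (a c : ℕ → ℂ)
    (A S A' S' : ℝ) (hX : 1 ≤ X) (hA : A ≤ A') (hS : S ≤ S') (h : BlkW X τ M K MM a c A S) :
    BlkW X τ M K MM a c A' S' := by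
  obtain ⟨p1, p2, p3, p4, p5, p6, p7, p8⟩ := h
  have hX0 : (0 : ℝ) < X := by exact_mod_cast hX
  have hM : 0 < M := lt_of_lt_of_le (by positivity) p1
  refine ⟨p1, p2, p3, p4, fun m hm => (p5 m hm).trans hA, fun k => (p6 k).trans hA, p7,
    p8.trans ?_⟩
  exact div_le_div_of_nonneg_right (mul_le_mul_of_nonneg_right hS hX0.le) hM.le

private theorem blkJ_mono (X : ℕ) (th e τ M : ℝ) (K : ℕ) (MM : Finset ℕ) (a c : ℕ → ℂ)
    (A S A' S' : ℝ) (hX : 1 ≤ X) (hA : A ≤ A') (hS : S ≤ S')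
    (h : BlkJ X th e τ M K MM a c A S) : BlkJ X th e τ M K MM a c A' S' := by
  obtain ⟨p1, p2, p3, p4, p5, p8⟩ := h
  have hX0 : (0 : ℝ) < X := by exact_mod_cast hX
  have hM : 0 < M := lt_of_lt_of_le (by positivity) p1
  refine ⟨p1, p2, p3, p4, fun m hm => (p5 m hm).trans hA, p8.trans ?_⟩
  exact div_le_div_of_nonneg_right (mul_le_mul_of_nonneg_right hS hX0.le) hM.le

/-! ### bounds -/

/-- type II against type II -/
private theorem gg_bound' {Xr L I1 I2 h δx : ℝ} (C0 k E P : ℕ) (hX : 0 ≤ Xr)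
    (hL : 1 ≤ L) (hI10 : 0 ≤ I1) (hI1 : I1 ≤ L ^ C0) (hI20 : 0 ≤ I2) (hI2 : I2 ≤ L ^ C0)
    (hP : P = E + (2 * C0 + k * (C0 + 1)))
    (hh : h ≤ (L ^ P)⁻¹) (hδ : δx ≤ (L ^ P)⁻¹) :
    I2 * (I1 * (L ^ (k * (C0 + 1)) * Xr * (h + δx))) ≤ 2 * (Xr / L ^ E) := by
  have hL0 : 0 < L := by linarith
  have h1 : L ^ (k * (C0 + 1)) * Xr * (h + δx) ≤ L ^ (k * (C0 + 1)) * Xr * (2 * (L ^ P)⁻¹) :=
    mul_le_mul_of_nonneg_left (by linarith) (by positivity)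
  have h2 : 0 ≤ L ^ (k * (C0 + 1)) * Xr * (2 * (L ^ P)⁻¹) := by positivity
  calc I2 * (I1 * (L ^ (k * (C0 + 1)) * Xr * (h + δx))) ≤
        I2 * (I1 * (L ^ (k * (C0 + 1)) * Xr * (2 * (L ^ P)⁻¹))) :=
        mul_le_mul_of_nonneg_left (mul_le_mul_of_nonneg_left h1 hI10) hI20
    _ ≤ L ^ C0 * (L ^ C0 * (L ^ (k * (C0 + 1)) * Xr * (2 * (L ^ P)⁻¹))) :=
        mul_le_mul hI2 (mul_le_mul_of_nonneg_right hI1 h2) (by positivity) (by positivity)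
    _ = 2 * (Xr * (L ^ (2 * C0 + k * (C0 + 1)) * (L ^ P)⁻¹)) := by
        rw [pow_add L (2 * C0), two_mul C0, pow_add L C0]
        ring
    _ = 2 * (Xr / L ^ E) := by
        rw [hP, pow_add L E]
        field_simp

/-- a function independent of `a` against a wide block -/
private theorem lt_bound' {Xr L C5 I' Sg x16 : ℝ} (C0 K2 k E T : ℕ)
    (hC5 : 0 < C5) (hX : 0 ≤ Xr)
    (hL : 1 ≤ L) (hI0 : 0 ≤ I') (hI : I' ≤ L ^ C0)
    (hT : E + (C0 + k * (C0 + K2 + 1) + 1) ≤ T)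
    (hS : Sg ≤ 2 * C5 * L * ((L ^ T)⁻¹) ^ 2) (hx : x16 ≤ (L ^ T)⁻¹) :
    I' * (L ^ (k * (C0 + K2 + 1)) * Xr * (Real.sqrt Sg + x16)) ≤
      (2 * C5 + 2) * (Xr / L ^ E) := by
  have hL0 : 0 < L := by linarith
  have hy : 0 < (L ^ T)⁻¹ := by positivity
  have s2 : Real.sqrt Sg ≤ (2 * C5 + 1) * L * (L ^ T)⁻¹ := by
    rw [Real.sqrt_le_left (by positivity)]
    refine hS.trans ?_
    rw [mul_pow]
    apply mul_le_mul_of_nonneg_right _ (by positivity)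
    nlinarith [mul_pos hC5 hL0, mul_nonneg hC5.le (sub_nonneg.2 hL), sq_nonneg (C5 * L)]
  have s3 : Real.sqrt Sg + x16 ≤ (2 * C5 + 2) * L * (L ^ T)⁻¹ := by
    have : (L ^ T)⁻¹ ≤ L * (L ^ T)⁻¹ := by nlinarith
    nlinarith
  have s4 : 0 ≤ L ^ (k * (C0 + K2 + 1)) * Xr * ((2 * C5 + 2) * L * (L ^ T)⁻¹) := by positivity
  calc I' * (L ^ (k * (C0 + K2 + 1)) * Xr * (Real.sqrt Sg + x16)) ≤
        I' * (L ^ (k * (C0 + K2 + 1)) * Xr * ((2 * C5 + 2) * L * (L ^ T)⁻¹)) :=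
        mul_le_mul_of_nonneg_left (mul_le_mul_of_nonneg_left s3 (by positivity)) hI0
    _ ≤ L ^ C0 * (L ^ (k * (C0 + K2 + 1)) * Xr * ((2 * C5 + 2) * L * (L ^ T)⁻¹)) :=
        mul_le_mul_of_nonneg_right hI s4
    _ = (2 * C5 + 2) * (Xr * (L ^ (C0 + k * (C0 + K2 + 1) + 1) / L ^ T)) := by
        rw [pow_add L (C0 + k * (C0 + K2 + 1)), pow_add L C0]
        ring
    _ ≤ (2 * C5 + 2) * (Xr * (1 / L ^ E)) := by
        apply mul_le_mul_of_nonneg_left _ (by positivity)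
        apply mul_le_mul_of_nonneg_left _ hX
        rw [div_le_div_iff₀ (by positivity) (by positivity), one_mul, ← pow_add]
        exact pow_le_pow_right₀ hL (by omega)
    _ = (2 * C5 + 2) * (Xr / L ^ E) := by ring

theorem pl_sigma_l (hTT : TwoTwoW) (hLTW : LamTwoW) (A : ℕ) : ∃ B : ℕ, ∀ K0 C1 C2 : ℕ,
    ∃ K1 K2 : ℕ, ∀ th e τ : ℝ, Adm th e τ →
    ∀ ww1 gg1 ww2 gg2 : ℕ → ℕ → ℝ, W1 K0 C1 ww1 gg1 → DecW B C2 th e τ ww1 →
    W1 K0 C1 ww2 gg2 → DecJ B C2 th e τ ww2 → ∀ A1 D' : ℕ, 1 ≤ D' →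
    ∃ X0 : ℕ, ∀ X : ℕ, X0 ≤ X → ∀ s1 s2 : ℝ, |s1| ≤ 1 → |s2| ≤ 1 →
    ∀ (n : ℕ) (b N σ : ℝ) (QQ : Finset ℕ) (bq : ℕ → ℝ),
    StdJ X n th e A1 b N σ QQ bq →
    ((Real.log X) ^ K2 < b ∨ ∀ q ∈ QQ, (Real.log X) ^ K1 * (Nat.gcd q n : ℝ) < q) →
    ∑ q ∈ QQ, ‖Bq X (bq q) σ n q (WJa ww1 gg1 s1 σ (wX D' X) X q)
      (WJa ww2 gg2 s2 σ (wX D' X) X q)‖ ≤ X / (Real.log X) ^ A := by
  obtain ⟨AE, hAE⟩ : ∃ AE, AE = 2 * (A + 6) := ⟨_, rfl⟩
  obtain ⟨Bw, harcw⟩ := arc_w AE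
  obtain ⟨Bj, harcj⟩ := arc_j AE
  refine ⟨Bw + Bj, fun K0 C1 C2' => ?_⟩
  obtain ⟨Cw, harcw⟩ := harcw K0 C1 C2'
  obtain ⟨Cj, harcj⟩ := harcj K0 C1 C2'
  obtain ⟨C0, hC0⟩ : ∃ C0, C0 = Cw + Cj := ⟨_, rfl⟩
  obtain ⟨k1, htt⟩ := hTT
  obtain ⟨k2, hltw⟩ := hLTW
  obtain ⟨C3, hC3, hlt⟩ := lam_two_j
  obtain ⟨C4, hC4, hll⟩ := lam_lam
  obtain ⟨C5, hC5, hds⟩ := div_sum
  obtain ⟨P, hP⟩ : ∃ P, P = (A + 4) + (2 * C0 + k1 * (C0 + 1)) := ⟨_, rfl⟩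
  obtain ⟨K2, hK2⟩ : ∃ K2, K2 = 4 * (AE + C0 + P) := ⟨_, rfl⟩
  obtain ⟨T, hT⟩ : ∃ T, T = (A + 4) + (4 * C0 + 3 + K2) + P + (C0 + k2 * (C0 + K2 + 1) + 1) :=
    ⟨_, rfl⟩
  refine ⟨8 * T, K2, fun th e τ hadm ww1 gg1 ww2 gg2 hw1 hdc1 hw2 hdc2 A1 D' hD' => ?_⟩
  obtain ⟨Xa, ha⟩ := harcw th e τ hadm ww1 gg1 hw1 (decW_mono (Bw + Bj) Bw C2' th e τ ww1
    (by omega) hdc1) A1 D' hD'
  obtain ⟨Xb, hb⟩ := harcj th e τ hadm ww2 gg2 hw2 (decJ_mono (Bw + Bj) Bj C2' th e τ ww2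
    (by omega) hdc2) A1 D' hD'
  obtain ⟨Xt, ht⟩ := htt C0 th e τ A1 hadm
  obtain ⟨Xl, hl⟩ := hlt th e τ A1 hadm
  obtain ⟨Xv, hv⟩ := hltw C0 K2 th e τ A1 hadm
  obtain ⟨Xw, hwa⟩ := W_N2 K0 C1 ww1 gg1 hw1 D' hD'
  obtain ⟨Xu, hwb⟩ := W_N2 K0 C1 ww2 gg2 hw2 D' hD'
  obtain ⟨hadm1, hadm2, he0, hτ1, hτ2⟩ := hadm
  have hτ0 : 0 < τ := by linarith
  obtain ⟨Ct, hCt⟩ : ∃ Ct, Ct = 12 + 2 + (2 * C3 * (2 * C5 + 2) + 1) + (2 * C5 + 2) +
    2 * C4 * C5 := ⟨_, rfl⟩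
  have ev := (((ev_log (max 1 Ct)).and (ev_pow T (1 / 20) (by norm_num))).and
    (ev_pow T (τ ^ 2 / 1000) (by positivity))).and
    (Filter.eventually_ge_atTop (Xa + Xb + Xt + Xl + Xv + Xw + Xu + 1))
  obtain ⟨X0, h0⟩ := Filter.eventually_atTop.1 ev
  refine ⟨X0, fun X hX s1 s2 hs1 hs2 n b N σ QQ bq hstd hcase => ?_⟩
  obtain ⟨⟨⟨hLm, hx16⟩, hxe⟩, hXm⟩ := h0 X hX
  have hXa : Xa ≤ X := by omega
  have hXb : Xb ≤ X := by omega
  have hXt : Xt ≤ X := by omega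
  have hXl : Xl ≤ X := by omega
  have hXv : Xv ≤ X := by omega
  have hXw : Xw ≤ X := by omega
  have hXu : Xu ≤ X := by omega
  have hX1' : 1 ≤ X := by omega
  have hX1 : (1 : ℝ) ≤ X := by exact_mod_cast hX1'
  have hX0 : (0 : ℝ) < X := by linarith
  obtain ⟨L, hLdef⟩ : ∃ L, L = Real.log (X : ℝ) := ⟨_, rfl⟩
  rw [← hLdef] at hLm hx16 hxe hcase ⊢
  have hL1 : 1 ≤ L := (le_max_left _ _).trans hLm
  have hLC : Ct ≤ L := (le_max_right _ _).trans hLm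
  have hL0 : 0 < L := by linarith
  have hTX : L ^ T ≤ X := by
    refine hx16.trans ?_
    calc (X : ℝ) ^ (1 / 20 : ℝ) ≤ (X : ℝ) ^ (1 : ℝ) :=
          Real.rpow_le_rpow_of_exponent_le hX1 (by norm_num)
      _ = X := Real.rpow_one _
  have hLX : ∀ k : ℕ, k ≤ T → L ^ k ≤ X := fun k hk => (pow_le_pow_right₀ hL1 hk).trans hTX
  have hLT0 : 0 < L ^ T := by positivity
  have hyT : (X : ℝ) ^ (-(τ / 10)) ≤ (L ^ T)⁻¹ := by
    rw [Real.rpow_neg hX0.le]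
    refine inv_anti₀ hLT0 (hxe.trans (Real.rpow_le_rpow_of_exponent_le hX1 ?_))
    nlinarith
  have hyE : (X : ℝ) ^ (-(τ ^ 2 / 1000)) ≤ (L ^ T)⁻¹ := by
    rw [Real.rpow_neg hX0.le]
    exact inv_anti₀ hLT0 hxe
  have hPT : (L ^ T)⁻¹ ≤ (L ^ P)⁻¹ :=
    inv_anti₀ (by positivity) (pow_le_pow_right₀ hL1 (by omega))
  have h1T : 1 ≤ (X : ℝ) * (L ^ T)⁻¹ := by
    rw [← div_eq_mul_inv, one_le_div hLT0]
    exact hTX
  have hstd' := hstd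
  obtain ⟨hXn, hnX, hσ, hbl, hN1, hNb, hFam, hcard, hbq⟩ := hstd'
  have hb0 : 0 < b := by
    refine lt_of_lt_of_le ?_ hbl
    rw [← hLdef]
    exact Real.rpow_pos_of_pos hL0 _
  have hNbX : N * b ≤ X := by
    refine hNb.trans ?_
    calc (X : ℝ) ^ (1 - th + 3 / 2 * e) ≤ (X : ℝ) ^ (1 : ℝ) :=
          Real.rpow_le_rpow_of_exponent_le hX1 (by linarith)
      _ = X := Real.rpow_one _
  have hn1 : 1 ≤ n := by omega
  have hbq0 : ∀ q ∈ QQ, 0 < bq q := fun q hq' => lt_of_lt_of_le hb0 (hbq q hq').1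
  have hq1 : ∀ q ∈ QQ, 1 ≤ q := hFam.1
  have hwNa := hwa X hXw s1 hs1 b N σ QQ bq hb0 hN1 hNbX hσ hFam hbq
  have hwNb := hwb X hXu s2 hs2 b N σ QQ bq hb0 hN1 hNbX hσ hFam hbq
  rw [← hLdef] at hwNa hwNb
  obtain ⟨I, M, K, MM, ca, c, hI, hBlk, hdec⟩ := ha X hXa
  obtain ⟨I', M', K', MM', ca', c', hI', hBlk', hdec'⟩ := hb X hXb
  rw [← hLdef] at hI hBlk hdec hI' hBlk' hdec'
  have hCw : L ^ Cw ≤ L ^ C0 := pow_le_pow_right₀ hL1 (by omega)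
  have hCj : L ^ Cj ≤ L ^ C0 := pow_le_pow_right₀ hL1 (by omega)
  replace hI : (I : ℝ) ≤ L ^ C0 := hI.trans hCw
  replace hI' : (I' : ℝ) ≤ L ^ C0 := hI'.trans hCj
  replace hBlk : ∀ i < I, BlkW X τ (M i) (K i) (MM i) (ca i) (c i) (L ^ C0) (L ^ C0) :=
    fun i hi => blkW_mono X τ _ _ _ _ _ _ _ _ _ hX1' hCw hCw (hBlk i hi)
  replace hBlk' : ∀ i < I', BlkJ X th e τ (M' i) (K' i) (MM' i) (ca' i) (c' i) (L ^ C0) (L ^ C0) :=
    fun i hi => blkJ_mono X th e τ _ _ _ _ _ _ _ _ _ hX1' hCj hCj (hBlk' i hi)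
  obtain ⟨l1, hl1c, hl1b, hl1n, hl1N⟩ := hdec n b N σ QQ bq hstd s1 hs1
  obtain ⟨l2, hl2c, hl2b, hl2n, hl2N⟩ := hdec' n b N σ QQ bq hstd s2 hs2
  replace hl1b : ∀ q ∈ QQ, ∀ x, ‖l1 q x‖ ≤ L ^ C0 * X / q := fun q hq x =>
    (hl1b q hq x).trans (div_le_div_of_nonneg_right (mul_le_mul_of_nonneg_right hCw hX0.le)
      (Nat.cast_nonneg _))
  replace hl2b : ∀ q ∈ QQ, ∀ x, ‖l2 q x‖ ≤ L ^ C0 * X / q := fun q hq x =>
    (hl2b q hq x).trans (div_le_div_of_nonneg_right (mul_le_mul_of_nonneg_right hCj hX0.le)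
      (Nat.cast_nonneg _))
  replace hl1n : N2 X bq QQ (fun q _ x => l1 q x) ≤ X * L ^ C0 / b :=
    hl1n.trans (div_le_div_of_nonneg_right (mul_le_mul_of_nonneg_left hCw hX0.le) hb0.le)
  replace hl2n : N2 X bq QQ (fun q _ x => l2 q x) ≤ X * L ^ C0 / b :=
    hl2n.trans (div_le_div_of_nonneg_right (mul_le_mul_of_nonneg_left hCj hX0.le) hb0.le)
  obtain ⟨F, hF⟩ : ∃ F : ℕ → ℕ → ℕ → ℝ → ℂ, F = fun i q =>
    f2f (MM i) (ca i) (tp (K i) (cq q (c i))) σ q := ⟨_, rfl⟩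
  obtain ⟨F', hF'⟩ : ∃ F : ℕ → ℕ → ℕ → ℝ → ℂ, F = fun i q =>
    f2f (MM' i) (ca' i) (tp (K' i) (cq q (c' i))) σ q := ⟨_, rfl⟩
  have hFc : ∀ i q a, Continuous (F i q a) := by
    intro i q a
    rw [hF]
    exact f2f_cont _ _ _ _ _ _ _
  have hFc' : ∀ i q a, Continuous (F' i q a) := by
    intro i q a
    rw [hF']
    exact f2f_cont _ _ _ _ _ _ _
  have hGc : ∀ q a, Continuous fun x => ∑ i ∈ range I, F i q a x := fun q a =>
    continuous_finsetSum _ fun i _ => hFc i q a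
  have hGc' : ∀ q a, Continuous fun x => ∑ i ∈ range I', F' i q a x := fun q a =>
    continuous_finsetSum _ fun i _ => hFc' i q a
  have hWc : ∀ q a, Continuous fun x => WJa ww1 gg1 s1 σ (wX D' X) X q a x := fun q a =>
    WJa_cont ww1 gg1 s1 σ (wX D' X) X q a
  have hWc' : ∀ q a, Continuous fun x => WJa ww2 gg2 s2 σ (wX D' X) X q a x := fun q a =>
    WJa_cont ww2 gg2 s2 σ (wX D' X) X q a
  have hS0 : 0 ≤ L ^ C0 := by positivity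
  have hS0p : 0 < L ^ C0 := by positivity
  have hSX : L ^ C0 ≤ X := hLX C0 (by omega)
  have GG : ∀ H : ℝ, 1 ≤ H → (∀ q ∈ QQ, H ≤ (hq q n : ℝ) * (1 + b)) →
      H ^ (-(1 / 4) : ℝ) ≤ (L ^ P)⁻¹ →
      ∑ q ∈ QQ, ‖Bq X (bq q) σ n q (fun a x => ∑ i ∈ range I, F i q a x)
        (fun a x => ∑ i ∈ range I', F' i q a x)‖ ≤ 2 * (X / L ^ (A + 4)) := by
    intro H hH hHq hHr
    refine (sum_two X n I I' bq σ QQ F F' hFc hFc' (L ^ (k1 * (C0 + 1)) * X *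
      (H ^ (-(1 / 4) : ℝ) + (X : ℝ) ^ (-(τ ^ 2 / 1000)))) fun i hi j hj => ?_).trans
      (gg_bound' C0 k1 (A + 4) P hX0.le hL1 (Nat.cast_nonneg I) hI (Nat.cast_nonneg I') hI' hP hHr
        (hyE.trans hPT))
    have h := ht X hXt n b N σ QQ bq hstd H hH hHq (M i) (M' j) (K i) (K' j) (MM i)
      (MM' j) (ca i) (ca' j) (c i) (c' j)
    rw [← hLdef] at h
    rw [hF, hF']
    exact h (hBlk i hi) (hBlk' j hj)
  have hfin : ∀ Y : ℝ, Y ≤ Ct * (X / L ^ (A + 4)) → Y ≤ X / L ^ A := by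
    intro Y hY
    refine hY.trans ?_
    calc Ct * ((X : ℝ) / L ^ (A + 4)) ≤ L ^ 4 * ((X : ℝ) / L ^ (A + 4)) := by
          apply mul_le_mul_of_nonneg_right _ (by positivity)
          exact hLC.trans (le_self_pow₀ hL1 (by norm_num))
      _ = X / L ^ A := by
          rw [pow_add]
          field_simp
  have hXE0 : 0 ≤ (X : ℝ) / L ^ (A + 4) := by positivity
  obtain ⟨E1, hE1⟩ : ∃ E1 : ℕ → ℕ → ℝ → ℂ, E1 = fun q a x =>
    WJa ww1 gg1 s1 σ (wX D' X) X q a x - l1 q x - ∑ i ∈ range I, F i q a x := ⟨_, rfl⟩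
  obtain ⟨E2, hE2⟩ : ∃ E2 : ℕ → ℕ → ℝ → ℂ, E2 = fun q a x =>
    WJa ww2 gg2 s2 σ (wX D' X) X q a x - l2 q x - ∑ i ∈ range I', F' i q a x := ⟨_, rfl⟩
  have hE1c : ∀ q a, Continuous (E1 q a) := by
    intro q a
    rw [hE1]
    exact ((hWc q a).sub (hl1c q)).sub (hGc q a)
  have hE2c : ∀ q a, Continuous (E2 q a) := by
    intro q a
    rw [hE2]
    exact ((hWc' q a).sub (hl2c q)).sub (hGc' q a)
  have hE1N0 : N2 X bq QQ E1 ≤ X / L ^ AE := by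
    rw [hE1, hF]
    exact hl1N
  have hE2N0 : N2 X bq QQ E2 ≤ X / L ^ AE := by
    rw [hE2, hF']
    exact hl2N
  have h4X : (X : ℝ) / L ^ AE ≤ 4 * X / L ^ (2 * (A + 6)) := by
    rw [← hAE]
    have h4 : 0 ≤ (X : ℝ) / L ^ AE := by positivity
    have h5 : 4 * (X : ℝ) / L ^ AE = 4 * (X / L ^ AE) := by ring
    linarith
  by_cases hb2 : L ^ K2 < b
  · -- large `b`
    have h3 : (X : ℝ) * L ^ C0 / b ≤ X / L ^ AE := by
      rw [div_le_div_iff₀ hb0 (by positivity), mul_assoc, ← pow_add]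
      apply mul_le_mul_of_nonneg_left _ hX0.le
      exact (pow_le_pow_right₀ hL1 (by omega)).trans hb2.le
    obtain ⟨G1, hG1⟩ : ∃ G : ℕ → ℕ → ℝ → ℂ, G = fun q a x => E1 q a x +
      (fun (q _ : ℕ) (x : ℝ) => l1 q x) q a x := ⟨_, rfl⟩
    obtain ⟨G2, hG2⟩ : ∃ G : ℕ → ℕ → ℝ → ℂ, G = fun q a x => E2 q a x +
      (fun (q _ : ℕ) (x : ℝ) => l2 q x) q a x := ⟨_, rfl⟩
    have hG1c : ∀ q a, Continuous (G1 q a) := by
      intro q a
      rw [hG1]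
      exact (hE1c q a).add (hl1c q)
    have hG2c : ∀ q a, Continuous (G2 q a) := by
      intro q a
      rw [hG2]
      exact (hE2c q a).add (hl2c q)
    have h5 : 4 * (X : ℝ) / L ^ (2 * (A + 6)) = 4 * (X / L ^ AE) := by
      rw [← hAE]
      ring
    have hG1N : N2 X bq QQ G1 ≤ 4 * X / L ^ (2 * (A + 6)) := by
      rw [hG1, h5]
      have h6 := N2_add X bq QQ hbq0 E1 (fun (q _ : ℕ) (x : ℝ) => l1 q x) hE1c (fun q _ => hl1c q)
      linarith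
    have hG2N : N2 X bq QQ G2 ≤ 4 * X / L ^ (2 * (A + 6)) := by
      rw [hG2, h5]
      have h6 := N2_add X bq QQ hbq0 E2 (fun (q _ : ℕ) (x : ℝ) => l2 q x) hE2c (fun q _ => hl2c q)
      linarith
    have hWE1 : (fun q a x => WJa ww1 gg1 s1 σ (wX D' X) X q a x) =
        fun q a x => (∑ i ∈ range I, F i q a x) + G1 q a x := by
      rw [hG1, hE1]
      funext q a x
      ring
    have hWE2 : (fun q a x => WJa ww2 gg2 s2 σ (wX D' X) X q a x) =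
        fun q a x => (∑ i ∈ range I', F' i q a x) + G2 q a x := by
      rw [hG2, hE2]
      funext q a x
      ring
    have hW1 : N2 X bq QQ (fun q a x => (∑ i ∈ range I, F i q a x) + G1 q a x) ≤
        4 * X * L ^ 3 := by
      rw [← hWE1]
      exact hwNa
    have hW2 : N2 X bq QQ (fun q a x => (∑ i ∈ range I', F' i q a x) + G2 q a x) ≤
        4 * X * L ^ 3 := by
      rw [← hWE2]
      exact hwNb
    have hexp := expand X n bq σ QQ hbq0 (fun q a x => ∑ i ∈ range I, F i q a x) G1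
      (fun q a x => ∑ i ∈ range I', F' i q a x) G2 hGc hG1c hGc' hG2c
    have herr := err_bound A hX0.le hL1 hG1N hG2N hW1 hW2
    have hgg := GG (L ^ K2) (one_le_pow₀ hL1) (by
      intro q hq'
      have h3 : 1 ≤ (hq q n : ℝ) := by
        have : 1 ≤ hq q n := by
          unfold hq
          exact (Nat.one_le_div_iff (Nat.gcd_pos_of_pos_left n (hq1 q hq'))).2
            (Nat.gcd_le_left n (hq1 q hq'))
        exact_mod_cast this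
      nlinarith) (by
      rw [hK2, hroot hL0]
      exact inv_anti₀ (by positivity) (pow_le_pow_right₀ hL1 (by omega)))
    have hgoal : ∑ q ∈ QQ, ‖Bq X (bq q) σ n q (WJa ww1 gg1 s1 σ (wX D' X) X q)
        (WJa ww2 gg2 s2 σ (wX D' X) X q)‖ =
        ∑ q ∈ QQ, ‖Bq X (bq q) σ n q (fun a x => (∑ i ∈ range I, F i q a x) + G1 q a x)
        (fun a x => (∑ i ∈ range I', F' i q a x) + G2 q a x)‖ := by
      refine sum_congr rfl fun q _ => ?_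
      have e1 := congrFun hWE1 q
      have e2 := congrFun hWE2 q
      rw [← e1, ← e2]
    apply hfin
    rw [hgoal, hCt]
    refine hexp.trans ?_
    have hc1 : 0 ≤ 2 * C3 * (2 * C5 + 2) + 1 + (2 * C5 + 2) := by positivity
    have hc2 : 0 ≤ 2 * C4 * C5 := by positivity
    have hc3 := mul_nonneg hc1 hXE0
    have hc4 := mul_nonneg hc2 hXE0
    linarith
  · -- small `b`
    have hb2' : b ≤ L ^ K2 := not_lt.1 hb2
    have hqq : ∀ q ∈ QQ, L ^ (8 * T) ≤ (hq q n : ℝ) := by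
      rcases hcase with h | h
      · exact absurd h hb2
      · intro q hq'
        have h3 := h q hq'
        have h4 : (Nat.gcd q n : ℝ) * (hq q n : ℝ) = q := by
          unfold hq
          exact_mod_cast Nat.mul_div_cancel' (Nat.gcd_dvd_left q n)
        have h5 : (0 : ℝ) < (Nat.gcd q n : ℝ) := by
          exact_mod_cast Nat.gcd_pos_of_pos_left n (hq1 q hq')
        rw [← h4, mul_comm] at h3
        exact (lt_of_mul_lt_mul_left h3 h5.le).le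
    have hSg : ∑ q ∈ QQ, 1 / ((q : ℝ) * (hq q n : ℝ) ^ (1 / 4 : ℝ)) ≤
        2 * C5 * L * ((L ^ T)⁻¹) ^ 2 := by
      refine (hds n QQ (L ^ (8 * T)) hn1 (one_le_pow₀ hL1) fun q hq' =>
        ⟨hq1 q hq', hqq q hq'⟩).trans ?_
      rw [show 8 * T = 4 * (T + T) by ring, hroot hL0, pow_add, mul_inv]
      have h3 : 1 + Real.log n ≤ 2 * L := by
        have : Real.log n ≤ L := by
          rw [hLdef]
          exact Real.log_le_log (by exact_mod_cast hn1) (by exact_mod_cast hnX)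
        linarith
      have h4 : C5 * (1 + Real.log n) ≤ C5 * (2 * L) := mul_le_mul_of_nonneg_left h3 hC5.le
      calc C5 * (1 + Real.log n) * ((L ^ T)⁻¹ * (L ^ T)⁻¹)
          ≤ C5 * (2 * L) * ((L ^ T)⁻¹ * (L ^ T)⁻¹) :=
            mul_le_mul_of_nonneg_right h4 (by positivity)
        _ = 2 * C5 * L * ((L ^ T)⁻¹) ^ 2 := by ring
    have hgg := GG (L ^ (8 * T)) (one_le_pow₀ hL1) (by
      intro q hq'
      have h3 := hqq q hq'
      have h4 : (0 : ℝ) ≤ (hq q n : ℝ) := Nat.cast_nonneg _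
      exact h3.trans (le_mul_of_one_le_right h4 (le_add_of_nonneg_right hb0.le))) (by
      rw [show 8 * T = 4 * (T + T) by ring, hroot hL0]
      exact inv_anti₀ (by positivity) (pow_le_pow_right₀ hL1 (by omega)))
    -- `lam1` against the narrow blocks
    have hLTj : ∑ q ∈ QQ, ‖Bq X (bq q) σ n q (fun _ x => l1 q x)
          (fun a x => ∑ i ∈ range I', F' i q a x)‖ ≤
          (2 * C3 * (2 * C5 + 2) + 1) * (X / L ^ (A + 4)) := by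
      refine (sum_one X n I' bq σ QQ (fun q _ x => l1 q x) (fun q _ => hl1c q) F' hFc'
        (C3 * L ^ 2 * L ^ C0 * L ^ C0 * Real.sqrt (L ^ C0) * (1 + b) * X *
        (Real.sqrt (∑ q ∈ QQ, 1 / ((q : ℝ) * (hq q n : ℝ) ^ (1 / 4 : ℝ))) +
          (X : ℝ) ^ (-(τ / 10))) + 1) fun i hi => ?_).trans
        (lt_bound C0 K2 (A + 4) T hC3 hC5 hX0.le hL1 (Nat.cast_nonneg I') hI' hb0 hb2'
          (by omega) hSg hyT h1T)
      have h := hl X hXl n b N σ QQ bq hstd l1 (L ^ C0) hl1c hS0 hSX hl1b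
        (M' i) (L ^ C0) (L ^ C0) (K' i) (MM' i) _ _ hS0 hSX hS0 hSX (hBlk' i hi)
      rw [← hLdef] at h
      rw [hF']
      exact h
    -- `lam2` against the wide blocks
    have hLTw : ∑ q ∈ QQ, ‖Bq X (bq q) σ n q (fun _ x => l2 q x)
          (fun a x => ∑ i ∈ range I, F i q a x)‖ ≤
          (2 * C5 + 2) * (X / L ^ (A + 4)) := by
      refine (sum_one X n I bq σ QQ (fun q _ x => l2 q x) (fun q _ => hl2c q) F hFc
        (L ^ (k2 * (C0 + K2 + 1)) * X *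
        (Real.sqrt (∑ q ∈ QQ, 1 / ((q : ℝ) * (hq q n : ℝ) ^ (1 / 4 : ℝ))) +
          (X : ℝ) ^ (-(τ ^ 2 / 1000)))) fun i hi => ?_).trans
        (lt_bound' C0 K2 k2 (A + 4) T hC5 hX0.le hL1 (Nat.cast_nonneg I) hI
          (by omega) hSg hyE)
      have h := hv X hXv n b N σ QQ bq hstd (by rw [← hLdef]; exact hb2') l2 hl2c
        (by rw [← hLdef]; exact hl2b) (M i) (K i) (MM i) (ca i) (c i)
        (by rw [← hLdef]; exact hBlk i hi)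
      rw [← hLdef] at h
      rw [hF]
      exact h
    have hLL : ∑ q ∈ QQ, ‖Bq X (bq q) σ n q (fun _ x => l1 q x) (fun _ x => l2 q x)‖ ≤
        2 * C4 * C5 * (X / L ^ (A + 4)) :=
      (hll X n b σ QQ bq hX1' hb0 hσ hq1 hn1 hbq l1 l2 (L ^ C0) hl1c hl2c hS0
        hl1b hl2b).trans
        (ll_bound C0 K2 (A + 4) T hC4 hC5 hX0.le hL1 hb0 hb2' (by omega) hSg)
    have hE1N : N2 X bq QQ E1 ≤ 4 * X / L ^ (2 * (A + 6)) := hE1N0.trans h4X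
    have hE2N : N2 X bq QQ E2 ≤ 4 * X / L ^ (2 * (A + 6)) := hE2N0.trans h4X
    have hWE1 : (fun q a x => WJa ww1 gg1 s1 σ (wX D' X) X q a x) =
        fun q a x => (l1 q x + ∑ i ∈ range I, F i q a x) + E1 q a x := by
      rw [hE1]
      funext q a x
      ring
    have hWE2 : (fun q a x => WJa ww2 gg2 s2 σ (wX D' X) X q a x) =
        fun q a x => (l2 q x + ∑ i ∈ range I', F' i q a x) + E2 q a x := by
      rw [hE2]
      funext q a x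
      ring
    have hW1 : N2 X bq QQ (fun q a x => (l1 q x + ∑ i ∈ range I, F i q a x) + E1 q a x) ≤
        4 * X * L ^ 3 := by
      rw [← hWE1]
      exact hwNa
    have hW2 : N2 X bq QQ (fun q a x => (l2 q x + ∑ i ∈ range I', F' i q a x) + E2 q a x) ≤
        4 * X * L ^ 3 := by
      rw [← hWE2]
      exact hwNb
    have hexp := expand X n bq σ QQ hbq0 (fun q a x => l1 q x + ∑ i ∈ range I, F i q a x) E1
      (fun q a x => l2 q x + ∑ i ∈ range I', F' i q a x) E2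
      (fun q a => (hl1c q).add (hGc q a)) hE1c (fun q a => (hl2c q).add (hGc' q a)) hE2c
    have herr := err_bound A hX0.le hL1 hE1N hE2N hW1 hW2
    have hfour := four X n bq σ QQ (fun q _ x => l1 q x) (fun q _ x => l2 q x)
      (fun q a x => ∑ i ∈ range I, F i q a x) (fun q a x => ∑ i ∈ range I', F' i q a x)
      (fun q _ => hl1c q) (fun q _ => hl2c q) hGc hGc'
    have hgoal : ∑ q ∈ QQ, ‖Bq X (bq q) σ n q (WJa ww1 gg1 s1 σ (wX D' X) X q)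
        (WJa ww2 gg2 s2 σ (wX D' X) X q)‖ =
        ∑ q ∈ QQ, ‖Bq X (bq q) σ n q
          (fun a x => (l1 q x + ∑ i ∈ range I, F i q a x) + E1 q a x)
          (fun a x => (l2 q x + ∑ i ∈ range I', F' i q a x) + E2 q a x)‖ := by
      refine sum_congr rfl fun q _ => ?_
      have e1 := congrFun hWE1 q
      have e2 := congrFun hWE2 q
      rw [← e1, ← e2]
    apply hfin
    rw [hgoal, hCt]
    refine hexp.trans ?_
    linarith

end Pool.MP_dd84fd_nt.LXP
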