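import Pool.Agent.Lib.MP_dd84fd_nt.JX.PlTwo
import Pool.Agent.Lib.MP_dd84fd_nt.LX.PlDefs

/-!
# PL_L-Par: parameters

`k = ⌈32/τ⌉₊`, so `32 ≤ τ k ≤ 32 + τ ≤ 32.1`; all by `j2_rpow`, `j2_log`, `j2_tau` (`JX/PlTwo.lean`, as in `j2_par`):
(c) `X^31 2^k ≤ X^32 ≤ (X^τ)^k`; (d) exponent `2τ/500 + 2k τ²/950 ≤ 0.004 τ + 0.0676 τ < 0.08 τ`.
(g) `fc_num`: `√N b = √(N b) √b ≤ X^((1-th+3e/2)/2 + τ/10)`, `K M b/X ≤ b ≤ X^(τ/5)`, total exponent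
`e/2 + 2τ/25 + τ/5 + τ/5 + (1-th+3e/2)/2 + τ/10 + 1/2 - 1 + τ/500 ≤ -0.1 + 1.25e + 0.6 τ ≤ -0.03`.
-/

set_option autoImplicit false

namespace Pool.MP_dd84fd_nt.LXP

open Finset Pool.MP_67663b_nt.Odd Pool.MP_dd84fd_nt.PL Pool.MP_dd84fd_nt.HX Pool.MP_dd84fd_nt.HXP
open Pool.MP_dd84fd_nt.JX (Adm)
open Pool.MP_dd84fd_nt.JXP

theorem pw_par (τ Cc : ℝ) (hτ0 : 0 < τ) (hτ1 : τ ≤ 1 / 10) (hCc : 0 < Cc) :
    3 ≤ ⌈32 / τ⌉₊ ∧ ∃ X0 : ℕ, ∀ X : ℕ, X0 ≤ X →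
    16 ≤ X ∧ 4 * (X : ℝ) ^ (τ / 5) ≤ (X : ℝ) ^ τ / 2 ∧ 1 ≤ (X : ℝ) ^ τ / 2 ∧
    (X : ℝ) * (X : ℝ) ^ 30 ≤ ((X : ℝ) ^ τ / 2) ^ ⌈32 / τ⌉₊ ∧
    Cc * (((X : ℝ) ^ (τ / 500)) ^ 2 / ((X : ℝ) ^ (-(τ ^ 2 / 950))) ^ (2 * ⌈32 / τ⌉₊)) ≤
      (X : ℝ) ^ (2 * τ / 25) ∧
    (∀ m : ℕ, 1 ≤ m → (m : ℝ) ≤ (2 * X) ^ ⌈32 / τ⌉₊ →
      (m.divisors.card : ℝ) ^ ⌈32 / τ⌉₊ ≤ (X : ℝ) ^ (τ / 500)) := by
  obtain ⟨k, hk⟩ : ∃ k : ℕ, k = ⌈32 / τ⌉₊ := ⟨_, rfl⟩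
  rw [← hk]
  have hk1 : 32 / τ ≤ k := by rw [hk]; exact Nat.le_ceil _
  have hk2 : (k : ℝ) < 32 / τ + 1 := by rw [hk]; exact Nat.ceil_lt_add_one (by positivity)
  have hkτ : 32 ≤ τ * k := by
    rw [div_le_iff₀ hτ0] at hk1
    linarith
  have hkτ2 : τ * k ≤ 321 / 10 := by
    have h1 : τ * k ≤ τ * (32 / τ + 1) := mul_le_mul_of_nonneg_left hk2.le hτ0.le
    have h2 : τ * (32 / τ + 1) = 32 + τ := by field_simp
    linarith
  have hk3 : 3 ≤ k := by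
    have h1 : (3 : ℝ) ≤ k := by nlinarith
    exact_mod_cast h1
  refine ⟨hk3, ?_⟩
  obtain ⟨X1, hX1⟩ := j2_rpow 8 (4 * τ / 5) (by positivity)
  obtain ⟨X2, hX2⟩ := j2_rpow (2 ^ k) 1 (by norm_num)
  obtain ⟨X3, hX3⟩ := j2_rpow Cc (8 * τ / 1000) (by positivity)
  obtain ⟨X4, hX4⟩ := j2_tau k (τ / 500) (by positivity)
  refine ⟨max (max X1 X2) (max (max X3 X4) 16), fun X hX => ?_⟩
  have g1 := hX1 X ((le_max_left _ _).trans ((le_max_left _ _).trans hX))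
  have g2 := hX2 X ((le_max_right _ _).trans ((le_max_left _ _).trans hX))
  have g3 := hX3 X ((le_max_left _ _).trans ((le_max_left _ _).trans ((le_max_right _ _).trans hX)))
  have g4 := hX4 X ((le_max_right _ _).trans ((le_max_left _ _).trans ((le_max_right _ _).trans hX)))
  have hXn : 16 ≤ X := (le_max_right _ _).trans ((le_max_right _ _).trans hX)
  have hX16 : (16 : ℝ) ≤ X := by exact_mod_cast hXn
  have hX1R : (1 : ℝ) ≤ X := by linarith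
  have hX0 : (0 : ℝ) < X := by linarith
  rw [Real.rpow_one] at g2
  have e1 : (X : ℝ) ^ τ = (X : ℝ) ^ (τ / 5) * (X : ℝ) ^ (4 * τ / 5) := by
    rw [← Real.rpow_add hX0]
    congr 1
    ring
  have h1 : 1 ≤ (X : ℝ) ^ (τ / 5) := Real.one_le_rpow hX1R (by positivity)
  have p1 : 4 * (X : ℝ) ^ (τ / 5) ≤ (X : ℝ) ^ τ / 2 := by
    rw [e1]
    nlinarith
  refine ⟨hXn, p1, by linarith, ?_, ?_, g4⟩
  · have h2 : (X : ℝ) ^ 32 ≤ ((X : ℝ) ^ τ) ^ k := by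
      rw [← Real.rpow_natCast, ← Real.rpow_natCast, ← Real.rpow_mul hX0.le]
      refine Real.rpow_le_rpow_of_exponent_le hX1R ?_
      push_cast
      exact hkτ
    rw [div_pow, le_div_iff₀ (by positivity)]
    calc (X : ℝ) * (X : ℝ) ^ 30 * 2 ^ k = 2 ^ k * (X : ℝ) ^ 31 := by ring
      _ ≤ X * (X : ℝ) ^ 31 := mul_le_mul_of_nonneg_right g2 (by positivity)
      _ = (X : ℝ) ^ 32 := by ring
      _ ≤ _ := h2
  · have e3 : ((X : ℝ) ^ (τ / 500)) ^ 2 = (X : ℝ) ^ (τ / 250) := by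
      rw [← Real.rpow_natCast, ← Real.rpow_mul hX0.le]
      congr 1
      push_cast
      ring
    have e4 : ((X : ℝ) ^ (-(τ ^ 2 / 950))) ^ (2 * k) = (X : ℝ) ^ (-(τ ^ 2 * k / 475)) := by
      rw [← Real.rpow_natCast, ← Real.rpow_mul hX0.le]
      congr 1
      push_cast
      ring
    rw [e3, e4, ← Real.rpow_sub hX0]
    calc Cc * (X : ℝ) ^ (τ / 250 - -(τ ^ 2 * k / 475))
        ≤ (X : ℝ) ^ (8 * τ / 1000) * (X : ℝ) ^ (τ / 250 - -(τ ^ 2 * k / 475)) :=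
          mul_le_mul_of_nonneg_right g3 (by positivity)
      _ = (X : ℝ) ^ (8 * τ / 1000 + (τ / 250 - -(τ ^ 2 * k / 475))) :=
          (Real.rpow_add hX0 _ _).symm
      _ ≤ (X : ℝ) ^ (2 * τ / 25) := by
          refine Real.rpow_le_rpow_of_exponent_le hX1R ?_
          have h5 : τ ^ 2 * k = τ * (τ * k) := by ring
          rw [h5]
          nlinarith [mul_le_mul_of_nonneg_left hkτ2 hτ0.le]

theorem fc_num (th e τ C : ℝ) (hC : 0 < C) (hp : Adm th e τ) : ∃ X0 : ℕ, ∀ X : ℕ, X0 ≤ X →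
    ∀ (b N M R : ℝ) (K : ℕ), 0 < b → b ≤ (X : ℝ) ^ (τ / 5) → 1 ≤ N →
    N * b ≤ (X : ℝ) ^ (1 - th + 3 / 2 * e) → 0 < M → M ≤ (X : ℝ) ^ (1 / 2 : ℝ) →
    K * M ≤ X → 0 ≤ R → R ≤ (X : ℝ) ^ (e / 2) * ((X : ℝ) ^ (2 * τ / 25) * (X : ℝ) ^ (τ / 5)) →
    15 * (M * (b / X)) ≤ 1 ∧
    C * R * (1 + K * (15 * (M * (b / X)))) * Real.sqrt N * (X : ℝ) ^ (τ / 500) *
      (1 + Real.log X) * (15 * (M * (b / X))) ≤ 1 := by
  obtain ⟨ht1, ht2, he0, hτ1, hτ2⟩ := hp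
  have hτ0 : 0 < τ := by linarith
  obtain ⟨X1, hX1⟩ := j2_log 1 (C * 480) (1 / 500) (by norm_num)
  obtain ⟨X2, hX2⟩ := j2_big 1
  obtain ⟨X3, hX3⟩ := j2_rpow 15 (48 / 100) (by norm_num)
  refine ⟨max (max X1 X2) (max X3 16), ?_⟩
  intro X hX b N M R K hb0 hb hN hNb hM0 hM hKM hR0 hR
  have g1 := hX1 X ((le_max_left _ _).trans ((le_max_left _ _).trans hX))
  have g2 := hX2 X ((le_max_right _ _).trans ((le_max_left _ _).trans hX))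
  have g3 := hX3 X ((le_max_left _ _).trans ((le_max_right _ _).trans hX))
  have hXn : 16 ≤ X := (le_max_right _ _).trans ((le_max_right _ _).trans hX)
  have hX16 : (16 : ℝ) ≤ X := by exact_mod_cast hXn
  have hX1R : (1 : ℝ) ≤ X := by linarith
  have hX0 : (0 : ℝ) < X := by linarith
  rw [pow_one] at g1
  obtain ⟨L, hL⟩ : ∃ L : ℝ, L = Real.log X := ⟨_, rfl⟩
  rw [← hL] at g1 g2 ⊢
  have hXi : (X : ℝ) ^ (-1 : ℝ) = 1 / X := by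
    rw [Real.rpow_neg_one, one_div]
  constructor
  · have h1 : M * b ≤ (X : ℝ) ^ (1 / 2 : ℝ) * (X : ℝ) ^ (τ / 5) :=
      mul_le_mul hM hb hb0.le (by positivity)
    rw [← Real.rpow_add hX0] at h1
    have h2 : (X : ℝ) ^ (1 / 2 + τ / 5) ≤ (X : ℝ) ^ (52 / 100 : ℝ) :=
      Real.rpow_le_rpow_of_exponent_le hX1R (by linarith)
    have h3 : (X : ℝ) ^ (48 / 100 : ℝ) * (X : ℝ) ^ (52 / 100 : ℝ) = X := by
      rw [← Real.rpow_add hX0]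
      norm_num
    have h4 : 15 * (M * b) ≤ X := by
      calc 15 * (M * b) ≤ (X : ℝ) ^ (48 / 100 : ℝ) * (X : ℝ) ^ (52 / 100 : ℝ) :=
            mul_le_mul g3 (h1.trans h2) (by positivity) (by positivity)
        _ = X := h3
    have h5 : 15 * (M * (b / X)) = 15 * (M * b) / X := by ring
    rw [h5, div_le_one hX0]
    exact h4
  · have hs1 : Real.sqrt N * b ≤ (X : ℝ) ^ ((1 - th + 3 / 2 * e) / 2) * (X : ℝ) ^ (τ / 10) := by
      have e1 : Real.sqrt N * b = Real.sqrt (N * b) * Real.sqrt b := by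
        rw [Real.sqrt_mul (by linarith), mul_assoc, Real.mul_self_sqrt hb0.le]
      have e2 : Real.sqrt (N * b) ≤ (X : ℝ) ^ ((1 - th + 3 / 2 * e) / 2) := by
        calc Real.sqrt (N * b) ≤ Real.sqrt ((X : ℝ) ^ (1 - th + 3 / 2 * e)) :=
              Real.sqrt_le_sqrt hNb
          _ = (X : ℝ) ^ ((1 - th + 3 / 2 * e) / 2) := by
              rw [Real.sqrt_eq_rpow, ← Real.rpow_mul hX0.le]
              congr 1
              ring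
      have e3 : Real.sqrt b ≤ (X : ℝ) ^ (τ / 10) := by
        calc Real.sqrt b ≤ Real.sqrt ((X : ℝ) ^ (τ / 5)) := Real.sqrt_le_sqrt hb
          _ = (X : ℝ) ^ (τ / 10) := by
              rw [Real.sqrt_eq_rpow, ← Real.rpow_mul hX0.le]
              congr 1
              ring
      rw [e1]
      exact mul_le_mul e2 e3 (Real.sqrt_nonneg _) (by positivity)
    have hK : 1 + K * (15 * (M * (b / X))) ≤ 16 * (X : ℝ) ^ (τ / 5) := by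
      have h1 : K * (15 * (M * (b / X))) = 15 * (K * M) * (b / X) := by ring
      have h2 : 15 * (K * M) * (b / X) ≤ 15 * X * (b / X) :=
        mul_le_mul_of_nonneg_right (by linarith) (by positivity)
      have h3 : 15 * (X : ℝ) * (b / X) = 15 * b := by field_simp
      have h4 : 1 ≤ (X : ℝ) ^ (τ / 5) := Real.one_le_rpow hX1R (by positivity)
      rw [h1]
      linarith
    have hK0 : 0 ≤ 1 + K * (15 * (M * (b / X))) := by positivity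
    have hL0 : 0 ≤ L := by linarith
    have hL2 : 1 + L ≤ 2 * L := by linarith
    have hN0 : 0 ≤ Real.sqrt N := Real.sqrt_nonneg _
    calc C * R * (1 + K * (15 * (M * (b / X)))) * Real.sqrt N * (X : ℝ) ^ (τ / 500) *
          (1 + L) * (15 * (M * (b / X)))
        = (15 * C) * (R * ((1 + K * (15 * (M * (b / X)))) * ((Real.sqrt N * b) *
            ((X : ℝ) ^ (τ / 500) * ((1 + L) * (M * (1 / X))))))) := by ring
      _ ≤ (15 * C) * (((X : ℝ) ^ (e / 2) * ((X : ℝ) ^ (2 * τ / 25) * (X : ℝ) ^ (τ / 5))) *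
            ((16 * (X : ℝ) ^ (τ / 5)) * (((X : ℝ) ^ ((1 - th + 3 / 2 * e) / 2) *
              (X : ℝ) ^ (τ / 10)) * ((X : ℝ) ^ (τ / 500) * ((2 * L) *
                ((X : ℝ) ^ (1 / 2 : ℝ) * (X : ℝ) ^ (-1 : ℝ))))))) := by
          rw [hXi]
          gcongr
      _ = (C * 480 * L) * ((X : ℝ) ^ (e / 2) * (X : ℝ) ^ (2 * τ / 25) * (X : ℝ) ^ (τ / 5) *
            (X : ℝ) ^ (τ / 5) * (X : ℝ) ^ ((1 - th + 3 / 2 * e) / 2) *
              (X : ℝ) ^ (τ / 10) * (X : ℝ) ^ (τ / 500) *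
                (X : ℝ) ^ (1 / 2 : ℝ) * (X : ℝ) ^ (-1 : ℝ)) := by ring
      _ = (C * 480 * L) * (X : ℝ) ^ (e / 2 + 2 * τ / 25 + τ / 5 + τ / 5 +
            (1 - th + 3 / 2 * e) / 2 + τ / 10 + τ / 500 + 1 / 2 + -1) := by
          rw [← Real.rpow_add hX0, ← Real.rpow_add hX0, ← Real.rpow_add hX0, ← Real.rpow_add hX0,
            ← Real.rpow_add hX0, ← Real.rpow_add hX0, ← Real.rpow_add hX0, ← Real.rpow_add hX0]
      _ ≤ (X : ℝ) ^ (1 / 500 : ℝ) * (X : ℝ) ^ (-(1 / 500) : ℝ) := by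
          apply mul_le_mul g1 _ (by positivity) (by positivity)
          exact Real.rpow_le_rpow_of_exponent_le hX1R (by linarith)
      _ = 1 := by
          rw [← Real.rpow_add hX0]
          norm_num

/-- the logarithms in case B: `A * L^K * X^(2τ/25) * X^(τ/1000) * X^(-τ/10) ≤ X^(-τ/60)`, and the final sizes -/
theorem pw_logs (e τ A : ℝ) (K : ℕ) (hτ0 : 0 < τ) (hτ1 : τ ≤ 1 / 10) (he0 : 0 < e)
    (he : 1000 * e ≤ τ) : ∃ X0 : ℕ, ∀ X : ℕ, X0 ≤ X →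
    A * (Real.log X) ^ K * ((X : ℝ) ^ (2 * τ / 25) * ((X : ℝ) ^ (τ / 1000) *
      (X : ℝ) ^ (-(τ / 10)))) ≤ (X : ℝ) ^ (-(τ / 60)) ∧
    A * (Real.log X) ^ K * ((X : ℝ) ^ (-(τ / 60)) * (X : ℝ) ^ (e / 4)) ≤
      (X : ℝ) ^ (-(τ ^ 2 / 1000)) ∧
    A * (Real.log X) ^ K * (X : ℝ) ^ (-(τ ^ 2 / 950)) ≤ (X : ℝ) ^ (-(τ ^ 2 / 1000)) := by
  obtain ⟨X1, hX1⟩ := j2_log K A (τ ^ 2 / 19000) (by positivity)
  refine ⟨max X1 1, fun X hX => ?_⟩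
  have g1 := hX1 X ((le_max_left _ _).trans hX)
  have hXn : 1 ≤ X := (le_max_right _ _).trans hX
  have hX1R : (1 : ℝ) ≤ X := by exact_mod_cast hXn
  have hX0 : (0 : ℝ) < X := by linarith
  have hττ : τ ^ 2 ≤ τ / 10 := by nlinarith
  have key : ∀ s t : ℝ, τ ^ 2 / 19000 + s ≤ t →
      A * (Real.log X) ^ K * (X : ℝ) ^ s ≤ (X : ℝ) ^ t := by
    intro s t hst
    calc A * (Real.log X) ^ K * (X : ℝ) ^ s ≤ (X : ℝ) ^ (τ ^ 2 / 19000) * (X : ℝ) ^ s :=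
          mul_le_mul_of_nonneg_right g1 (by positivity)
      _ = (X : ℝ) ^ (τ ^ 2 / 19000 + s) := (Real.rpow_add hX0 _ _).symm
      _ ≤ (X : ℝ) ^ t := Real.rpow_le_rpow_of_exponent_le hX1R hst
  refine ⟨?_, ?_, ?_⟩
  · rw [← Real.rpow_add hX0, ← Real.rpow_add hX0]
    exact key _ _ (by linarith)
  · rw [← Real.rpow_add hX0]
    exact key _ _ (by linarith)
  · exact key _ _ (by linarith)

end Pool.MP_dd84fd_nt.LXP
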