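import Pool.Agent.Lib.MP_dd84fd_nt.LX.PwZ
import Pool.Agent.Lib.MP_dd84fd_nt.LX.PwFC
import Pool.Agent.Lib.MP_dd84fd_nt.LX.PwPar

/-!
# PL_L-A: case A, sum of the masses over the moduli

`fc_sum` with `Ω = OmQ`, `u = M1 b/X`, `v = 16 u`, `Dv = X^(τ/500)`, `R = X^(e/2) X^(2τ/25) X^(τ/5)`: `#OmQ ≤ #LgC h_q ≤ X^(2τ/25) X^(τ/5)` (`om_card`,
`omQ_eq`, for `q ∈ QA`, `h_q (1 + b) ≤ X^(τ/5)`), the condition is `fc_num`.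
-/

set_option autoImplicit false

namespace Pool.MP_dd84fd_nt.LXP

open Finset Pool.MP_67663b_nt.Odd Pool.MP_dd84fd_nt.PL Pool.MP_dd84fd_nt.HX Pool.MP_dd84fd_nt.HXP
open Pool.MP_dd84fd_nt.JX (Adm)
open Pool.MP_dd84fd_nt.JXP

theorem za_sum : ∃ C : ℝ, 0 < C ∧ ∀ (th e τ : ℝ), Adm th e τ → ∃ X0 : ℕ, ∀ X : ℕ, X0 ≤ X →
    ∀ (n : ℕ) (b N σ : ℝ) (QA : Finset ℕ), 0 < b → 1 ≤ N → N ≤ X →
    N * b ≤ (X : ℝ) ^ (1 - th + 3 / 2 * e) → Fam QA N → (QA.card : ℝ) ≤ (X : ℝ) ^ (e / 2) →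
    (σ = 1 ∨ σ = -1) → (∀ q ∈ QA, (hq q n : ℝ) * (1 + b) ≤ (X : ℝ) ^ (τ / 5)) →
    (∀ m : ℕ, 1 ≤ m → (m : ℝ) ≤ X → (m.divisors.card : ℝ) ≤ (X : ℝ) ^ (τ / 500)) →
    ∀ (M1 : ℝ) (K : ℕ) (c : ℕ → ℂ) (MM : Finset ℕ) (a : ℕ → ℂ) (M V : ℝ), 0 < M1 →
    M1 ≤ (X : ℝ) ^ (1 / 2 : ℝ) → K * M1 ≤ X →
    (∀ q ∈ QA, ∀ _ : NeZero q, ((LgC q MM a M V (X ^ 30)).card : ℝ) ≤ (X : ℝ) ^ (2 * τ / 25)) →
    ∑ q ∈ QA, ZA X n b σ M1 K c MM a M V q ≤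
      C * (1 + Real.log X) ^ 3 * ∑ k ∈ Icc 1 K, ‖c k‖ ^ 2 := by
  obtain ⟨C, hC, hfc⟩ := fc_sum
  refine ⟨C, hC, ?_⟩
  intro th e τ hp
  obtain ⟨X1, h1⟩ := fc_num th e τ C hC hp
  obtain ⟨hp1, hp2, hp3, hp4, hp5⟩ := hp
  have hτ0 : 0 < τ := by linarith
  refine ⟨X1 + 16, ?_⟩
  intro X hX n b N σ QA hb hN1 hNX hNb hFam hcard hσ hA hdiv M1 K c MM a M V hM1 hM1X hKM hL
  have hX16' : (16 : ℝ) ≤ X := by exact_mod_cast (by omega : 16 ≤ X)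
  have hXp : (0 : ℝ) < X := by linarith
  have hX1' : (1 : ℝ) ≤ X := by linarith
  have hlog : 0 ≤ Real.log X := Real.log_nonneg hX1'
  rcases QA.eq_empty_or_nonempty with hE | ⟨q0, hq0⟩
  · subst hE
    rw [Finset.sum_empty]
    have : 0 ≤ ∑ k ∈ Icc 1 K, ‖c k‖ ^ 2 := Finset.sum_nonneg fun k _ => by positivity
    positivity
  have hh : ∀ q ∈ QA, 1 ≤ hq q n := by
    intro q hq
    unfold PL.hq
    exact Nat.div_pos (Nat.le_of_dvd (hFam.1 q hq) (Nat.gcd_dvd_left q n))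
      (Nat.gcd_pos_of_pos_left _ (hFam.1 q hq))
  have hbY : b ≤ (X : ℝ) ^ (τ / 5) := by
    have h2 := hA q0 hq0
    have h3 : (1 : ℝ) ≤ hq q0 n := by exact_mod_cast hh q0 hq0
    nlinarith
  obtain ⟨R, hR⟩ : ∃ R : ℝ, R = (X : ℝ) ^ (e / 2) * ((X : ℝ) ^ (2 * τ / 25) * (X : ℝ) ^ (τ / 5)) :=
    ⟨_, rfl⟩
  have hR0 : 0 ≤ R := by rw [hR]; positivity
  obtain ⟨n1, n2⟩ := h1 X (by omega) b N M1 R K hb hbY hN1 hNb hM1 hM1X hKM hR0 hR.le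
  have e15 : 16 * (M1 * (b / X)) - M1 * (b / X) = 15 * (M1 * (b / X)) := by ring
  have hy0 : 0 ≤ M1 * (b / X) := by positivity
  have hcardO : ∀ q ∈ QA, ((OmQ X n MM a M V q).card : ℝ) ≤
      (X : ℝ) ^ (2 * τ / 25) * (X : ℝ) ^ (τ / 5) := by
    intro q hqm
    have i1 : NeZero q := ⟨by have := hFam.1 q hqm; omega⟩
    have i2 : NeZero (hq q n) := ⟨by have := hh q hqm; omega⟩
    have hd : hq q n ∣ q := Nat.div_dvd_of_dvd (Nat.gcd_dvd_left q n)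
    rw [omQ_eq X n q hd]
    refine (om_card q (hq q n) hd MM a M V (X ^ 30)).trans ?_
    refine mul_le_mul (hL q hqm i1) ?_ (Nat.cast_nonneg _) (by positivity)
    have h2 := hA q hqm
    have h3 : (0 : ℝ) ≤ hq q n := Nat.cast_nonneg _
    nlinarith
  have hRs : ∑ q ∈ QA, ((OmQ X n MM a M V q).card : ℝ) ≤ R := by
    calc ∑ q ∈ QA, ((OmQ X n MM a M V q).card : ℝ) ≤
        ∑ _q ∈ QA, (X : ℝ) ^ (2 * τ / 25) * (X : ℝ) ^ (τ / 5) := Finset.sum_le_sum hcardO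
      _ = (QA.card : ℝ) * ((X : ℝ) ^ (2 * τ / 25) * (X : ℝ) ^ (τ / 5)) := by
          rw [Finset.sum_const, nsmul_eq_mul]
      _ ≤ R := by
          rw [hR]
          exact mul_le_mul_of_nonneg_right hcard (by positivity)
  have h5 := hfc X QA N (by omega) hFam hNX (OmQ X n MM a M V) R ((X : ℝ) ^ (τ / 500)) hRs
    (Real.one_le_rpow hX1' (by positivity))
    (fun m hm hmN => hdiv m hm (hmN.trans hNX)) K c (M1 * (b / X)) (16 * (M1 * (b / X))) σ hσ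
    (by linarith) (by rw [e15]; exact n1) (by rw [e15]; exact n2)
  unfold ZA
  exact h5

end Pool.MP_dd84fd_nt.LXP
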