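import Pool.Agent.Lib.MP_dd84fd_nt.LX.PwDefs

/-!
# PL_L-HM: few functions, duality (Halasz-Montgomery)

`F_i(γ) = ∑_k c_k conj φ_i(k) e(kσγ)`, `Y = ∑_i ∫_u^v |F_i|²`.  `Y = ∑_k conj c_k D_k`, `D_k = ∑_i ∫ F_i(γ) φ_i(k) e(-kσγ) dγ`;
Cauchy: `Y² ≤ ∑|c_k|² ∑_k |D_k|²`.  `∑_k |D_k|² = ∑_{i,j} ∫∫ F_i conj F_j ∑_k φ_i(k) conj φ_j(k) e(-kσ(γ-γ'))`.
`i = j`: `∑_{k} |φ_i(k)|² |∫ F_i e(-kσγ)|² ≤ ∫ |F_i|²` (Bessel on an interval of length `≤ 1`; `|φ_i| ≤ 1`).
`i ≠ j`: `≤ B (∑_i ∫ |F_i|)² ≤ B #P (v-u) Y`.  Hence `Y ≤ (1 + #P B (v-u)) ∑ |c_k|²`.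
-/

set_option autoImplicit false

namespace Pool.MP_dd84fd_nt.LXP

open Finset Pool.MP_67663b_nt.Odd Pool.MP_dd84fd_nt.PL

private theorem hm_cont : Continuous ee := by
  unfold ee
  fun_prop

private theorem hm_tp_cont (K : ℕ) (c : ℕ → ℂ) : Continuous (tp K c) := by
  unfold tp
  refine continuous_finsetSum _ fun k _ => ?_
  exact continuous_const.mul (hm_cont.comp (continuous_const.mul continuous_id))

private theorem hm_int (m : ℤ) : ee (m : ℝ) = 1 := by
  unfold ee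
  rw [Complex.exp_eq_one_iff]
  exact ⟨m, by push_cast; ring⟩

private theorem hm_add (x y : ℝ) : ee (x + y) = ee x * ee y := by
  unfold ee
  rw [← Complex.exp_add]
  congr 1
  push_cast
  ring

private theorem hm_conj (x : ℝ) : (starRingEnd ℂ) (ee x) = ee (-x) := by
  unfold ee
  rw [← Complex.exp_conj]
  congr 1
  have h2 : (starRingEnd ℂ) (2 : ℂ) = 2 := Complex.conj_ofNat 2
  rw [map_mul, map_mul, map_mul, h2, Complex.conj_ofReal, Complex.conj_ofReal, Complex.conj_I]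
  push_cast
  ring

private theorem hm_tp_per (K : ℕ) (c : ℕ → ℂ) (x : ℝ) : tp K c (x + 1) = tp K c x := by
  unfold tp
  refine sum_congr rfl fun k _ => ?_
  rw [mul_add, mul_one, hm_add]
  have := hm_int (k : ℤ)
  rw [Int.cast_natCast] at this
  rw [this, mul_one]

private theorem hm_l2_one (K : ℕ) (c : ℕ → ℂ) (u v : ℝ) (huv : u ≤ v) (hv : v - u ≤ 1) :
    ∫ γ in u..v, ‖tp K c γ‖ ^ 2 ≤ ∑ k ∈ Icc 1 K, ‖c k‖ ^ 2 := by
  have hc : Continuous fun γ => ‖tp K c γ‖ ^ 2 := ((hm_tp_cont K c).norm).pow 2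
  have hp : Function.Periodic (fun γ => ‖tp K c γ‖ ^ 2) 1 := by
    intro x
    show ‖tp K c (x + 1)‖ ^ 2 = ‖tp K c x‖ ^ 2
    rw [hm_tp_per]
  have h1 : ∫ γ in u..(u + 1), ‖tp K c γ‖ ^ 2 = ∫ γ in (0 : ℝ)..(0 + 1), ‖tp K c γ‖ ^ 2 :=
    hp.intervalIntegral_add_eq u 0
  rw [zero_add, tp_l2] at h1
  rw [← h1]
  have h2 := intervalIntegral.integral_add_adjacent_intervals
    (hc.intervalIntegrable (μ := MeasureTheory.volume) u v) (hc.intervalIntegrable v (u + 1))
  have h3 : 0 ≤ ∫ γ in v..(u + 1), ‖tp K c γ‖ ^ 2 :=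
    intervalIntegral.integral_nonneg (by linarith) fun _ _ => by positivity
  linarith

private theorem hm_l2 (K : ℕ) (c : ℕ → ℂ) (u v σ : ℝ) (hσ : σ = 1 ∨ σ = -1) (huv : u ≤ v)
    (hv : v - u ≤ 1) :
    ∫ γ in u..v, ‖∑ k ∈ Icc 1 K, c k * ee ((k : ℝ) * (σ * γ))‖ ^ 2 ≤
      ∑ k ∈ Icc 1 K, ‖c k‖ ^ 2 := by
  have h0 : ∀ γ : ℝ, ∑ k ∈ Icc 1 K, c k * ee ((k : ℝ) * (σ * γ)) = tp K c (σ * γ) := by
    intro γ
    rfl
  simp only [h0]
  rcases hσ with rfl | rfl
  · simp only [one_mul]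
    exact hm_l2_one K c u v huv hv
  · simp only [neg_one_mul]
    rw [intervalIntegral.integral_comp_neg (fun γ => ‖tp K c γ‖ ^ 2)]
    exact hm_l2_one K c (-v) (-u) (by linarith) (by linarith)

/-- Bessel -/
private theorem hm_bessel (K : ℕ) (φ : ℕ → ℂ) (hφ : ∀ k, ‖φ k‖ ≤ 1) (F : ℝ → ℂ)
    (hF : Continuous F) (u v σ : ℝ) (hσ : σ = 1 ∨ σ = -1) (huv : u ≤ v) (hv : v - u ≤ 1) :
    ∑ k ∈ Icc 1 K, ‖∫ γ in u..v, F γ * (φ k * ee (-((k : ℝ) * (σ * γ))))‖ ^ 2 ≤
      ∫ γ in u..v, ‖F γ‖ ^ 2 := by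
  set d : ℕ → ℂ := fun k => ∫ γ in u..v, F γ * (φ k * ee (-((k : ℝ) * (σ * γ)))) with hd
  set S : ℝ := ∑ k ∈ Icc 1 K, ‖d k‖ ^ 2 with hS
  have hee : ∀ k : ℕ, Continuous fun γ : ℝ => ee (-((k : ℝ) * (σ * γ))) := fun k =>
    hm_cont.comp (by fun_prop)
  have hee' : ∀ k : ℕ, Continuous fun γ : ℝ => ee ((k : ℝ) * (σ * γ)) := fun k =>
    hm_cont.comp (by fun_prop)
  set P : ℝ → ℂ := fun γ => ∑ k ∈ Icc 1 K, (d k * (starRingEnd ℂ) (φ k)) *
    ee ((k : ℝ) * (σ * γ)) with hP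
  have hPc : Continuous P := continuous_finsetSum _ fun k _ => continuous_const.mul (hee' k)
  have hS0 : 0 ≤ S := Finset.sum_nonneg fun _ _ => by positivity
  have h1 : (S : ℂ) = ∫ γ in u..v, F γ * (starRingEnd ℂ) (P γ) := by
    have e1 : ∀ γ : ℝ, F γ * (starRingEnd ℂ) (P γ) = ∑ k ∈ Icc 1 K,
        (starRingEnd ℂ) (d k) * (F γ * (φ k * ee (-((k : ℝ) * (σ * γ))))) := by
      intro γ
      rw [hP]
      simp only [map_sum, map_mul, Complex.conj_conj, hm_conj]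
      rw [Finset.mul_sum]
      exact Finset.sum_congr rfl fun k _ => by ring
    simp only [e1]
    rw [intervalIntegral.integral_finsetSum]
    · rw [hS]
      push_cast
      refine Finset.sum_congr rfl fun k _ => ?_
      rw [intervalIntegral.integral_const_mul, ← Complex.conj_mul']
    · intro k _
      exact (continuous_const.mul (hF.mul (continuous_const.mul (hee k)))).intervalIntegrable _ _
  have h2 : S ≤ ∫ γ in u..v, ‖F γ‖ * ‖P γ‖ := by
    have e1 : S = ‖(S : ℂ)‖ := by rw [Complex.norm_real, Real.norm_of_nonneg hS0]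
    rw [e1, h1]
    refine (intervalIntegral.norm_integral_le_integral_norm huv).trans (le_of_eq ?_)
    refine intervalIntegral.integral_congr fun γ _ => ?_
    simp only [norm_mul, RCLike.norm_conj]
  have h3 : ∫ γ in u..v, ‖P γ‖ ^ 2 ≤ S := by
    refine (hm_l2 K (fun k => d k * (starRingEnd ℂ) (φ k)) u v σ hσ huv hv).trans ?_
    refine Finset.sum_le_sum fun k _ => ?_
    rw [norm_mul, RCLike.norm_conj, mul_pow]
    exact mul_le_of_le_one_right (by positivity) (pow_le_one₀ (norm_nonneg _) (hφ k))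
  -- `2 ‖F‖ ‖P‖ ≤ ‖F‖² + ‖P‖²`
  have h4 : ∫ γ in u..v, ‖F γ‖ * ‖P γ‖ ≤ ∫ γ in u..v, (1 / 2 * ‖F γ‖ ^ 2 + 1 / 2 * ‖P γ‖ ^ 2) := by
    refine intervalIntegral.integral_mono_on huv ?_ ?_ fun γ _ => ?_
    · exact (hF.norm.mul hPc.norm).intervalIntegrable _ _
    · exact (((hF.norm.pow 2).const_mul _).add ((hPc.norm.pow 2).const_mul _)).intervalIntegrable _ _
    · nlinarith [sq_nonneg (‖F γ‖ - ‖P γ‖)]
  have h5 : ∫ γ in u..v, (1 / 2 * ‖F γ‖ ^ 2 + 1 / 2 * ‖P γ‖ ^ 2) =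
      1 / 2 * (∫ γ in u..v, ‖F γ‖ ^ 2) + 1 / 2 * (∫ γ in u..v, ‖P γ‖ ^ 2) := by
    rw [intervalIntegral.integral_add, intervalIntegral.integral_const_mul,
      intervalIntegral.integral_const_mul]
    · exact ((hF.norm.pow 2).const_mul _).intervalIntegrable _ _
    · exact ((hPc.norm.pow 2).const_mul _).intervalIntegrable _ _
  linarith

/-- Cauchy for integrals -/
private theorem hm_cs (g : ℝ → ℝ) (hg : Continuous g) (u v : ℝ) (huv : u ≤ v) :
    (∫ γ in u..v, g γ) ^ 2 ≤ (v - u) * ∫ γ in u..v, g γ ^ 2 := by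
  rcases huv.eq_or_lt with rfl | h
  · simp
  · set I : ℝ := ∫ γ in u..v, g γ with hI
    set J : ℝ := ∫ γ in u..v, g γ ^ 2 with hJ
    have h1 : 0 ≤ ∫ γ in u..v, ((v - u) * g γ - I) ^ 2 :=
      intervalIntegral.integral_nonneg huv fun _ _ => by positivity
    have h2 : ∫ γ in u..v, ((v - u) * g γ - I) ^ 2 =
        (v - u) ^ 2 * J - 2 * (v - u) * I * I + I ^ 2 * (v - u) := by
      have e1 : ∀ γ : ℝ, ((v - u) * g γ - I) ^ 2 =
          (v - u) ^ 2 * g γ ^ 2 - 2 * (v - u) * I * g γ + I ^ 2 := fun γ => by ring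
      simp only [e1]
      rw [intervalIntegral.integral_add, intervalIntegral.integral_sub,
        intervalIntegral.integral_const_mul, intervalIntegral.integral_const_mul,
        intervalIntegral.integral_const, smul_eq_mul]
      · ring
      · exact ((hg.pow 2).const_mul _).intervalIntegrable _ _
      · exact (hg.const_mul _).intervalIntegrable _ _
      · exact (((hg.pow 2).const_mul _).sub (hg.const_mul _)).intervalIntegrable _ _
      · exact continuous_const.intervalIntegrable _ _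
    rw [h2] at h1
    have h3 : 0 < v - u := by linarith
    have h4 : 0 ≤ (v - u) * ((v - u) * J - I ^ 2) := by
      calc 0 ≤ (v - u) ^ 2 * J - 2 * (v - u) * I * I + I ^ 2 * (v - u) := h1
        _ = _ := by ring
    have h5 := (mul_nonneg_iff_of_pos_left h3).1 h4
    linarith

theorem hm_few {ι : Type*} (P : Finset ι) (φ : ι → ℕ → ℂ) (hφ : ∀ i ∈ P, ∀ k, ‖φ i k‖ ≤ 1)
    (K : ℕ) (c : ℕ → ℂ) (u v σ B : ℝ) (hσ : σ = 1 ∨ σ = -1) (huv : u ≤ v) (hv : v - u ≤ 1)
    (hB : 0 ≤ B)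
    (hker : ∀ i ∈ P, ∀ j ∈ P, i ≠ j → ∀ θ : ℝ, |θ| ≤ v - u →
      ‖∑ k ∈ Icc 1 K, φ i k * (starRingEnd ℂ) (φ j k) * ee ((k : ℝ) * θ)‖ ≤ B) :
    ∑ i ∈ P, ∫ γ in u..v,
      ‖∑ k ∈ Icc 1 K, c k * (starRingEnd ℂ) (φ i k) * ee ((k : ℝ) * (σ * γ))‖ ^ 2 ≤
      (1 + P.card * B * (v - u)) * ∑ k ∈ Icc 1 K, ‖c k‖ ^ 2 := by
  classical
  set F : ι → ℝ → ℂ := fun i γ => ∑ k ∈ Icc 1 K, c k * (starRingEnd ℂ) (φ i k) *
    ee ((k : ℝ) * (σ * γ)) with hF
  set Y : ℝ := ∑ i ∈ P, ∫ γ in u..v, ‖F i γ‖ ^ 2 with hY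
  have hee : ∀ k : ℕ, Continuous fun γ : ℝ => ee (-((k : ℝ) * (σ * γ))) := fun k =>
    hm_cont.comp (by fun_prop)
  have hee' : ∀ k : ℕ, Continuous fun γ : ℝ => ee ((k : ℝ) * (σ * γ)) := fun k =>
    hm_cont.comp (by fun_prop)
  have hFc : ∀ i, Continuous (F i) := fun i =>
    continuous_finsetSum _ fun k _ => continuous_const.mul (hee' k)
  have hI0 : ∀ i, 0 ≤ ∫ γ in u..v, ‖F i γ‖ ^ 2 := fun i =>
    intervalIntegral.integral_nonneg huv fun _ _ => by positivity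
  have hY0 : 0 ≤ Y := Finset.sum_nonneg fun i _ => hI0 i
  set D : ι → ℕ → ℂ := fun i k => ∫ γ in u..v, F i γ * (φ i k * ee (-((k : ℝ) * (σ * γ)))) with hD
  -- `Y = ∑ conj c_k ∑_i D_i k`
  have h1 : (Y : ℂ) = ∑ k ∈ Icc 1 K, (starRingEnd ℂ) (c k) * ∑ i ∈ P, D i k := by
    have e1 : ∀ i ∈ P, ((∫ γ in u..v, ‖F i γ‖ ^ 2 : ℝ) : ℂ) =
        ∑ k ∈ Icc 1 K, (starRingEnd ℂ) (c k) * D i k := by
      intro i _
      have e2 : ∀ γ : ℝ, ((‖F i γ‖ ^ 2 : ℝ) : ℂ) = ∑ k ∈ Icc 1 K,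
          (starRingEnd ℂ) (c k) * (F i γ * (φ i k * ee (-((k : ℝ) * (σ * γ))))) := by
        intro γ
        push_cast
        rw [← Complex.mul_conj']
        nth_rewrite 2 [hF]
        simp only [map_sum, map_mul, Complex.conj_conj, hm_conj]
        rw [Finset.mul_sum]
        exact Finset.sum_congr rfl fun k _ => by ring
      rw [← intervalIntegral.integral_ofReal]
      simp only [e2]
      rw [intervalIntegral.integral_finsetSum]
      · refine Finset.sum_congr rfl fun k _ => ?_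
        rw [intervalIntegral.integral_const_mul]
      · intro k _
        exact (continuous_const.mul ((hFc i).mul
          (continuous_const.mul (hee k)))).intervalIntegrable _ _
    rw [hY]
    push_cast
    rw [Finset.sum_congr rfl e1, Finset.sum_comm]
    exact Finset.sum_congr rfl fun k _ => by rw [Finset.mul_sum]
  set Z : ℝ := ∑ k ∈ Icc 1 K, ‖∑ i ∈ P, D i k‖ ^ 2 with hZ
  have hCS : Y ^ 2 ≤ (∑ k ∈ Icc 1 K, ‖c k‖ ^ 2) * Z := by
    have e1 : Y ≤ ∑ k ∈ Icc 1 K, ‖c k‖ * ‖∑ i ∈ P, D i k‖ := by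
      have e2 : Y = ‖(Y : ℂ)‖ := by rw [Complex.norm_real, Real.norm_of_nonneg hY0]
      rw [e2, h1]
      refine (norm_sum_le _ _).trans (le_of_eq ?_)
      exact Finset.sum_congr rfl fun k _ => by rw [norm_mul, RCLike.norm_conj]
    refine (pow_le_pow_left₀ hY0 e1 2).trans ?_
    exact Finset.sum_mul_sq_le_sq_mul_sq _ _ _
  -- the diagonal and the rest
  have hoff : ∀ i ∈ P, ∀ j ∈ P, i ≠ j →
      ‖∑ k ∈ Icc 1 K, D i k * (starRingEnd ℂ) (D j k)‖ ≤
        B * ((∫ γ in u..v, ‖F i γ‖) * ∫ γ in u..v, ‖F j γ‖) := by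
    intro i hi j hj hij
    have e1 : ∑ k ∈ Icc 1 K, D i k * (starRingEnd ℂ) (D j k) = ∫ γ in u..v, F i γ *
        ∑ k ∈ Icc 1 K, (φ i k * ee (-((k : ℝ) * (σ * γ)))) * (starRingEnd ℂ) (D j k) := by
      have e2 : ∀ γ : ℝ, F i γ * ∑ k ∈ Icc 1 K, (φ i k * ee (-((k : ℝ) * (σ * γ)))) *
          (starRingEnd ℂ) (D j k) = ∑ k ∈ Icc 1 K,
          (F i γ * (φ i k * ee (-((k : ℝ) * (σ * γ))))) * (starRingEnd ℂ) (D j k) := by
        intro γ
        rw [Finset.mul_sum]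
        exact Finset.sum_congr rfl fun k _ => by ring
      simp only [e2]
      rw [intervalIntegral.integral_finsetSum]
      · refine Finset.sum_congr rfl fun k _ => ?_
        rw [intervalIntegral.integral_mul_const]
      · intro k _
        exact (((hFc i).mul (continuous_const.mul (hee k))).mul
          continuous_const).intervalIntegrable _ _
    have e3 : ∀ γ ∈ Set.Icc u v, ‖∑ k ∈ Icc 1 K, (φ i k * ee (-((k : ℝ) * (σ * γ)))) *
        (starRingEnd ℂ) (D j k)‖ ≤ B * ∫ γ in u..v, ‖F j γ‖ := by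
      intro γ hγ
      have e4 : ∑ k ∈ Icc 1 K, (φ i k * ee (-((k : ℝ) * (σ * γ)))) * (starRingEnd ℂ) (D j k) =
          ∫ γ' in u..v, (starRingEnd ℂ) (F j γ') * ∑ k ∈ Icc 1 K,
            φ i k * (starRingEnd ℂ) (φ j k) * ee ((k : ℝ) * (σ * (γ' - γ))) := by
        have e5 : ∀ γ' : ℝ, (starRingEnd ℂ) (F j γ') * ∑ k ∈ Icc 1 K,
            φ i k * (starRingEnd ℂ) (φ j k) * ee ((k : ℝ) * (σ * (γ' - γ))) =
            ∑ k ∈ Icc 1 K, (φ i k * ee (-((k : ℝ) * (σ * γ)))) *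
              (starRingEnd ℂ) (F j γ' * (φ j k * ee (-((k : ℝ) * (σ * γ'))))) := by
          intro γ'
          rw [Finset.mul_sum]
          refine Finset.sum_congr rfl fun k _ => ?_
          rw [map_mul, map_mul, hm_conj, neg_neg]
          have : (k : ℝ) * (σ * (γ' - γ)) = -((k : ℝ) * (σ * γ)) + (k : ℝ) * (σ * γ') := by ring
          rw [this, hm_add]
          ring
        simp only [e5]
        rw [intervalIntegral.integral_finsetSum]
        · refine Finset.sum_congr rfl fun k _ => ?_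
          rw [intervalIntegral.integral_const_mul]
          congr 1
          rw [intervalIntegral.integral_of_le huv]
          have e8 : D j k = ∫ x in Set.Ioc u v, F j x * (φ j k * ee (-((k : ℝ) * (σ * x)))) := by
            rw [hD]
            exact intervalIntegral.integral_of_le huv
          rw [e8]
          exact (integral_conj).symm
        · intro k _
          refine (continuous_const.mul (Complex.continuous_conj.comp
            ((hFc j).mul (continuous_const.mul (hee k))))).intervalIntegrable _ _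
      rw [e4]
      refine (intervalIntegral.norm_integral_le_integral_norm huv).trans ?_
      rw [← intervalIntegral.integral_const_mul]
      refine intervalIntegral.integral_mono_on huv ?_ ?_ fun γ' hγ' => ?_
      · refine Continuous.intervalIntegrable ?_ _ _
        refine Continuous.norm ((Complex.continuous_conj.comp (hFc j)).mul ?_)
        refine continuous_finsetSum _ fun k _ => continuous_const.mul (hm_cont.comp ?_)
        fun_prop
      · exact ((hFc j).norm.const_mul _).intervalIntegrable _ _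
      · rw [norm_mul, RCLike.norm_conj, mul_comm]
        refine mul_le_mul_of_nonneg_right ?_ (norm_nonneg _)
        refine hker i hi j hj hij _ ?_
        have e6 : |σ * (γ' - γ)| = |γ' - γ| := by
          rcases hσ with rfl | rfl
          · rw [one_mul]
          · rw [neg_one_mul, abs_neg]
        rw [e6, abs_le]
        constructor <;> linarith [hγ.1, hγ.2, hγ'.1, hγ'.2]
    rw [e1]
    refine (intervalIntegral.norm_integral_le_integral_norm huv).trans ?_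
    have e7 : B * ((∫ γ in u..v, ‖F i γ‖) * ∫ γ in u..v, ‖F j γ‖) =
        ∫ γ in u..v, ‖F i γ‖ * (B * ∫ γ in u..v, ‖F j γ‖) := by
      rw [intervalIntegral.integral_mul_const]
      ring
    rw [e7]
    refine intervalIntegral.integral_mono_on huv ?_ ?_ fun γ hγ => ?_
    · refine Continuous.intervalIntegrable ?_ _ _
      refine Continuous.norm ((hFc i).mul ?_)
      exact continuous_finsetSum _ fun k _ => (continuous_const.mul (hee k)).mul continuous_const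
    · exact ((hFc i).norm.mul_const _).intervalIntegrable _ _
    · rw [norm_mul]
      exact mul_le_mul_of_nonneg_left (e3 γ hγ) (norm_nonneg _)
  set I : ι → ℝ := fun i => ∫ γ in u..v, ‖F i γ‖ with hIdef
  have hI1 : ∀ i, 0 ≤ I i := fun i =>
    intervalIntegral.integral_nonneg huv fun _ _ => norm_nonneg _
  have hdiag : ∀ i ∈ P, ‖∑ k ∈ Icc 1 K, D i k * (starRingEnd ℂ) (D i k)‖ ≤
      ∫ γ in u..v, ‖F i γ‖ ^ 2 := by
    intro i hi
    refine le_trans ?_ (hm_bessel K (φ i) (hφ i hi) (F i) (hFc i) u v σ hσ huv hv)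
    refine (norm_sum_le _ _).trans (le_of_eq ?_)
    exact Finset.sum_congr rfl fun k _ => by rw [norm_mul, RCLike.norm_conj, sq]
  have hZle : Z ≤ (1 + P.card * B * (v - u)) * Y := by
    have e1 : (Z : ℂ) = ∑ i ∈ P, ∑ j ∈ P, ∑ k ∈ Icc 1 K, D i k * (starRingEnd ℂ) (D j k) := by
      rw [hZ]
      push_cast
      have e2 : ∀ k ∈ Icc 1 K, ((‖∑ i ∈ P, D i k‖ : ℂ)) ^ 2 =
          ∑ i ∈ P, ∑ j ∈ P, D i k * (starRingEnd ℂ) (D j k) := by
        intro k _
        rw [← Complex.mul_conj', map_sum, Finset.sum_mul_sum]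
      rw [Finset.sum_congr rfl e2, Finset.sum_comm]
      exact Finset.sum_congr rfl fun i _ => Finset.sum_comm
    have hZ0 : 0 ≤ Z := Finset.sum_nonneg fun _ _ => by positivity
    have e3 : Z ≤ ∑ i ∈ P, ∑ j ∈ P, ‖∑ k ∈ Icc 1 K, D i k * (starRingEnd ℂ) (D j k)‖ := by
      have e4 : Z = ‖(Z : ℂ)‖ := by rw [Complex.norm_real, Real.norm_of_nonneg hZ0]
      rw [e4, e1]
      exact (norm_sum_le _ _).trans (Finset.sum_le_sum fun i _ => norm_sum_le _ _)
    have e5 : ∑ i ∈ P, ∑ j ∈ P, ‖∑ k ∈ Icc 1 K, D i k * (starRingEnd ℂ) (D j k)‖ ≤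
        ∑ i ∈ P, ∑ j ∈ P, ((if i = j then ∫ γ in u..v, ‖F i γ‖ ^ 2 else 0) + B * (I i * I j)) := by
      refine Finset.sum_le_sum fun i hi => Finset.sum_le_sum fun j hj => ?_
      by_cases hij : i = j
      · rw [if_pos hij, ← hij]
        have := mul_nonneg hB (mul_nonneg (hI1 i) (hI1 i))
        have := hdiag i hi
        linarith
      · rw [if_neg hij, zero_add]
        exact hoff i hi j hj hij
    have e6 : ∑ i ∈ P, ∑ j ∈ P, ((if i = j then ∫ γ in u..v, ‖F i γ‖ ^ 2 else 0) +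
        B * (I i * I j)) = Y + B * (∑ i ∈ P, I i) ^ 2 := by
      simp only [Finset.sum_add_distrib]
      congr 1
      · rw [hY]
        refine Finset.sum_congr rfl fun i hi => ?_
        rw [Finset.sum_ite_eq, if_pos hi]
      · rw [sq, Finset.sum_mul_sum, Finset.mul_sum]
        exact Finset.sum_congr rfl fun i _ => by rw [Finset.mul_sum]
    have e7 : (∑ i ∈ P, I i) ^ 2 ≤ P.card * ((v - u) * Y) := by
      have e8 := sq_sum_le_card_mul_sum_sq (s := P) (f := I)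
      refine e8.trans (mul_le_mul_of_nonneg_left ?_ (Nat.cast_nonneg _))
      rw [hY, Finset.mul_sum]
      exact Finset.sum_le_sum fun i _ => hm_cs (fun γ => ‖F i γ‖) (hFc i).norm u v huv
    calc Z ≤ Y + B * (∑ i ∈ P, I i) ^ 2 := e3.trans (e5.trans (le_of_eq e6))
      _ ≤ Y + B * (P.card * ((v - u) * Y)) := by
          have := mul_le_mul_of_nonneg_left e7 hB
          linarith
      _ = _ := by ring
  rcases hY0.eq_or_lt with h0 | h0
  · rw [← h0]
    have : 0 ≤ ∑ k ∈ Icc 1 K, ‖c k‖ ^ 2 := Finset.sum_nonneg fun _ _ => by positivity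
    have : 0 ≤ v - u := by linarith
    positivity
  · have h2 : Y ^ 2 ≤ (∑ k ∈ Icc 1 K, ‖c k‖ ^ 2) * ((1 + P.card * B * (v - u)) * Y) :=
      hCS.trans (mul_le_mul_of_nonneg_left hZle (Finset.sum_nonneg fun _ _ => by positivity))
    have h3 : Y * Y ≤ (1 + P.card * B * (v - u)) * (∑ k ∈ Icc 1 K, ‖c k‖ ^ 2) * Y := by
      calc Y * Y = Y ^ 2 := by ring
        _ ≤ _ := h2
        _ = _ := by ring
    exact le_of_mul_le_mul_right h3 h0

end Pool.MP_dd84fd_nt.LXP
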