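import Pool.Agent.Lib.MP_dd84fd_nt.LX.PwDefs
import Pool.Agent.Lib.MP_dd84fd_nt.PL.GFour
import Pool.Agent.Lib.MP_dd84fd_nt.PL.Cauchy
import Pool.Agent.Lib.MP_dd84fd_nt.PL.QKer
import Pool.Agent.Lib.MP_dd84fd_nt.PL.TKer

/-!
# PL_L-One: `one_q` with restricted support

Copy `PL/OneQ.lean` (with its private lemmas); the only change: `coset_cauchy` is applied to `u p = if p.1 ∈ Ω then ‖fq q f p.1 p.2‖ else 0`,
and `‖fq q f p‖ ‖fq q g (σ_s p)‖ = u p ‖fq q g (σ_s p)‖` for all `p` by `hΩ`.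
-/

set_option autoImplicit false

namespace Pool.MP_dd84fd_nt.LXP

open Finset Pool.MP_67663b_nt.Odd Pool.MP_dd84fd_nt.PL

/-- pointwise dyadic bound of the weights -/
private theorem oq_kj (ρ : ℝ) (T0 I J : ℕ) (h8 : 8 * |ρ| < T0) (h1 : 1 ≤ T0) (hI : J ≤ 2 ^ I * T0)
    (j : ℤ) (hj : |(j : ℝ)| ≤ J) :
    kj ρ j ≤ (if |(j : ℝ)| ≤ T0 then 2 / Real.sqrt (1 + |ρ|) else 0) +
      ∑ i ∈ range I, (if |(j : ℝ)| ≤ 2 ^ (i + 1) * T0 then 2 / (2 ^ (i + 1) * (T0 : ℝ)) else 0) := by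
  have hr : 0 ≤ |ρ| := abs_nonneg ρ
  have hs : 0 < Real.sqrt (1 + |ρ|) := Real.sqrt_pos.2 (by linarith)
  have hT0 : (1 : ℝ) ≤ T0 := by exact_mod_cast h1
  have hsum0 : 0 ≤ ∑ i ∈ range I,
      (if |(j : ℝ)| ≤ 2 ^ (i + 1) * T0 then 2 / (2 ^ (i + 1) * (T0 : ℝ)) else 0) := by
    refine Finset.sum_nonneg fun i _ => ?_
    split_ifs
    · positivity
    · exact le_rfl
  by_cases hjT : |(j : ℝ)| ≤ T0
  · rw [if_pos hjT]
    refine le_trans ?_ (le_add_of_nonneg_right hsum0)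
    unfold kj
    split_ifs with hc
    · exact div_le_div_of_nonneg_right (by norm_num) hs.le
    · push Not at hc
      obtain ⟨hc1, hc2⟩ := hc
      have hj1 : (1 : ℝ) ≤ |(j : ℝ)| := by
        have : (1 : ℤ) ≤ |j| := Int.one_le_abs hc2
        exact_mod_cast this
      rw [div_le_div_iff₀ (by linarith) hs, one_mul]
      refine Real.sqrt_le_iff.2 ⟨by linarith, ?_⟩
      nlinarith
  · rw [if_neg hjT, zero_add]
    push Not at hjT
    have hne : j ≠ 0 := by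
      rintro rfl
      simp at hjT
      linarith
    have hk : kj ρ j = 1 / |(j : ℝ)| := by
      unfold kj
      rw [if_neg]
      push Not
      exact ⟨by linarith, hne⟩
    rw [hk]
    -- least `i` with `|j| ≤ 2^(i+1) T0`
    have hex : ∃ i, |(j : ℝ)| ≤ 2 ^ (i + 1) * T0 := by
      refine ⟨I, hj.trans ?_⟩
      have : (J : ℝ) ≤ 2 ^ I * T0 := by exact_mod_cast hI
      have h2 : (2 : ℝ) ^ I ≤ 2 ^ (I + 1) := pow_le_pow_right₀ (by norm_num) (by omega)
      nlinarith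
    classical
    let i := Nat.find hex
    have hi : |(j : ℝ)| ≤ 2 ^ (i + 1) * T0 := Nat.find_spec hex
    have hlow : 2 ^ i * (T0 : ℝ) < |(j : ℝ)| := by
      rcases Nat.eq_zero_or_pos i with h0 | hpos
      · rw [h0]; simpa using hjT
      · have := Nat.find_min hex (show i - 1 < Nat.find hex by
          have : i = Nat.find hex := rfl
          omega)
        push Not at this
        rwa [Nat.sub_add_cancel hpos] at this
    have hiI : i < I := by
      by_contra hcon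
      push Not at hcon
      have h2 : (J : ℝ) ≤ 2 ^ I * T0 := by exact_mod_cast hI
      have h3 : (2 : ℝ) ^ I ≤ 2 ^ i := pow_le_pow_right₀ (by norm_num) hcon
      nlinarith
    have hterm : (if |(j : ℝ)| ≤ 2 ^ (i + 1) * T0 then 2 / (2 ^ (i + 1) * (T0 : ℝ)) else 0) ≤
        ∑ i ∈ range I, (if |(j : ℝ)| ≤ 2 ^ (i + 1) * T0 then 2 / (2 ^ (i + 1) * (T0 : ℝ)) else 0) := by
      refine Finset.single_le_sum (f := fun i => (if |(j : ℝ)| ≤ 2 ^ (i + 1) * T0 then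
        2 / (2 ^ (i + 1) * (T0 : ℝ)) else 0)) (fun i _ => ?_) (Finset.mem_range.2 hiI)
      split_ifs
      · positivity
      · exact le_rfl
    refine le_trans ?_ hterm
    rw [if_pos hi, div_le_div_iff₀ (by nlinarith) (by positivity), pow_succ]
    linarith

/-- the dyadic summation -/
private theorem oq_dyadic (u : ℤ → ℝ) (hu : ∀ j, 0 ≤ u j) (P a1 b1 a2 b2 : ℝ) (hP : 0 ≤ P)
    (ha1 : 0 ≤ a1) (hb1 : 0 ≤ b1) (ha2 : 0 ≤ a2) (hb2 : 0 ≤ b2)
    (hN : ∀ T : ℕ, 1 ≤ T → ∑ j ∈ Icc (-(T : ℤ)) T, u j ≤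
      P * Real.sqrt ((a1 * T + b1) * (a2 * T + b2))) (ρ : ℝ) (J : ℕ) (hJ : 1 ≤ J) :
    ∑ j ∈ Icc (-(J : ℤ)) J, kj ρ j * u j ≤ 72 * (1 + Real.log J) *
      (P * Real.sqrt ((a1 * (1 + |ρ|) + b1) * (a2 * (1 + |ρ|) + b2)) / Real.sqrt (1 + |ρ|)) := by
  have hr : 0 ≤ |ρ| := abs_nonneg ρ
  have hs : 0 < Real.sqrt (1 + |ρ|) := Real.sqrt_pos.2 (by linarith)
  set M : ℝ := P * Real.sqrt ((a1 * (1 + |ρ|) + b1) * (a2 * (1 + |ρ|) + b2)) /
    Real.sqrt (1 + |ρ|) with hM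
  have hM0 : 0 ≤ M := by rw [hM]; positivity
  set T0 : ℕ := ⌊8 * |ρ|⌋₊ + 1 with hT0
  have hT1 : 1 ≤ T0 := by omega
  have hT1' : (1 : ℝ) ≤ T0 := by exact_mod_cast hT1
  have h8 : 8 * |ρ| < T0 := by rw [hT0]; push_cast; exact Nat.lt_floor_add_one _
  have hT9 : (T0 : ℝ) ≤ 9 * (1 + |ρ|) := by
    rw [hT0]; push_cast
    have := Nat.floor_le (show 0 ≤ 8 * |ρ| by linarith)
    linarith
  set I : ℕ := Nat.clog 2 J with hIdef
  have hI : J ≤ 2 ^ I * T0 := by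
    have h1 : J ≤ 2 ^ I := Nat.le_pow_clog (by norm_num) J
    calc J ≤ 2 ^ I := h1
      _ = 2 ^ I * 1 := (mul_one _).symm
      _ ≤ 2 ^ I * T0 := Nat.mul_le_mul_left _ hT1
  have hIlog : (I : ℝ) ≤ 1 + 2 * Real.log J := by
    have hlogJ : 0 ≤ Real.log J := Real.log_natCast_nonneg J
    rcases Nat.lt_or_ge 1 J with h | h
    · have h1 : 2 ^ (I - 1) < J := Nat.pow_pred_clog_lt_self (by norm_num) h
      have hIpos : 0 < I := Nat.clog_pos (by norm_num) h
      have h2 : (2 : ℝ) ^ (I - 1) ≤ J := by exact_mod_cast h1.le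
      have h3 : ((I - 1 : ℕ) : ℝ) * Real.log 2 ≤ Real.log J := by
        rw [← Real.log_pow]
        exact Real.log_le_log (by positivity) h2
      rw [Nat.cast_sub hIpos, Nat.cast_one] at h3
      have h4 := Real.log_two_gt_d9
      nlinarith
    · have : J = 1 := le_antisymm h hJ
      have h5 : I = 0 := by rw [hIdef, this]; simp
      rw [h5]; push_cast; linarith
  -- the two kinds of terms
  have hq0 : Real.sqrt ((a1 * T0 + b1) * (a2 * T0 + b2)) ≤
      9 * Real.sqrt ((a1 * (1 + |ρ|) + b1) * (a2 * (1 + |ρ|) + b2)) := by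
    have e1 : (9 : ℝ) = Real.sqrt (9 * 9) := by
      rw [Real.sqrt_mul_self (by norm_num)]
    rw [e1, ← Real.sqrt_mul (by norm_num)]
    refine Real.sqrt_le_sqrt ?_
    have e2 : a1 * T0 + b1 ≤ 9 * (a1 * (1 + |ρ|) + b1) := by nlinarith
    have e3 : a2 * T0 + b2 ≤ 9 * (a2 * (1 + |ρ|) + b2) := by nlinarith
    calc (a1 * T0 + b1) * (a2 * T0 + b2) ≤
        (9 * (a1 * (1 + |ρ|) + b1)) * (9 * (a2 * (1 + |ρ|) + b2)) :=
          mul_le_mul e2 e3 (by positivity) (by positivity)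
      _ = _ := by ring
  have hA : 2 / Real.sqrt (1 + |ρ|) * (P * Real.sqrt ((a1 * T0 + b1) * (a2 * T0 + b2))) ≤
      36 * M := by
    calc 2 / Real.sqrt (1 + |ρ|) * (P * Real.sqrt ((a1 * T0 + b1) * (a2 * T0 + b2)))
        ≤ 2 / Real.sqrt (1 + |ρ|) * (P * (9 * Real.sqrt ((a1 * (1 + |ρ|) + b1) *
          (a2 * (1 + |ρ|) + b2)))) := by gcongr
      _ = 18 * M := by rw [hM]; ring
      _ ≤ 36 * M := by linarith
  have hT0s : 1 / (T0 : ℝ) ≤ 2 / Real.sqrt (1 + |ρ|) := by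
    rw [div_le_div_iff₀ (by linarith) hs, one_mul]
    refine Real.sqrt_le_iff.2 ⟨by linarith, ?_⟩
    nlinarith
  have hB : ∀ i : ℕ, 2 / (2 ^ (i + 1) * (T0 : ℝ)) *
      (P * Real.sqrt ((a1 * ((2 ^ (i + 1) * T0 : ℕ) : ℝ) + b1) *
        (a2 * ((2 ^ (i + 1) * T0 : ℕ) : ℝ) + b2))) ≤ 36 * M := by
    intro i
    set w : ℝ := 2 ^ (i + 1) with hw
    have hw1 : 1 ≤ w := one_le_pow₀ (by norm_num)
    have hcast : ((2 ^ (i + 1) * T0 : ℕ) : ℝ) = w * T0 := by rw [hw]; push_cast; ring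
    rw [hcast]
    have e1 : Real.sqrt ((a1 * (w * T0) + b1) * (a2 * (w * T0) + b2)) ≤
        w * Real.sqrt ((a1 * T0 + b1) * (a2 * T0 + b2)) := by
      have e0 : w = Real.sqrt (w * w) := (Real.sqrt_mul_self (by linarith)).symm
      conv_rhs => rw [e0]
      rw [← Real.sqrt_mul (by nlinarith)]
      refine Real.sqrt_le_sqrt ?_
      have e2 : a1 * (w * T0) + b1 ≤ w * (a1 * T0 + b1) := by nlinarith
      have e3 : a2 * (w * T0) + b2 ≤ w * (a2 * T0 + b2) := by nlinarith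
      calc (a1 * (w * T0) + b1) * (a2 * (w * T0) + b2) ≤
          (w * (a1 * T0 + b1)) * (w * (a2 * T0 + b2)) :=
            mul_le_mul e2 e3 (by positivity) (by positivity)
        _ = _ := by ring
    calc 2 / (w * (T0 : ℝ)) * (P * Real.sqrt ((a1 * (w * T0) + b1) * (a2 * (w * T0) + b2)))
        ≤ 2 / (w * (T0 : ℝ)) * (P * (w * Real.sqrt ((a1 * T0 + b1) * (a2 * T0 + b2)))) := by
          gcongr
      _ = 2 * P * (1 / (T0 : ℝ)) * Real.sqrt ((a1 * T0 + b1) * (a2 * T0 + b2)) := by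
          field_simp
      _ ≤ 2 * P * (2 / Real.sqrt (1 + |ρ|)) *
          (9 * Real.sqrt ((a1 * (1 + |ρ|) + b1) * (a2 * (1 + |ρ|) + b2))) := by gcongr
      _ = 36 * M := by rw [hM]; ring
  -- summation
  have hmem : ∀ j ∈ Icc (-(J : ℤ)) J, |(j : ℝ)| ≤ J := by
    intro j hj
    rw [Finset.mem_Icc] at hj
    rw [abs_le]
    constructor
    · have : ((-(J : ℤ) : ℤ) : ℝ) ≤ (j : ℝ) := by exact_mod_cast hj.1
      push_cast at this; exact this
    · exact_mod_cast hj.2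
  have hS : ∀ T : ℕ, 1 ≤ T → ∑ j ∈ Icc (-(J : ℤ)) J, (if |(j : ℝ)| ≤ (T : ℝ) then u j else 0) ≤
      P * Real.sqrt ((a1 * T + b1) * (a2 * T + b2)) := by
    intro T hT
    refine le_trans ?_ (hN T hT)
    rw [← Finset.sum_filter]
    refine Finset.sum_le_sum_of_subset_of_nonneg ?_ (fun j _ _ => hu j)
    intro j hj
    rw [Finset.mem_filter] at hj
    have := abs_le.1 hj.2
    rw [Finset.mem_Icc]
    constructor
    · have h3 : ((-(T : ℤ) : ℤ) : ℝ) ≤ (j : ℝ) := by push_cast; exact this.1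
      exact_mod_cast h3
    · exact_mod_cast this.2
  calc ∑ j ∈ Icc (-(J : ℤ)) J, kj ρ j * u j
      ≤ ∑ j ∈ Icc (-(J : ℤ)) J, ((if |(j : ℝ)| ≤ T0 then 2 / Real.sqrt (1 + |ρ|) else 0) +
        ∑ i ∈ range I, (if |(j : ℝ)| ≤ 2 ^ (i + 1) * T0 then 2 / (2 ^ (i + 1) * (T0 : ℝ))
          else 0)) * u j :=
        Finset.sum_le_sum fun j hj => mul_le_mul_of_nonneg_right
          (oq_kj ρ T0 I J h8 hT1 hI j (hmem j hj)) (hu j)
    _ = 2 / Real.sqrt (1 + |ρ|) *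
          (∑ j ∈ Icc (-(J : ℤ)) J, (if |(j : ℝ)| ≤ (T0 : ℝ) then u j else 0)) +
        ∑ i ∈ range I, 2 / (2 ^ (i + 1) * (T0 : ℝ)) *
          (∑ j ∈ Icc (-(J : ℤ)) J,
            (if |(j : ℝ)| ≤ ((2 ^ (i + 1) * T0 : ℕ) : ℝ) then u j else 0)) := by
        simp only [add_mul, Finset.sum_add_distrib, Finset.sum_mul, Finset.mul_sum]
        congr 1
        · refine Finset.sum_congr rfl fun j _ => ?_
          split_ifs <;> ring
        · rw [Finset.sum_comm]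
          refine Finset.sum_congr rfl fun i _ => Finset.sum_congr rfl fun j _ => ?_
          push_cast
          split_ifs <;> ring
    _ ≤ 36 * M + ∑ i ∈ range I, 36 * M := by
        refine add_le_add ?_ (Finset.sum_le_sum fun i _ => ?_)
        · exact (mul_le_mul_of_nonneg_left (hS T0 hT1) (by positivity)).trans hA
        · refine (mul_le_mul_of_nonneg_left (hS (2 ^ (i + 1) * T0) ?_) (by positivity)).trans (hB i)
          exact Nat.one_le_iff_ne_zero.2 (Nat.mul_ne_zero (by positivity) (by omega))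
    _ = (1 + (I : ℝ)) * (36 * M) := by
        rw [Finset.sum_const, Finset.card_range, nsmul_eq_mul]; ring
    _ ≤ (1 + (1 + 2 * Real.log J)) * (36 * M) := by gcongr
    _ = 72 * (1 + Real.log J) * M := by ring

/-- number of units -/
private theorem oq_card (q : ℕ) [NeZero q] :
    ((univ.filter (fun x : ZMod q => IsUnit x)).card : ℝ) = Nat.totient q := by
  rw [← ZMod.card_units_eq_totient]
  congr 1
  rw [← Finset.card_univ, ← Finset.card_map ⟨((↑) : (ZMod q)ˣ → ZMod q), Units.val_injective⟩]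
  congr 1
  ext x
  simp only [Finset.mem_filter, Finset.mem_univ, true_and, Finset.mem_map,
    Function.Embedding.coeFn_mk]
  rfl

/-- the involution -/
private noncomputable def oqσ (q : ℕ) (ψ : DirichletCharacter ℂ q) (j : ℤ) :
    DirichletCharacter ℂ q × ℤ ≃ DirichletCharacter ℂ q × ℤ where
  toFun p := (ψ * p.1⁻¹, j - p.2)
  invFun p := (ψ * p.1⁻¹, j - p.2)
  left_inv p := by
    ext1
    · simp
    · simp
  right_inv p := by
    ext1
    · simp
    · simp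

/-- the window bound -/
private theorem oq_window (q h : ℕ) [NeZero q] [NeZero h] (hd : h ∣ q)
    (α : DirichletCharacter ℂ q × ℤ → ℝ) (a b : ℝ)
    (hα : ∀ T : ℕ, 1 ≤ T → ∀ (χ : DirichletCharacter ℂ q) (k : ℤ),
      ∑ ξ : DirichletCharacter ℂ h, ∑ j ∈ Icc (k - T) (k + T),
        α (DirichletCharacter.changeLevel hd ξ * χ, j) ^ 2 ≤ a * T + b)
    (T : ℕ) (hT : 1 ≤ T) (g : DirichletCharacter ℂ q × ℤ) :
    ∑ s ∈ (univ : Finset (DirichletCharacter ℂ h)) ×ˢ Icc (-(T : ℤ)) T,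
      α (DirichletCharacter.changeLevel hd s.1 * g.1⁻¹, s.2 - g.2) ^ 2 ≤ a * T + b := by
  refine le_trans (le_of_eq ?_) (hα T hT g.1⁻¹ (-g.2))
  rw [Finset.sum_product]
  refine Finset.sum_congr rfl fun ξ _ => ?_
  refine Finset.sum_nbij' (fun j => j - g.2) (fun j => j + g.2) ?_ ?_ ?_ ?_ ?_
  · intro j hj
    rw [Finset.mem_Icc] at hj ⊢
    constructor <;> omega
  · intro j hj
    rw [Finset.mem_Icc] at hj ⊢
    constructor <;> omega
  · intro j _; ring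
  · intro j _; ring
  · intro j _; rfl

theorem one_q_supp : ∃ C : ℝ, 0 < C ∧ ∀ (q h n : ℕ) [NeZero q] [NeZero h] (_ : h = hq q n)
    (hd : h ∣ q) (f g : ZMod q → ℝ → ℂ) (Bd : ℝ), 0 ≤ Bd → (∀ x, Measurable (f x)) →
    (∀ x, Measurable (g x)) → (∀ x t, ‖f x t‖ ≤ Bd) → (∀ x t, ‖g x t‖ ≤ Bd) →
    ∀ (Ω : Finset (DirichletCharacter ℂ q)),
    (∀ χ : DirichletCharacter ℂ q, χ ∉ Ω → ∀ (ξ : DirichletCharacter ℂ h) (j : ℤ),
      fq q g (DirichletCharacter.changeLevel hd ξ * χ⁻¹) j = 0) →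
    ∀ (α1 β1 α2 β2 : DirichletCharacter ℂ q × ℤ → ℝ),
    (∀ p, 0 ≤ α1 p) → (∀ p, 0 ≤ β1 p) → (∀ p, 0 ≤ α2 p) → (∀ p, 0 ≤ β2 p) →
    (∀ p, p.1 ∈ Ω → ‖fq q f p.1 p.2‖ ≤ α1 p * β1 p) →
    (∀ p, ‖fq q g p.1 p.2‖ ≤ α2 p * β2 p) →
    ∀ (a1 b1 a2 b2 S1 S2 : ℝ), 0 ≤ a1 → 0 ≤ b1 → 0 ≤ a2 → 0 ≤ b2 →
    (∀ T : ℕ, 1 ≤ T → ∀ (χ : DirichletCharacter ℂ q) (k : ℤ),
      ∑ ξ : DirichletCharacter ℂ h, ∑ j ∈ Icc (k - T) (k + T),
        α1 (DirichletCharacter.changeLevel hd ξ * χ, j) ^ 2 ≤ a1 * T + b1) →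
    (∀ T : ℕ, 1 ≤ T → ∀ (χ : DirichletCharacter ℂ q) (k : ℤ),
      ∑ ξ : DirichletCharacter ℂ h, ∑ j ∈ Icc (k - T) (k + T),
        α2 (DirichletCharacter.changeLevel hd ξ * χ, j) ^ 2 ≤ a2 * T + b2) →
    (Summable fun p => β1 p ^ 2) → ∑' p, β1 p ^ 2 ≤ S1 →
    (Summable fun p => β2 p ^ 2) → ∑' p, β2 p ^ 2 ≤ S2 →
    ∀ (ρ : ℝ) (J : ℕ), 1 ≤ J → 8 * |ρ| ≤ J →
    ‖∑ y ∈ univ.filter (fun y : ZMod q => IsUnit y),
        (∫ t in (0 : ℝ)..(Real.log 2 / 2), f y t * g y t * ((2 * Real.exp (2 * t) : ℝ) : ℂ) *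
          ee (ρ * Real.exp (2 * t))) * ee (-((n : ℝ) * ((y.val : ℝ) / q)))‖ ≤
      C * (1 + Real.log J) * (Real.sqrt ((h : ℝ) * h.divisors.card) / Nat.totient h) *
        Nat.totient q * Real.sqrt (S1 * S2) *
        Real.sqrt ((a1 * (1 + |ρ|) + b1) * (a2 * (1 + |ρ|) + b2)) / Real.sqrt (1 + |ρ|) +
      C * Nat.totient q * Bd ^ 2 / Real.sqrt J := by
  obtain ⟨Ct, hCt, hker⟩ := t_kernel
  refine ⟨72 * Ct, by positivity, ?_⟩
  intro q h n _ _ hh hd f g Bd hBd hmf hmg hf hg Ω hΩ α1 β1 α2 β2 hα1 hβ1 hα2 hβ2 hx1 hx2 a1 b1 a2 b2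
    S1 S2 ha1 hb1 ha2 hb2 hw1 hw2 hs1 hS1 hs2 hS2 ρ J hJ h8J
  have hφ : (0 : ℝ) < Nat.totient q := by
    exact_mod_cast Nat.totient_pos.2 (Nat.pos_of_ne_zero (NeZero.ne q))
  have hS10 : 0 ≤ S1 := (tsum_nonneg fun g => sq_nonneg (β1 g)).trans hS1
  have hS20 : 0 ≤ S2 := (tsum_nonneg fun g => sq_nonneg (β2 g)).trans hS2
  set κ : ℝ := Real.sqrt ((h : ℝ) * h.divisors.card) / Nat.totient h with hκ
  have hκ0 : 0 ≤ κ := by rw [hκ]; positivity
  set E : ZMod q → ℂ := fun y => ee (-((n : ℝ) * ((y.val : ℝ) / q))) with hE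
  set G : ℝ → ℂ := fun t => ∑ y ∈ univ.filter (fun y : ZMod q => IsUnit y),
    f y t * g y t * E y with hG
  have hEn : ∀ y, ‖E y‖ = 1 := fun y => by rw [hE]; exact norm_ee _
  have hGm : Measurable G := by
    rw [hG]
    exact Finset.measurable_sum _ fun y _ => ((hmf y).mul (hmg y)).mul_const _
  have hfg : ∀ y t, ‖f y t * g y t‖ ≤ Bd ^ 2 := by
    intro y t
    rw [norm_mul, sq]
    exact mul_le_mul (hf y t) (hg y t) (norm_nonneg _) hBd
  have hGb : ∀ t, ‖G t‖ ≤ Nat.totient q * Bd ^ 2 := by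
    intro t
    calc ‖G t‖ ≤ ∑ y ∈ univ.filter (fun y : ZMod q => IsUnit y), Bd ^ 2 := by
          refine (norm_sum_le _ _).trans (Finset.sum_le_sum fun y _ => ?_)
          rw [norm_mul, hEn, mul_one]
          exact hfg y t
      _ = Nat.totient q * Bd ^ 2 := by rw [Finset.sum_const, nsmul_eq_mul, oq_card]
  have hint : ∀ (y : ZMod q) (φ : ℝ → ℂ), Continuous φ → ∀ c d : ℝ,
      IntervalIntegrable (fun t => f y t * g y t * φ t) MeasureTheory.volume c d := by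
    intro y φ hφc c d
    have h1 : IntervalIntegrable φ MeasureTheory.volume c d := hφc.intervalIntegrable c d
    refine IntervalIntegrable.mono_fun (h1.norm.const_mul (Bd ^ 2)) ?_ ?_
    · exact ((hmf y).mul (hmg y)).mul hφc.measurable |>.aestronglyMeasurable
    · refine Filter.Eventually.of_forall fun t => ?_
      dsimp only
      rw [norm_mul, Real.norm_of_nonneg (by positivity)]
      exact mul_le_mul_of_nonneg_right (hfg y t) (norm_nonneg _)
  -- left side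
  have hleft : ∑ y ∈ univ.filter (fun y : ZMod q => IsUnit y),
        (∫ t in (0 : ℝ)..(Real.log 2 / 2), f y t * g y t * ((2 * Real.exp (2 * t) : ℝ) : ℂ) *
          ee (ρ * Real.exp (2 * t))) * ee (-((n : ℝ) * ((y.val : ℝ) / q))) =
      ∫ t in (0 : ℝ)..(Real.log 2 / 2), G t * ((2 * Real.exp (2 * t) : ℝ) : ℂ) *
        ee (ρ * Real.exp (2 * t)) := by
    have hc : Continuous fun t : ℝ => ((2 * Real.exp (2 * t) : ℝ) : ℂ) *
        ee (ρ * Real.exp (2 * t)) := by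
      refine Continuous.mul (by fun_prop) (ee_cont.comp (by fun_prop))
    have h1 : ∀ t, G t * ((2 * Real.exp (2 * t) : ℝ) : ℂ) * ee (ρ * Real.exp (2 * t)) =
        ∑ y ∈ univ.filter (fun y : ZMod q => IsUnit y),
          (f y t * g y t * (((2 * Real.exp (2 * t) : ℝ) : ℂ) * ee (ρ * Real.exp (2 * t)))) * E y := by
      intro t
      rw [hG]
      dsimp only
      rw [Finset.sum_mul, Finset.sum_mul]
      refine Finset.sum_congr rfl fun y _ => ?_
      ring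
    simp_rw [h1]
    rw [intervalIntegral.integral_finsetSum]
    · refine Finset.sum_congr rfl fun y _ => ?_
      rw [intervalIntegral.integral_mul_const]
      congr 1
      refine intervalIntegral.integral_congr fun t _ => ?_
      ring
    · intro y _
      exact (hint y _ hc _ _).mul_const _
  rw [hleft]
  -- Fourier coefficients of `G`
  have hfcG : ∀ j : ℤ, fc G j = ∑ y ∈ univ.filter (fun y : ZMod q => IsUnit y),
      fc (fun t => f y t * g y t) j * ee (-((n : ℝ) * ((y.val : ℝ) / q))) := by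
    intro j
    unfold fc
    have hc : Continuous fun t : ℝ => ee ((j : ℝ) * t) := ee_cont.comp (by fun_prop)
    have h1 : ∀ t, G t * ee ((j : ℝ) * t) = ∑ y ∈ univ.filter (fun y : ZMod q => IsUnit y),
          (f y t * g y t * ee ((j : ℝ) * t)) * E y := by
      intro t
      rw [hG]
      dsimp only
      rw [Finset.sum_mul]
      refine Finset.sum_congr rfl fun y _ => ?_
      ring
    simp_rw [h1]
    rw [intervalIntegral.integral_finsetSum]
    · refine Finset.sum_congr rfl fun y _ => ?_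
      rw [intervalIntegral.integral_mul_const]
    · intro y _
      exact (hint y _ hc _ _).mul_const _
  classical
  -- the restricted factor
  set u : DirichletCharacter ℂ q × ℤ → ℝ := fun p =>
    if p.1 ∈ Ω then ‖fq q f p.1 p.2‖ else 0 with hu
  have hu1 : ∀ p, |u p| ≤ α1 p * β1 p := by
    intro p
    rw [hu]
    dsimp only
    split_ifs with hp
    · rw [abs_of_nonneg (norm_nonneg _)]
      exact hx1 p hp
    · rw [abs_zero]
      exact mul_nonneg (hα1 p) (hβ1 p)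
  have hup : ∀ (ξ : DirichletCharacter ℂ h) (j : ℤ) (p : DirichletCharacter ℂ q × ℤ),
      ‖fq q f p.1 p.2‖ * ‖fq q g (DirichletCharacter.changeLevel hd ξ * p.1⁻¹) (j - p.2)‖ =
      u p * ‖fq q g (DirichletCharacter.changeLevel hd ξ * p.1⁻¹) (j - p.2)‖ := by
    intro ξ j p
    rw [hu]
    dsimp only
    split_ifs with hp
    · rfl
    · rw [hΩ p.1 hp ξ (j - p.2), norm_zero, mul_zero, mul_zero]
  have hcc : ∀ T : ℕ, 1 ≤ T →
      (∀ s ∈ (univ : Finset (DirichletCharacter ℂ h)) ×ˢ Icc (-(T : ℤ)) T,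
        Summable fun p : DirichletCharacter ℂ q × ℤ =>
          |‖fq q f p.1 p.2‖ * ‖fq q g (DirichletCharacter.changeLevel hd s.1 * p.1⁻¹)
            (s.2 - p.2)‖|) ∧
      ∑ s ∈ (univ : Finset (DirichletCharacter ℂ h)) ×ˢ Icc (-(T : ℤ)) T,
        ∑' p : DirichletCharacter ℂ q × ℤ,
          |‖fq q f p.1 p.2‖ * ‖fq q g (DirichletCharacter.changeLevel hd s.1 * p.1⁻¹)
            (s.2 - p.2)‖| ≤
        Real.sqrt ((a1 * T + b1) * (a2 * T + b2) * (S1 * S2)) := by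
    intro T hT
    simp_rw [hup]
    exact coset_cauchy ((univ : Finset (DirichletCharacter ℂ h)) ×ˢ Icc (-(T : ℤ)) T)
      (fun s => oqσ q (DirichletCharacter.changeLevel hd s.1) s.2)
      u (fun p => ‖fq q g p.1 p.2‖) α1 β1 α2 β2 hα1 hβ1 hα2 hβ2
      hu1
      (fun p => by rw [abs_of_nonneg (norm_nonneg _)]; exact hx2 p)
      (a1 * T + b1) (a2 * T + b2) S1 S2
      (fun p => oq_window q h hd α1 a1 b1 hw1 T hT p)
      (fun p => oq_window q h hd α2 a2 b2 hw2 T hT p) hs1 hS1 hs2 hS2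
  have hpt : ∀ (T : ℕ), 1 ≤ T → ∀ j ∈ Icc (-(T : ℤ)) T, ‖fc G j‖ ≤ κ * Nat.totient q *
      ∑ ξ : DirichletCharacter ℂ h, ∑' p : DirichletCharacter ℂ q × ℤ,
        |‖fq q f p.1 p.2‖ * ‖fq q g (DirichletCharacter.changeLevel hd ξ * p.1⁻¹) (j - p.2)‖| := by
    intro T hT j hj
    rw [hfcG j]
    refine (q_kernel q h n hh hd (fun y => fc (fun t => f y t * g y t) j)).trans ?_
    rw [mul_assoc κ]
    refine mul_le_mul_of_nonneg_left ?_ hκ0
    rw [Finset.mul_sum]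
    refine Finset.sum_le_sum fun ξ _ => ?_
    have hsm := (hcc T hT).1 (ξ, j) (Finset.mem_product.2 ⟨Finset.mem_univ _, hj⟩)
    have hmul := fq_mul q f g Bd hmf hmg hf hg (DirichletCharacter.changeLevel hd ξ) j
    have hnorm : ∀ p : DirichletCharacter ℂ q × ℤ,
        ‖fq q f p.1 p.2 * fq q g (DirichletCharacter.changeLevel hd ξ * p.1⁻¹) (j - p.2)‖ =
        |‖fq q f p.1 p.2‖ * ‖fq q g (DirichletCharacter.changeLevel hd ξ * p.1⁻¹) (j - p.2)‖| := by
      intro p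
      rw [norm_mul, abs_of_nonneg (by positivity)]
    have hle : ‖(1 / (Nat.totient q : ℂ)) * ∑ x : ZMod q, DirichletCharacter.changeLevel hd ξ x *
        fc (fun t => f x t * g x t) j‖ ≤ ∑' p : DirichletCharacter ℂ q × ℤ,
        |‖fq q f p.1 p.2‖ * ‖fq q g (DirichletCharacter.changeLevel hd ξ * p.1⁻¹) (j - p.2)‖| := by
      rw [← hmul.tsum_eq]
      have hsm' : Summable fun p : DirichletCharacter ℂ q × ℤ =>
          ‖fq q f p.1 p.2 * fq q g (DirichletCharacter.changeLevel hd ξ * p.1⁻¹) (j - p.2)‖ := by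
        simp_rw [hnorm]; exact hsm
      refine (norm_tsum_le_tsum_norm hsm').trans (le_of_eq ?_)
      simp_rw [hnorm]
    rw [norm_mul, norm_div, norm_one, Complex.norm_natCast, one_div] at hle
    rw [inv_mul_le_iff₀ hφ] at hle
    exact hle
  have hlev : ∀ T : ℕ, 1 ≤ T → ∑ j ∈ Icc (-(T : ℤ)) T, ‖fc G j‖ ≤
      (κ * Nat.totient q * Real.sqrt (S1 * S2)) *
        Real.sqrt ((a1 * T + b1) * (a2 * T + b2)) := by
    intro T hT
    have h2 := (hcc T hT).2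
    calc ∑ j ∈ Icc (-(T : ℤ)) T, ‖fc G j‖
        ≤ ∑ j ∈ Icc (-(T : ℤ)) T, κ * Nat.totient q *
          ∑ ξ : DirichletCharacter ℂ h, ∑' p : DirichletCharacter ℂ q × ℤ,
            |‖fq q f p.1 p.2‖ *
              ‖fq q g (DirichletCharacter.changeLevel hd ξ * p.1⁻¹) (j - p.2)‖| :=
          Finset.sum_le_sum fun j hj => hpt T hT j hj
      _ = κ * Nat.totient q *
          ∑ s ∈ (univ : Finset (DirichletCharacter ℂ h)) ×ˢ Icc (-(T : ℤ)) T,
            ∑' p : DirichletCharacter ℂ q × ℤ,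
              |‖fq q f p.1 p.2‖ * ‖fq q g (DirichletCharacter.changeLevel hd s.1 * p.1⁻¹)
                (s.2 - p.2)‖| := by
          rw [← Finset.mul_sum, Finset.sum_product_right]
      _ ≤ κ * Nat.totient q * Real.sqrt ((a1 * T + b1) * (a2 * T + b2) * (S1 * S2)) :=
          mul_le_mul_of_nonneg_left h2 (by positivity)
      _ = _ := by
          rw [Real.sqrt_mul (by positivity)]
          ring
  have hdy := oq_dyadic (fun j => ‖fc G j‖) (fun j => norm_nonneg _)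
    (κ * Nat.totient q * Real.sqrt (S1 * S2)) a1 b1 a2 b2 (by positivity) ha1 hb1 ha2 hb2
    hlev ρ J hJ
  have hk := hker G (Nat.totient q * Bd ^ 2) hGm hGb ρ J hJ h8J
  refine hk.trans ?_
  have hsJ : 0 < Real.sqrt (J : ℝ) := Real.sqrt_pos.2 (by exact_mod_cast hJ)
  have h72 : Ct * ((Nat.totient q : ℝ) * Bd ^ 2 / Real.sqrt J) ≤
      72 * Ct * Nat.totient q * Bd ^ 2 / Real.sqrt J := by
    have : 0 ≤ (Nat.totient q : ℝ) * Bd ^ 2 / Real.sqrt J := by positivity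
    calc Ct * ((Nat.totient q : ℝ) * Bd ^ 2 / Real.sqrt J)
        ≤ 72 * (Ct * ((Nat.totient q : ℝ) * Bd ^ 2 / Real.sqrt J)) := by
          have := mul_nonneg hCt.le this
          linarith
      _ = _ := by ring
  rw [mul_add]
  refine add_le_add ?_ h72
  calc Ct * ∑ j ∈ Icc (-(J : ℤ)) J, kj ρ j * ‖fc G j‖
      ≤ Ct * (72 * (1 + Real.log J) * (κ * Nat.totient q * Real.sqrt (S1 * S2) *
        Real.sqrt ((a1 * (1 + |ρ|) + b1) * (a2 * (1 + |ρ|) + b2)) / Real.sqrt (1 + |ρ|))) :=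
        mul_le_mul_of_nonneg_left hdy hCt.le
    _ = _ := by ring

end Pool.MP_dd84fd_nt.LXP
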