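import Pool.Agent.Lib.MP_dd84fd_nt.LX.PwSpl
import Pool.Agent.Lib.MP_dd84fd_nt.LX.PwCnt

/-!
# PL_L-Q: a wide block against a narrow block for one modulus

`spl_w` for `cvf`: `J0 = X^30`, `J = X^200`, `V = v Am M2`, `Ω = Om`: the cosets of the inverses of the large characters.
-/

set_option autoImplicit false

namespace Pool.MP_dd84fd_nt.LXP

open Finset Pool.MP_67663b_nt.Odd Pool.MP_dd84fd_nt.PL Pool.MP_dd84fd_nt.HX Pool.MP_dd84fd_nt.HXP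
open Pool.MP_dd84fd_nt.JXP

/-- the cosets (mod the characters mod `h`) of the inverses of the large characters -/
noncomputable def Om (q h : ℕ) [NeZero q] [NeZero h] (hd : h ∣ q) (MM : Finset ℕ) (a : ℕ → ℂ)
    (M V : ℝ) (J0 : ℕ) : Finset (DirichletCharacter ℂ q) :=
  open Classical in
  ((LgC q MM a M V J0) ×ˢ (univ : Finset (DirichletCharacter ℂ h))).image
    (fun s => DirichletCharacter.changeLevel hd s.2 * (s.1.1)⁻¹)

theorem om_mem (q h : ℕ) [NeZero q] [NeZero h] (hd : h ∣ q) (MM : Finset ℕ) (a : ℕ → ℂ)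
    (M V : ℝ) (J0 : ℕ) (χ : DirichletCharacter ℂ q) (j : ℤ) (hj : |j| ≤ J0)
    (hV : V < ‖alm q MM a M (χ, j)‖) (ξ : DirichletCharacter ℂ h) :
    DirichletCharacter.changeLevel hd ξ * χ⁻¹ ∈ Om q h hd MM a M V J0 := by
  classical
  unfold Om
  rw [Finset.mem_image]
  refine ⟨((χ, j), ξ), ?_, rfl⟩
  rw [Finset.mem_product]
  refine ⟨?_, Finset.mem_univ _⟩
  unfold LgC
  rw [Finset.mem_filter, Finset.mem_product]
  exact ⟨⟨Finset.mem_univ _, Finset.mem_Icc.2 (abs_le.1 hj)⟩, hV⟩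

theorem om_sum (q h : ℕ) [NeZero q] [NeZero h] (hd : h ∣ q) (MM : Finset ℕ) (a : ℕ → ℂ)
    (M V : ℝ) (J0 : ℕ) (F : DirichletCharacter ℂ q → ℝ) (hF : ∀ χ, 0 ≤ F χ) :
    ∑ χ ∈ Om q h hd MM a M V J0, F χ ≤
      ∑ p ∈ LgC q MM a M V J0, ∑ ξ : DirichletCharacter ℂ h,
        F (DirichletCharacter.changeLevel hd ξ * (p.1)⁻¹) := by
  classical
  unfold Om
  rw [← Finset.sum_product']
  exact Finset.sum_image_le_of_nonneg (fun s _ => hF _)

theorem om_card (q h : ℕ) [NeZero q] [NeZero h] (hd : h ∣ q) (MM : Finset ℕ) (a : ℕ → ℂ)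
    (M V : ℝ) (J0 : ℕ) : ((Om q h hd MM a M V J0).card : ℝ) ≤ (LgC q MM a M V J0).card * h := by
  classical
  have h1 : (Om q h hd MM a M V J0).card ≤
      ((LgC q MM a M V J0) ×ˢ (univ : Finset (DirichletCharacter ℂ h))).card := by
    unfold Om
    exact Finset.card_image_le
  rw [Finset.card_product] at h1
  have h2 : (univ : Finset (DirichletCharacter ℂ h)).card = Nat.totient h := by
    rw [Finset.card_univ, ← Nat.card_eq_fintype_card]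
    exact DirichletCharacter.card_eq_totient_of_hasEnoughRootsOfUnity ℂ h
  rw [h2] at h1
  have h3 : (Nat.totient h : ℝ) ≤ h := by exact_mod_cast Nat.totient_le h
  have h4 : ((Om q h hd MM a M V J0).card : ℝ) ≤
      (LgC q MM a M V J0).card * Nat.totient h := by exact_mod_cast h1
  exact h4.trans (mul_le_mul_of_nonneg_left h3 (Nat.cast_nonneg _))

/-- the `L²` norm after the substitution `x = (β/X) e^{2t}` -/
theorem f2_le (X : ℕ) (hX : 1 ≤ X) (β : ℝ) (hβ : 0 < β) (q : ℕ) [NeZero q]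
    (f : ℕ → ℝ → ℂ) (f' : ZMod q → ℝ → ℂ) (hcf : ∀ a, Continuous (f a))
    (hf : ∀ a ∈ rr q, ∀ t : ℝ, 0 ≤ t → t < Real.log 2 / 2 →
      f a (β / X * Real.exp (2 * t)) = f' (a : ZMod q) t) :
    ∑ y ∈ univ.filter (fun y : ZMod q => IsUnit y),
        ∫ t in (0 : ℝ)..(Real.log 2 / 2), ‖f' y t‖ ^ 2 ≤
      (X / (2 * β)) * ∑ a ∈ rr q, ∫ x in (β / X)..(2 * β / X), ‖f a x‖ ^ 2 := by
  have hX0 : (0 : ℝ) < X := by exact_mod_cast hX
  have hl : (0 : ℝ) ≤ Real.log 2 / 2 := by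
    have := Real.log_nonneg (show (1 : ℝ) ≤ 2 by norm_num)
    linarith
  have hu := sum_units q (fun a : ℕ => ∫ t in (0 : ℝ)..(Real.log 2 / 2), ‖f' (a : ZMod q) t‖ ^ 2)
  have hu' : ∑ y ∈ univ.filter (fun y : ZMod q => IsUnit y),
        ∫ t in (0 : ℝ)..(Real.log 2 / 2), ‖f' y t‖ ^ 2 =
      ∑ a ∈ rr q, ∫ t in (0 : ℝ)..(Real.log 2 / 2), ‖f' (a : ZMod q) t‖ ^ 2 := by
    rw [← hu]
    refine Finset.sum_congr rfl fun y _ => ?_
    simp only [ZMod.natCast_zmod_val]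
  rw [hu', Finset.mul_sum]
  refine Finset.sum_le_sum fun a ha => ?_
  have hc : Continuous (fun x : ℝ => ‖f a x‖ ^ 2) := ((hcf a).norm).pow 2
  have hd : ∀ t ∈ Set.uIcc (0 : ℝ) (Real.log 2 / 2),
      HasDerivAt (fun t : ℝ => β / X * Real.exp (2 * t)) (β / X * (Real.exp (2 * t) * 2)) t := by
    intro t _
    have h1 : HasDerivAt (fun t : ℝ => 2 * t) 2 t := by
      simpa using (hasDerivAt_id t).const_mul 2
    exact (h1.exp).const_mul (β / X)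
  have hcd : ContinuousOn (fun t : ℝ => β / X * (Real.exp (2 * t) * 2))
      (Set.uIcc (0 : ℝ) (Real.log 2 / 2)) := by
    fun_prop
  have hsub := intervalIntegral.integral_comp_mul_deriv (g := fun x : ℝ => ‖f a x‖ ^ 2)
    (f := fun t : ℝ => β / X * Real.exp (2 * t))
    (f' := fun t : ℝ => β / X * (Real.exp (2 * t) * 2)) (a := 0) (b := Real.log 2 / 2) hd hcd hc
  have e0 : β / X * Real.exp (2 * 0) = β / X := by simp
  have e1 : β / X * Real.exp (2 * (Real.log 2 / 2)) = 2 * β / X := by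
    have : 2 * (Real.log 2 / 2) = Real.log 2 := by ring
    rw [this, Real.exp_log (by norm_num)]
    ring
  simp only [e0, e1] at hsub
  rw [← hsub, ← intervalIntegral.integral_const_mul]
  have hcong : ∫ t in (0 : ℝ)..(Real.log 2 / 2), ‖f' (a : ZMod q) t‖ ^ 2 =
      ∫ t in (0 : ℝ)..(Real.log 2 / 2), ‖f a (β / X * Real.exp (2 * t))‖ ^ 2 := by
    rw [intervalIntegral.integral_of_le hl, intervalIntegral.integral_of_le hl,
      MeasureTheory.integral_Ioc_eq_integral_Ioo, MeasureTheory.integral_Ioc_eq_integral_Ioo]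
    refine MeasureTheory.setIntegral_congr_fun measurableSet_Ioo fun t ht => ?_
    show ‖f' (a : ZMod q) t‖ ^ 2 = ‖f a (β / X * Real.exp (2 * t))‖ ^ 2
    rw [hf a ha t ht.1.le ht.2]
  rw [hcong]
  have hcc : Continuous (fun t : ℝ => ‖f a (β / X * Real.exp (2 * t))‖ ^ 2) := by
    have := hcf a
    fun_prop
  refine intervalIntegral.integral_mono_on hl (hcc.intervalIntegrable _ _) ?_ ?_
  · refine Continuous.intervalIntegrable ?_ _ _
    have := hcf a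
    simp only [Function.comp]
    fun_prop
  · intro t ht
    have h1 : 1 ≤ Real.exp (2 * t) := Real.one_le_exp (by linarith [ht.1])
    have h2 : 0 ≤ ‖f a (β / X * Real.exp (2 * t))‖ ^ 2 := by positivity
    simp only [Function.comp]
    calc ‖f a (β / X * Real.exp (2 * t))‖ ^ 2 ≤
        ‖f a (β / X * Real.exp (2 * t))‖ ^ 2 * Real.exp (2 * t) := le_mul_of_one_le_right h2 h1
      _ = X / (2 * β) * (‖f a (β / X * Real.exp (2 * t))‖ ^ 2 *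
          (β / X * (Real.exp (2 * t) * 2))) := by
        field_simp

/-- numerical part: the main term -/
theorem lw_main (C0 Cw L κ φ S1 S2 z Am M1 h ρ β a2 b2 s1 s2 : ℝ) (hC0 : 0 < C0) (hCw : 0 < Cw)
    (hL : 1 ≤ L) (hκ : 0 ≤ κ) (hz : φ * Real.sqrt (S1 * S2) = z) (hz0 : 0 ≤ z)
    (hAm : 0 < Am) (hM1 : 0 < M1) (hh : 0 ≤ h) (hρ : |ρ| ≤ β) (ha2 : 0 ≤ a2) (hb2 : 0 ≤ b2)
    (hs : 0 < s1) (hs2 : 0 < s2) (hss : s2 ≤ 2 * s1) :
    C0 * (1 + 200 * L) * κ * φ * Real.sqrt (S1 * S2) *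
      Real.sqrt (((Cw * Am ^ 2 * M1 * h) * (1 + |ρ|) + Cw * Am ^ 2 * M1 * M1) *
        (a2 * (1 + |ρ|) + b2)) / s1 ≤
    402 * C0 * (Cw + 1) * (L * (κ / s2) * z * (Am * Real.sqrt (M1 * (h * (1 + β) + M1))) *
      Real.sqrt (a2 * (1 + β) + b2)) := by
  have hρ0 : 0 ≤ |ρ| := abs_nonneg _
  have hβ0 : 0 ≤ β := hρ0.trans hρ
  have h1 : Real.sqrt (((Cw * Am ^ 2 * M1 * h) * (1 + |ρ|) + Cw * Am ^ 2 * M1 * M1) *
        (a2 * (1 + |ρ|) + b2)) ≤ (Cw + 1) * (Am * Real.sqrt (M1 * (h * (1 + β) + M1))) *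
      Real.sqrt (a2 * (1 + β) + b2) := by
    have e1 : (Cw + 1) * (Am * Real.sqrt (M1 * (h * (1 + β) + M1))) *
        Real.sqrt (a2 * (1 + β) + b2) =
        Real.sqrt (((Cw + 1) * Am) ^ 2 * (M1 * (h * (1 + β) + M1)) * (a2 * (1 + β) + b2)) := by
      rw [Real.sqrt_mul (show 0 ≤ ((Cw + 1) * Am) ^ 2 * (M1 * (h * (1 + β) + M1)) by positivity),
        Real.sqrt_mul (show 0 ≤ ((Cw + 1) * Am) ^ 2 by positivity),
        Real.sqrt_sq (by positivity)]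
      ring
    rw [e1]
    refine Real.sqrt_le_sqrt ?_
    have h2 : (Cw * Am ^ 2 * M1 * h) * (1 + |ρ|) + Cw * Am ^ 2 * M1 * M1 ≤
        ((Cw + 1) * Am) ^ 2 * (M1 * (h * (1 + β) + M1)) := by
      have h3 : Cw ≤ (Cw + 1) ^ 2 := by nlinarith
      have h4 : 0 ≤ Am ^ 2 * (M1 * (h * (1 + β) + M1)) := by
        have : 0 ≤ β := hρ0.trans hρ
        positivity
      calc (Cw * Am ^ 2 * M1 * h) * (1 + |ρ|) + Cw * Am ^ 2 * M1 * M1 =
          Cw * (Am ^ 2 * (M1 * (h * (1 + |ρ|) + M1))) := by ring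
        _ ≤ Cw * (Am ^ 2 * (M1 * (h * (1 + β) + M1))) := by gcongr
        _ ≤ (Cw + 1) ^ 2 * (Am ^ 2 * (M1 * (h * (1 + β) + M1))) :=
            mul_le_mul_of_nonneg_right h3 h4
        _ = _ := by ring
    have h5 : a2 * (1 + |ρ|) + b2 ≤ a2 * (1 + β) + b2 := by gcongr
    exact mul_le_mul h2 h5 (by positivity) (by
      have : 0 ≤ β := hρ0.trans hρ
      positivity)
  have h3 : 1 / s1 ≤ 2 / s2 := by
    rw [div_le_div_iff₀ hs hs2]
    linarith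
  obtain ⟨Q, hQ⟩ : ∃ Q : ℝ, Q = (Am * Real.sqrt (M1 * (h * (1 + β) + M1))) *
      Real.sqrt (a2 * (1 + β) + b2) := ⟨_, rfl⟩
  have hQ0 : 0 ≤ Q := by rw [hQ]; positivity
  have hL0 : 0 ≤ L := by linarith
  calc _ = (C0 * (1 + 200 * L) * κ * (φ * Real.sqrt (S1 * S2))) *
      (Real.sqrt (((Cw * Am ^ 2 * M1 * h) * (1 + |ρ|) + Cw * Am ^ 2 * M1 * M1) *
        (a2 * (1 + |ρ|) + b2)) * (1 / s1)) := by ring
    _ ≤ (C0 * (201 * L) * κ * z) * (((Cw + 1) * Q) * (2 / s2)) := by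
        rw [hz]
        refine mul_le_mul ?_ ?_ (by positivity) (by positivity)
        · refine mul_le_mul_of_nonneg_right (mul_le_mul_of_nonneg_right
            (mul_le_mul_of_nonneg_left (by linarith) hC0.le) hκ) hz0
        · refine mul_le_mul (h1.trans (le_of_eq ?_)) h3 (by positivity) (by positivity)
          rw [hQ]
          ring
    _ = _ := by
        rw [hQ]
        ring

/-- numerical part: the tails -/
theorem lw_tail (C0 X φ q Am M2 f J0 J : ℝ) (hC0 : 0 < C0) (hX : 1 ≤ X)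
    (hφ0 : 0 ≤ φ) (hφ : φ ≤ X) (hq0 : 0 ≤ q) (hq : q ≤ X) (hAm : 0 < Am) (hAmX : Am ≤ X)
    (hM2 : 0 < M2) (hM2X : M2 ≤ X) (hf : f ≤ 4 * X ^ 5) (hf0 : 0 ≤ f)
    (hJ0 : J0 = X ^ 30) (hJ : J = X ^ 200) :
    C0 * f * (2 * Am * M2 * (100 * X ^ 4) * Real.sqrt (φ * q / J0)) +
      C0 * φ * (q * (2 * J0 + 1) * (4 * X ^ 4)) ^ 2 / Real.sqrt J ≤
    1000 * C0 / X ^ 3 := by
  have hX0 : 0 < X := by linarith
  have eJ : Real.sqrt J = X ^ 100 := by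
    rw [hJ, show X ^ 200 = (X ^ 100) ^ 2 by ring, Real.sqrt_sq (by positivity)]
  have eJ0 : Real.sqrt (φ * q / J0) ≤ X / X ^ 15 := by
    rw [Real.sqrt_le_left (by positivity), hJ0, div_pow]
    have e : (X ^ 15) ^ 2 = X ^ 30 := by ring
    rw [e]
    refine div_le_div_of_nonneg_right ?_ (by positivity)
    rw [sq]
    exact mul_le_mul hφ hq hq0 hX0.le
  have hp : ∀ a b : ℕ, a ≤ b → X ^ a ≤ X ^ b := fun a b h => pow_le_pow_right₀ hX h
  have t3 : C0 * f * (2 * Am * M2 * (100 * X ^ 4) * Real.sqrt (φ * q / J0)) ≤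
      C0 * 800 / X ^ 3 := by
    calc C0 * f * (2 * Am * M2 * (100 * X ^ 4) * Real.sqrt (φ * q / J0)) ≤
        C0 * (4 * X ^ 5) * (2 * X * X * (100 * X ^ 4) * (X / X ^ 15)) := by
          gcongr
      _ = C0 * 800 * (X ^ 12 / X ^ 15) := by ring
      _ ≤ C0 * 800 * (1 / X ^ 3) := by
          refine mul_le_mul_of_nonneg_left ?_ (by positivity)
          rw [div_le_div_iff₀ (by positivity) (by positivity), one_mul, ← pow_add]
      _ = _ := by ring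
  have t4 : C0 * φ * (q * (2 * J0 + 1) * (4 * X ^ 4)) ^ 2 / Real.sqrt J ≤ C0 * 144 / X ^ 3 := by
    rw [eJ, hJ0]
    have h40 : 2 * X ^ 30 + 1 ≤ 3 * X ^ 30 := by
      have := one_le_pow₀ (n := 30) hX
      linarith
    calc C0 * φ * (q * (2 * X ^ 30 + 1) * (4 * X ^ 4)) ^ 2 / X ^ 100 ≤
        C0 * X * (X * (3 * X ^ 30) * (4 * X ^ 4)) ^ 2 / X ^ 100 := by
          gcongr
      _ = C0 * 144 * (X ^ 71 / X ^ 100) := by ring
      _ ≤ C0 * 144 * (1 / X ^ 3) := by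
          refine mul_le_mul_of_nonneg_left ?_ (by positivity)
          rw [div_le_div_iff₀ (by positivity) (by positivity), one_mul, ← pow_add]
          exact hp _ _ (by norm_num)
      _ = _ := by ring
  have h3 : 0 < X ^ 3 := by positivity
  calc _ ≤ C0 * 800 / X ^ 3 + C0 * 144 / X ^ 3 := add_le_add t3 t4
    _ ≤ 1000 * C0 / X ^ 3 := by
        rw [← add_div, div_le_div_iff_of_pos_right h3]
        linarith

theorem lv_w : ∃ C : ℝ, 0 < C ∧ ∀ (X n q h : ℕ) [NeZero q] [NeZero h] (_ : h = hq q n)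
    (hd : h ∣ q) (β σ : ℝ),
    16 ≤ X → n ≤ X → X < 2 * n → 0 < β → β ≤ 2 * X → q ≤ X → (σ = 1 ∨ σ = -1) →
    ∀ (M1 M2 Am : ℝ) (K1 K2 : ℕ) (MM1 MM2 : Finset ℕ) (a1 a2 c1 c2 : ℕ → ℂ),
    1 ≤ M1 → 1 ≤ M2 → M1 ≤ X → M2 ≤ X → K1 ≤ X → K2 ≤ X → 0 < Am → Am ≤ X →
    (∀ m ∈ MM1, M1 < (m : ℝ) ∧ (m : ℝ) ≤ 2 * M1) → (∀ m ∈ MM2, M2 < (m : ℝ) ∧ (m : ℝ) ≤ 2 * M2) →
    (∀ m ∈ MM1, ‖a1 m‖ ≤ Am) → (∀ m ∈ MM2, ‖a2 m‖ ≤ Am) →
    ∑ k ∈ Icc 1 K1, ‖c1 k‖ ≤ 2 * (X : ℝ) ^ 2 → ∑ k ∈ Icc 1 K2, ‖c2 k‖ ≤ 2 * (X : ℝ) ^ 2 →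
    ∀ (v A2 B2 : ℝ), 0 < v → v ≤ 1 → 0 ≤ A2 → 0 ≤ B2 →
    (∀ T : ℕ, 1 ≤ T → ∀ (χ : DirichletCharacter ℂ q) (k : ℤ),
      ∑ ξ : DirichletCharacter ℂ h, ∑ j ∈ Icc (k - T) (k + T),
        (if |j| ≤ ((X ^ 30 : ℕ) : ℤ) ∧
            v * Am * M2 < ‖alm q MM2 a2 M2 (DirichletCharacter.changeLevel hd ξ * χ, j)‖ then
          ‖alm q MM2 a2 M2 (DirichletCharacter.changeLevel hd ξ * χ, j)‖ ^ 2 else 0) ≤
            A2 * T + B2) →
    ‖Bq X β σ n q (f2f MM1 a1 (tp K1 c1) σ q) (f2f MM2 a2 (tp K2 c2) σ q)‖ ≤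
      C * (Real.log X * (β / X) * (ltK h / Real.sqrt (1 + β)) *
        (Real.sqrt (Nat.totient q * ∑ χ ∈ Om q h hd MM2 a2 M2 (v * Am * M2) (X ^ 30),
            ∑' j : ℤ, ‖fq q (Bt q (tp K1 c1) (σ * (M1 * (β / X)))) χ j‖ ^ 2) *
          Real.sqrt (∑ r ∈ rr q, ∫ t in (0 : ℝ)..1,
            ‖tp K2 c2 ((r : ℝ) / q + σ * (M2 * (β / X)) * Real.exp (2 * Int.fract t))‖ ^ 2)) *
        (Am * Real.sqrt (M1 * (h * (1 + β) + M1))) * Real.sqrt (A2 * (1 + β) + B2)) +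
      C * (v * Am * M2) * (Real.sqrt (β / X) *
        Real.sqrt (∑ a' ∈ rr q, ∫ x in (β / X)..(2 * β / X),
          ‖f2f MM1 a1 (tp K1 c1) σ q a' x‖ ^ 2) *
        Real.sqrt (∑ r ∈ rr q, ∫ t in (0 : ℝ)..1,
            ‖tp K2 c2 ((r : ℝ) / q + σ * (M2 * (β / X)) * Real.exp (2 * Int.fract t))‖ ^ 2)) +
      C / (X : ℝ) ^ 3 := by
  classical
  obtain ⟨C0, hC0, h0⟩ := spl_w
  obtain ⟨Cw, hCw, hw⟩ := alm_window
  refine ⟨402 * C0 * (Cw + 1) + C0 + 2000 * C0, by positivity, ?_⟩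
  intro X n q h _ _ hhq hd β σ hX16 hn hnX hβ hβX hqX hσ M1 M2 Am K1 K2 MM1 MM2 a1 a2 c1 c2 hM1 hM2
    hM1X hM2X hK1 hK2 hAm hAmX hMM1 hMM2 ha1 ha2 hc1 hc2 v A2 B2 hv hv1 hA2 hB2 hwin
  have hX16' : (16 : ℝ) ≤ X := by exact_mod_cast hX16
  have hX : 1 ≤ X := by omega
  have hX0 : (0 : ℝ) < X := by linarith
  have hX1' : (1 : ℝ) ≤ X := by linarith
  have hL1 : 1 ≤ Real.log X := by
    rw [Real.le_log_iff_exp_le hX0]
    linarith [Real.exp_one_lt_d9]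
  have hq1 : 1 ≤ q := Nat.pos_of_ne_zero (NeZero.ne q)
  have hh1 : 1 ≤ h := Nat.pos_of_ne_zero (NeZero.ne h)
  have hqR : (1 : ℝ) ≤ q := by exact_mod_cast hq1
  have hqXR : (q : ℝ) ≤ X := by exact_mod_cast hqX
  have hM10 : 0 < M1 := by linarith
  have hM20 : 0 < M2 := by linarith
  -- the inner polynomials
  have hBs : ∀ (K : ℕ) (c : ℕ → ℂ), ∑ k ∈ Icc 1 K, ‖c k‖ ≤ 2 * (X : ℝ) ^ 2 →
      ∀ x, ‖tp K c x‖ ≤ 2 * (X : ℝ) ^ 2 := by
    intro K c hc x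
    unfold tp
    refine (norm_sum_le _ _).trans (le_trans (Finset.sum_le_sum fun k _ => ?_) hc)
    rw [norm_mul]
    have h3 : ‖ee ((k : ℝ) * x)‖ = 1 := by
      unfold ee
      rw [Complex.norm_exp]
      simp
    rw [h3, mul_one]
  have hBs1 := hBs K1 c1 hc1
  have hBs2 := hBs K2 c2 hc2
  obtain ⟨r1, hr1⟩ : ∃ r : ℝ, r = σ * (M1 * (β / X)) := ⟨_, rfl⟩
  obtain ⟨r2, hr2⟩ : ∃ r : ℝ, r = σ * (M2 * (β / X)) := ⟨_, rfl⟩
  have hσ1 : |σ| = 1 := by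
    rcases hσ with h | h <;> rw [h] <;> simp
  have hrabs : ∀ M : ℝ, 0 < M → M ≤ X → |σ * (M * (β / X))| ≤ 2 * X := by
    intro M hM hMX
    rw [abs_mul, hσ1, one_mul, abs_of_nonneg (by positivity)]
    calc M * (β / X) ≤ X * (β / X) := mul_le_mul_of_nonneg_right hMX (by positivity)
      _ = β := by field_simp
      _ ≤ 2 * X := hβX
  -- coefficients
  have hW : ∀ (M : ℝ) (K : ℕ) (c : ℕ → ℂ), 0 < M → M ≤ X → K ≤ X →
      ∑ k ∈ Icc 1 K, ‖c k‖ ≤ 2 * (X : ℝ) ^ 2 →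
      ∀ p : DirichletCharacter ℂ q × ℤ, p.2 ≠ 0 →
      ‖fq q (Bt q (tp K c) (σ * (M * (β / X)))) p.1 p.2‖ ≤ 100 * (X : ℝ) ^ 4 / |(p.2 : ℝ)| := by
    intro M K c hM hMX hK hc p hp
    refine (fq_tp_tail q K c (2 * (X : ℝ) ^ 2) (σ * (M * (β / X))) hc p.1 p.2 hp).trans ?_
    have hj : 0 < |(p.2 : ℝ)| := by
      rw [abs_pos]
      exact_mod_cast hp
    refine div_le_div_of_nonneg_right ?_ hj.le
    have hKR : (K : ℝ) ≤ X := by exact_mod_cast hK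
    have h5 : 21 * |σ * (M * (β / X))| * K ≤ 21 * (2 * X) * X := by
      have := hrabs M hM hMX
      gcongr
    calc 2 * (X : ℝ) ^ 2 * (1 + 21 * |σ * (M * (β / X))| * K) ≤
        2 * (X : ℝ) ^ 2 * (1 + 21 * (2 * X) * X) := by gcongr
      _ = 2 * (X : ℝ) ^ 2 + 84 * X ^ 4 := by ring
      _ ≤ 2 * (X : ℝ) ^ 4 + 84 * X ^ 4 := by
          have : (X : ℝ) ^ 2 ≤ X ^ 4 := pow_le_pow_right₀ hX1' (by norm_num)
          linarith
      _ ≤ 100 * (X : ℝ) ^ 4 := by linarith only [pow_pos hX0 4]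
  -- rewrite Bq
  have hcv1 : ∀ a' ∈ rr q, ∀ t : ℝ, 0 ≤ t → t < Real.log 2 / 2 →
      f2f MM1 a1 (tp K1 c1) σ q a' (β / X * Real.exp (2 * t)) =
        cvf q MM1 a1 M1 r1 (tp K1 c1) (a' : ZMod q) t := by
    intro a' _ t ht ht'
    rw [hr1]
    exact cvf_eq q MM1 a1 M1 (β / X) σ (tp K1 c1) (by linarith) hMM1 (h2_tp_per K1 c1) a' t ht ht'
  have e1 := Bq_eq X hX β σ hβ n q (f2f MM1 a1 (tp K1 c1) σ q) (f2f MM2 a2 (tp K2 c2) σ q)
    (cvf q MM1 a1 M1 r1 (tp K1 c1)) (cvf q MM2 a2 M2 r2 (tp K2 c2))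
    (fun a' => h2_f2f_cont MM1 a1 K1 c1 σ q a')
    (fun a' => h2_f2f_cont MM2 a2 K2 c2 σ q a') hcv1
    (by
      intro a' _ t ht ht'
      rw [hr2]
      exact cvf_eq q MM2 a2 M2 (β / X) σ (tp K2 c2) (by linarith) hMM2 (h2_tp_per K2 c2) a' t ht ht')
  have hF2 := f2_le X hX β hβ q (f2f MM1 a1 (tp K1 c1) σ q) (cvf q MM1 a1 M1 r1 (tp K1 c1))
    (fun a' => h2_f2f_cont MM1 a1 K1 c1 σ q a') hcv1
  rw [e1, norm_mul, Complex.norm_real, Real.norm_of_nonneg (by positivity)]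
  set ρ : ℝ := -((n : ℝ) * σ * β / X) with hρ
  have hρe : |ρ| = n * β / X := by
    rw [hρ, abs_neg, abs_div, abs_mul, abs_mul, abs_of_pos hX0, abs_of_pos hβ,
      abs_of_nonneg (Nat.cast_nonneg n), hσ1, mul_one]
  have hρa : |ρ| ≤ β := by
    rw [hρe, div_le_iff₀ hX0]
    have : (n : ℝ) ≤ X := by exact_mod_cast hn
    nlinarith
  have hρb : β ≤ 2 * |ρ| := by
    rw [hρe, ← mul_div_assoc, le_div_iff₀ hX0]
    have : (X : ℝ) ≤ 2 * n := by exact_mod_cast hnX.le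
    nlinarith
  obtain ⟨C3, hC3, hstr⟩ := cvf_struct
  obtain ⟨hgm1, hgb1, -⟩ :=
    hstr q h hd M1 Am r1 MM1 a1 (tp K1 c1) _ hM1 hAm.le hMM1 ha1 (h2_tp_cont K1 c1) hBs1
  obtain ⟨hgm2, hgb2, -⟩ :=
    hstr q h hd M2 Am r2 MM2 a2 (tp K2 c2) _ hM2 hAm.le hMM2 ha2 (h2_tp_cont K2 c2) hBs2
  have hBd : ∀ M : ℝ, 0 < M → M ≤ X → 2 * M * Am * (2 * (X : ℝ) ^ 2) ≤ 4 * (X : ℝ) ^ 4 := by
    intro M hM hMX
    calc 2 * M * Am * (2 * (X : ℝ) ^ 2) ≤ 2 * X * X * (2 * (X : ℝ) ^ 2) := by gcongr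
      _ = 4 * (X : ℝ) ^ 4 := by ring
  have hpar : ∀ (K : ℕ) (c : ℕ → ℂ) (r : ℝ), ∑ k ∈ Icc 1 K, ‖c k‖ ≤ 2 * (X : ℝ) ^ 2 →
      HasSum (fun p : DirichletCharacter ℂ q × ℤ => ‖fq q (Bt q (tp K c) r) p.1 p.2‖ ^ 2)
      ((1 / (Nat.totient q : ℝ)) * ∑ r' ∈ rr q, ∫ t in (0 : ℝ)..1,
        ‖tp K c ((r' : ℝ) / q + r * Real.exp (2 * Int.fract t))‖ ^ 2) := by
    intro K c r hc
    have hm : ∀ y : ZMod q, Measurable (Bt q (tp K c) r y) := by
      intro y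
      unfold Bt
      refine (h2_tp_cont K c).measurable.comp ?_
      refine measurable_const.add (measurable_const.mul ?_)
      exact Real.measurable_exp.comp (measurable_const.mul measurable_fract)
    have h3 := fq_parseval q (Bt q (tp K c) r) (2 * (X : ℝ) ^ 2) hm (fun y t => hBs K c hc _)
    have h4 : ∑ y ∈ univ.filter (fun y : ZMod q => IsUnit y),
        ∫ t in (0 : ℝ)..1, ‖Bt q (tp K c) r y t‖ ^ 2 = ∑ r' ∈ rr q, ∫ t in (0 : ℝ)..1,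
        ‖tp K c ((r' : ℝ) / q + r * Real.exp (2 * Int.fract t))‖ ^ 2 := by
      rw [← sum_units q (fun r' : ℕ => ∫ t in (0 : ℝ)..1,
        ‖tp K c ((r' : ℝ) / q + r * Real.exp (2 * Int.fract t))‖ ^ 2)]
      rfl
    rwa [h4] at h3
  obtain ⟨Z2, hZ2⟩ : ∃ Z : ℝ, Z = ∑ r' ∈ rr q, ∫ t in (0 : ℝ)..1,
    ‖tp K2 c2 ((r' : ℝ) / q + r2 * Real.exp (2 * Int.fract t))‖ ^ 2 := ⟨_, rfl⟩
  have hp1 := hpar K1 c1 r1 hc1
  have hp2 := hpar K2 c2 r2 hc2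
  rw [← hZ2] at hp2
  have hφ : (0 : ℝ) < Nat.totient q := by exact_mod_cast Nat.totient_pos.2 hq1
  have hφq : (Nat.totient q : ℝ) ≤ q := by exact_mod_cast Nat.totient_le q
  have hφX : (Nat.totient q : ℝ) ≤ X := hφq.trans hqXR
  have hZ20 : 0 ≤ Z2 := by
    rw [hZ2]
    refine Finset.sum_nonneg fun r' _ => ?_
    refine intervalIntegral.integral_nonneg (by norm_num) fun t _ => by positivity
  -- the restricted function
  obtain ⟨Ω, hΩ⟩ : ∃ Ω : Finset (DirichletCharacter ℂ q),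
    Ω = Om q h hd MM2 a2 M2 (v * Am * M2) (X ^ 30) := ⟨_, rfl⟩
  obtain ⟨b1, hb1⟩ : ∃ b : DirichletCharacter ℂ q × ℤ → ℝ, b = fun p =>
    if p.1 ∈ Ω then ‖fq q (Bt q (tp K1 c1) r1) p.1 p.2‖ else 0 := ⟨_, rfl⟩
  have hb10 : ∀ p, 0 ≤ b1 p := by
    intro p
    rw [hb1]
    simp only
    split_ifs
    · exact norm_nonneg _
    · exact le_rfl
  have hb1sq : ∀ p : DirichletCharacter ℂ q × ℤ, b1 p ^ 2 =
      if p.1 ∈ Ω then ‖fq q (Bt q (tp K1 c1) r1) p.1 p.2‖ ^ 2 else 0 := by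
    intro p
    rw [hb1]
    simp only
    split_ifs
    · rfl
    · norm_num
  have hb1s : Summable fun p => b1 p ^ 2 := by
    refine Summable.of_nonneg_of_le (fun p => by positivity) (fun p => ?_) hp1.summable
    rw [hb1sq]
    split_ifs
    · exact le_rfl
    · positivity
  obtain ⟨S1, hS1⟩ : ∃ S : ℝ, S = ∑ χ ∈ Ω, ∑' j : ℤ, ‖fq q (Bt q (tp K1 c1) r1) χ j‖ ^ 2 :=
    ⟨_, rfl⟩
  have hS10 : 0 ≤ S1 := by
    rw [hS1]
    exact Finset.sum_nonneg fun χ _ => tsum_nonneg fun j => by positivity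
  have hb1t : ∑' p, b1 p ^ 2 ≤ S1 := by
    rw [hb1s.tsum_prod, tsum_fintype]
    refine le_of_eq ?_
    rw [hS1, ← Finset.sum_filter_add_sum_filter_not univ (fun χ => χ ∈ Ω)]
    have g1 : ∑ χ ∈ univ.filter (fun χ : DirichletCharacter ℂ q => ¬ χ ∈ Ω),
        ∑' j : ℤ, b1 (χ, j) ^ 2 = 0 := by
      refine Finset.sum_eq_zero fun χ hχ => ?_
      have h5 := (Finset.mem_filter.1 hχ).2
      have h6 : ∀ j : ℤ, b1 (χ, j) ^ 2 = 0 := by
        intro j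
        rw [hb1sq, if_neg h5]
      simp only [h6, tsum_zero]
    rw [g1, add_zero]
    have g2 : univ.filter (fun χ : DirichletCharacter ℂ q => χ ∈ Ω) = Ω := by
      ext χ
      simp
    rw [g2]
    refine Finset.sum_congr rfl fun χ hχ => ?_
    refine tsum_congr fun j => ?_
    rw [hb1sq, if_pos hχ]
  obtain ⟨S2, hS2⟩ : ∃ S : ℝ, S = 1 / (Nat.totient q : ℝ) * Z2 := ⟨_, rfl⟩
  rw [← hS2] at hp2
  have hS20 : 0 ≤ S2 := by rw [hS2]; positivity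
  have hvA2 : 0 ≤ v * Am * M2 := by positivity
  have hJ16 : 8 * |ρ| ≤ ((X ^ 200 : ℕ) : ℝ) := by
    push_cast
    calc 8 * |ρ| ≤ 16 * X := by linarith
      _ ≤ X * X := by nlinarith
      _ = (X : ℝ) ^ 2 := by ring
      _ ≤ (X : ℝ) ^ 200 := pow_le_pow_right₀ hX1' (by norm_num)
  obtain ⟨F2, hF2e⟩ : ∃ F : ℝ, F = ∑ y ∈ univ.filter (fun y : ZMod q => IsUnit y),
      ∫ t in (0 : ℝ)..(Real.log 2 / 2), ‖cvf q MM1 a1 M1 r1 (tp K1 c1) y t‖ ^ 2 := ⟨_, rfl⟩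
  rw [← hF2e] at hF2
  have hl2 : (0 : ℝ) ≤ Real.log 2 / 2 := by
    have := Real.log_nonneg (show (1 : ℝ) ≤ 2 by norm_num)
    linarith
  have hl2' : Real.log 2 / 2 ≤ 1 := by linarith [Real.log_two_lt_d9]
  have hF20 : 0 ≤ F2 := by
    rw [hF2e]
    refine Finset.sum_nonneg fun y _ => ?_
    exact intervalIntegral.integral_nonneg hl2 fun t _ => by positivity
  have hcardu : ((univ.filter (fun y : ZMod q => IsUnit y)).card : ℝ) ≤ X := by
    have h4 : (univ.filter (fun y : ZMod q => IsUnit y)).card ≤ (univ : Finset (ZMod q)).card :=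
      Finset.card_filter_le _ _
    rw [Finset.card_univ, ZMod.card] at h4
    have h5 : ((univ.filter (fun y : ZMod q => IsUnit y)).card : ℝ) ≤ q := by exact_mod_cast h4
    linarith
  have hF2b : F2 ≤ X * (4 * (X : ℝ) ^ 4) ^ 2 := by
    rw [hF2e]
    calc ∑ y ∈ univ.filter (fun y : ZMod q => IsUnit y),
        ∫ t in (0 : ℝ)..(Real.log 2 / 2), ‖cvf q MM1 a1 M1 r1 (tp K1 c1) y t‖ ^ 2 ≤
        ∑ _y ∈ univ.filter (fun y : ZMod q => IsUnit y), (4 * (X : ℝ) ^ 4) ^ 2 := by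
          refine Finset.sum_le_sum fun y _ => ?_
          have h3 := intervalIntegral.norm_integral_le_of_norm_le_const (a := (0 : ℝ))
            (b := Real.log 2 / 2) (C := (4 * (X : ℝ) ^ 4) ^ 2)
            (f := fun t => ‖cvf q MM1 a1 M1 r1 (tp K1 c1) y t‖ ^ 2)
            (fun t _ => by
              rw [Real.norm_of_nonneg (by positivity)]
              exact pow_le_pow_left₀ (norm_nonneg _) ((hgb1 y t).trans (hBd M1 hM10 hM1X)) 2)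
          rw [sub_zero, abs_of_nonneg hl2] at h3
          refine (le_abs_self _).trans (h3.trans ?_)
          exact mul_le_of_le_one_right (by positivity) hl2'
      _ = ((univ.filter (fun y : ZMod q => IsUnit y)).card : ℝ) * (4 * (X : ℝ) ^ 4) ^ 2 := by
          rw [Finset.sum_const, nsmul_eq_mul]
      _ ≤ _ := mul_le_mul_of_nonneg_right hcardu (by positivity)
  have hsF2 : Real.sqrt F2 ≤ 4 * (X : ℝ) ^ 5 := by
    rw [Real.sqrt_le_left (by positivity)]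
    refine hF2b.trans ?_
    calc (X : ℝ) * (4 * (X : ℝ) ^ 4) ^ 2 = 16 * (X : ℝ) ^ 9 := by ring
      _ ≤ 16 * (X : ℝ) ^ 10 := by
          have : (X : ℝ) ^ 9 ≤ X ^ 10 := pow_le_pow_right₀ hX1' (by norm_num)
          linarith
      _ = _ := by ring
  have h2 := h0 q h n hhq hd (cvf q MM1 a1 M1 r1 (tp K1 c1)) (cvf q MM2 a2 M2 r2 (tp K2 c2))
    (4 * (X : ℝ) ^ 4) (by positivity) hgm1 hgm2 (fun y t => (hgb1 y t).trans (hBd M1 hM10 hM1X))
    (fun y t => (hgb2 y t).trans (hBd M2 hM20 hM2X))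
    (fun p => ‖alm q MM1 a1 M1 p‖) b1
    (fun p => ‖alm q MM2 a2 M2 p‖) (fun p => ‖fq q (Bt q (tp K2 c2) r2) p.1 p.2‖)
    (fun p => norm_nonneg _) hb10 (fun p => norm_nonneg _)
    (fun p => norm_nonneg _) (X ^ 30) (v * Am * M2) (2 * Am * M2) (Nat.one_le_pow _ _ hX) hvA2
    (fun p => alm_le q MM2 a2 M2 Am hM2 hAm.le hMM2 ha2 p) Ω
    (fun χ j hj hV ξ => by
      rw [hΩ]
      exact om_mem q h hd MM2 a2 M2 _ _ χ j hj hV ξ)
    (fun p hp => by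
      rw [fq_cvf_norm q MM1 a1 M1 r1 (tp K1 c1) (h2_tp_cont K1 c1) _ hBs1 p, hb1]
      simp only [if_pos hp]
      exact le_rfl)
    (fun p => (fq_cvf_norm q MM2 a2 M2 r2 (tp K2 c2) (h2_tp_cont K2 c2) _ hBs2 p).le)
    (Cw * Am ^ 2 * M1 * h) (Cw * Am ^ 2 * M1 * M1) A2 B2 S1 S2 F2
    (by positivity) (by positivity) hA2 hB2
    (fun T hT χ k => hw q h hd M1 Am MM1 a1 hM1 hAm.le hMM1 ha1 T hT χ k)
    (fun T hT χ k => hwin T hT χ k)
    hb1s hb1t hp2.summable hp2.tsum_eq.le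
    (100 * (X : ℝ) ^ 4) (by positivity)
    (fun p hp => by rw [hr2]; exact hW M2 K2 c2 hM20 hM2X hK2 hc2 p hp)
    hF2e.symm.le
    ρ (X ^ 200) (Nat.one_le_pow _ _ hX) hJ16
  refine (mul_le_mul_of_nonneg_left h2 (by positivity)).trans ?_
  rw [← hr1, ← hr2, ← hZ2, ← hΩ, ← hS1]
  clear h2 hW e1 hwin
  obtain ⟨N1, hN1⟩ : ∃ N : ℝ, N = ∑ a' ∈ rr q, ∫ x in (β / X)..(2 * β / X),
          ‖f2f MM1 a1 (tp K1 c1) σ q a' x‖ ^ 2 := ⟨_, rfl⟩
  rw [← hN1] at hF2 ⊢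
  have hN10 : 0 ≤ N1 := by
    rw [hN1]
    refine Finset.sum_nonneg fun y _ => ?_
    refine intervalIntegral.integral_nonneg ?_ fun t _ => by positivity
    refine div_le_div_of_nonneg_right (by linarith) hX0.le
  have e2 : (Nat.totient q : ℝ) * Real.sqrt (S1 * S2) =
      Real.sqrt (Nat.totient q * S1) * Real.sqrt Z2 := by
    have e3 : S1 * S2 = (1 / (Nat.totient q : ℝ)) ^ 2 * ((Nat.totient q * S1) * Z2) := by
      rw [hS2]
      field_simp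
    rw [e3, Real.sqrt_mul (by positivity), Real.sqrt_sq (by positivity),
      Real.sqrt_mul (by positivity)]
    field_simp
  have e4 : (Nat.totient q : ℝ) * S2 = Z2 := by
    rw [hS2]
    field_simp
  have hlogJ : Real.log ((X ^ 200 : ℕ) : ℝ) = 200 * Real.log X := by
    push_cast
    rw [Real.log_pow]
    norm_num
  have hss : Real.sqrt (1 + β) ≤ 2 * Real.sqrt (1 + |ρ|) := by
    rw [Real.sqrt_le_left (by positivity), mul_pow, Real.sq_sqrt (by positivity)]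
    linarith [abs_nonneg ρ]
  have m1 := lw_main C0 Cw (Real.log X) (ltK h) (Nat.totient q) S1 S2
    (Real.sqrt (Nat.totient q * S1) * Real.sqrt Z2) Am M1 h ρ β A2 B2 (Real.sqrt (1 + |ρ|))
    (Real.sqrt (1 + β)) hC0 hCw hL1 (ltK_nonneg _) e2 (by positivity) hAm hM10
    (Nat.cast_nonneg _) hρa hA2 hB2
    (Real.sqrt_pos.2 (by positivity)) (Real.sqrt_pos.2 (by positivity)) hss
  have m2 := lw_tail C0 X (Nat.totient q) q Am M2 (Real.sqrt F2)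
    ((X ^ 30 : ℕ) : ℝ) ((X ^ 200 : ℕ) : ℝ) hC0 hX1' hφ.le hφX (by linarith) hqXR hAm hAmX hM20
    hM2X hsF2 (Real.sqrt_nonneg _) (by push_cast; rfl) (by push_cast; rfl)
  rw [hlogJ, e4]
  have hβX2 : β / X ≤ 2 := by
    rw [div_le_iff₀ hX0]
    exact hβX
  have hβX0 : 0 ≤ β / X := by positivity
  have m3 : β / X * Real.sqrt F2 ≤ Real.sqrt (β / X) * Real.sqrt N1 := by
    have e5 : β / X * Real.sqrt F2 = Real.sqrt (β / X) * Real.sqrt (β / X * F2) := by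
      rw [Real.sqrt_mul hβX0]
      rw [← mul_assoc, Real.mul_self_sqrt hβX0]
    rw [e5]
    refine mul_le_mul_of_nonneg_left (Real.sqrt_le_sqrt ?_) (Real.sqrt_nonneg _)
    calc β / X * F2 ≤ β / X * (X / (2 * β) * N1) := mul_le_mul_of_nonneg_left hF2 hβX0
      _ = N1 / 2 := by field_simp
      _ ≤ N1 := by linarith
  have m3' := mul_le_mul_of_nonneg_left m3 (show 0 ≤ C0 * (v * Am * M2 * Real.sqrt Z2) by positivity)
  have m1' := mul_le_mul_of_nonneg_left m1 hβX0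
  have m2' := (mul_le_mul_of_nonneg_left m2 hβX0).trans (mul_le_mul_of_nonneg_right hβX2
      (by positivity))
  have hltK : Real.sqrt ((h : ℝ) * h.divisors.card) / Nat.totient h = ltK h := rfl
  rw [hltK]
  obtain ⟨U, hU⟩ : ∃ U : ℝ, U = Real.log X * (β / X) * (ltK h / Real.sqrt (1 + β)) *
        (Real.sqrt (Nat.totient q * S1) * Real.sqrt Z2) *
        (Am * Real.sqrt (M1 * (h * (1 + β) + M1))) * Real.sqrt (A2 * (1 + β) + B2) := ⟨_, rfl⟩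
  obtain ⟨Wt, hWt⟩ : ∃ U : ℝ, U = (v * Am * M2) * (Real.sqrt (β / X) * Real.sqrt N1 *
    Real.sqrt Z2) := ⟨_, rfl⟩
  have hU0 : 0 ≤ U := by
    have : 0 ≤ Real.log X := by linarith
    have := ltK_nonneg h
    rw [hU]
    positivity
  have hW0 : 0 ≤ Wt := by rw [hWt]; positivity
  have hV0 : 0 ≤ 1 / (X : ℝ) ^ 3 := by positivity
  have hC0' := hC0.le
  have hCC : 0 ≤ C0 * Cw := by positivity
  calc _ ≤ 402 * C0 * (Cw + 1) * U + C0 * Wt + 2 * (1000 * C0 / (X : ℝ) ^ 3) := by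
        refine le_trans (le_of_eq ?_) ((add_le_add (add_le_add m1' m3') m2').trans (le_of_eq ?_))
        · ring
        · rw [hU, hWt]
          ring
    _ = 402 * C0 * (Cw + 1) * U + C0 * Wt + 2000 * C0 * (1 / (X : ℝ) ^ 3) := by ring
    _ ≤ (402 * C0 * (Cw + 1) + C0 + 2000 * C0) * U + (402 * C0 * (Cw + 1) + C0 + 2000 * C0) * Wt +
        (402 * C0 * (Cw + 1) + C0 + 2000 * C0) * (1 / (X : ℝ) ^ 3) := by
        have hcw : 402 * C0 * (Cw + 1) = 402 * (C0 * Cw) + 402 * C0 := by ring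
        refine add_le_add (add_le_add ?_ ?_) ?_
        · exact mul_le_mul_of_nonneg_right (by linarith only [hC0']) hU0
        · refine mul_le_mul_of_nonneg_right ?_ hW0
          linarith only [hcw, hCC, hC0']
        · refine mul_le_mul_of_nonneg_right ?_ hV0
          linarith only [hcw, hCC, hC0']
    _ = _ := by
        rw [hU, hWt]
        ring

end Pool.MP_dd84fd_nt.LXP
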