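import Pool.Agent.Lib.MP_dd84fd_nt.LX.PwOne
import Pool.Agent.Lib.MP_dd84fd_nt.JX.LvProj

/-!
# PL_L-Spl: one modulus, the second function split into large values and the rest

`Λ = {p : |p.2| ≤ J0, V < α2 p}`, `gL = pj q Λ (fq g)`, `gS = g - gL` (`JX/LvProj.lean`, as in `JX/LvSplit.lean`).
(1) `f gL`: `one_q_supp` with `Bd := q (2 J0 + 1) Bd`, `α2 := 1_Λ α2`; `fq gL = 0` outside `Λ`, so `hΩ` holds if `Ω` contains all
`changeLevel ξ * χ2⁻¹`, `(χ2, j) ∈ Λ` (characters: `changeLevel ξ' * χ⁻¹ = χ2` iff `χ = changeLevel ξ' * χ2⁻¹`).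
(2) `f gS`: `≤ 4 ∑_y ∫_0^{log 2/2} |f||gS| ≤ 4 (∑_y ∫_0^{log2/2} |f|²)^(1/2) (∑_y ∫_0^1 |gS|²)^(1/2)`, `fq_parseval` as in `LvSplit`:
`∑_y ∫ |gS|² ≤ φ(q) (V² S2 + R2² W² 2 q/J0)`.
-/

set_option autoImplicit false

namespace Pool.MP_dd84fd_nt.LXP

open Finset Pool.MP_67663b_nt.Odd Pool.MP_dd84fd_nt.PL Pool.MP_dd84fd_nt.JXP

private theorem spw_ii (u : ℝ → ℝ) (hm : Measurable u) (B : ℝ) (hB : ∀ t, |u t| ≤ B) (a b : ℝ) :
    IntervalIntegrable u MeasureTheory.volume a b := by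
  refine IntervalIntegrable.mono_fun (intervalIntegrable_const (c := B)) hm.aestronglyMeasurable ?_
  refine Filter.Eventually.of_forall fun t => ?_
  show ‖u t‖ ≤ ‖B‖
  rw [Real.norm_eq_abs, Real.norm_eq_abs]
  exact (hB t).trans (le_abs_self B)


/-- Cauchy-Schwarz -/
private theorem spw_cauchy {ι : Type*} (s : Finset ι) (u v : ι → ℝ → ℝ) (B : ℝ)
    (hu : ∀ i, Measurable (u i)) (hv : ∀ i, Measurable (v i)) (hub : ∀ i t, |u i t| ≤ B)
    (hvb : ∀ i t, |v i t| ≤ B) (c : ℝ) (h01 : 0 ≤ c) :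
    ∑ i ∈ s, ∫ t in (0 : ℝ)..c, u i t * v i t ≤
      Real.sqrt (∑ i ∈ s, ∫ t in (0 : ℝ)..c, u i t ^ 2) *
        Real.sqrt (∑ i ∈ s, ∫ t in (0 : ℝ)..c, v i t ^ 2) := by
  have iuu : ∀ i, IntervalIntegrable (fun t => u i t ^ 2) MeasureTheory.volume 0 c := fun i =>
    spw_ii _ ((hu i).pow_const 2) (B ^ 2) (fun t => by
      rw [abs_pow]; exact pow_le_pow_left₀ (abs_nonneg _) (hub i t) 2) _ _
  have ivv : ∀ i, IntervalIntegrable (fun t => v i t ^ 2) MeasureTheory.volume 0 c := fun i =>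
    spw_ii _ ((hv i).pow_const 2) (B ^ 2) (fun t => by
      rw [abs_pow]; exact pow_le_pow_left₀ (abs_nonneg _) (hvb i t) 2) _ _
  have iuv : ∀ i, IntervalIntegrable (fun t => u i t * v i t) MeasureTheory.volume 0 c := fun i =>
    spw_ii _ ((hu i).mul (hv i)) (B * B) (fun t => by
      show |u i t * v i t| ≤ B * B
      rw [abs_mul]
      exact mul_le_mul (hub i t) (hvb i t) (abs_nonneg _) ((abs_nonneg _).trans (hub i t))) _ _
  set X := ∑ i ∈ s, ∫ t in (0 : ℝ)..c, u i t ^ 2 with hX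
  set Y := ∑ i ∈ s, ∫ t in (0 : ℝ)..c, v i t ^ 2 with hY
  set I := ∑ i ∈ s, ∫ t in (0 : ℝ)..c, u i t * v i t with hI
  have hX0 : 0 ≤ X :=
    sum_nonneg fun i _ => intervalIntegral.integral_nonneg h01 fun t _ => sq_nonneg _
  have key : ∀ r : ℝ, 0 ≤ X * (r * r) + (-2 * I) * r + Y := by
    intro r
    have h1 : X * (r * r) + (-2 * I) * r + Y =
        ∑ i ∈ s, ∫ t in (0 : ℝ)..c, (r * u i t - v i t) ^ 2 := by
      have h2 : ∀ i, ∫ t in (0 : ℝ)..c, (r * u i t - v i t) ^ 2 =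
          (∫ t in (0 : ℝ)..c, u i t ^ 2) * (r * r) + (-2 * r) * (∫ t in (0 : ℝ)..c, u i t * v i t) +
            ∫ t in (0 : ℝ)..c, v i t ^ 2 := by
        intro i
        have h3 : ∀ t, (r * u i t - v i t) ^ 2 =
            (r * r) * u i t ^ 2 + (-2 * r) * (u i t * v i t) + v i t ^ 2 := fun t => by ring
        simp_rw [h3]
        rw [intervalIntegral.integral_add (((iuu i).const_mul _).add ((iuv i).const_mul _)) (ivv i),
          intervalIntegral.integral_add ((iuu i).const_mul _) ((iuv i).const_mul _),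
          intervalIntegral.integral_const_mul, intervalIntegral.integral_const_mul]
        ring
      simp_rw [h2]
      rw [sum_add_distrib, sum_add_distrib, ← sum_mul, ← mul_sum, ← hX, ← hY, ← hI]
      ring
    rw [h1]
    exact sum_nonneg fun i _ => intervalIntegral.integral_nonneg h01 fun t _ => sq_nonneg _
  have h4 := discrim_le_zero key
  unfold discrim at h4
  rw [← Real.sqrt_mul hX0]
  refine Real.le_sqrt_of_sq_le ?_
  nlinarith

/-- the tail of `∑ 1/j²` -/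
private noncomputable def spwT (J0 : ℕ) (j : ℤ) : ℝ := if (J0 : ℤ) < |j| then 1 / (j : ℝ) ^ 2 else 0

private theorem spwT_nonneg (J0 : ℕ) (j : ℤ) : 0 ≤ spwT J0 j := by
  unfold spwT
  split_ifs <;> positivity

private theorem spwT_sum (J0 : ℕ) (hJ0 : 1 ≤ J0) (s : Finset ℤ) : ∑ j ∈ s, spwT J0 j ≤ 2 / J0 := by
  classical
  obtain ⟨M, hM⟩ : ∃ M : ℕ, J0 ≤ M ∧ ∀ j ∈ s, |j| ≤ M := by
    refine ⟨J0 + ∑ j ∈ s, j.natAbs, by omega, fun j hj => ?_⟩
    have h1 : j.natAbs ≤ ∑ j ∈ s, j.natAbs :=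
      single_le_sum (f := fun j : ℤ => j.natAbs) (fun _ _ => Nat.zero_le _) hj
    have h2 : |j| = (j.natAbs : ℤ) := Int.abs_eq_natAbs j
    rw [h2]
    exact_mod_cast (show j.natAbs ≤ J0 + ∑ j ∈ s, j.natAbs by omega)
  have hsub : s.filter (fun j => (J0 : ℤ) < |j|) ⊆
      (Ioc J0 M).image (fun m : ℕ => (m : ℤ)) ∪ (Ioc J0 M).image (fun m : ℕ => -(m : ℤ)) := by
    intro j hj
    rw [mem_filter] at hj
    have h1 := hM.2 j hj.1
    rw [mem_union, mem_image, mem_image]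
    have h2 : |j| = (j.natAbs : ℤ) := Int.abs_eq_natAbs j
    rcases le_total 0 j with h | h
    · left
      refine ⟨j.natAbs, ?_, ?_⟩
      · rw [mem_Ioc]; omega
      · omega
    · right
      refine ⟨j.natAbs, ?_, ?_⟩
      · rw [mem_Ioc]; omega
      · omega
  have h1 : ∑ j ∈ s, spwT J0 j = ∑ j ∈ s.filter (fun j => (J0 : ℤ) < |j|), 1 / (j : ℝ) ^ 2 := by
    rw [sum_filter]
    rfl
  rw [h1]
  refine (sum_le_sum_of_subset_of_nonneg hsub fun j _ _ => by positivity).trans ?_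
  have h2 : ∑ i ∈ Ioc J0 M, ((i : ℝ) ^ 2)⁻¹ ≤ (J0 : ℝ)⁻¹ - (M : ℝ)⁻¹ :=
    sum_Ioc_inv_sq_le_sub (by omega) hM.1
  have hM0 : 0 ≤ (M : ℝ)⁻¹ := by positivity
  have h3 : ∀ (f : ℕ → ℤ), (∀ m, (f m : ℝ) ^ 2 = (m : ℝ) ^ 2) → Function.Injective f →
      ∑ j ∈ (Ioc J0 M).image f, 1 / (j : ℝ) ^ 2 ≤ (J0 : ℝ)⁻¹ := by
    intro f hf hinj
    rw [sum_image (fun a _ b _ h => hinj h)]
    calc ∑ x ∈ Ioc J0 M, 1 / ((f x : ℤ) : ℝ) ^ 2 = ∑ i ∈ Ioc J0 M, ((i : ℝ) ^ 2)⁻¹ := by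
          refine sum_congr rfl fun i _ => ?_
          rw [hf, one_div]
      _ ≤ _ := by linarith
  have h4 := h3 (fun m : ℕ => (m : ℤ)) (fun m => by push_cast; rfl) (fun a b h => by
    have : (a : ℤ) = b := h
    exact_mod_cast this)
  have h5 := h3 (fun m : ℕ => -(m : ℤ)) (fun m => by push_cast; ring) (fun a b h => by
    have : (a : ℤ) = b := by simpa using h
    exact_mod_cast this)
  have h6 : ∑ j ∈ (Ioc J0 M).image (fun m : ℕ => (m : ℤ)) ∪ (Ioc J0 M).image (fun m : ℕ => -(m : ℤ)),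
      1 / (j : ℝ) ^ 2 ≤ ∑ j ∈ (Ioc J0 M).image (fun m : ℕ => (m : ℤ)), 1 / (j : ℝ) ^ 2 +
        ∑ j ∈ (Ioc J0 M).image (fun m : ℕ => -(m : ℤ)), 1 / (j : ℝ) ^ 2 := by
    rw [← sum_union_inter]
    exact le_add_of_nonneg_right (sum_nonneg fun j _ => by positivity)
  calc _ ≤ _ := h6
    _ ≤ (J0 : ℝ)⁻¹ + (J0 : ℝ)⁻¹ := add_le_add h4 h5
    _ = 2 / J0 := by rw [div_eq_mul_inv]; ring

private theorem spw_cardχ (q : ℕ) [NeZero q] :
    (Fintype.card (DirichletCharacter ℂ q) : ℝ) ≤ q := by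
  have h : Fintype.card (DirichletCharacter ℂ q) = q.totient := by
    rw [← Nat.card_eq_fintype_card]
    exact DirichletCharacter.card_eq_totient_of_hasEnoughRootsOfUnity ℂ q
  rw [h]
  exact_mod_cast Nat.totient_le q

private theorem spw_tail (q J0 : ℕ) [NeZero q] (hJ0 : 1 ≤ J0) :
    (Summable fun p : DirichletCharacter ℂ q × ℤ => spwT J0 p.2) ∧
      ∑' p : DirichletCharacter ℂ q × ℤ, spwT J0 p.2 ≤ 2 * (q / J0) := by
  classical
  have h : ∀ s : Finset (DirichletCharacter ℂ q × ℤ), ∑ p ∈ s, spwT J0 p.2 ≤ 2 * (q / J0) := by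
    intro s
    have hsub : s ⊆ (univ : Finset (DirichletCharacter ℂ q)) ×ˢ s.image Prod.snd := by
      intro p hp
      rw [mem_product]
      exact ⟨mem_univ _, mem_image_of_mem _ hp⟩
    refine (sum_le_sum_of_subset_of_nonneg hsub fun p _ _ => spwT_nonneg _ _).trans ?_
    rw [sum_product]
    calc ∑ χ : DirichletCharacter ℂ q, ∑ j ∈ s.image Prod.snd, spwT J0 j
        ≤ ∑ χ : DirichletCharacter ℂ q, (2 / J0 : ℝ) :=
          sum_le_sum fun _ _ => spwT_sum J0 hJ0 _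
      _ = Fintype.card (DirichletCharacter ℂ q) * (2 / J0) := by
          rw [sum_const, card_univ, nsmul_eq_mul]
      _ ≤ q * (2 / J0) := mul_le_mul_of_nonneg_right (spw_cardχ q) (by positivity)
      _ = 2 * (q / J0) := by ring
  have hs := summable_of_sum_le (fun p : DirichletCharacter ℂ q × ℤ => spwT_nonneg J0 p.2) h
  exact ⟨hs, hs.tsum_le_of_sum_le h⟩

open Classical in

private theorem spw_int (F G : ℝ → ℂ) (B ρ c d : ℝ) (hmF : Measurable F) (hmG : Measurable G)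
    (hF : ∀ t, ‖F t‖ ≤ B) (hG : ∀ t, ‖G t‖ ≤ B) :
    IntervalIntegrable (fun t => F t * G t * ((2 * Real.exp (2 * t) : ℝ) : ℂ) *
      ee (ρ * Real.exp (2 * t))) MeasureTheory.volume c d := by
  have hc : Continuous fun t : ℝ => ((2 * Real.exp (2 * t) : ℝ) : ℂ) *
      ee (ρ * Real.exp (2 * t)) := by
    refine Continuous.mul (by fun_prop) (ee_cont.comp (by fun_prop))
  have h1 : IntervalIntegrable (fun t : ℝ => ((2 * Real.exp (2 * t) : ℝ) : ℂ) *
      ee (ρ * Real.exp (2 * t))) MeasureTheory.volume c d := hc.intervalIntegrable c d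
  have h2 : ∀ t, F t * G t * ((2 * Real.exp (2 * t) : ℝ) : ℂ) * ee (ρ * Real.exp (2 * t)) =
      F t * G t * (((2 * Real.exp (2 * t) : ℝ) : ℂ) * ee (ρ * Real.exp (2 * t))) := fun t => by ring
  simp_rw [h2]
  refine IntervalIntegrable.mono_fun (h1.norm.const_mul (B * B)) ?_ ?_
  · exact ((hmF.mul hmG).mul hc.measurable).aestronglyMeasurable
  · refine Filter.Eventually.of_forall fun t => ?_
    dsimp only
    rw [norm_mul, norm_mul]
    refine le_trans ?_ (le_abs_self _)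
    exact mul_le_mul_of_nonneg_right (mul_le_mul (hF t) (hG t) (norm_nonneg _)
      ((norm_nonneg _).trans (hF t))) (norm_nonneg _)

open Classical in
/-- the large part -/
private theorem spw_part (q J0 : ℕ) [NeZero q] (hJ0 : 1 ≤ J0) (f : ZMod q → ℝ → ℂ) (Bd : ℝ)
    (hBd : 0 ≤ Bd) (hm : ∀ x, Measurable (f x)) (hf : ∀ x t, ‖f x t‖ ≤ Bd)
    (α β : DirichletCharacter ℂ q × ℤ → ℝ) (hβ : ∀ p, 0 ≤ β p)
    (hx : ∀ p, ‖fq q f p.1 p.2‖ ≤ α p * β p)
    (R V : ℝ) (hαR : ∀ p, α p ≤ R) (S : ℝ)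
    (hs : Summable fun p => β p ^ 2) (hS : ∑' p, β p ^ 2 ≤ S) (W : ℝ)
    (hR : 0 ≤ R)
    (hβW : ∀ p : DirichletCharacter ℂ q × ℤ, p.2 ≠ 0 → β p ≤ W / |(p.2 : ℝ)|) :
    ∃ fL : ZMod q → ℝ → ℂ, (∀ x, Measurable (fL x)) ∧
      (∀ x t, ‖fL x t‖ ≤ q * (2 * J0 + 1) * Bd) ∧
      (∀ (χ : DirichletCharacter ℂ q) (j : ℤ), fq q fL χ j =
        if |j| ≤ J0 ∧ V < α (χ, j) then fq q f χ j else 0) ∧
      (∑' p : DirichletCharacter ℂ q × ℤ, ‖fq q (fun y t => f y t - fL y t) p.1 p.2‖ ^ 2 ≤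
        V ^ 2 * S + R ^ 2 * W ^ 2 * (2 * (q / J0))) := by
  set Λ : Finset (DirichletCharacter ℂ q × ℤ) :=
    ((univ : Finset (DirichletCharacter ℂ q)) ×ˢ Icc (-(J0 : ℤ)) J0).filter
      (fun p => V < α p) with hΛ
  have hmem : ∀ p, p ∈ Λ ↔ ((-(J0 : ℤ) ≤ p.2 ∧ p.2 ≤ J0) ∧ V < α p) := by
    intro p
    rw [hΛ, mem_filter, mem_product, mem_Icc]
    simp
  have hcard : (Λ.card : ℝ) ≤ q * (2 * J0 + 1) := by
    have h1 : Λ.card ≤ Fintype.card (DirichletCharacter ℂ q) * (2 * J0 + 1) := by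
      refine (card_filter_le _ _).trans ?_
      rw [card_product, card_univ, Int.card_Icc]
      refine Nat.mul_le_mul_left _ ?_
      omega
    have h2 : (Λ.card : ℝ) ≤ Fintype.card (DirichletCharacter ℂ q) * (2 * J0 + 1) := by
      exact_mod_cast h1
    exact h2.trans (mul_le_mul_of_nonneg_right (spw_cardχ q) (by positivity))
  have hxR : ∀ p, ‖fq q f p.1 p.2‖ ≤ R * β p := fun p =>
    (hx p).trans (mul_le_mul_of_nonneg_right (hαR p) (hβ p))
  refine ⟨pj q Λ (fun p => fq q f p.1 p.2), fun x => pj_meas q Λ _ x, fun x t => ?_, ?_, ?_⟩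
  · refine (pj_bound q Λ _ x t).trans ?_
    calc ∑ p ∈ Λ, ‖fq q f p.1 p.2‖ ≤ ∑ p ∈ Λ, Bd :=
          sum_le_sum fun p _ => fq_norm_le q f Bd hf p.1 p.2
      _ = Λ.card * Bd := by rw [sum_const, nsmul_eq_mul]
      _ ≤ _ := mul_le_mul_of_nonneg_right hcard hBd
  · intro χ j
    rw [fq_pj]
    by_cases hp : (χ, j) ∈ Λ
    · rw [if_pos hp, if_pos ⟨abs_le.2 ((hmem _).1 hp).1, ((hmem _).1 hp).2⟩]
    · rw [if_neg hp, if_neg fun h => hp ((hmem _).2 ⟨abs_le.1 h.1, h.2⟩)]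
  · obtain ⟨ht1, ht2⟩ := spw_tail q J0 hJ0
    have h1 : ∀ p : DirichletCharacter ℂ q × ℤ,
        ‖fq q (fun y t => f y t - pj q Λ (fun p => fq q f p.1 p.2) y t) p.1 p.2‖ ^ 2 ≤
          V ^ 2 * β p ^ 2 + R ^ 2 * W ^ 2 * spwT J0 p.2 := by
      intro p
      have hb := hβ p
      have hT := spwT_nonneg J0 p.2
      rw [fq_sub_pj q f Bd hm hf]
      by_cases hp : p ∈ Λ
      · rw [if_pos hp, norm_zero]
        have h5 : 0 ≤ V ^ 2 * β p ^ 2 + R ^ 2 * W ^ 2 * spwT J0 p.2 := by positivity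
        calc (0 : ℝ) ^ 2 = 0 := by norm_num
          _ ≤ _ := h5
      · rw [if_neg hp]
        rw [hmem] at hp
        by_cases hV2 : V < α p
        · have hj : (J0 : ℤ) < |p.2| := by
            by_contra hcon
            push Not at hcon
            exact hp ⟨abs_le.1 hcon, hV2⟩
          have hj0 : p.2 ≠ 0 := by
            intro h0
            rw [h0, abs_zero] at hj
            omega
          have h2 : ‖fq q f p.1 p.2‖ ≤ R * (W / |(p.2 : ℝ)|) :=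
            (hxR p).trans (mul_le_mul_of_nonneg_left (hβW p hj0) hR)
          have h3 := pow_le_pow_left₀ (norm_nonneg _) h2 2
          have h4 : (R * (W / |(p.2 : ℝ)|)) ^ 2 = R ^ 2 * W ^ 2 * spwT J0 p.2 := by
            unfold spwT
            rw [if_pos hj, mul_pow, div_pow, sq_abs]
            ring
          rw [h4] at h3
          have h5 : 0 ≤ V ^ 2 * β p ^ 2 := by positivity
          linarith
        · push Not at hV2
          have h2 : ‖fq q f p.1 p.2‖ ≤ V * β p :=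
            (hx p).trans (mul_le_mul_of_nonneg_right hV2 hb)
          have h3 := pow_le_pow_left₀ (norm_nonneg _) h2 2
          rw [mul_pow] at h3
          have h5 : 0 ≤ R ^ 2 * W ^ 2 * spwT J0 p.2 := by positivity
          linarith
    have h2 : Summable fun p : DirichletCharacter ℂ q × ℤ =>
        V ^ 2 * β p ^ 2 + R ^ 2 * W ^ 2 * spwT J0 p.2 := (hs.mul_left _).add (ht1.mul_left _)
    have h3 := Summable.of_nonneg_of_le (fun p : DirichletCharacter ℂ q × ℤ =>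
      sq_nonneg ‖fq q (fun y t => f y t - pj q Λ (fun p => fq q f p.1 p.2) y t) p.1 p.2‖) h1 h2
    refine (h3.tsum_le_tsum h1 h2).trans ?_
    rw [(hs.mul_left _).tsum_add (ht1.mul_left _), tsum_mul_left, tsum_mul_left]
    exact add_le_add (mul_le_mul_of_nonneg_left hS (by positivity))
      (mul_le_mul_of_nonneg_left ht2 (by positivity))

/-- the small part -/
private theorem spw_cs (q n : ℕ) [NeZero q] (F G : ZMod q → ℝ → ℂ) (B : ℝ)
    (hmF : ∀ x, Measurable (F x)) (hmG : ∀ x, Measurable (G x)) (hF : ∀ x t, ‖F x t‖ ≤ B)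
    (hG : ∀ x t, ‖G x t‖ ≤ B) (A D : ℝ)
    (hA : ∑ y ∈ univ.filter (fun y : ZMod q => IsUnit y),
      ∫ t in (0 : ℝ)..(Real.log 2 / 2), ‖F y t‖ ^ 2 ≤ A)
    (hD : ∑' p : DirichletCharacter ℂ q × ℤ, ‖fq q G p.1 p.2‖ ^ 2 ≤ D) (ρ : ℝ) :
    ‖∑ y ∈ univ.filter (fun y : ZMod q => IsUnit y),
        (∫ t in (0 : ℝ)..(Real.log 2 / 2), F y t * G y t * ((2 * Real.exp (2 * t) : ℝ) : ℂ) *
          ee (ρ * Real.exp (2 * t))) * ee (-((n : ℝ) * ((y.val : ℝ) / q)))‖ ≤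
      4 * (Real.sqrt A * Real.sqrt (Nat.totient q * D)) := by
  have hφ : (0 : ℝ) < Nat.totient q := by
    exact_mod_cast Nat.totient_pos.2 (Nat.pos_of_ne_zero (NeZero.ne q))
  have hl0 : 0 < Real.log 2 := Real.log_pos (by norm_num)
  have hl1 : Real.log 2 / 2 ≤ 1 := by have := Real.log_two_lt_d9; linarith
  have hii : ∀ y (a b : ℝ), IntervalIntegrable (fun t => ‖F y t‖ * ‖G y t‖)
      MeasureTheory.volume a b := by
    intro y a b
    refine spw_ii _ ((hmF y).norm.mul (hmG y).norm) (B * B) (fun t => ?_) _ _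
    show |‖F y t‖ * ‖G y t‖| ≤ B * B
    rw [abs_mul, abs_norm, abs_norm]
    exact mul_le_mul (hF y t) (hG y t) (norm_nonneg _) ((norm_nonneg _).trans (hF y t))
  have hterm : ∀ y : ZMod q, ‖(∫ t in (0 : ℝ)..(Real.log 2 / 2), F y t * G y t *
      ((2 * Real.exp (2 * t) : ℝ) : ℂ) * ee (ρ * Real.exp (2 * t))) *
        ee (-((n : ℝ) * ((y.val : ℝ) / q)))‖ ≤
      4 * ∫ t in (0 : ℝ)..(Real.log 2 / 2), ‖F y t‖ * ‖G y t‖ := by
    intro y
    rw [norm_mul, norm_ee, mul_one, ← intervalIntegral.integral_const_mul]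
    refine (intervalIntegral.norm_integral_le_of_norm_le (g := fun t => 4 * (‖F y t‖ * ‖G y t‖))
      (by positivity) ?_ ((hii y _ _).const_mul 4))
    refine Filter.Eventually.of_forall fun t ht => ?_
    rw [norm_mul, norm_ee, mul_one, norm_mul, norm_mul, Complex.norm_real, Real.norm_eq_abs]
    have he : |2 * Real.exp (2 * t)| ≤ 4 := by
      rw [abs_of_pos (by positivity)]
      have h1 : Real.exp (2 * t) ≤ Real.exp (Real.log 2) := Real.exp_le_exp.2 (by linarith [ht.2])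
      rw [Real.exp_log (by norm_num)] at h1
      linarith
    rw [mul_comm]
    exact mul_le_mul_of_nonneg_right he (by positivity)
  refine (norm_sum_le _ _).trans ((sum_le_sum fun y _ => hterm y).trans ?_)
  rw [← mul_sum]
  refine mul_le_mul_of_nonneg_left ?_ (by norm_num)
  have hC := spw_cauchy (univ.filter (fun y : ZMod q => IsUnit y)) (fun y t => ‖F y t‖)
    (fun y t => ‖G y t‖) B (fun y => (hmF y).norm) (fun y => (hmG y).norm)
    (fun y t => by rw [abs_norm]; exact hF y t) (fun y t => by rw [abs_norm]; exact hG y t)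
    (Real.log 2 / 2) (by positivity)
  refine hC.trans ?_
  refine mul_le_mul (Real.sqrt_le_sqrt hA) (Real.sqrt_le_sqrt ?_) (Real.sqrt_nonneg _)
    (Real.sqrt_nonneg _)
  have hQ := (fq_parseval q G B hmG hG).tsum_eq
  rw [hQ] at hD
  rw [one_div, inv_mul_le_iff₀ hφ] at hD
  refine le_trans (sum_le_sum fun y _ => ?_) hD
  refine intervalIntegral.integral_mono_interval le_rfl (by positivity) hl1 ?_ ?_
  · exact Filter.Eventually.of_forall fun t => by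
      show (0 : ℝ) ≤ ‖G y t‖ ^ 2
      positivity
  · exact spw_ii _ ((hmG y).norm.pow_const 2) (B ^ 2) (fun t => by
      rw [abs_pow, abs_norm]
      exact pow_le_pow_left₀ (norm_nonneg _) (hG y t) 2) _ _

open Classical in
theorem spl_w : ∃ C : ℝ, 0 < C ∧ ∀ (q h n : ℕ) [NeZero q] [NeZero h] (_ : h = hq q n)
    (hd : h ∣ q) (f g : ZMod q → ℝ → ℂ) (Bd : ℝ), 0 ≤ Bd → (∀ x, Measurable (f x)) →
    (∀ x, Measurable (g x)) → (∀ x t, ‖f x t‖ ≤ Bd) → (∀ x t, ‖g x t‖ ≤ Bd) →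
    ∀ (α1 β1 α2 β2 : DirichletCharacter ℂ q × ℤ → ℝ),
    (∀ p, 0 ≤ α1 p) → (∀ p, 0 ≤ β1 p) → (∀ p, 0 ≤ α2 p) → (∀ p, 0 ≤ β2 p) →
    ∀ (J0 : ℕ) (V R2 : ℝ), 1 ≤ J0 → 0 ≤ V → (∀ p, α2 p ≤ R2) →
    ∀ (Ω : Finset (DirichletCharacter ℂ q)),
    (∀ (χ : DirichletCharacter ℂ q) (j : ℤ), |j| ≤ J0 → V < α2 (χ, j) →
      ∀ ξ : DirichletCharacter ℂ h, DirichletCharacter.changeLevel hd ξ * χ⁻¹ ∈ Ω) →
    (∀ p, p.1 ∈ Ω → ‖fq q f p.1 p.2‖ ≤ α1 p * β1 p) →
    (∀ p, ‖fq q g p.1 p.2‖ ≤ α2 p * β2 p) →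
    ∀ (a1 b1 a2 b2 S1 S2 F2 : ℝ), 0 ≤ a1 → 0 ≤ b1 → 0 ≤ a2 → 0 ≤ b2 →
    (∀ T : ℕ, 1 ≤ T → ∀ (χ : DirichletCharacter ℂ q) (k : ℤ),
      ∑ ξ : DirichletCharacter ℂ h, ∑ j ∈ Icc (k - T) (k + T),
        α1 (DirichletCharacter.changeLevel hd ξ * χ, j) ^ 2 ≤ a1 * T + b1) →
    (∀ T : ℕ, 1 ≤ T → ∀ (χ : DirichletCharacter ℂ q) (k : ℤ),
      ∑ ξ : DirichletCharacter ℂ h, ∑ j ∈ Icc (k - T) (k + T),
        (if |j| ≤ J0 ∧ V < α2 (DirichletCharacter.changeLevel hd ξ * χ, j) then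
          α2 (DirichletCharacter.changeLevel hd ξ * χ, j) ^ 2 else 0) ≤ a2 * T + b2) →
    (Summable fun p => β1 p ^ 2) → ∑' p, β1 p ^ 2 ≤ S1 →
    (Summable fun p => β2 p ^ 2) → ∑' p, β2 p ^ 2 ≤ S2 →
    ∀ W : ℝ, 0 ≤ W → (∀ p : DirichletCharacter ℂ q × ℤ, p.2 ≠ 0 → β2 p ≤ W / |(p.2 : ℝ)|) →
    (∑ y ∈ univ.filter (fun y : ZMod q => IsUnit y),
      ∫ t in (0 : ℝ)..(Real.log 2 / 2), ‖f y t‖ ^ 2) ≤ F2 →
    ∀ (ρ : ℝ) (J : ℕ), 1 ≤ J → 8 * |ρ| ≤ J →
    ‖∑ y ∈ univ.filter (fun y : ZMod q => IsUnit y),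
        (∫ t in (0 : ℝ)..(Real.log 2 / 2), f y t * g y t * ((2 * Real.exp (2 * t) : ℝ) : ℂ) *
          ee (ρ * Real.exp (2 * t))) * ee (-((n : ℝ) * ((y.val : ℝ) / q)))‖ ≤
      C * (1 + Real.log J) * (Real.sqrt ((h : ℝ) * h.divisors.card) / Nat.totient h) *
        Nat.totient q * Real.sqrt (S1 * S2) *
        Real.sqrt ((a1 * (1 + |ρ|) + b1) * (a2 * (1 + |ρ|) + b2)) / Real.sqrt (1 + |ρ|) +
      C * Real.sqrt F2 * (V * Real.sqrt (Nat.totient q * S2)) +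
      C * Real.sqrt F2 * (R2 * W * Real.sqrt (Nat.totient q * q / J0)) +
      C * Nat.totient q * (q * (2 * J0 + 1) * Bd) ^ 2 / Real.sqrt J := by
  obtain ⟨C1, hC1, h1q⟩ := one_q_supp
  refine ⟨C1 + 8, by positivity, ?_⟩
  intro q h n _ _ hh hd f g Bd hBd hmf hmg hf hg α1 β1 α2 β2 hα1 hβ1 hα2 hβ2 J0 V R2 hJ0 hV hR2
    Ω hΩ hx1 hx2 a1 b1 a2 b2 S1 S2 F2 ha1 hb1 ha2 hb2 hw1 hw2 hs1 hS1 hs2 hS2 W hW hβW2 hF2 ρ J
    hJ h8J
  have hφ : (0 : ℝ) < Nat.totient q := by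
    exact_mod_cast Nat.totient_pos.2 (Nat.pos_of_ne_zero (NeZero.ne q))
  have hS10 : 0 ≤ S1 := (tsum_nonneg fun g => sq_nonneg (β1 g)).trans hS1
  have hS20 : 0 ≤ S2 := (tsum_nonneg fun g => sq_nonneg (β2 g)).trans hS2
  have hR20 : 0 ≤ R2 := (hα2 (1, 0)).trans (hR2 (1, 0))
  have hr : 0 ≤ |ρ| := abs_nonneg ρ
  have hlogJ : 0 ≤ Real.log J := Real.log_natCast_nonneg J
  have hF20 : 0 ≤ F2 := by
    refine le_trans (sum_nonneg fun y _ => ?_) hF2
    exact intervalIntegral.integral_nonneg (by positivity) fun t _ => by positivity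
  obtain ⟨gL, hmL, hbL, hfL, hSS⟩ := spw_part q J0 hJ0 g Bd hBd hmg hg α2 β2 hβ2 hx2 R2 V hR2
    S2 hs2 hS2 W hR20 hβW2
  set B' : ℝ := q * (2 * J0 + 1) * Bd with hB'
  have hB'0 : 0 ≤ B' := by rw [hB']; positivity
  have hBB : Bd ≤ B' := by
    have h1 : (1 : ℝ) ≤ q := by exact_mod_cast Nat.one_le_iff_ne_zero.2 (NeZero.ne q)
    have h2 : (1 : ℝ) ≤ 2 * J0 + 1 := by
      have : (0 : ℝ) ≤ J0 := Nat.cast_nonneg _
      linarith
    have h3 : (1 : ℝ) ≤ q * (2 * J0 + 1) := one_le_mul_of_one_le_of_one_le h1 h2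
    rw [hB']
    nlinarith
  have hfB : ∀ x t, ‖f x t‖ ≤ B' := fun x t => (hf x t).trans hBB
  have hfB2 : ∀ x t, ‖f x t‖ ≤ 2 * B' := fun x t => (hfB x t).trans (by linarith)
  have hgLB2 : ∀ x t, ‖gL x t‖ ≤ 2 * B' := fun x t => (hbL x t).trans (by linarith)
  have hgSB : ∀ x t, ‖g x t - gL x t‖ ≤ 2 * B' := fun x t =>
    (norm_sub_le _ _).trans (by linarith [hg x t, hbL x t])
  have hmgS : ∀ x, Measurable (fun t => g x t - gL x t) := fun x => (hmg x).sub (hmL x)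
  -- the two parts
  have hsplit : ∑ y ∈ univ.filter (fun y : ZMod q => IsUnit y),
        (∫ t in (0 : ℝ)..(Real.log 2 / 2), f y t * g y t * ((2 * Real.exp (2 * t) : ℝ) : ℂ) *
          ee (ρ * Real.exp (2 * t))) * ee (-((n : ℝ) * ((y.val : ℝ) / q))) =
      (∑ y ∈ univ.filter (fun y : ZMod q => IsUnit y),
        (∫ t in (0 : ℝ)..(Real.log 2 / 2), f y t * gL y t * ((2 * Real.exp (2 * t) : ℝ) : ℂ) *
          ee (ρ * Real.exp (2 * t))) * ee (-((n : ℝ) * ((y.val : ℝ) / q)))) +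
      (∑ y ∈ univ.filter (fun y : ZMod q => IsUnit y),
        (∫ t in (0 : ℝ)..(Real.log 2 / 2), f y t * (g y t - gL y t) *
          ((2 * Real.exp (2 * t) : ℝ) : ℂ) *
          ee (ρ * Real.exp (2 * t))) * ee (-((n : ℝ) * ((y.val : ℝ) / q)))) := by
    rw [← sum_add_distrib]
    refine sum_congr rfl fun y _ => ?_
    rw [← add_mul]
    congr 1
    rw [← intervalIntegral.integral_add (spw_int (f y) (gL y) (2 * B') ρ _ _ (hmf y) (hmL y)
        (hfB2 y) (hgLB2 y)) (spw_int (f y) (fun t => g y t - gL y t) (2 * B') ρ _ _ (hmf y)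
        (hmgS y) (hfB2 y) (hgSB y))]
    refine intervalIntegral.integral_congr fun t _ => ?_
    ring
  rw [hsplit]
  -- part 1
  have hOm : ∀ χ : DirichletCharacter ℂ q, χ ∉ Ω → ∀ (ξ : DirichletCharacter ℂ h) (j : ℤ),
      fq q gL (DirichletCharacter.changeLevel hd ξ * χ⁻¹) j = 0 := by
    intro χ hχ ξ j
    rw [hfL]
    split_ifs with hc
    · exfalso
      have h2 := hΩ (DirichletCharacter.changeLevel hd ξ * χ⁻¹) j hc.1 hc.2 ξ
      have h3 : DirichletCharacter.changeLevel hd ξ *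
          (DirichletCharacter.changeLevel hd ξ * χ⁻¹)⁻¹ = χ := by
        rw [mul_inv_rev, inv_inv, mul_comm χ, ← mul_assoc, mul_inv_cancel, one_mul]
      rw [h3] at h2
      exact hχ h2
    · rfl
  have hp1 := h1q q h n hh hd f gL B' hB'0 hmf hmL hfB hbL Ω hOm α1 β1
    (fun p => if |p.2| ≤ J0 ∧ V < α2 p then α2 p else 0) β2 hα1 hβ1
    (fun p => by
      split_ifs
      · exact hα2 p
      · exact le_rfl) hβ2 hx1
    (fun p => by
      rw [hfL]
      split_ifs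
      · exact hx2 p
      · rw [norm_zero, zero_mul])
    a1 b1 a2 b2 S1 S2 ha1 hb1 ha2 hb2 hw1
    (fun T hT χ k => by
      refine le_trans (le_of_eq ?_) (hw2 T hT χ k)
      refine sum_congr rfl fun ξ _ => sum_congr rfl fun j _ => ?_
      dsimp only
      split_ifs
      · rfl
      · ring)
    hs1 hS1 hs2 hS2 ρ J hJ h8J
  -- part 2
  have hp2 := spw_cs q n f (fun y t => g y t - gL y t) (2 * B') hmf hmgS hfB2 hgSB F2 _ hF2 hSS ρ
  have hqJ : (0 : ℝ) ≤ q / J0 := by positivity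
  have hsqA : Real.sqrt (Nat.totient q * (V ^ 2 * S2 + R2 ^ 2 * W ^ 2 * (2 * (q / J0)))) ≤
      V * Real.sqrt (Nat.totient q * S2) + 2 * (R2 * W * Real.sqrt (Nat.totient q * q / J0)) := by
    have hz0 : (0 : ℝ) ≤ Nat.totient q * q / J0 := by positivity
    have hz1 : (0 : ℝ) ≤ Nat.totient q * S2 := by positivity
    refine Real.sqrt_le_iff.2 ⟨by positivity, ?_⟩
    have h1 := Real.sq_sqrt hz1
    have h2 := Real.sq_sqrt hz0
    have h3 : (V * Real.sqrt (Nat.totient q * S2) +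
        2 * (R2 * W * Real.sqrt (Nat.totient q * q / J0))) ^ 2 =
        V ^ 2 * (Nat.totient q * S2) + 4 * (R2 ^ 2 * W ^ 2 * (Nat.totient q * q / J0)) +
          4 * (V * Real.sqrt (Nat.totient q * S2) *
            (R2 * W * Real.sqrt (Nat.totient q * q / J0))) := by
      calc _ = V ^ 2 * Real.sqrt (Nat.totient q * S2) ^ 2 +
            4 * (R2 ^ 2 * W ^ 2 * Real.sqrt (Nat.totient q * q / J0) ^ 2) +
          4 * (V * Real.sqrt (Nat.totient q * S2) *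
            (R2 * W * Real.sqrt (Nat.totient q * q / J0))) := by ring
        _ = _ := by rw [h1, h2]
    rw [h3]
    have h4 : 0 ≤ V * Real.sqrt (Nat.totient q * S2) *
        (R2 * W * Real.sqrt (Nat.totient q * q / J0)) := by positivity
    have h5 : 0 ≤ R2 ^ 2 * W ^ 2 * ((Nat.totient q : ℝ) * q / J0) := by positivity
    have h6 : (Nat.totient q : ℝ) * (V ^ 2 * S2 + R2 ^ 2 * W ^ 2 * (2 * (q / J0))) =
        V ^ 2 * (Nat.totient q * S2) + 2 * (R2 ^ 2 * W ^ 2 * ((Nat.totient q : ℝ) * q / J0)) := by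
      ring
    rw [h6]
    linarith
  have hF2s : 0 ≤ Real.sqrt F2 := Real.sqrt_nonneg _
  have hp2' : 4 * (Real.sqrt F2 *
      Real.sqrt (Nat.totient q * (V ^ 2 * S2 + R2 ^ 2 * W ^ 2 * (2 * (q / J0))))) ≤
      4 * (Real.sqrt F2 * (V * Real.sqrt (Nat.totient q * S2) +
        2 * (R2 * W * Real.sqrt (Nat.totient q * q / J0)))) :=
    mul_le_mul_of_nonneg_left (mul_le_mul_of_nonneg_left hsqA hF2s) (by norm_num)
  refine (norm_add_le _ _).trans ((add_le_add hp1 (hp2.trans hp2')).trans ?_)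
  set κ : ℝ := Real.sqrt ((h : ℝ) * h.divisors.card) / Nat.totient h with hκ
  have hκ0 : 0 ≤ κ := by rw [hκ]; positivity
  set Q : ℝ := Real.sqrt ((a1 * (1 + |ρ|) + b1) * (a2 * (1 + |ρ|) + b2)) with hQ
  have hQ0 : 0 ≤ Q := Real.sqrt_nonneg _
  have e1 : 0 ≤ (1 + Real.log J) * κ * Nat.totient q * Real.sqrt (S1 * S2) * Q /
      Real.sqrt (1 + |ρ|) := by positivity
  have e2 : 0 ≤ Real.sqrt F2 * (V * Real.sqrt (Nat.totient q * S2)) := by positivity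
  have e3 : 0 ≤ Real.sqrt F2 * (R2 * W * Real.sqrt (Nat.totient q * q / J0)) := by positivity
  have e4 : 0 ≤ (Nat.totient q : ℝ) * B' ^ 2 / Real.sqrt J := by positivity
  have g1 : ∀ C : ℝ, C * (1 + Real.log J) * κ * Nat.totient q * Real.sqrt (S1 * S2) * Q /
      Real.sqrt (1 + |ρ|) = C * ((1 + Real.log J) * κ * Nat.totient q * Real.sqrt (S1 * S2) * Q /
      Real.sqrt (1 + |ρ|)) := fun C => by ring
  have g2 : ∀ C : ℝ, C * Nat.totient q * B' ^ 2 / Real.sqrt J =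
      C * (Nat.totient q * B' ^ 2 / Real.sqrt J) := fun C => by ring
  have g3 : ∀ C : ℝ, C * Real.sqrt F2 * (V * Real.sqrt (Nat.totient q * S2)) =
      C * (Real.sqrt F2 * (V * Real.sqrt (Nat.totient q * S2))) := fun C => by ring
  have g4 : ∀ C : ℝ, C * Real.sqrt F2 * (R2 * W * Real.sqrt (Nat.totient q * q / J0)) =
      C * (Real.sqrt F2 * (R2 * W * Real.sqrt (Nat.totient q * q / J0))) := fun C => by ring
  have g5 : 4 * (Real.sqrt F2 * (V * Real.sqrt (Nat.totient q * S2) +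
        2 * (R2 * W * Real.sqrt (Nat.totient q * q / J0)))) =
      4 * (Real.sqrt F2 * (V * Real.sqrt (Nat.totient q * S2))) +
        8 * (Real.sqrt F2 * (R2 * W * Real.sqrt (Nat.totient q * q / J0))) := by ring
  rw [g1, g2, g1, g2, g3, g4, g5]
  have f2 := mul_nonneg hC1.le e2
  have f3 := mul_nonneg hC1.le e3
  nlinarith

end Pool.MP_dd84fd_nt.LXP
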