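import Pool.Agent.Lib.MP_dd84fd_nt.LX.PwQ
import Pool.Agent.Lib.MP_dd84fd_nt.LX.PwMass
import Pool.Agent.Lib.MP_dd84fd_nt.LX.PwGS
import Pool.Agent.Lib.MP_dd84fd_nt.LX.PwCM
import Pool.Agent.Lib.MP_dd84fd_nt.En.Tot

/-!
# PL_L-Z: the mass of the wide block at the large characters

`OmQ`: the set `Om` (PwQ) for all `q` without instance arguments; `ZA`: the mass.
`omQ_eq`: `dif_pos` (the instances are propositions).
`zo_le`: `mass_chi` with `ρ = M (β/X)`, `gs_cond`; `u = M (b/X) ≤ ρ`, `8 ρ ≤ 16 u`, the integrand is nonnegative and continuous,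
`1/(2ρ) ≤ 1/(2u)`.
`zb_one`: `cond χ ≤ q` (`conductor_dvd_level`), `om_sum`, `coset_mass` for each `p ∈ LgC`, `q/φ(q) ≤ 2(1+log X)` (`En.totient_ge`).
`om_win`: the window of the large values: `ξ ↦ changeLevel hd ξ * χ` is injective, all `(changeLevel hd ξ * χ, j)` with `|j| ≤ J0`, `V < |alm|`
lie in `LgC`.
-/

set_option autoImplicit false

namespace Pool.MP_dd84fd_nt.LXP

open Finset Pool.MP_67663b_nt.Odd Pool.MP_dd84fd_nt.PL Pool.MP_dd84fd_nt.HX Pool.MP_dd84fd_nt.HXP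
open Pool.MP_dd84fd_nt.JXP

/-- `Om` for all `q` -/
noncomputable def OmQ (X n : ℕ) (MM : Finset ℕ) (a : ℕ → ℂ) (M V : ℝ) (q : ℕ) :
    Finset (DirichletCharacter ℂ q) :=
  open Classical in
  if hc : 0 < q ∧ 0 < hq q n ∧ hq q n ∣ q then
    @Om q (hq q n) ⟨hc.1.ne'⟩ ⟨hc.2.1.ne'⟩ hc.2.2 MM a M V (X ^ 30)
  else ∅

/-- the mass of the block `c` on the characters `OmQ` -/
noncomputable def ZA (X n : ℕ) (b σ M1 : ℝ) (K : ℕ) (c : ℕ → ℂ) (MM : Finset ℕ) (a : ℕ → ℂ)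
    (M V : ℝ) (q : ℕ) : ℝ :=
  1 / (Nat.totient q : ℝ) * ∑ χ ∈ OmQ X n MM a M V q, (χ.conductor : ℝ) *
    ∫ γ in (M1 * (b / X))..(16 * (M1 * (b / X))), ‖cS q K c χ (σ * γ)‖ ^ 2

theorem omQ_eq (X n q : ℕ) [NeZero q] [NeZero (hq q n)] (hd : hq q n ∣ q) (MM : Finset ℕ)
    (a : ℕ → ℂ) (M V : ℝ) : OmQ X n MM a M V q = Om q (hq q n) hd MM a M V (X ^ 30) := by
  unfold OmQ
  rw [dif_pos ⟨Nat.pos_of_ne_zero (NeZero.ne q), Nat.pos_of_ne_zero (NeZero.ne (hq q n)), hd⟩]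

private theorem pz_cont (q K : ℕ) (c : ℕ → ℂ) (χ : DirichletCharacter ℂ q) (σ : ℝ) :
    Continuous (fun γ : ℝ => ‖cS q K c χ (σ * γ)‖ ^ 2) := by
  have h1 : Continuous (fun θ : ℝ => cS q K c χ θ) := by
    unfold cS
    refine continuous_finsetSum _ (fun k _ => ?_)
    refine continuous_const.mul ?_
    unfold ee
    fun_prop
  exact (h1.comp (continuous_const.mul continuous_id)).norm.pow 2

theorem zo_le (X q : ℕ) [NeZero q] (hX : 1 ≤ X) (Ω : Finset (DirichletCharacter ℂ q)) (K : ℕ)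
    (c : ℕ → ℂ) (σ M b β : ℝ) (hσ : σ = 1 ∨ σ = -1) (hM : 0 < M) (hb : 0 < b) (hβ : b ≤ β)
    (hβ' : β ≤ 2 * b) :
    (Nat.totient q : ℝ) * ∑ χ ∈ Ω,
      ∑' j : ℤ, ‖fq q (Bt q (tp K (cq q c)) (σ * (M * (β / X)))) χ j‖ ^ 2 ≤
      (X / (2 * (M * b))) * (1 / (Nat.totient q : ℝ) * ∑ χ ∈ Ω, (χ.conductor : ℝ) *
        ∫ γ in (M * (b / X))..(16 * (M * (b / X))), ‖cS q K c χ (σ * γ)‖ ^ 2) := by
  have hXR : (0 : ℝ) < X := by
    have : (1 : ℝ) ≤ X := by exact_mod_cast hX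
    linarith
  have hφ : (0 : ℝ) < Nat.totient q := by
    exact_mod_cast Nat.totient_pos.2 (Nat.pos_of_ne_zero (NeZero.ne q))
  obtain ⟨u, hu⟩ : ∃ u : ℝ, u = M * (b / X) := ⟨_, rfl⟩
  obtain ⟨ρ, hρ⟩ : ∃ ρ : ℝ, ρ = M * (β / X) := ⟨_, rfl⟩
  have hu0 : 0 < u := by rw [hu]; positivity
  have hβ0 : 0 < β := lt_of_lt_of_le hb hβ
  have hρ0 : 0 < ρ := by rw [hρ]; positivity
  have huρ : u ≤ ρ := by
    rw [hu, hρ]
    exact mul_le_mul_of_nonneg_left (div_le_div_of_nonneg_right hβ hXR.le) hM.le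
  have hρu : ρ ≤ 2 * u := by
    have h1 : ρ ≤ M * (2 * b / X) := by
      rw [hρ]
      exact mul_le_mul_of_nonneg_left (div_le_div_of_nonneg_right hβ' hXR.le) hM.le
    have h2 : M * (2 * b / X) = 2 * u := by rw [hu]; ring
    linarith
  have hXu : (X : ℝ) / (2 * (M * b)) = 1 / (2 * u) := by
    rw [hu]
    field_simp
  rw [hXu, ← hu, ← hρ, Finset.mul_sum, Finset.mul_sum, Finset.mul_sum]
  refine Finset.sum_le_sum (fun χ _ => ?_)
  have h1 := (mass_chi q K c σ ρ hσ hρ0 χ).2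
  have h2 := gs_cond q χ
  have hc0 : (0 : ℝ) ≤ χ.conductor := Nat.cast_nonneg _
  have hcont := pz_cont q K c χ σ
  have h3 : ∫ γ in ρ..(8 * ρ), ‖cS q K c χ (σ * γ)‖ ^ 2 ≤
      ∫ γ in u..(16 * u), ‖cS q K c χ (σ * γ)‖ ^ 2 := by
    refine intervalIntegral.integral_mono_interval huρ (by linarith) (by linarith) ?_
      (hcont.intervalIntegrable _ _)
    exact Filter.Eventually.of_forall (fun γ => sq_nonneg _)
  have h4 : 0 ≤ ∫ γ in ρ..(8 * ρ), ‖cS q K c χ (σ * γ)‖ ^ 2 :=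
    intervalIntegral.integral_nonneg (by linarith) (fun γ _ => sq_nonneg _)
  have h5 : 1 / (2 * ρ) ≤ 1 / (2 * u) := one_div_le_one_div_of_le (by positivity) (by linarith)
  calc (Nat.totient q : ℝ) *
        ∑' j : ℤ, ‖fq q (Bt q (tp K (cq q c)) (σ * ρ)) χ j‖ ^ 2
      ≤ (‖tq q χ‖ ^ 2 / Nat.totient q) * (1 / (2 * ρ)) *
        ∫ γ in ρ..(8 * ρ), ‖cS q K c χ (σ * γ)‖ ^ 2 := h1
    _ ≤ ((χ.conductor : ℝ) / Nat.totient q) * (1 / (2 * u)) *
        ∫ γ in u..(16 * u), ‖cS q K c χ (σ * γ)‖ ^ 2 := by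
        refine mul_le_mul ?_ h3 h4 (by positivity)
        refine mul_le_mul ?_ h5 (by positivity) (by positivity)
        exact div_le_div_of_nonneg_right h2 hφ.le
    _ = 1 / (2 * u) * (1 / (Nat.totient q : ℝ) * ((χ.conductor : ℝ) *
        ∫ γ in u..(16 * u), ‖cS q K c χ (σ * γ)‖ ^ 2)) := by
        field_simp

theorem zb_one (X n q : ℕ) [NeZero q] [NeZero (hq q n)] (hX : 1 ≤ X) (hqX : q ≤ X)
    (hd : hq q n ∣ q) (K : ℕ) (c : ℕ → ℂ) (σ M1 b : ℝ) (hσ : σ = 1 ∨ σ = -1) (hM : 0 < M1)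
    (hb : 0 < b) (MM : Finset ℕ) (a : ℕ → ℂ) (M V G : ℝ)
    (hG : ((LgC q MM a M V (X ^ 30)).card : ℝ) ≤ G) :
    ZA X n b σ M1 K c MM a M V q ≤
      2 * (1 + Real.log X) * G * ((hq q n : ℝ) * (15 * (M1 * (b / X))) + 1) *
        ∑ k ∈ Icc 1 K, ‖c k‖ ^ 2 := by
  have hq0 : 0 < q := Nat.pos_of_ne_zero (NeZero.ne q)
  have hXR1 : (1 : ℝ) ≤ X := by exact_mod_cast hX
  have hXR : (0 : ℝ) < X := by linarith
  have hqR : (0 : ℝ) < q := by exact_mod_cast hq0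
  have hqR1 : (1 : ℝ) ≤ q := by exact_mod_cast hq0
  have hφ : (0 : ℝ) < Nat.totient q := by exact_mod_cast Nat.totient_pos.2 hq0
  obtain ⟨u, hu⟩ : ∃ u : ℝ, u = M1 * (b / X) := ⟨_, rfl⟩
  have hu0 : 0 < u := by rw [hu]; positivity
  obtain ⟨S, hS⟩ : ∃ S : ℝ, S = ∑ k ∈ Icc 1 K, ‖c k‖ ^ 2 := ⟨_, rfl⟩
  have hS0 : 0 ≤ S := by rw [hS]; positivity
  obtain ⟨F, hF⟩ : ∃ F : DirichletCharacter ℂ q → ℝ, F = fun χ =>
    ∫ γ in u..(16 * u), ‖cS q K c χ (σ * γ)‖ ^ 2 := ⟨_, rfl⟩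
  have hF0 : ∀ χ, 0 ≤ F χ := by
    intro χ
    rw [hF]
    exact intervalIntegral.integral_nonneg (by linarith) (fun γ _ => sq_nonneg _)
  unfold ZA
  rw [omQ_eq X n q hd, ← hu, ← hS]
  have e1 : ∀ χ : DirichletCharacter ℂ q,
      (∫ γ in u..(16 * u), ‖cS q K c χ (σ * γ)‖ ^ 2) = F χ := by
    intro χ; rw [hF]
  simp_rw [e1]
  have h1 : ∑ χ ∈ Om q (hq q n) hd MM a M V (X ^ 30), (χ.conductor : ℝ) * F χ ≤
      (q : ℝ) * ∑ χ ∈ Om q (hq q n) hd MM a M V (X ^ 30), F χ := by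
    rw [Finset.mul_sum]
    refine Finset.sum_le_sum (fun χ _ => ?_)
    refine mul_le_mul_of_nonneg_right ?_ (hF0 χ)
    exact_mod_cast Nat.le_of_dvd hq0 (DirichletCharacter.conductor_dvd_level χ)
  have h2 := om_sum q (hq q n) hd MM a M V (X ^ 30) F hF0
  have h3 : ∀ p ∈ LgC q MM a M V (X ^ 30), ∑ ξ : DirichletCharacter ℂ (hq q n),
      F (DirichletCharacter.changeLevel hd ξ * (p.1)⁻¹) ≤
        ((hq q n : ℝ) * (15 * u) + 1) * S := by
    intro p _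
    have h4 := coset_mass q (hq q n) hd K c (p.1)⁻¹ u (16 * u) σ hσ (by linarith)
    have h5 : 16 * u - u = 15 * u := by ring
    rw [h5, ← hS] at h4
    rw [hF]
    exact h4
  have h6 : ∑ p ∈ LgC q MM a M V (X ^ 30), ∑ ξ : DirichletCharacter ℂ (hq q n),
      F (DirichletCharacter.changeLevel hd ξ * (p.1)⁻¹) ≤
        G * (((hq q n : ℝ) * (15 * u) + 1) * S) := by
    refine (Finset.sum_le_sum h3).trans ?_
    rw [Finset.sum_const, nsmul_eq_mul]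
    exact mul_le_mul_of_nonneg_right hG (by positivity)
  have hG0 : 0 ≤ G := le_trans (Nat.cast_nonneg _) hG
  have h7 := En.totient_ge q hq0
  have hlogq : 0 ≤ Real.log q := Real.log_nonneg hqR1
  have hlogX : Real.log q ≤ Real.log X :=
    Real.log_le_log hqR (by exact_mod_cast hqX)
  have h8 : (q : ℝ) / Nat.totient q ≤ 2 * (1 + Real.log X) := by
    rw [div_le_iff₀ hφ]
    have hl2 : (0.5 : ℝ) ≤ Real.log 2 := by
      have := Real.log_two_gt_d9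
      linarith
    have h9 : Real.logb 2 q ≤ 2 * Real.log X := by
      unfold Real.logb
      rw [div_le_iff₀ (by linarith)]
      nlinarith
    nlinarith [mul_nonneg hφ.le (sub_nonneg.2 h9)]
  calc 1 / (Nat.totient q : ℝ) *
        ∑ χ ∈ Om q (hq q n) hd MM a M V (X ^ 30), (χ.conductor : ℝ) * F χ
      ≤ 1 / (Nat.totient q : ℝ) * ((q : ℝ) * (G * (((hq q n : ℝ) * (15 * u) + 1) * S))) := by
        refine mul_le_mul_of_nonneg_left ?_ (by positivity)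
        refine h1.trans (mul_le_mul_of_nonneg_left (h2.trans h6) hqR.le)
    _ = ((q : ℝ) / Nat.totient q) * (G * (((hq q n : ℝ) * (15 * u) + 1) * S)) := by
        field_simp
    _ ≤ (2 * (1 + Real.log X)) * (G * (((hq q n : ℝ) * (15 * u) + 1) * S)) :=
        mul_le_mul_of_nonneg_right h8 (by positivity)
    _ = 2 * (1 + Real.log X) * G * ((hq q n : ℝ) * (15 * u) + 1) * S := by ring

open Classical in
theorem om_win (q h : ℕ) [NeZero q] [NeZero h] (hd : h ∣ q) (MM : Finset ℕ) (a : ℕ → ℂ)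
    (M V R2 G : ℝ) (J0 : ℕ) (hR : ∀ p, ‖alm q MM a M p‖ ≤ R2) (hR0 : 0 ≤ R2)
    (hG : ((LgC q MM a M V J0).card : ℝ) ≤ G) (s : Finset ℤ) (χ : DirichletCharacter ℂ q) :
    ∑ ξ : DirichletCharacter ℂ h, ∑ j ∈ s,
      (if |j| ≤ (J0 : ℤ) ∧ V < ‖alm q MM a M (DirichletCharacter.changeLevel hd ξ * χ, j)‖ then
        ‖alm q MM a M (DirichletCharacter.changeLevel hd ξ * χ, j)‖ ^ 2 else 0) ≤ G * R2 ^ 2 := by
  obtain ⟨P, hP⟩ : ∃ P : DirichletCharacter ℂ h × ℤ → Prop, P = fun x =>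
    |x.2| ≤ (J0 : ℤ) ∧ V < ‖alm q MM a M (DirichletCharacter.changeLevel hd x.1 * χ, x.2)‖ :=
    ⟨_, rfl⟩
  have e0 : (∑ ξ : DirichletCharacter ℂ h, ∑ j ∈ s,
      (if |j| ≤ (J0 : ℤ) ∧ V < ‖alm q MM a M (DirichletCharacter.changeLevel hd ξ * χ, j)‖ then
        ‖alm q MM a M (DirichletCharacter.changeLevel hd ξ * χ, j)‖ ^ 2 else 0)) =
      ∑ x ∈ (univ : Finset (DirichletCharacter ℂ h)) ×ˢ s,
        (if P x then
          ‖alm q MM a M (DirichletCharacter.changeLevel hd x.1 * χ, x.2)‖ ^ 2 else 0) := by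
    rw [Finset.sum_product]
    refine Finset.sum_congr rfl (fun ξ _ => Finset.sum_congr rfl (fun j _ => ?_))
    by_cases hc : P (ξ, j)
    · rw [if_pos hc]
      rw [hP] at hc
      rw [if_pos hc]
    · rw [if_neg hc]
      rw [hP] at hc
      rw [if_neg hc]
  rw [e0, ← Finset.sum_filter]
  have h1 : ∑ x ∈ ((univ : Finset (DirichletCharacter ℂ h)) ×ˢ s).filter P,
      ‖alm q MM a M (DirichletCharacter.changeLevel hd x.1 * χ, x.2)‖ ^ 2 ≤
      ∑ x ∈ ((univ : Finset (DirichletCharacter ℂ h)) ×ˢ s).filter P, R2 ^ 2 := by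
    refine Finset.sum_le_sum (fun x _ => ?_)
    exact pow_le_pow_left₀ (norm_nonneg _) (hR _) 2
  have h2 : (((univ : Finset (DirichletCharacter ℂ h)) ×ˢ s).filter P).card ≤
      (LgC q MM a M V J0).card := by
    refine Finset.card_le_card_of_injOn
      (fun x => (DirichletCharacter.changeLevel hd x.1 * χ, x.2)) ?_ ?_
    · intro x hx
      have hx' := (Finset.mem_filter.1 (Finset.mem_coe.1 hx)).2
      rw [hP] at hx'
      simp only [Finset.mem_coe]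
      unfold LgC
      rw [Finset.mem_filter, Finset.mem_product]
      exact ⟨⟨Finset.mem_univ _, Finset.mem_Icc.2 (abs_le.1 hx'.1)⟩, hx'.2⟩
    · intro x _ y _ hxy
      have h3 := Prod.mk.inj hxy
      have h4 := mul_right_cancel h3.1
      have h5 := DirichletCharacter.changeLevel_injective hd h4
      exact Prod.ext h5 h3.2
  refine h1.trans ?_
  rw [Finset.sum_const, nsmul_eq_mul]
  refine mul_le_mul_of_nonneg_right ?_ (by positivity)
  refine le_trans ?_ hG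
  exact_mod_cast h2

end Pool.MP_dd84fd_nt.LXP
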