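import Pool.Agent.Lib.MP_dd84fd_nt.LX.SvVal
import Pool.Agent.Lib.MP_dd84fd_nt.KX.Fam

/-!
# Theorem L: Lemma CL for the minorant `A` and the majorant `B` (helper63)
-/

set_option autoImplicit false

namespace Pool.MP_dd84fd_nt.LX

open Finset Pool.MP_dd84fd_nt.HX Pool.MP_dd84fd_nt.IY Pool.MP_dd84fd_nt.KX

variable {v : ℕ → ℝ} {κ x a b w l : ℝ} {T : Finset ℕ}

/-- `|u - (x - w)| ≤ 20 l` as a real number -/
noncomputable def ed (x w l u : ℝ) : ℝ := if |u - (x - w)| ≤ 20 * l then 1 else 0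

theorem ed_nonneg (x w l u : ℝ) : 0 ≤ ed x w l u := by
  unfold ed
  split_ifs <;> norm_num

theorem nr_one {x l u : ℝ} (h1 : x / 2 - 20 * l ≤ u) (h2 : u ≤ x / 2 + 20 * l) : nr x l u = 1 := by
  unfold nr
  rw [if_pos]
  rw [abs_le]
  constructor <;> linarith

theorem ed_one {x w l u : ℝ} (h1 : x - w - 20 * l ≤ u) (h2 : u ≤ x - w + 20 * l) :
    ed x w l u = 1 := by
  unfold ed
  rw [if_pos]
  rw [abs_le]
  constructor <;> linarith

private theorem compA {x l s t : ℝ} (h1 : s + t ≤ x) (h2 : x - 6 * l ≤ s + t) :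
    ((if s ≤ x / 2 then (-1 : ℝ) else 2) + (if t ≤ x / 2 then (-1 : ℝ) else 2) = 1) ∨
    ((if s ≤ x / 2 then (-1 : ℝ) else 2) + (if t ≤ x / 2 then (-1 : ℝ) else 2) = -2 ∧
      x / 2 - 6 * l ≤ s ∧ s ≤ x / 2) := by
  by_cases c1 : s ≤ x / 2
  · by_cases c2 : t ≤ x / 2
    · right
      rw [if_pos c1, if_pos c2]
      refine ⟨by norm_num, by linarith, c1⟩
    · left
      rw [if_pos c1, if_neg c2]
      norm_num
  · left
    have c2 : t ≤ x / 2 := by linarith
    rw [if_neg c1, if_pos c2]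
    norm_num

private theorem compB {x l s t : ℝ} (h1 : s + t ≤ x) (h2 : x - 6 * l ≤ s + t) :
    ((if s < x / 2 - 3 * l then (1 : ℝ) else 2) + (if t < x / 2 - 3 * l then (1 : ℝ) else 2) =
      3) ∨
    ((if s < x / 2 - 3 * l then (1 : ℝ) else 2) + (if t < x / 2 - 3 * l then (1 : ℝ) else 2) =
      4 ∧ x / 2 - 3 * l ≤ s ∧ s ≤ x / 2 + 3 * l) := by
  by_cases c1 : s < x / 2 - 3 * l
  · have c2 : ¬ t < x / 2 - 3 * l := by
      intro h
      linarith
    left
    rw [if_pos c1, if_neg c2]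
    norm_num
  · by_cases c2 : t < x / 2 - 3 * l
    · left
      rw [if_neg c1, if_pos c2]
      norm_num
    · right
      rw [if_neg c1, if_neg c2]
      refine ⟨by norm_num, by linarith, by linarith⟩

/-! ### One box -/

theorem TyL.a1 (h : TyL v κ x a b w l T) (hc : T.card = 1) :
    ∑ S ∈ T.powerset, lamA v x w S = 1 ∧ ∑ S ∈ T.powerset, lamB v x b w l S = 1 := by
  obtain ⟨p, rfl⟩ := Finset.card_eq_one.1 hc
  have h1 := h.lo
  rw [sg_one] at h1
  obtain ⟨g1, g2, g3, g4, g5, g6, g7, g8, g9, g10, g11⟩ := h.par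
  have e1 : ¬ v p ≤ x / 2 := by
    intro h2
    linarith
  have e2 : ¬ v p < x / 2 - 3 * l := by
    intro h2
    linarith
  unfold lamA lamB
  rw [sum1, sum1, if_neg e1, if_neg e2, vE_zero (by linarith)]
  norm_num

/-! ### Two boxes -/

theorem TyL.a2 (h : TyL v κ x a b w l T) (hc : T.card = 2) :
    ∑ S ∈ T.powerset, lamA v x w S ≤ 0 ∧
      - ∑ S ∈ T.powerset, lamA v x w S ≤ ∑ j ∈ T, nr x l (v j) := by
  obtain ⟨p, q, hpq, hT⟩ := Finset.card_eq_two.1 hc
  have h1 := h.lo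
  have h2 := h.up
  rw [hT, sg_two v hpq] at h1 h2
  obtain ⟨g1, g2, g3, g4, g5, g6, g7, g8, g9, g10, g11⟩ := h.par
  have n1 := nr_nonneg x l (v p)
  have n2 := nr_nonneg x l (v q)
  have e1 : ¬ v p + v q ≤ w := by
    intro h2
    linarith
  rw [hT, Finset.sum_pair hpq]
  unfold lamA
  rw [sum2 _ _ _ _ _ hpq]
  unfold prG
  rw [if_neg e1]
  by_cases c1 : v p ≤ x / 2
  · by_cases c2 : v q ≤ x / 2
    · rw [if_pos c1, if_pos c2, nr_one (u := v p) (by linarith) (by linarith)]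
      constructor <;> linarith
    · rw [if_pos c1, if_neg c2]
      constructor <;> linarith
  · have c2 : v q ≤ x / 2 := by linarith
    rw [if_neg c1, if_pos c2]
    constructor <;> linarith

theorem TyL.b2 (h : TyL v κ x a b w l T) (hc : T.card = 2) :
    0 ≤ ∑ S ∈ T.powerset, lamB v x b w l S ∧
      ∑ S ∈ T.powerset, lamB v x b w l S ≤ ∑ j ∈ T, (vE x b w l (v j) + nr x l (v j)) := by
  obtain ⟨p, q, hpq, hT⟩ := Finset.card_eq_two.1 hc
  have h1 := h.lo
  have h2 := h.up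
  rw [hT, sg_two v hpq] at h1 h2
  obtain ⟨g1, g2, g3, g4, g5, g6, g7, g8, g9, g10, g11⟩ := h.par
  have n1 := nr_nonneg x l (v p)
  have n2 := nr_nonneg x l (v q)
  have u1 := vE_nonneg w l (v p) (show 3 * b ≤ x by linarith)
  have u2 := vE_nonneg w l (v q) (show 3 * b ≤ x by linarith)
  have e1 : ¬ v p + v q ≤ w := by
    intro h2
    linarith
  rw [hT, Finset.sum_pair hpq]
  unfold lamB
  rw [sum2 _ _ _ _ _ hpq]
  unfold prG
  rw [if_neg e1]
  by_cases c1 : v p < x / 2 - 3 * l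
  · have c2 : ¬ v q < x / 2 - 3 * l := by
      intro h
      linarith
    rw [if_pos c1, if_neg c2]
    constructor <;> linarith
  · by_cases c2 : v q < x / 2 - 3 * l
    · rw [if_neg c1, if_pos c2]
      constructor <;> linarith
    · rw [if_neg c1, if_neg c2, nr_one (u := v p) (by linarith) (by linarith)]
      constructor <;> linarith

/-! ### Three boxes -/

theorem TyL.a3 (h : TyL v κ x a b w l T) (hc : T.card = 3) :
    (∑ S ∈ T.powerset, lamA v x w S = 0) ∨
    (∑ S ∈ T.powerset, lamA v x w S = -2 ∧ ∀ j ∈ T, v j ≤ x - w) ∨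
    (∑ S ∈ T.powerset, lamA v x w S = -2 ∧ ∃ j ∈ T, x / 2 < v j) ∨
    (∑ S ∈ T.powerset, lamA v x w S = -3 ∧ ∃ j ∈ T, |v j - x / 2| ≤ 20 * l) := by
  obtain ⟨p, q, r, h1, h2, h3, hT, a1, a2⟩ := tri_max (v := v) hc
  obtain ⟨l1, l2, b1, b2, b3, w1, w2⟩ := h.tri h1 h2 h3 hT a1 a2
  obtain ⟨g1, g2, g3, g4, g5, g6, g7, g8, g9, g10, g11⟩ := h.par
  have e1 : ∑ S ∈ T.powerset, lamA v x w S = 1 + (if v p ≤ x / 2 then (-1 : ℝ) else 0) +
      (if v q ≤ x / 2 then (-1 : ℝ) else 0) + (if v r ≤ x / 2 then (-1 : ℝ) else 0) +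
      (if v p + v q ≤ w then (if v p + v q ≤ x / 2 then (-1 : ℝ) else 2) else 0) := by
    rw [hT]
    unfold lamA
    rw [sum3 _ _ _ _ _ h1 h2 h3]
    unfold prG
    rw [if_neg (not_le.2 w1), if_neg (not_le.2 w2)]
    simp only [add_zero, sub_zero]
  have c1 : v p ≤ x / 2 := by linarith
  have c2 : v q ≤ x / 2 := by linarith
  rw [e1, if_pos c1, if_pos c2]
  by_cases c3 : v p + v q ≤ w
  · rw [if_pos c3]
    by_cases c4 : v r ≤ x / 2
    · rw [if_pos c4]
      by_cases c5 : v p + v q ≤ x / 2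
      · rw [if_pos c5]
        right; right; right
        refine ⟨by norm_num, r, by rw [hT]; simp, ?_⟩
        rw [abs_le]
        constructor <;> linarith
      · rw [if_neg c5]
        left
        norm_num
    · rw [if_neg c4, if_pos (show v p + v q ≤ x / 2 by linarith)]
      right; right; left
      refine ⟨by norm_num, r, by rw [hT]; simp, not_le.1 c4⟩
  · rw [if_neg c3]
    have c4 : v r ≤ x - w := by linarith
    rw [if_pos (show v r ≤ x / 2 by linarith)]
    right; left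
    refine ⟨by norm_num, fun j hj => ?_⟩
    rw [hT] at hj
    simp only [mem_insert, mem_singleton] at hj
    rcases hj with rfl | rfl | rfl
    · linarith
    · linarith
    · exact c4

theorem TyL.b3 (h : TyL v κ x a b w l T) (hc : T.card = 3) :
    0 ≤ ∑ S ∈ T.powerset, lamB v x b w l S ∧
      ∑ S ∈ T.powerset, lamB v x b w l S ≤ 2 * (6 * l + 3) / (x - 3 * b) +
        ∑ j ∈ T, (nr x l (v j) + 2 * ed x w l (v j)) := by
  obtain ⟨p, q, r, h1, h2, h3, hT, a1, a2⟩ := tri_max (v := v) hc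
  obtain ⟨l1, l2, b1, b2, b3, w1, w2⟩ := h.tri h1 h2 h3 hT a1 a2
  obtain ⟨g1, g2, g3, g4, g5, g6, g7, g8, g9, g10, g11⟩ := h.par
  have hx3 : 0 < x - 3 * b := by linarith
  have s3 : ∀ f : ℕ → ℝ, ∑ j ∈ T, f j = f p + f q + f r := by
    intro f
    rw [hT, Finset.sum_insert (by simp [h1, h2]), Finset.sum_pair h3]
    ring
  have n1 := nr_nonneg x l (v p)
  have n2 := nr_nonneg x l (v q)
  have n3 := nr_nonneg x l (v r)
  have m1 := ed_nonneg x w l (v p)
  have m2 := ed_nonneg x w l (v q)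
  have m3 := ed_nonneg x w l (v r)
  have u3 := vE_nonneg w l (v r) (show 3 * b ≤ x by linarith)
  have hq0 : 0 ≤ 2 * (6 * l + 3) / (x - 3 * b) := by positivity
  have e1 : ∑ S ∈ T.powerset, lamB v x b w l S =
      1 + ((if v p < x / 2 - 3 * l then (-1 : ℝ) else 0) + vE x b w l (v p)) +
      ((if v q < x / 2 - 3 * l then (-1 : ℝ) else 0) + vE x b w l (v q)) +
      ((if v r < x / 2 - 3 * l then (-1 : ℝ) else 0) + vE x b w l (v r)) +
      (if v p + v q ≤ w then (if v p + v q < x / 2 - 3 * l then (1 : ℝ) else 2) -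
        (vE x b w l (v p) + vE x b w l (v q)) else 0) := by
    rw [hT]
    unfold lamB
    rw [sum3 _ _ _ _ _ h1 h2 h3]
    unfold prG
    rw [if_neg (not_le.2 w1), if_neg (not_le.2 w2)]
    simp only [add_zero]
  have c1 : v p < x / 2 - 3 * l := by linarith
  have c2 : v q < x / 2 - 3 * l := by linarith
  rw [e1, s3, if_pos c1, if_pos c2]
  by_cases c3 : v p + v q ≤ w
  · rw [if_pos c3]
    by_cases c4 : v r < x / 2 - 3 * l
    · have c5 : ¬ v p + v q < x / 2 - 3 * l := by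
        intro h
        linarith
      rw [if_pos c4, if_neg c5]
      by_cases c6 : v r ≤ x - w
      · have hu := vE_le (x := x) (b := b) (w := w) (l := l) (u := v r) (by linarith) g11
        rw [ed_one (u := v r) (by linarith) (by linarith)]
        constructor <;> linarith
      · rw [vE_zero (not_le.1 c6)] at *
        constructor <;> linarith
    · rw [if_neg c4]
      have c6 : vE x b w l (v r) = 0 := vE_zero (by linarith)
      rw [c6]
      by_cases c5 : v p + v q < x / 2 - 3 * l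
      · rw [if_pos c5]
        constructor <;> linarith
      · rw [if_neg c5, nr_one (u := v r) (by linarith) (by linarith)]
        constructor <;> linarith
  · rw [if_neg c3]
    have c4 : v r < x / 2 - 3 * l := by linarith
    rw [if_pos c4]
    have e2 : vE x b w l (v p) + vE x b w l (v q) + vE x b w l (v r) =
        2 * (v p + v q + v r - 3 * b + 6 * l + 3) / (x - 3 * b) := by
      rw [vE_eq (by linarith) (by linarith), vE_eq (by linarith) (by linarith),
        vE_eq (by linarith) (by linarith)]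
      field_simp
      ring
    have e3 : (2 : ℝ) ≤ 2 * (v p + v q + v r - 3 * b + 6 * l + 3) / (x - 3 * b) := by
      rw [le_div_iff₀ hx3]
      linarith
    have e4 : 2 * (v p + v q + v r - 3 * b + 6 * l + 3) / (x - 3 * b) ≤
        2 + 2 * (6 * l + 3) / (x - 3 * b) := by
      rw [div_le_iff₀ hx3, add_mul, div_mul_cancel₀ _ hx3.ne']
      linarith
    constructor <;> linarith

/-! ### Four boxes -/

theorem TyL.a4 (h : TyL v κ x a b w l T) (hc : T.card = 4) :
    ∑ S ∈ T.powerset, lamA v x w S ≤ 0 ∧ -9 ≤ ∑ S ∈ T.powerset, lamA v x w S ∧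
    (∑ S ∈ T.powerset, lamA v x w S = 0 ∨
      ∃ i ∈ T, ∃ j ∈ T, i ≠ j ∧ |v i + v j - x / 2| ≤ 20 * l) := by
  obtain ⟨p, q, r, s, h1, h2, h3, h4, h5, h6, hT⟩ := four_eq hc
  obtain ⟨l1, l2, b1, b2, b3, b4⟩ := h.four h1 h2 h3 h4 h5 h6 hT
  obtain ⟨g1, g2, g3, g4, g5, g6, g7, g8, g9, g10, g11⟩ := h.par
  have e1 : ∑ S ∈ T.powerset, lamA v x w S = -3 +
      ((if v p + v q ≤ x / 2 then (-1 : ℝ) else 2) + (if v r + v s ≤ x / 2 then (-1 : ℝ) else 2)) +
      ((if v p + v r ≤ x / 2 then (-1 : ℝ) else 2) + (if v q + v s ≤ x / 2 then (-1 : ℝ) else 2)) +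
      ((if v p + v s ≤ x / 2 then (-1 : ℝ) else 2) +
        (if v q + v r ≤ x / 2 then (-1 : ℝ) else 2)) := by
    rw [hT]
    unfold lamA
    rw [sum4 _ _ _ _ _ h1 h2 h3 h4 h5 h6]
    unfold prG
    rw [if_pos (show v p ≤ x / 2 by linarith), if_pos (show v q ≤ x / 2 by linarith),
      if_pos (show v r ≤ x / 2 by linarith), if_pos (show v s ≤ x / 2 by linarith),
      if_pos (show v p + v q ≤ w by linarith), if_pos (show v r + v s ≤ w by linarith),
      if_pos (show v p + v r ≤ w by linarith), if_pos (show v q + v s ≤ w by linarith),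
      if_pos (show v p + v s ≤ w by linarith), if_pos (show v q + v r ≤ w by linarith)]
    ring
  rw [e1]
  have hp : p ∈ T := by rw [hT]; simp
  have hq : q ∈ T := by rw [hT]; simp
  have hr : r ∈ T := by rw [hT]; simp
  have hs : s ∈ T := by rw [hT]; simp
  have near : ∀ i ∈ T, ∀ j ∈ T, i ≠ j → x / 2 - 6 * l ≤ v i + v j → v i + v j ≤ x / 2 →
      ∃ i ∈ T, ∃ j ∈ T, i ≠ j ∧ |v i + v j - x / 2| ≤ 20 * l := by
    intro i hi j hj hij k1 k2
    refine ⟨i, hi, j, hj, hij, ?_⟩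
    rw [abs_le]
    constructor <;> linarith
  have r1 := compA (x := x) (l := l) (s := v p + v q) (t := v r + v s) (by linarith) (by linarith)
  have r2 := compA (x := x) (l := l) (s := v p + v r) (t := v q + v s) (by linarith) (by linarith)
  have r3 := compA (x := x) (l := l) (s := v p + v s) (t := v q + v r) (by linarith) (by linarith)
  rcases r1 with r1 | ⟨r1, t1, t2⟩
  · rcases r2 with r2 | ⟨r2, t3, t4⟩
    · rcases r3 with r3 | ⟨r3, t5, t6⟩
      · rw [r1, r2, r3]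
        norm_num
      · rw [r1, r2, r3]
        exact ⟨by norm_num, by norm_num, Or.inr (near p hp s hs h3 t5 t6)⟩
    · rw [r1, r2]
      refine ⟨?_, ?_, Or.inr (near p hp r hr h2 t3 t4)⟩
      · rcases r3 with r3 | ⟨r3, _, _⟩ <;> rw [r3] <;> norm_num
      · rcases r3 with r3 | ⟨r3, _, _⟩ <;> rw [r3] <;> norm_num
  · rw [r1]
    refine ⟨?_, ?_, Or.inr (near p hp q hq h1 t1 t2)⟩
    · rcases r2 with r2 | ⟨r2, _, _⟩ <;> rcases r3 with r3 | ⟨r3, _, _⟩ <;> rw [r2, r3] <;>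
        norm_num
    · rcases r2 with r2 | ⟨r2, _, _⟩ <;> rcases r3 with r3 | ⟨r3, _, _⟩ <;> rw [r2, r3] <;>
        norm_num

theorem TyL.b4 (h : TyL v κ x a b w l T) (hc : T.card = 4) :
    0 ≤ ∑ S ∈ T.powerset, lamB v x b w l S ∧ ∑ S ∈ T.powerset, lamB v x b w l S ≤ 9 ∧
    (∑ S ∈ T.powerset, lamB v x b w l S ≤ 6 - 4 * (x - 4 * b) / (x - 3 * b) ∨
      ∃ i ∈ T, ∃ j ∈ T, i ≠ j ∧ |v i + v j - x / 2| ≤ 20 * l) := by
  obtain ⟨p, q, r, s, h1, h2, h3, h4, h5, h6, hT⟩ := four_eq hc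
  obtain ⟨l1, l2, b1, b2, b3, b4⟩ := h.four h1 h2 h3 h4 h5 h6 hT
  obtain ⟨g1, g2, g3, g4, g5, g6, g7, g8, g9, g10, g11⟩ := h.par
  have hx3 : 0 < x - 3 * b := by linarith
  have e1 : ∑ S ∈ T.powerset, lamB v x b w l S = -3 -
      2 * (vE x b w l (v p) + vE x b w l (v q) + vE x b w l (v r) + vE x b w l (v s)) +
      ((if v p + v q < x / 2 - 3 * l then (1 : ℝ) else 2) +
        (if v r + v s < x / 2 - 3 * l then (1 : ℝ) else 2)) +
      ((if v p + v r < x / 2 - 3 * l then (1 : ℝ) else 2) +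
        (if v q + v s < x / 2 - 3 * l then (1 : ℝ) else 2)) +
      ((if v p + v s < x / 2 - 3 * l then (1 : ℝ) else 2) +
        (if v q + v r < x / 2 - 3 * l then (1 : ℝ) else 2)) := by
    rw [hT]
    unfold lamB
    rw [sum4 _ _ _ _ _ h1 h2 h3 h4 h5 h6]
    unfold prG
    rw [if_pos (show v p < x / 2 - 3 * l by linarith),
      if_pos (show v q < x / 2 - 3 * l by linarith),
      if_pos (show v r < x / 2 - 3 * l by linarith),
      if_pos (show v s < x / 2 - 3 * l by linarith),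
      if_pos (show v p + v q ≤ w by linarith), if_pos (show v r + v s ≤ w by linarith),
      if_pos (show v p + v r ≤ w by linarith), if_pos (show v q + v s ≤ w by linarith),
      if_pos (show v p + v s ≤ w by linarith), if_pos (show v q + v r ≤ w by linarith)]
    ring
  have e2 : vE x b w l (v p) + vE x b w l (v q) + vE x b w l (v r) + vE x b w l (v s) =
      2 * (v p + v q + v r + v s - 4 * b + 8 * l + 4) / (x - 3 * b) := by
    rw [vE_eq (by linarith) (by linarith), vE_eq (by linarith) (by linarith),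
      vE_eq (by linarith) (by linarith), vE_eq (by linarith) (by linarith)]
    field_simp
    ring
  have e3 : 2 * (v p + v q + v r + v s - 4 * b + 8 * l + 4) / (x - 3 * b) ≤ 2 := by
    rw [div_le_iff₀ hx3]
    linarith
  have e4 : 2 * (x - 4 * b) / (x - 3 * b) ≤
      2 * (v p + v q + v r + v s - 4 * b + 8 * l + 4) / (x - 3 * b) := by
    rw [div_le_div_iff_of_pos_right hx3]
    linarith
  have e5 : 4 * (x - 4 * b) / (x - 3 * b) = 2 * (2 * (x - 4 * b) / (x - 3 * b)) := by ring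
  have e6 : 0 ≤ 2 * (v p + v q + v r + v s - 4 * b + 8 * l + 4) / (x - 3 * b) :=
    div_nonneg (by linarith) hx3.le
  rw [e1, e2, e5]
  have hp : p ∈ T := by rw [hT]; simp
  have hq : q ∈ T := by rw [hT]; simp
  have hr : r ∈ T := by rw [hT]; simp
  have hs : s ∈ T := by rw [hT]; simp
  have near : ∀ i ∈ T, ∀ j ∈ T, i ≠ j → x / 2 - 3 * l ≤ v i + v j → v i + v j ≤ x / 2 + 3 * l →
      ∃ i ∈ T, ∃ j ∈ T, i ≠ j ∧ |v i + v j - x / 2| ≤ 20 * l := by
    intro i hi j hj hij k1 k2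
    refine ⟨i, hi, j, hj, hij, ?_⟩
    rw [abs_le]
    constructor <;> linarith
  have r1 := compB (x := x) (l := l) (s := v p + v q) (t := v r + v s) (by linarith) (by linarith)
  have r2 := compB (x := x) (l := l) (s := v p + v r) (t := v q + v s) (by linarith) (by linarith)
  have r3 := compB (x := x) (l := l) (s := v p + v s) (t := v q + v r) (by linarith) (by linarith)
  rcases r1 with r1 | ⟨r1, t1, t2⟩
  · rcases r2 with r2 | ⟨r2, t3, t4⟩
    · rcases r3 with r3 | ⟨r3, t5, t6⟩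
      · rw [r1, r2, r3]
        exact ⟨by linarith, by linarith, Or.inl (by linarith)⟩
      · rw [r1, r2, r3]
        exact ⟨by linarith, by linarith, Or.inr (near p hp s hs h3 t5 t6)⟩
    · rw [r1, r2]
      refine ⟨?_, ?_, Or.inr (near p hp r hr h2 t3 t4)⟩
      · rcases r3 with r3 | ⟨r3, _, _⟩ <;> rw [r3] <;> linarith
      · rcases r3 with r3 | ⟨r3, _, _⟩ <;> rw [r3] <;> linarith
  · rw [r1]
    refine ⟨?_, ?_, Or.inr (near p hp q hq h1 t1 t2)⟩
    · rcases r2 with r2 | ⟨r2, _, _⟩ <;> rcases r3 with r3 | ⟨r3, _, _⟩ <;> rw [r2, r3] <;>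
        linarith
    · rcases r2 with r2 | ⟨r2, _, _⟩ <;> rcases r3 with r3 | ⟨r3, _, _⟩ <;> rw [r2, r3] <;>
        linarith

/-- Lemma CL -/
theorem TyL.cl (h : TyL v κ x a b w l T) :
    (T.card = 1 → ∑ S ∈ T.powerset, lamA v x w S = 1 ∧
      ∑ S ∈ T.powerset, lamB v x b w l S = 1) ∧
    (2 ≤ T.card → ∑ S ∈ T.powerset, lamA v x w S ≤ 0 ∧
      0 ≤ ∑ S ∈ T.powerset, lamB v x b w l S) := by
  refine ⟨h.a1, fun hc2 => ?_⟩
  have hc4 := h.card_le
  have hc : T.card = 2 ∨ T.card = 3 ∨ T.card = 4 := by omega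
  rcases hc with hc | hc | hc
  · exact ⟨(h.a2 hc).1, (h.b2 hc).1⟩
  · refine ⟨?_, (h.b3 hc).1⟩
    rcases h.a3 hc with h1 | ⟨h1, _⟩ | ⟨h1, _⟩ | ⟨h1, _⟩ <;> rw [h1] <;> norm_num
  · exact ⟨(h.a4 hc).1, (h.b4 hc).1⟩

end Pool.MP_dd84fd_nt.LX
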