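import Pool.Agent.Lib.MP_dd84fd_nt.KX.Defs

/-!
# Theorem L: the sieve weights (helper63)

Exceptional set `X^th`, `1/5 < th < 1/3`. Window `(X^τ, X^b]`, `b = bI th e = th - 3 e`; level of the
weights `X^ℓ`, `ℓ = lK th τ = (1+th)/2 - 2 τ`. A type without window set and with `US T ≤ X` has at
most four boxes, all of them `> X^b`. `x = log X`, `b = (th - 3e) x`, `w = ℓ x`, `l = log log X`,
`v j` = logarithm of the left end point of box `j`.

* minorant `A` (`amL`): `1`; `{p}`: `-1` for `v p ≤ x/2`; `{p,q}`: `-1` for `v p + v q ≤ x/2`, `2` for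
  `x/2 < v p + v q ≤ w`.
* majorant `B` (`bmL`): `1`; `{p}`: `u(v p) - [v p < x/2 - 3 l]`, `u = vE`; `{p,q}` with
  `v p + v q ≤ w`: `2 - u(v p) - u(v q)`, and `1 - u(v p) - u(v q)` for `v p + v q < x/2 - 3 l`.

On the types of the numbers in `(X5, X]`: one box: `A = B = 1`; more boxes: `A ≤ 0 ≤ B`.
-/

set_option autoImplicit false

namespace Pool.MP_dd84fd_nt.LX

open Finset Pool.MP_dd84fd_nt.HX Pool.MP_dd84fd_nt.IY Pool.MP_dd84fd_nt.KX

/-- admissible parameters for Theorem L -/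
def AdmX (th e τ : ℝ) : Prop := 1 / 5 < th ∧ th < 1 / 3 ∧ 0 < e ∧ 1000 * e ≤ τ ∧
  16 * τ ≤ th - 1 / 5 ∧ 16 * τ ≤ 1 / 3 - th

theorem AdmX.adm {th e τ : ℝ} (h : AdmX th e τ) : JX.Adm th e τ := by
  obtain ⟨h1, h2, h3, h4, h5, h6⟩ := h
  refine ⟨by linarith, by linarith, h3, by linarith, h4⟩

/-- weights on the sets with at most two boxes -/
noncomputable def lamG (f c u : ℝ → ℝ) (w : ℝ) (v : ℕ → ℝ) (S : Finset ℕ) : ℝ :=
  if S.card = 0 then 1 else if S.card = 1 then f (sg v S)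
  else if S.card = 2 then (if sg v S ≤ w then c (sg v S) - ∑ j ∈ S, u (v j) else 0) else 0

/-- the weights of the minorant -/
noncomputable def lamA (v : ℕ → ℝ) (x w : ℝ) : Finset ℕ → ℝ :=
  lamG (fun s => if s ≤ x / 2 then -1 else 0) (fun s => if s ≤ x / 2 then -1 else 2)
    (fun _ => 0) w v

/-- the weights of the majorant -/
noncomputable def lamB (v : ℕ → ℝ) (x b w l : ℝ) : Finset ℕ → ℝ :=
  lamG (fun s => (if s < x / 2 - 3 * l then -1 else 0) + vE x b w l s)
    (fun s => if s < x / 2 - 3 * l then 1 else 2) (vE x b w l) w v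

/-- the type function of the minorant -/
noncomputable def amL (α β ℓ κ : ℝ) (X : ℕ) : Finset ℕ → ℝ :=
  Wl α β κ X (lamA (vlog κ (zt X)) (Real.log X) (ℓ * Real.log X))

/-- the type function of the majorant -/
noncomputable def bmL (α β ℓ κ : ℝ) (X : ℕ) : Finset ℕ → ℝ :=
  Wl α β κ X (lamB (vlog κ (zt X)) (Real.log X) (β * Real.log X) (ℓ * Real.log X)
    (Real.log (Real.log X)))

/-- the minorant of the primes -/
noncomputable def amF (th e τ : ℝ) (B' X : ℕ) : ℕ → ℝ :=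
  wty (kp B' X) X (amL τ (bI th e) (lK th τ) (kp B' X) X)

/-- the majorant of the primes -/
noncomputable def bmF (th e τ : ℝ) (B' X : ℕ) : ℕ → ℝ :=
  wty (kp B' X) X (bmL τ (bI th e) (lK th τ) (kp B' X) X)

end Pool.MP_dd84fd_nt.LX
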