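import Pool.Agent.Lib.MP_dd84fd_nt.LX.SvDefs
import Pool.Agent.Lib.MP_dd84fd_nt.KX.Val

/-!
# Theorem L: values of the type functions (helper63)
-/

set_option autoImplicit false

namespace Pool.MP_dd84fd_nt.LX

open Finset Pool.MP_dd84fd_nt.HX Pool.MP_dd84fd_nt.IY Pool.MP_dd84fd_nt.KX

/-- hypotheses on the parameters -/
structure ParL (κ x a b w l : ℝ) : Prop where
  hl : 1 ≤ l
  hκ : 11 * κ ≤ 1
  ha : 0 < a
  h5b : x + 60 * l + 60 ≤ 5 * b
  h3b : 3 * b + 60 * l + 60 ≤ x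
  hw : 2 * w + 12 * l + 2 ≤ x + b
  hwx : w + 30 * l + 30 ≤ x
  hxw : x / 2 + 30 * l + 30 ≤ w
  h2bw : x + 30 * l + 30 ≤ 2 * b + w
  hw3b : w + 30 * l + 30 ≤ 3 * b
  h2b : 2 * b + 2 * l + 1 ≤ w

/-- hypotheses on a type -/
structure TyL (v : ℕ → ℝ) (κ x a b w l : ℝ) (T : Finset ℕ) : Prop where
  par : ParL κ x a b w l
  lo : x - 6 * l ≤ sg v T
  up : sg v T ≤ x
  ha : ∀ j ∈ T, a < v j
  hg : ¬ gdT v κ a b T

variable {v : ℕ → ℝ} {κ x a b w l : ℝ} {T : Finset ℕ}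

theorem TyL.box (h : TyL v κ x a b w l T) {j : ℕ} (hj : j ∈ T) : b - 1 < v j := by
  by_contra hc
  push Not at hc
  apply h.hg
  refine ⟨{j}, by simpa using hj, ?_, ?_⟩
  · rw [sg_one]
    exact h.ha j hj
  · rw [sg_one]
    linarith [h.par.hκ]

theorem TyL.card_mul (h : TyL v κ x a b w l T) : (T.card : ℝ) * (b - 1) ≤ x := by
  have h1 : ∑ j ∈ T, (b - 1) ≤ sg v T := Finset.sum_le_sum fun j hj => (h.box hj).le
  rw [Finset.sum_const, nsmul_eq_mul] at h1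
  exact h1.trans h.up

theorem ParL.pos (h : ParL κ x a b w l) : 0 < x ∧ 0 < b - 1 := by
  obtain ⟨g1, g2, g3, g4, g5, g6, g7, g8, g9, g10, g11⟩ := h
  constructor <;> linarith

theorem TyL.card_le (h : TyL v κ x a b w l T) : T.card ≤ 4 := by
  by_contra hc
  have hc' : 5 ≤ T.card := by omega
  have h1 := h.card_mul
  have h2 : (5 : ℝ) ≤ T.card := by exact_mod_cast hc'
  have h3 := h.par.h5b
  have h5 := h.par.hl
  have h6 := h.par.pos.2
  nlinarith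

theorem TyL.card_pos (h : TyL v κ x a b w l T) : 1 ≤ T.card := by
  by_contra hc
  have hc' : T = ∅ := Finset.card_eq_zero.1 (by omega)
  have h1 := h.lo
  rw [hc'] at h1
  simp only [sg, Finset.sum_empty] at h1
  have h3 := h.par.hxw
  have h4 := h.par.hwx
  have h5 := h.par.hl
  linarith

theorem sg_four (v : ℕ → ℝ) {p q r s : ℕ} (h1 : p ≠ q) (h2 : p ≠ r) (h3 : p ≠ s) (h4 : q ≠ r)
    (h5 : q ≠ s) (h6 : r ≠ s) : sg v {p, q, r, s} = v p + v q + v r + v s := by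
  unfold sg
  rw [Finset.sum_insert (by simp [h1, h2, h3]), Finset.sum_insert (by simp [h4, h5]),
    Finset.sum_insert (by simp [h6]), Finset.sum_singleton]
  ring

theorem psum4 (f : Finset ℕ → ℝ) {p q r s : ℕ} (h1 : p ≠ q) (h2 : p ≠ r) (h3 : p ≠ s)
    (h4 : q ≠ r) (h5 : q ≠ s) (h6 : r ≠ s) :
    ∑ S ∈ ({p, q, r, s} : Finset ℕ).powerset, f S =
      f ∅ + (f {p} + f {q} + f {r} + f {s}) +
      (f {p, q} + f {p, r} + f {p, s} + f {q, r} + f {q, s} + f {r, s}) +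
      (f {p, q, r} + f {p, q, s} + f {p, r, s} + f {q, r, s}) + f {p, q, r, s} := by
  rw [Finset.sum_powerset_insert (by simp [h1, h2, h3]), psum3 f h4 h5 h6,
    psum3 (fun S => f (insert p S)) h4 h5 h6]
  simp only [insert_empty_eq]
  ring

/-! ### Values of the weights -/

section
variable (f c u : ℝ → ℝ) (W : ℝ) (V : ℕ → ℝ)

theorem lamG_0 : lamG f c u W V ∅ = 1 := by simp [lamG]

theorem lamG_1 (p : ℕ) : lamG f c u W V {p} = f (V p) := by simp [lamG, sg_one]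

/-- the weight of a pair -/
noncomputable def prG (p q : ℕ) : ℝ :=
  if V p + V q ≤ W then c (V p + V q) - (u (V p) + u (V q)) else 0

theorem lamG_2 {p q : ℕ} (h : p ≠ q) : lamG f c u W V {p, q} = prG c u W V p q := by
  unfold lamG prG
  rw [Finset.card_pair h, sg_two V h, Finset.sum_pair h]
  simp

theorem lamG_big {S : Finset ℕ} (h : 3 ≤ S.card) : lamG f c u W V S = 0 := by
  unfold lamG
  rw [if_neg (by omega), if_neg (by omega), if_neg (by omega)]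

theorem sum1 (p : ℕ) : ∑ S ∈ ({p} : Finset ℕ).powerset, lamG f c u W V S = 1 + f (V p) := by
  rw [psum1, lamG_0, lamG_1]

theorem sum2 {p q : ℕ} (h : p ≠ q) : ∑ S ∈ ({p, q} : Finset ℕ).powerset, lamG f c u W V S =
    1 + f (V p) + f (V q) + prG c u W V p q := by
  rw [psum2 _ h, lamG_0, lamG_1, lamG_1, lamG_2 _ _ _ _ _ h]

theorem card3 {p q r : ℕ} (h1 : p ≠ q) (h2 : p ≠ r) (h3 : q ≠ r) :
    ({p, q, r} : Finset ℕ).card = 3 := by
  rw [Finset.card_insert_of_notMem (by simp [h1, h2]), Finset.card_pair h3]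

theorem sum3 {p q r : ℕ} (h1 : p ≠ q) (h2 : p ≠ r) (h3 : q ≠ r) :
    ∑ S ∈ ({p, q, r} : Finset ℕ).powerset, lamG f c u W V S =
      1 + f (V p) + f (V q) + f (V r) + prG c u W V p q + prG c u W V p r + prG c u W V q r := by
  rw [psum3 _ h1 h2 h3, lamG_0, lamG_1, lamG_1, lamG_1, lamG_2 _ _ _ _ _ h1,
    lamG_2 _ _ _ _ _ h2, lamG_2 _ _ _ _ _ h3, lamG_big _ _ _ _ _ (card3 h1 h2 h3).ge]
  ring

theorem sum4 {p q r s : ℕ} (h1 : p ≠ q) (h2 : p ≠ r) (h3 : p ≠ s) (h4 : q ≠ r) (h5 : q ≠ s)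
    (h6 : r ≠ s) :
    ∑ S ∈ ({p, q, r, s} : Finset ℕ).powerset, lamG f c u W V S =
      1 + (f (V p) + f (V q) + f (V r) + f (V s)) + (prG c u W V p q + prG c u W V r s) +
      (prG c u W V p r + prG c u W V q s) + (prG c u W V p s + prG c u W V q r) := by
  have h7 : ({p, q, r, s} : Finset ℕ).card = 4 := by
    rw [Finset.card_insert_of_notMem (by simp [h1, h2, h3]), card3 h4 h5 h6]
  rw [psum4 _ h1 h2 h3 h4 h5 h6, lamG_0, lamG_1, lamG_1, lamG_1, lamG_1, lamG_2 _ _ _ _ _ h1,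
    lamG_2 _ _ _ _ _ h2, lamG_2 _ _ _ _ _ h3, lamG_2 _ _ _ _ _ h4, lamG_2 _ _ _ _ _ h5,
    lamG_2 _ _ _ _ _ h6, lamG_big _ _ _ _ _ (card3 h1 h2 h4).ge,
    lamG_big _ _ _ _ _ (card3 h1 h3 h5).ge, lamG_big _ _ _ _ _ (card3 h2 h3 h6).ge,
    lamG_big _ _ _ _ _ (card3 h4 h5 h6).ge, lamG_big _ _ _ _ _ (by omega)]
  ring

end

/-! ### Shape of the types -/

/-- a type with three boxes, the largest is `r` -/
theorem tri_max {v : ℕ → ℝ} {T : Finset ℕ} (hc : T.card = 3) : ∃ p q r : ℕ, p ≠ q ∧ p ≠ r ∧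
    q ≠ r ∧ T = {p, q, r} ∧ v p ≤ v r ∧ v q ≤ v r := by
  obtain ⟨p, q, r, h1, h2, h3, hT⟩ := Finset.card_eq_three.1 hc
  rcases le_total (v p) (v r) with a1 | a1
  · rcases le_total (v q) (v r) with a2 | a2
    · exact ⟨p, q, r, h1, h2, h3, hT, a1, a2⟩
    · refine ⟨p, r, q, h2, h1, h3.symm, ?_, a1.trans a2, a2⟩
      rw [hT, Finset.pair_comm]
  · rcases le_total (v q) (v p) with a2 | a2
    · refine ⟨q, r, p, h3, h1.symm, h2.symm, ?_, a2, a1⟩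
      rw [hT]
      ext i
      simp only [mem_insert, mem_singleton]
      tauto
    · refine ⟨p, r, q, h2, h1, h3.symm, ?_, a2, a1.trans a2⟩
      rw [hT, Finset.pair_comm]

/-- three boxes: the two smaller ones are `< sg T - w` -/
theorem TyL.tri (h : TyL v κ x a b w l T) {p q r : ℕ} (h1 : p ≠ q) (h2 : p ≠ r) (h3 : q ≠ r)
    (hT : T = {p, q, r}) (a1 : v p ≤ v r) (a2 : v q ≤ v r) :
    x - 6 * l ≤ v p + v q + v r ∧ v p + v q + v r ≤ x ∧ b - 1 < v p ∧ b - 1 < v q ∧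
      b - 1 < v r ∧ w < v p + v r ∧ w < v q + v r := by
  have l1 := h.lo
  have l2 := h.up
  rw [hT, sg_three v h1 h2 h3] at l1 l2
  have b1 := h.box (j := p) (by rw [hT]; simp)
  have b2 := h.box (j := q) (by rw [hT]; simp)
  have b3 := h.box (j := r) (by rw [hT]; simp)
  obtain ⟨g1, g2, g3, g4, g5, g6, g7, g8, g9, g10, g11⟩ := h.par
  refine ⟨l1, l2, b1, b2, b3, ?_, ?_⟩
  · by_contra hc
    push Not at hc
    linarith
  · by_contra hc
    push Not at hc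
    linarith

/-- four boxes -/
theorem TyL.four (h : TyL v κ x a b w l T) {p q r s : ℕ} (h1 : p ≠ q) (h2 : p ≠ r) (h3 : p ≠ s)
    (h4 : q ≠ r) (h5 : q ≠ s) (h6 : r ≠ s) (hT : T = {p, q, r, s}) :
    x - 6 * l ≤ v p + v q + v r + v s ∧ v p + v q + v r + v s ≤ x ∧ b - 1 < v p ∧ b - 1 < v q ∧
      b - 1 < v r ∧ b - 1 < v s := by
  have l1 := h.lo
  have l2 := h.up
  rw [hT, sg_four v h1 h2 h3 h4 h5 h6] at l1 l2
  have b1 := h.box (j := p) (by rw [hT]; simp)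
  have b2 := h.box (j := q) (by rw [hT]; simp)
  have b3 := h.box (j := r) (by rw [hT]; simp)
  have b4 := h.box (j := s) (by rw [hT]; simp)
  exact ⟨l1, l2, b1, b2, b3, b4⟩

theorem four_eq {T : Finset ℕ} (hc : T.card = 4) : ∃ p q r s : ℕ, p ≠ q ∧ p ≠ r ∧ p ≠ s ∧
    q ≠ r ∧ q ≠ s ∧ r ≠ s ∧ T = {p, q, r, s} := by
  obtain ⟨p, T', hp, rfl, hT'⟩ := Finset.card_eq_succ.1 hc
  obtain ⟨q, r, s, h1, h2, h3, rfl⟩ := Finset.card_eq_three.1 hT'
  simp only [mem_insert, mem_singleton, not_or] at hp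
  exact ⟨p, q, r, s, hp.1, hp.2.1, hp.2.2, h1, h2, h3, rfl⟩

end Pool.MP_dd84fd_nt.LX
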